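import Pool.Agent.Lib.MP_c6118e_pr.Win.Defs

/-! # The averages `avU`, `avM` : basic facts -/

namespace Pool.Agent.Lib.MP_c6118e_pr.Win

open Finset Real
open scoped Classical

variable {d : ℕ}

theorem half_pow_sum (l : ℝ) (s : Finset (V d)) :
    ∑ _t ∈ s.powerset, (l / 2) ^ s.card = l ^ s.card := by
  rw [sum_const, card_powerset, nsmul_eq_mul, div_pow]
  push_cast
  field_simp

theorem avM_const (l x : ℝ) (f : Finset (V d) → ℝ) : avM l x (fun s _ => f s) = avU l x f := by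
  unfold avM avU
  refine sum_congr rfl fun s _ => ?_
  rw [← sum_mul, half_pow_sum]

theorem avU_one (l x : ℝ) : avU (d := d) l x (fun _ => 1) = Zx d l x := by
  unfold avU Zx
  simp

theorem avU_mono {l x : ℝ} (hl : 0 ≤ l) {f g : Finset (V d) → ℝ} (h : ∀ s ∈ Bx d x, f s ≤ g s) :
    avU l x f ≤ avU l x g :=
  sum_le_sum fun s hs => mul_le_mul_of_nonneg_left (h s hs) (pow_nonneg hl _)

theorem avM_mono {l x : ℝ} (hl : 0 ≤ l) {f g : Finset (V d) → Finset (V d) → ℝ}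
    (h : ∀ s ∈ Bx d x, ∀ t ⊆ s, f s t ≤ g s t) : avM l x f ≤ avM l x g :=
  sum_le_sum fun s hs => sum_le_sum fun t ht =>
    mul_le_mul_of_nonneg_left (h s hs t (mem_powerset.1 ht)) (pow_nonneg (by positivity) _)

theorem avU_nonneg {l x : ℝ} (hl : 0 ≤ l) {f : Finset (V d) → ℝ} (h : ∀ s ∈ Bx d x, 0 ≤ f s) :
    0 ≤ avU l x f := sum_nonneg fun s hs => mul_nonneg (pow_nonneg hl _) (h s hs)

theorem avM_nonneg {l x : ℝ} (hl : 0 ≤ l) {f : Finset (V d) → Finset (V d) → ℝ}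
    (h : ∀ s ∈ Bx d x, ∀ t ⊆ s, 0 ≤ f s t) : 0 ≤ avM l x f :=
  sum_nonneg fun s hs => sum_nonneg fun t ht =>
    mul_nonneg (pow_nonneg (by positivity) _) (h s hs t (mem_powerset.1 ht))

theorem avU_anti {l x y : ℝ} (hl : 0 ≤ l) (hxy : y ≤ x) {f : Finset (V d) → ℝ}
    (h : ∀ s ∈ Om d, 0 ≤ f s) : avU l x f ≤ avU l y f :=
  sum_le_sum_of_subset_of_nonneg (Bx_anti hxy) fun s hs _ =>
    mul_nonneg (pow_nonneg hl _) (h s (Bx_sub_Om _ hs))

theorem avM_anti {l x y : ℝ} (hl : 0 ≤ l) (hxy : y ≤ x) {f : Finset (V d) → Finset (V d) → ℝ}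
    (h : ∀ s ∈ Om d, ∀ t ⊆ s, 0 ≤ f s t) : avM l x f ≤ avM l y f :=
  sum_le_sum_of_subset_of_nonneg (Bx_anti hxy) fun s hs _ => sum_nonneg fun t ht =>
    mul_nonneg (pow_nonneg (by positivity) _) (h s (Bx_sub_Om _ hs) t (mem_powerset.1 ht))

theorem avU_add (l x : ℝ) (f g : Finset (V d) → ℝ) :
    avU l x (fun s => f s + g s) = avU l x f + avU l x g := by
  unfold avU
  rw [← sum_add_distrib]
  exact sum_congr rfl fun s _ => by ring

theorem avU_mul (l x c : ℝ) (f : Finset (V d) → ℝ) :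
    avU l x (fun s => c * f s) = c * avU l x f := by
  unfold avU
  rw [mul_sum]
  exact sum_congr rfl fun s _ => by ring

theorem avU_sum {ι : Type*} (l x : ℝ) (S : Finset ι) (f : ι → Finset (V d) → ℝ) :
    avU l x (fun s => ∑ i ∈ S, f i s) = ∑ i ∈ S, avU l x (f i) := by
  unfold avU
  rw [sum_comm]
  exact sum_congr rfl fun s _ => by rw [mul_sum]

theorem avM_add (l x : ℝ) (f g : Finset (V d) → Finset (V d) → ℝ) :
    avM l x (fun s t => f s t + g s t) = avM l x f + avM l x g := by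
  unfold avM
  rw [← sum_add_distrib]
  refine sum_congr rfl fun s _ => ?_
  rw [← sum_add_distrib]
  exact sum_congr rfl fun t _ => by ring

theorem avM_mul (l x c : ℝ) (f : Finset (V d) → Finset (V d) → ℝ) :
    avM l x (fun s t => c * f s t) = c * avM l x f := by
  unfold avM
  rw [mul_sum]
  refine sum_congr rfl fun s _ => ?_
  rw [mul_sum]
  exact sum_congr rfl fun t _ => by ring

theorem avM_sum {ι : Type*} (l x : ℝ) (S : Finset ι) (f : ι → Finset (V d) → Finset (V d) → ℝ) :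
    avM l x (fun s t => ∑ i ∈ S, f i s t) = ∑ i ∈ S, avM l x (f i) := by
  unfold avM
  rw [sum_comm]
  refine sum_congr rfl fun s _ => ?_
  rw [sum_comm]
  exact sum_congr rfl fun t _ => by rw [mul_sum]

theorem cnt_le_sdiff_union (p : ZMod 2) {s C : Finset (V d)} (S : Finset (V d)) :
    cnt p s ≤ cnt p ((s \ C) ∪ S) + C.card := by
  unfold cnt
  have h : s.filter (fun v => par v = p) ⊆ (((s \ C) ∪ S).filter fun v => par v = p) ∪ C := by
    intro v hv
    rw [mem_filter] at hv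
    by_cases hC : v ∈ C
    · exact mem_union_right _ hC
    · exact mem_union_left _ (mem_filter.2 ⟨mem_union_left _ (mem_sdiff.2 ⟨hv.1, hC⟩), hv.2⟩)
  exact (card_le_card h).trans (card_union_le _ _)

/-- changing at most `a` particles of each parity -/
theorem mem_Bx_of {x : ℝ} {s s' : Finset (V d)} {a : ℕ} (hs : s ∈ Bx d x) (hs' : s' ∈ Om d)
    (h0 : cnt 0 s ≤ cnt 0 s' + a) (h1 : cnt 1 s ≤ cnt 1 s' + a) : s' ∈ Bx d (x - a) := by
  rw [mem_Bx] at hs ⊢
  refine ⟨mem_Om.1 hs', ?_, ?_⟩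
  · have : (cnt 0 s : ℝ) ≤ cnt 0 s' + a := by exact_mod_cast h0
    linarith [hs.2.1]
  · have : (cnt 1 s : ℝ) ≤ cnt 1 s' + a := by exact_mod_cast h1
    linarith [hs.2.2]

theorem sdiff_union_mem_Bx {x : ℝ} {s C S : Finset (V d)} {a : ℕ} (hs : s ∈ Bx d x)
    (hC : C.card ≤ a) (hs' : (s \ C) ∪ S ∈ Om d) : (s \ C) ∪ S ∈ Bx d (x - a) :=
  mem_Bx_of hs hs' ((cnt_le_sdiff_union 0 S).trans (Nat.add_le_add_left hC _))
    ((cnt_le_sdiff_union 1 S).trans (Nat.add_le_add_left hC _))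

end Pool.Agent.Lib.MP_c6118e_pr.Win
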