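import Pool.Agent.Lib.MP_c6118e_pr.Win.TOOL

/-! # CNT: counting lemmas -/

namespace Pool.Agent.Lib.MP_c6118e_pr.Win

open Finset Real
open scoped Classical

variable {d : ℕ}

theorem CNT_sum_adjk_le (t : Finset (V d)) (P : V d → Prop) (k : Fin d) :
    ∑ u : V d, (t.filter fun q => adjk k u q ∧ P q).card ≤ d * (t.filter P).card := by
  have h1 : ∀ u : V d, (t.filter fun q => adjk k u q ∧ P q).card =
      ∑ q ∈ t.filter P, if adjk k u q then 1 else 0 := by
    intro u
    rw [← card_filter, filter_filter]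
    congr 1
    apply filter_congr
    intro q _
    exact and_comm
  calc ∑ u : V d, (t.filter fun q => adjk k u q ∧ P q).card
      = ∑ u : V d, ∑ q ∈ t.filter P, (if adjk k u q then 1 else 0) :=
        sum_congr rfl fun u _ => h1 u
    _ = ∑ q ∈ t.filter P, ∑ u : V d, (if adjk k u q then 1 else 0) := sum_comm
    _ ≤ ∑ q ∈ t.filter P, d := by
        refine sum_le_sum fun q _ => ?_
        rw [← card_filter]
        exact card_adjk_le k q
    _ = d * (t.filter P).card := by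
        rw [sum_const, smul_eq_mul, mul_comm]

/-- `∑_u NRn ≤ d NRg` -/
theorem sum_NRn_le (T l K : ℝ) (k : Fin d) (m : ℕ) (s t : Finset (V d)) :
    ∑ u : V d, NRn T l K k m s t u ≤ d * NRg T l K k m s t := by
  unfold NRn NRg
  convert CNT_sum_adjk_le t (fun q => An T l s q ∧ NR T l K k m s t q) k

theorem sum_XCn_le (T l K : ℝ) (n : ℕ) (k : Fin d) (m : ℕ) (s t : Finset (V d)) :
    ∑ u : V d, XCn T l K n k m s t u ≤ d * XCg T l K n k m s t := by
  unfold XCn XCg
  convert CNT_sum_adjk_le t (fun q => An T l s q ∧ XC T l K n k m s t q) k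

theorem CNT_xexp (z : ℝ) : z * exp (-z) ≤ exp (-1) := by
  have h1 : z ≤ exp (z - 1) := by
    have := Real.add_one_le_exp (z - 1)
    linarith
  calc z * exp (-z) ≤ exp (z - 1) * exp (-z) :=
        mul_le_mul_of_nonneg_right h1 (Real.exp_pos _).le
    _ = exp (-1) := by
        rw [← Real.exp_add]
        congr 1
        ring

theorem CNT_const : (20 / 3 : ℝ) * exp (-1) ≤ 5 / 2 := by
  have h := Real.exp_one_gt_d9
  have h1 : exp (-1 : ℝ) = (exp 1)⁻¹ := Real.exp_neg 1
  rw [h1]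
  have h2 : (0 : ℝ) < exp 1 := Real.exp_pos 1
  rw [← div_eq_mul_inv, div_le_iff₀ h2]
  nlinarith

/-- `∑_k l poti ≤ (5/2) d` -/
theorem sum_poti_le (T : ℝ) {l : ℝ} (hl : 0 < l) (s : Finset (V d)) (u : V d) :
    ∑ k : Fin d, l * poti T l k s u ≤ 5 / 2 * d := by
  have h1 : ∑ k : Fin d, l * poti T l k s u =
      ∑ j : Fin d, ∑ k : Fin d, (if j ≠ k ∧ An T l s (nb j (nb k u)) then
        l * exp (-(3 / 20 * l * (Fn T l s (nb j u) : ℝ))) else 0) := by
    rw [sum_comm]
    refine sum_congr rfl fun k _ => ?_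
    unfold poti
    rw [mul_sum, sum_filter]
  rw [h1]
  have h2 : ∀ j : Fin d, ∑ k : Fin d, (if j ≠ k ∧ An T l s (nb j (nb k u)) then
        l * exp (-(3 / 20 * l * (Fn T l s (nb j u) : ℝ))) else 0) ≤ 5 / 2 := by
    intro j
    rw [← sum_filter, sum_const, nsmul_eq_mul]
    have hc : (univ.filter fun k : Fin d => j ≠ k ∧ An T l s (nb j (nb k u))).card ≤
        Fn T l s (nb j u) := by
      unfold Fn
      apply card_le_card
      intro k hk
      rw [mem_filter] at hk ⊢
      refine ⟨hk.1, ?_⟩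
      rw [nb_comm k j]
      exact hk.2.2
    have hc' : ((univ.filter fun k : Fin d => j ≠ k ∧ An T l s (nb j (nb k u))).card : ℝ) ≤
        (Fn T l s (nb j u) : ℝ) := by exact_mod_cast hc
    have hpos : 0 ≤ l * exp (-(3 / 20 * l * (Fn T l s (nb j u) : ℝ))) :=
      mul_nonneg hl.le (Real.exp_pos _).le
    have h3 := CNT_xexp (3 / 20 * l * (Fn T l s (nb j u) : ℝ))
    have h4 := CNT_const
    calc ((univ.filter fun k : Fin d => j ≠ k ∧ An T l s (nb j (nb k u))).card : ℝ) *
          (l * exp (-(3 / 20 * l * (Fn T l s (nb j u) : ℝ))))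
        ≤ (Fn T l s (nb j u) : ℝ) * (l * exp (-(3 / 20 * l * (Fn T l s (nb j u) : ℝ)))) :=
          mul_le_mul_of_nonneg_right hc' hpos
      _ = 20 / 3 * (3 / 20 * l * (Fn T l s (nb j u) : ℝ) *
            exp (-(3 / 20 * l * (Fn T l s (nb j u) : ℝ)))) := by ring
      _ ≤ 20 / 3 * exp (-1) := by linarith
      _ ≤ 5 / 2 := h4
  calc ∑ j : Fin d, ∑ k : Fin d, (if j ≠ k ∧ An T l s (nb j (nb k u)) then
        l * exp (-(3 / 20 * l * (Fn T l s (nb j u) : ℝ))) else 0)
      ≤ ∑ _j : Fin d, (5 / 2 : ℝ) := sum_le_sum fun j _ => h2 j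
    _ = 5 / 2 * d := by
        rw [sum_const, nsmul_eq_mul, card_univ, Fintype.card_fin, mul_comm]

theorem poti_nb_le (T : ℝ) {l : ℝ} (hl : 0 < l) (k : Fin d) (s : Finset (V d)) (v : V d) :
    poti T l k s (nb k v) ≤ Fr s v := by
  unfold poti
  have h1 : ∑ j ∈ univ.filter (fun j => j ≠ k ∧ An T l s (nb j (nb k (nb k v)))),
      exp (-(3 / 20 * l * (Fn T l s (nb j (nb k v)) : ℝ))) ≤
      ∑ _j ∈ univ.filter (fun j => j ≠ k ∧ An T l s (nb j (nb k (nb k v)))), (1 : ℝ) := by
    refine sum_le_sum fun j _ => ?_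
    rw [Real.exp_le_one_iff]
    have : 0 ≤ 3 / 20 * l * (Fn T l s (nb j (nb k v)) : ℝ) := by positivity
    linarith
  refine h1.trans ?_
  rw [sum_const, nsmul_eq_mul, mul_one]
  have h2 : (univ.filter (fun j : Fin d => j ≠ k ∧ An T l s (nb j (nb k (nb k v))))).card ≤
      Fr s v := by
    unfold Fr Fset
    apply card_le_card
    intro j hj
    rw [mem_filter] at hj ⊢
    refine ⟨hj.1, fun i _ => ?_⟩
    have h3 := hj.2.2.1
    rw [nb_nb, nOcc_eq_zero] at h3
    exact h3 i
  exact_mod_cast h2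

theorem FFp_symm {l c : ℝ} {s : Finset (V d)} {u : V d} {i : Fin d} :
    FFp l c s (nb i u) i ↔ FFp l c s u i := by
  unfold FFp
  rw [nb_nb]
  constructor
  · rintro ⟨h1, h2, h3, h4⟩
    exact ⟨h2, h1, h4, h3⟩
  · rintro ⟨h1, h2, h3, h4⟩
    exact ⟨h2, h1, h4, h3⟩

theorem CNT_remove_one {l : ℝ} (hl : 0 < l) (x : ℝ) (v : V d) {f g : Finset (V d) → ℝ}
    (hg : ∀ s, 0 ≤ g s) (hf : ∀ s, v ∉ s → f s = 0) (h : ∀ s, v ∈ s → f s ≤ g (s \ {v})) :
    avU l x f ≤ l * avU (d := d) l (x - 1) g := by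
  have h1 := removal (d := d) (l := l) (x := x) hl.le (f := f) (g := g) (fun _ => {v})
    (fun _ => {{v}}) 1 (fun s _ => hg s) (by
      intro s hs hfs
      have hv : v ∈ s := by
        by_contra hv
        exact hfs (hf s hv)
      refine ⟨singleton_subset_iff.2 hv, ?_, mem_singleton_self _, h s hv⟩
      have h2 : s \ {v} ∈ Om d := by
        rw [mem_Om]
        exact Ind.mono (mem_Om.1 (Bx_sub_Om _ hs)) sdiff_subset
      have h3 := sdiff_union_mem_Bx (x := x) (s := s) (C := {v}) (S := ∅) (a := 1) hs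
        (by simp) (by rw [union_empty]; exact h2)
      rw [union_empty] at h3
      exact h3)
  refine h1.trans (le_of_eq ?_)
  rw [← avU_mul, Nat.cast_one]
  congr 1
  funext s
  rw [sum_singleton, card_singleton, pow_one, mul_comm]

/-- removing one particle -/
theorem avU_card_le {l : ℝ} (hl : 0 < l) (x : ℝ) :
    avU (d := d) l x (fun s => (s.card : ℝ)) ≤ l * 2 ^ d * Zx d l (x - 1) := by
  have h1 : (fun s : Finset (V d) => (s.card : ℝ)) =
      fun s => ∑ v : V d, if v ∈ s then (1 : ℝ) else 0 := by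
    funext s
    rw [← sum_filter, sum_const, nsmul_eq_mul, mul_one]
    congr 2
    ext v
    simp
  rw [h1, avU_sum]
  have h2 : ∀ v : V d, avU l x (fun s => if v ∈ s then (1 : ℝ) else 0) ≤
      l * Zx d l (x - 1) := by
    intro v
    have := CNT_remove_one hl x v (f := fun s => if v ∈ s then (1 : ℝ) else 0)
      (g := fun _ => 1) (fun _ => zero_le_one) (fun s hs => if_neg hs)
      (fun s hs => by simp only [if_pos hs]; exact le_refl _)
    rwa [avU_one] at this
  calc ∑ v : V d, avU l x (fun s => if v ∈ s then (1 : ℝ) else 0)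
      ≤ ∑ _v : V d, l * Zx d l (x - 1) := sum_le_sum fun v _ => h2 v
    _ = l * 2 ^ d * Zx d l (x - 1) := by
        rw [sum_const, nsmul_eq_mul, card_univ, card_V]
        push_cast
        ring

theorem CNT_Fr_self (s : Finset (V d)) (v : V d) : Fr (s \ {v}) v = Fr s v := by
  unfold Fr Fset
  congr 1
  apply filter_congr
  intro i _
  constructor
  · intro h j hj h1
    refine h j hj (mem_sdiff.2 ⟨h1, ?_⟩)
    rw [mem_singleton]
    intro h2
    have h3 : nb i v = nb j v := by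
      have := congrArg (nb j) h2
      rwa [nb_nb] at this
    exact hj (nb_inj h3).symm
  · intro h j hj h1
    exact h j hj (mem_sdiff.1 h1).1

theorem CNT_Fr_nb (s : Finset (V d)) (v : V d) (i : Fin d) :
    Fr (s \ {v}) (nb i v) = Fr s (nb i v) := by
  apply Fr_congr
  intro z hz
  rw [mem_sdiff, mem_singleton]
  constructor
  · exact fun h => h.1
  · intro h
    refine ⟨h, ?_⟩
    rintro rfl
    exact par_nb_ne i z hz.symm

theorem CNT_Rp_self {l r : ℝ} (s : Finset (V d)) (v : V d) :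
    Rp l r (s \ {v}) v ↔ Rp l r s v := by
  unfold Rp
  simp only [CNT_Fr_self, CNT_Fr_nb]

/-- occupied vertices of `Rp` -/
theorem avU_occ_R {l e1 r : ℝ} (hl : 0 < l) (x : ℝ) :
    avU (d := d) l x (fun s => ∑ v ∈ univ.filter (fun v => Rp l r s v ∧ v ∈ s),
      exp (-(e1 * (l * (Fr s v : ℝ))))) ≤ l * avU (d := d) l (x - 1) (fun s => Rw l e1 r s) := by
  have h1 : (fun s : Finset (V d) => ∑ v ∈ univ.filter (fun v => Rp l r s v ∧ v ∈ s),
      exp (-(e1 * (l * (Fr s v : ℝ))))) = fun s => ∑ v : V d,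
        if Rp l r s v ∧ v ∈ s then exp (-(e1 * (l * (Fr s v : ℝ)))) else 0 := by
    funext s
    rw [sum_filter]
  have h2 : (fun s : Finset (V d) => Rw l e1 r s) = fun s => ∑ v : V d,
        if Rp l r s v then exp (-(e1 * (l * (Fr s v : ℝ)))) else 0 := by
    funext s
    unfold Rw
    rw [sum_filter]
  rw [h1, h2, avU_sum, avU_sum, mul_sum]
  refine sum_le_sum fun v _ => ?_
  refine CNT_remove_one hl x v ?_ ?_ ?_
  · intro s
    split_ifs
    · exact (Real.exp_pos _).le
    · exact le_refl _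
  · intro s hs
    exact if_neg fun h => hs h.2
  · intro s hs
    by_cases h : Rp l r s v
    · rw [if_pos ⟨h, hs⟩, if_pos ((CNT_Rp_self s v).2 h), CNT_Fr_self]
    · rw [if_neg fun h' => h h'.1, if_neg fun h' => h ((CNT_Rp_self s v).1 h')]

theorem Rw_anti {l e1 r r' : ℝ} (h : r' ≤ r) (s : Finset (V d)) : Rw l e1 r s ≤ Rw l e1 r' s := by
  unfold Rw
  refine sum_le_sum_of_subset_of_nonneg ?_ fun v _ _ => (Real.exp_pos _).le
  intro v hv
  rw [mem_filter] at hv ⊢
  refine ⟨hv.1, h.trans hv.2.1, hv.2.2.trans (Nat.mul_le_mul_left 4 (card_le_card ?_))⟩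
  intro i hi
  rw [mem_filter] at hi ⊢
  exact ⟨hi.1, h.trans hi.2⟩

end Pool.Agent.Lib.MP_c6118e_pr.Win
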