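import Pool.Agent.Lib.MP_c6118e_pr.Win.FR

/-! # COSTW: the recolouring inequality for the two-colour Widom-Rowlinson model -/

namespace Pool.Agent.Lib.MP_c6118e_pr.Win

open Finset Real
open scoped Classical

variable {d : ℕ}

namespace WR

variable {W : Type*} [Fintype W] [DecidableEq W]

/-- vertices reachable from `q` through `D` -/
noncomputable def reach (adj : W → W → Prop) (D : Finset W) (q : W) : Finset W :=
  univ.filter fun r => Relation.ReflTransGen (fun a b => b ∈ D ∧ adj a b) q r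

/-- members of `t` in components (of `t`) of size at least `b` -/
noncomputable def big (adj : W → W → Prop) (b : ℕ) (t : Finset W) : Finset W :=
  t.filter fun q => b ≤ (reach adj t q).card

/-- `c ⊆ P` (the second colour) is a colouring of `P` without bichromatic edges -/
def Col (adj : W → W → Prop) (P c : Finset W) : Prop :=
  c ⊆ P ∧ ∀ a ∈ P, ∀ a' ∈ P, adj a a' → (a ∈ c ↔ a' ∈ c)

/-- sites outside `P` adjacent to `big` particles of both colours -/
noncomputable def dv (adj : W → W → Prop) (b : ℕ) (P c t : Finset W) : Finset W :=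
  univ.filter fun v => v ∉ P ∧ (∃ a ∈ big adj b t, a ∈ c ∧ adj v a) ∧
    ∃ a ∈ big adj b t, a ∉ c ∧ adj v a

/-- number of particles adjacent to `v` whose component in `P` contains no `big` particle -/
noncomputable def kp (adj : W → W → Prop) (b : ℕ) (P t : Finset W) (v : W) : ℕ :=
  (P.filter fun a => adj v a ∧ ¬ ∃ r ∈ reach adj P a, r ∈ big adj b t).card

theorem costw_mem_reach {adj : W → W → Prop} {D : Finset W} {q r : W} :
    r ∈ reach adj D q ↔ Relation.ReflTransGen (fun a b => b ∈ D ∧ adj a b) q r := by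
  simp [reach]

theorem costw_self {adj : W → W → Prop} {D : Finset W} {q : W} : q ∈ reach adj D q :=
  costw_mem_reach.2 .refl

theorem costw_trans {adj : W → W → Prop} {D : Finset W} {p q r : W} (h1 : q ∈ reach adj D p)
    (h2 : r ∈ reach adj D q) : r ∈ reach adj D p := by
  rw [costw_mem_reach] at *
  exact h1.trans h2

theorem costw_step {adj : W → W → Prop} {D : Finset W} {p q : W} (h1 : q ∈ D)
    (h2 : adj p q) : q ∈ reach adj D p :=
  costw_mem_reach.2 (.single ⟨h1, h2⟩)

theorem costw_sub {adj : W → W → Prop} {D : Finset W} {q r : W} (hq : q ∈ D)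
    (h : r ∈ reach adj D q) : r ∈ D := by
  rw [costw_mem_reach] at h
  induction h with
  | refl => exact hq
  | tail _ hbc _ => exact hbc.1

theorem costw_symm {adj : W → W → Prop} (hadj : ∀ a a', adj a a' → adj a' a) {D : Finset W}
    {q r : W} (hq : q ∈ D) (h : r ∈ reach adj D q) : q ∈ reach adj D r := by
  rw [costw_mem_reach] at *
  induction h with
  | refl => exact .refl
  | tail hab hbc ih =>
    exact Relation.ReflTransGen.head
      ⟨costw_sub hq (costw_mem_reach.2 hab), hadj _ _ hbc.2⟩ ih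

theorem costw_col {adj : W → W → Prop} {P c : Finset W} (h : Col adj P c) {q r : W}
    (hq : q ∈ P) (hr : r ∈ reach adj P q) : q ∈ c ↔ r ∈ c := by
  rw [costw_mem_reach] at hr
  induction hr with
  | refl => exact Iff.rfl
  | tail hab hbc ih =>
    exact ih.trans (h.2 _ (costw_sub hq (costw_mem_reach.2 hab)) _ hbc.1 hbc.2)

theorem costw_leave {adj : W → W → Prop} {P Z : Finset W} {p r : W}
    (hr : r ∈ reach adj (P ∪ Z) p) :
    r ∈ reach adj P p ∨ ∃ a ∈ reach adj P p, ∃ v ∈ Z, adj a v := by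
  rw [costw_mem_reach] at hr
  induction hr with
  | refl => exact Or.inl costw_self
  | tail hab hbc ih =>
    rcases ih with ih | ih
    · rcases Finset.mem_union.1 hbc.1 with h | h
      · exact Or.inl (costw_trans ih (costw_step h hbc.2))
      · exact Or.inr ⟨_, ih, _, h, hbc.2⟩
    · exact Or.inr ih

/-- sites adjacent to `cL` and to the rest of `big` -/
noncomputable def costwD (adj : W → W → Prop) (b : ℕ) (t cL : Finset W) : Finset W :=
  univ.filter fun v => (∃ a ∈ big adj b t, a ∈ cL ∧ adj v a) ∧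
    ∃ a ∈ big adj b t, a ∉ cL ∧ adj v a

theorem costw_big_sub {adj : W → W → Prop} {b : ℕ} {t : Finset W} : big adj b t ⊆ t :=
  Finset.filter_subset _ _

theorem costw_dv {adj : W → W → Prop} {b : ℕ}
    {t cL P c : Finset W} (htP : t ⊆ P) (hc : Col adj P c) (hL : c ∩ big adj b t = cL) :
    dv adj b P c t = costwD adj b t cL := by
  ext v
  simp only [dv, costwD, Finset.mem_filter, Finset.mem_univ, true_and]
  have key : ∀ a ∈ big adj b t, (a ∈ cL ↔ a ∈ c) := by
    intro a ha
    rw [← hL, Finset.mem_inter]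
    exact ⟨fun h => h.1, fun h => ⟨h, ha⟩⟩
  constructor
  · rintro ⟨_, ⟨a, ha, hac, hva⟩, a', ha', hac', hva'⟩
    exact ⟨⟨a, ha, (key a ha).2 hac, hva⟩, a', ha', fun h => hac' ((key a' ha').1 h), hva'⟩
  · rintro ⟨⟨a, ha, hac, hva⟩, a', ha', hac', hva'⟩
    have h1 : a ∈ c := (key a ha).1 hac
    have h2 : a' ∉ c := fun h => hac' ((key a' ha').2 h)
    refine ⟨?_, ⟨a, ha, h1, hva⟩, a', ha', h2, hva'⟩
    intro hv
    have e1 := hc.2 v hv a (htP (costw_big_sub ha)) hva
    have e2 := hc.2 v hv a' (htP (costw_big_sub ha')) hva'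
    exact h2 (e2.1 (e1.2 h1))

/-- the new second colour -/
noncomputable def costwC (adj : W → W → Prop) (b : ℕ) (t P c Z : Finset W) : Finset W :=
  c.filter fun a => ¬ ∃ r ∈ reach adj (P ∪ Z) a, r ∈ big adj b t

theorem costw_colC {adj : W → W → Prop} (hadj : ∀ a a', adj a a' → adj a' a) {b : ℕ}
    {t P c Z : Finset W} (htP : t ⊆ P) (hc : Col adj P c) (hZ : Z ⊆ dv adj b P c t) :
    Col adj (P ∪ Z) (costwC adj b t P c Z) := by
  have one : ∀ a ∈ P ∪ Z, ∀ a' ∈ P ∪ Z, adj a a' → a ∈ costwC adj b t P c Z →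
      a' ∈ costwC adj b t P c Z := by
    intro a _ a' ha' haa h
    simp only [costwC, Finset.mem_filter] at h ⊢
    obtain ⟨hac, hno⟩ := h
    have hr : a' ∈ reach adj (P ∪ Z) a := costw_step ha' haa
    have hno' : ¬ ∃ r ∈ reach adj (P ∪ Z) a', r ∈ big adj b t := by
      rintro ⟨r, hr', hrb⟩
      exact hno ⟨r, costw_trans hr hr', hrb⟩
    have ha'P : a' ∈ P := by
      rcases Finset.mem_union.1 ha' with h | h
      · exact h
      · exfalso
        have h1 := hZ h
        simp only [dv, Finset.mem_filter, Finset.mem_univ, true_and] at h1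
        obtain ⟨_, ⟨x, hx, _, hax⟩, _⟩ := h1
        exact hno' ⟨x, costw_step (Finset.mem_union_left _ (htP (costw_big_sub hx))) hax, hx⟩
    exact ⟨(hc.2 a (hc.1 hac) a' ha'P haa).1 hac, hno'⟩
  refine ⟨?_, ?_⟩
  · intro a ha
    exact Finset.mem_union_left _ (hc.1 (Finset.mem_filter.1 ha).1)
  · intro a ha a' ha' haa
    exact ⟨one a ha a' ha' haa, one a' ha' a ha (hadj _ _ haa)⟩

/-- the uncontrolled particles -/
noncomputable def costwA (adj : W → W → Prop) (b : ℕ) (t P Z : Finset W) : Finset W :=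
  Z.biUnion fun v => P.filter fun a => adj v a ∧ ¬ ∃ r ∈ reach adj P a, r ∈ big adj b t

theorem costw_cardA (adj : W → W → Prop) (b : ℕ) (t P Z : Finset W) :
    (costwA adj b t P Z).card ≤ ∑ v ∈ Z, kp adj b P t v := Finset.card_biUnion_le

theorem costw_inj {adj : W → W → Prop} (hadj : ∀ a a', adj a a' → adj a' a) {b : ℕ}
    {t P Z c1 c2 : Finset W} (h1 : Col adj P c1) (h2 : Col adj P c2)
    (hL : c1 ∩ big adj b t = c2 ∩ big adj b t)
    (hC : costwC adj b t P c1 Z = costwC adj b t P c2 Z)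
    (hA : c1 ∩ costwA adj b t P Z = c2 ∩ costwA adj b t P Z) : c1 ⊆ c2 := by
  intro p hp
  have hpP : p ∈ P := h1.1 hp
  by_cases ha : ∃ r ∈ reach adj P p, r ∈ big adj b t
  · obtain ⟨r, hr, hrb⟩ := ha
    have e1 := (costw_col h1 hpP hr).1 hp
    have e2 : r ∈ c2 ∩ big adj b t := by
      rw [← hL]
      exact Finset.mem_inter.2 ⟨e1, hrb⟩
    exact (costw_col h2 hpP hr).2 (Finset.mem_inter.1 e2).1
  · by_cases hb : ∃ r ∈ reach adj (P ∪ Z) p, r ∈ big adj b t
    · obtain ⟨r, hr, hrb⟩ := hb
      rcases costw_leave hr with h | ⟨a, har, v, hv, hav⟩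
      · exact absurd ⟨r, h, hrb⟩ ha
      · have haA : a ∈ costwA adj b t P Z := by
          simp only [costwA, Finset.mem_biUnion, Finset.mem_filter]
          refine ⟨v, hv, costw_sub hpP har, hadj _ _ hav, ?_⟩
          rintro ⟨r', hr', hrb'⟩
          exact ha ⟨r', costw_trans har hr', hrb'⟩
        have e1 := (costw_col h1 hpP har).1 hp
        have e2 : a ∈ c2 ∩ costwA adj b t P Z := by
          rw [← hA]
          exact Finset.mem_inter.2 ⟨e1, haA⟩
        exact (costw_col h2 hpP har).2 (Finset.mem_inter.1 e2).1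
    · have e1 : p ∈ costwC adj b t P c1 Z := Finset.mem_filter.2 ⟨hp, hb⟩
      rw [hC] at e1
      exact (Finset.mem_filter.1 e1).1

theorem costw_fiber (adj : W → W → Prop) (hadj : ∀ a a', adj a a' → adj a' a) (b : ℕ)
    (l : ℝ) (hl : 0 < l) (t cL : Finset W) :
    ∑ x ∈ (univ : Finset (Finset W × Finset W)).filter
        (fun x => (t ⊆ x.1 ∧ Col adj x.1 x.2) ∧ x.2 ∩ big adj b t = cL),
      l ^ x.1.card * ∏ v ∈ dv adj b x.1 x.2 t, (1 + l * (1 / 2) ^ kp adj b x.1 t v) ≤
    ∑ x ∈ (univ : Finset (Finset W × Finset W)).filter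
        (fun x => t ⊆ x.1 ∧ Col adj x.1 x.2), l ^ x.1.card := by
  set S := (univ : Finset (Finset W × Finset W)).filter
        (fun x => (t ⊆ x.1 ∧ Col adj x.1 x.2) ∧ x.2 ∩ big adj b t = cL) with hS
  set T := (univ : Finset (Finset W × Finset W)).filter
        (fun x => t ⊆ x.1 ∧ Col adj x.1 x.2) with hT
  have e1 : ∀ x ∈ S, l ^ x.1.card * ∏ v ∈ dv adj b x.1 x.2 t,
      (1 + l * (1 / 2) ^ kp adj b x.1 t v) =
      ∑ Z ∈ (dv adj b x.1 x.2 t).powerset,
        l ^ x.1.card * ∏ v ∈ Z, (l * (1 / 2) ^ kp adj b x.1 t v) := by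
    intro x _
    rw [Finset.prod_one_add, Finset.mul_sum]
  rw [Finset.sum_congr rfl e1, Finset.sum_sigma']
  set G := S.sigma fun x => (dv adj b x.1 x.2 t).powerset with hG
  set phi : (Σ _ : Finset W × Finset W, Finset W) → Finset W × Finset W :=
    fun y => (y.1.1 ∪ y.2, costwC adj b t y.1.1 y.1.2 y.2) with hphi
  have hGm : ∀ y ∈ G, (t ⊆ y.1.1 ∧ Col adj y.1.1 y.1.2) ∧ y.1.2 ∩ big adj b t = cL ∧
      y.2 ⊆ dv adj b y.1.1 y.1.2 t := by
    intro y hy
    rw [hG, Finset.mem_sigma, hS, Finset.mem_filter, Finset.mem_powerset] at hy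
    exact ⟨hy.1.2.1, hy.1.2.2, hy.2⟩
  have hmaps : ∀ y ∈ G, phi y ∈ T := by
    intro y hy
    obtain ⟨⟨h1, h2⟩, h3, h4⟩ := hGm y hy
    rw [hT, Finset.mem_filter]
    exact ⟨Finset.mem_univ _, h1.trans Finset.subset_union_left,
      costw_colC hadj h1 h2 h4⟩
  rw [← Finset.sum_fiberwise_of_maps_to hmaps]
  refine Finset.sum_le_sum ?_
  intro z _
  set F := G.filter fun y => phi y = z with hF
  rcases F.eq_empty_or_nonempty with h0 | ⟨y0, hy0⟩
  · rw [h0, Finset.sum_empty]
    positivity
  · have hFm : ∀ y ∈ F, y ∈ G ∧ phi y = z := fun y hy => Finset.mem_filter.1 hy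
    have hZ : ∀ y ∈ F, y.2 = z.1 ∩ costwD adj b t cL ∧
        y.1.1 = z.1 \ costwD adj b t cL := by
      intro y hy
      obtain ⟨hyG, hyz⟩ := hFm y hy
      obtain ⟨⟨h1, h2⟩, h3, h4⟩ := hGm y hyG
      have hz1 : z.1 = y.1.1 ∪ y.2 := by rw [← hyz]
      have hd := costw_dv h1 h2 h3
      have hdis : ∀ v ∈ costwD adj b t cL, v ∉ y.1.1 := by
        intro v hv
        rw [← hd] at hv
        exact (Finset.mem_filter.1 hv).2.1
      rw [hd] at h4
      constructor
      · ext v
        rw [hz1, Finset.mem_inter, Finset.mem_union]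
        constructor
        · intro hv
          exact ⟨Or.inr hv, h4 hv⟩
        · rintro ⟨hv | hv, hv'⟩
          · exact absurd hv (hdis v hv')
          · exact hv
      · ext v
        rw [hz1, Finset.mem_sdiff, Finset.mem_union]
        constructor
        · intro hv
          exact ⟨Or.inl hv, fun h => hdis v h hv⟩
        · rintro ⟨hv | hv, hv'⟩
          · exact hv
          · exact absurd (h4 hv) hv'
    set P := z.1 \ costwD adj b t cL with hP
    set Z := z.1 ∩ costwD adj b t cL with hZdef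
    set N := ∑ v ∈ Z, kp adj b P t v with hN
    have hw : ∀ y ∈ F, l ^ y.1.1.card * ∏ v ∈ y.2, (l * (1 / 2) ^ kp adj b y.1.1 t v) =
        l ^ z.1.card * (1 / 2) ^ N := by
      intro y hy
      rw [(hZ y hy).1, (hZ y hy).2, Finset.prod_mul_distrib, Finset.prod_const,
        Finset.prod_pow_eq_pow_sum, ← mul_assoc, ← pow_add]
      congr 2
      rw [hP, hZdef, Finset.card_sdiff_add_card_inter]
    rw [Finset.sum_congr rfl hw, Finset.sum_const, nsmul_eq_mul]
    have hcard : F.card ≤ 2 ^ N := by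
      have h1 : F.card ≤ (costwA adj b t P Z).powerset.card := by
        refine Finset.card_le_card_of_injOn
          (fun y => y.1.2 ∩ costwA adj b t P Z) ?_ ?_
        · intro y _
          exact Finset.mem_coe.2 (Finset.mem_powerset.2 Finset.inter_subset_right)
        · intro y hy y' hy' hyy
          have hy := Finset.mem_coe.1 hy
          have hy' := Finset.mem_coe.1 hy'
          obtain ⟨hyG, hyz⟩ := hFm y hy
          obtain ⟨hyG', hyz'⟩ := hFm y' hy'
          obtain ⟨⟨h1, h2⟩, h3, h4⟩ := hGm y hyG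
          obtain ⟨⟨h1', h2'⟩, h3', h4'⟩ := hGm y' hyG'
          obtain ⟨a1, a2⟩ := hZ y hy
          obtain ⟨b1, b2⟩ := hZ y' hy'
          have hC : costwC adj b t y.1.1 y.1.2 y.2 = costwC adj b t y'.1.1 y'.1.2 y'.2 := by
            have e := hyz.trans hyz'.symm
            exact (Prod.mk.inj e).2
          obtain ⟨⟨P1, c1⟩, Z1⟩ := y
          obtain ⟨⟨P2, c2⟩, Z2⟩ := y'
          simp only at a1 a2 b1 b2 hC hyy h1 h2 h3 h4 h1' h2' h3' h4'
          subst a1 a2 b1 b2
          have : c1 = c2 := by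
            apply Finset.Subset.antisymm
            · exact costw_inj hadj h2 h2' (h3.trans h3'.symm) hC hyy
            · exact costw_inj hadj h2' h2 (h3'.trans h3.symm) hC.symm hyy.symm
          subst this
          rfl
      rw [Finset.card_powerset] at h1
      exact h1.trans (Nat.pow_le_pow_right (by norm_num) (costw_cardA adj b t P Z))
    have hc' : (F.card : ℝ) ≤ 2 ^ N := by exact_mod_cast hcard
    have hlp : 0 < l ^ z.1.card := pow_pos hl _
    calc (F.card : ℝ) * (l ^ z.1.card * (1 / 2) ^ N)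
        ≤ 2 ^ N * (l ^ z.1.card * (1 / 2) ^ N) :=
          mul_le_mul_of_nonneg_right hc' (by positivity)
      _ = l ^ z.1.card * ((2 : ℝ) * (1 / 2)) ^ N := by rw [mul_pow]; ring
      _ = l ^ z.1.card := by norm_num

theorem costw_count (adj : W → W → Prop) (hadj : ∀ a a', adj a a' → adj a' a) (b : ℕ)
    (hb : 1 ≤ b) (t : Finset W) :
    (((((univ : Finset (Finset W × Finset W)).filter
        (fun x => t ⊆ x.1 ∧ Col adj x.1 x.2)).image fun x => x.2 ∩ big adj b t).card : ℕ) : ℝ) *
      (1 / 2 : ℝ) ^ ((t.card : ℝ) / b) ≤ 1 := by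
  set I := (((univ : Finset (Finset W × Finset W)).filter
        (fun x => t ⊆ x.1 ∧ Col adj x.1 x.2)).image fun x => x.2 ∩ big adj b t) with hI
  set K := (big adj b t).image (reach adj t) with hK
  have hKb : K.card * b ≤ t.card := by
    have h1 : ∑ k ∈ K, k.card = (K.biUnion id).card := by
      rw [Finset.card_biUnion]
      · rfl
      · intro k hk k' hk' hne
        have hk := Finset.mem_coe.1 hk
        have hk' := Finset.mem_coe.1 hk'
        rw [hK, Finset.mem_image] at hk hk'
        obtain ⟨q, hq, rfl⟩ := hk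
        obtain ⟨q', hq', rfl⟩ := hk'
        change Disjoint (reach adj t q) (reach adj t q')
        rw [Finset.disjoint_left]
        intro r hr hr'
        apply hne
        have hqt := costw_big_sub hq
        have hqt' := costw_big_sub hq'
        have s1 := costw_symm hadj hqt hr
        have s2 := costw_symm hadj hqt' hr'
        ext x
        constructor
        · intro hx
          exact costw_trans hr' (costw_trans s1 hx)
        · intro hx
          exact costw_trans hr (costw_trans s2 hx)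
    have h2 : K.biUnion id ⊆ t := by
      intro r hr
      rw [Finset.mem_biUnion] at hr
      obtain ⟨k, hk, hr⟩ := hr
      rw [hK, Finset.mem_image] at hk
      obtain ⟨q, hq, rfl⟩ := hk
      exact costw_sub (costw_big_sub hq) hr
    have h3 : K.card * b ≤ ∑ k ∈ K, k.card := by
      rw [← smul_eq_mul]
      refine Finset.card_nsmul_le_sum _ _ _ ?_
      intro k hk
      rw [hK, Finset.mem_image] at hk
      obtain ⟨q, hq, rfl⟩ := hk
      exact (Finset.mem_filter.1 hq).2
    exact h3.trans (h1.le.trans (Finset.card_le_card h2))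
  have hIK : I.card ≤ 2 ^ K.card := by
    rw [← Finset.card_powerset]
    refine Finset.card_le_card_of_injOn
      (fun c => K.filter fun k => k ⊆ c) ?_ ?_
    · intro c _
      exact Finset.mem_coe.2 (Finset.mem_powerset.2 (Finset.filter_subset _ _))
    · have key : ∀ c ∈ I, ∀ q, q ∈ c ↔ q ∈ big adj b t ∧ reach adj t q ⊆ c := by
        intro c hc q
        rw [hI, Finset.mem_image] at hc
        obtain ⟨x, hx, rfl⟩ := hc
        rw [Finset.mem_filter] at hx
        obtain ⟨_, htP, hcol⟩ := hx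
        constructor
        · intro hq
          obtain ⟨hq1, hq2⟩ := Finset.mem_inter.1 hq
          refine ⟨hq2, ?_⟩
          have hqt := costw_big_sub hq2
          intro r hr
          have hcolt : Col adj t (x.2 ∩ t) := by
            refine ⟨Finset.inter_subset_right, ?_⟩
            intro a ha a' ha' haa
            have := hcol.2 a (htP ha) a' (htP ha') haa
            simp only [Finset.mem_inter]
            tauto
          have h1 := (costw_col hcolt hqt hr).1 (Finset.mem_inter.2 ⟨hq1, hqt⟩)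
          refine Finset.mem_inter.2 ⟨(Finset.mem_inter.1 h1).1, ?_⟩
          have hrt := costw_sub hqt hr
          refine Finset.mem_filter.2 ⟨hrt, ?_⟩
          have h2 := (Finset.mem_filter.1 hq2).2
          refine h2.trans (Finset.card_le_card ?_)
          intro y hy
          exact costw_trans (costw_symm hadj hqt hr) hy
        · rintro ⟨_, h⟩
          exact h costw_self
      intro c hc c' hc' hcc
      have hc := Finset.mem_coe.1 hc
      have hc' := Finset.mem_coe.1 hc'
      have mk : ∀ q ∈ big adj b t, (reach adj t q ⊆ c ↔ reach adj t q ⊆ c') := by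
        intro q hq
        have hqK : reach adj t q ∈ K := Finset.mem_image_of_mem _ hq
        have h1 : reach adj t q ∈ K.filter (fun k => k ⊆ c) ↔
            reach adj t q ∈ K.filter (fun k => k ⊆ c') := by
          have : K.filter (fun k => k ⊆ c) = K.filter (fun k => k ⊆ c') := hcc
          rw [this]
        simp only [Finset.mem_filter, hqK, true_and] at h1
        exact h1
      ext q
      rw [key c hc q, key c' hc' q]
      constructor
      · rintro ⟨h1, h2⟩
        exact ⟨h1, (mk q h1).1 h2⟩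
      · rintro ⟨h1, h2⟩
        exact ⟨h1, (mk q h1).2 h2⟩
  have hbR : (0 : ℝ) < b := by exact_mod_cast hb
  have h1 : (I.card : ℝ) ≤ (2 : ℝ) ^ ((t.card : ℝ) / b) := by
    have h2 : (I.card : ℝ) ≤ (2 : ℝ) ^ K.card := by exact_mod_cast hIK
    refine h2.trans ?_
    rw [← Real.rpow_natCast]
    refine Real.rpow_le_rpow_of_exponent_le (by norm_num) ?_
    rw [le_div_iff₀ hbR]
    exact_mod_cast hKb
  calc (I.card : ℝ) * (1 / 2 : ℝ) ^ ((t.card : ℝ) / b)
      ≤ (2 : ℝ) ^ ((t.card : ℝ) / b) * (1 / 2 : ℝ) ^ ((t.card : ℝ) / b) :=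
        mul_le_mul_of_nonneg_right h1 (by positivity)
    _ = (2 * (1 / 2) : ℝ) ^ ((t.card : ℝ) / b) :=
        (Real.mul_rpow (by norm_num) (by norm_num)).symm
    _ = 1 := by norm_num

theorem costw_t (adj : W → W → Prop) (hadj : ∀ a a', adj a a' → adj a' a) (b : ℕ)
    (hb : 1 ≤ b) (l : ℝ) (hl : 0 < l) (t : Finset W) :
    ∑ x ∈ (univ : Finset (Finset W × Finset W)).filter
        (fun x => t ⊆ x.1 ∧ Col adj x.1 x.2),
      l ^ x.1.card * ((1 / 2 : ℝ) ^ ((t.card : ℝ) / b) *
        ∏ v ∈ dv adj b x.1 x.2 t, (1 + l * (1 / 2) ^ kp adj b x.1 t v)) ≤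
    ∑ x ∈ (univ : Finset (Finset W × Finset W)).filter
        (fun x => t ⊆ x.1 ∧ Col adj x.1 x.2), l ^ x.1.card := by
  set T := (univ : Finset (Finset W × Finset W)).filter
        (fun x => t ⊆ x.1 ∧ Col adj x.1 x.2) with hT
  set B := ∑ x ∈ T, l ^ x.1.card with hB
  set g : Finset W × Finset W → Finset W := fun x => x.2 ∩ big adj b t with hg
  have hB0 : 0 ≤ B := Finset.sum_nonneg fun x _ => by positivity
  have e1 : ∑ x ∈ T, l ^ x.1.card * ((1 / 2 : ℝ) ^ ((t.card : ℝ) / b) *
        ∏ v ∈ dv adj b x.1 x.2 t, (1 + l * (1 / 2) ^ kp adj b x.1 t v)) =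
      (1 / 2 : ℝ) ^ ((t.card : ℝ) / b) * ∑ y ∈ T.image g, ∑ x ∈ T.filter (fun x => g x = y),
        l ^ x.1.card * ∏ v ∈ dv adj b x.1 x.2 t, (1 + l * (1 / 2) ^ kp adj b x.1 t v) := by
    rw [Finset.sum_fiberwise_of_maps_to (fun x hx => Finset.mem_image_of_mem g hx),
      Finset.mul_sum]
    refine Finset.sum_congr rfl fun x _ => ?_
    ring
  rw [e1]
  have e2 : ∑ y ∈ T.image g, ∑ x ∈ T.filter (fun x => g x = y),
        l ^ x.1.card * ∏ v ∈ dv adj b x.1 x.2 t, (1 + l * (1 / 2) ^ kp adj b x.1 t v) ≤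
      ((T.image g).card : ℝ) * B := by
    rw [← nsmul_eq_mul]
    refine Finset.sum_le_card_nsmul _ _ _ ?_
    intro y _
    have h := costw_fiber adj hadj b l hl t y
    refine le_trans (le_of_eq ?_) h
    rw [hT, Finset.filter_filter]
  calc (1 / 2 : ℝ) ^ ((t.card : ℝ) / b) * ∑ y ∈ T.image g, ∑ x ∈ T.filter (fun x => g x = y),
        l ^ x.1.card * ∏ v ∈ dv adj b x.1 x.2 t, (1 + l * (1 / 2) ^ kp adj b x.1 t v)
      ≤ (1 / 2 : ℝ) ^ ((t.card : ℝ) / b) * (((T.image g).card : ℝ) * B) :=
        mul_le_mul_of_nonneg_left e2 (by positivity)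
    _ = (((T.image g).card : ℝ) * (1 / 2 : ℝ) ^ ((t.card : ℝ) / b)) * B := by ring
    _ ≤ 1 * B := mul_le_mul_of_nonneg_right (costw_count adj hadj b hb t) hB0
    _ = B := one_mul B

theorem costw_swap (adj : W → W → Prop) (f : Finset W → Finset W → Finset W → ℝ) :
    ∑ P : Finset W, ∑ c ∈ univ.filter (Col adj P), ∑ t ∈ P.powerset, f P c t =
    ∑ t : Finset W, ∑ x ∈ (univ : Finset (Finset W × Finset W)).filter
        (fun x => t ⊆ x.1 ∧ Col adj x.1 x.2), f x.1 x.2 t := by
  have h1 : ∀ P : Finset W, ∑ c ∈ univ.filter (Col adj P), ∑ t ∈ P.powerset, f P c t =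
      ∑ c : Finset W, ∑ t : Finset W, if t ⊆ P ∧ Col adj P c then f P c t else 0 := by
    intro P
    rw [Finset.sum_filter]
    refine Finset.sum_congr rfl fun c _ => ?_
    by_cases hc : Col adj P c
    · rw [if_pos hc]
      have : P.powerset = univ.filter fun t => t ⊆ P := by ext t; simp
      rw [this, Finset.sum_filter]
      refine Finset.sum_congr rfl fun t _ => ?_
      by_cases ht : t ⊆ P
      · rw [if_pos ht, if_pos ⟨ht, hc⟩]
      · rw [if_neg ht, if_neg fun h => ht h.1]
    · rw [if_neg hc]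
      symm
      refine Finset.sum_eq_zero fun t _ => ?_
      rw [if_neg fun h => hc h.2]
  rw [Finset.sum_congr rfl fun P _ => h1 P]
  rw [Finset.sum_congr rfl fun P _ => Finset.sum_comm, Finset.sum_comm]
  refine Finset.sum_congr rfl fun t _ => ?_
  rw [Finset.sum_filter, ← Finset.univ_product_univ, Finset.sum_product]

theorem costW (adj : W → W → Prop) (hadj : ∀ a a', adj a a' → adj a' a) (b : ℕ) (hb : 1 ≤ b)
    (l : ℝ) (hl : 0 < l) :
    ∑ P : Finset W, ∑ c ∈ univ.filter (Col adj P), ∑ t ∈ P.powerset,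
      l ^ P.card * ((1 / 2 : ℝ) ^ ((t.card : ℝ) / b) *
        ∏ v ∈ dv adj b P c t, (1 + l * (1 / 2) ^ kp adj b P t v)) ≤
    ∑ P : Finset W, ∑ _c ∈ univ.filter (Col adj P), ∑ _t ∈ P.powerset, l ^ P.card := by
  rw [costw_swap adj (fun P c t => l ^ P.card * ((1 / 2 : ℝ) ^ ((t.card : ℝ) / b) *
        ∏ v ∈ dv adj b P c t, (1 + l * (1 / 2) ^ kp adj b P t v))),
    costw_swap adj (fun P _ _ => l ^ P.card)]
  exact Finset.sum_le_sum fun t _ => costw_t adj hadj b hb l hl t

end WR

end Pool.Agent.Lib.MP_c6118e_pr.Win
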