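import Pool.Agent.Lib.MP_c6118e_pr.Win.FR
import Pool.Agent.Lib.MP_c6118e_pr.Win.COSTW

/-! # COSTH: the recolouring inequality for the hard-core model -/

namespace Pool.Agent.Lib.MP_c6118e_pr.Win

open Finset Real
open scoped Classical

variable {d : ℕ}

/-- the positions -/
abbrev COSTH_W (d : ℕ) := {v : V d // par v = 0}

/-- the position of a particle -/
noncomputable def COSTH_pi (k : Fin d) (v : V d) : COSTH_W d :=
  if h : par v = 0 then ⟨v, h⟩ else ⟨nb k v, by
    rw [par_nb]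
    rcases zmod2_cases (par v) with h1 | h1
    · exact absurd h1 h
    · rw [h1]; decide⟩

/-- adjacency of positions -/
def COSTH_adj (k : Fin d) (a a' : COSTH_W d) : Prop := adjk k a.1 a'.1

theorem COSTH_pi_even {k : Fin d} {v : V d} (h : par v = 0) : (COSTH_pi k v).1 = v := by
  unfold COSTH_pi; rw [dif_pos h]

theorem COSTH_pi_odd {k : Fin d} {v : V d} (h : ¬ par v = 0) : (COSTH_pi k v).1 = nb k v := by
  unfold COSTH_pi; rw [dif_neg h]

theorem COSTH_pi_eq {k : Fin d} {v : V d} {a : COSTH_W d} :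
    COSTH_pi k v = a ↔ v = a.1 ∨ v = nb k a.1 := by
  rw [Subtype.ext_iff]
  by_cases h : par v = 0
  · rw [COSTH_pi_even h]
    constructor
    · intro h1; exact Or.inl h1
    · rintro (h1 | h1)
      · exact h1
      · exfalso
        rw [h1, par_nb, a.2] at h
        exact absurd h (by decide)
  · rw [COSTH_pi_odd h]
    constructor
    · intro h1
      right
      rw [← h1, nb_nb]
    · rintro (h1 | h1)
      · exact absurd (h1 ▸ a.2) h
      · rw [h1, nb_nb]

theorem COSTH_inj {k : Fin d} {s : Finset (V d)} (hs : Ind s) : Set.InjOn (COSTH_pi k) s := by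
  intro v hv w hw hvw
  have h1 := COSTH_pi_eq.1 hvw
  have h2 : w = (COSTH_pi k w).1 ∨ w = nb k (COSTH_pi k w).1 := COSTH_pi_eq.1 rfl
  rw [mem_coe] at hv hw
  rcases h1 with h1 | h1 <;> rcases h2 with h2 | h2
  · rw [h1, ← h2]
  · exfalso
    rw [← h1] at h2
    exact hs v hv k (h2 ▸ hw)
  · exfalso
    rw [← h2] at h1
    exact hs w hw k (h1 ▸ hv)
  · rw [h1, ← h2]

theorem COSTH_adj_nb {k : Fin d} {u q : V d} : adjk k (nb k u) (nb k q) ↔ adjk k u q := by
  unfold adjk
  refine exists_congr fun j => and_congr_right fun _ => ?_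
  rw [nb_nb]
  constructor
  · intro h
    have := congrArg (nb k) h
    rw [nb_nb] at this
    rw [this, nb_comm]
  · intro h
    rw [h, nb_comm j k, nb_nb]

theorem COSTH_adj_nb' {k : Fin d} {u q : V d} : adjk k u (nb k q) ↔ adjk k (nb k u) q := by
  have := COSTH_adj_nb (k := k) (u := nb k u) (q := q)
  rwa [nb_nb] at this

theorem COSTH_adj_pi {k : Fin d} (u : COSTH_W d) (q : V d) :
    adjk k u.1 (COSTH_pi k q).1 ↔ adjk k u.1 q ∨ adjk k (nb k u.1) q := by
  by_cases h : par q = 0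
  · rw [COSTH_pi_even h]
    constructor
    · intro h1; exact Or.inl h1
    · rintro (h1 | h1)
      · exact h1
      · exfalso
        have := adjk_par h1
        rw [par_nb, h, u.2] at this
        exact absurd this (by decide)
  · rw [COSTH_pi_odd h, COSTH_adj_nb']
    constructor
    · intro h1; exact Or.inr h1
    · rintro (h1 | h1)
      · exfalso
        have := adjk_par h1
        rw [u.2] at this
        exact h this
      · exact h1

theorem COSTH_adj_map {k : Fin d} {q r : V d} (h : adjk k q r) :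
    COSTH_adj k (COSTH_pi k q) (COSTH_pi k r) := by
  unfold COSTH_adj
  have hp := adjk_par h
  by_cases h1 : par q = 0
  · rw [COSTH_pi_even h1, COSTH_pi_even (hp.trans h1)]
    exact h
  · rw [COSTH_pi_odd h1, COSTH_pi_odd (fun h2 => h1 (hp.symm.trans h2))]
    exact COSTH_adj_nb.2 h

/-- particles of an independent set at adjacent positions are adjacent -/
theorem COSTH_adj_of {k : Fin d} {s : Finset (V d)} (hs : Ind s) {q r : V d} (hq : q ∈ s)
    (hr : r ∈ s) (h : COSTH_adj k (COSTH_pi k q) (COSTH_pi k r)) : adjk k q r := by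
  unfold COSTH_adj at h
  rw [COSTH_adj_pi] at h
  by_cases h1 : par q = 0
  · rw [COSTH_pi_even h1] at h
    rcases h with h | h
    · exact h
    · exfalso
      obtain ⟨j, _, h2⟩ := h
      rw [nb_nb] at h2
      exact hs q hq j (h2 ▸ hr)
  · rw [COSTH_pi_odd h1, nb_nb] at h
    rcases h with h | h
    · exfalso
      obtain ⟨j, _, h2⟩ := h
      rw [nb_nb] at h2
      exact hs q hq j (h2 ▸ hr)
    · exact h

theorem COSTH_reach {k : Fin d} {D : Finset (V d)} (hD : Ind D) {q : V d} (hq : q ∈ D) :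
    WR.reach (COSTH_adj k) (D.image (COSTH_pi k)) (COSTH_pi k q) =
      (cmp k D q).image (COSTH_pi k) := by
  ext a
  unfold WR.reach
  rw [mem_filter, mem_image]
  constructor
  · rintro ⟨_, h⟩
    have : ∃ r, r ∈ D ∧ Relation.ReflTransGen (fun a b => b ∈ D ∧ adjk k a b) q r ∧
        COSTH_pi k r = a := by
      induction h with
      | refl => exact ⟨q, hq, Relation.ReflTransGen.refl, rfl⟩
      | tail _ h2 ih =>
        obtain ⟨r, hr, h3, h4⟩ := ih (mem_univ _)
        obtain ⟨h5, h6⟩ := h2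
        obtain ⟨r', hr', h7⟩ := mem_image.1 h5
        rw [← h4, ← h7] at h6
        exact ⟨r', hr', h3.tail ⟨hr', COSTH_adj_of hD hr hr' h6⟩, h7⟩
    obtain ⟨r, _, h1, h2⟩ := this
    refine ⟨r, ?_, h2⟩
    unfold cmp
    exact mem_filter.2 ⟨mem_univ _, h1⟩
  · rintro ⟨r, hr, rfl⟩
    refine ⟨mem_univ _, ?_⟩
    unfold cmp at hr
    rw [mem_filter] at hr
    induction hr.2 with
    | refl => exact Relation.ReflTransGen.refl
    | tail h1 h2 ih =>
      exact (ih ⟨mem_univ _, h1⟩).tail ⟨mem_image_of_mem _ h2.1, COSTH_adj_map h2.2⟩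

theorem COSTH_reach_card {k : Fin d} {D : Finset (V d)} (hD : Ind D) {q : V d} (hq : q ∈ D) :
    (WR.reach (COSTH_adj k) (D.image (COSTH_pi k)) (COSTH_pi k q)).card =
      (cmp k D q).card := by
  rw [COSTH_reach hD hq]
  exact card_image_of_injOn ((COSTH_inj hD).mono (by exact_mod_cast cmp_subset hq))

theorem COSTH_big {k : Fin d} {b : ℕ} {t : Finset (V d)} (ht : Ind t) :
    WR.big (COSTH_adj k) b (t.image (COSTH_pi k)) = (Lk b k t).image (COSTH_pi k) := by
  ext a
  unfold WR.big Lk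
  rw [mem_filter, mem_image, mem_image]
  constructor
  · rintro ⟨⟨q, hq, rfl⟩, h⟩
    rw [COSTH_reach_card ht hq] at h
    exact ⟨q, mem_filter.2 ⟨hq, h⟩, rfl⟩
  · rintro ⟨q, hq, rfl⟩
    rw [mem_filter] at hq
    exact ⟨⟨q, hq.1, rfl⟩, by rw [COSTH_reach_card ht hq.1]; exact hq.2⟩

/-- the second colour -/
noncomputable def COSTH_c (k : Fin d) (s : Finset (V d)) : Finset (COSTH_W d) :=
  univ.filter fun a => nb k a.1 ∈ s

theorem COSTH_mem_c {k : Fin d} {s : Finset (V d)} (hs : Ind s) {q : V d} (hq : q ∈ s) :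
    COSTH_pi k q ∈ COSTH_c k s ↔ ¬ par q = 0 := by
  unfold COSTH_c
  rw [mem_filter]
  by_cases h : par q = 0
  · rw [COSTH_pi_even h]
    constructor
    · rintro ⟨_, h1⟩; exact absurd h1 (hs q hq k)
    · intro h1; exact absurd h h1
  · rw [COSTH_pi_odd h, nb_nb]
    exact ⟨fun _ => h, fun _ => ⟨mem_univ _, hq⟩⟩

theorem COSTH_mem_P {k : Fin d} {s : Finset (V d)} {a : COSTH_W d} :
    a ∈ s.image (COSTH_pi k) ↔ a.1 ∈ s ∨ nb k a.1 ∈ s := by
  rw [mem_image]
  constructor
  · rintro ⟨q, hq, h⟩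
    rcases COSTH_pi_eq.1 h with h1 | h1
    · left; exact h1 ▸ hq
    · right; exact h1 ▸ hq
  · rintro (h | h)
    · exact ⟨_, h, COSTH_pi_eq.2 (Or.inl rfl)⟩
    · exact ⟨_, h, COSTH_pi_eq.2 (Or.inr rfl)⟩

theorem COSTH_Lk_subset {k : Fin d} {b : ℕ} {t : Finset (V d)} : Lk b k t ⊆ t :=
  filter_subset _ _

theorem COSTH_dv {k : Fin d} {b : ℕ} {s t : Finset (V d)} (hs : Ind s) (ht : t ⊆ s)
    (u : COSTH_W d) :
    u ∈ WR.dv (COSTH_adj k) b (s.image (COSTH_pi k)) (COSTH_c k s) (t.image (COSTH_pi k)) ↔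
      DVp b k s t u.1 := by
  unfold WR.dv DVp
  rw [mem_filter, COSTH_mem_P, COSTH_big (hs.mono ht)]
  have e1 : (∃ a ∈ (Lk b k t).image (COSTH_pi k), a ∈ COSTH_c k s ∧ COSTH_adj k u a) ↔
      bT b k t (nb k u.1) := by
    unfold bT
    constructor
    · rintro ⟨a, ha, h1, h2⟩
      obtain ⟨q, hq, rfl⟩ := mem_image.1 ha
      rw [COSTH_mem_c hs (ht (COSTH_Lk_subset hq))] at h1
      unfold COSTH_adj at h2
      rw [COSTH_adj_pi] at h2
      refine ⟨q, hq, ?_⟩
      rcases h2 with h2 | h2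
      · exact absurd ((adjk_par h2).trans u.2) h1
      · exact h2
    · rintro ⟨q, hq, h1⟩
      refine ⟨_, mem_image_of_mem _ hq, ?_, ?_⟩
      · rw [COSTH_mem_c hs (ht (COSTH_Lk_subset hq)), adjk_par h1, par_nb, u.2]
        decide
      · unfold COSTH_adj
        rw [COSTH_adj_pi]
        exact Or.inr h1
  have e2 : (∃ a ∈ (Lk b k t).image (COSTH_pi k), a ∉ COSTH_c k s ∧ COSTH_adj k u a) ↔
      bT b k t u.1 := by
    unfold bT
    constructor
    · rintro ⟨a, ha, h1, h2⟩
      obtain ⟨q, hq, rfl⟩ := mem_image.1 ha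
      rw [COSTH_mem_c hs (ht (COSTH_Lk_subset hq)), not_not] at h1
      unfold COSTH_adj at h2
      rw [COSTH_adj_pi] at h2
      refine ⟨q, hq, ?_⟩
      rcases h2 with h2 | h2
      · exact h2
      · exfalso
        have := adjk_par h2
        rw [h1, par_nb, u.2] at this
        exact absurd this (by decide)
    · rintro ⟨q, hq, h1⟩
      refine ⟨_, mem_image_of_mem _ hq, ?_, ?_⟩
      · rw [COSTH_mem_c hs (ht (COSTH_Lk_subset hq)), not_not, adjk_par h1, u.2]
      · unfold COSTH_adj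
        rw [COSTH_adj_pi]
        exact Or.inl h1
  rw [e1, e2]
  constructor
  · rintro ⟨_, h1, h2, h3⟩
    push Not at h1
    exact ⟨h1.1, h1.2, h3, h2⟩
  · rintro ⟨h1, h2, h3, h4⟩
    refine ⟨mem_univ _, ?_, h4, h3⟩
    push Not
    exact ⟨h1, h2⟩

theorem COSTH_att {k : Fin d} {b : ℕ} {s t : Finset (V d)} (hs : Ind s) (ht : t ⊆ s)
    {q : V d} (hq : q ∈ s) :
    (∃ r ∈ WR.reach (COSTH_adj k) (s.image (COSTH_pi k)) (COSTH_pi k q),
      r ∈ WR.big (COSTH_adj k) b (t.image (COSTH_pi k))) ↔ att b k s t q := by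
  rw [COSTH_reach hs hq, COSTH_big (hs.mono ht)]
  unfold att
  constructor
  · rintro ⟨a, h1, h2⟩
    obtain ⟨r, hr, rfl⟩ := mem_image.1 h1
    obtain ⟨r', hr', h3⟩ := mem_image.1 h2
    have h4 := COSTH_inj hs (mem_coe.2 (ht (COSTH_Lk_subset hr')))
      (mem_coe.2 (cmp_subset hq hr)) h3
    exact ⟨r, hr, h4 ▸ hr'⟩
  · rintro ⟨r, h1, h2⟩
    exact ⟨_, mem_image_of_mem _ h1, mem_image_of_mem _ h2⟩

theorem COSTH_kp {k : Fin d} {b : ℕ} {s t : Finset (V d)} (hs : Ind s) (ht : t ⊆ s)
    (u : COSTH_W d) :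
    WR.kp (COSTH_adj k) b (s.image (COSTH_pi k)) (t.image (COSTH_pi k)) u =
      kap b k s t u.1 := by
  unfold WR.kp kap na
  rw [filter_image, card_image_of_injOn ((COSTH_inj hs).mono (by
    exact_mod_cast filter_subset _ _))]
  rw [← card_union_of_disjoint]
  · congr 1
    ext q
    simp only [mem_filter, mem_union]
    constructor
    · rintro ⟨hq, h1, h2⟩
      rw [COSTH_att hs ht hq] at h2
      unfold COSTH_adj at h1
      rw [COSTH_adj_pi] at h1
      rcases h1 with h1 | h1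
      · exact Or.inl ⟨hq, h1, h2⟩
      · exact Or.inr ⟨hq, h1, h2⟩
    · intro h
      have hq : q ∈ s := by rcases h with h | h <;> exact h.1
      refine ⟨hq, ?_, ?_⟩
      · unfold COSTH_adj
        rw [COSTH_adj_pi]
        rcases h with h | h
        · exact Or.inl h.2.1
        · exact Or.inr h.2.1
      · rw [COSTH_att hs ht hq]
        rcases h with h | h <;> exact h.2.2
  · rw [disjoint_left]
    intro q h1 h2
    rw [mem_filter] at h1 h2
    have e1 := adjk_par h1.2.1
    have e2 := adjk_par h2.2.1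
    rw [e1, par_nb, u.2] at e2
    exact absurd e2 (by decide)

theorem COSTH_prod {k : Fin d} {b : ℕ} {s t : Finset (V d)} (hs : Ind s) (ht : t ⊆ s) (l : ℝ) :
    ∏ u ∈ univ.filter (fun u : V d => par u = 0 ∧ DVp b k s t u),
        (1 + l * (1 / 2) ^ kap b k s t u) =
    ∏ v ∈ WR.dv (COSTH_adj k) b (s.image (COSTH_pi k)) (COSTH_c k s) (t.image (COSTH_pi k)),
        (1 + l * (1 / 2) ^ WR.kp (COSTH_adj k) b (s.image (COSTH_pi k))
          (t.image (COSTH_pi k)) v) := by
  symm
  refine prod_nbij (fun v => v.1) ?_ ?_ ?_ ?_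
  · intro v hv
    rw [COSTH_dv hs ht] at hv
    exact mem_filter.2 ⟨mem_univ _, v.2, hv⟩
  · intro v _ w _ h
    exact Subtype.ext h
  · intro u hu
    rw [mem_coe, mem_filter] at hu
    exact ⟨⟨u, hu.2.1⟩, by rw [mem_coe, COSTH_dv hs ht]; exact hu.2.2, rfl⟩
  · intro v _
    rw [COSTH_kp hs ht]

/-- the configuration of a coloured set of positions -/
noncomputable def COSTH_from (k : Fin d) (P c : Finset (COSTH_W d)) : Finset (V d) :=
  univ.filter fun v => (∃ a ∈ P, a ∉ c ∧ v = a.1) ∨ ∃ a ∈ c, v = nb k a.1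

theorem COSTH_sum (k : Fin d) (F : Finset (COSTH_W d) → Finset (COSTH_W d) → ℝ) :
    ∑ s ∈ Om d, F (s.image (COSTH_pi k)) (COSTH_c k s) =
      ∑ P : Finset (COSTH_W d), ∑ c ∈ univ.filter (WR.Col (COSTH_adj k) P), F P c := by
  rw [sum_sigma']
  refine sum_nbij' (fun s => (⟨s.image (COSTH_pi k), COSTH_c k s⟩ :
    Σ _ : Finset (COSTH_W d), Finset (COSTH_W d))) (fun p => COSTH_from k p.1 p.2)
    ?_ ?_ ?_ ?_ ?_
  · intro s hs
    rw [mem_Om] at hs
    rw [mem_sigma]
    refine ⟨mem_univ _, mem_filter.2 ⟨mem_univ _, ?_, ?_⟩⟩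
    · intro a ha
      unfold COSTH_c at ha
      rw [mem_filter] at ha
      rw [COSTH_mem_P]
      exact Or.inr ha.2
    · intro a ha a' ha' h
      obtain ⟨q, hq, rfl⟩ := mem_image.1 ha
      obtain ⟨q', hq', rfl⟩ := mem_image.1 ha'
      rw [COSTH_mem_c hs hq, COSTH_mem_c hs hq', adjk_par (COSTH_adj_of hs hq hq' h)]
  · rintro ⟨P, c⟩ hp
    rw [mem_sigma, mem_filter] at hp
    obtain ⟨_, _, hc, hcol⟩ := hp
    simp only at hc hcol ⊢
    rw [mem_Om]
    intro v hv i hi
    unfold COSTH_from at hv hi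
    rw [mem_filter] at hv hi
    rcases hv.2 with ⟨a, ha, hac, rfl⟩ | ⟨a, ha, rfl⟩ <;>
      rcases hi.2 with ⟨a', ha', hac', h⟩ | ⟨a', ha', h⟩
    · have := congrArg par h
      rw [par_nb, a.2, a'.2] at this
      exact absurd this (by decide)
    · by_cases hik : i = k
      · subst hik
        have h1 := nb_injective _ h
        exact hac (Subtype.ext h1 ▸ ha')
      · have h1 : COSTH_adj k a a' := by
          refine ⟨i, hik, ?_⟩
          have := congrArg (nb k) h
          rw [nb_nb] at this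
          rw [← this, nb_comm]
        exact hac ((hcol a ha a' (hc ha') h1).2 ha')
    · by_cases hik : i = k
      · subst hik
        rw [nb_nb] at h
        exact hac' (Subtype.ext h ▸ ha)
      · have h1 : COSTH_adj k a a' := ⟨i, hik, h.symm⟩
        exact hac' ((hcol a (hc ha) a' ha' h1).1 ha)
    · have := congrArg par h
      rw [par_nb, par_nb, par_nb, a.2, a'.2] at this
      exact absurd this (by decide)
  · intro s hs
    rw [mem_Om] at hs
    ext v
    unfold COSTH_from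
    simp only [mem_filter, mem_univ, true_and]
    constructor
    · rintro (⟨a, ha, hac, rfl⟩ | ⟨a, ha, rfl⟩)
      · rw [COSTH_mem_P] at ha
        rcases ha with ha | ha
        · exact ha
        · exfalso
          apply hac
          unfold COSTH_c
          exact mem_filter.2 ⟨mem_univ _, ha⟩
      · exact (mem_filter.1 ha).2
    · intro hv
      by_cases h : par v = 0
      · left
        refine ⟨COSTH_pi k v, mem_image_of_mem _ hv, ?_, (COSTH_pi_even h).symm⟩
        rw [COSTH_mem_c hs hv, not_not]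
        exact h
      · right
        refine ⟨COSTH_pi k v, (COSTH_mem_c hs hv).2 h, ?_⟩
        rw [COSTH_pi_odd h, nb_nb]
  · rintro ⟨P, c⟩ hp
    rw [mem_sigma, mem_filter] at hp
    obtain ⟨_, _, hc, hcol⟩ := hp
    simp only at hc hcol ⊢
    have e0 : ∀ a : COSTH_W d, a.1 ∈ COSTH_from k P c ↔ a ∈ P ∧ a ∉ c := by
      intro a
      unfold COSTH_from
      rw [mem_filter]
      constructor
      · rintro ⟨_, ⟨a', h1, h2, h3⟩ | ⟨a', h1, h2⟩⟩
        · have := Subtype.ext h3
          subst this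
          exact ⟨h1, h2⟩
        · have := congrArg par h2
          rw [par_nb, a.2, a'.2] at this
          exact absurd this (by decide)
      · rintro ⟨h1, h2⟩
        exact ⟨mem_univ _, Or.inl ⟨a, h1, h2, rfl⟩⟩
    have e1 : ∀ a : COSTH_W d, nb k a.1 ∈ COSTH_from k P c ↔ a ∈ c := by
      intro a
      unfold COSTH_from
      rw [mem_filter]
      constructor
      · rintro ⟨_, ⟨a', h1, h2, h3⟩ | ⟨a', h1, h2⟩⟩
        · have := congrArg par h3
          rw [par_nb, a.2, a'.2] at this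
          exact absurd this (by decide)
        · have := Subtype.ext (nb_injective _ h2)
          subst this
          exact h1
      · intro h1
        exact ⟨mem_univ _, Or.inr ⟨a, h1, rfl⟩⟩
    have e2 : (COSTH_from k P c).image (COSTH_pi k) = P := by
      ext a
      rw [COSTH_mem_P, e0, e1]
      constructor
      · rintro (h | h)
        · exact h.1
        · exact hc h
      · intro h
        by_cases h1 : a ∈ c
        · exact Or.inr h1
        · exact Or.inl ⟨h, h1⟩
    have e3 : COSTH_c k (COSTH_from k P c) = c := by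
      ext a
      unfold COSTH_c
      rw [mem_filter, e1]
      simp
    rw [e2, e3]
  · intro s _
    rfl

theorem COSTH_powerset {k : Fin d} {s : Finset (V d)} (hs : Ind s)
    (g : Finset (COSTH_W d) → ℝ) :
    ∑ t ∈ s.powerset, g (t.image (COSTH_pi k)) =
      ∑ t ∈ (s.image (COSTH_pi k)).powerset, g t := by
  refine sum_nbij (fun t => t.image (COSTH_pi k)) ?_ ?_ ?_ ?_
  · intro t ht
    rw [mem_powerset] at ht ⊢
    exact image_subset_image ht
  · intro t ht t' ht' h
    rw [mem_coe, mem_powerset] at ht ht'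
    exact (image_injOn_powerset_of_injOn (COSTH_inj hs)) (by simpa using ht) (by simpa using ht') h
  · intro t' ht'
    rw [mem_coe, mem_powerset] at ht'
    obtain ⟨t, ht, rfl⟩ := subset_image_iff.1 ht'
    exact ⟨t, by rw [mem_coe, mem_powerset]; exact_mod_cast ht, rfl⟩
  · intro t _
    rfl

theorem costH {l : ℝ} (hl : 0 < l) (k : Fin d) (b : ℕ) (hb : 1 ≤ b) :
    ∑ s ∈ Om d, ∑ t ∈ s.powerset, (l / 2) ^ s.card * ((1 / 2 : ℝ) ^ ((t.card : ℝ) / b) *
      ∏ u ∈ univ.filter (fun u : V d => par u = 0 ∧ DVp b k s t u),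
        (1 + l / 2 * (1 / 2) ^ kap b k s t u)) ≤ Zf d l := by
  have h1 := WR.costW (COSTH_adj k) (fun a a' h => adjk_symm h) b hb (l / 2) (by positivity)
  rw [← COSTH_sum k (fun P c => ∑ t ∈ P.powerset, (l / 2) ^ P.card *
    ((1 / 2 : ℝ) ^ ((t.card : ℝ) / b) * ∏ v ∈ WR.dv (COSTH_adj k) b P c t,
      (1 + l / 2 * (1 / 2) ^ WR.kp (COSTH_adj k) b P t v))),
    ← COSTH_sum k (fun P _ => ∑ _t ∈ P.powerset, (l / 2) ^ P.card)] at h1
  have h2 : ∑ s ∈ Om d, ∑ t ∈ s.powerset, (l / 2) ^ s.card *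
      ((1 / 2 : ℝ) ^ ((t.card : ℝ) / b) *
      ∏ u ∈ univ.filter (fun u : V d => par u = 0 ∧ DVp b k s t u),
        (1 + l / 2 * (1 / 2) ^ kap b k s t u)) =
      ∑ s ∈ Om d, ∑ t ∈ (s.image (COSTH_pi k)).powerset,
        (l / 2) ^ (s.image (COSTH_pi k)).card *
        ((1 / 2 : ℝ) ^ ((t.card : ℝ) / b) *
          ∏ v ∈ WR.dv (COSTH_adj k) b (s.image (COSTH_pi k)) (COSTH_c k s) t,
      (1 + l / 2 * (1 / 2) ^ WR.kp (COSTH_adj k) b (s.image (COSTH_pi k)) t v)) := by
    refine sum_congr rfl fun s hs => ?_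
    rw [mem_Om] at hs
    rw [← COSTH_powerset hs]
    refine sum_congr rfl fun t ht => ?_
    rw [mem_powerset] at ht
    rw [COSTH_prod hs ht, card_image_of_injOn (COSTH_inj hs),
      card_image_of_injOn ((COSTH_inj hs).mono (by exact_mod_cast ht))]
  rw [h2]
  refine h1.trans (le_of_eq ?_)
  unfold Zf
  refine sum_congr rfl fun s hs => ?_
  rw [mem_Om] at hs
  rw [sum_const, card_powerset, card_image_of_injOn (COSTH_inj hs), nsmul_eq_mul, div_pow]
  push_cast
  field_simp

end Pool.Agent.Lib.MP_c6118e_pr.Win
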