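import Pool.Agent.Lib.MP_c6118e_pr.Win.FR

/-! # General transfer lemmas for injections and for maps with controlled fibres -/

namespace Pool.Agent.Lib.MP_c6118e_pr.Win

open Finset Real
open scoped Classical

variable {d : ℕ}

/-- a map into `Bx d y` with controlled fibres -/
theorem transfer_fib {ι : Type*} (S : Finset ι) (w : ι → ℝ) (φ : ι → Finset (V d)) {l y : ℝ}
    {g : Finset (V d) → ℝ} (hφ : ∀ a ∈ S, φ a ∈ Bx d y)
    (h : ∀ s ∈ Bx d y, ∑ a ∈ S.filter (fun a => φ a = s), w a ≤ l ^ s.card * g s) :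
    ∑ a ∈ S, w a ≤ avU l y g := by
  rw [← sum_fiberwise_of_maps_to hφ]
  exact sum_le_sum h

/-- an injective map into `Bx d y` -/
theorem transfer {ι : Type*} (S : Finset ι) (w : ι → ℝ) (φ : ι → Finset (V d)) {l y : ℝ}
    {g : Finset (V d) → ℝ} (hl : 0 ≤ l) (hφ : ∀ a ∈ S, φ a ∈ Bx d y)
    (hinj : Set.InjOn φ S) (hg : ∀ s ∈ Bx d y, 0 ≤ g s)
    (hw : ∀ a ∈ S, w a ≤ l ^ (φ a).card * g (φ a)) :
    ∑ a ∈ S, w a ≤ avU l y g := by
  refine (sum_le_sum hw).trans ?_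
  rw [← sum_image (f := fun s => l ^ s.card * g s) hinj]
  refine sum_le_sum_of_subset_of_nonneg ?_ fun s hs _ => mul_nonneg (pow_nonneg hl _) (hg s hs)
  intro s hs
  obtain ⟨a, ha, rfl⟩ := mem_image.1 hs
  exact hφ a ha

/-- an injective map into the marked configurations of `Bx d y` -/
theorem transferM {ι : Type*} (S : Finset ι) (w : ι → ℝ) (φ ψ : ι → Finset (V d)) {l y : ℝ}
    {g : Finset (V d) → Finset (V d) → ℝ} (hl : 0 ≤ l) (hφ : ∀ a ∈ S, φ a ∈ Bx d y)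
    (hψ : ∀ a ∈ S, ψ a ⊆ φ a) (hinj : Set.InjOn (fun a => (φ a, ψ a)) S)
    (hg : ∀ s ∈ Bx d y, ∀ t ⊆ s, 0 ≤ g s t)
    (hw : ∀ a ∈ S, w a ≤ (l / 2) ^ (φ a).card * g (φ a) (ψ a)) :
    ∑ a ∈ S, w a ≤ avM l y g := by
  refine (sum_le_sum hw).trans ?_
  have hinj2 : Set.InjOn (fun a => (⟨φ a, ψ a⟩ : Σ _ : Finset (V d), Finset (V d))) S := by
    intro a ha b hb hab
    simp only [Sigma.mk.injEq] at hab
    exact hinj ha hb (by simp only [Prod.mk.injEq]; exact ⟨hab.1, eq_of_heq hab.2⟩)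
  have h1 : ∑ a ∈ S, (l / 2) ^ (φ a).card * g (φ a) (ψ a) =
      ∑ p ∈ S.image (fun a => (⟨φ a, ψ a⟩ : Σ _ : Finset (V d), Finset (V d))),
        (l / 2) ^ p.1.card * g p.1 p.2 := by
    rw [sum_image hinj2]
  rw [h1]
  have h2 : avM l y g = ∑ p ∈ (Bx d y).sigma fun s => s.powerset,
      (l / 2) ^ p.1.card * g p.1 p.2 := by
    unfold avM
    rw [sum_sigma]
  rw [h2]
  refine sum_le_sum_of_subset_of_nonneg ?_ ?_
  · intro p hp
    obtain ⟨a, ha, rfl⟩ := mem_image.1 hp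
    exact mem_sigma.2 ⟨hφ a ha, mem_powerset.2 (hψ a ha)⟩
  · rintro ⟨s, t⟩ hp _
    rw [mem_sigma, mem_powerset] at hp
    exact mul_nonneg (pow_nonneg (by positivity) _) (hg s hp.1 t hp.2)

/-- removal: `s ↦ s \ R s`, where `R s` belongs to a family depending on `s \ R s` -/
theorem removal {l x : ℝ} (hl : 0 ≤ l) {f g : Finset (V d) → ℝ} (R : Finset (V d) → Finset (V d))
    (A : Finset (V d) → Finset (Finset (V d))) (a : ℕ)
    (hg : ∀ s ∈ Bx d (x - a), 0 ≤ g s)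
    (h : ∀ s ∈ Bx d x, f s ≠ 0 → R s ⊆ s ∧ s \ R s ∈ Bx d (x - a) ∧ R s ∈ A (s \ R s) ∧
      f s ≤ g (s \ R s)) :
    avU l x f ≤ avU l (x - a) (fun s => g s * ∑ B ∈ A s, l ^ B.card) := by
  have h0 : avU l x f = ∑ s ∈ (Bx d x).filter (fun s => f s ≠ 0), l ^ s.card * f s := by
    unfold avU
    rw [sum_filter]
    refine sum_congr rfl fun s _ => ?_
    by_cases hs : f s = 0
    · simp [hs]
    · simp [hs]
  rw [h0]
  refine transfer_fib _ _ (fun s => s \ R s) ?_ ?_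
  · intro s hs
    rw [mem_filter] at hs
    exact (h s hs.1 hs.2).2.1
  · intro s' hs'
    have h1 : ∀ s ∈ ((Bx d x).filter fun s => f s ≠ 0).filter (fun s => s \ R s = s'),
        l ^ s.card * f s ≤ l ^ s'.card * g s' * l ^ (R s).card := by
      intro s hs
      rw [mem_filter, mem_filter] at hs
      obtain ⟨h2, h3, h4, h5⟩ := h s hs.1.1 hs.1.2
      rw [hs.2] at h5
      have h6 : s.card = s'.card + (R s).card := by
        rw [← hs.2, card_sdiff_add_card_eq_card h2]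
      rw [h6, pow_add]
      calc l ^ s'.card * l ^ (R s).card * f s ≤ l ^ s'.card * l ^ (R s).card * g s' :=
            mul_le_mul_of_nonneg_left h5 (by positivity)
        _ = l ^ s'.card * g s' * l ^ (R s).card := by ring
    refine (sum_le_sum h1).trans ?_
    rw [← mul_sum, mul_assoc]
    have hg' := hg s' hs'
    refine mul_le_mul_of_nonneg_left ?_ (by positivity)
    refine mul_le_mul_of_nonneg_left ?_ hg'
    have h7 : Set.InjOn R (((Bx d x).filter fun s => f s ≠ 0).filter fun s => s \ R s = s') := by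
      intro s hs t ht hst
      rw [mem_coe, mem_filter, mem_filter] at hs ht
      have e1 := (h s hs.1.1 hs.1.2).1
      have e2 := (h t ht.1.1 ht.1.2).1
      rw [← sdiff_union_of_subset e1, ← sdiff_union_of_subset e2, hs.2, ht.2, hst]
    rw [← sum_image (f := fun B : Finset (V d) => l ^ B.card) h7]
    refine sum_le_sum_of_subset_of_nonneg ?_ fun B _ _ => by positivity
    intro B hB
    obtain ⟨s, hs, rfl⟩ := mem_image.1 hB
    rw [mem_filter, mem_filter] at hs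
    have := (h s hs.1.1 hs.1.2).2.2.1
    rwa [hs.2] at this

/-- insertion: `(s, Y) ↦ s ∪ Y` injective -/
theorem insertion {l x : ℝ} (hl : 0 ≤ l) {f g : Finset (V d) → ℝ}
    (A : Finset (V d) → Finset (Finset (V d)))
    (hg : ∀ s ∈ Bx d x, 0 ≤ g s)
    (h : ∀ s ∈ Bx d x, f s ≠ 0 → ∀ Y ∈ A s, Disjoint s Y ∧ s ∪ Y ∈ Om d ∧ f s ≤ g (s ∪ Y))
    (hinj : ∀ s ∈ Bx d x, f s ≠ 0 → ∀ Y ∈ A s, ∀ s' ∈ Bx d x, f s' ≠ 0 → ∀ Y' ∈ A s',
      s ∪ Y = s' ∪ Y' → s = s' ∧ Y = Y') :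
    avU l x (fun s => f s * ∑ Y ∈ A s, l ^ Y.card) ≤ avU l x g := by
  have h0 : avU l x (fun s => f s * ∑ Y ∈ A s, l ^ Y.card) =
      ∑ p ∈ ((Bx d x).filter (fun s => f s ≠ 0)).sigma A, l ^ p.1.card * f p.1 * l ^ p.2.card := by
    unfold avU
    rw [sum_sigma, sum_filter]
    refine sum_congr rfl fun s _ => ?_
    by_cases hs : f s = 0
    · simp [hs]
    · simp only [ne_eq, hs, not_false_eq_true, if_true]
      rw [← mul_sum, mul_assoc]
  rw [h0]
  refine transfer _ _ (fun p => p.1 ∪ p.2) hl ?_ ?_ hg ?_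
  · rintro ⟨s, Y⟩ hp
    rw [mem_sigma, mem_filter] at hp
    have h1 := h s hp.1.1 hp.1.2 Y hp.2
    have h2 := mem_Bx_of (a := 0) hp.1.1 h1.2.1 (by
      simpa using cnt_mono (subset_union_left (s₂ := Y)) 0) (by
      simpa using cnt_mono (subset_union_left (s₂ := Y)) 1)
    simpa using h2
  · rintro ⟨s, Y⟩ hp ⟨s', Y'⟩ hp' he
    rw [mem_coe, mem_sigma, mem_filter] at hp hp'
    obtain ⟨e1, e2⟩ := hinj s hp.1.1 hp.1.2 Y hp.2 s' hp'.1.1 hp'.1.2 Y' hp'.2 he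
    subst e1; subst e2; rfl
  · rintro ⟨s, Y⟩ hp
    rw [mem_sigma, mem_filter] at hp
    have h1 := h s hp.1.1 hp.1.2 Y hp.2
    simp only
    rw [card_union_of_disjoint h1.1, pow_add]
    calc l ^ s.card * f s * l ^ Y.card = l ^ s.card * l ^ Y.card * f s := by ring
      _ ≤ _ := mul_le_mul_of_nonneg_left h1.2.2 (by positivity)

end Pool.Agent.Lib.MP_c6118e_pr.Win
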