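import Pool.Agent.Lib.MP_c6118e_pr.Win.FR
import Pool.Agent.Lib.MP_c6118e_pr.Win.TOOL

/-! # CONT: few available neighbours are not normal -/

namespace Pool.Agent.Lib.MP_c6118e_pr.Win

open Finset Real
open scoped Classical

variable {d : ℕ}

/-- the vertices next to `nb i w` which can be inserted -/
noncomputable def CTT_Yi (s : Finset (V d)) (w : V d) (i : Fin d) : Finset (V d) :=
  ((Fset s (nb i w)).erase i).image fun j => nb j (nb i w)

/-- the vertices next to some `nb i w`, `i ∈ T0`, which can be inserted -/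
noncomputable def CTT_Y (s : Finset (V d)) (w : V d) (T0 : Finset (Fin d)) : Finset (V d) :=
  T0.biUnion fun i => CTT_Yi s w i

theorem CTT_card_Yi (s : Finset (V d)) (w : V d) (i : Fin d) :
    Fr s (nb i w) ≤ (CTT_Yi s w i).card + 1 := by
  unfold CTT_Yi Fr
  rw [card_image_of_injective _ fun a b hab => nb_inj hab]
  have := pred_card_le_card_erase (a := i) (s := Fset s (nb i w))
  omega

theorem CTT_card_Y (s : Finset (V d)) (w : V d) (T0 : Finset (Fin d)) (g : ℕ)
    (h : ∀ i ∈ T0, g ≤ Fr s (nb i w)) :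
    (T0.card : ℝ) * ((g : ℝ) - 1) ≤ 2 * ((CTT_Y s w T0).card : ℝ) := by
  have h1 : ∑ i ∈ T0, (CTT_Yi s w i).card ≤ 2 * (CTT_Y s w T0).card := by
    have h2 := sum_card_bipartiteAbove_eq_sum_card_bipartiteBelow (s := T0) (t := CTT_Y s w T0)
      (fun i y => y ∈ CTT_Yi s w i)
    have h3 : ∀ i ∈ T0, (CTT_Yi s w i).card =
        (bipartiteAbove (fun i y => y ∈ CTT_Yi s w i) (CTT_Y s w T0) i).card := by
      intro i hi
      congr 1
      unfold bipartiteAbove
      ext y
      rw [mem_filter]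
      constructor
      · intro hy
        exact ⟨mem_biUnion.2 ⟨i, hi, hy⟩, hy⟩
      · exact fun hy => hy.2
    rw [sum_congr rfl h3, h2]
    rw [mul_comm, ← smul_eq_mul]
    refine sum_le_card_nsmul _ _ _ fun y _ => ?_
    refine le_trans (card_le_card ?_) (two_dirs w y)
    intro i hi
    unfold bipartiteBelow at hi
    rw [mem_filter] at hi
    rw [mem_filter]
    unfold CTT_Yi at hi
    obtain ⟨j, hj, h4⟩ := mem_image.1 hi.2
    exact ⟨mem_univ _, j, (mem_erase.1 hj).1, h4⟩
  have h5 : ∀ i ∈ T0, ((g : ℝ) - 1) ≤ ((CTT_Yi s w i).card : ℝ) := by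
    intro i hi
    have h6 : g ≤ (CTT_Yi s w i).card + 1 := (h i hi).trans (CTT_card_Yi s w i)
    have h7 : (g : ℝ) ≤ ((CTT_Yi s w i).card : ℝ) + 1 := by exact_mod_cast h6
    linarith
  have h8 : (T0.card : ℝ) * ((g : ℝ) - 1) ≤ ∑ i ∈ T0, ((CTT_Yi s w i).card : ℝ) := by
    rw [← nsmul_eq_mul]
    exact card_nsmul_le_sum _ _ _ h5
  refine h8.trans ?_
  exact_mod_cast h1

/-- the event for a fixed set of directions -/
def CTT_E (g : ℕ) (s : Finset (V d)) (w : V d) (T0 : Finset (Fin d)) : Prop :=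
  ∀ i ∈ T0, nOcc s (nb i w) = 0 ∧ nb i w ∉ s ∧ g ≤ Fr s (nb i w)

theorem CTT_Y_prop {g : ℕ} {s : Finset (V d)} {w : V d} {T0 : Finset (Fin d)}
    (h : CTT_E g s w T0) {y : V d} (hy : y ∈ CTT_Y s w T0) :
    y ∉ s ∧ par y = par w ∧ (∀ k, nb k y ∉ s) ∧ ∃ i ∈ T0, ∃ j, y = nb j (nb i w) := by
  unfold CTT_Y CTT_Yi at hy
  obtain ⟨i, hi, h1⟩ := mem_biUnion.1 hy
  obtain ⟨j, hj, h2⟩ := mem_image.1 h1
  obtain ⟨h3, h4, _⟩ := h i hi
  subst h2
  refine ⟨nOcc_eq_zero.1 h3 j, par_nb_nb i j w, ?_, i, hi, j, rfl⟩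
  intro k
  have h5 := (mem_erase.1 hj).2
  unfold Fset at h5
  rw [mem_filter] at h5
  by_cases hk : k = j
  · rw [hk, nb_nb]; exact h4
  · exact h5.2 k hk

theorem CTT_one {l : ℝ} (hl : 0 < l) (x : ℝ) (w : V d) (g : ℕ) (T0 : Finset (Fin d)) :
    avU l x (fun s => if CTT_E g s w T0 then (1 : ℝ) else 0) ≤
      exp (-((T0.card : ℝ) * ((g : ℝ) - 1) / 2 * log (1 + l))) * Zx d l x := by
  have h1 := insertion (l := l) (x := x) hl.le
    (f := fun s => if CTT_E g s w T0 then (1 : ℝ) else 0) (g := fun _ => 1)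
    (A := fun s => (CTT_Y s w T0).powerset) (fun s _ => zero_le_one) ?_ ?_
  · rw [avU_one] at h1
    have h2 : avU l x (fun s => exp ((T0.card : ℝ) * ((g : ℝ) - 1) / 2 * log (1 + l)) *
        (if CTT_E g s w T0 then (1 : ℝ) else 0)) ≤ Zx d l x := by
      refine le_trans (avU_mono hl.le ?_) h1
      intro s _
      by_cases hs : CTT_E g s w T0
      · rw [if_pos hs, mul_one, one_mul]
        have h3 : ∑ Y ∈ (CTT_Y s w T0).powerset, l ^ Y.card = (1 + l) ^ (CTT_Y s w T0).card := by
          have h4 := Finset.sum_pow_mul_eq_add_pow l 1 (CTT_Y s w T0)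
          simp only [one_pow, mul_one] at h4
          rw [h4, add_comm]
        rw [h3]
        have h5 := CTT_card_Y s w T0 g fun i hi => (hs i hi).2.2
        have h6 : 0 ≤ log (1 + l) := log_nonneg (by linarith)
        calc exp ((T0.card : ℝ) * ((g : ℝ) - 1) / 2 * log (1 + l))
            ≤ exp (((CTT_Y s w T0).card : ℝ) * log (1 + l)) := by
              apply exp_le_exp.2
              apply mul_le_mul_of_nonneg_right _ h6
              linarith
          _ = (1 + l) ^ (CTT_Y s w T0).card := by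
              rw [mul_comm, exp_mul, exp_log (by linarith), rpow_natCast]
      · rw [if_neg hs, mul_zero, zero_mul]
    rw [avU_mul] at h2
    rw [exp_neg, inv_mul_eq_div, le_div_iff₀ (exp_pos _), mul_comm]
    exact h2
  · intro s hs hf Y hY
    have hE : CTT_E g s w T0 := by
      by_contra hcon
      exact hf (if_neg hcon)
    rw [mem_powerset] at hY
    refine ⟨?_, ?_, ?_⟩
    · rw [disjoint_right]
      intro y hy
      exact (CTT_Y_prop hE (hY hy)).1
    · have hs' := mem_Om.1 (Bx_sub_Om _ hs)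
      rw [mem_Om]
      intro v hv k hk
      rw [mem_union] at hv hk
      rcases hv with hv | hv <;> rcases hk with hk | hk
      · exact hs' v hv k hk
      · have := (CTT_Y_prop hE (hY hk)).2.2.1 k
        rw [nb_nb] at this
        exact this hv
      · exact (CTT_Y_prop hE (hY hv)).2.2.1 k hk
      · have e1 := (CTT_Y_prop hE (hY hv)).2.1
        have e2 := (CTT_Y_prop hE (hY hk)).2.1
        rw [par_nb, e1] at e2
        rcases zmod2_cases (par w) with h | h <;> rw [h] at e2 <;> revert e2 <;> decide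
    · simp only [hE, if_true, le_refl]
  · intro s hs hf Y hY s' hs' hf' Y' hY' he
    have hE : CTT_E g s w T0 := by
      by_contra hcon
      exact hf (if_neg hcon)
    have hE' : CTT_E g s' w T0 := by
      by_contra hcon
      exact hf' (if_neg hcon)
    rw [mem_powerset] at hY hY'
    have hA : ∀ {s Y : Finset (V d)}, CTT_E g s w T0 → Y ⊆ CTT_Y s w T0 → ∀ y,
        (y ∈ Y ↔ y ∈ s ∪ Y ∧ ∃ i ∈ T0, ∃ j, y = nb j (nb i w)) ∧
        (y ∈ s ↔ y ∈ s ∪ Y ∧ ¬ ∃ i ∈ T0, ∃ j, y = nb j (nb i w)) := by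
      intro s Y hE hY y
      have h3 : y ∈ s → ¬ ∃ i ∈ T0, ∃ j, y = nb j (nb i w) := by
        rintro hy ⟨i, hi, j, rfl⟩
        exact nOcc_eq_zero.1 (hE i hi).1 j hy
      have h4 : y ∈ Y → ∃ i ∈ T0, ∃ j, y = nb j (nb i w) := fun hy =>
        (CTT_Y_prop hE (hY hy)).2.2.2
      rw [mem_union]
      constructor
      · constructor
        · exact fun h => ⟨Or.inr h, h4 h⟩
        · rintro ⟨h | h, h5⟩
          · exact absurd h5 (h3 h)
          · exact h
      · constructor
        · exact fun h => ⟨Or.inl h, h3 h⟩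
        · rintro ⟨h | h, h5⟩
          · exact h
          · exact absurd (h4 h) h5
    constructor
    · ext y
      rw [(hA hE hY y).2, (hA hE' hY' y).2, he]
    · ext y
      rw [(hA hE hY y).1, (hA hE' hY' y).1, he]

/-- resampling the particles around `t0` available neighbours which are not normal -/
theorem ct_tail {T l m : ℝ} (hl : 0 < l) (hT : 0 ≤ T) (x : ℝ) (w : V d) (n t0 g : ℕ)
    (ht0 : (t0 : ℝ) + n ≤ 1 / l) (hg : 8 * exp (2 * T) * g ≤ 3 * d) (hm : m ≤ 3 / 4 * d) :
    avU l x (fun s => if Ct T l s w ∧ nOcc s w ≤ n ∧ ∀ i, ¬ LAx l T m s (nb i w)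
      then (1 : ℝ) else 0) ≤
      (d.choose t0 : ℝ) * exp (-((t0 : ℝ) * ((g : ℝ) - 1) / 2 * log (1 + l))) * Zx d l x := by
  have h0 : ∀ s ∈ Bx d x, (if Ct T l s w ∧ nOcc s w ≤ n ∧ ∀ i, ¬ LAx l T m s (nb i w)
      then (1 : ℝ) else 0) ≤ ∑ T0 ∈ (univ : Finset (Fin d)).powersetCard t0,
        (if CTT_E g s w T0 then (1 : ℝ) else 0) := by
    intro s _
    have hnn : ∀ T0 ∈ (univ : Finset (Fin d)).powersetCard t0,
        (0 : ℝ) ≤ (if CTT_E g s w T0 then (1 : ℝ) else 0) := by
      intro T0 _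
      split_ifs
      · exact zero_le_one
      · exact le_refl _
    by_cases hs : Ct T l s w ∧ nOcc s w ≤ n ∧ ∀ i, ¬ LAx l T m s (nb i w)
    · rw [if_pos hs]
      obtain ⟨⟨hw, h1⟩, h2, h3⟩ := hs
      -- the candidates
      set U : Finset (Fin d) := univ.filter fun i => nOcc s (nb i w) = 0 ∧ ¬ Nm T l s (nb i w)
        with hU
      set O : Finset (Fin d) := univ.filter fun i => nb i w ∈ s with hO
      have hOn : O.card ≤ n := by
        have : O.card = nOcc s w := rfl
        rw [this]; exact h2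
      have h4 : t0 ≤ (U \ O).card := by
        have h5 : U.card ≤ (U \ O).card + O.card := by
          have := card_le_card (show U ⊆ (U \ O) ∪ O from by
            intro i hi
            rw [mem_union, mem_sdiff]
            tauto)
          exact this.trans (card_union_le _ _)
        have h6 : (t0 : ℝ) + n < (U.card : ℝ) := lt_of_le_of_lt ht0 h1
        have h7 : t0 + n < U.card := by exact_mod_cast h6
        omega
      obtain ⟨T0, hT0, hc⟩ := exists_subset_card_eq h4
      have hE : CTT_E g s w T0 := by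
        intro i hi
        have h5 := mem_sdiff.1 (hT0 hi)
        rw [hU, hO, mem_filter, mem_filter] at h5
        refine ⟨h5.1.2.1, fun h6 => h5.2 ⟨mem_univ _, h6⟩, ?_⟩
        have h6 := h5.1.2.2
        unfold Nm at h6
        push Not at h6
        have h7 := h3 i
        unfold LAx at h7
        have h8 : (univ.filter fun k => T ≤ l * (Fr s (nb k (nb i w)) : ℝ)).card +
            (univ.filter fun k => l * (Fr s (nb k (nb i w)) : ℝ) < T).card = d := by
          have := card_filter_add_card_filter_not (s := (univ : Finset (Fin d)))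
            (fun k => T ≤ l * (Fr s (nb k (nb i w)) : ℝ))
          simp only [not_le] at this
          rw [this]; simp
        set a := (univ.filter fun k => T ≤ l * (Fr s (nb k (nb i w)) : ℝ)).card with ha
        set b := (univ.filter fun k => l * (Fr s (nb k (nb i w)) : ℝ) < T).card with hb
        have h8' : (a : ℝ) + b = d := by exact_mod_cast h8
        have h6' : (4 : ℝ) * a < d := by exact_mod_cast h6
        have h9 : m < (b : ℝ) := by linarith
        have h10 : (b : ℝ) ≤ 2 * exp (2 * T) * (Fr s (nb i w) : ℝ) := by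
          by_contra hcon
          push Not at hcon
          exact h7 ⟨h9, hcon⟩
        have h11 : 8 * exp (2 * T) * (g : ℝ) < 8 * exp (2 * T) * (Fr s (nb i w) : ℝ) := by
          linarith
        have h12 : (g : ℝ) < (Fr s (nb i w) : ℝ) := by
          have := exp_pos (2 * T)
          exact lt_of_mul_lt_mul_left h11 (by positivity)
        exact_mod_cast h12.le
      have h13 : T0 ∈ (univ : Finset (Fin d)).powersetCard t0 :=
        mem_powersetCard.2 ⟨subset_univ _, hc⟩
      have h14 := single_le_sum hnn h13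
      rw [if_pos hE] at h14
      exact h14
    · rw [if_neg hs]
      exact sum_nonneg hnn
  refine (avU_mono hl.le h0).trans ?_
  rw [avU_sum]
  have h1 : ∀ T0 ∈ (univ : Finset (Fin d)).powersetCard t0,
      avU l x (fun s => if CTT_E g s w T0 then (1 : ℝ) else 0) ≤
        exp (-((t0 : ℝ) * ((g : ℝ) - 1) / 2 * log (1 + l))) * Zx d l x := by
    intro T0 hT0
    have := CTT_one hl x w g T0
    rw [(mem_powersetCard.1 hT0).2] at this
    exact this
  refine (sum_le_card_nsmul _ _ _ h1).trans ?_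
  rw [card_powersetCard, card_univ, Fintype.card_fin, nsmul_eq_mul, mul_assoc]

end Pool.Agent.Lib.MP_c6118e_pr.Win
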