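import Pool.Agent.Lib.MP_c6118e_pr.Basic

/-!
# The window `s₀/d ≤ l ≤ C log d / d` : definitions
-/

namespace Pool.Agent.Lib.MP_c6118e_pr.Win

open Finset Real
open scoped Classical

variable {d : ℕ}

/-- directions `i` such that `nb i v` has no occupied neighbour except possibly `v` -/
noncomputable def Fset (s : Finset (V d)) (v : V d) : Finset (Fin d) :=
  univ.filter fun i => ∀ j, j ≠ i → nb j (nb i v) ∉ s

/-- the number of these directions -/
noncomputable def Fr (s : Finset (V d)) (v : V d) : ℕ := (Fset s v).card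

/-- `q` is normal: at least `d/4` neighbours with `l F ≥ T` -/
def Nm (T l : ℝ) (s : Finset (V d)) (q : V d) : Prop :=
  d ≤ 4 * (univ.filter fun i => T ≤ l * (Fr s (nb i q) : ℝ)).card

/-- available (no occupied neighbour) and normal -/
def An (T l : ℝ) (s : Finset (V d)) (q : V d) : Prop := nOcc s q = 0 ∧ Nm T l s q

/-- number of available normal neighbours -/
noncomputable def Fn (T l : ℝ) (s : Finset (V d)) (w : V d) : ℕ :=
  (univ.filter fun i => An T l s (nb i w)).card

/-- the edge `(u, nb i u)` has no occupied vertex in or next to it, both ends have `l F < c` -/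
def FFp (l c : ℝ) (s : Finset (V d)) (u : V d) (i : Fin d) : Prop :=
  nOcc s u = 0 ∧ nOcc s (nb i u) = 0 ∧ l * (Fr s u : ℝ) < c ∧ l * (Fr s (nb i u) : ℝ) < c

/-- number of such oriented edges -/
noncomputable def FFn (l c : ℝ) (s : Finset (V d)) : ℕ :=
  (univ.filter fun q : V d × Fin d => FFp l c s q.1 q.2).card

/-- `v` has `l F ≥ r` and at least `d/4` such neighbours -/
def Rp (l r : ℝ) (s : Finset (V d)) (v : V d) : Prop :=
  r ≤ l * (Fr s v : ℝ) ∧ d ≤ 4 * (univ.filter fun i => r ≤ l * (Fr s (nb i v) : ℝ)).card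

/-- weighted number of these vertices -/
noncomputable def Rw (l e r : ℝ) (s : Finset (V d)) : ℝ :=
  ∑ v ∈ univ.filter (Rp l r s), exp (-(e * (l * (Fr s v : ℝ))))

/-- unmarked sum over `Bx d x` -/
noncomputable def avU (l x : ℝ) (f : Finset (V d) → ℝ) : ℝ := ∑ s ∈ Bx d x, l ^ s.card * f s

/-- marked sum over `Bx d x` : `t ⊆ s` is the set of particles with mark 1 -/
noncomputable def avM (l x : ℝ) (f : Finset (V d) → Finset (V d) → ℝ) : ℝ :=
  ∑ s ∈ Bx d x, ∑ t ∈ s.powerset, (l / 2) ^ s.card * f s t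

/-- the functional which is maximised -/
noncomputable def Psi (Lam e1 e0 C4 : ℝ) (d : ℕ) (l c x : ℝ) : ℝ :=
  Lam * l * avU (d := d) l x (fun s => (FFn l c s : ℝ)) +
    avU (d := d) l x (fun s => Rw l e1 (2 * C4 + 3 - c) s) + e0 * l * 2 ^ d * Zx d l x

/-- exceptional: many light neighbours but small `F` -/
def LAx (l c m : ℝ) (s : Finset (V d)) (v : V d) : Prop :=
  m < ((univ.filter fun i => l * (Fr s (nb i v) : ℝ) < c).card : ℝ) ∧
  2 * exp (2 * c) * (Fr s v : ℝ) < ((univ.filter fun i => l * (Fr s (nb i v) : ℝ) < c).card : ℝ)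

/-- exceptional: more than `1/l` available neighbours which are not normal -/
def Ct (T l : ℝ) (s : Finset (V d)) (w : V d) : Prop :=
  w ∉ s ∧ 1 / l < ((univ.filter fun i => nOcc s (nb i w) = 0 ∧ ¬ Nm T l s (nb i w)).card : ℝ)

/-- `q` and `r` are adjacent in direction `k` : `r = q + e_k + e_j`, `j ≠ k` -/
def adjk (k : Fin d) (q r : V d) : Prop := ∃ j, j ≠ k ∧ r = nb j (nb k q)

/-- vertices reachable from `q` through `D` (contains `q`) -/
noncomputable def cmp (k : Fin d) (D : Finset (V d)) (q : V d) : Finset (V d) :=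
  univ.filter fun r => Relation.ReflTransGen (fun a b => b ∈ D ∧ adjk k a b) q r

/-- the component of `q` in the normal particles of mark 1 -/
noncomputable def cn (T l : ℝ) (k : Fin d) (s t : Finset (V d)) (q : V d) : Finset (V d) :=
  cmp k (t.filter fun r => An T l s r) q

/-- its boundary among the available normal vertices -/
noncomputable def bd (T l : ℝ) (k : Fin d) (s C : Finset (V d)) : Finset (V d) :=
  univ.filter fun r => r ∉ C ∧ An T l s r ∧ ∃ a ∈ C, adjk k a r

/-- small component, small boundary -/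
def NR (T l K : ℝ) (k : Fin d) (m : ℕ) (s t : Finset (V d)) (q : V d) : Prop :=
  (cn T l k s t q).card ≤ m ∧
    l / 2 * ((bd T l k s (cn T l k s t q)).card : ℝ) < K * ((cn T l k s t q).card : ℝ)

/-- component of size `m` with large boundary, at most `n` particles at each `nb k r` -/
def RA (T l K : ℝ) (n : ℕ) (k : Fin d) (m : ℕ) (s t : Finset (V d)) (q : V d) : Prop :=
  (cn T l k s t q).card = m ∧
    K * (m : ℝ) ≤ l / 2 * ((bd T l k s (cn T l k s t q)).card : ℝ) ∧
    ∀ r ∈ cn T l k s t q, nOcc s (nb k r) ≤ n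

/-- exceptional small components -/
def XC (T l K : ℝ) (n : ℕ) (k : Fin d) (m : ℕ) (s t : Finset (V d)) (q : V d) : Prop :=
  (cn T l k s t q).card ≤ m ∧ ((∃ r ∈ cn T l k s t q, n < nOcc s (nb k r)) ∨
    (n < (cn T l k s t q).card ∧ (∀ r ∈ cn T l k s t q, nOcc s (nb k r) ≤ n) ∧
      K * ((cn T l k s t q).card : ℝ) ≤ l / 2 * ((bd T l k s (cn T l k s t q)).card : ℝ)))

/-- number of `NR` particles adjacent to `u` in direction `k` -/
noncomputable def NRn (T l K : ℝ) (k : Fin d) (m : ℕ) (s t : Finset (V d)) (u : V d) : ℕ :=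
  (t.filter fun q => adjk k u q ∧ An T l s q ∧ NR T l K k m s t q).card

/-- number of exceptional particles adjacent to `u` in direction `k` -/
noncomputable def XCn (T l K : ℝ) (n : ℕ) (k : Fin d) (m : ℕ) (s t : Finset (V d)) (u : V d) : ℕ :=
  (t.filter fun q => adjk k u q ∧ An T l s q ∧ XC T l K n k m s t q).card

/-- number of `NR` particles -/
noncomputable def NRg (T l K : ℝ) (k : Fin d) (m : ℕ) (s t : Finset (V d)) : ℕ :=
  (t.filter fun q => An T l s q ∧ NR T l K k m s t q).card

/-- number of exceptional particles -/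
noncomputable def XCg (T l K : ℝ) (n : ℕ) (k : Fin d) (m : ℕ) (s t : Finset (V d)) : ℕ :=
  (t.filter fun q => An T l s q ∧ XC T l K n k m s t q).card

/-- number of particles `q` with more than `n` particles around `nb k q` -/
noncomputable def NBg (n : ℕ) (k : Fin d) (s : Finset (V d)) : ℕ :=
  (s.filter fun q => n < nOcc s (nb k q)).card

/-- number of poor normal particles in direction `k` -/
noncomputable def PNn (T l C2 : ℝ) (k : Fin d) (s : Finset (V d)) : ℕ :=
  (s.filter fun q => Nm T l s q ∧ l * (Fn T l s (nb k q) : ℝ) < C2).card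

/-- mark-1 particles in mark-1 components of size at least `b` -/
noncomputable def Lk (b : ℕ) (k : Fin d) (t : Finset (V d)) : Finset (V d) :=
  t.filter fun q => b ≤ (cmp k t q).card

/-- the component of `q` in `s` contains a vertex of `Lk` -/
def att (b : ℕ) (k : Fin d) (s t : Finset (V d)) (q : V d) : Prop :=
  ∃ r ∈ cmp k s q, r ∈ Lk b k t

/-- some vertex of `Lk` is adjacent to `u` -/
def bT (b : ℕ) (k : Fin d) (t : Finset (V d)) (u : V d) : Prop := ∃ q ∈ Lk b k t, adjk k u q

/-- number of nonattached particles adjacent to `u` -/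
noncomputable def na (b : ℕ) (k : Fin d) (s t : Finset (V d)) (u : V d) : ℕ :=
  (s.filter fun q => adjk k u q ∧ ¬ att b k s t q).card

/-- the pair `{u, nb k u}` is empty and adjacent to `Lk` particles of both parities -/
def DVp (b : ℕ) (k : Fin d) (s t : Finset (V d)) (u : V d) : Prop :=
  u ∉ s ∧ nb k u ∉ s ∧ bT b k t u ∧ bT b k t (nb k u)

/-- number of nonattached particles adjacent to the pair `{u, nb k u}` -/
noncomputable def kap (b : ℕ) (k : Fin d) (s t : Finset (V d)) (u : V d) : ℕ :=
  na b k s t u + na b k s t (nb k u)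

/-- neighbourhood -/
noncomputable def Nbr (w : V d) : Finset (V d) := univ.filter fun z => ∃ i, z = nb i w

/-- stability of an environment `e ≤ e'` under removing `C` and adding `S` of parity `p` -/
def Stab (p : ZMod 2) (Fb : Finset (V d)) (a b : ℕ) (e e' : Finset (V d) → ℝ) : Prop :=
  ∀ s ∈ Om d, ∀ C ⊆ s, ∀ S : Finset (V d), (∀ z ∈ C, par z = p) → (∀ z ∈ S, par z = p) →
    C.card ≤ a → S.card ≤ b → Disjoint S Fb → (s \ C) ∪ S ∈ Om d → e s ≤ e' ((s \ C) ∪ S)

/-- the environments -/
noncomputable def eF (l c : ℝ) (u : V d) (i : Fin d) (s : Finset (V d)) : ℝ :=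
  if FFp l c s u i then 1 else 0

noncomputable def eR (l e r : ℝ) (v : V d) (s : Finset (V d)) : ℝ :=
  if Rp l r s v then exp (-(e * (l * (Fr s v : ℝ)))) else 0

/-- potential: available normal vertices adjacent to `u`, weighted -/
noncomputable def poti (T l : ℝ) (k : Fin d) (s : Finset (V d)) (u : V d) : ℝ :=
  ∑ j ∈ univ.filter (fun j => j ≠ k ∧ An T l s (nb j (nb k u))),
    exp (-(3 / 20 * l * (Fn T l s (nb j u) : ℝ)))

/-- the constant of the percolation sum -/
noncomputable def th (K : ℝ) : ℝ := 11 * exp (-(12 / 25 * K))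

/-- the exceptional event at a vertex -/
def Exc (T l C2 C6 m : ℝ) (n : ℕ) (s : Finset (V d)) (v : V d) : Prop :=
  n < nOcc s v ∨ LAx l T m s v ∨ LAx l (C2 + 1) m s v ∨ LAx l C6 m s v ∨ Ct T l s v

/-- `⌈(log d)²⌉` -/
noncomputable def nn (d : ℕ) : ℕ := ⌈(log d) ^ 2⌉₊

end Pool.Agent.Lib.MP_c6118e_pr.Win
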