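import Pool.Agent.Lib.MP_c6118e_pr.Win.FR

/-! # ENVF: stability of the FF environment -/

namespace Pool.Agent.Lib.MP_c6118e_pr.Win

open Finset Real
open scoped Classical

variable {d : ℕ}

theorem stab_eF {l c c' : ℝ} (hl : 0 ≤ l) (u : V d) (i : Fin d) (a b : ℕ)
    (hc : c + 2 * l * a ≤ c') : Stab (par u) (Nbr (nb i u)) a b (eF l c u i) (eF l c' u i) := by
  intro s hs C hC S hCp hSp hCa hSb hdisj hs'
  unfold eF
  by_cases h : FFp l c s u i
  · have h' : FFp l c' ((s \ C) ∪ S) u i := by
      obtain ⟨h1, h2, h3, h4⟩ := h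
      have hodd : ∀ z, par z = par u + 1 → (z ∈ s ↔ z ∈ (s \ C) ∪ S) := by
        intro z hz
        have hne : par z ≠ par u := by
          rw [hz]
          intro h0
          have : (1 : ZMod 2) = 0 := by
            calc (1 : ZMod 2) = par u + 1 - par u := by ring
              _ = 0 := by rw [h0, sub_self]
          exact absurd this (by decide)
        rw [mem_union, mem_sdiff]
        constructor
        · intro hzs
          exact Or.inl ⟨hzs, fun hzC => hne (hCp z hzC)⟩
        · rintro (h0 | h0)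
          · exact h0.1
          · exact absurd (hSp z h0) hne
      refine ⟨?_, ?_, ?_, ?_⟩
      · rw [← nOcc_congr hodd]
        exact h1
      · rw [nOcc_eq_zero] at h2 ⊢
        intro j hj
        rw [mem_union, mem_sdiff] at hj
        rcases hj with hj | hj
        · exact h2 j hj.1
        · exact (Finset.disjoint_left.1 hdisj) hj (mem_filter.2 ⟨mem_univ _, j, rfl⟩)
      · have e1 : Fr ((s \ C) ∪ S) u ≤ Fr s u + 2 * C.card :=
          (Fr_anti subset_union_left u).trans (Fr_sdiff_le s C u)
        have e2 : (Fr ((s \ C) ∪ S) u : ℝ) ≤ Fr s u + 2 * a := by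
          have : Fr ((s \ C) ∪ S) u ≤ Fr s u + 2 * a := by omega
          exact_mod_cast this
        calc l * (Fr ((s \ C) ∪ S) u : ℝ) ≤ l * (Fr s u + 2 * a) :=
              mul_le_mul_of_nonneg_left e2 hl
          _ = l * (Fr s u : ℝ) + 2 * l * a := by ring
          _ < c + 2 * l * a := by linarith
          _ ≤ c' := hc
      · have e1 : Fr s (nb i u) = Fr ((s \ C) ∪ S) (nb i u) :=
          Fr_congr fun z hz => hodd z (by rw [hz, par_nb])
        rw [← e1]
        have : 0 ≤ 2 * l * a := by positivity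
        linarith
    rw [if_pos h, if_pos h']
  · rw [if_neg h]
    split_ifs <;> norm_num

/-- common neighbours -/
theorem card_common_le {v w : V d} (h : v ≠ w) :
    ((Nbr v).filter fun z => ∃ i, z = nb i w).card ≤ 2 := by
  have hsub : ((Nbr v).filter fun z => ∃ i, z = nb i w) ⊆
      (univ.filter fun i => ∃ j, j ≠ i ∧ nb j (nb i v) = w).image fun i => nb i v := by
    intro z hz
    rw [mem_filter] at hz
    obtain ⟨hz1, j, hj⟩ := hz
    obtain ⟨-, i, hi⟩ := mem_filter.1 hz1
    refine mem_image.2 ⟨i, mem_filter.2 ⟨mem_univ _, j, ?_, ?_⟩, hi.symm⟩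
    · rintro rfl
      apply h
      have := congrArg (nb j) (hi.symm.trans hj)
      rwa [nb_nb, nb_nb] at this
    · rw [← hi, hj, nb_nb]
  exact (card_le_card hsub).trans (card_image_le.trans (two_dirs v w))

theorem eF_forb {l c : ℝ} (u : V d) (i : Fin d) (k : Fin d) :
    ∀ s ∈ Om d, eF l c u i s ≠ 0 → ∀ r ∈ s, par r = par u →
      ((Nbr (nb i u)).filter fun z => ∃ j, z = nb j (nb k r)).card ≤ 2 := by
  intro s hs h r hr hpar
  have hF : FFp l c s u i := by
    by_contra h0
    apply h
    unfold eF
    rw [if_neg h0]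
  refine card_common_le ?_
  intro heq
  have h2 := nOcc_eq_zero.1 hF.2.1 k
  apply h2
  rw [heq, nb_nb]
  exact hr

end Pool.Agent.Lib.MP_c6118e_pr.Win
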