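import Pool.Agent.Lib.MP_c6118e_pr.Win.FR

/-! # ENVR: stability of the R environment -/

namespace Pool.Agent.Lib.MP_c6118e_pr.Win

open Finset Real
open scoped Classical

variable {d : ℕ}

theorem stab_eR {l e1 r r' : ℝ} (hl : 0 ≤ l) (he1 : 0 ≤ e1) (p : ZMod 2) (v : V d) (a b : ℕ)
    (hr : r' ≤ r - 2 * l * b) :
    Stab p ∅ a b (eR l e1 r v) (fun s => exp (2 * e1 * l * a) * eR l e1 r' v s) := by
  intro s hs C hC S hCp hSp hCa hSb hdisj hs'
  obtain ⟨s', hs'e⟩ : ∃ s', s' = (s \ C) ∪ S := ⟨_, rfl⟩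
  rw [← hs'e]
  have hlow : ∀ u : V d, l * (Fr s u : ℝ) ≤ l * (Fr s' u : ℝ) + 2 * l * b := by
    intro u
    have h1 : Fr s u ≤ Fr (s ∪ S) u + 2 * S.card := Fr_le_union s S u
    have h2 : Fr (s ∪ S) u ≤ Fr s' u := by
      apply Fr_anti
      rw [hs'e]
      exact union_subset_union sdiff_subset (Subset.refl _)
    have h3 : Fr s u ≤ Fr s' u + 2 * b := by omega
    have h4 : (Fr s u : ℝ) ≤ Fr s' u + 2 * b := by exact_mod_cast h3
    calc l * (Fr s u : ℝ) ≤ l * (Fr s' u + 2 * b) := mul_le_mul_of_nonneg_left h4 hl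
      _ = _ := by ring
  have hup : (Fr s' v : ℝ) ≤ Fr s v + 2 * a := by
    have h1 : Fr s' v ≤ Fr (s \ C) v := by
      apply Fr_anti
      rw [hs'e]
      exact subset_union_left
    have h2 := Fr_sdiff_le s C v
    have h3 : Fr s' v ≤ Fr s v + 2 * a := by omega
    exact_mod_cast h3
  change eR l e1 r v s ≤ exp (2 * e1 * l * a) * eR l e1 r' v s'
  unfold eR
  by_cases h : Rp l r s v
  · have h' : Rp l r' s' v := by
      refine ⟨?_, h.2.trans ?_⟩
      · have := hlow v
        have := h.1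
        linarith
      · refine Nat.mul_le_mul_left 4 (card_le_card ?_)
        intro i hi
        rw [mem_filter] at hi ⊢
        refine ⟨hi.1, ?_⟩
        have := hlow (nb i v)
        have := hi.2
        linarith
    rw [if_pos h, if_pos h', ← Real.exp_add]
    apply Real.exp_le_exp.2
    have h1 : e1 * (l * (Fr s' v : ℝ)) ≤ e1 * (l * (Fr s v + 2 * a)) :=
      mul_le_mul_of_nonneg_left (mul_le_mul_of_nonneg_left hup hl) he1
    have h2 : e1 * (l * ((Fr s v : ℝ) + 2 * a)) = e1 * (l * (Fr s v : ℝ)) + 2 * e1 * l * a := by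
      ring
    linarith
  · rw [if_neg h]
    have h0 : (0 : ℝ) ≤ exp (2 * e1 * l * a) := (Real.exp_pos _).le
    refine mul_nonneg h0 ?_
    split_ifs
    · exact (Real.exp_pos _).le
    · exact le_refl _

end Pool.Agent.Lib.MP_c6118e_pr.Win
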