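import Pool.Agent.Lib.MP_c6118e_pr.Win.FR
import Pool.Agent.Lib.MP_c6118e_pr.Win.TOOL
import Pool.Agent.Lib.MP_c6118e_pr.FINN

/-! # LA: few neighbours of a light vertex are light -/

namespace Pool.Agent.Lib.MP_c6118e_pr.Win

open Finset Real
open scoped Classical

variable {d : ℕ}

theorem LAT_sum_card {ι κ : Type*} [DecidableEq ι] [DecidableEq κ] (O : Finset κ) (Ti : κ → Finset ι) (E T : Finset ι)
    (hTE : T ⊆ E) (h2 : ∀ e ∈ E, (O.filter fun i => e ∈ Ti i).card = 2) :
    ∑ i ∈ O, (T ∩ Ti i).card = 2 * T.card := by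
  have h1 : ∀ i ∈ O, (T ∩ Ti i).card = ∑ e ∈ T, if e ∈ Ti i then 1 else 0 := by
    intro i _
    rw [← filter_mem_eq_inter, card_filter]
  rw [sum_congr rfl h1, sum_comm]
  have h3 : ∀ e ∈ T, (∑ i ∈ O, if e ∈ Ti i then 1 else 0) = 2 := by
    intro e he
    rw [← card_filter, h2 e (hTE he)]
  rw [sum_congr rfl h3, sum_const, smul_eq_mul, mul_comm]

/-- Finner's inequality in the star graph, abstract form -/
theorem LAT_finner {ι κ : Type*} [DecidableEq ι] [DecidableEq κ] (O : Finset κ) (Ti : κ → Finset ι) (E : Finset ι) (L : Finset κ)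
    {l c m : ℝ} (hl : 0 < l) (hc : 0 ≤ c) (hLO : L ⊆ O)
    (hTE : ∀ i ∈ O, Ti i ⊆ E) (h2 : ∀ e ∈ E, (O.filter fun i => e ∈ Ti i).card = 2)
    (hL : ∀ i ∈ L, l * ((Ti i).card : ℝ) ≤ c) (hmL : m < (L.card : ℝ)) :
    ∑ T ∈ E.powerset.filter (fun T => 2 * exp (2 * c) *
        ((L.filter fun i => T ∩ Ti i = ∅).card : ℝ) < (L.card : ℝ)), l ^ T.card ≤
      exp (-(7 / 100 * exp (-c) * m)) * (1 + l) ^ E.card := by
  set M : ℝ := (L.card : ℝ) with hM
  set G : κ → Finset ι → ℝ := fun i B => l ^ B.card * (if i ∈ L ∧ B = ∅ then 1 / 2 else 1) with hG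
  have hGnn : ∀ v B, 0 ≤ G v B := by
    intro v B
    simp only [hG]
    split_ifs <;> positivity
  have hF := finner O Ti 2 (by norm_num) E hTE h2 G hGnn
  have e2 : (1 / ((2 : ℕ) : ℝ)) = 1 / 2 := by norm_num
  simp only [e2] at hF
  -- the weight of `T`
  have hw : ∀ T ∈ E.powerset, ∏ v ∈ O, (G v (T ∩ Ti v)) ^ (1 / 2 : ℝ) =
      sqrt ((l ^ T.card) ^ 2 * (1 / 2) ^ (L.filter fun i => T ∩ Ti i = ∅).card) := by
    intro T hT
    rw [mem_powerset] at hT
    rw [finsetProd_rpow _ _ (fun i _ => hGnn _ _), ← sqrt_eq_rpow]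
    congr 1
    simp only [hG]
    rw [prod_mul_distrib, prod_pow_eq_pow_sum, LAT_sum_card O Ti E T hT h2, ← pow_mul,
      mul_comm 2 T.card]
    congr 1
    rw [prod_ite, prod_const, prod_const_one, mul_one]
    congr 2
    ext i
    simp only [mem_filter]
    constructor
    · rintro ⟨_, h1, h3⟩; exact ⟨h1, h3⟩
    · rintro ⟨h1, h3⟩; exact ⟨hLO h1, h1, h3⟩
  -- lower bound for bad sets
  have hlow : ∀ T ∈ E.powerset.filter (fun T => 2 * exp (2 * c) *
        ((L.filter fun i => T ∩ Ti i = ∅).card : ℝ) < M),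
      l ^ T.card ≤ exp (log 2 * M * exp (-c) / 4) *
        ∏ v ∈ O, (G v (T ∩ Ti v)) ^ (1 / 2 : ℝ) := by
    intro T hT
    rw [mem_filter] at hT
    rw [hw T hT.1]
    set k := (L.filter fun i => T ∩ Ti i = ∅).card with hk
    have hk1 : (k : ℝ) ≤ M * exp (-c) / 2 := by
      have h3 : exp (2 * c) * exp (-c) = exp c := by rw [← exp_add]; congr 1; ring
      have h4 : 1 ≤ exp c := one_le_exp hc
      have h5 := exp_pos (-c)
      have h6 : 2 * (exp (2 * c) * exp (-c)) * (k : ℝ) ≤ M * exp (-c) := by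
        have := mul_le_mul_of_nonneg_right hT.2.le h5.le
        linarith
      rw [h3] at h6
      have h7 : (0 : ℝ) ≤ k := Nat.cast_nonneg _
      nlinarith
    have hpos : 0 ≤ l ^ T.card := by positivity
    have hexp : exp (log 2 * M * exp (-c) / 4) * sqrt ((l ^ T.card) ^ 2 * (1 / 2) ^ k) =
        sqrt (exp (log 2 * M * exp (-c) / 2) * ((l ^ T.card) ^ 2 * (1 / 2) ^ k)) := by
      rw [sqrt_mul (exp_pos _).le]
      congr 1
      rw [← exp_half]
      congr 1
      ring
    rw [hexp]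
    apply le_sqrt_of_sq_le
    have h8 : 1 ≤ exp (log 2 * M * exp (-c) / 2) * (1 / 2) ^ k := by
      have h9 : ((1 : ℝ) / 2) ^ k = exp (-(log 2 * k)) := by
        rw [one_div, inv_pow, exp_neg]
        congr 1
        rw [mul_comm, exp_nat_mul, exp_log (by norm_num)]
      rw [h9, ← exp_add]
      apply one_le_exp
      have h10 : 0 ≤ log 2 := log_nonneg (by norm_num)
      nlinarith
    nlinarith [sq_nonneg (l ^ T.card)]
  -- upper bound
  have hup : ∏ v ∈ O, (∑ B ∈ (Ti v).powerset, G v B) ^ (1 / 2 : ℝ) ≤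
      (1 + l) ^ E.card * exp (-(M * exp (-c) / 4)) := by
    have hSnn : ∀ v, 0 ≤ ∑ B ∈ (Ti v).powerset, G v B := fun v => sum_nonneg fun B _ => hGnn v B
    rw [finsetProd_rpow _ _ (fun i _ => hSnn i), ← sqrt_eq_rpow]
    apply sqrt_le_iff.2
    refine ⟨by positivity, ?_⟩
    have h3 : ∀ v ∈ O, ∑ B ∈ (Ti v).powerset, G v B ≤
        (1 + l) ^ (Ti v).card * (if v ∈ L then exp (-(exp (-c) / 2)) else 1) := by
      intro v _
      by_cases hv : v ∈ L
      · rw [if_pos hv]
        have h4 : ∑ B ∈ (Ti v).powerset, G v B = (1 + l) ^ (Ti v).card - 1 / 2 := by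
          rw [← sum_pow_card, ← sum_erase_add _ (fun B => G v B) (empty_mem_powerset (Ti v)),
            ← sum_erase_add _ (fun B : Finset ι => l ^ B.card) (empty_mem_powerset (Ti v))]
          have h5 : ∑ B ∈ (Ti v).powerset.erase ∅, G v B =
              ∑ B ∈ (Ti v).powerset.erase ∅, l ^ B.card := by
            apply sum_congr rfl
            intro B hB
            rw [mem_erase] at hB
            simp only [hG]
            rw [if_neg (fun h => hB.1 h.2), mul_one]
          rw [h5]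
          simp only [hG, hv, card_empty, pow_zero, true_and, if_true]
          ring
        rw [h4]
        have h6 : (1 + l) ^ (Ti v).card ≤ exp c := by
          calc (1 + l) ^ (Ti v).card ≤ exp l ^ (Ti v).card :=
                pow_le_pow_left₀ (by linarith) (by linarith [add_one_le_exp l]) _
            _ = exp (l * (Ti v).card) := by rw [mul_comm, exp_nat_mul]
            _ ≤ exp c := exp_le_exp.2 (hL v hv)
        have h7 : 1 - exp (-c) / 2 ≤ exp (-(exp (-c) / 2)) := by
          have := add_one_le_exp (-(exp (-c) / 2)); linarith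
        have h8 : (1 + l) ^ (Ti v).card * exp (-c) ≤ 1 := by
          have h9 : exp c * exp (-c) = 1 := by rw [← exp_add, add_neg_cancel, exp_zero]
          calc _ ≤ exp c * exp (-c) := mul_le_mul_of_nonneg_right h6 (exp_pos _).le
            _ = 1 := h9
        have h10 : 0 < (1 + l) ^ (Ti v).card := by positivity
        nlinarith [mul_le_mul_of_nonneg_left h7 h10.le]
      · rw [if_neg hv, mul_one, ← sum_pow_card]
        apply le_of_eq
        apply sum_congr rfl
        intro B _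
        simp only [hG]
        rw [if_neg (fun h => hv h.1), mul_one]
    refine (prod_le_prod (fun v _ => hSnn v) h3).trans (le_of_eq ?_)
    rw [prod_mul_distrib, prod_pow_eq_pow_sum, prod_ite, prod_const, prod_const_one, mul_one]
    have h4 : ∑ i ∈ O, (Ti i).card = 2 * E.card := by
      rw [← LAT_sum_card O Ti E E subset_rfl h2]
      apply sum_congr rfl
      intro i hi
      rw [inter_eq_right.2 (hTE i hi)]
    have h5 : (O.filter fun i => i ∈ L) = L := by
      ext i
      rw [mem_filter]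
      exact ⟨fun h => h.2, fun h => ⟨hLO h, h⟩⟩
    rw [h4, h5, mul_pow, ← pow_mul, mul_comm 2 E.card, ← exp_nat_mul, ← exp_nat_mul]
    congr 2
    push_cast
    rw [← hM]
    ring
  calc ∑ T ∈ E.powerset.filter (fun T => 2 * exp (2 * c) *
        ((L.filter fun i => T ∩ Ti i = ∅).card : ℝ) < M), l ^ T.card
      ≤ ∑ T ∈ E.powerset.filter (fun T => 2 * exp (2 * c) *
        ((L.filter fun i => T ∩ Ti i = ∅).card : ℝ) < M), exp (log 2 * M * exp (-c) / 4) *
        ∏ v ∈ O, (G v (T ∩ Ti v)) ^ (1 / 2 : ℝ) := sum_le_sum hlow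
    _ ≤ ∑ T ∈ E.powerset, exp (log 2 * M * exp (-c) / 4) *
        ∏ v ∈ O, (G v (T ∩ Ti v)) ^ (1 / 2 : ℝ) := by
        apply sum_le_sum_of_subset_of_nonneg (filter_subset _ _)
        intro T _ _
        exact mul_nonneg (exp_pos _).le (prod_nonneg fun v _ => rpow_nonneg (hGnn _ _) _)
    _ = exp (log 2 * M * exp (-c) / 4) * ∑ T ∈ E.powerset,
        ∏ v ∈ O, (G v (T ∩ Ti v)) ^ (1 / 2 : ℝ) := by rw [mul_sum]
    _ ≤ exp (log 2 * M * exp (-c) / 4) * ((1 + l) ^ E.card * exp (-(M * exp (-c) / 4))) :=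
        mul_le_mul_of_nonneg_left (hF.trans hup) (exp_pos _).le
    _ = exp (-((1 - log 2) / 4 * exp (-c) * M)) * (1 + l) ^ E.card := by
        rw [mul_comm ((1 + l) ^ E.card), ← mul_assoc, ← exp_add]
        congr 2
        ring
    _ ≤ exp (-(7 / 100 * exp (-c) * m)) * (1 + l) ^ E.card := by
        refine mul_le_mul_of_nonneg_right (exp_le_exp.2 ?_) (by positivity)
        have h3 := log_two_lt_d9
        have h4 := exp_pos (-c)
        have h5 : 7 / 100 * exp (-c) ≤ (1 - log 2) / 4 * exp (-c) :=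
          mul_le_mul_of_nonneg_right (by linarith) h4.le
        have h6 : 0 ≤ 7 / 100 * exp (-c) := by positivity
        nlinarith


/-- the vertices at distance two from `v` -/
noncomputable def LAT_S (v : V d) : Finset (V d) :=
  univ.filter fun z => ∃ i j, j ≠ i ∧ nb j (nb i v) = z

/-- those without occupied neighbour -/
noncomputable def LAT_E (s : Finset (V d)) (v : V d) : Finset (V d) :=
  (LAT_S v).filter fun z => nOcc s z = 0

/-- those next to `nb i v` -/
noncomputable def LAT_Ei (s : Finset (V d)) (v : V d) (i : Fin d) : Finset (V d) :=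
  (LAT_E s v).filter fun z => ∃ j, j ≠ i ∧ nb j (nb i v) = z

/-- the light directions -/
noncomputable def LAT_L (l c : ℝ) (s : Finset (V d)) (v : V d) : Finset (Fin d) :=
  univ.filter fun i => l * (Fr s (nb i v) : ℝ) < c

theorem LAT_par {v z : V d} (h : z ∈ LAT_S v) : par z = par v := by
  unfold LAT_S at h
  rw [mem_filter] at h
  obtain ⟨i, j, _, rfl⟩ := h.2
  exact par_nb_nb i j v

theorem LAT_card_S (v : V d) : (LAT_S v).card ≤ d ^ 2 := by
  have : LAT_S v ⊆ (univ : Finset (Fin d × Fin d)).image fun q => nb q.2 (nb q.1 v) := by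
    intro z hz
    unfold LAT_S at hz
    rw [mem_filter] at hz
    obtain ⟨i, j, _, h⟩ := hz.2
    exact mem_image.2 ⟨(i, j), mem_univ _, h⟩
  exact (card_le_card this).trans (card_image_le.trans (by simp [sq]))

theorem LAT_E_congr {s s' : Finset (V d)} {v : V d}
    (h : ∀ z, par z = par v + 1 → (z ∈ s ↔ z ∈ s')) : LAT_E s v = LAT_E s' v := by
  unfold LAT_E
  apply filter_congr
  intro z hz
  rw [nOcc_congr (s := s) (s' := s')]
  intro y hy
  exact h y (by rw [hy, LAT_par hz])

theorem LAT_Ei_congr {s s' : Finset (V d)} {v : V d}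
    (h : ∀ z, par z = par v + 1 → (z ∈ s ↔ z ∈ s')) (i : Fin d) :
    LAT_Ei s v i = LAT_Ei s' v i := by
  unfold LAT_Ei
  rw [LAT_E_congr h]

theorem LAT_L_congr {l c : ℝ} {s s' : Finset (V d)} {v : V d}
    (h : ∀ z, par z = par v + 1 → (z ∈ s ↔ z ∈ s')) : LAT_L l c s v = LAT_L l c s' v := by
  unfold LAT_L
  apply filter_congr
  intro i _
  rw [Fr_congr (s := s) (s' := s')]
  intro z hz
  exact h z (by rw [hz, par_nb])

theorem LAT_two {s : Finset (V d)} {v z : V d} (hz : z ∈ LAT_E s v) :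
    ((univ : Finset (Fin d)).filter fun i => z ∈ LAT_Ei s v i).card = 2 := by
  apply le_antisymm
  · refine (card_le_card ?_).trans (two_dirs v z)
    intro i hi
    rw [mem_filter] at hi ⊢
    unfold LAT_Ei at hi
    rw [mem_filter] at hi
    exact ⟨hi.1, hi.2.2⟩
  · have h1 := hz
    unfold LAT_E LAT_S at h1
    rw [mem_filter, mem_filter] at h1
    obtain ⟨i, j, hij, h2⟩ := h1.1.2
    have h3 : ({i, j} : Finset (Fin d)) ⊆
        (univ : Finset (Fin d)).filter fun i => z ∈ LAT_Ei s v i := by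
      intro k hk
      rw [mem_insert, mem_singleton] at hk
      rw [mem_filter]
      refine ⟨mem_univ _, ?_⟩
      unfold LAT_Ei
      rw [mem_filter]
      refine ⟨hz, ?_⟩
      rcases hk with rfl | rfl
      · exact ⟨j, hij, h2⟩
      · exact ⟨i, hij.symm, by rw [nb_comm]; exact h2⟩
    calc 2 = ({i, j} : Finset (Fin d)).card := (card_pair hij.symm).symm
      _ ≤ _ := card_le_card h3

theorem LAT_card_Ei (s : Finset (V d)) (v : V d) (i : Fin d) :
    (LAT_Ei s v i).card ≤ Fr s (nb i v) := by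
  have : LAT_Ei s v i ⊆ (Fset s (nb i v)).image fun j => nb j (nb i v) := by
    intro z hz
    unfold LAT_Ei LAT_E at hz
    rw [mem_filter, mem_filter] at hz
    obtain ⟨j, hj, h⟩ := hz.2
    rw [mem_image]
    refine ⟨j, ?_, h⟩
    unfold Fset
    rw [mem_filter]
    refine ⟨mem_univ _, fun k _ => ?_⟩
    rw [h]
    exact nOcc_eq_zero.1 hz.1.2 k
  exact (card_le_card this).trans card_image_le

theorem LAT_sub_E {s : Finset (V d)} (hs : Ind s) (v : V d) : s ∩ LAT_S v ⊆ LAT_E s v := by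
  intro z hz
  rw [mem_inter] at hz
  unfold LAT_E
  rw [mem_filter]
  exact ⟨hz.2, hs.nOcc hz.1⟩

theorem LAT_Fr {s : Finset (V d)} (hs : Ind s) (v : V d) (L : Finset (Fin d)) :
    (L.filter fun i => (s ∩ LAT_S v) ∩ LAT_Ei s v i = ∅).card ≤ Fr s v := by
  unfold Fr Fset
  apply card_le_card
  intro i hi
  rw [mem_filter] at hi ⊢
  refine ⟨mem_univ _, fun j hj h => ?_⟩
  have h1 : nb j (nb i v) ∈ LAT_S v := mem_filter.2 ⟨mem_univ _, i, j, hj, rfl⟩
  have h2 : nb j (nb i v) ∈ LAT_E s v := mem_filter.2 ⟨h1, hs.nOcc h⟩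
  have h3 : nb j (nb i v) ∈ LAT_Ei s v i := mem_filter.2 ⟨h2, j, hj, rfl⟩
  have h4 : nb j (nb i v) ∈ (s ∩ LAT_S v) ∩ LAT_Ei s v i :=
    mem_inter.2 ⟨mem_inter.2 ⟨h, h1⟩, h3⟩
  rw [hi.2] at h4
  simp at h4

theorem LAT_fin {l c m : ℝ} (hl : 0 < l) (hc : 0 ≤ c) (s : Finset (V d)) (v : V d)
    (hmL : m < ((LAT_L l c s v).card : ℝ)) :
    ∑ T ∈ (LAT_E s v).powerset.filter (fun T => 2 * exp (2 * c) *
        (((LAT_L l c s v).filter fun i => T ∩ LAT_Ei s v i = ∅).card : ℝ) <
          ((LAT_L l c s v).card : ℝ)), l ^ T.card ≤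
      exp (-(7 / 100 * exp (-c) * m)) * (1 + l) ^ (LAT_E s v).card := by
  apply LAT_finner univ (LAT_Ei s v) (LAT_E s v) (LAT_L l c s v) hl hc (subset_univ _)
  · intro i _
    exact filter_subset _ _
  · intro e he
    exact LAT_two he
  · intro i hi
    unfold LAT_L at hi
    rw [mem_filter] at hi
    have h1 : ((LAT_Ei s v i).card : ℝ) ≤ Fr s (nb i v) := by exact_mod_cast LAT_card_Ei s v i
    exact (mul_le_mul_of_nonneg_left h1 hl.le).trans hi.2.le
  · exact hmL

theorem LAT_union {s T : Finset (V d)} (hs : Ind s) {v : V d} (hT : T ⊆ LAT_E s v) :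
    Ind (s ∪ T) := by
  have hpar : ∀ z ∈ T, par z = par v := fun z hz => LAT_par (mem_filter.1 (hT hz)).1
  have hocc : ∀ z ∈ T, nOcc s z = 0 := fun z hz => (mem_filter.1 (hT hz)).2
  intro z hz i hi
  rw [mem_union] at hz hi
  rcases hz with hz | hz
  · rcases hi with hi | hi
    · exact hs z hz i hi
    · have := nOcc_eq_zero.1 (hocc _ hi) i
      rw [nb_nb] at this
      exact this hz
  · rcases hi with hi | hi
    · exact nOcc_eq_zero.1 (hocc _ hz) i hi
    · exact par_nb_ne i z (by rw [hpar _ hz, hpar _ hi])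

/-- many particles at distance two -/
theorem LAT_sum_le {l : ℝ} (hl : 0 < l) (v : V d) (a : ℕ) :
    ∑ B ∈ (LAT_S v).powerset.filter (fun B => a < B.card), l ^ B.card ≤
      exp (3 * l * d ^ 2 - a) := by
  have h1 : ∀ B ∈ (LAT_S v).powerset.filter (fun B => a < B.card), l ^ B.card ≤
      exp (-a) * (exp 1 * l) ^ B.card := by
    intro B hB
    rw [mem_filter] at hB
    have h2 : exp (-(a : ℝ)) * exp 1 ^ B.card ≥ 1 := by
      rw [← exp_nat_mul, ← exp_add]
      apply one_le_exp
      have : (a : ℝ) ≤ B.card := by exact_mod_cast hB.2.le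
      linarith
    rw [mul_pow, ← mul_assoc]
    have h3 : 0 ≤ l ^ B.card := by positivity
    nlinarith
  have h8 : exp 1 ≤ 3 := by
    have h := exp_one_lt_d9
    linarith
  calc ∑ B ∈ (LAT_S v).powerset.filter (fun B => a < B.card), l ^ B.card
      ≤ ∑ B ∈ (LAT_S v).powerset.filter (fun B => a < B.card),
          exp (-a) * (exp 1 * l) ^ B.card := sum_le_sum h1
    _ ≤ ∑ B ∈ (LAT_S v).powerset, exp (-a) * (exp 1 * l) ^ B.card :=
        sum_le_sum_of_subset_of_nonneg (filter_subset _ _) fun _ _ _ => by positivity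
    _ = exp (-a) * (1 + exp 1 * l) ^ (LAT_S v).card := by
        rw [← mul_sum, sum_pow_card]
    _ ≤ exp (-a) * (1 + exp 1 * l) ^ (d ^ 2) := by
        refine mul_le_mul_of_nonneg_left ?_ (exp_pos _).le
        exact pow_le_pow_right₀ (by have := exp_pos 1; nlinarith) (LAT_card_S v)
    _ ≤ exp (-a) * exp (3 * l) ^ (d ^ 2) := by
        refine mul_le_mul_of_nonneg_left ?_ (exp_pos _).le
        refine pow_le_pow_left₀ (by positivity) ?_ _
        have h4 := add_one_le_exp (3 * l)
        have h5 : exp 1 * l ≤ 3 * l := mul_le_mul_of_nonneg_right h8 hl.le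
        linarith
    _ = exp (3 * l * d ^ 2 - a) := by
        rw [← exp_nat_mul, ← exp_add]
        congr 1
        push_cast
        ring

theorem LAT_many {l : ℝ} (hl : 0 < l) (x : ℝ) (v : V d) (a : ℕ) :
    avU l x (fun s => if a < (s ∩ LAT_S v).card then (1 : ℝ) else 0) ≤
      exp (3 * l * d ^ 2 - a) * Zx d l (x - d ^ 2) := by
  have h := removal (d := d) (l := l) (x := x) hl.le
    (f := fun s => if a < (s ∩ LAT_S v).card then (1 : ℝ) else 0) (g := fun _ => 1)
    (fun s => s ∩ LAT_S v) (fun _ => (LAT_S v).powerset.filter fun B => a < B.card) (d ^ 2)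
    (fun _ _ => zero_le_one) (by
      intro s hs hf
      have hn : a < (s ∩ LAT_S v).card := by
        by_contra hcon
        exact hf (if_neg hcon)
      have hind : Ind (s \ (s ∩ LAT_S v)) :=
        Ind.mono (mem_Bx.1 hs).1 sdiff_subset
      refine ⟨inter_subset_left, ?_, ?_, ?_⟩
      · have h1 := sdiff_union_mem_Bx (C := s ∩ LAT_S v) (S := ∅) (a := d ^ 2) hs
          ((card_le_card inter_subset_right).trans (LAT_card_S v)) (by
            rw [union_empty]; exact mem_Om.2 hind)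
        rwa [union_empty] at h1
      · rw [mem_filter, mem_powerset]
        exact ⟨inter_subset_right, hn⟩
      · simp only [if_pos hn, le_refl])
  have e : x - (d : ℝ) ^ 2 = x - ((d ^ 2 : ℕ) : ℝ) := by push_cast; ring
  rw [e]
  refine h.trans ?_
  rw [← avU_one, ← avU_mul]
  refine avU_mono hl.le fun s _ => ?_
  rw [one_mul, mul_one]
  exact LAT_sum_le hl v a

theorem LAT_few {l c m : ℝ} (hl : 0 < l) (hc : 0 ≤ c) (x : ℝ) (v : V d) (a : ℕ) :
    avU l x (fun s => if LAx l c m s v ∧ (s ∩ LAT_S v).card ≤ a then (1 : ℝ) else 0) ≤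
      exp (-(7 / 100 * exp (-c) * m)) * Zx d l (x - a) := by
  set F : Finset (Finset (V d)) := (Bx d x).filter fun s =>
    LAx l c m s v ∧ (s ∩ LAT_S v).card ≤ a with hF
  have h0 : avU l x (fun s => if LAx l c m s v ∧ (s ∩ LAT_S v).card ≤ a then (1 : ℝ) else 0) =
      ∑ s ∈ F, l ^ s.card := by
    unfold avU
    rw [hF, sum_filter]
    refine sum_congr rfl fun s _ => ?_
    simp only
    by_cases h : LAx l c m s v ∧ (s ∩ LAT_S v).card ≤ a
    · rw [if_pos h, if_pos h, mul_one]
    · rw [if_neg h, if_neg h, mul_zero]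
  rw [h0]
  set W : Finset (Finset (V d)) := F.image fun s => s \ (s ∩ LAT_S v) with hW
  have hmap : ∀ s ∈ F, s \ (s ∩ LAT_S v) ∈ W := fun s hs => mem_image_of_mem _ hs
  rw [← sum_fiberwise_of_maps_to hmap]
  -- agreement on the other parity
  have hagree : ∀ s z : _, par z = par v + 1 → (z ∈ s \ (s ∩ LAT_S v) ↔ z ∈ s) := by
    intro s z hz
    rw [mem_sdiff, mem_inter]
    constructor
    · exact fun h => h.1
    · intro h
      refine ⟨h, fun h1 => ?_⟩
      have h2 := LAT_par h1.2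
      rw [hz] at h2
      exact absurd h2 (by
        intro h3
        have := add_eq_left.mp h3
        exact one_ne_zero this)
  have h1 : ∀ s' ∈ W, ∑ s ∈ F.filter (fun s => s \ (s ∩ LAT_S v) = s'), l ^ s.card ≤
      l ^ s'.card * (exp (-(7 / 100 * exp (-c) * m)) * (1 + l) ^ (LAT_E s' v).card) := by
    intro s' hs'
    obtain ⟨s0, hs0, hs0'⟩ := mem_image.1 hs'
    have hL0 : LAT_L l c s0 v = LAT_L l c s' v := by
      rw [← hs0']
      exact (LAT_L_congr (hagree s0)).symm
    have hmL : m < ((LAT_L l c s' v).card : ℝ) := by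
      rw [← hL0]
      rw [hF, mem_filter] at hs0
      exact hs0.2.1.1
    have h2 := LAT_fin hl hc s' v hmL
    have h3 : ∀ s ∈ F.filter (fun s => s \ (s ∩ LAT_S v) = s'),
        l ^ s.card = l ^ s'.card * l ^ (s ∩ LAT_S v).card := by
      intro s hs
      rw [mem_filter] at hs
      rw [← pow_add, ← hs.2, card_sdiff_add_card_eq_card inter_subset_left]
    rw [sum_congr rfl h3, ← mul_sum]
    refine mul_le_mul_of_nonneg_left (le_trans ?_ h2) (by positivity)
    have h7 : Set.InjOn (fun s => s ∩ LAT_S v) (F.filter fun s => s \ (s ∩ LAT_S v) = s') := by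
      intro s hs t ht hst
      rw [mem_coe, mem_filter] at hs ht
      simp only at hst
      rw [← sdiff_union_of_subset (inter_subset_left (s₁ := s) (s₂ := LAT_S v)),
        ← sdiff_union_of_subset (inter_subset_left (s₁ := t) (s₂ := LAT_S v)), hs.2, ht.2, hst]
    rw [← sum_image (f := fun B : Finset (V d) => l ^ B.card) h7]
    refine sum_le_sum_of_subset_of_nonneg ?_ fun B _ _ => by positivity
    intro B hB
    obtain ⟨s, hs, rfl⟩ := mem_image.1 hB
    rw [mem_filter] at hs
    have hind : Ind s := by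
      have := hs.1
      rw [hF, mem_filter, mem_Bx] at this
      exact this.1.1
    have hLA : LAx l c m s v := by
      have := hs.1
      rw [hF, mem_filter] at this
      exact this.2.1
    have hEs : LAT_E s' v = LAT_E s v := by
      rw [← hs.2]; exact LAT_E_congr (hagree s)
    have hEi : ∀ i, LAT_Ei s' v i = LAT_Ei s v i := by
      intro i
      rw [← hs.2]; exact LAT_Ei_congr (hagree s) i
    have hLs : LAT_L l c s' v = LAT_L l c s v := by
      rw [← hs.2]; exact LAT_L_congr (hagree s)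
    rw [mem_filter, mem_powerset]
    refine ⟨by rw [hEs]; exact LAT_sub_E hind v, ?_⟩
    simp only [hEi, hLs]
    refine lt_of_le_of_lt ?_ hLA.2
    have h8 : ((((LAT_L l c s v).filter fun i => (s ∩ LAT_S v) ∩ LAT_Ei s v i = ∅).card : ℕ) : ℝ)
        ≤ Fr s v := by exact_mod_cast LAT_Fr hind v _
    exact mul_le_mul_of_nonneg_left h8 (by positivity)
  refine (sum_le_sum h1).trans ?_
  have h2 : ∑ s' ∈ W, l ^ s'.card * (exp (-(7 / 100 * exp (-c) * m)) *
      (1 + l) ^ (LAT_E s' v).card) =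
      exp (-(7 / 100 * exp (-c) * m)) * ∑ p ∈ W.sigma fun s' => (LAT_E s' v).powerset,
        l ^ p.1.card * l ^ p.2.card := by
    rw [sum_sigma, mul_sum]
    refine sum_congr rfl fun s' _ => ?_
    rw [← sum_pow_card, mul_sum, mul_sum, mul_sum]
    refine sum_congr rfl fun T _ => ?_
    simp only
    ring
  rw [h2]
  refine mul_le_mul_of_nonneg_left ?_ (exp_pos _).le
  -- facts on the pairs
  have hfact : ∀ s' ∈ W, ∃ s ∈ F, s \ (s ∩ LAT_S v) = s' := fun s' hs' => mem_image.1 hs'
  have hdis : ∀ s' ∈ W, Disjoint s' (LAT_S v) := by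
    intro s' hs'
    obtain ⟨s, _, rfl⟩ := hfact s' hs'
    rw [sdiff_inter_self_left]
    exact sdiff_disjoint
  have htr := transfer (W.sigma fun s' => (LAT_E s' v).powerset)
    (fun p => l ^ p.1.card * l ^ p.2.card) (fun p => p.1 ∪ p.2) (l := l) (y := x - a)
    (g := fun _ => 1) hl.le (by
      rintro ⟨s', T⟩ hp
      rw [mem_sigma, mem_powerset] at hp
      simp only at hp ⊢
      obtain ⟨s, hs, hs2⟩ := hfact s' hp.1
      rw [hF, mem_filter] at hs
      have hind : Ind s' := by
        rw [← hs2]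
        exact Ind.mono (mem_Bx.1 hs.1).1 sdiff_subset
      have h3 : s' ∪ T ∈ Om d := mem_Om.2 (LAT_union hind hp.2)
      rw [← hs2] at h3 ⊢
      exact sdiff_union_mem_Bx hs.1 hs.2.2 h3) (by
      rintro ⟨s', T⟩ hp ⟨s1, T1⟩ hp1 he
      rw [mem_coe, mem_sigma, mem_powerset] at hp hp1
      simp only at hp hp1 he
      have hT : T ⊆ LAT_S v := hp.2.trans (filter_subset _ _)
      have hT1 : T1 ⊆ LAT_S v := hp1.2.trans (filter_subset _ _)
      have hd := hdis s' hp.1
      have hd1 := hdis s1 hp1.1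
      have e1 : (s' ∪ T) ∩ LAT_S v = T := by
        rw [union_inter_distrib_right, disjoint_iff_inter_eq_empty.1 hd, empty_union,
          inter_eq_left.2 hT]
      have e2 : (s1 ∪ T1) ∩ LAT_S v = T1 := by
        rw [union_inter_distrib_right, disjoint_iff_inter_eq_empty.1 hd1, empty_union,
          inter_eq_left.2 hT1]
      have e3 : T = T1 := by rw [← e1, ← e2, he]
      have e4 : (s' ∪ T) \ LAT_S v = s' := by
        rw [union_sdiff_distrib, sdiff_eq_self_of_disjoint hd, sdiff_eq_empty_iff_subset.2 hT,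
          union_empty]
      have e5 : (s1 ∪ T1) \ LAT_S v = s1 := by
        rw [union_sdiff_distrib, sdiff_eq_self_of_disjoint hd1, sdiff_eq_empty_iff_subset.2 hT1,
          union_empty]
      have e6 : s' = s1 := by rw [← e4, ← e5, he]
      subst e3; subst e6; rfl) (fun _ _ => zero_le_one) (by
      rintro ⟨s', T⟩ hp
      rw [mem_sigma, mem_powerset] at hp
      simp only at hp ⊢
      have hT : T ⊆ LAT_S v := hp.2.trans (filter_subset _ _)
      have hd : Disjoint s' T := (hdis s' hp.1).mono_right hT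
      rw [card_union_of_disjoint hd, pow_add, mul_one])
  rw [avU_one] at htr
  exact htr

/-- Finner's inequality with exponent 1/2 on the star graph around `v` -/
theorem la_tail {l c m : ℝ} (hl : 0 < l) (hl1 : l ≤ 1) (hc : 0 ≤ c) (hm : 0 ≤ m) (x : ℝ)
    (v : V d) (a : ℕ) :
    avU l x (fun s => if LAx l c m s v then (1 : ℝ) else 0) ≤
      exp (-(7 / 100 * exp (-c) * m)) * Zx d l (x - a) +
      exp (3 * l * d ^ 2 - a) * Zx d l (x - d ^ 2) := by
  refine le_trans ?_ (add_le_add (LAT_few hl hc x v a) (LAT_many hl x v a))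
  rw [← avU_add]
  refine avU_mono hl.le fun s _ => ?_
  by_cases h : LAx l c m s v
  · by_cases h2 : (s ∩ LAT_S v).card ≤ a
    · rw [if_pos h, if_pos ⟨h, h2⟩]
      have : (0 : ℝ) ≤ if a < (s ∩ LAT_S v).card then (1 : ℝ) else 0 := by split_ifs <;> norm_num
      linarith
    · rw [if_pos h, if_pos (not_le.1 h2)]
      have : (0 : ℝ) ≤ if LAx l c m s v ∧ (s ∩ LAT_S v).card ≤ a then (1 : ℝ) else 0 := by
        split_ifs <;> norm_num
      linarith
  · rw [if_neg h]
    have h1 : (0 : ℝ) ≤ if a < (s ∩ LAT_S v).card then (1 : ℝ) else 0 := by split_ifs <;> norm_num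
    have h2 : (0 : ℝ) ≤ if LAx l c m s v ∧ (s ∩ LAT_S v).card ≤ a then (1 : ℝ) else 0 := by
      split_ifs <;> norm_num
    linarith

end Pool.Agent.Lib.MP_c6118e_pr.Win
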