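import Pool.Agent.Lib.MP_c6118e_pr.Win.FR
import Pool.Agent.Lib.MP_c6118e_pr.Win.TOOL

/-! # NB: few particles around a vertex -/

namespace Pool.Agent.Lib.MP_c6118e_pr.Win

open Finset Real
open scoped Classical

variable {d : ℕ}

theorem NBT_card_Nbr (w : V d) : (Nbr w).card ≤ d := by
  have : Nbr w ⊆ (univ : Finset (Fin d)).image fun i => nb i w := by
    intro z hz
    unfold Nbr at hz
    rw [mem_filter] at hz
    obtain ⟨i, hi⟩ := hz.2
    exact mem_image.2 ⟨i, mem_univ _, hi.symm⟩
  exact (card_le_card this).trans (card_image_le.trans (by simp))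

theorem NBT_nOcc_eq (s : Finset (V d)) (w : V d) : (s ∩ Nbr w).card = nOcc s w := by
  unfold nOcc
  symm
  apply card_bij (fun i _ => nb i w)
  · intro i hi
    rw [mem_filter] at hi
    rw [mem_inter]
    exact ⟨hi.2, mem_filter.2 ⟨mem_univ _, i, rfl⟩⟩
  · intro i _ j _ hij
    exact nb_inj hij
  · intro z hz
    rw [mem_inter] at hz
    obtain ⟨i, hi⟩ := (mem_filter.1 hz.2).2
    exact ⟨i, mem_filter.2 ⟨mem_univ _, hi ▸ hz.1⟩, hi.symm⟩

theorem NBT_sum_le {l : ℝ} (hl : 0 < l) (w : V d) (n : ℕ) :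
    ∑ B ∈ (Nbr w).powerset.filter (fun B => n < B.card), l ^ B.card ≤
      exp (8 * l * d - 2 * n) := by
  have h1 : ∀ B ∈ (Nbr w).powerset.filter (fun B => n < B.card), l ^ B.card ≤
      exp (-(2 * n)) * (exp 2 * l) ^ B.card := by
    intro B hB
    rw [mem_filter] at hB
    have h2 : exp (-(2 * n)) * exp 2 ^ B.card ≥ 1 := by
      rw [← exp_nat_mul, ← exp_add]
      apply one_le_exp
      have : (n : ℝ) ≤ B.card := by exact_mod_cast hB.2.le
      linarith
    rw [mul_pow, ← mul_assoc]
    have h3 : 0 ≤ l ^ B.card := by positivity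
    nlinarith
  have h8 : exp 2 ≤ 8 := by
    have h := exp_one_lt_d9
    have h0 := exp_pos 1
    have : exp 2 = exp 1 * exp 1 := by rw [← exp_add]; norm_num
    rw [this]
    nlinarith
  calc ∑ B ∈ (Nbr w).powerset.filter (fun B => n < B.card), l ^ B.card
      ≤ ∑ B ∈ (Nbr w).powerset.filter (fun B => n < B.card),
          exp (-(2 * n)) * (exp 2 * l) ^ B.card := sum_le_sum h1
    _ ≤ ∑ B ∈ (Nbr w).powerset, exp (-(2 * n)) * (exp 2 * l) ^ B.card :=
        sum_le_sum_of_subset_of_nonneg (filter_subset _ _) fun _ _ _ => by positivity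
    _ = exp (-(2 * n)) * (1 + exp 2 * l) ^ (Nbr w).card := by
        rw [← mul_sum, sum_pow_card]
    _ ≤ exp (-(2 * n)) * (1 + exp 2 * l) ^ d := by
        refine mul_le_mul_of_nonneg_left ?_ (exp_pos _).le
        exact pow_le_pow_right₀ (by have := exp_pos 2; nlinarith) (NBT_card_Nbr w)
    _ ≤ exp (-(2 * n)) * exp (8 * l) ^ d := by
        refine mul_le_mul_of_nonneg_left ?_ (exp_pos _).le
        refine pow_le_pow_left₀ (by positivity) ?_ d
        have h4 := add_one_le_exp (8 * l)
        have h5 : exp 2 * l ≤ 8 * l := mul_le_mul_of_nonneg_right h8 hl.le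
        linarith
    _ = exp (8 * l * d - 2 * n) := by
        rw [← exp_nat_mul, ← exp_add]
        congr 1
        ring

/-- removing the particles around `w` -/
theorem nb_tail {l : ℝ} (hl : 0 < l) (x : ℝ) (w : V d) (n : ℕ) :
    avU l x (fun s => if n < nOcc s w then (1 : ℝ) else 0) ≤
      exp (8 * l * d - 2 * n) * Zx d l (x - d) := by
  have h := removal (d := d) (l := l) (x := x) hl.le
    (f := fun s => if n < nOcc s w then (1 : ℝ) else 0) (g := fun _ => 1)
    (fun s => s ∩ Nbr w) (fun _ => (Nbr w).powerset.filter fun B => n < B.card) d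
    (fun _ _ => zero_le_one) (by
      intro s hs hf
      have hn : n < nOcc s w := by
        by_contra hcon
        exact hf (if_neg hcon)
      have hind : Ind (s \ (s ∩ Nbr w)) :=
        Ind.mono (mem_Bx.1 hs).1 sdiff_subset
      refine ⟨inter_subset_left, ?_, ?_, ?_⟩
      · have h1 := sdiff_union_mem_Bx (C := s ∩ Nbr w) (S := ∅) (a := d) hs
          ((card_le_card inter_subset_right).trans (NBT_card_Nbr w)) (by
            rw [union_empty]; exact mem_Om.2 hind)
        rwa [union_empty] at h1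
      · rw [mem_filter, mem_powerset]
        exact ⟨inter_subset_right, by rw [NBT_nOcc_eq]; exact hn⟩
      · simp only [if_pos hn, le_refl])
  refine h.trans ?_
  rw [← avU_one, ← avU_mul]
  refine avU_mono hl.le fun s _ => ?_
  rw [one_mul, mul_one]
  exact NBT_sum_le hl w n

end Pool.Agent.Lib.MP_c6118e_pr.Win
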