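import Pool.Agent.Lib.MP_c6118e_pr.Win.FR
import Pool.Agent.Lib.MP_c6118e_pr.Win.NBT
import Pool.Agent.Lib.MP_c6118e_pr.Win.LAT
import Pool.Agent.Lib.MP_c6118e_pr.Win.CTT

/-! # all exceptional events are negligible -/

namespace Pool.Agent.Lib.MP_c6118e_pr.Win

open Finset Real
open scoped Classical

variable {d : ℕ}

theorem EXCA_evt (A B : ℝ) (hB : 0 < B) :
    ∃ d₀ : ℕ, ∀ d : ℕ, d ≥ d₀ → A ≤ log d ∧ B * log d ^ 4 ≤ d := by
  have h3 : ∀ᶠ d : ℕ in Filter.atTop, A ≤ log d :=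
    (tendsto_log_atTop.comp tendsto_natCast_atTop_atTop).eventually_ge_atTop _
  have h4 : ∀ᶠ d : ℕ in Filter.atTop, log (d : ℝ) ^ 4 / (1 * (d : ℝ) + 0) < 1 / B :=
    ((tendsto_pow_log_div_mul_add_atTop 1 0 4 one_ne_zero).comp
      tendsto_natCast_atTop_atTop).eventually_lt_const (by positivity)
  obtain ⟨d₀, h⟩ := Filter.eventually_atTop.1 (h3.and h4)
  refine ⟨d₀ + 1, fun d hd => ?_⟩
  obtain ⟨e3, e4⟩ := h d (by omega)
  have hd1 : (0 : ℝ) < d := by
    have : 0 < d := by omega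
    exact_mod_cast this
  refine ⟨e3, ?_⟩
  rw [one_mul, add_zero, div_lt_div_iff₀ hd1 hB] at e4
  linarith

theorem EXCA_log {κ : ℝ} (hκ : 0 < κ) :
    ∃ s0 : ℝ, 1 ≤ s0 ∧ ∀ s ≥ s0, 1 + log (4 * s) ≤ κ * s / 32 := by
  have h4 : ∀ᶠ x : ℝ in Filter.atTop, log x ^ 1 / (1 * x + 0) < κ / 256 :=
    (tendsto_pow_log_div_mul_add_atTop 1 0 1 one_ne_zero).eventually_lt_const (by positivity)
  obtain ⟨x0, h⟩ := Filter.eventually_atTop.1 h4
  refine ⟨max (max 1 x0) (64 / κ), le_max_of_le_left (le_max_left _ _), fun s hs => ?_⟩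
  have hs1 : 1 ≤ s := (le_max_left _ _).trans ((le_max_left _ _).trans hs)
  have hs2 : x0 ≤ s := (le_max_right _ _).trans ((le_max_left _ _).trans hs)
  have hs3 : 64 / κ ≤ s := (le_max_right _ _).trans hs
  have h5 := h (4 * s) (by show x0 ≤ 4 * s; linarith)
  rw [pow_one, one_mul, add_zero, div_lt_iff₀ (by positivity)] at h5
  rw [div_le_iff₀ hκ] at hs3
  linarith

theorem EXCA_choose {d t0 : ℕ} (hd : 0 < d) (ht : 0 < t0) :
    (d.choose t0 : ℝ) ≤ exp (t0 * (1 + log (d / t0))) := by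
  have hd' : (0 : ℝ) < d := by exact_mod_cast hd
  have ht' : (0 : ℝ) < t0 := by exact_mod_cast ht
  have h1 : (d.choose t0 : ℝ) ≤ (d : ℝ) ^ t0 / (t0.factorial : ℝ) := Nat.choose_le_pow_div t0 d
  have h2 : (t0 : ℝ) ^ t0 / (t0.factorial : ℝ) ≤ exp t0 :=
    pow_div_factorial_le_exp _ ht'.le t0
  have h3 : (d : ℝ) ^ t0 / (t0.factorial : ℝ) =
      (d / t0 : ℝ) ^ t0 * ((t0 : ℝ) ^ t0 / (t0.factorial : ℝ)) := by
    rw [div_pow]
    field_simp
  rw [h3] at h1
  refine h1.trans ?_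
  have h4 : exp (t0 * (1 + log (d / t0 : ℝ))) = (d / t0 : ℝ) ^ t0 * exp t0 := by
    rw [mul_add, mul_one, exp_add, exp_nat_mul (log (d / t0 : ℝ)) t0, exp_log (by positivity),
      mul_comm]
  rw [h4]
  exact mul_le_mul_of_nonneg_left h2 (by positivity)

/-- the bound for the event `Ct` -/
theorem EXCA_ct {κ s l : ℝ} {t0 g : ℕ} (hd : 0 < d) (hκ : 0 < κ)
    (hl : 0 < l) (hl1 : l ≤ 1 / 12) (hs : s = l * d) (hs1 : 1 + log (4 * s) ≤ κ * s / 32)
    (ht : 1 / (4 * l) ≤ t0) (hg : κ * d / 4 ≤ (g : ℝ) - 1) :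
    (d.choose t0 : ℝ) * exp (-((t0 : ℝ) * ((g : ℝ) - 1) / 2 * log (1 + l))) ≤
      exp (-(κ * d / 128)) := by
  have hd' : (0 : ℝ) < d := by exact_mod_cast hd
  have ht' : (0 : ℝ) < t0 := lt_of_lt_of_le (by positivity) ht
  have ht0 : 0 < t0 := by exact_mod_cast ht'
  have hspos : 0 < s := by rw [hs]; positivity
  refine (mul_le_mul_of_nonneg_right (EXCA_choose hd ht0) (exp_pos _).le).trans ?_
  rw [← exp_add, exp_le_exp]
  have h1 : log (d / t0 : ℝ) ≤ log (4 * s) := by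
    apply log_le_log (by positivity)
    rw [div_le_iff₀ ht', hs]
    rw [div_le_iff₀ (by positivity)] at ht
    nlinarith
  have h2 : (t0 : ℝ) * (1 + log (d / t0 : ℝ)) ≤ t0 * (κ * s / 32) :=
    mul_le_mul_of_nonneg_left (by linarith) ht'.le
  have h3 : l / 2 ≤ log (1 + l) := by
    have h4 := one_sub_inv_le_log_of_pos (by linarith : 0 < 1 + l)
    have h5 : l / 2 ≤ 1 - (1 + l)⁻¹ := by
      rw [le_sub_iff_add_le, ← le_sub_iff_add_le', inv_le_comm₀ (by linarith) (by linarith),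
        inv_eq_one_div, div_le_iff₀ (by linarith)]
      nlinarith
    linarith
  have h6 : κ * s / 16 ≤ ((g : ℝ) - 1) / 2 * log (1 + l) := by
    have h7 : κ * d / 4 / 2 * (l / 2) ≤ ((g : ℝ) - 1) / 2 * log (1 + l) := by
      apply mul_le_mul _ h3 (by positivity)
      · have : 0 ≤ κ * d / 4 := by positivity
        linarith
      · linarith
    have h8 : κ * d / 4 / 2 * (l / 2) = κ * s / 16 := by rw [hs]; ring
    linarith
  have h9 : (t0 : ℝ) * (κ * s / 16) ≤ (t0 : ℝ) * ((g : ℝ) - 1) / 2 * log (1 + l) := by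
    have := mul_le_mul_of_nonneg_left h6 ht'.le
    calc _ ≤ _ := this
      _ = _ := by ring
  have h10 : (d : ℝ) / 4 ≤ t0 * s := by
    have := mul_le_mul_of_nonneg_right ht hspos.le
    have h11 : 1 / (4 * l) * s = d / 4 := by
      rw [hs]; field_simp
    linarith
  have h12 : κ / 32 * ((d : ℝ) / 4) ≤ κ / 32 * (t0 * s) :=
    mul_le_mul_of_nonneg_left h10 (by positivity)
  nlinarith

/-- splitting of the indicator -/
theorem EXCA_split (T l C2 C6 m : ℝ) (n : ℕ) (s : Finset (V d)) (v : V d) :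
    (if Exc T l C2 C6 m n s v then (1 : ℝ) else 0) ≤
      2 * (if n < nOcc s v then (1 : ℝ) else 0) + (if LAx l T m s v then (1 : ℝ) else 0) +
      (if LAx l (C2 + 1) m s v then (1 : ℝ) else 0) + (if LAx l C6 m s v then (1 : ℝ) else 0) +
      (if Ct T l s v ∧ nOcc s v ≤ n ∧ ∀ i, ¬ LAx l T m s (nb i v) then (1 : ℝ) else 0) +
      ∑ i : Fin d, (if LAx l T m s (nb i v) then (1 : ℝ) else 0) := by
  have h0 : ∀ (q : Prop) [Decidable q], 0 ≤ (if q then (1 : ℝ) else 0) := fun q _ => by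
    split_ifs <;> norm_num
  have hsum : 0 ≤ ∑ i : Fin d, (if LAx l T m s (nb i v) then (1 : ℝ) else 0) :=
    sum_nonneg fun i _ => h0 _
  have e1 := h0 (n < nOcc s v)
  have e2 := h0 (LAx l T m s v)
  have e3 := h0 (LAx l (C2 + 1) m s v)
  have e4 := h0 (LAx l C6 m s v)
  have e5 := h0 (Ct T l s v ∧ nOcc s v ≤ n ∧ ∀ i, ¬ LAx l T m s (nb i v))
  by_cases hE : Exc T l C2 C6 m n s v
  · rw [if_pos hE]
    unfold Exc at hE
    rcases hE with h | h | h | h | h
    · rw [if_pos h] at e1 ⊢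
      linarith
    · rw [if_pos h] at e2 ⊢
      linarith
    · rw [if_pos h] at e3 ⊢
      linarith
    · rw [if_pos h] at e4 ⊢
      linarith
    · by_cases h1 : nOcc s v ≤ n
      · by_cases h2 : ∀ i, ¬ LAx l T m s (nb i v)
        · rw [if_pos (⟨h, h1, h2⟩ : Ct T l s v ∧ nOcc s v ≤ n ∧
            ∀ i, ¬ LAx l T m s (nb i v))] at e5 ⊢
          linarith
        · push Not at h2
          obtain ⟨i, hi⟩ := h2
          have h3 : (1 : ℝ) ≤ ∑ i : Fin d, (if LAx l T m s (nb i v) then (1 : ℝ) else 0) := by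
            have := single_le_sum (f := fun i : Fin d =>
              (if LAx l T m s (nb i v) then (1 : ℝ) else 0)) (s := univ)
              (fun i _ => h0 _) (mem_univ i)
            simpa [hi] using this
          linarith
      · push Not at h1
        rw [if_pos h1] at e1 ⊢
        linarith
  · rw [if_neg hE]
    linarith

/-- under the conclusion of `maxi` all exceptional events are negligible -/
theorem exc_small (CS T C2 C6 e0 C3 : ℝ) (hCS : 0 < CS) (hT : 0 ≤ T) (hC2 : 0 ≤ C2)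
    (hC6 : 0 ≤ C6) (he0 : 0 < e0) (hC3 : 0 ≤ C3) :
    ∃ s0 : ℝ, ∃ d₀ : ℕ, 0 < s0 ∧ ∀ d ≥ d₀, ∀ l : ℝ, s0 ≤ l * d → l * d ≤ CS * log d →
    ∀ x P : ℝ, (∀ a : ℕ, a ≤ 2 * d ^ 2 →
      2 ^ d * Zx d l (x - a) ≤ 2 / (e0 * l) * exp (C3 * l * a) * P) →
    ∀ v : V d, avU l (x - nn d)
      (fun s => if Exc T l C2 C6 (d / nn d) (nn d) s v then (1 : ℝ) else 0) ≤
        P / (d : ℝ) ^ 10 / 2 ^ d := by
  obtain ⟨M, hM⟩ : ∃ M : ℝ, M = max T (max (C2 + 1) C6) := ⟨_, rfl⟩
  obtain ⟨κ, hκ⟩ : ∃ κ : ℝ, κ = exp (-(2 * T)) := ⟨_, rfl⟩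
  have hκpos : 0 < κ := by rw [hκ]; exact exp_pos _
  obtain ⟨K, hK⟩ : ∃ K : ℝ, K = (3 + 2 * C3) * CS + 1 := ⟨_, rfl⟩
  have hKpos : 0 < K := by rw [hK]; positivity
  obtain ⟨s0, hs01, hs0⟩ := EXCA_log hκpos
  obtain ⟨B1, hB1⟩ : ∃ B1 : ℝ, B1 = 200 / 7 * exp M * (C3 * CS * (K + 3) + 14) := ⟨_, rfl⟩
  have hB1pos : 0 < B1 := by rw [hB1]; positivity
  obtain ⟨B4, hB4⟩ : ∃ B4 : ℝ, B4 = 128 / κ * (14 + 2 * C3 * CS) := ⟨_, rfl⟩
  have hB4pos : 0 < B4 := by rw [hB4]; positivity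
  have hB5pos : 0 < 16 / κ := by positivity
  have hB6pos : 0 < 6 / e0 := by positivity
  obtain ⟨d₀, hd₀⟩ := EXCA_evt (4 * CS + C3 * CS + 7)
    (B1 + (K + 3) + 12 * CS + B4 + 16 / κ + 6 / e0 + 14) (by positivity)
  refine ⟨s0, d₀, by linarith, fun d hd l hl1 hl2 x P hyp v => ?_⟩
  obtain ⟨g1, g2⟩ := hd₀ d hd
  obtain ⟨L, hL⟩ : ∃ L : ℝ, L = log (d : ℝ) := ⟨_, rfl⟩
  rw [← hL] at g1 g2 hl2
  have hC3CS : 0 ≤ C3 * CS := by positivity
  have hL1 : 1 ≤ L := by linarith
  have hLpos : 0 < L := by linarith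
  have hL4 : 1 ≤ L ^ 4 := one_le_pow₀ hL1
  have hL4L : L ≤ L ^ 4 := le_self_pow₀ hL1 (by norm_num)
  have hL42 : L ^ 2 ≤ L ^ 4 := pow_le_pow_right₀ hL1 (by norm_num)
  have hL43 : L ^ 3 ≤ L ^ 4 := pow_le_pow_right₀ hL1 (by norm_num)
  have hL21 : L ≤ L ^ 2 := le_self_pow₀ hL1 (by norm_num)
  have q1 : 0 ≤ B1 * L ^ 4 := by positivity
  have q2 : 0 ≤ (K + 3) * L ^ 4 := by positivity
  have q3 : 0 ≤ 12 * CS * L ^ 4 := by positivity
  have q4 : 0 ≤ B4 * L ^ 4 := by positivity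
  have q5 : 0 ≤ 16 / κ * L ^ 4 := by positivity
  have q6 : 0 ≤ 6 / e0 * L ^ 4 := by positivity
  have q7 : 0 ≤ 14 * L ^ 4 := by positivity
  have g3 : B1 * L ^ 4 + (K + 3) * L ^ 4 + 12 * CS * L ^ 4 + B4 * L ^ 4 + 16 / κ * L ^ 4 +
      6 / e0 * L ^ 4 + 14 * L ^ 4 ≤ d := by
    refine le_trans (le_of_eq ?_) g2
    ring
  have gB1 : B1 * L ^ 4 ≤ d := by linarith only [g3, q1, q2, q3, q4, q5, q6, q7]
  have gB2 : (K + 3) * L ^ 4 ≤ d := by linarith only [g3, q1, q2, q3, q4, q5, q6, q7]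
  have gB3 : 12 * CS * L ^ 4 ≤ d := by linarith only [g3, q1, q2, q3, q4, q5, q6, q7]
  have gB4 : B4 * L ^ 4 ≤ d := by linarith only [g3, q1, q2, q3, q4, q5, q6, q7]
  have gB5 : 16 / κ * L ^ 4 ≤ d := by linarith only [g3, q1, q2, q3, q4, q5, q6, q7]
  have gB6 : 6 / e0 * L ^ 4 ≤ d := by linarith only [g3, q1, q2, q3, q4, q5, q6, q7]
  have gB7 : 14 * L ^ 4 ≤ d := by linarith only [g3, q1, q2, q3, q4, q5, q6, q7]
  clear q1 q2 q3 q4 q5 q6 q7 g3
  have hd14 : (14 : ℝ) ≤ d := by linarith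
  have hdpos : (0 : ℝ) < d := by linarith
  have hd0 : 0 < d := by exact_mod_cast hdpos
  have hLd : L ≤ d := by linarith
  have hl : 0 < l := by
    by_contra hcon
    push Not at hcon
    have : l * d ≤ 0 := mul_nonpos_of_nonpos_of_nonneg hcon hdpos.le
    linarith
  have hup : l ≤ CS * L / d := by rw [le_div_iff₀ hdpos]; exact hl2
  have hl12 : l ≤ 1 / 12 := by
    refine hup.trans ?_
    rw [div_le_div_iff₀ hdpos (by norm_num)]
    have := mul_le_mul_of_nonneg_left hL4L (by positivity : 0 ≤ 12 * CS)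
    linarith
  have hnn1 : L ^ 2 ≤ nn d := by rw [hL]; exact Nat.le_ceil _
  have hnn2 : (nn d : ℝ) ≤ 2 * L ^ 2 := by
    have h1 : (nn d : ℝ) < L ^ 2 + 1 := by rw [hL]; exact Nat.ceil_lt_add_one (by positivity)
    linarith
  obtain ⟨N, hN⟩ : ∃ N : ℕ, N = nn d := ⟨_, rfl⟩
  rw [← hN] at hnn1 hnn2 ⊢
  have hNpos : (0 : ℝ) < N := lt_of_lt_of_le (by positivity) hnn1
  have hNd : (N : ℝ) ≤ d := by linarith
  have hNd' : N ≤ d := by exact_mod_cast hNd
  have hlN : l * N ≤ 2 * CS * L ^ 3 / d := by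
    have := mul_le_mul hup hnn2 hNpos.le (by positivity)
    calc _ ≤ _ := this
      _ = _ := by ring
  obtain ⟨a, ha⟩ : ∃ a : ℕ, a = ⌈K * d * L⌉₊ := ⟨_, rfl⟩
  have ha1 : K * d * L ≤ a := by rw [ha]; exact Nat.le_ceil _
  have ha2 : (a : ℝ) ≤ K * d * L + 1 := by
    rw [ha]; exact (Nat.ceil_lt_add_one (by positivity)).le
  have hdd : d ≤ d ^ 2 := Nat.le_self_pow (by norm_num) d
  obtain ⟨Q, hQ⟩ : ∃ Q : ℝ, Q = 2 / (e0 * l) * P / 2 ^ d := ⟨_, rfl⟩
  have hZ : ∀ b : ℕ, N + b ≤ 2 * d ^ 2 → Zx d l (x - N - b) ≤ exp (C3 * l * (N + b)) * Q := by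
    intro b hb
    have h1 := hyp (N + b) hb
    have h2 : x - ((N + b : ℕ) : ℝ) = x - N - b := by push_cast; ring
    rw [h2, mul_comm, ← le_div_iff₀ (by positivity)] at h1
    refine h1.trans (le_of_eq ?_)
    rw [hQ]
    push_cast
    ring
  have hQ0 : 0 ≤ Q := by
    have h1 := hZ 0 (by omega)
    have h2 := Zx_nonneg (d := d) hl (x - N - (0 : ℕ))
    have h3 := exp_pos (C3 * l * (N + (0 : ℕ)))
    by_contra hcon
    push Not at hcon
    have : exp (C3 * l * (N + (0 : ℕ))) * Q < 0 := mul_neg_of_pos_of_neg h3 hcon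
    linarith
  have key : ∀ (b : ℕ) (E : ℝ), N + b ≤ 2 * d ^ 2 → E + C3 * l * (N + b) ≤ -(14 * L) →
      exp E * Zx d l (x - N - b) ≤ exp (-(14 * L)) * Q := by
    intro b E hb hE
    calc exp E * Zx d l (x - N - b) ≤ exp E * (exp (C3 * l * (N + b)) * Q) :=
          mul_le_mul_of_nonneg_left (hZ b hb) (exp_pos _).le
      _ = exp (E + C3 * l * (N + b)) * Q := by rw [exp_add]; ring
      _ ≤ exp (-(14 * L)) * Q := mul_le_mul_of_nonneg_right (exp_le_exp.2 hE) hQ0
  -- first event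
  have T1 : ∀ w : V d, avU l (x - N) (fun s => if N < nOcc s w then (1 : ℝ) else 0) ≤
      exp (-(14 * L)) * Q := by
    intro w
    refine (nb_tail hl (x - N) w N).trans (key d _ (by omega) ?_)
    have h1 : C3 * l * (N + d) ≤ 2 * (C3 * CS) * L := by
      have h2 : C3 * (l * N) ≤ C3 * (CS * L) := by
        refine mul_le_mul_of_nonneg_left ?_ hC3
        exact (mul_le_mul_of_nonneg_left hNd hl.le).trans hl2
      have h3 : C3 * (l * d) ≤ C3 * (CS * L) := mul_le_mul_of_nonneg_left hl2 hC3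
      linarith
    have h4 : (4 * CS + C3 * CS + 7) * L ≤ L * L := mul_le_mul_of_nonneg_right g1 hLpos.le
    have h5 : L * L ≤ N := by rw [← pow_two]; exact hnn1
    linarith
  -- second event
  have hm0 : (0 : ℝ) ≤ d / N := by positivity
  have T2 : ∀ c : ℝ, 0 ≤ c → c ≤ M → ∀ w : V d, avU l (x - N)
      (fun s => if LAx l c (d / N) s w then (1 : ℝ) else 0) ≤ 2 * (exp (-(14 * L)) * Q) := by
    intro c hc hcM w
    have h1 := la_tail (c := c) hl (by linarith) hc hm0 (x - N) w a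
    have h2 : exp (-(7 / 100 * exp (-c) * (d / N))) * Zx d l (x - N - a) ≤
        exp (-(14 * L)) * Q := by
      refine key a _ ?_ ?_
      · have : (N : ℝ) + a ≤ 2 * (d : ℝ) ^ 2 := by
          have h3 : (K + 3) * L ≤ d :=
            (mul_le_mul_of_nonneg_left hL4L (by positivity)).trans gB2
          have h4 : (K + 3) * L * d ≤ d * d := mul_le_mul_of_nonneg_right h3 hdpos.le
          have h5 : (1 : ℝ) ≤ L * d := by
            have := mul_le_mul hL1 (by linarith : (1 : ℝ) ≤ d) zero_le_one hLpos.le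
            linarith
          have h6 : (d : ℝ) ≤ d * d := by
            have := mul_le_mul_of_nonneg_right (by linarith : (1 : ℝ) ≤ d) hdpos.le
            linarith
          rw [pow_two]
          linarith
        exact_mod_cast this
      · have h3 : C3 * l * (N + a) ≤ C3 * CS * (K + 3) * L ^ 2 := by
          have h4 : l * (N + a) ≤ CS * L / d * (2 * L ^ 2 + (K * d * L + 1)) := by
            refine mul_le_mul hup (by linarith) (by positivity) (by positivity)
          have h5 : CS * L / d * (2 * L ^ 2 + (K * d * L + 1)) =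
              CS * (2 * (L ^ 2 * (L / d)) + K * L ^ 2 + L / d) := by
            field_simp
            ring
          have h6 : L / d ≤ 1 := by rw [div_le_one hdpos]; exact hLd
          have h7 : CS * (2 * (L ^ 2 * (L / d)) + K * L ^ 2 + L / d) ≤
              CS * ((K + 3) * L ^ 2) := by
            refine mul_le_mul_of_nonneg_left ?_ hCS.le
            have h8 : L ^ 2 * (L / d) ≤ L ^ 2 * 1 := mul_le_mul_of_nonneg_left h6 (by positivity)
            linarith
          calc C3 * l * (N + a) = C3 * (l * (N + a)) := by ring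
            _ ≤ C3 * (CS * ((K + 3) * L ^ 2)) :=
                mul_le_mul_of_nonneg_left (by linarith) hC3
            _ = _ := by ring
        have h4 : (C3 * CS * (K + 3) + 14) * L ^ 2 ≤ 7 / 100 * exp (-c) * (d / N) := by
          have h5 : exp (-M) ≤ exp (-c) := exp_le_exp.2 (by linarith)
          have h6 : (d : ℝ) / (2 * L ^ 2) ≤ d / N :=
            div_le_div_of_nonneg_left hdpos.le hNpos hnn2
          have h7 : B1 * L ^ 2 / 2 ≤ (d : ℝ) / (2 * L ^ 2) := by
            rw [le_div_iff₀ (by positivity)]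
            calc _ = B1 * L ^ 4 := by ring
              _ ≤ _ := gB1
          have h8 : 7 / 100 * exp (-M) * (B1 * L ^ 2 / 2) ≤ 7 / 100 * exp (-c) * (d / N) := by
            refine mul_le_mul (by linarith) (h7.trans h6) (by positivity) (by positivity)
          have h9 : 7 / 100 * exp (-M) * (B1 * L ^ 2 / 2) =
              (C3 * CS * (K + 3) + 14) * L ^ 2 := by
            rw [hB1]
            have h10 : exp (-M) * exp M = 1 := by rw [← exp_add]; simp
            calc _ = (exp (-M) * exp M) * ((C3 * CS * (K + 3) + 14) * L ^ 2) := by ring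
              _ = _ := by rw [h10, one_mul]
          linarith
        linarith
    have h3 : exp (3 * l * d ^ 2 - a) * Zx d l (x - N - d ^ 2) ≤ exp (-(14 * L)) * Q := by
      have h4 := key (d ^ 2) (3 * l * d ^ 2 - a) (by omega) (by
        have h5 : l * (d : ℝ) ^ 2 ≤ CS * L * d := by
          have := mul_le_mul_of_nonneg_right hl2 hdpos.le
          calc _ = l * d * d := by ring
            _ ≤ _ := this
        have h6 : (N : ℝ) ≤ (d : ℝ) ^ 2 :=
          hNd.trans (le_self_pow₀ (by linarith) (by norm_num))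
        have h7 : C3 * l * (N + ((d ^ 2 : ℕ) : ℝ)) ≤ C3 * (2 * (CS * L * d)) := by
          have h8 : l * (N + (d : ℝ) ^ 2) ≤ 2 * (CS * L * d) := by
            have := mul_le_mul_of_nonneg_left h6 hl.le
            linarith
          push_cast
          calc _ = C3 * (l * (N + (d : ℝ) ^ 2)) := by ring
            _ ≤ _ := mul_le_mul_of_nonneg_left h8 hC3
        have h9 : K * d * L = 3 * (CS * L * d) + C3 * (2 * (CS * L * d)) + d * L := by
          rw [hK]; ring
        have h10 : 14 * L ≤ d * L := mul_le_mul_of_nonneg_right hd14 hLpos.le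
        linarith)
      have h5 : x - (N : ℝ) - ((d ^ 2 : ℕ) : ℝ) = x - N - (d : ℝ) ^ 2 := by push_cast; ring
      rw [h5] at h4
      exact h4
    linarith
  -- third event
  have T3 : avU l (x - N) (fun s => if Ct T l s v ∧ nOcc s v ≤ N ∧
      ∀ i, ¬ LAx l T (d / N) s (nb i v) then (1 : ℝ) else 0) ≤ exp (-(14 * L)) * Q := by
    obtain ⟨t0, ht0⟩ : ∃ t0 : ℕ, t0 = ⌊1 / (3 * l)⌋₊ := ⟨_, rfl⟩
    obtain ⟨g, hg⟩ : ∃ g : ℕ, g = ⌊3 / 8 * κ * d⌋₊ := ⟨_, rfl⟩
    have ht1 : (t0 : ℝ) ≤ 1 / (3 * l) := by rw [ht0]; exact Nat.floor_le (by positivity)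
    have ht2 : 1 / (3 * l) < t0 + 1 := by rw [ht0]; exact Nat.lt_floor_add_one _
    have hg1 : (g : ℝ) ≤ 3 / 8 * κ * d := by rw [hg]; exact Nat.floor_le (by positivity)
    have hg2 : 3 / 8 * κ * d < g + 1 := by rw [hg]; exact Nat.lt_floor_add_one _
    have hlN6 : l * N ≤ 2 / 3 := by
      refine hlN.trans ?_
      rw [div_le_iff₀ hdpos]
      have := mul_le_mul_of_nonneg_left hL43 (by positivity : 0 ≤ 12 * CS)
      linarith
    have h12 : 1 ≤ 1 / (12 * l) := by
      rw [le_div_iff₀ (by positivity)]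
      linarith
    have c1 : (t0 : ℝ) + N ≤ 1 / l := by
      have h1 : (N : ℝ) ≤ 2 / (3 * l) := by
        rw [le_div_iff₀ (by positivity)]
        linarith
      have h2 : 1 / (3 * l) + 2 / (3 * l) = 1 / l := by
        field_simp
        norm_num
      linarith
    have c2 : 8 * exp (2 * T) * g ≤ 3 * d := by
      have h1 : 8 * exp (2 * T) * g ≤ 8 * exp (2 * T) * (3 / 8 * κ * d) :=
        mul_le_mul_of_nonneg_left hg1 (by positivity)
      have h2 : exp (2 * T) * κ = 1 := by rw [hκ, ← exp_add]; simp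
      have h3 : 8 * exp (2 * T) * (3 / 8 * κ * d) = 3 * d * (exp (2 * T) * κ) := by ring
      rw [h3, h2] at h1
      linarith
    have c3 : (d : ℝ) / N ≤ 3 / 4 * d := by
      rw [div_le_iff₀ hNpos]
      have h3 : 7 * L ≤ L ^ 2 := by
        have := mul_le_mul_of_nonneg_right (by linarith : 7 ≤ L) hLpos.le
        rw [pow_two]
        exact this
      have h4 : (4 : ℝ) / 3 ≤ N := by linarith
      have := mul_le_mul_of_nonneg_left h4 hdpos.le
      linarith
    have h1 := ct_tail (m := d / N) hl hT (x - N) v N t0 g c1 c2 c3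
    have c4 : 1 / (4 * l) ≤ t0 := by
      have : 1 / (4 * l) + 1 / (12 * l) = 1 / (3 * l) := by
        field_simp
        norm_num
      linarith
    have c5 : κ * d / 4 ≤ (g : ℝ) - 1 := by
      have h2 : 16 ≤ κ * d := by
        have h3 : 16 / κ ≤ d := by
          have := mul_le_mul_of_nonneg_left hL4 hB5pos.le
          linarith
        rw [div_le_iff₀ hκpos] at h3
        linarith
      linarith
    have h2 := EXCA_ct (d := d) hd0 hκpos hl hl12 (rfl : l * d = l * d) (hs0 _ hl1) c4 c5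
    refine h1.trans ((mul_le_mul_of_nonneg_right h2 (Zx_nonneg hl _)).trans ?_)
    have h3 := key 0 (-(κ * d / 128)) (by omega) (by
      have h4 : C3 * l * N ≤ 2 * C3 * CS * L := by
        have h5 : 2 * CS * L ^ 3 / d ≤ 2 * CS * L := by
          rw [div_le_iff₀ hdpos]
          have h6 : L ^ 2 ≤ d := by linarith
          have h7 : 2 * CS * L * L ^ 2 ≤ 2 * CS * L * d :=
            mul_le_mul_of_nonneg_left h6 (by positivity)
          calc _ = 2 * CS * L * L ^ 2 := by ring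
            _ ≤ _ := h7
        calc C3 * l * N = C3 * (l * N) := by ring
          _ ≤ C3 * (2 * CS * L) := mul_le_mul_of_nonneg_left (hlN.trans h5) hC3
          _ = _ := by ring
      have h5 : (14 + 2 * C3 * CS) * L ≤ κ * d / 128 := by
        have h6 : (14 + 2 * C3 * CS) * L ≤ (14 + 2 * C3 * CS) * L ^ 4 :=
          mul_le_mul_of_nonneg_left hL4L (by positivity)
        have h7 : κ / 128 * (B4 * L ^ 4) ≤ κ / 128 * d :=
          mul_le_mul_of_nonneg_left gB4 (by positivity)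
        have h8 : κ / 128 * (B4 * L ^ 4) = (14 + 2 * C3 * CS) * L ^ 4 := by
          rw [hB4]; field_simp
        linarith
      push_cast
      rw [add_zero]
      linarith)
    simpa using h3
  -- the sum
  have hM1 : T ≤ M := by rw [hM]; exact le_max_left _ _
  have hM2 : C2 + 1 ≤ M := by rw [hM]; exact (le_max_left _ _).trans (le_max_right _ _)
  have hM3 : C6 ≤ M := by rw [hM]; exact (le_max_right _ _).trans (le_max_right _ _)
  have hsum : avU l (x - N) (fun s => if Exc T l C2 C6 (d / N) N s v then (1 : ℝ) else 0) ≤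
      (2 * d + 9) * (exp (-(14 * L)) * Q) := by
    refine (avU_mono hl.le fun s _ => EXCA_split T l C2 C6 (d / N) N s v).trans ?_
    rw [avU_add, avU_add, avU_add, avU_add, avU_add, avU_mul, avU_sum]
    have e1 := T1 v
    have e2 := T2 T hT hM1 v
    have e3 := T2 (C2 + 1) (by linarith) hM2 v
    have e4 := T2 C6 hC6 hM3 v
    have e5 : ∑ i : Fin d, avU l (x - N)
        (fun s => if LAx l T (d / N) s (nb i v) then (1 : ℝ) else 0) ≤
        d * (2 * (exp (-(14 * L)) * Q)) := by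
      refine (sum_le_sum fun i _ => T2 T hT hM1 (nb i v)).trans ?_
      rw [sum_const, card_univ, Fintype.card_fin, nsmul_eq_mul]
    linarith
  refine hsum.trans ?_
  have hexp : exp (-(14 * L)) = 1 / (d : ℝ) ^ 14 := by
    rw [exp_neg, one_div, hL]
    congr 1
    rw [mul_comm, exp_mul, exp_log hdpos]
    norm_cast
  have hP : 0 ≤ P := by
    have : P = Q * 2 ^ d * (e0 * l) / 2 := by rw [hQ]; field_simp
    rw [this]
    positivity
  rw [hexp, hQ]
  have h1 : (2 * (d : ℝ) + 9) * (1 / (d : ℝ) ^ 14 * (2 / (e0 * l) * P / 2 ^ d)) =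
      ((2 * (d : ℝ) + 9) * (1 / (d : ℝ) ^ 14) * (2 / (e0 * l))) * (P / 2 ^ d) := by ring
  have h2 : P / (d : ℝ) ^ 10 / 2 ^ d = (1 / (d : ℝ) ^ 10) * (P / 2 ^ d) := by ring
  rw [h1, h2]
  refine mul_le_mul_of_nonneg_right ?_ (by positivity)
  have h3 : 2 / (e0 * l) ≤ 2 * d / e0 := by
    rw [div_le_div_iff₀ (by positivity) he0]
    have h5 : 1 ≤ l * d := hs01.trans hl1
    have := mul_le_mul_of_nonneg_left h5 he0.le
    linarith
  have h4 : 2 * (d : ℝ) + 9 ≤ 3 * d := by linarith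
  calc (2 * (d : ℝ) + 9) * (1 / (d : ℝ) ^ 14) * (2 / (e0 * l))
      ≤ (3 * d) * (1 / (d : ℝ) ^ 14) * (2 * d / e0) := by
        refine mul_le_mul (mul_le_mul_of_nonneg_right h4 (by positivity)) h3 (by positivity)
          (by positivity)
    _ = 6 / e0 / (d : ℝ) ^ 12 := by field_simp; ring
    _ ≤ (d : ℝ) ^ 2 / (d : ℝ) ^ 12 := by
        refine div_le_div_of_nonneg_right ?_ (by positivity)
        have h5 := mul_le_mul_of_nonneg_left hL4 hB6pos.le
        have h6 : (d : ℝ) ≤ (d : ℝ) ^ 2 := le_self_pow₀ (by linarith) (by norm_num)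
        linarith
    _ = 1 / (d : ℝ) ^ 10 := by field_simp

end Pool.Agent.Lib.MP_c6118e_pr.Win
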