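import Pool.Agent.Lib.MP_c6118e_pr.Win.FR

/-! # EXPA: expansion in the cube -/

namespace Pool.Agent.Lib.MP_c6118e_pr.Win

open Finset Real
open scoped Classical

variable {d : ℕ}

/-- double counting of the edges between two sets -/
theorem EXPA_dc (P Q : Finset (V d)) :
    ∑ y ∈ P, (univ.filter fun i => nb i y ∈ Q).card =
      ∑ z ∈ Q, (univ.filter fun i => nb i z ∈ P).card := by
  simp only [card_filter]
  rw [sum_comm, sum_comm (s := Q)]
  apply sum_congr rfl
  intro i _
  rw [← card_filter, ← card_filter]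
  apply card_bij (fun y _ => nb i y)
  · intro y hy
    rw [mem_filter] at hy ⊢
    exact ⟨hy.2, by rw [nb_nb]; exact hy.1⟩
  · intro y _ y' _ h
    exact nb_injective i h
  · intro z hz
    rw [mem_filter] at hz
    exact ⟨nb i z, mem_filter.2 ⟨hz.2, by rw [nb_nb]; exact hz.1⟩, nb_nb i z⟩

/-- the coordinates in which `y` differs from `x` -/
noncomputable def EXPA_Df (x y : V d) : Finset (Fin d) := univ.filter fun i => y i ≠ x i

theorem EXPA_Df_nb (x y : V d) (i : Fin d) :
    (i ∈ EXPA_Df x y → (EXPA_Df x (nb i y)).card + 1 = (EXPA_Df x y).card) ∧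
    (i ∉ EXPA_Df x y → (EXPA_Df x (nb i y)).card = (EXPA_Df x y).card + 1) := by
  have hne : ∀ j, j ≠ i → nb i y j = y j := by
    intro j hj
    unfold nb
    simp [hj]
  have hi : nb i y i = y i + 1 := by
    unfold nb
    simp
  constructor
  · intro h
    have h1 : EXPA_Df x (nb i y) = (EXPA_Df x y).erase i := by
      ext j
      unfold EXPA_Df at h ⊢
      rw [mem_filter, mem_erase, mem_filter]
      rw [mem_filter] at h
      by_cases hj : j = i
      · subst hj
        rw [hi]
        have h2 := h.2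
        constructor
        · rintro ⟨_, h3⟩
          exfalso
          apply h3
          rcases zmod2_cases (y j) with h4 | h4 <;> rcases zmod2_cases (x j) with h5 | h5 <;>
            rw [h4, h5] at h2 ⊢ <;> revert h2 <;> decide
        · rintro ⟨h3, _⟩
          exact absurd rfl h3
      · rw [hne j hj]
        exact ⟨fun h3 => ⟨hj, h3⟩, fun h3 => h3.2⟩
    rw [h1]
    exact card_erase_add_one h
  · intro h
    have h1 : EXPA_Df x (nb i y) = insert i (EXPA_Df x y) := by
      ext j
      unfold EXPA_Df at h ⊢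
      rw [mem_filter, mem_insert, mem_filter]
      rw [mem_filter] at h
      push Not at h
      by_cases hj : j = i
      · subst hj
        rw [hi]
        have h2 := h (mem_univ _)
        refine ⟨fun _ => Or.inl rfl, fun _ => ⟨mem_univ _, ?_⟩⟩
        rw [h2]
        rcases zmod2_cases (x j) with h5 | h5 <;> rw [h5] <;> decide
      · rw [hne j hj]
        constructor
        · exact fun h3 => Or.inr h3
        · rintro (h3 | h3)
          · exact absurd h3 hj
          · exact h3
    rw [h1]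
    exact card_insert_of_notMem h

/-- one step of the expansion -/
theorem EXPA_step (X Y : Finset (V d)) (x : V d) (t : ℝ) (k : ℕ)
    (hdeg : ∀ y ∈ X, t ≤ ((univ.filter fun i => nb i y ∈ Y).card : ℝ)) :
    (t - k) * ((X.filter fun y => (EXPA_Df x y).card = k).card : ℝ) ≤
      (k + 1) * ((Y.filter fun y => (EXPA_Df x y).card = k + 1).card : ℝ) := by
  set P := X.filter fun y => (EXPA_Df x y).card = k with hP
  set Q := Y.filter fun y => (EXPA_Df x y).card = k + 1 with hQ
  have h1 : ∀ y ∈ P, t - k ≤ ((univ.filter fun i => nb i y ∈ Q).card : ℝ) := by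
    intro y hy
    rw [hP, mem_filter] at hy
    have h2 : (univ.filter fun i => nb i y ∈ Y).card ≤
        (univ.filter fun i => nb i y ∈ Q).card + (EXPA_Df x y).card := by
      refine le_trans (card_le_card ?_) (card_union_le _ _)
      intro i hi
      rw [mem_filter] at hi
      rw [mem_union, mem_filter]
      by_cases h : i ∈ EXPA_Df x y
      · exact Or.inr h
      · left
        refine ⟨hi.1, ?_⟩
        rw [hQ, mem_filter]
        exact ⟨hi.2, by rw [(EXPA_Df_nb x y i).2 h, hy.2]⟩
    rw [hy.2] at h2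
    have h3 : ((univ.filter fun i => nb i y ∈ Y).card : ℝ) ≤
        ((univ.filter fun i => nb i y ∈ Q).card : ℝ) + (k : ℝ) := by exact_mod_cast h2
    have := hdeg y hy.1
    linarith
  have h2 : ∀ z ∈ Q, (univ.filter fun i => nb i z ∈ P).card ≤ k + 1 := by
    intro z hz
    rw [hQ, mem_filter] at hz
    rw [← hz.2]
    apply card_le_card
    intro i hi
    rw [mem_filter] at hi
    by_contra h
    have h3 := (EXPA_Df_nb x z i).2 h
    have h4 := hi.2
    rw [hP, mem_filter] at h4
    have := h4.2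
    omega
  have h3 := EXPA_dc P Q
  calc (t - k) * (P.card : ℝ) = ∑ y ∈ P, (t - k) := by
        rw [sum_const, nsmul_eq_mul, mul_comm]
    _ ≤ ∑ y ∈ P, ((univ.filter fun i => nb i y ∈ Q).card : ℝ) := sum_le_sum h1
    _ = ((∑ y ∈ P, (univ.filter fun i => nb i y ∈ Q).card : ℕ) : ℝ) := by push_cast; rfl
    _ = ((∑ z ∈ Q, (univ.filter fun i => nb i z ∈ P).card : ℕ) : ℝ) := by rw [h3]
    _ = ∑ z ∈ Q, ((univ.filter fun i => nb i z ∈ P).card : ℝ) := by push_cast; rfl
    _ ≤ ∑ z ∈ Q, ((k : ℝ) + 1) := by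
        apply sum_le_sum
        intro z hz
        exact_mod_cast h2 z hz
    _ = (k + 1) * (Q.card : ℝ) := by rw [sum_const, nsmul_eq_mul, mul_comm]

/-- small sets with `f` neighbours each in `A` expand -/
theorem expa (C A : Finset (V d)) (f : ℝ) (p : ZMod 2) (hC : ∀ z ∈ C, par z = p)
    (hA : ∀ z ∈ A, par z = p + 1) (hf : 24 ≤ f)
    (hdeg : ∀ z ∈ C, f ≤ ((univ.filter fun i => nb i z ∈ A).card : ℝ))
    (hC2 : (C.card : ℝ) ≤ f ^ 2 / 200) :
    f * C.card / 8 ≤ ((A.filter fun a => ∃ i, nb i a ∈ C).card : ℝ) := by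
  by_contra hcon
  push Not at hcon
  set A' := A.filter fun a => ∃ i, nb i a ∈ C with hA'
  -- the functional
  set val : Finset (V d) × Finset (V d) → ℝ := fun q =>
    ∑ y ∈ q.1, ((univ.filter fun i => nb i y ∈ q.2).card : ℝ) - f / 4 * (q.1.card : ℝ) -
      7 / 2 * (q.2.card : ℝ) with hval
  have hval2 : ∀ q, val q = ∑ z ∈ q.2, ((univ.filter fun i => nb i z ∈ q.1).card : ℝ) -
      f / 4 * (q.1.card : ℝ) - 7 / 2 * (q.2.card : ℝ) := by
    intro q
    have := EXPA_dc q.1 q.2
    have h2 : (∑ y ∈ q.1, ((univ.filter fun i => nb i y ∈ q.2).card : ℝ)) =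
        ∑ z ∈ q.2, ((univ.filter fun i => nb i z ∈ q.1).card : ℝ) := by exact_mod_cast this
    rw [hval]
    simp only
    rw [h2]
  obtain ⟨q, hq, hmax⟩ := exists_max_image (C.powerset ×ˢ A'.powerset) val
    ⟨(C, A'), mem_product.2 ⟨mem_powerset.2 (Subset.refl _), mem_powerset.2 (Subset.refl _)⟩⟩
  obtain ⟨C1, A1⟩ := q
  rw [mem_product, mem_powerset, mem_powerset] at hq
  obtain ⟨hC1, hA1⟩ := hq
  simp only at hC1 hA1
  -- positive maximum
  have hCne : 0 < (C.card : ℝ) := by
    by_contra h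
    push Not at h
    have h0 : (C.card : ℝ) = 0 := le_antisymm h (Nat.cast_nonneg _)
    rw [h0] at hcon
    have : (0 : ℝ) ≤ (A'.card : ℝ) := Nat.cast_nonneg _
    linarith
  have hpos : 0 < val (C, A') := by
    have h1 : f * (C.card : ℝ) ≤ ∑ y ∈ C, ((univ.filter fun i => nb i y ∈ A').card : ℝ) := by
      calc f * (C.card : ℝ) = ∑ y ∈ C, f := by rw [sum_const, nsmul_eq_mul, mul_comm]
        _ ≤ ∑ y ∈ C, ((univ.filter fun i => nb i y ∈ A').card : ℝ) := by
          apply sum_le_sum
          intro y hy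
          refine (hdeg y hy).trans ?_
          norm_cast
          apply card_le_card
          intro i hi
          rw [mem_filter] at hi ⊢
          refine ⟨hi.1, ?_⟩
          rw [hA', mem_filter]
          exact ⟨hi.2, i, by rw [nb_nb]; exact hy⟩
    have h2 : val (C, A') = ∑ y ∈ C, ((univ.filter fun i => nb i y ∈ A').card : ℝ) -
      f / 4 * (C.card : ℝ) - 7 / 2 * (A'.card : ℝ) := rfl
    rw [h2]
    nlinarith
  have hpos1 : 0 < val (C1, A1) := lt_of_lt_of_le hpos (hmax (C, A')
    (mem_product.2 ⟨mem_powerset.2 (Subset.refl _), mem_powerset.2 (Subset.refl _)⟩))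
  have hne : C1.Nonempty := by
    by_contra h
    rw [not_nonempty_iff_eq_empty] at h
    have h2 : val (C1, A1) = ∑ y ∈ C1, ((univ.filter fun i => nb i y ∈ A1).card : ℝ) -
      f / 4 * (C1.card : ℝ) - 7 / 2 * (A1.card : ℝ) := rfl
    rw [h2, h] at hpos1
    have : (0 : ℝ) ≤ (A1.card : ℝ) := Nat.cast_nonneg _
    simp only [sum_empty, card_empty, Nat.cast_zero, mul_zero, sub_zero, zero_sub] at hpos1
    linarith
  have hd1 : ∀ y ∈ C1, f / 4 ≤ ((univ.filter fun i => nb i y ∈ A1).card : ℝ) := by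
    intro y hy
    have h1 := hmax (C1.erase y, A1) (mem_product.2
      ⟨mem_powerset.2 ((erase_subset _ _).trans hC1), mem_powerset.2 hA1⟩)
    have h2 : val (C1, A1) = ∑ y ∈ C1, ((univ.filter fun i => nb i y ∈ A1).card : ℝ) -
      f / 4 * (C1.card : ℝ) - 7 / 2 * (A1.card : ℝ) := rfl
    have h3 : val (C1.erase y, A1) = ∑ y ∈ C1.erase y,
      ((univ.filter fun i => nb i y ∈ A1).card : ℝ) -
      f / 4 * ((C1.erase y).card : ℝ) - 7 / 2 * (A1.card : ℝ) := rfl
    rw [h2, h3, ← add_sum_erase _ _ hy] at h1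
    have h4 : ((C1.erase y).card : ℝ) = (C1.card : ℝ) - 1 := by
      have := card_erase_add_one hy
      have h5 : ((C1.erase y).card : ℝ) + 1 = (C1.card : ℝ) := by exact_mod_cast this
      linarith
    rw [h4] at h1
    linarith
  have hd2 : ∀ z ∈ A1, (4 : ℝ) ≤ ((univ.filter fun i => nb i z ∈ C1).card : ℝ) := by
    intro z hz
    have h1 := hmax (C1, A1.erase z) (mem_product.2
      ⟨mem_powerset.2 hC1, mem_powerset.2 ((erase_subset _ _).trans hA1)⟩)
    rw [hval2, hval2] at h1
    simp only at h1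
    rw [← add_sum_erase _ _ hz] at h1
    have h4 : ((A1.erase z).card : ℝ) = (A1.card : ℝ) - 1 := by
      have := card_erase_add_one hz
      have h5 : ((A1.erase z).card : ℝ) + 1 = (A1.card : ℝ) := by exact_mod_cast this
      linarith
    rw [h4] at h1
    have h6 : (7 / 2 : ℝ) ≤ ((univ.filter fun i => nb i z ∈ C1).card : ℝ) := by linarith
    have h7 : 3 < (univ.filter fun i => nb i z ∈ C1).card := by
      by_contra h8
      push Not at h8
      have : ((univ.filter fun i => nb i z ∈ C1).card : ℝ) ≤ 3 := by exact_mod_cast h8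
      linarith
    exact_mod_cast h7
  obtain ⟨x, hx⟩ := hne
  have s0 := EXPA_step C1 A1 x (f / 4) 0 hd1
  have s1 := EXPA_step A1 C1 x 4 1 hd2
  have s2 := EXPA_step C1 A1 x (f / 4) 2 hd1
  have s3 := EXPA_step A1 C1 x 4 3 hd2
  have h0 : (1 : ℝ) ≤ ((C1.filter fun y => EXPA_Df x y = ∅).card : ℝ) := by
    have : 0 < (C1.filter fun y => EXPA_Df x y = ∅).card := by
      rw [card_pos]
      refine ⟨x, mem_filter.2 ⟨hx, ?_⟩⟩
      unfold EXPA_Df
      simp
    exact_mod_cast this
  have h4 : ((C1.filter fun y => (EXPA_Df x y).card = 4).card : ℝ) ≤ (C.card : ℝ) := by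
    exact_mod_cast (card_le_card (filter_subset _ _)).trans (card_le_card hC1)
  norm_num at s0 s1 s2 s3
  set a0 := ((C1.filter fun y => EXPA_Df x y = ∅).card : ℝ) with ha0
  set a1 := ((A1.filter fun y => (EXPA_Df x y).card = 1).card : ℝ) with ha1
  set a2 := ((C1.filter fun y => (EXPA_Df x y).card = 2).card : ℝ) with ha2
  set a3 := ((A1.filter fun y => (EXPA_Df x y).card = 3).card : ℝ) with ha3
  set a4 := ((C1.filter fun y => (EXPA_Df x y).card = 4).card : ℝ) with ha4
  have e1 : f / 4 ≤ a1 := by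
    have : f / 4 * 1 ≤ f / 4 * a0 := mul_le_mul_of_nonneg_left h0 (by linarith)
    linarith
  have e2 : 3 * f / 8 ≤ a2 := by linarith
  have e3 : (f / 4 - 2) * (3 * f / 8) ≤ (f / 4 - 2) * a2 :=
    mul_le_mul_of_nonneg_left e2 (by linarith)
  have e4 : (f / 4 - 2) * (3 * f / 8) ≤ 12 * (f ^ 2 / 200) := by linarith
  nlinarith

end Pool.Agent.Lib.MP_c6118e_pr.Win
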