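import Pool.Agent.Lib.MP_c6118e_pr.Win.AV

/-! # `Fr`, `Nm`, `An`, `Fn`, `adjk` : locality and Lipschitz bounds -/

namespace Pool.Agent.Lib.MP_c6118e_pr.Win

open Finset Real
open scoped Classical

variable {d : ℕ}

theorem par_nb_nb (i j : Fin d) (v : V d) : par (nb j (nb i v)) = par v := by
  rw [par_nb, par_nb, add_assoc, zmod2_add_self, add_zero]

theorem Fset_congr {s s' : Finset (V d)} {v : V d} (h : ∀ z, par z = par v → (z ∈ s ↔ z ∈ s')) :
    Fset s v = Fset s' v := by
  unfold Fset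
  apply filter_congr
  intro i _
  constructor
  · intro h1 j hj h2
    exact h1 j hj ((h _ (par_nb_nb i j v)).2 h2)
  · intro h1 j hj h2
    exact h1 j hj ((h _ (par_nb_nb i j v)).1 h2)

theorem Fr_congr {s s' : Finset (V d)} {v : V d} (h : ∀ z, par z = par v → (z ∈ s ↔ z ∈ s')) :
    Fr s v = Fr s' v := by unfold Fr; rw [Fset_congr h]

theorem Fr_anti {s s' : Finset (V d)} (h : s ⊆ s') (v : V d) : Fr s' v ≤ Fr s v := by
  unfold Fr Fset
  apply card_le_card
  intro i hi
  rw [mem_filter] at hi ⊢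
  exact ⟨hi.1, fun j hj h1 => hi.2 j hj (h h1)⟩

theorem Fr_le (s : Finset (V d)) (v : V d) : Fr s v ≤ d := by
  unfold Fr
  exact (card_le_univ _).trans (by simp)

/-- for `z` fixed the directions `i` with `z = nb j (nb i v)` for some `j ≠ i` are at most two -/
theorem two_dirs (v z : V d) :
    (univ.filter fun i => ∃ j, j ≠ i ∧ nb j (nb i v) = z).card ≤ 2 := by
  by_cases h : ∃ a b : Fin d, b ≠ a ∧ nb b (nb a v) = z
  · obtain ⟨a, b, hab, hz⟩ := h
    have : (univ.filter fun i => ∃ j, j ≠ i ∧ nb j (nb i v) = z) ⊆ {a, b} := by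
      intro i hi
      rw [mem_filter] at hi
      obtain ⟨j, hj, h1⟩ := hi.2
      rw [← hz] at h1
      rw [mem_insert, mem_singleton]
      by_contra hcon
      push Not at hcon
      have h2 := congrFun h1 i
      unfold nb at h2
      simp only [Pi.add_apply, Pi.single_apply] at h2
      rw [if_neg hcon.1, if_neg hcon.2, if_neg (Ne.symm hj)] at h2
      simp at h2
    exact (card_le_card this).trans card_le_two
  · have : (univ.filter fun i => ∃ j, j ≠ i ∧ nb j (nb i v) = z) = ∅ := by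
      rw [filter_eq_empty_iff]
      intro i _ hi
      obtain ⟨j, hj, h1⟩ := hi
      exact h ⟨i, j, hj, h1⟩
    rw [this]; simp

theorem Fset_subset (s C : Finset (V d)) (v : V d) :
    Fset (s \ C) v ⊆ Fset s v ∪ C.biUnion fun z =>
      univ.filter fun i => ∃ j, j ≠ i ∧ nb j (nb i v) = z := by
  intro i hi
  by_cases h : i ∈ Fset s v
  · exact mem_union_left _ h
  · refine mem_union_right _ ?_
    unfold Fset at hi h
    rw [mem_filter] at hi h
    push Not at h
    obtain ⟨j, hj, h1⟩ := h (mem_univ _)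
    have h2 := hi.2 j hj
    rw [mem_sdiff] at h2
    push Not at h2
    rw [mem_biUnion]
    exact ⟨_, h2 h1, mem_filter.2 ⟨mem_univ _, j, hj, rfl⟩⟩

theorem Fr_sdiff_le (s C : Finset (V d)) (v : V d) : Fr (s \ C) v ≤ Fr s v + 2 * C.card := by
  unfold Fr
  refine (card_le_card (Fset_subset s C v)).trans ((card_union_le _ _).trans ?_)
  refine Nat.add_le_add_left ?_ _
  refine card_biUnion_le.trans ?_
  rw [mul_comm, ← smul_eq_mul]
  exact sum_le_card_nsmul _ _ _ fun z _ => two_dirs v z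

theorem Fr_le_union (s S : Finset (V d)) (v : V d) : Fr s v ≤ Fr (s ∪ S) v + 2 * S.card := by
  have h1 : Fr s v ≤ Fr ((s ∪ S) \ S) v := by
    apply Fr_anti
    rw [union_sdiff_right]
    exact sdiff_subset
  exact h1.trans (Fr_sdiff_le _ _ _)

theorem nOcc_congr {s s' : Finset (V d)} {v : V d}
    (h : ∀ z, par z = par v + 1 → (z ∈ s ↔ z ∈ s')) : nOcc s v = nOcc s' v := by
  unfold nOcc
  congr 1
  apply filter_congr
  intro i _
  exact h _ (par_nb i v)

theorem Nm_congr {T l : ℝ} {s s' : Finset (V d)} {q : V d}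
    (h : ∀ z, par z = par q + 1 → (z ∈ s ↔ z ∈ s')) : Nm T l s q ↔ Nm T l s' q := by
  unfold Nm
  have : ∀ i, Fr s (nb i q) = Fr s' (nb i q) := fun i =>
    Fr_congr fun z hz => h z (hz.trans (par_nb i q))
  simp only [this]

theorem An_congr {T l : ℝ} {s s' : Finset (V d)} {q : V d}
    (h : ∀ z, par z = par q + 1 → (z ∈ s ↔ z ∈ s')) : An T l s q ↔ An T l s' q := by
  unfold An
  rw [nOcc_congr h, Nm_congr h]

theorem Fn_congr {T l : ℝ} {s s' : Finset (V d)} {w : V d}
    (h : ∀ z, par z = par w → (z ∈ s ↔ z ∈ s')) : Fn T l s w = Fn T l s' w := by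
  unfold Fn
  congr 1
  apply filter_congr
  intro i _
  apply An_congr
  intro z hz
  apply h
  rw [hz, par_nb, add_assoc, zmod2_add_self, add_zero]

theorem Fn_le (T l : ℝ) (s : Finset (V d)) (w : V d) : Fn T l s w ≤ d := by
  unfold Fn
  exact (card_le_univ _).trans (by simp)

theorem FFp_card_le (l c : ℝ) (s : Finset (V d)) (u : V d) :
    (univ.filter fun i => FFp l c s u i).card ≤ Fr s u := by
  unfold Fr Fset
  apply card_le_card
  intro i hi
  rw [mem_filter] at hi ⊢
  refine ⟨hi.1, fun j _ => ?_⟩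
  exact nOcc_eq_zero.1 hi.2.2.1 j

theorem Fr_eq_of_notMem {s : Finset (V d)} {w : V d} (h : w ∉ s) :
    Fr s w = (univ.filter fun i => nOcc s (nb i w) = 0).card := by
  unfold Fr Fset
  congr 1
  apply filter_congr
  intro i _
  rw [nOcc_eq_zero]
  constructor
  · intro h1 j
    by_cases hj : j = i
    · rw [hj, nb_nb]; exact h
    · exact h1 j hj
  · intro h1 j _
    exact h1 j

theorem Fr_le_Fn {T l : ℝ} (hl : 0 < l) {s : Finset (V d)} {w : V d} (hw : w ∉ s)
    (hc : ¬ Ct T l s w) : l * (Fr s w : ℝ) ≤ l * (Fn T l s w : ℝ) + 1 := by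
  unfold Ct at hc
  push Not at hc
  have h1 := hc hw
  rw [Fr_eq_of_notMem hw]
  have h2 : (univ.filter fun i => nOcc s (nb i w) = 0).card ≤ Fn T l s w +
      (univ.filter fun i => nOcc s (nb i w) = 0 ∧ ¬ Nm T l s (nb i w)).card := by
    unfold Fn
    refine le_trans (card_le_card ?_) (card_union_le _ _)
    intro i hi
    rw [mem_filter] at hi
    rw [mem_union, mem_filter, mem_filter]
    by_cases h : Nm T l s (nb i w)
    · exact Or.inl ⟨hi.1, hi.2, h⟩
    · exact Or.inr ⟨hi.1, hi.2, h⟩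
  have h3 : ((univ.filter fun i => nOcc s (nb i w) = 0).card : ℝ) ≤ Fn T l s w +
      ((univ.filter fun i => nOcc s (nb i w) = 0 ∧ ¬ Nm T l s (nb i w)).card : ℝ) := by
    exact_mod_cast h2
  calc l * ((univ.filter fun i => nOcc s (nb i w) = 0).card : ℝ)
      ≤ l * (Fn T l s w + ((univ.filter fun i => nOcc s (nb i w) = 0 ∧
          ¬ Nm T l s (nb i w)).card : ℝ)) := mul_le_mul_of_nonneg_left h3 hl.le
    _ ≤ l * (Fn T l s w + 1 / l) := by gcongr
    _ = l * (Fn T l s w : ℝ) + 1 := by field_simp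

theorem adjk_symm {k : Fin d} {q r : V d} (h : adjk k q r) : adjk k r q := by
  obtain ⟨j, hj, rfl⟩ := h
  refine ⟨j, hj, ?_⟩
  rw [nb_comm k j, nb_nb, nb_nb]

theorem adjk_par {k : Fin d} {q r : V d} (h : adjk k q r) : par r = par q := by
  obtain ⟨j, _, rfl⟩ := h
  exact par_nb_nb k j q

theorem adjk_ne {k : Fin d} {q r : V d} (h : adjk k q r) : r ≠ q := by
  obtain ⟨j, hj, rfl⟩ := h
  intro h1
  have h3 : nb k q = nb j q := by
    have := congrArg (nb j) h1
    rwa [nb_nb] at this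
  exact hj (nb_inj h3).symm

/-- the vertices adjacent to `u` in direction `k` are the neighbours of `nb k u` except `u` -/
theorem adjk_iff {k : Fin d} {u q : V d} : adjk k u q ↔ q ≠ u ∧ ∃ j, q = nb j (nb k u) := by
  constructor
  · intro h
    refine ⟨adjk_ne h, ?_⟩
    obtain ⟨j, _, h1⟩ := h
    exact ⟨j, h1⟩
  · rintro ⟨h1, j, h2⟩
    refine ⟨j, ?_, h2⟩
    rintro rfl
    rw [nb_nb] at h2
    exact h1 h2

theorem card_adjk_le (k : Fin d) (q : V d) : (univ.filter fun u => adjk k u q).card ≤ d := by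
  have : (univ.filter fun u => adjk k u q) ⊆ (univ : Finset (Fin d)).image
      fun j => nb j (nb k q) := by
    intro u hu
    rw [mem_filter] at hu
    obtain ⟨j, _, h⟩ := adjk_symm hu.2
    exact mem_image.2 ⟨j, mem_univ _, h.symm⟩
  exact (card_le_card this).trans (card_image_le.trans (by simp))

theorem mem_cmp_self (k : Fin d) (D : Finset (V d)) (q : V d) : q ∈ cmp k D q :=
  mem_filter.2 ⟨mem_univ _, Relation.ReflTransGen.refl⟩

theorem cmp_mono {k : Fin d} {D D' : Finset (V d)} (h : D ⊆ D') (q : V d) :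
    cmp k D q ⊆ cmp k D' q := by
  intro r hr
  unfold cmp at hr ⊢
  rw [mem_filter] at hr ⊢
  exact ⟨hr.1, Relation.ReflTransGen.mono (r := fun a b => b ∈ D ∧ adjk k a b)
    (p := fun a b => b ∈ D' ∧ adjk k a b) (fun a b hab => ⟨h hab.1, hab.2⟩) _ _ hr.2⟩

theorem cmp_par {k : Fin d} {D : Finset (V d)} {q r : V d} (h : r ∈ cmp k D q) :
    par r = par q := by
  unfold cmp at h
  rw [mem_filter] at h
  induction h.2 with
  | refl => rfl
  | tail _ h2 ih =>
    rw [adjk_par h2.2]
    exact ih ⟨mem_univ _, by assumption⟩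

theorem cmp_subset {k : Fin d} {D : Finset (V d)} {q : V d} (hq : q ∈ D) : cmp k D q ⊆ D := by
  intro r hr
  unfold cmp at hr
  rw [mem_filter] at hr
  rcases Relation.ReflTransGen.cases_tail hr.2 with h | ⟨b, _, h⟩
  · rw [h]; exact hq
  · exact h.1

end Pool.Agent.Lib.MP_c6118e_pr.Win
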