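import Pool.Agent.Lib.MP_c6118e_pr.Win.FR
import Pool.Agent.Lib.MP_c6118e_pr.Win.COSTH

/-! # GAIN: Jensen -/

namespace Pool.Agent.Lib.MP_c6118e_pr.Win

open Finset Real
open scoped Classical

variable {d : ℕ}

theorem GAIN_DVp_nb (b : ℕ) (k : Fin d) (s t : Finset (V d)) (u : V d) :
    DVp b k s t (nb k u) ↔ DVp b k s t u := by
  unfold DVp
  rw [nb_nb]
  tauto

theorem GAIN_kap_nb (b : ℕ) (k : Fin d) (s t : Finset (V d)) (u : V d) :
    kap b k s t (nb k u) = kap b k s t u := by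
  unfold kap
  rw [nb_nb, add_comm]

theorem GAIN_half (b : ℕ) (k : Fin d) (s t : Finset (V d)) :
    ∑ u ∈ univ.filter (DVp b k s t), (1 / 2 : ℝ) ^ kap b k s t u =
      2 * ∑ u ∈ univ.filter (fun u : V d => par u = 0 ∧ DVp b k s t u),
        (1 / 2 : ℝ) ^ kap b k s t u := by
  have h1 : ∑ u ∈ univ.filter (DVp b k s t), (1 / 2 : ℝ) ^ kap b k s t u =
      ∑ u ∈ (univ.filter (DVp b k s t)).filter (fun u => par u = 0),
        (1 / 2 : ℝ) ^ kap b k s t u +
      ∑ u ∈ (univ.filter (DVp b k s t)).filter (fun u => ¬ par u = 0),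
        (1 / 2 : ℝ) ^ kap b k s t u :=
    (sum_filter_add_sum_filter_not _ _ _).symm
  have h2 : ∑ u ∈ (univ.filter (DVp b k s t)).filter (fun u => ¬ par u = 0),
      (1 / 2 : ℝ) ^ kap b k s t u =
      ∑ u ∈ (univ.filter (DVp b k s t)).filter (fun u => par u = 0),
        (1 / 2 : ℝ) ^ kap b k s t u := by
    refine sum_nbij' (fun u => nb k u) (fun u => nb k u) ?_ ?_ ?_ ?_ ?_
    · intro u hu
      rw [mem_filter, mem_filter] at hu ⊢
      refine ⟨⟨mem_univ _, (GAIN_DVp_nb b k s t u).2 hu.1.2⟩, ?_⟩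
      rw [par_nb]
      rcases zmod2_cases (par u) with h | h
      · exact absurd h hu.2
      · rw [h]; decide
    · intro u hu
      rw [mem_filter, mem_filter] at hu ⊢
      refine ⟨⟨mem_univ _, (GAIN_DVp_nb b k s t u).2 hu.1.2⟩, ?_⟩
      rw [par_nb, hu.2]
      decide
    · intro u _; exact nb_nb k u
    · intro u _; exact nb_nb k u
    · intro u _
      show _ = (1 / 2 : ℝ) ^ kap b k s t (nb k u)
      rw [GAIN_kap_nb]
  have h3 : (univ.filter (DVp b k s t)).filter (fun u => par u = 0) =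
      univ.filter (fun u : V d => par u = 0 ∧ DVp b k s t u) := by
    ext u
    simp only [mem_filter, mem_univ, true_and]
    tauto
  rw [h1, h2, h3]
  ring

theorem GAIN_log {z : ℝ} (h0 : 0 ≤ z) (h1 : z ≤ 1) : z / 2 ≤ log (1 + z) := by
  have h2 : (0 : ℝ) < 1 + z := by linarith
  have h3 := one_sub_inv_le_log_of_pos h2
  have h4 : z / 2 ≤ 1 - (1 + z)⁻¹ := by
    rw [show 1 - (1 + z)⁻¹ = z / (1 + z) by field_simp; ring]
    apply div_le_div_of_nonneg_left h0 h2
    linarith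
  linarith

/-- the exponent -/
theorem GAIN_pt {l : ℝ} (hl : 0 < l) (hl1 : l ≤ 1) (k : Fin d) (b : ℕ) (s t : Finset (V d))
    (A : ℝ) (ht : t ⊆ s) :
    1 + (l / 8 * (∑ u ∈ univ.filter (DVp b k s t), (1 / 2 : ℝ) ^ kap b k s t u)
        - (s.card : ℝ) / b - A) ≤
      exp (-A) * ((1 / 2 : ℝ) ^ ((t.card : ℝ) / b) *
        ∏ u ∈ univ.filter (fun u : V d => par u = 0 ∧ DVp b k s t u),
        (1 + l / 2 * (1 / 2) ^ kap b k s t u)) := by
  have hk : ∀ u : V d, (0 : ℝ) < (1 / 2 : ℝ) ^ kap b k s t u ∧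
      (1 / 2 : ℝ) ^ kap b k s t u ≤ 1 := fun u =>
    ⟨by positivity, pow_le_one₀ (by norm_num) (by norm_num)⟩
  have hprod : ∏ u ∈ univ.filter (fun u : V d => par u = 0 ∧ DVp b k s t u),
      (1 + l / 2 * (1 / 2) ^ kap b k s t u) =
      exp (∑ u ∈ univ.filter (fun u : V d => par u = 0 ∧ DVp b k s t u),
        log (1 + l / 2 * (1 / 2) ^ kap b k s t u)) := by
    rw [exp_sum]
    refine prod_congr rfl fun u _ => ?_
    rw [exp_log]
    have := (hk u).1
    positivity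
  have hhalf : (1 / 2 : ℝ) ^ ((t.card : ℝ) / b) = exp (-(log 2 * ((t.card : ℝ) / b))) := by
    rw [rpow_def_of_pos (by norm_num : (0 : ℝ) < 1 / 2), one_div, log_inv]
    ring_nf
  rw [hprod, hhalf, ← exp_add, ← exp_add]
  refine le_trans ?_ (add_one_le_exp _)
  have h1 : l / 8 * (∑ u ∈ univ.filter (DVp b k s t), (1 / 2 : ℝ) ^ kap b k s t u) ≤
      ∑ u ∈ univ.filter (fun u : V d => par u = 0 ∧ DVp b k s t u),
        log (1 + l / 2 * (1 / 2) ^ kap b k s t u) := by
    rw [GAIN_half, show l / 8 * (2 * ∑ u ∈ univ.filter (fun u : V d => par u = 0 ∧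
      DVp b k s t u), (1 / 2 : ℝ) ^ kap b k s t u) = l / 4 * ∑ u ∈ univ.filter
      (fun u : V d => par u = 0 ∧ DVp b k s t u), (1 / 2 : ℝ) ^ kap b k s t u by ring, mul_sum]
    refine sum_le_sum fun u _ => ?_
    have h2 := hk u
    have h3 := GAIN_log (z := l / 2 * (1 / 2) ^ kap b k s t u) (by have := h2.1; positivity)
      (by
        calc l / 2 * (1 / 2) ^ kap b k s t u ≤ 1 / 2 * 1 := by
              apply mul_le_mul (by linarith) h2.2 h2.1.le (by norm_num)
          _ ≤ 1 := by norm_num)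
    linarith
  have h2 : log 2 * ((t.card : ℝ) / b) ≤ (s.card : ℝ) / b := by
    have h3 : log 2 ≤ 1 := by
      have := log_le_sub_one_of_pos (x := 2) (by norm_num)
      linarith
    have h4 : (t.card : ℝ) / b ≤ (s.card : ℝ) / b := by
      have : (t.card : ℝ) ≤ s.card := by exact_mod_cast card_le_card ht
      gcongr
    have h5 : 0 ≤ (t.card : ℝ) / b := by positivity
    nlinarith
  linarith

theorem gain {l : ℝ} (hl : 0 < l) (hl1 : l ≤ 1) (x : ℝ) (hZ : 0 < Zx d l x) (k : Fin d)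
    (b : ℕ) (hb : 1 ≤ b) :
    l / 8 * avM l x (fun s t => ∑ u ∈ univ.filter (DVp b k s t), (1 / 2 : ℝ) ^ kap b k s t u) ≤
      Zx d l x * log (Zf d l / Zx d l x) + avU (d := d) l x (fun s => (s.card : ℝ)) / b := by
  set A := log (Zf d l / Zx d l x) with hA
  set Y : Finset (V d) → Finset (V d) → ℝ := fun s t => (1 / 2 : ℝ) ^ ((t.card : ℝ) / b) *
        ∏ u ∈ univ.filter (fun u : V d => par u = 0 ∧ DVp b k s t u),
        (1 + l / 2 * (1 / 2) ^ kap b k s t u) with hY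
  have hZf : 0 < Zf d l := Zf_pos hl
  have hexp : exp (-A) * Zf d l = Zx d l x := by
    rw [hA, exp_neg, exp_log (div_pos hZf hZ)]
    field_simp
  have h1 : avM l x Y ≤ Zf d l := by
    refine le_trans ?_ (costH hl k b hb)
    unfold avM
    refine sum_le_sum_of_subset_of_nonneg (Bx_sub_Om x) fun s _ _ => sum_nonneg fun t _ => ?_
    have : 0 ≤ ∏ u ∈ univ.filter (fun u : V d => par u = 0 ∧ DVp b k s t u),
        (1 + l / 2 * (1 / 2 : ℝ) ^ kap b k s t u) := prod_nonneg fun u _ => by positivity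
    positivity
  have h2 : avM l x (fun s t => exp (-A) * Y s t) ≤ Zx d l x := by
    rw [avM_mul, ← hexp]
    exact mul_le_mul_of_nonneg_left h1 (exp_pos _).le
  have h3 : avM l x (fun s t => 1 + (l / 8 * (∑ u ∈ univ.filter (DVp b k s t),
      (1 / 2 : ℝ) ^ kap b k s t u) - (s.card : ℝ) / b - A)) ≤
      avM l x (fun s t => exp (-A) * Y s t) :=
    avM_mono hl.le fun s _ t ht => GAIN_pt hl hl1 k b s t A ht
  have h4 : avM l x (fun s t => 1 + (l / 8 * (∑ u ∈ univ.filter (DVp b k s t),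
      (1 / 2 : ℝ) ^ kap b k s t u) - (s.card : ℝ) / b - A)) =
      Zx d l x + l / 8 * avM l x (fun s t => ∑ u ∈ univ.filter (DVp b k s t),
        (1 / 2 : ℝ) ^ kap b k s t u) - avU (d := d) l x (fun s => (s.card : ℝ)) / b
        - A * Zx d l x := by
    have e1 : (fun (s t : Finset (V d)) => 1 + (l / 8 * (∑ u ∈ univ.filter (DVp b k s t),
        (1 / 2 : ℝ) ^ kap b k s t u) - (s.card : ℝ) / b - A)) =
        fun s t => (1 - A) * 1 + (l / 8 * (∑ u ∈ univ.filter (DVp b k s t),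
        (1 / 2 : ℝ) ^ kap b k s t u) + (-(1 / (b : ℝ))) * (s.card : ℝ)) := by
      funext s t
      ring
    rw [e1, avM_add, avM_add, avM_mul, avM_mul, avM_mul]
    rw [avM_const l x (fun _ => (1 : ℝ)), avU_one, avM_const l x (fun s => (s.card : ℝ))]
    ring
  linarith

end Pool.Agent.Lib.MP_c6118e_pr.Win
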