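import Pool.Agent.Lib.MP_c6118e_pr.Win.FR
import Pool.Agent.Lib.MP_c6118e_pr.Win.TOOL
import Pool.Agent.Lib.MP_c6118e_pr.GIB3
import Pool.Agent.Lib.MP_c6118e_pr.ISO

/-! # ISO2: the interface exists -/

namespace Pool.Agent.Lib.MP_c6118e_pr.Win

open Finset Real
open scoped Classical

variable {d : ℕ}

/-- the light vertices -/
noncomputable def light (T l : ℝ) (s : Finset (V d)) : Finset (V d) :=
  univ.filter fun v => l * (Fr s v : ℝ) < T

/-- empty available vertices with large `F` -/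
noncomputable def ISO2_A (T l : ℝ) (s : Finset (V d)) : Finset (V d) :=
  univ.filter fun v => v ∉ s ∧ nOcc s v = 0 ∧ T ≤ l * (Fr s v : ℝ)

theorem ISO2_free_sub (T l : ℝ) (s : Finset (V d)) (v : V d) (hv : nOcc s v = 0) :
    v ∈ light T l s ∨ v ∈ s ∨ v ∈ ISO2_A T l s := by
  by_cases h1 : v ∈ s
  · exact Or.inr (Or.inl h1)
  by_cases h2 : l * (Fr s v : ℝ) < T
  · exact Or.inl (mem_filter.2 ⟨mem_univ _, h2⟩)
  · exact Or.inr (Or.inr (mem_filter.2 ⟨mem_univ _, h1, hv, not_lt.1 h2⟩))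

/-- the deterministic part -/
theorem ISO2_good {T l : ℝ} {s : Finset (V d)}
    (h0 : 4 / 100 * (2 : ℝ) ^ d ≤ (((Lset s).filter fun v => par v = 0).card : ℝ))
    (h1 : 4 / 100 * (2 : ℝ) ^ d ≤ (((Lset s).filter fun v => par v = 1).card : ℝ))
    (h2 : (s.card : ℝ) ≤ 5 / 1000 * 2 ^ d) (h3 : ((ISO2_A T l s).card : ℝ) ≤ 1 / 100 * 2 ^ d) :
    1 / 50 * (2 : ℝ) ^ d ≤ 3 * eLL (light T l s) + (√d + 1) * (Ex (light T l s)).card := by
  refine le_trans ?_ (iso (light T l s))
  have hN : (0 : ℝ) < 2 ^ d := by positivity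
  have hP : 25 / 1000 * (2 : ℝ) ^ d ≤ (phase (light T l s)).card := by
    have hsub : ((Lset s).filter fun v => par v = 0) ⊆ phase (light T l s) ∪ (s ∪ ISO2_A T l s) := by
      intro v hv
      rw [mem_filter, mem_Lset] at hv
      rcases ISO2_free_sub T l s v hv.1 with h | h | h
      · exact mem_union_left _ (mem_phase.2 ⟨fun _ => h, fun _ => hv.2⟩)
      · exact mem_union_right _ (mem_union_left _ h)
      · exact mem_union_right _ (mem_union_right _ h)
    have hc := (card_le_card hsub).trans ((card_union_le _ _).trans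
      (Nat.add_le_add_left (card_union_le _ _) _))
    have hc' : ((((Lset s).filter fun v => par v = 0).card : ℕ) : ℝ) ≤
        (phase (light T l s)).card + ((s.card : ℝ) + (ISO2_A T l s).card) := by exact_mod_cast hc
    linarith
  have hQ : 25 / 1000 * (2 : ℝ) ^ d ≤ 2 ^ d - (phase (light T l s)).card := by
    have hsub : ((Lset s).filter fun v => par v = 1) ⊆
        (univ \ phase (light T l s)) ∪ (s ∪ ISO2_A T l s) := by
      intro v hv
      rw [mem_filter, mem_Lset] at hv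
      rcases ISO2_free_sub T l s v hv.1 with h | h | h
      · refine mem_union_left _ (mem_sdiff.2 ⟨mem_univ _, ?_⟩)
        rw [mem_phase]
        intro h4
        have h5 := h4.2 h
        rw [hv.2] at h5
        exact one_ne_zero h5
      · exact mem_union_right _ (mem_union_left _ h)
      · exact mem_union_right _ (mem_union_right _ h)
    have hc := (card_le_card hsub).trans ((card_union_le _ _).trans
      (Nat.add_le_add_left (card_union_le _ _) _))
    have hc' : ((((Lset s).filter fun v => par v = 1).card : ℕ) : ℝ) ≤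
        (univ \ phase (light T l s)).card + ((s.card : ℝ) + (ISO2_A T l s).card) := by
      exact_mod_cast hc
    have h6 : ((univ \ phase (light T l s)).card : ℝ) = 2 ^ d - (phase (light T l s)).card := by
      rw [card_univ_sdiff, Nat.cast_sub (card_le_univ _), card_V]
      push_cast
      ring
    rw [h6] at hc'
    linarith
  rw [le_div_iff₀ hN]
  nlinarith [mul_nonneg (sub_nonneg.2 hP) (sub_nonneg.2 hQ)]

theorem ISO2_dens {l y : ℝ} (hl : 0 < l) (p : ZMod 2) (hy : 9 / 100 * (l / (1 + l)) * 2 ^ d ≤ y) :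
    avU (d := d) l y (fun s => if (((Lset s).filter fun v => par v = p).card : ℝ) <
      4 / 100 * 2 ^ d then (1 : ℝ) else 0) ≤ exp (-(l / (1 + l) * 2 ^ d / 50)) * Zf d l := by
  refine le_trans ?_ (dens hl p)
  unfold avU
  have h1 : ∀ s ∈ Bx d y, l ^ s.card * (if (((Lset s).filter fun v => par v = p).card : ℝ) <
      4 / 100 * 2 ^ d then (1 : ℝ) else 0) = if (((Lset s).filter fun v => par v = p).card : ℝ) <
      4 / 100 * 2 ^ d then l ^ s.card else 0 := by
    intro s _
    split_ifs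
    · rw [mul_one]
    · rw [mul_zero]
  rw [sum_congr rfl h1, ← sum_filter]
  refine sum_le_sum_of_subset_of_nonneg ?_ fun s _ _ => by positivity
  intro s hs
  rw [mem_filter, mem_Bx] at hs
  rw [mem_filter, mem_Om]
  refine ⟨hs.1.1, ?_, hs.2⟩
  rcases zmod2_cases p with h | h
  · rw [h]; linarith [hs.1.2.1]
  · rw [h]; linarith [hs.1.2.2]

theorem ISO2_card {l y : ℝ} (hl : 0 < l) :
    avU (d := d) l y (fun s => if 5 / 1000 * (2 : ℝ) ^ d < s.card then (1 : ℝ) else 0) ≤
      exp (2 ^ d * (3 * l - 5 / 1000)) := by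
  unfold avU
  have h1 : ∀ s ∈ Bx d y, l ^ s.card * (if 5 / 1000 * (2 : ℝ) ^ d < s.card then (1 : ℝ) else 0) ≤
      exp (-(5 / 1000 * 2 ^ d)) * (exp 1 * l) ^ s.card := by
    intro s _
    split_ifs with h
    · rw [mul_one, mul_pow, ← exp_nat_mul, mul_one, ← mul_assoc, ← exp_add]
      refine le_mul_of_one_le_left (by positivity) ?_
      rw [one_le_exp_iff]
      linarith
    · rw [mul_zero]
      positivity
  refine (sum_le_sum h1).trans ?_
  rw [← mul_sum]
  have h2 : ∑ s ∈ Bx d y, (exp 1 * l) ^ s.card ≤ (1 + exp 1 * l) ^ (2 ^ d) := by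
    have h3 := sum_pow_card (univ : Finset (V d)) (exp 1 * l)
    rw [card_univ, card_V] at h3
    rw [← h3]
    exact sum_le_sum_of_subset_of_nonneg (fun s _ => mem_powerset.2 (subset_univ _))
      fun s _ _ => by positivity
  have h4 : (1 + exp 1 * l) ^ (2 ^ d) ≤ exp (2 ^ d * (3 * l)) := by
    have h5 : 1 + exp 1 * l ≤ exp (3 * l) := by
      have h6 := add_one_le_exp (3 * l)
      have h7 : exp 1 ≤ 3 := by linarith [exp_one_lt_d9]
      nlinarith
    refine (pow_le_pow_left₀ (by positivity) h5 _).trans (le_of_eq ?_)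
    rw [← exp_nat_mul]
    push_cast
    rfl
  calc exp (-(5 / 1000 * 2 ^ d)) * ∑ s ∈ Bx d y, (exp 1 * l) ^ s.card
      ≤ exp (-(5 / 1000 * 2 ^ d)) * exp (2 ^ d * (3 * l)) :=
        mul_le_mul_of_nonneg_left (h2.trans h4) (exp_pos _).le
    _ = exp (2 ^ d * (3 * l - 5 / 1000)) := by rw [← exp_add]; congr 1; ring

theorem ISO2_one {T l y : ℝ} (hl : 0 < l) (hl' : l ≤ 1 / 100) (hT : 10 ≤ T) (v : V d) :
    avU l y (fun s => if v ∉ s ∧ nOcc s v = 0 ∧ T ≤ l * (Fr s v : ℝ) then (1 : ℝ) else 0) ≤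
      1 / 1000 * Zx d l y := by
  have h := insertion (d := d) (l := l) (x := y) hl.le
    (f := fun s => if v ∉ s ∧ nOcc s v = 0 ∧ T ≤ l * (Fr s v : ℝ) then (1 : ℝ) else 0)
    (g := fun _ => 1) (fun s => ((Fset s v).image fun i => nb i v).powerset)
    (fun s _ => zero_le_one)
    (by
      intro s hs hf Y hY
      have hc : v ∉ s ∧ nOcc s v = 0 ∧ T ≤ l * (Fr s v : ℝ) := by
        by_contra hcon
        exact hf (if_neg hcon)
      rw [mem_powerset] at hY
      have hYi : ∀ z ∈ Y, ∃ i ∈ Fset s v, nb i v = z := fun z hz => mem_image.1 (hY hz)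
      refine ⟨?_, ?_, ?_⟩
      · rw [disjoint_left]
        intro z hz hzY
        obtain ⟨i, _, rfl⟩ := hYi z hzY
        exact nOcc_eq_zero.1 hc.2.1 i hz
      · have hsI := (mem_Bx.1 hs).1
        rw [mem_Om]
        intro z hz i hi
        rw [mem_union] at hz hi
        rcases hz with hz | hz
        · rcases hi with hi | hi
          · exact hsI z hz i hi
          · obtain ⟨j, hj, hj2⟩ := hYi _ hi
            have h3 : z = nb i (nb j v) := by rw [hj2, nb_nb]
            unfold Fset at hj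
            rw [mem_filter] at hj
            by_cases hij : i = j
            · subst hij
              rw [nb_nb] at h3
              exact hc.1 (h3 ▸ hz)
            · exact hj.2 i hij (h3 ▸ hz)
        · obtain ⟨j, hj, hj2⟩ := hYi _ hz
          rcases hi with hi | hi
          · rw [← hj2] at hi
            unfold Fset at hj
            rw [mem_filter] at hj
            by_cases hij : i = j
            · subst hij
              rw [nb_nb] at hi
              exact hc.1 hi
            · exact hj.2 i hij hi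
          · obtain ⟨k, _, hk2⟩ := hYi _ hi
            have h4 := congrArg par hk2
            rw [← hj2, par_nb, par_nb, par_nb] at h4
            have h5 : (1 : ZMod 2) = 1 + 1 := by
              rw [add_assoc] at h4
              exact add_left_cancel h4
            exact absurd h5 (by decide)
      · exact (if_pos hc).le)
    (by
      intro s hs hf Y hY s' hs' hf' Y' hY' he
      have hc : v ∉ s ∧ nOcc s v = 0 ∧ T ≤ l * (Fr s v : ℝ) := by
        by_contra hcon
        exact hf (if_neg hcon)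
      have hc' : v ∉ s' ∧ nOcc s' v = 0 ∧ T ≤ l * (Fr s' v : ℝ) := by
        by_contra hcon
        exact hf' (if_neg hcon)
      rw [mem_powerset] at hY hY'
      have hYi : ∀ z ∈ Y, ∃ i, nb i v = z := fun z hz => by
        obtain ⟨i, _, h⟩ := mem_image.1 (hY hz); exact ⟨i, h⟩
      have hYi' : ∀ z ∈ Y', ∃ i, nb i v = z := fun z hz => by
        obtain ⟨i, _, h⟩ := mem_image.1 (hY' hz); exact ⟨i, h⟩
      have hn : ∀ i, nb i v ∉ s := nOcc_eq_zero.1 hc.2.1
      have hn' : ∀ i, nb i v ∉ s' := nOcc_eq_zero.1 hc'.2.1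
      have key : ∀ z, (z ∈ s ↔ z ∈ s') ∧ (z ∈ Y ↔ z ∈ Y') := by
        intro z
        have h1 : z ∈ s ∪ Y ↔ z ∈ s' ∪ Y' := by rw [he]
        rw [mem_union, mem_union] at h1
        by_cases hz : ∃ i, nb i v = z
        · obtain ⟨i, rfl⟩ := hz
          have a1 := hn i
          have a2 := hn' i
          exact ⟨⟨fun h => absurd h a1, fun h => absurd h a2⟩,
            ⟨fun h => (h1.1 (Or.inr h)).resolve_left a2,
              fun h => (h1.2 (Or.inr h)).resolve_left a1⟩⟩
        · have a1 : z ∉ Y := fun h => hz (hYi z h)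
          have a2 : z ∉ Y' := fun h => hz (hYi' z h)
          exact ⟨⟨fun h => (h1.1 (Or.inl h)).resolve_right a2,
            fun h => (h1.2 (Or.inl h)).resolve_right a1⟩,
            ⟨fun h => absurd h a1, fun h => absurd h a2⟩⟩
      exact ⟨Finset.ext fun z => (key z).1, Finset.ext fun z => (key z).2⟩)
  rw [avU_one] at h
  have hmono : avU l y (fun s => 1000 * (if v ∉ s ∧ nOcc s v = 0 ∧ T ≤ l * (Fr s v : ℝ)
      then (1 : ℝ) else 0)) ≤ avU l y (fun s => (if v ∉ s ∧ nOcc s v = 0 ∧ T ≤ l * (Fr s v : ℝ)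
        then (1 : ℝ) else 0) * ∑ Y ∈ ((Fset s v).image fun i => nb i v).powerset, l ^ Y.card) := by
    refine avU_mono hl.le fun s _ => ?_
    split_ifs with hc
    · rw [mul_one, one_mul, sum_pow_card, card_image_of_injective _ (fun i j hij => nb_inj hij)]
      have h2 : T ≤ l * ((Fset s v).card : ℝ) := hc.2.2
      have h3 : exp (l / (1 + l)) ≤ 1 + l := by
        rw [← le_log_iff_exp_le (by positivity)]
        have h4 := one_sub_inv_le_log_of_pos (show (0 : ℝ) < 1 + l by positivity)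
        have h5 : l / (1 + l) = 1 - (1 + l)⁻¹ := by field_simp; ring
        rw [h5]
        exact h4
      have h6 : exp 7 ≤ (1 + l) ^ (Fset s v).card := by
        refine le_trans ?_ (pow_le_pow_left₀ (exp_pos _).le h3 _)
        rw [← exp_nat_mul]
        apply exp_le_exp.2
        rw [mul_div_assoc', le_div_iff₀ (by positivity)]
        nlinarith
      have h7 : (1000 : ℝ) ≤ exp 7 := by
        have h8 : (2.7182818283 : ℝ) < exp 1 := exp_one_gt_d9
        have h9 : exp 7 = exp 1 ^ 7 := by rw [← exp_nat_mul]; norm_num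
        rw [h9]
        have h10 : (2.7 : ℝ) ^ 7 ≤ exp 1 ^ 7 := pow_le_pow_left₀ (by norm_num) (by linarith) _
        refine le_trans (by norm_num) h10
      linarith
    · rw [mul_zero, zero_mul]
  rw [avU_mul] at hmono
  linarith

theorem ISO2_evt (CS cL : ℝ) (hCS : 0 < CS) (hcL : 0 < cL) :
    ∃ d₀ : ℕ, ∀ d ≥ d₀, 1 ≤ (d : ℝ) ∧ 1000 * (d : ℝ) ≤ 2 ^ d ∧
      (1000 * (cL + 1)) * (CS * log d / d) ≤ 1 := by
  have h1 : ∀ᶠ d : ℕ in Filter.atTop, 1 ≤ (d : ℝ) :=
    tendsto_natCast_atTop_atTop.eventually_ge_atTop _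
  have h2 : ∀ᶠ d : ℕ in Filter.atTop, (d : ℝ) ^ 1 / 2 ^ d < 1 / 1000 :=
    (tendsto_pow_const_div_const_pow_of_one_lt 1 (one_lt_two (α := ℝ))).eventually_lt_const
      (by norm_num)
  have h4 : ∀ᶠ d : ℕ in Filter.atTop, log (d : ℝ) ^ 1 / (1 * (d : ℝ) + 0) <
      1 / (1000 * (cL + 1) * CS) :=
    ((tendsto_pow_log_div_mul_add_atTop 1 0 1 one_ne_zero).comp
      tendsto_natCast_atTop_atTop).eventually_lt_const (by positivity)
  obtain ⟨d₀, h⟩ := Filter.eventually_atTop.1 (h1.and (h2.and h4))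
  refine ⟨d₀, fun d hd => ?_⟩
  obtain ⟨e1, e2, e4⟩ := h d hd
  refine ⟨e1, ?_, ?_⟩
  · rw [div_lt_div_iff₀ (by positivity) (by norm_num), pow_one] at e2
    linarith
  · rw [one_mul, add_zero, pow_one, lt_div_iff₀ (by positivity)] at e4
    have : 1000 * (cL + 1) * (CS * log d / d) = log (d : ℝ) / d * (1000 * (cL + 1) * CS) := by
      ring
    rw [this]
    exact e4.le

theorem iso2 (CS T cL : ℝ) (hCS : 0 < CS) (hT : 10 ≤ T) (hcL : 0 < cL) :
    ∃ d₀ : ℕ, ∀ d ≥ d₀, ∀ l : ℝ, 1 ≤ l * d → l * d ≤ CS * log d →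
    exp (-(cL * l ^ 2 * 2 ^ d)) * Zf d l ≤ Zx d l (1 / 10 * (l / (1 + l)) * 2 ^ d) →
    ∀ y : ℝ, 9 / 100 * (l / (1 + l)) * 2 ^ d ≤ y → y ≤ 1 / 10 * (l / (1 + l)) * 2 ^ d →
    1 / 100 * 2 ^ d * Zx d l y ≤
      3 * avU (d := d) l y (fun s => (eLL (light T l s) : ℝ)) +
      (√d + 1) * avU (d := d) l y (fun s => ((Ex (light T l s)).card : ℝ)) := by
  obtain ⟨d₀, hd₀⟩ := ISO2_evt CS cL hCS hcL
  refine ⟨d₀, fun d hd l hl1 hl2 hZ y hy1 hy2 => ?_⟩
  obtain ⟨g1, g2, g3⟩ := hd₀ d hd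
  have hdpos : (0 : ℝ) < d := by linarith
  have hl : 0 < l := by
    by_contra hcon
    push Not at hcon
    have : l * d ≤ 0 := mul_nonpos_of_nonpos_of_nonneg hcon hdpos.le
    linarith
  have hup : l ≤ CS * log d / d := by rw [le_div_iff₀ hdpos]; exact hl2
  have hlow : 1 / (d : ℝ) ≤ l := by rw [div_le_iff₀ hdpos]; exact hl1
  have hc1 : 1000 * (cL + 1) * l ≤ 1 :=
    (mul_le_mul_of_nonneg_left hup (by positivity)).trans g3
  have hl3 : l ≤ 1 / 1000 := by nlinarith
  have hcl : cL * l ≤ 1 / 1000 := by nlinarith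
  have hN : (0 : ℝ) < 2 ^ d := by positivity
  have hlN : 1000 ≤ l * 2 ^ d := by
    have h1 : 1 / (d : ℝ) * (1000 * d) ≤ l * 2 ^ d := mul_le_mul hlow g2 (by positivity) hl.le
    have h2 : 1 / (d : ℝ) * (1000 * d) = 1000 := by field_simp
    linarith
  have hZy : Zx d l (1 / 10 * (l / (1 + l)) * 2 ^ d) ≤ Zx d l y := Zx_anti hl hy2
  have hZf : Zf d l ≤ exp (cL * l ^ 2 * 2 ^ d) * Zx d l y := by
    have h1 : exp (cL * l ^ 2 * 2 ^ d) * (exp (-(cL * l ^ 2 * 2 ^ d)) * Zf d l) ≤
        exp (cL * l ^ 2 * 2 ^ d) * Zx d l y :=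
      mul_le_mul_of_nonneg_left (hZ.trans hZy) (exp_pos _).le
    rw [← mul_assoc, ← exp_add, add_neg_cancel, exp_zero, one_mul] at h1
    exact h1
  have hZ0 : 0 ≤ Zx d l y := Zx_nonneg hl y
  have hexp3 : exp (-3) ≤ 1 / 8 := by
    rw [exp_neg, inv_eq_one_div]
    apply one_div_le_one_div_of_le (by norm_num)
    have h8 : (2.7182818283 : ℝ) < exp 1 := exp_one_gt_d9
    have h9 : exp 3 = exp 1 ^ 3 := by rw [← exp_nat_mul]; norm_num
    rw [h9]
    have h10 : (2.7 : ℝ) ^ 3 ≤ exp 1 ^ 3 := pow_le_pow_left₀ (by norm_num) (by linarith) _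
    refine le_trans (by norm_num) h10
  have hZf1 : 1 ≤ Zf d l := by
    unfold Zf
    have h1 := single_le_sum (f := fun s : Finset (V d) => l ^ s.card) (s := Om d)
      (fun s _ => by positivity) empty_mem_Om
    simpa using h1
  -- the three bad events
  have hb : ∀ p : ZMod 2, avU (d := d) l y (fun s => if
      (((Lset s).filter fun v => par v = p).card : ℝ) < 4 / 100 * 2 ^ d then (1 : ℝ) else 0) ≤
      1 / 8 * Zx d l y := by
    intro p
    refine (ISO2_dens hl p hy1).trans ?_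
    have h1 : exp (-(l / (1 + l) * 2 ^ d / 50)) * Zf d l ≤
        exp (-(l / (1 + l) * 2 ^ d / 50)) * (exp (cL * l ^ 2 * 2 ^ d) * Zx d l y) :=
      mul_le_mul_of_nonneg_left hZf (exp_pos _).le
    refine h1.trans ?_
    rw [← mul_assoc, ← exp_add]
    refine mul_le_mul_of_nonneg_right (le_trans (exp_le_exp.2 ?_) hexp3) hZ0
    have h2 : 9 / 10 * l ≤ l / (1 + l) := by
      rw [le_div_iff₀ (by positivity)]
      nlinarith
    have h3 : 9 / 10 * l * 2 ^ d ≤ l / (1 + l) * 2 ^ d := mul_le_mul_of_nonneg_right h2 hN.le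
    have h4 : cL * l ^ 2 * 2 ^ d ≤ 1 / 1000 * (l * 2 ^ d) := by
      have : cL * l ^ 2 * 2 ^ d = cL * l * (l * 2 ^ d) := by ring
      rw [this]
      exact mul_le_mul_of_nonneg_right hcl (by positivity)
    nlinarith
  have hb2 : avU (d := d) l y (fun s => if 5 / 1000 * (2 : ℝ) ^ d < s.card then (1 : ℝ) else 0) ≤
      1 / 8 * Zx d l y := by
    refine (ISO2_card hl).trans ?_
    have h1 : exp (2 ^ d * (3 * l - 5 / 1000)) ≤
        exp (2 ^ d * (3 * l - 5 / 1000)) * (exp (cL * l ^ 2 * 2 ^ d) * Zx d l y) :=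
      le_mul_of_one_le_right (exp_pos _).le (hZf1.trans hZf)
    refine h1.trans ?_
    rw [← mul_assoc, ← exp_add]
    refine mul_le_mul_of_nonneg_right (le_trans (exp_le_exp.2 ?_) hexp3) hZ0
    have h4 : cL * l ^ 2 * 2 ^ d ≤ 1 / 1000 * (l * 2 ^ d) := by
      have : cL * l ^ 2 * 2 ^ d = cL * l * (l * 2 ^ d) := by ring
      rw [this]
      exact mul_le_mul_of_nonneg_right hcl (by positivity)
    have h5 : l * 2 ^ d ≤ 1 / 1000 * 2 ^ d := mul_le_mul_of_nonneg_right hl3 hN.le
    nlinarith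
  have hb3 : avU (d := d) l y (fun s => ((ISO2_A T l s).card : ℝ)) ≤ 2 ^ d * (1 / 1000 * Zx d l y) := by
    have h1 : (fun s : Finset (V d) => ((ISO2_A T l s).card : ℝ)) = fun s => ∑ v : V d,
        if v ∉ s ∧ nOcc s v = 0 ∧ T ≤ l * (Fr s v : ℝ) then (1 : ℝ) else 0 := by
      funext s
      unfold ISO2_A
      rw [card_filter, Nat.cast_sum]
      exact sum_congr rfl fun v _ => by push_cast; rfl
    rw [h1, avU_sum]
    refine (sum_le_sum fun v _ => ISO2_one hl (by linarith) hT v).trans ?_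
    rw [sum_const, card_univ, card_V, nsmul_eq_mul]
    push_cast
    exact le_refl _
  -- pointwise
  have hpt : avU (d := d) l y (fun s => 1 / 50 * 2 ^ d * 1 + (-(1 / 50 * 2 ^ d) *
      (if (((Lset s).filter fun v => par v = 0).card : ℝ) < 4 / 100 * 2 ^ d then (1 : ℝ) else 0) +
      (-(1 / 50 * 2 ^ d) *
      (if (((Lset s).filter fun v => par v = 1).card : ℝ) < 4 / 100 * 2 ^ d then (1 : ℝ) else 0) +
      (-(1 / 50 * 2 ^ d) * (if 5 / 1000 * (2 : ℝ) ^ d < s.card then (1 : ℝ) else 0) +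
      (-2) * ((ISO2_A T l s).card : ℝ))))) ≤
      avU (d := d) l y (fun s => 3 * (eLL (light T l s) : ℝ) +
        (√d + 1) * ((Ex (light T l s)).card : ℝ)) := by
    refine avU_mono hl.le fun s _ => ?_
    have hR : (0 : ℝ) ≤ 3 * (eLL (light T l s) : ℝ) + (√d + 1) * ((Ex (light T l s)).card : ℝ) := by
      positivity
    have hA : (0 : ℝ) ≤ (ISO2_A T l s).card := Nat.cast_nonneg _
    have hx : ∀ P : Prop, (0 : ℝ) ≤ 1 / 50 * 2 ^ d * (if P then (1 : ℝ) else 0) := by
      intro P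
      split_ifs <;> positivity
    have hx0 := hx ((((Lset s).filter fun v => par v = 0).card : ℝ) < 4 / 100 * 2 ^ d)
    have hx1 := hx ((((Lset s).filter fun v => par v = 1).card : ℝ) < 4 / 100 * 2 ^ d)
    have hx2 := hx (5 / 1000 * (2 : ℝ) ^ d < s.card)
    by_cases c0 : (((Lset s).filter fun v => par v = 0).card : ℝ) < 4 / 100 * 2 ^ d
    · rw [if_pos c0]; linarith
    by_cases c1 : (((Lset s).filter fun v => par v = 1).card : ℝ) < 4 / 100 * 2 ^ d
    · rw [if_pos c1]; linarith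
    by_cases c2 : 5 / 1000 * (2 : ℝ) ^ d < s.card
    · rw [if_pos c2]; linarith
    by_cases c3 : ((ISO2_A T l s).card : ℝ) ≤ 1 / 100 * 2 ^ d
    · have := ISO2_good (not_lt.1 c0) (not_lt.1 c1) (not_lt.1 c2) c3
      linarith
    · push Not at c3
      linarith
  simp only [avU_add, avU_mul, avU_one] at hpt
  have hb0 := mul_le_mul_of_nonneg_left (hb 0) (show (0 : ℝ) ≤ 1 / 50 * 2 ^ d by positivity)
  have hb1 := mul_le_mul_of_nonneg_left (hb 1) (show (0 : ℝ) ≤ 1 / 50 * 2 ^ d by positivity)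
  have hb2' := mul_le_mul_of_nonneg_left hb2 (show (0 : ℝ) ≤ 1 / 50 * 2 ^ d by positivity)
  have hNZ : 0 ≤ 2 ^ d * Zx d l y := by positivity
  nlinarith

end Pool.Agent.Lib.MP_c6118e_pr.Win
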