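import Pool.Agent.Lib.MP_c6118e_pr.Win.FR
import Pool.Agent.Lib.MP_c6118e_pr.Win.ISO2
import Pool.Agent.Lib.MP_c6118e_pr.Win.TOOL

/-! # LL edges and FF edges -/

namespace Pool.Agent.Lib.MP_c6118e_pr.Win

open Finset Real
open scoped Classical

variable {d : ℕ}

theorem LLFF_mem_Nbr {w z : V d} : z ∈ Nbr w ↔ ∃ i, z = nb i w := by
  unfold Nbr
  simp

theorem LLFF_par {w z : V d} (h : z ∈ Nbr w) : par z = par w + 1 := by
  obtain ⟨i, rfl⟩ := LLFF_mem_Nbr.1 h
  exact par_nb i w

theorem LLFF_card_inter (s : Finset (V d)) (w : V d) : (s ∩ Nbr w).card ≤ nOcc s w := by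
  unfold nOcc
  have h : s ∩ Nbr w ⊆ (univ.filter fun i : Fin d => nb i w ∈ s).image fun i => nb i w := by
    intro z hz
    rw [mem_inter, LLFF_mem_Nbr] at hz
    obtain ⟨h1, i, h2⟩ := hz
    rw [mem_image]
    exact ⟨i, mem_filter.2 ⟨mem_univ _, h2 ▸ h1⟩, h2.symm⟩
  exact (card_le_card h).trans card_image_le

theorem LLFF_add_one_ne (a : ZMod 2) : a + 1 ≠ a := by
  intro h
  exact one_ne_zero (add_eq_left.mp h)

/-- one parity -/
theorem LLFF_cnt {s : Finset (V d)} {u v : V d} {n : ℕ} (hpar : par v = par u + 1)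
    (h1 : (s ∩ Nbr u).card ≤ n) (h2 : (s ∩ Nbr v).card ≤ n) (p : ZMod 2) :
    cnt p s ≤ cnt p (s \ (s ∩ (Nbr u ∪ Nbr v))) + n := by
  have key : ∀ w w' : V d, par w' = par w + 1 → (s ∩ Nbr w).card ≤ n → p = par w + 1 →
      (∀ z, z ∈ Nbr u ∪ Nbr v → z ∈ Nbr w ∨ z ∈ Nbr w') →
      cnt p s ≤ cnt p (s \ (s ∩ (Nbr u ∪ Nbr v))) + n := by
    intro w w' hw hc hp hz
    unfold cnt
    have h : s.filter (fun v => par v = p) ⊆
        ((s \ (s ∩ (Nbr u ∪ Nbr v))).filter fun v => par v = p) ∪ (s ∩ Nbr w) := by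
      intro z hzs
      rw [mem_filter] at hzs
      by_cases hR : z ∈ Nbr u ∪ Nbr v
      · refine mem_union_right _ (mem_inter.2 ⟨hzs.1, ?_⟩)
        rcases hz z hR with h3 | h3
        · exact h3
        · exfalso
          have h4 := LLFF_par h3
          rw [hzs.2, hp, hw] at h4
          exact LLFF_add_one_ne _ h4.symm
      · refine mem_union_left _ (mem_filter.2 ⟨mem_sdiff.2 ⟨hzs.1, fun h => ?_⟩, hzs.2⟩)
        exact hR (mem_inter.1 h).2
    exact (card_le_card h).trans ((card_union_le _ _).trans (Nat.add_le_add_left hc _))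
  have hvu : par u = par v + 1 := by rw [hpar, add_assoc, zmod2_add_self, add_zero]
  by_cases hp : p = par u
  · exact key v u hvu h2 (by rw [hp, hvu]) fun z hz => (mem_union.1 hz).symm
  · refine key u v hpar h1 ?_ fun z hz => mem_union.1 hz
    rcases zmod2_cases p with h3 | h3 <;> rcases zmod2_cases (par u) with h4 | h4
    · exact absurd (h3.trans h4.symm) hp
    · rw [h3, h4]; decide
    · rw [h3, h4]; decide
    · exact absurd (h3.trans h4.symm) hp

/-- the two ends keep small `Fr` -/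
theorem LLFF_Fr {s : Finset (V d)} {u v : V d} {n : ℕ}
    (h2 : (s ∩ Nbr v).card ≤ n) :
    Fr (s \ (s ∩ (Nbr u ∪ Nbr v))) u ≤ Fr s u + 2 * n := by
  have e1 : Fr (s \ (s ∩ (Nbr u ∪ Nbr v))) u = Fr (s \ (s ∩ Nbr v)) u := by
    apply Fr_congr
    intro z hz
    rw [mem_sdiff, mem_sdiff, mem_inter, mem_inter, mem_union]
    constructor
    · rintro ⟨h3, h4⟩
      exact ⟨h3, fun h => h4 ⟨h3, Or.inr h.2⟩⟩
    · rintro ⟨h3, h4⟩
      refine ⟨h3, fun h => ?_⟩
      rcases h.2 with h5 | h5
      · have h6 := LLFF_par h5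
        rw [hz] at h6
        exact LLFF_add_one_ne _ h6.symm
      · exact h4 ⟨h3, h5⟩
  rw [e1]
  have e2 := Fr_sdiff_le s (s ∩ Nbr v) u
  omega

/-- the fibre -/
theorem LLFF_fib {l c : ℝ} (hl : 0 < l) (s : Finset (V d)) (u v : V d)
    (hu : l * (Fr s u : ℝ) < c) (hv : l * (Fr s v : ℝ) < c) :
    ∑ B ∈ ((Fset s u).image (fun j => nb j u) ∪ (Fset s v).image (fun j => nb j v)).powerset,
      l ^ B.card ≤ exp (2 * c) := by
  rw [sum_pow_card]
  have e1 : ((Fset s u).image (fun j => nb j u) ∪ (Fset s v).image (fun j => nb j v)).card ≤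
      Fr s u + Fr s v :=
    (card_union_le _ _).trans (Nat.add_le_add card_image_le card_image_le)
  calc (1 + l) ^ ((Fset s u).image (fun j => nb j u) ∪ (Fset s v).image (fun j => nb j v)).card
      ≤ (1 + l) ^ (Fr s u + Fr s v) := pow_le_pow_right₀ (by linarith) e1
    _ ≤ (exp l) ^ (Fr s u + Fr s v) :=
        pow_le_pow_left₀ (by linarith) (by linarith [Real.add_one_le_exp l]) _
    _ = exp (l * (Fr s u : ℝ) + l * (Fr s v : ℝ)) := by
        rw [← Real.exp_nat_mul]
        congr 1
        push_cast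
        ring
    _ ≤ exp (2 * c) := Real.exp_le_exp.2 (by linarith)

/-- one edge -/
theorem LLFF_one {l T c : ℝ} (hl : 0 < l) (y : ℝ) (n : ℕ) (hc : T + 2 * l * n ≤ c)
    (u : V d) (i : Fin d) :
    avU l y (fun s => if (l * (Fr s u : ℝ) < T ∧ l * (Fr s (nb i u) : ℝ) < T) ∧
      (nOcc s u ≤ n ∧ nOcc s (nb i u) ≤ n) then (1 : ℝ) else 0) ≤
      exp (2 * c) * avU (d := d) l (y - n) (fun s => if FFp l c s u i then 1 else 0) := by
  have hpar : par (nb i u) = par u + 1 := par_nb i u
  have h1 := removal (d := d) (l := l) (x := y) hl.le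
    (f := fun s => if (l * (Fr s u : ℝ) < T ∧ l * (Fr s (nb i u) : ℝ) < T) ∧
      (nOcc s u ≤ n ∧ nOcc s (nb i u) ≤ n) then (1 : ℝ) else 0)
    (g := fun s => if FFp l c s u i then (1 : ℝ) else 0)
    (fun s => s ∩ (Nbr u ∪ Nbr (nb i u)))
    (fun s => ((Fset s u).image (fun j => nb j u) ∪
      (Fset s (nb i u)).image (fun j => nb j (nb i u))).powerset)
    n (fun s _ => by
      change (0 : ℝ) ≤ if _ then _ else _
      split_ifs
      · exact zero_le_one
      · exact le_refl _) (by
      intro s hs hfs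
      have hcond : (l * (Fr s u : ℝ) < T ∧ l * (Fr s (nb i u) : ℝ) < T) ∧
          (nOcc s u ≤ n ∧ nOcc s (nb i u) ≤ n) := by
        by_contra hcon
        exact hfs (if_neg hcon)
      have hfone : (if (l * (Fr s u : ℝ) < T ∧ l * (Fr s (nb i u) : ℝ) < T) ∧
          (nOcc s u ≤ n ∧ nOcc s (nb i u) ≤ n) then (1 : ℝ) else 0) = 1 := if_pos hcond
      obtain ⟨⟨hFu, hFv⟩, hnu, hnv⟩ := hcond
      have hInd : Ind s := mem_Om.1 (Bx_sub_Om _ hs)
      have hcu : (s ∩ Nbr u).card ≤ n := (LLFF_card_inter s u).trans hnu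
      have hcv : (s ∩ Nbr (nb i u)).card ≤ n := (LLFF_card_inter s (nb i u)).trans hnv
      refine ⟨inter_subset_left, ?_, ?_, ?_⟩
      · have h2 : s \ (s ∩ (Nbr u ∪ Nbr (nb i u))) ∈ Om d := by
          rw [mem_Om]
          exact Ind.mono hInd sdiff_subset
        exact mem_Bx_of hs h2 (LLFF_cnt hpar hcu hcv 0) (LLFF_cnt hpar hcu hcv 1)
      · rw [mem_powerset]
        intro z hz
        rw [mem_inter, mem_union, LLFF_mem_Nbr, LLFF_mem_Nbr] at hz
        have hmem : ∀ w : V d, ∀ j : Fin d, z = nb j w →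
            j ∈ Fset (s \ (s ∩ (Nbr u ∪ Nbr (nb i u)))) w := by
          intro w j hzj
          unfold Fset
          rw [mem_filter]
          refine ⟨mem_univ _, fun j' _ hj' => ?_⟩
          rw [← hzj] at hj'
          exact hInd z hz.1 j' (mem_sdiff.1 hj').1
        rcases hz.2 with ⟨j, hj⟩ | ⟨j, hj⟩
        · exact mem_union_left _ (mem_image.2 ⟨j, hmem u j hj, hj.symm⟩)
        · exact mem_union_right _ (mem_image.2 ⟨j, hmem (nb i u) j hj, hj.symm⟩)
      · change (if (l * (Fr s u : ℝ) < T ∧ l * (Fr s (nb i u) : ℝ) < T) ∧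
          (nOcc s u ≤ n ∧ nOcc s (nb i u) ≤ n) then (1 : ℝ) else 0) ≤ if _ then _ else _
        rw [hfone]
        have hb : ∀ w : V d, (Fr (s \ (s ∩ (Nbr u ∪ Nbr (nb i u)))) w ≤ Fr s w + 2 * n) →
            l * (Fr s w : ℝ) < T →
            l * (Fr (s \ (s ∩ (Nbr u ∪ Nbr (nb i u)))) w : ℝ) < c := by
          intro w hw hT
          have e3 : (Fr (s \ (s ∩ (Nbr u ∪ Nbr (nb i u)))) w : ℝ) ≤ Fr s w + 2 * n := by
            exact_mod_cast hw
          have e4 : l * (Fr (s \ (s ∩ (Nbr u ∪ Nbr (nb i u)))) w : ℝ) ≤ l * (Fr s w + 2 * n) :=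
            mul_le_mul_of_nonneg_left e3 hl.le
          have e5 : l * ((Fr s w : ℝ) + 2 * n) = l * (Fr s w : ℝ) + 2 * l * n := by ring
          linarith
        have hz : ∀ w : V d, Nbr w ⊆ Nbr u ∪ Nbr (nb i u) →
            nOcc (s \ (s ∩ (Nbr u ∪ Nbr (nb i u)))) w = 0 := by
          intro w hw
          rw [nOcc_eq_zero]
          intro j hj
          rw [mem_sdiff] at hj
          apply hj.2
          rw [mem_inter]
          exact ⟨hj.1, hw (LLFF_mem_Nbr.2 ⟨j, rfl⟩)⟩
        have hFF : FFp l c (s \ (s ∩ (Nbr u ∪ Nbr (nb i u)))) u i := by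
          refine ⟨hz u subset_union_left, hz (nb i u) subset_union_right,
            hb u (LLFF_Fr hcv) hFu, hb (nb i u) ?_ hFv⟩
          have e6 := LLFF_Fr (s := s) (u := nb i u) (v := u) (n := n) hcu
          rw [union_comm (Nbr (nb i u)) (Nbr u)] at e6
          exact e6
        rw [if_pos hFF])
  refine h1.trans ?_
  rw [← avU_mul]
  refine avU_mono hl.le fun s _ => ?_
  by_cases h : FFp l c s u i
  · change (if FFp l c s u i then (1 : ℝ) else 0) * _ ≤ exp (2 * c) * if FFp l c s u i then 1 else 0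
    rw [if_pos h, one_mul, mul_one]
    exact LLFF_fib hl s u (nb i u) h.2.2.1 h.2.2.2
  · change (if FFp l c s u i then (1 : ℝ) else 0) * _ ≤ exp (2 * c) * if FFp l c s u i then 1 else 0
    rw [if_neg h, zero_mul, mul_zero]

/-- pointwise decomposition -/
theorem LLFF_pt (l T : ℝ) (n : ℕ) (s : Finset (V d)) :
    (eLL (light T l s) : ℝ) ≤
      (∑ u : V d, ∑ i : Fin d, if (l * (Fr s u : ℝ) < T ∧ l * (Fr s (nb i u) : ℝ) < T) ∧
        (nOcc s u ≤ n ∧ nOcc s (nb i u) ≤ n) then (1 : ℝ) else 0) +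
      d * ∑ v : V d, if n < nOcc s v then (1 : ℝ) else 0 := by
  set b : V d → Fin d → ℝ := fun u i =>
    if (l * (Fr s u : ℝ) < T ∧ l * (Fr s (nb i u) : ℝ) < T) ∧
        (nOcc s u ≤ n ∧ nOcc s (nb i u) ≤ n) then (1 : ℝ) else 0 with hb
  set e : V d → ℝ := fun v => if n < nOcc s v then (1 : ℝ) else 0 with he
  have hb0 : ∀ u i, 0 ≤ b u i := by
    intro u i
    rw [hb]
    simp only
    split_ifs
    · exact zero_le_one
    · exact le_refl _
  have he0 : ∀ v, 0 ≤ e v := by
    intro v
    rw [he]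
    simp only
    split_ifs
    · exact zero_le_one
    · exact le_refl _
  have h1 : (eLL (light T l s) : ℝ) = ∑ u ∈ univ.filter (fun u : V d => par u = 0),
      ∑ i : Fin d, if u ∈ light T l s ∧ nb i u ∈ light T l s then (1 : ℝ) else 0 := by
    unfold eLL
    push_cast
    have h2 : ∀ u ∈ univ.filter (fun u : V d => par u = 0), u ∉ (light T l s).filter
        (fun v => par v = 0) → (∑ i : Fin d,
        if u ∈ light T l s ∧ nb i u ∈ light T l s then (1 : ℝ) else 0) = 0 := by
      intro u hu hu'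
      refine sum_eq_zero fun i _ => if_neg fun h => hu' ?_
      exact mem_filter.2 ⟨h.1, (mem_filter.1 hu).2⟩
    rw [← sum_subset (filter_subset_filter _ (subset_univ _)) h2]
    refine sum_congr rfl fun u hu => ?_
    rw [mem_filter] at hu
    rw [card_filter]
    push_cast
    refine sum_congr rfl fun i _ => ?_
    simp only [hu.1, true_and]
  have h3 : ∀ u : V d, ∀ i : Fin d,
      (if u ∈ light T l s ∧ nb i u ∈ light T l s then (1 : ℝ) else 0) ≤
        b u i + (e u + e (nb i u)) := by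
    intro u i
    by_cases hL : u ∈ light T l s ∧ nb i u ∈ light T l s
    · rw [if_pos hL]
      have hL' : l * (Fr s u : ℝ) < T ∧ l * (Fr s (nb i u) : ℝ) < T := by
        unfold light at hL
        rw [mem_filter, mem_filter] at hL
        exact ⟨hL.1.2, hL.2.2⟩
      by_cases h4 : n < nOcc s u
      · have : e u = 1 := if_pos h4
        have h5 := hb0 u i
        have h6 := he0 (nb i u)
        linarith
      · by_cases h5 : n < nOcc s (nb i u)
        · have : e (nb i u) = 1 := if_pos h5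
          have h6 := hb0 u i
          have h7 := he0 u
          linarith
        · have : b u i = 1 := if_pos ⟨hL', not_lt.1 h4, not_lt.1 h5⟩
          have h6 := he0 (nb i u)
          have h7 := he0 u
          linarith
    · rw [if_neg hL]
      have h5 := hb0 u i
      have h6 := he0 (nb i u)
      have h7 := he0 u
      linarith
  rw [h1]
  refine (sum_le_sum fun u _ => sum_le_sum fun i _ => h3 u i).trans ?_
  have h4 : ∑ u ∈ univ.filter (fun u : V d => par u = 0), ∑ i : Fin d,
      (b u i + (e u + e (nb i u))) =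
      (∑ u ∈ univ.filter (fun u : V d => par u = 0), ∑ i : Fin d, b u i) +
      (∑ u ∈ univ.filter (fun u : V d => par u = 0), ∑ i : Fin d, (e u + e (nb i u))) := by
    rw [← sum_add_distrib]
    exact sum_congr rfl fun u _ => by rw [sum_add_distrib]
  rw [h4]
  refine add_le_add ?_ ?_
  · exact sum_le_sum_of_subset_of_nonneg (subset_univ _) fun u _ _ =>
      sum_nonneg fun i _ => hb0 u i
  · have h5 : ∑ u ∈ univ.filter (fun u : V d => par u = 0), ∑ i : Fin d, (e u + e (nb i u)) =
        ∑ i : Fin d, ((∑ u ∈ univ.filter (fun u : V d => par u = 0), e u) +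
          ∑ u ∈ univ.filter (fun u : V d => par u = 0), e (nb i u)) := by
      rw [sum_comm]
      exact sum_congr rfl fun i _ => by rw [sum_add_distrib]
    have h6 : ∀ i : Fin d, ∑ u ∈ univ.filter (fun u : V d => par u = 0), e (nb i u) =
        ∑ u ∈ univ.filter (fun u : V d => ¬ par u = 0), e u := by
      intro i
      apply sum_bij' (fun u _ => nb i u) (fun u _ => nb i u)
      · intro u hu
        rw [mem_filter] at hu ⊢
        refine ⟨mem_univ _, ?_⟩
        rw [par_nb, hu.2]
        decide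
      · intro u hu
        rw [mem_filter] at hu ⊢
        refine ⟨mem_univ _, ?_⟩
        rw [par_nb]
        rcases zmod2_cases (par u) with h | h
        · exact absurd h hu.2
        · rw [h]; decide
      · intro u _; exact nb_nb i u
      · intro u _; exact nb_nb i u
      · intro u _; rfl
    rw [h5]
    simp only [h6, sum_filter_add_sum_filter_not]
    rw [sum_const, card_univ, Fintype.card_fin, nsmul_eq_mul]

/-- removing the particles around both ends of a light edge -/
theorem llff {l T c : ℝ} (hl : 0 < l) (y : ℝ) (n : ℕ) (hc : T + 2 * l * n ≤ c) :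
    avU (d := d) l y (fun s => (eLL (light T l s) : ℝ)) ≤
      exp (2 * c) * avU (d := d) l (y - n) (fun s => (FFn l c s : ℝ)) +
      d * ∑ v : V d, avU l y (fun s => if n < nOcc s v then (1 : ℝ) else 0) := by
  refine (avU_mono hl.le fun s _ => LLFF_pt l T n s).trans ?_
  rw [avU_add]
  refine add_le_add ?_ ?_
  · have h2 : (fun s : Finset (V d) => (FFn l c s : ℝ)) = fun s => ∑ u : V d, ∑ i : Fin d,
        if FFp l c s u i then (1 : ℝ) else 0 := by
      funext s
      unfold FFn
      rw [card_filter, Nat.cast_sum, Fintype.sum_prod_type]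
      refine sum_congr rfl fun k _ => sum_congr rfl fun q _ => ?_
      push_cast
      rfl
    rw [h2, avU_sum, avU_sum, mul_sum]
    refine sum_le_sum fun u _ => ?_
    rw [avU_sum, avU_sum, mul_sum]
    exact sum_le_sum fun i _ => LLFF_one hl y n hc u i
  · rw [avU_mul, avU_sum]

end Pool.Agent.Lib.MP_c6118e_pr.Win
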