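import Pool.Agent.Lib.MP_c6118e_pr.Win.FR

/-! # MAX: the maximiser -/

namespace Pool.Agent.Lib.MP_c6118e_pr.Win

open Finset Real
open scoped Classical

variable {d : ℕ}

theorem MAXI_FFp_mono {l c c' : ℝ} (h : c ≤ c') {s : Finset (V d)} {u : V d} {i : Fin d}
    (hF : FFp l c s u i) : FFp l c' s u i :=
  ⟨hF.1, hF.2.1, hF.2.2.1.trans_le h, hF.2.2.2.trans_le h⟩

theorem MAXI_Rp_anti {l r r' : ℝ} (h : r' ≤ r) {s : Finset (V d)} {v : V d}
    (hF : Rp l r s v) : Rp l r' s v := by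
  refine ⟨h.trans hF.1, hF.2.trans ?_⟩
  refine Nat.mul_le_mul_left 4 (card_le_card ?_)
  intro i hi
  rw [mem_filter] at hi ⊢
  exact ⟨hi.1, h.trans hi.2⟩

theorem MAXI_FFn_mono {l c c' : ℝ} (h : c ≤ c') (s : Finset (V d)) :
    (FFn l c s : ℝ) ≤ FFn l c' s := by
  have : FFn l c s ≤ FFn l c' s := by
    unfold FFn
    refine card_le_card ?_
    intro q hq
    rw [mem_filter] at hq ⊢
    exact ⟨hq.1, MAXI_FFp_mono h hq.2⟩
  exact_mod_cast this

theorem MAXI_Rw_mono {l e r r' : ℝ} (h : r' ≤ r) (s : Finset (V d)) :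
    Rw l e r s ≤ Rw l e r' s := by
  unfold Rw
  refine sum_le_sum_of_subset_of_nonneg ?_ fun _ _ _ => (exp_pos _).le
  intro v hv
  rw [mem_filter] at hv ⊢
  exact ⟨hv.1, MAXI_Rp_anti h hv.2⟩

theorem Psi_mono {Lam e1 e0 C4 l x c c' : ℝ} (hl : 0 < l) (hLam : 0 ≤ Lam) (h : c ≤ c') :
    Psi Lam e1 e0 C4 d l c x ≤ Psi Lam e1 e0 C4 d l c' x := by
  unfold Psi
  have h1 : avU (d := d) l x (fun s => (FFn l c s : ℝ)) ≤
      avU (d := d) l x (fun s => (FFn l c' s : ℝ)) :=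
    avU_mono hl.le fun s _ => MAXI_FFn_mono h s
  have h2 : avU (d := d) l x (fun s => Rw l e1 (2 * C4 + 3 - c) s) ≤
      avU (d := d) l x (fun s => Rw l e1 (2 * C4 + 3 - c') s) :=
    avU_mono hl.le fun s _ => MAXI_Rw_mono (by linarith) s
  have h3 : Lam * l * avU (d := d) l x (fun s => (FFn l c s : ℝ)) ≤
      Lam * l * avU (d := d) l x (fun s => (FFn l c' s : ℝ)) :=
    mul_le_mul_of_nonneg_left h1 (by positivity)
  linarith

theorem MAXI_Psi_ge {Lam e1 e0 C4 l x c : ℝ} (hl : 0 < l) (hLam : 0 ≤ Lam) :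
    e0 * l * 2 ^ d * Zx d l x ≤ Psi Lam e1 e0 C4 d l c x := by
  unfold Psi
  have h1 : 0 ≤ avU (d := d) l x (fun s => (FFn l c s : ℝ)) :=
    avU_nonneg hl.le fun s _ => Nat.cast_nonneg _
  have h2 : 0 ≤ avU (d := d) l x (fun s => Rw l e1 (2 * C4 + 3 - c) s) :=
    avU_nonneg hl.le fun s _ => by
      unfold Rw
      exact sum_nonneg fun _ _ => (exp_pos _).le
  have h3 : 0 ≤ Lam * l * avU (d := d) l x (fun s => (FFn l c s : ℝ)) := by positivity
  linarith

theorem MAXI_Psi_le {Lam e1 e0 C4 l x c : ℝ} (hl : 0 < l) (hLam : 0 ≤ Lam) (he1 : 0 ≤ e1) :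
    Psi Lam e1 e0 C4 d l c x ≤ (Lam * l * d + 1 + e0 * l) * (2 ^ d * Zx d l x) := by
  unfold Psi
  have h1 : avU (d := d) l x (fun s => (FFn l c s : ℝ)) ≤ (2 ^ d * d) * Zx d l x := by
    rw [← avU_one, ← avU_mul]
    refine avU_mono hl.le fun s _ => ?_
    rw [mul_one]
    have : FFn l c s ≤ 2 ^ d * d := by
      unfold FFn
      refine (card_le_univ _).trans ?_
      rw [Fintype.card_prod, card_V, Fintype.card_fin]
    exact_mod_cast this
  have h2 : avU (d := d) l x (fun s => Rw l e1 (2 * C4 + 3 - c) s) ≤ 2 ^ d * Zx d l x := by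
    rw [← avU_one, ← avU_mul]
    refine avU_mono hl.le fun s _ => ?_
    rw [mul_one]
    unfold Rw
    have h3 : ∀ v ∈ univ.filter (Rp l (2 * C4 + 3 - c) s),
        exp (-(e1 * (l * (Fr s v : ℝ)))) ≤ 1 := by
      intro v _
      rw [exp_le_one_iff]
      have : 0 ≤ e1 * (l * (Fr s v : ℝ)) := by positivity
      linarith
    refine (sum_le_sum h3).trans ?_
    rw [sum_const, nsmul_eq_mul, mul_one]
    have : (univ.filter (Rp l (2 * C4 + 3 - c) s)).card ≤ 2 ^ d :=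
      (card_le_univ _).trans (by rw [card_V])
    exact_mod_cast this
  have h3 : Lam * l * avU (d := d) l x (fun s => (FFn l c s : ℝ)) ≤
      Lam * l * ((2 ^ d * d) * Zx d l x) :=
    mul_le_mul_of_nonneg_left h1 (by positivity)
  calc _ ≤ Lam * l * ((2 ^ d * d) * Zx d l x) + 2 ^ d * Zx d l x + e0 * l * 2 ^ d * Zx d l x := by
        linarith
    _ = _ := by ring

/-- the conditions on `d` -/
theorem MAXI_evt (CS Lam e0 cL : ℝ) (hCS : 0 < CS) (hcL : 0 < cL) :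
    ∃ d₀ : ℕ, ∀ d ≥ d₀, 3 * Lam / e0 + 3 / e0 + 2 ≤ (d : ℝ) ∧
      100000 * (d : ℝ) ^ 4 ≤ 2 ^ d ∧ 1200 ≤ log d ∧
      1000 * (cL + 1) * (2 * CS) * (log d ^ 3 / d) ≤ 4 / 1000 := by
  have h1 : ∀ᶠ d : ℕ in Filter.atTop, 3 * Lam / e0 + 3 / e0 + 2 ≤ (d : ℝ) :=
    tendsto_natCast_atTop_atTop.eventually_ge_atTop _
  have h2 : ∀ᶠ d : ℕ in Filter.atTop, (d : ℝ) ^ 4 / 2 ^ d < 1 / 100000 :=
    (tendsto_pow_const_div_const_pow_of_one_lt 4 (one_lt_two (α := ℝ))).eventually_lt_const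
      (by norm_num)
  have h3 : ∀ᶠ d : ℕ in Filter.atTop, 1200 ≤ log d :=
    (tendsto_log_atTop.comp tendsto_natCast_atTop_atTop).eventually_ge_atTop _
  have h4 : ∀ᶠ d : ℕ in Filter.atTop, log (d : ℝ) ^ 3 / (1 * (d : ℝ) + 0) <
      4 / 1000 / (1000 * (cL + 1) * (2 * CS)) :=
    ((tendsto_pow_log_div_mul_add_atTop 1 0 3 one_ne_zero).comp
      tendsto_natCast_atTop_atTop).eventually_lt_const (by positivity)
  obtain ⟨d₀, h⟩ := Filter.eventually_atTop.1 (h1.and (h2.and (h3.and h4)))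
  refine ⟨d₀, fun d hd => ?_⟩
  obtain ⟨e1, e2, e3, e4⟩ := h d hd
  refine ⟨e1, ?_, e3, ?_⟩
  · rw [div_lt_div_iff₀ (by positivity) (by norm_num)] at e2
    linarith
  · rw [one_mul, add_zero, lt_div_iff₀ (by positivity)] at e4
    linarith

/-- choice of the level `c` and the magnetisation `x` -/
theorem maxi (CS Lam e1 e0 C4 cL : ℝ) (hCS : 0 < CS) (hLam : 1 ≤ Lam) (he1 : 0 ≤ e1)
    (he0 : 0 < e0) (he0' : e0 ≤ 1) (hcL : 0 < cL) :
    ∃ d₀ : ℕ, ∀ d ≥ d₀, ∀ l : ℝ, 1 ≤ l * d → l * d ≤ CS * log d →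
    exp (-(cL * l ^ 2 * 2 ^ d)) * Zf d l ≤ Zx d l (1 / 10 * (l / (1 + l)) * 2 ^ d) →
    ∃ c x : ℝ, C4 + 2 ≤ c ∧ c ≤ C4 + 3 ∧ 91 / 1000 * (l / (1 + l)) * 2 ^ d ≤ x ∧
      x ≤ 1 / 10 * (l / (1 + l)) * 2 ^ d ∧ 0 < Psi Lam e1 e0 C4 d l c x ∧
      Psi Lam e1 e0 C4 d l (c + 1 / nn d) (x - nn d) ≤ 51 / 50 * Psi Lam e1 e0 C4 d l c x ∧
      ∀ a : ℕ, a ≤ 2 * d ^ 2 → 2 ^ d * Zx d l (x - a) ≤
        2 / (e0 * l) * exp (1000 * (cL + 1) * l * a) * Psi Lam e1 e0 C4 d l c x := by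
  obtain ⟨d₀, hd₀⟩ := MAXI_evt CS Lam e0 cL hCS hcL
  refine ⟨d₀, fun d hd l hl1 hl2 hZ => ?_⟩
  obtain ⟨g1, g2, g3, g4⟩ := hd₀ d hd
  -- basic facts
  have hlog : 0 < log (d : ℝ) := by linarith
  have hd2 : (2 : ℝ) ≤ d := by
    have e1 : 0 ≤ 3 * Lam / e0 := by positivity
    have e2 : 0 ≤ 3 / e0 := by positivity
    linarith
  have hdpos : (0 : ℝ) < d := by linarith
  have hl : 0 < l := by
    by_contra hcon
    push Not at hcon
    have : l * d ≤ 0 := mul_nonpos_of_nonpos_of_nonneg hcon hdpos.le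
    linarith
  have hlogd : log (d : ℝ) ≤ d := (log_le_sub_one_of_pos hdpos).trans (by linarith)
  have hlow : 1 / (d : ℝ) ≤ l := by rw [div_le_iff₀ hdpos]; exact hl1
  have hup : l ≤ CS * log d / d := by rw [le_div_iff₀ hdpos]; exact hl2
  have hlog3 : log (d : ℝ) ≤ log d ^ 3 := le_self_pow₀ (by linarith) (by norm_num)
  have hl4 : l ≤ 1 / 4 := by
    have h1 : CS * log d / d ≤ CS * (log d ^ 3 / d) := by
      rw [mul_div_assoc]
      gcongr
    have h2 : 0 ≤ CS * (log (d : ℝ) ^ 3 / d) := by positivity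
    have h3 : 2000 * (CS * (log (d : ℝ) ^ 3 / d)) ≤
        1000 * (cL + 1) * (2 * CS) * (log d ^ 3 / d) := by
      linarith [mul_nonneg hcL.le h2]
    linarith
  have hnn1 : log (d : ℝ) ^ 2 ≤ nn d := Nat.le_ceil _
  have hnn2 : (nn d : ℝ) ≤ 2 * log d ^ 2 := by
    have h1 : (nn d : ℝ) < log d ^ 2 + 1 := Nat.ceil_lt_add_one (by positivity)
    have h2 : (1 : ℝ) ≤ log (d : ℝ) ^ 2 := one_le_pow₀ (by linarith)
    linarith
  have hnnpos : (0 : ℝ) < nn d := lt_of_lt_of_le (by positivity) hnn1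
  have h2d : (0 : ℝ) < 2 ^ d := by positivity
  obtain ⟨C3, hC3⟩ : ∃ C3 : ℝ, C3 = 1000 * (cL + 1) := ⟨_, rfl⟩
  have hC3pos : 0 < C3 := by rw [hC3]; positivity
  obtain ⟨p, hp⟩ : ∃ p : ℝ, p = l / (1 + l) := ⟨_, rfl⟩
  have hp1 : 4 / 5 * l ≤ p := by
    rw [hp, le_div_iff₀ (by positivity)]
    have h := mul_le_mul_of_nonneg_left (show 1 + l ≤ 5 / 4 by linarith)
      (show 0 ≤ 4 / 5 * l by positivity)
    linarith
  obtain ⟨X0, hX0⟩ : ∃ X0 : ℝ, X0 = 1 / 10 * (l / (1 + l)) * 2 ^ d := ⟨_, rfl⟩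
  have hZfpos := Zf_pos (d := d) hl
  have hZX0 : 0 < Zx d l X0 := by
    rw [hX0]
    exact lt_of_lt_of_le (by positivity) hZ
  have hZpos : ∀ j : ℕ, 0 < Zx d l (X0 - j) := fun j =>
    hZX0.trans_le (Zx_anti hl (by have : (0 : ℝ) ≤ j := Nat.cast_nonneg j; linarith))
  have hLam0 : 0 ≤ Lam := by linarith
  have hPpos : ∀ (c : ℝ) (j : ℕ), 0 < Psi Lam e1 e0 C4 d l c (X0 - j) := fun c j =>
    lt_of_lt_of_le (by have := hZpos j; positivity) (MAXI_Psi_ge hl hLam0)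
  have hcoef : Lam * l * d + 1 + e0 * l ≤ (d : ℝ) ^ 2 * (e0 * l) := by
    have h1 : 3 * Lam ≤ e0 * d := by
      have : 3 * Lam / e0 ≤ d := by
        have e2 : 0 ≤ 3 / e0 := by positivity
        linarith
      rw [div_le_iff₀ he0] at this
      linarith
    have h2 : 3 ≤ e0 * d := by
      have : 3 / e0 ≤ d := by
        have e2 : 0 ≤ 3 * Lam / e0 := by positivity
        linarith
      rw [div_le_iff₀ he0] at this
      linarith
    have h3 : 3 * (Lam * l * d) ≤ (d : ℝ) ^ 2 * (e0 * l) := by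
      have := mul_le_mul_of_nonneg_right h1 (by positivity : 0 ≤ l * (d : ℝ))
      linarith
    have h4 : 3 * 1 ≤ (d : ℝ) ^ 2 * (e0 * l) := by
      have := mul_le_mul h2 hl1 (by norm_num) (by positivity)
      linarith
    have h5 : 3 * (e0 * l) ≤ (d : ℝ) ^ 2 * (e0 * l) := by
      refine mul_le_mul_of_nonneg_right ?_ (by positivity)
      have := pow_le_pow_left₀ (by norm_num) hd2 2
      linarith
    linarith
  have hPle : ∀ (c : ℝ) (x : ℝ), Psi Lam e1 e0 C4 d l c x ≤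
      (d : ℝ) ^ 2 * (e0 * l) * (2 ^ d * Zx d l x) := fun c x =>
    (MAXI_Psi_le hl hLam0 he1).trans (mul_le_mul_of_nonneg_right hcoef
      (mul_nonneg h2d.le (Zx_nonneg hl x)))
  have hdexp : (d : ℝ) ^ 2 = exp (2 * log d) := by
    rw [mul_comm, exp_mul, exp_log hdpos]
    norm_num
  -- the maximum
  obtain ⟨J, hJ⟩ : ∃ J : ℕ, J = ⌊p * 2 ^ d / 200⌋₊ := ⟨_, rfl⟩
  have hJ1 : (J : ℝ) ≤ p * 2 ^ d / 200 := by
    rw [hJ]
    exact Nat.floor_le (by have : 0 ≤ p := by linarith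
                           positivity)
  have hJ2 : p * 2 ^ d / 200 < J + 1 := by
    rw [hJ]
    exact Nat.lt_floor_add_one _
  have hl2d : 100000 * (d : ℝ) ^ 3 ≤ l * 2 ^ d := by
    have h1 : 1 / (d : ℝ) * (100000 * (d : ℝ) ^ 4) ≤ l * 2 ^ d :=
      mul_le_mul hlow g2 (by positivity) hl.le
    have h2 : 1 / (d : ℝ) * (100000 * (d : ℝ) ^ 4) = 100000 * (d : ℝ) ^ 3 := by
      field_simp
    linarith
  have hJ3 : 4 * d ^ 2 ≤ J := by
    have h1 : (4 : ℝ) * d ^ 2 ≤ J := by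
      have h3 : 4 / 5 * (l * 2 ^ d) ≤ p * 2 ^ d := by
        have := mul_le_mul_of_nonneg_right hp1 h2d.le
        linarith
      have h4 := pow_le_pow_left₀ (by norm_num) hd2 2
      have h5 : 2 * (d : ℝ) ^ 2 ≤ (d : ℝ) ^ 3 := by
        have := mul_le_mul_of_nonneg_right hd2 (sq_nonneg (d : ℝ))
        linarith
      linarith
    exact_mod_cast h1
  obtain ⟨W, hW⟩ : ∃ W : ℕ × ℕ → ℝ, W = fun q =>
      Psi Lam e1 e0 C4 d l (C4 + 2 + q.1 / nn d) (X0 - q.2) *
        exp (-(C3 * l * q.2 + 10 * log d * (q.1 / nn d))) := ⟨_, rfl⟩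
  obtain ⟨q, hq, hmax⟩ := exists_max_image (range (nn d + 1) ×ˢ range (J + 1)) W
    ⟨(0, 0), by simp⟩
  rw [mem_product, mem_range, mem_range] at hq
  have hW0 : ∀ i j : ℕ, W (i, j) = Psi Lam e1 e0 C4 d l (C4 + 2 + i / nn d) (X0 - j) *
      exp (-(C3 * l * j + 10 * log d * (i / nn d))) := fun i j => by rw [hW]
  have hWge : ∀ j : ℕ, e0 * l * 2 ^ d * Zx d l (X0 - j) * exp (-(C3 * l * j)) ≤ W (0, j) := by
    intro j
    rw [hW0]
    have h1 := MAXI_Psi_ge (d := d) (Lam := Lam) (e1 := e1) (e0 := e0) (C4 := C4)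
      (x := X0 - j) (c := C4 + 2 + ((0 : ℕ) : ℝ) / nn d) hl hLam0
    have h2 : (-(C3 * l * j + 10 * log d * (((0 : ℕ) : ℝ) / nn d))) = -(C3 * l * j) := by
      simp
    rw [h2]
    exact mul_le_mul_of_nonneg_right h1 (exp_pos _).le
  obtain ⟨i, j⟩ := q
  simp only at hq
  have hWq : W (i, j) ≤ (d : ℝ) ^ 2 * (e0 * l) * (2 ^ d * Zx d l (X0 - j)) *
      exp (-(C3 * l * j + 10 * log d * (i / nn d))) := by
    rw [hW0]
    exact mul_le_mul_of_nonneg_right (hPle _ _) (exp_pos _).le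
  -- (a)
  have hj : 2 * j ≤ J := by
    by_contra hcon
    push Not at hcon
    have hj1 : (J : ℝ) < 2 * j := by exact_mod_cast hcon
    have h1 := hmax (0, 0) (by simp)
    have h2 := (hWge 0).trans (h1.trans hWq)
    have h3 : Zx d l (X0 - j) ≤ Zf d l := Zx_le_Zf hl _
    have h4 : exp (-(C3 * l * j + 10 * log d * (i / nn d))) ≤ exp (-(C3 * l * j)) := by
      apply exp_le_exp.2
      have : 0 ≤ 10 * log (d : ℝ) * (i / nn d) := by positivity
      linarith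
    have h5 : e0 * l * 2 ^ d * (exp (-(cL * l ^ 2 * 2 ^ d)) * Zf d l) ≤
        (d : ℝ) ^ 2 * (e0 * l) * (2 ^ d * Zf d l) * exp (-(C3 * l * j)) := by
      calc e0 * l * 2 ^ d * (exp (-(cL * l ^ 2 * 2 ^ d)) * Zf d l)
          ≤ e0 * l * 2 ^ d * Zx d l X0 := by
            rw [hX0]
            exact mul_le_mul_of_nonneg_left hZ (by positivity)
        _ = e0 * l * 2 ^ d * Zx d l (X0 - (0 : ℕ)) * exp (-(C3 * l * (0 : ℕ))) := by
            simp
        _ ≤ _ := h2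
        _ ≤ (d : ℝ) ^ 2 * (e0 * l) * (2 ^ d * Zf d l) * exp (-(C3 * l * j)) := by
            refine mul_le_mul ?_ h4 (exp_pos _).le (by positivity)
            gcongr
    have h6 : exp (-(cL * l ^ 2 * 2 ^ d)) ≤ exp (2 * log d + -(C3 * l * j)) := by
      rw [exp_add, ← hdexp]
      have h7 : 0 < e0 * l * 2 ^ d * Zf d l := by positivity
      refine le_of_mul_le_mul_left ?_ h7
      calc e0 * l * 2 ^ d * Zf d l * exp (-(cL * l ^ 2 * 2 ^ d))
          = e0 * l * 2 ^ d * (exp (-(cL * l ^ 2 * 2 ^ d)) * Zf d l) := by ring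
        _ ≤ _ := h5
        _ = _ := by ring
    rw [exp_le_exp] at h6
    -- contradiction
    have h8 : p * 2 ^ d / 400 - 1 / 2 < j := by linarith
    have h9 : C3 * l * (p * 2 ^ d / 400 - 1 / 2) ≤ C3 * l * j :=
      mul_le_mul_of_nonneg_left h8.le (by positivity)
    have h10 : C3 * l * (4 / 5 * l * 2 ^ d / 400 - 1 / 2) ≤
        C3 * l * (p * 2 ^ d / 400 - 1 / 2) := by
      refine mul_le_mul_of_nonneg_left ?_ (by positivity)
      have := mul_le_mul_of_nonneg_right hp1 h2d.le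
      linarith
    have h11 : C3 * l * (4 / 5 * l * 2 ^ d / 400 - 1 / 2) =
        (cL + 1) * l * (2 * (l * 2 ^ d) - 500) := by
      rw [hC3]; ring
    have h12 : cL * l ^ 2 * 2 ^ d = cL * l * (l * 2 ^ d) := by ring
    have h13 : (cL + 1) * l * (2 * (l * 2 ^ d) - 500) ≤ 2 * log d + cL * l * (l * 2 ^ d) := by
      linarith
    have h14 : (500 : ℝ) ≤ l * 2 ^ d := by
      have := pow_le_pow_left₀ (by norm_num) hd2 3
      linarith
    have h15 : cL * l * (l * 2 ^ d) + l * (l * 2 ^ d) ≤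
        (cL + 1) * l * (2 * (l * 2 ^ d) - 500) := by
      have : (cL + 1) * l * (l * 2 ^ d) ≤ (cL + 1) * l * (2 * (l * 2 ^ d) - 500) :=
        mul_le_mul_of_nonneg_left (by linarith) (by positivity)
      linarith
    have h16 : l * (l * 2 ^ d) ≤ 2 * d := by linarith
    have h17 : 100000 * (d : ℝ) ^ 2 ≤ l * (l * 2 ^ d) := by
      have h18 : 1 / (d : ℝ) * (100000 * (d : ℝ) ^ 3) ≤ l * (l * 2 ^ d) :=
        mul_le_mul hlow hl2d (by positivity) hl.le
      have h19 : 1 / (d : ℝ) * (100000 * (d : ℝ) ^ 3) = 100000 * (d : ℝ) ^ 2 := by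
        field_simp
      linarith
    have := mul_le_mul_of_nonneg_right hd2 hdpos.le
    linarith
  -- (b)
  have hi : i < nn d := by
    by_contra hcon
    have hi1 : i = nn d := by omega
    have h1 := (hWge j).trans ((hmax (0, j) (by
      rw [mem_product, mem_range, mem_range]; exact ⟨by omega, hq.2⟩)).trans hWq)
    have h2 : ((i : ℕ) : ℝ) / nn d = 1 := by rw [hi1]; exact div_self hnnpos.ne'
    rw [h2] at h1
    have h3 : exp (-(C3 * l * j)) ≤ exp (2 * log d + -(C3 * l * j + 10 * log d * 1)) := by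
      rw [exp_add, ← hdexp]
      have h7 : 0 < e0 * l * 2 ^ d * Zx d l (X0 - j) := by have := hZpos j; positivity
      refine le_of_mul_le_mul_left ?_ h7
      calc _ ≤ _ := h1
        _ = _ := by ring
    rw [exp_le_exp] at h3
    linarith
  -- (c)
  have hc : ∀ a : ℕ, a ≤ 2 * d ^ 2 →
      Psi Lam e1 e0 C4 d l (C4 + 2 + i / nn d + 1 / nn d) (X0 - j - a) ≤
        exp (C3 * l * a + 10 * log d / nn d) *
          Psi Lam e1 e0 C4 d l (C4 + 2 + i / nn d) (X0 - j) := by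
    intro a ha
    have h1 := hmax (i + 1, j + a) (by
      rw [mem_product, mem_range, mem_range]
      exact ⟨by simp only; omega, by simp only; omega⟩)
    rw [hW0, hW0] at h1
    have h2 : (C4 + 2 + ((i + 1 : ℕ) : ℝ) / nn d) = C4 + 2 + i / nn d + 1 / nn d := by
      push_cast; ring
    have h3 : X0 - ((j + a : ℕ) : ℝ) = X0 - j - a := by push_cast; ring
    rw [h2, h3] at h1
    have h4 : exp (-(C3 * l * j + 10 * log d * (i / nn d))) =
        exp (C3 * l * a + 10 * log d / nn d) *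
          exp (-(C3 * l * ((j + a : ℕ) : ℝ) + 10 * log d * (((i + 1 : ℕ) : ℝ) / nn d))) := by
      rw [← exp_add]
      congr 1
      push_cast
      ring
    rw [h4] at h1
    have h5 := exp_pos (-(C3 * l * ((j + a : ℕ) : ℝ) + 10 * log d * (((i + 1 : ℕ) : ℝ) / nn d)))
    refine le_of_mul_le_mul_right ?_ h5
    calc _ ≤ _ := h1
      _ = _ := by ring
  have hsmall : 10 * log (d : ℝ) / nn d ≤ 1 / 120 := by
    rw [div_le_iff₀ hnnpos]
    have := mul_le_mul_of_nonneg_right (show (1200 : ℝ) ≤ log d by linarith) hlog.le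
    linarith
  refine ⟨C4 + 2 + i / nn d, X0 - j, ?_, ?_, ?_, ?_, hPpos _ j, ?_, ?_⟩
  · have : 0 ≤ (i : ℝ) / nn d := by positivity
    linarith
  · have : (i : ℝ) / nn d ≤ 1 := by
      rw [div_le_one hnnpos]
      exact_mod_cast hi.le
    linarith
  · have h1 : (j : ℝ) ≤ J := by
      have : j ≤ J := by omega
      exact_mod_cast this
    have h2 : 0 ≤ p * 2 ^ d := by
      have : 0 ≤ p := by linarith
      positivity
    rw [hX0, ← hp]
    linarith
  · have : (0 : ℝ) ≤ j := Nat.cast_nonneg j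
    rw [← hX0]
    linarith
  · have h1 : nn d ≤ 2 * d ^ 2 := by
      have : (nn d : ℝ) ≤ 2 * d ^ 2 := by
        have := mul_le_mul hlogd hlogd hlog.le hdpos.le
        linarith
      exact_mod_cast this
    refine (hc (nn d) h1).trans ?_
    refine mul_le_mul_of_nonneg_right ?_ (hPpos _ j).le
    have h2 : C3 * l * nn d ≤ 4 / 1000 := by
      have h3 : C3 * l * nn d ≤ C3 * (CS * log d / d) * (2 * log d ^ 2) := by
        refine mul_le_mul (mul_le_mul_of_nonneg_left hup hC3pos.le) hnn2 hnnpos.le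
          (by positivity)
      have h4 : C3 * (CS * log d / d) * (2 * log d ^ 2) =
          1000 * (cL + 1) * (2 * CS) * (log d ^ 3 / d) := by
        rw [hC3]; ring
      linarith
    have h3 : C3 * l * nn d + 10 * log (d : ℝ) / nn d ≤ 13 / 1000 := by linarith
    calc exp (C3 * l * nn d + 10 * log (d : ℝ) / nn d) ≤ exp (13 / 1000) := exp_le_exp.2 h3
      _ ≤ 51 / 50 := by
        have h5 : (1 : ℝ) - 13 / 1000 ≤ exp (-(13 / 1000)) := by
          have := add_one_le_exp (-(13 / 1000) : ℝ)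
          linarith
        have h6 : exp (13 / 1000) * exp (-(13 / 1000)) = 1 := by
          rw [← exp_add]; norm_num
        have h7 := exp_pos (13 / 1000 : ℝ)
        have h8 := mul_le_mul_of_nonneg_left h5 h7.le
        linarith
  · intro a ha
    have h1 := (MAXI_Psi_ge (d := d) (Lam := Lam) (e1 := e1) (e0 := e0) (C4 := C4)
      (x := X0 - j - a) (c := C4 + 2 + i / nn d + 1 / nn d) hl hLam0).trans (hc a ha)
    have h2 : exp (C3 * l * a + 10 * log (d : ℝ) / nn d) ≤ 2 * exp (C3 * l * a) := by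
      rw [exp_add, mul_comm]
      refine mul_le_mul_of_nonneg_right ?_ (exp_pos _).le
      calc exp (10 * log (d : ℝ) / nn d) ≤ exp (1 / 120) := exp_le_exp.2 hsmall
        _ ≤ 2 := by
          have h5 : (1 : ℝ) - 1 / 120 ≤ exp (-(1 / 120)) := by
            have := add_one_le_exp (-(1 / 120) : ℝ)
            linarith
          have h6 : exp (1 / 120) * exp (-(1 / 120)) = 1 := by
            rw [← exp_add]; norm_num
          have h7 := exp_pos (1 / 120 : ℝ)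
          have h8 := mul_le_mul_of_nonneg_left h5 h7.le
          linarith
    have h3 : e0 * l * 2 ^ d * Zx d l (X0 - j - a) ≤ 2 * exp (C3 * l * a) *
        Psi Lam e1 e0 C4 d l (C4 + 2 + i / nn d) (X0 - j) :=
      h1.trans (mul_le_mul_of_nonneg_right h2 (hPpos _ j).le)
    rw [← hC3]
    have h4 : 2 / (e0 * l) * exp (C3 * l * a) *
        Psi Lam e1 e0 C4 d l (C4 + 2 + i / nn d) (X0 - j) =
        (2 * exp (C3 * l * a) * Psi Lam e1 e0 C4 d l (C4 + 2 + i / nn d) (X0 - j)) /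
          (e0 * l) := by ring
    rw [h4, le_div_iff₀ (by positivity)]
    calc _ = _ := by ring
      _ ≤ _ := h3

end Pool.Agent.Lib.MP_c6118e_pr.Win
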