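import Pool.Agent.Lib.MP_c6118e_pr.Win.FR
import Pool.Agent.Lib.MP_c6118e_pr.Win.ISO2
import Pool.Agent.Lib.MP_c6118e_pr.Win.LLFF
import Pool.Agent.Lib.MP_c6118e_pr.Win.MAXI

/-! # HALF: FF and R carry half of Psi -/

namespace Pool.Agent.Lib.MP_c6118e_pr.Win

open Finset Real
open scoped Classical

variable {d : ℕ}

/-- exceptional vertices of the light set are in `Rp` -/
theorem HALF_Ex {l T r e u : ℝ} (hl : 0 < l) (he : 0 ≤ e) (hr : r ≤ T) (hu : e * (l * d) ≤ u)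
    (s : Finset (V d)) : ((Ex (light T l s)).card : ℝ) ≤ exp u * Rw l e r s := by
  have hsub : Ex (light T l s) ⊆ univ.filter (Rp l r s) := by
    intro v hv
    rw [mem_Ex] at hv
    have hnot : ∀ w, w ∉ light T l s → r ≤ l * (Fr s w : ℝ) := by
      intro w hw
      by_contra hcon
      push Not at hcon
      exact hw (mem_filter.2 ⟨mem_univ _, lt_of_lt_of_le hcon hr⟩)
    refine mem_filter.2 ⟨mem_univ _, hnot v hv.1, hv.2.trans (Nat.mul_le_mul_left _ ?_)⟩
    refine card_le_card ?_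
    intro i hi
    rw [mem_filter] at hi ⊢
    exact ⟨hi.1, hnot _ hi.2⟩
  have h1 : ((Ex (light T l s)).card : ℝ) ≤ ((univ.filter (Rp l r s)).card : ℝ) := by
    exact_mod_cast card_le_card hsub
  refine h1.trans ?_
  unfold Rw
  rw [mul_sum]
  have h2 : ∀ v ∈ univ.filter (Rp l r s), (1 : ℝ) ≤ exp u * exp (-(e * (l * (Fr s v : ℝ)))) := by
    intro v _
    rw [← exp_add, one_le_exp_iff]
    have h3 : (Fr s v : ℝ) ≤ d := by exact_mod_cast Fr_le s v
    have h4 : e * (l * (Fr s v : ℝ)) ≤ e * (l * d) := by gcongr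
    linarith
  have h5 := sum_le_sum h2
  rw [sum_const, nsmul_eq_mul, mul_one] at h5
  exact h5

theorem HALF_evt (K : ℝ) : ∃ d₀ : ℕ, ∀ d ≥ d₀, 1 ≤ (d : ℝ) ∧ K ≤ log (d : ℝ) := by
  have h1 : ∀ᶠ d : ℕ in Filter.atTop, 1 ≤ (d : ℝ) :=
    tendsto_natCast_atTop_atTop.eventually_ge_atTop _
  have h3 : ∀ᶠ d : ℕ in Filter.atTop, K ≤ log d :=
    (tendsto_log_atTop.comp tendsto_natCast_atTop_atTop).eventually_ge_atTop _
  obtain ⟨d₀, h⟩ := Filter.eventually_atTop.1 (h1.and h3)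
  exact ⟨d₀, fun d hd => h d hd⟩

theorem half_Psi (CS Lam e1 e0 C4 cL : ℝ) (hCS : 0 < CS) (hLam : 1 ≤ Lam) (he1 : 0 ≤ e1)
    (he1' : e1 * CS ≤ 3 / 10) (he0 : 0 < e0) (he0' : 1000 * exp (2 * C4 + 4) * e0 ≤ Lam)
    (hC4 : 10 ≤ C4) (hcL : 0 < cL) :
    ∃ d₀ : ℕ, ∀ d ≥ d₀, ∀ l : ℝ, 1 ≤ l * d → l * d ≤ CS * log d →
    exp (-(cL * l ^ 2 * 2 ^ d)) * Zf d l ≤ Zx d l (1 / 10 * (l / (1 + l)) * 2 ^ d) →
    ∀ c x : ℝ, C4 + 2 ≤ c → 91 / 1000 * (l / (1 + l)) * 2 ^ d ≤ x →
      x ≤ 1 / 10 * (l / (1 + l)) * 2 ^ d → 0 < Psi Lam e1 e0 C4 d l c x →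
      Psi Lam e1 e0 C4 d l (c + 1 / nn d) (x - nn d) ≤ 51 / 50 * Psi Lam e1 e0 C4 d l c x →
      (∀ v : V d, avU l x (fun s => if nn d < nOcc s v then (1 : ℝ) else 0) ≤
        Psi Lam e1 e0 C4 d l c x / (d : ℝ) ^ 10 / 2 ^ d) →
      1 / 2 * Psi Lam e1 e0 C4 d l c x ≤ Lam * l * avU (d := d) l x (fun s => (FFn l c s : ℝ)) +
        avU (d := d) l x (fun s => Rw l e1 (2 * C4 + 3 - c) s) := by
  obtain ⟨d₁, hd₁⟩ := iso2 CS (C4 + 3 / 2) cL hCS (by linarith) hcL
  obtain ⟨d₂, hd₂⟩ := HALF_evt (1 + 200 * CS + 300000 * e0 * CS)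
  refine ⟨max d₁ d₂, fun d hd l hl1 hl2 hZ c x hc hx1 hx2 hP hPs hE => ?_⟩
  have hiso := hd₁ d (le_trans (le_max_left _ _) hd) l hl1 hl2 hZ x
  obtain ⟨g1, g2⟩ := hd₂ d (le_trans (le_max_right _ _) hd)
  have hdpos : (0 : ℝ) < d := by linarith
  have hl : 0 < l := by
    by_contra hcon
    push Not at hcon
    have : l * d ≤ 0 := mul_nonpos_of_nonpos_of_nonneg hcon hdpos.le
    linarith
  obtain ⟨u, hu⟩ : ∃ u : ℝ, u = log (d : ℝ) := ⟨_, rfl⟩
  rw [← hu] at g2 hl2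
  have hec : 0 < e0 * CS := by positivity
  have hu1 : 1 ≤ u := by linarith
  have hu2 : 200 * CS ≤ u := by linarith
  have hu3 : 300000 * (e0 * CS) ≤ u := by linarith
  have hexpu : exp u = d := by rw [hu, exp_log hdpos]
  have hN : (0 : ℝ) < 2 ^ d := by positivity
  have hLam0 : (0 : ℝ) ≤ Lam := by linarith
  have hpp : 0 ≤ l / (1 + l) * 2 ^ d := by positivity
  have hiso' := hiso (by linarith) hx2
  -- sizes
  have hnn2 : (nn d : ℝ) ≤ 2 * u ^ 2 := by
    have h1 : (nn d : ℝ) < u ^ 2 + 1 := by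
      rw [hu]
      exact Nat.ceil_lt_add_one (by positivity)
    have h2 : (1 : ℝ) ≤ u ^ 2 := one_le_pow₀ hu1
    linarith
  have hd4 : u ^ 4 / 24 ≤ d := by
    have h1 := pow_div_factorial_le_exp u (by linarith) 4
    rw [hexpu] at h1
    have h2 : ((Nat.factorial 4 : ℕ) : ℝ) = 24 := by norm_num [Nat.factorial]
    rw [h2] at h1
    exact h1
  have hd2 : u ^ 2 / 2 ≤ d := by
    have h1 := pow_div_factorial_le_exp u (by linarith) 2
    rw [hexpu] at h1
    have h2 : ((Nat.factorial 2 : ℕ) : ℝ) = 2 := by norm_num [Nat.factorial]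
    rw [h2] at h1
    exact h1
  have hnl : 2 * l * nn d ≤ 1 / 2 := by
    have h1 : 2 * l * nn d ≤ 2 * l * (2 * u ^ 2) := mul_le_mul_of_nonneg_left hnn2 (by positivity)
    have h2 : l * (u ^ 4 / 24) ≤ CS * u := (mul_le_mul_of_nonneg_left hd4 hl.le).trans hl2
    have h3 : l * u ^ 2 * (u * (u - 192 * CS)) ≥ 0 := by
      apply mul_nonneg (by positivity) (mul_nonneg (by linarith) (by linarith))
    have h4 : l * u ^ 3 ≤ 24 * CS := by
      have h5 : u * (l * u ^ 3) ≤ u * (24 * CS) := by linarith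
      exact le_of_mul_le_mul_left h5 (by linarith)
    have h6 : 192 * CS * (l * u ^ 2) ≤ u * (l * u ^ 2) :=
      mul_le_mul_of_nonneg_right (by linarith) (by positivity)
    have h7 : 192 * CS * (l * u ^ 2) ≤ 24 * CS := by linarith
    have h8 : CS * (8 * (l * u ^ 2)) ≤ CS * 1 := by linarith
    have h9 := le_of_mul_le_mul_left h8 hCS
    linarith
  -- light edges
  have hll := llff (d := d) (T := C4 + 3 / 2) (c := C4 + 2) hl x (nn d) (by linarith)
  have hmono := Psi_mono (d := d) (Lam := Lam) (e1 := e1) (e0 := e0) (C4 := C4) (x := x - nn d) hl hLam0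
    (show C4 + 2 ≤ c + 1 / nn d by
      have : (0 : ℝ) ≤ 1 / nn d := by positivity
      linarith)
  have hPs' := hmono.trans hPs
  obtain ⟨P, hPdef⟩ : ∃ P : ℝ, P = Psi Lam e1 e0 C4 d l c x := ⟨_, rfl⟩
  have hPsi := hPdef
  rw [← hPdef] at hP hPs' hE ⊢
  clear hPs hmono
  unfold Psi at hPs' hPsi
  rw [show 2 * C4 + 3 - (C4 + 2) = C4 + 1 by ring] at hPs'
  obtain ⟨F', hF'⟩ : ∃ F' : ℝ, F' = avU (d := d) l (x - nn d) (fun s => (FFn l (C4 + 2) s : ℝ)) :=
    ⟨_, rfl⟩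
  obtain ⟨R', hR'⟩ : ∃ R' : ℝ, R' = avU (d := d) l (x - nn d) (fun s => Rw l e1 (C4 + 1) s) :=
    ⟨_, rfl⟩
  rw [← hF', ← hR'] at hPs'
  rw [← hF'] at hll
  have hF0 : 0 ≤ F' := by
    rw [hF']
    exact avU_nonneg hl.le fun s _ => Nat.cast_nonneg _
  have hR0 : 0 ≤ R' := by
    rw [hR']
    refine avU_nonneg hl.le fun s _ => ?_
    unfold Rw
    exact sum_nonneg fun _ _ => (exp_pos _).le
  have hZ0 : 0 ≤ e0 * l * 2 ^ d * Zx d l (x - nn d) := by
    have := Zx_nonneg (d := d) hl (x - nn d)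
    positivity
  have hLF0 : 0 ≤ Lam * l * F' := by positivity
  have hLF : Lam * l * F' ≤ 51 / 50 * P := by linarith
  have hRP : R' ≤ 51 / 50 * P := by linarith
  have hEx : avU (d := d) l x (fun s => ((Ex (light (C4 + 3 / 2) l s)).card : ℝ)) ≤
      exp (3 / 10 * u) * R' := by
    have h1 : avU (d := d) l x (fun s => ((Ex (light (C4 + 3 / 2) l s)).card : ℝ)) ≤
        avU (d := d) l x (fun s => exp (3 / 10 * u) * Rw l e1 (C4 + 1) s) := by
      refine avU_mono hl.le fun s _ => HALF_Ex hl he1 (by linarith) ?_ s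
      have h2 : e1 * (l * d) ≤ e1 * (CS * u) := mul_le_mul_of_nonneg_left hl2 he1
      have h3 : e1 * CS * u ≤ 3 / 10 * u := mul_le_mul_of_nonneg_right he1' (by linarith)
      linarith
    refine h1.trans ?_
    rw [avU_mul]
    refine mul_le_mul_of_nonneg_left ?_ (exp_pos _).le
    rw [hR']
    refine avU_anti hl.le (by have : (0 : ℝ) ≤ nn d := Nat.cast_nonneg _; linarith) fun s _ => ?_
    unfold Rw
    exact sum_nonneg fun _ _ => (exp_pos _).le
  have hSum : ∑ v : V d, avU l x (fun s => if nn d < nOcc s v then (1 : ℝ) else 0) ≤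
      P / (d : ℝ) ^ 10 := by
    refine (sum_le_sum fun v _ => hE v).trans ?_
    rw [sum_const, card_univ, card_V, nsmul_eq_mul]
    push_cast
    rw [mul_div_assoc', mul_comm, mul_div_assoc, div_self hN.ne', mul_one]
  -- the three terms
  have ht1 : 300 * (e0 * l * (exp (2 * (C4 + 2)) * F')) ≤ 306 / 1000 * P := by
    have h1 : exp (2 * (C4 + 2)) = exp (2 * C4 + 4) := by congr 1; ring
    rw [h1]
    have h2 : 1000 * exp (2 * C4 + 4) * e0 * (l * F') ≤ Lam * (l * F') :=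
      mul_le_mul_of_nonneg_right he0' (by positivity)
    linarith
  have ht2 : 300 * (e0 * l * (d * (P / (d : ℝ) ^ 10))) ≤ 1 / 20 * P := by
    have h1 : (d : ℝ) * (P / (d : ℝ) ^ 10) = P / (d : ℝ) ^ 9 := by
      field_simp
    rw [h1]
    have h2 : P / (d : ℝ) ^ 9 ≤ P := by
      apply div_le_self hP.le
      exact one_le_pow₀ g1
    have h3 : e0 * l * (P / (d : ℝ) ^ 9) ≤ e0 * l * P :=
      mul_le_mul_of_nonneg_left h2 (by positivity)
    have h4 : l * (u ^ 2 / 2) ≤ CS * u := (mul_le_mul_of_nonneg_left hd2 hl.le).trans hl2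
    have h5 : u * (l * u) ≤ u * (2 * CS) := by linarith
    have h6 : l * u ≤ 2 * CS := le_of_mul_le_mul_left h5 (by linarith)
    have h7 : e0 * l * 300000 * (e0 * CS) ≤ e0 * (l * u) := by
      have := mul_le_mul_of_nonneg_left hu3 (show 0 ≤ e0 * l by positivity)
      linarith
    have h8 : e0 * l * 300000 * (e0 * CS) ≤ 2 * (e0 * CS) :=
      h7.trans (by have := mul_le_mul_of_nonneg_left h6 he0.le; linarith)
    have h9 : 150000 * (e0 * l) ≤ 1 := by
      have h10 : (e0 * CS) * (300000 * (e0 * l)) ≤ (e0 * CS) * 2 := by linarith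
      have := le_of_mul_le_mul_left h10 hec
      linarith
    have h10 := mul_le_mul_of_nonneg_right h9 hP.le
    linarith
  have ht3 : 100 * (e0 * l * ((√d + 1) * (exp (3 / 10 * u) * R'))) ≤ 1 / 20 * P := by
    have hs : √(d : ℝ) = exp (1 / 2 * u) := by
      rw [← hexpu, show exp u = exp (1 / 2 * u) ^ 2 by rw [← exp_nat_mul]; congr 1; push_cast; ring]
      exact sqrt_sq (exp_pos _).le
    have hs1 : 1 ≤ exp (1 / 2 * u) := one_le_exp_iff.2 (by linarith)
    have h1 : (√(d : ℝ) + 1) * (exp (3 / 10 * u) * R') ≤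
        2 * exp (1 / 2 * u) * (exp (3 / 10 * u) * (51 / 50 * P)) := by
      rw [hs]
      refine mul_le_mul (by linarith) (mul_le_mul_of_nonneg_left hRP (exp_pos _).le)
        (by positivity) (by positivity)
    have h2 : e0 * l * ((√(d : ℝ) + 1) * (exp (3 / 10 * u) * R')) ≤
        e0 * l * (2 * exp (1 / 2 * u) * (exp (3 / 10 * u) * (51 / 50 * P))) :=
      mul_le_mul_of_nonneg_left h1 (by positivity)
    have h3 : exp (1 / 2 * u) * exp (3 / 10 * u) * exp (1 / 5 * u) = d := by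
      rw [← exp_add, ← exp_add, ← hexpu]
      congr 1
      ring
    -- `l * e^{4u/5} = l d e^{-u/5}`
    have h4 : u ^ 2 / 50 ≤ exp (1 / 5 * u) := by
      have h5 := pow_div_factorial_le_exp (1 / 5 * u) (by linarith) 2
      have h6 : ((Nat.factorial 2 : ℕ) : ℝ) = 2 := by norm_num [Nat.factorial]
      rw [h6] at h5
      linarith
    obtain ⟨A, hA⟩ : ∃ A : ℝ, A = exp (1 / 2 * u) * exp (3 / 10 * u) := ⟨_, rfl⟩
    have hA0 : 0 < A := by rw [hA]; positivity
    rw [← hA] at h3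
    have h7 : l * (A * (u ^ 2 / 50)) ≤ CS * u := by
      refine le_trans ?_ hl2
      rw [← h3]
      exact mul_le_mul_of_nonneg_left (mul_le_mul_of_nonneg_left h4 hA0.le) hl.le
    have h8 : l * A * u ≤ 50 * CS := by
      have h9 : u * (l * A * u) ≤ u * (50 * CS) := by linarith
      exact le_of_mul_le_mul_left h9 (by linarith)
    have h10 : 300000 * (e0 * CS) * (l * A) ≤ 50 * CS := by
      have := mul_le_mul_of_nonneg_right hu3 (show 0 ≤ l * A by positivity)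
      linarith
    have h11 : CS * (6000 * (e0 * (l * A))) ≤ CS * 1 := by linarith
    have h12 := le_of_mul_le_mul_left h11 hCS
    have h13 : e0 * l * (2 * exp (1 / 2 * u) * (exp (3 / 10 * u) * (51 / 50 * P))) =
        51 / 25 * (e0 * (l * A)) * P := by
      rw [hA]; ring
    rw [h13] at h2
    have h14 : 6000 * (e0 * (l * A)) * P ≤ 1 * P := mul_le_mul_of_nonneg_right h12 hP.le
    linarith
  -- conclusion
  have hfin : e0 * l * 2 ^ d * Zx d l x ≤ 1 / 2 * P := by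
    have h1 : e0 * l * (1 / 100 * 2 ^ d * Zx d l x) ≤ e0 * l *
        (3 * (exp (2 * (C4 + 2)) * F' + d * (P / (d : ℝ) ^ 10)) +
          (√d + 1) * (exp (3 / 10 * u) * R')) := by
      refine mul_le_mul_of_nonneg_left (hiso'.trans ?_) (by positivity)
      have h2 : 3 * avU (d := d) l x (fun s => (eLL (light (C4 + 3 / 2) l s) : ℝ)) ≤
          3 * (exp (2 * (C4 + 2)) * F' + d * (P / (d : ℝ) ^ 10)) := by
        refine mul_le_mul_of_nonneg_left (hll.trans ?_) (by norm_num)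
        have := mul_le_mul_of_nonneg_left hSum hdpos.le
        linarith
      have h3 : (√(d : ℝ) + 1) * avU (d := d) l x
          (fun s => ((Ex (light (C4 + 3 / 2) l s)).card : ℝ)) ≤
          (√d + 1) * (exp (3 / 10 * u) * R') :=
        mul_le_mul_of_nonneg_left hEx (by positivity)
      linarith
    linarith
  linarith

end Pool.Agent.Lib.MP_c6118e_pr.Win
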