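import Pool.Agent.Lib.MP_c6118e_pr.Win.TOOL

/-! # PNL: poor light particles are charged to FF -/

namespace Pool.Agent.Lib.MP_c6118e_pr.Win

open Finset Real
open scoped Classical

variable {d : ℕ}

theorem PNL_card_inter (s : Finset (V d)) (w : V d) : (s ∩ Nbr w).card ≤ nOcc s w := by
  unfold nOcc
  have h : s ∩ Nbr w ⊆ (univ.filter fun i : Fin d => nb i w ∈ s).image fun i => nb i w := by
    intro z hz
    rw [mem_inter] at hz
    unfold Nbr at hz
    rw [mem_filter] at hz
    obtain ⟨h1, _, i, h2⟩ := hz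
    rw [mem_image]
    exact ⟨i, mem_filter.2 ⟨mem_univ _, h2 ▸ h1⟩, h2.symm⟩
  exact (card_le_card h).trans card_image_le

/-- sum over the subsets of `F` which contain `q` -/
theorem PNL_sum_le {l : ℝ} (hl : 0 < l) (F : Finset (V d)) (q : V d) :
    ∑ B ∈ F.powerset.filter (fun B => q ∈ B), l ^ B.card ≤ l * (1 + l) ^ F.card := by
  have h1 : ∑ B ∈ F.powerset.filter (fun B => q ∈ B), l ^ B.card =
      ∑ B ∈ F.powerset.filter (fun B => q ∈ B), l * l ^ (B.erase q).card := by
    refine sum_congr rfl fun B hB => ?_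
    rw [mem_filter] at hB
    rw [← card_erase_add_one hB.2, pow_succ, mul_comm]
  rw [h1, ← mul_sum]
  refine mul_le_mul_of_nonneg_left ?_ hl.le
  rw [← sum_pow_card]
  have h2 : Set.InjOn (fun B : Finset (V d) => B.erase q)
      ((F.powerset.filter fun B => q ∈ B : Finset (Finset (V d))) : Set (Finset (V d))) := by
    intro B hB B' hB' he
    rw [mem_coe, mem_filter] at hB hB'
    have he' : B.erase q = B'.erase q := he
    rw [← insert_erase hB.2, ← insert_erase hB'.2, he']
  rw [← sum_image (f := fun B : Finset (V d) => l ^ B.card) h2]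
  refine sum_le_sum_of_subset_of_nonneg ?_ fun B _ _ => by positivity
  intro B hB
  obtain ⟨B', hB', rfl⟩ := mem_image.1 hB
  rw [mem_filter, mem_powerset] at hB'
  rw [mem_powerset]
  exact (erase_subset _ _).trans hB'.1

/-- remove the particles around `nb k q` : one pair -/
theorem PNL_one {T l C2 c c' : ℝ} (hl : 0 < l) (x : ℝ) (n : ℕ) (hc : c + 2 * l * n ≤ c')
    (hC2 : C2 + 1 ≤ c') (k : Fin d) (q : V d) :
    avU l x (fun s => if q ∈ s ∧ (Nm T l s q ∧
      l * (Fn T l s (nb k q) : ℝ) < C2 ∧ l * (Fr s q : ℝ) < c ∧ ¬ Ct T l s (nb k q) ∧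
      nOcc s (nb k q) ≤ n) then (1 : ℝ) else 0) ≤
      l * exp (C2 + 1) * avU (d := d) l (x - n) (fun s => if FFp l c' s q k then 1 else 0) := by
  have h1 := removal (d := d) (l := l) (x := x) hl.le
    (f := fun s => if q ∈ s ∧ (Nm T l s q ∧
      l * (Fn T l s (nb k q) : ℝ) < C2 ∧ l * (Fr s q : ℝ) < c ∧ ¬ Ct T l s (nb k q) ∧
      nOcc s (nb k q) ≤ n) then (1 : ℝ) else 0)
    (g := fun s => if FFp l c' s q k ∧ l * (Fr s (nb k q) : ℝ) ≤ C2 + 1 then (1 : ℝ) else 0)
    (fun s => s ∩ Nbr (nb k q))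
    (fun s => (((Fset s (nb k q)).image fun i => nb i (nb k q)).powerset).filter fun B => q ∈ B)
    n (fun s _ => by
      change (0 : ℝ) ≤ if _ then _ else _
      split_ifs
      · exact zero_le_one
      · exact le_refl _) (by
      intro s hs hfs
      have hcond : q ∈ s ∧ (Nm T l s q ∧
          l * (Fn T l s (nb k q) : ℝ) < C2 ∧ l * (Fr s q : ℝ) < c ∧ ¬ Ct T l s (nb k q) ∧
          nOcc s (nb k q) ≤ n) := by
        by_contra hcon
        exact hfs (if_neg hcon)
      have hfone : (if q ∈ s ∧ (Nm T l s q ∧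
          l * (Fn T l s (nb k q) : ℝ) < C2 ∧ l * (Fr s q : ℝ) < c ∧ ¬ Ct T l s (nb k q) ∧
          nOcc s (nb k q) ≤ n) then (1 : ℝ) else 0) = 1 := if_pos hcond
      obtain ⟨hq, hN, hF, hr, hCt, hn⟩ := hcond
      have hInd : Ind s := mem_Om.1 (Bx_sub_Om _ hs)
      have hw : nb k q ∉ s := hInd q hq k
      have hcard : (s ∩ Nbr (nb k q)).card ≤ n := (PNL_card_inter s (nb k q)).trans hn
      refine ⟨inter_subset_left, ?_, ?_, ?_⟩
      · have h2 : s \ (s ∩ Nbr (nb k q)) ∈ Om d := by
          rw [mem_Om]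
          exact Ind.mono hInd sdiff_subset
        have h3 := sdiff_union_mem_Bx (x := x) (s := s) (C := s ∩ Nbr (nb k q)) (S := ∅)
          (a := n) hs hcard (by rw [union_empty]; exact h2)
        rw [union_empty] at h3
        exact h3
      · rw [mem_filter, mem_powerset]
        refine ⟨?_, ?_⟩
        · intro z hz
          rw [mem_inter] at hz
          unfold Nbr at hz
          rw [mem_filter] at hz
          obtain ⟨hz1, _, i, hzi⟩ := hz
          rw [mem_image]
          refine ⟨i, ?_, hzi.symm⟩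
          unfold Fset
          rw [mem_filter]
          refine ⟨mem_univ _, fun j _ hj => ?_⟩
          rw [mem_sdiff] at hj
          rw [← hzi] at hj
          exact hInd z hz1 j hj.1
        · rw [mem_inter]
          refine ⟨hq, ?_⟩
          unfold Nbr
          rw [mem_filter]
          exact ⟨mem_univ _, k, (nb_nb k q).symm⟩
      · change (if q ∈ s ∧ (Nm T l s q ∧
          l * (Fn T l s (nb k q) : ℝ) < C2 ∧ l * (Fr s q : ℝ) < c ∧ ¬ Ct T l s (nb k q) ∧
          nOcc s (nb k q) ≤ n) then (1 : ℝ) else 0) ≤ if _ then _ else _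
        rw [hfone]
        have hle : l * (Fr s (nb k q) : ℝ) ≤ l * (Fn T l s (nb k q) : ℝ) + 1 :=
          Fr_le_Fn hl hw hCt
        have hFw : Fr (s \ (s ∩ Nbr (nb k q))) (nb k q) = Fr s (nb k q) := by
          apply Fr_congr
          intro z hz
          rw [mem_sdiff]
          constructor
          · exact fun h => h.1
          · intro h
            refine ⟨h, fun h2 => ?_⟩
            rw [mem_inter] at h2
            unfold Nbr at h2
            rw [mem_filter] at h2
            obtain ⟨_, _, i, hzi⟩ := h2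
            rw [hzi] at hz
            exact par_nb_ne i _ hz
        have hFq : l * (Fr (s \ (s ∩ Nbr (nb k q))) q : ℝ) ≤ l * (Fr s q : ℝ) + 2 * l * n := by
          have e1 := Fr_sdiff_le s (s ∩ Nbr (nb k q)) q
          have e2 : Fr (s \ (s ∩ Nbr (nb k q))) q ≤ Fr s q + 2 * n := by omega
          have e3 : (Fr (s \ (s ∩ Nbr (nb k q))) q : ℝ) ≤ Fr s q + 2 * n := by exact_mod_cast e2
          calc l * (Fr (s \ (s ∩ Nbr (nb k q))) q : ℝ) ≤ l * (Fr s q + 2 * n) :=
                mul_le_mul_of_nonneg_left e3 hl.le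
            _ = _ := by ring
        have hFF : FFp l c' (s \ (s ∩ Nbr (nb k q))) q k := by
          refine ⟨?_, ?_, ?_, ?_⟩
          · have h0 := Ind.nOcc hInd hq
            rw [nOcc_eq_zero] at h0 ⊢
            intro i hi
            exact h0 i (mem_sdiff.1 hi).1
          · rw [nOcc_eq_zero]
            intro i hi
            rw [mem_sdiff] at hi
            apply hi.2
            rw [mem_inter]
            refine ⟨hi.1, ?_⟩
            unfold Nbr
            rw [mem_filter]
            exact ⟨mem_univ _, i, rfl⟩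
          · linarith
          · rw [hFw]
            linarith
        rw [if_pos ⟨hFF, by rw [hFw]; linarith⟩])
  refine h1.trans ?_
  rw [← avU_mul]
  refine avU_mono hl.le fun s _ => ?_
  change (if FFp l c' s q k ∧ l * (Fr s (nb k q) : ℝ) ≤ C2 + 1 then (1 : ℝ) else 0) *
    ∑ B ∈ (((Fset s (nb k q)).image fun i => nb i (nb k q)).powerset).filter fun B => q ∈ B,
      l ^ B.card ≤ l * exp (C2 + 1) * if FFp l c' s q k then 1 else 0
  by_cases h : FFp l c' s q k ∧ l * (Fr s (nb k q) : ℝ) ≤ C2 + 1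
  · rw [if_pos h, if_pos h.1, one_mul, mul_one]
    refine (PNL_sum_le hl _ q).trans ?_
    refine mul_le_mul_of_nonneg_left ?_ hl.le
    have e1 : ((Fset s (nb k q)).image fun i => nb i (nb k q)).card ≤ Fr s (nb k q) :=
      card_image_le
    calc (1 + l) ^ ((Fset s (nb k q)).image fun i => nb i (nb k q)).card
        ≤ (1 + l) ^ (Fr s (nb k q)) := pow_le_pow_right₀ (by linarith) e1
      _ ≤ (exp l) ^ (Fr s (nb k q)) :=
          pow_le_pow_left₀ (by linarith) (by linarith [Real.add_one_le_exp l]) _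
      _ = exp (l * (Fr s (nb k q) : ℝ)) := by
          rw [← Real.exp_nat_mul]
          congr 1
          ring
      _ ≤ exp (C2 + 1) := Real.exp_le_exp.2 h.2
  · rw [if_neg h, zero_mul]
    have h0 : 0 ≤ l * exp (C2 + 1) := mul_nonneg hl.le (Real.exp_pos _).le
    refine mul_nonneg h0 ?_
    split_ifs
    · exact zero_le_one
    · exact le_refl _

/-- remove the particles around `nb k q` -/
theorem pnl {T l C2 c c' : ℝ} (hl : 0 < l) (x : ℝ) (n : ℕ) (hc : c + 2 * l * n ≤ c')
    (hC2 : C2 + 1 ≤ c') :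
    ∑ k : Fin d, avU l x (fun s => ((s.filter fun q => Nm T l s q ∧
      l * (Fn T l s (nb k q) : ℝ) < C2 ∧ l * (Fr s q : ℝ) < c ∧ ¬ Ct T l s (nb k q) ∧
      nOcc s (nb k q) ≤ n).card : ℝ)) ≤
      l * exp (C2 + 1) * avU (d := d) l (x - n) (fun s => (FFn l c' s : ℝ)) := by
  have h1 : ∀ k : Fin d, (fun s : Finset (V d) => ((s.filter fun q => Nm T l s q ∧
      l * (Fn T l s (nb k q) : ℝ) < C2 ∧ l * (Fr s q : ℝ) < c ∧ ¬ Ct T l s (nb k q) ∧
      nOcc s (nb k q) ≤ n).card : ℝ)) = fun s => ∑ q : V d, if q ∈ s ∧ (Nm T l s q ∧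
      l * (Fn T l s (nb k q) : ℝ) < C2 ∧ l * (Fr s q : ℝ) < c ∧ ¬ Ct T l s (nb k q) ∧
      nOcc s (nb k q) ≤ n) then (1 : ℝ) else 0 := by
    intro k
    funext s
    rw [← sum_filter, sum_const, nsmul_eq_mul, mul_one]
    congr 2
    ext q
    simp only [mem_filter, mem_univ, true_and]
  have h2 : (fun s : Finset (V d) => (FFn l c' s : ℝ)) = fun s => ∑ k : Fin d, ∑ q : V d,
      if FFp l c' s q k then (1 : ℝ) else 0 := by
    funext s
    unfold FFn
    rw [card_filter, Nat.cast_sum, Fintype.sum_prod_type, sum_comm]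
    refine sum_congr rfl fun k _ => sum_congr rfl fun q _ => ?_
    push_cast
    rfl
  rw [h2, avU_sum, mul_sum]
  refine sum_le_sum fun k _ => ?_
  rw [h1 k, avU_sum, avU_sum, mul_sum]
  exact sum_le_sum fun q _ => PNL_one hl x n hc hC2 k q

end Pool.Agent.Lib.MP_c6118e_pr.Win
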