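import Pool.Agent.Lib.MP_c6118e_pr.Win.FR

/-! # TRNC: truncated binomial sum -/

namespace Pool.Agent.Lib.MP_c6118e_pr.Win

open Finset Real
open scoped Classical

variable {d : ℕ}

theorem TRNC_mean {α : Type*} [DecidableEq α] (l : ℝ) (Y : Finset α) :
    (1 + l) * ∑ S ∈ Y.powerset, (S.card : ℝ) * l ^ S.card = Y.card * l * (1 + l) ^ Y.card := by
  induction Y using Finset.induction_on with
  | empty => simp
  | insert a Y ha ih =>
    rw [Finset.sum_powerset_insert ha, card_insert_of_notMem ha]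
    have h1 : ∑ S ∈ Y.powerset, ((insert a S).card : ℝ) * l ^ (insert a S).card =
        l * ∑ S ∈ Y.powerset, (S.card : ℝ) * l ^ S.card + l * ∑ S ∈ Y.powerset, l ^ S.card := by
      rw [mul_sum, mul_sum, ← sum_add_distrib]
      refine sum_congr rfl fun S hS => ?_
      rw [card_insert_of_notMem fun h => ha (mem_powerset.mp hS h)]
      push_cast
      ring
    have h2 : ∑ S ∈ Y.powerset, l ^ S.card = (1 + l) ^ Y.card := by
      have := Finset.sum_pow_mul_eq_add_pow l (1 : ℝ) Y
      simp only [one_pow, mul_one] at this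
      rw [this, add_comm]
    rw [h1, h2]
    have h3 : (1 + l) * (∑ S ∈ Y.powerset, (S.card : ℝ) * l ^ S.card +
        (l * ∑ S ∈ Y.powerset, (S.card : ℝ) * l ^ S.card + l * (1 + l) ^ Y.card)) =
        (1 + l) * ((1 + l) * ∑ S ∈ Y.powerset, (S.card : ℝ) * l ^ S.card) +
          (1 + l) * l * (1 + l) ^ Y.card := by ring
    rw [h3, ih]
    push_cast
    ring

theorem trnc {α : Type*} [DecidableEq α] {l : ℝ} (hl : 0 ≤ l) (Y : Finset α) (b : ℕ)
    (hb : 2 * l * Y.card ≤ b) :
    (1 + l) ^ Y.card ≤ 2 * ∑ S ∈ Y.powerset.filter (fun S => S.card ≤ b), l ^ S.card := by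
  have h0 := TRNC_mean l Y
  have h2 : ∑ S ∈ Y.powerset, l ^ S.card = (1 + l) ^ Y.card := by
    have := Finset.sum_pow_mul_eq_add_pow l (1 : ℝ) Y
    simp only [one_pow, mul_one] at this
    rw [this, add_comm]
  have h3 := Finset.sum_filter_add_sum_filter_not Y.powerset (fun S => S.card ≤ b)
    (fun S => l ^ S.card)
  set A := ∑ S ∈ Y.powerset.filter (fun S => S.card ≤ b), l ^ S.card with hA
  set C := ∑ S ∈ Y.powerset.filter (fun S => ¬ S.card ≤ b), l ^ S.card with hC
  have h4 : ((b : ℝ) + 1) * C ≤ ∑ S ∈ Y.powerset, (S.card : ℝ) * l ^ S.card := by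
    rw [hC, mul_sum]
    refine (sum_le_sum fun S hS => ?_).trans
      (sum_le_sum_of_subset_of_nonneg (filter_subset _ _) fun S _ _ => by positivity)
    have h5 : b + 1 ≤ S.card := by
      have := (mem_filter.mp hS).2
      omega
    have h6 : (b : ℝ) + 1 ≤ S.card := by exact_mod_cast h5
    exact mul_le_mul_of_nonneg_right h6 (by positivity)
  have hC0 : 0 ≤ C := sum_nonneg fun S _ => by positivity
  have hP : 0 ≤ (1 + l) ^ Y.card := by positivity
  have hM : 0 ≤ ∑ S ∈ Y.powerset, (S.card : ℝ) * l ^ S.card :=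
    sum_nonneg fun S _ => by positivity
  have h7 : ((b : ℝ) + 1) * C ≤ b / 2 * (1 + l) ^ Y.card := by
    have h8 : ∑ S ∈ Y.powerset, (S.card : ℝ) * l ^ S.card ≤
        (1 + l) * ∑ S ∈ Y.powerset, (S.card : ℝ) * l ^ S.card := by
      nlinarith
    have h9 : (Y.card : ℝ) * l * (1 + l) ^ Y.card ≤ b / 2 * (1 + l) ^ Y.card :=
      mul_le_mul_of_nonneg_right (by linarith) hP
    linarith
  have h10 : C ≤ (1 + l) ^ Y.card / 2 := by
    have hb0 : (0 : ℝ) ≤ b := by positivity
    have : ((b : ℝ) + 1) * C ≤ ((b : ℝ) + 1) * ((1 + l) ^ Y.card / 2) := by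
      nlinarith
    exact le_of_mul_le_mul_left this (by positivity)
  linarith

end Pool.Agent.Lib.MP_c6118e_pr.Win
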