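import Pool.Agent.Lib.MP_c6118e_pr.Win.FR
import Pool.Agent.Lib.MP_c6118e_pr.Win.TRNC
import Pool.Agent.Lib.MP_c6118e_pr.Win.TOOL

/-! # PNR: poor heavy particles are charged to R -/

namespace Pool.Agent.Lib.MP_c6118e_pr.Win

open Finset Real
open scoped Classical

variable {d : ℕ}

/-- the vertices which may be filled after `q` is removed -/
noncomputable def PNR_Y (s : Finset (V d)) (q : V d) : Finset (V d) :=
  (Fset s q).image fun i => nb i q

theorem PNR_Y_card (s : Finset (V d)) (q : V d) : (PNR_Y s q).card = Fr s q := by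
  unfold PNR_Y Fr
  exact card_image_of_injective _ fun i j h => nb_inj h

/-- the new configuration -/
noncomputable def PNR_phi (q : V d) (s A : Finset (V d)) : Finset (V d) := (s \ {q}) ∪ A

theorem PNR_A_par {s A : Finset (V d)} {q z : V d} (hA : A ⊆ PNR_Y s q) (hz : z ∈ A) :
    par z = par q + 1 := by
  have h := hA hz
  unfold PNR_Y at h
  rw [mem_image] at h
  obtain ⟨i, _, rfl⟩ := h
  exact par_nb i q

theorem PNR_A_nb {s A : Finset (V d)} {q z : V d} (hA : A ⊆ PNR_Y s q) (hz : z ∈ A) :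
    ∃ i ∈ Fset s q, z = nb i q := by
  have h := hA hz
  unfold PNR_Y at h
  rw [mem_image] at h
  obtain ⟨i, hi, rfl⟩ := h
  exact ⟨i, hi, rfl⟩

theorem PNR_par_ne (p : ZMod 2) : p + 1 ≠ p := by
  intro h
  have : (1 : ZMod 2) = 0 := by
    have h2 := congrArg (fun z => z - p) h
    simp at h2
  exact absurd this (by decide)

theorem PNR_Ind {s A : Finset (V d)} {q : V d} (hs : Ind s) (hA : A ⊆ PNR_Y s q) :
    Ind (PNR_phi q s A) := by
  intro z hz i hzi
  unfold PNR_phi at hz hzi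
  rw [mem_union, mem_sdiff, mem_singleton] at hz hzi
  rcases hz with hz | hz
  · rcases hzi with hzi | hzi
    · exact hs z hz.1 i hzi.1
    · obtain ⟨j, hj, h1⟩ := PNR_A_nb hA hzi
      unfold Fset at hj
      rw [mem_filter] at hj
      have h2 : z = nb i (nb j q) := by rw [← h1, nb_nb]
      have hij : i ≠ j := by
        rintro rfl
        rw [nb_nb] at h2
        exact hz.2 h2
      exact hj.2 i hij (h2 ▸ hz.1)
  · obtain ⟨j, hj, rfl⟩ := PNR_A_nb hA hz
    rcases hzi with hzi | hzi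
    · unfold Fset at hj
      rw [mem_filter] at hj
      have hij : i ≠ j := by
        rintro rfl
        rw [nb_nb] at hzi
        exact hzi.2 rfl
      exact hj.2 i hij hzi.1
    · have h1 := PNR_A_par hA hzi
      rw [par_nb, par_nb] at h1
      exact PNR_par_ne _ h1

theorem PNR_Fset {s A : Finset (V d)} {q : V d} (hA : A ⊆ PNR_Y s q) :
    Fset (PNR_phi q s A) q = Fset s q := by
  unfold Fset
  apply filter_congr
  intro i _
  constructor
  · intro h j hj h1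
    apply h j hj
    unfold PNR_phi
    rw [mem_union, mem_sdiff, mem_singleton]
    refine Or.inl ⟨h1, fun h2 => hj ?_⟩
    have h3 : nb j (nb i q) = nb j (nb j q) := by rw [h2, nb_nb]
    exact (nb_inj (nb_injective j h3)).symm
  · intro h j hj h1
    unfold PNR_phi at h1
    rw [mem_union, mem_sdiff, mem_singleton] at h1
    rcases h1 with h1 | h1
    · exact h j hj h1.1
    · have h2 := PNR_A_par hA h1
      rw [par_nb_nb] at h2
      exact PNR_par_ne _ h2.symm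

theorem PNR_Fr {s A : Finset (V d)} {q : V d} (hA : A ⊆ PNR_Y s q) :
    Fr (PNR_phi q s A) q = Fr s q := by
  unfold Fr
  rw [PNR_Fset hA]

theorem PNR_Fr_le (s A : Finset (V d)) (q v : V d) :
    Fr s v ≤ Fr (PNR_phi q s A) v + 2 * A.card :=
  (Fr_anti (sdiff_subset (s := s) (t := {q})) v).trans (Fr_le_union _ _ _)

theorem PNR_Rp {T l c r' : ℝ} (hl : 0 < l) {b : ℕ} (hc : r' ≤ c) (hT : r' ≤ T - 2 * l * b)
    {s A : Finset (V d)} {q : V d} (hA : A ⊆ PNR_Y s q) (hAb : A.card ≤ b)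
    (hN : Nm T l s q) (hF : c ≤ l * (Fr s q : ℝ)) : Rp l r' (PNR_phi q s A) q := by
  refine ⟨?_, ?_⟩
  · rw [PNR_Fr hA]
    exact hc.trans hF
  · unfold Nm at hN
    refine hN.trans (Nat.mul_le_mul_left _ (card_le_card ?_))
    intro i hi
    rw [mem_filter] at hi ⊢
    refine ⟨hi.1, ?_⟩
    have h1 := PNR_Fr_le s A q (nb i q)
    have h2 : Fr s (nb i q) ≤ Fr (PNR_phi q s A) (nb i q) + 2 * b := by omega
    have h3 : (Fr s (nb i q) : ℝ) ≤ Fr (PNR_phi q s A) (nb i q) + 2 * b := by exact_mod_cast h2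
    have h4 := mul_le_mul_of_nonneg_left h3 hl.le
    have h5 : l * ((Fr (PNR_phi q s A) (nb i q) : ℝ) + 2 * b) =
        l * (Fr (PNR_phi q s A) (nb i q) : ℝ) + 2 * l * b := by ring
    linarith [hi.2]

theorem PNR_inter {s A : Finset (V d)} {q : V d} (hs : Ind s) (hq : q ∈ s)
    (hA : A ⊆ PNR_Y s q) : PNR_phi q s A ∩ Nbr q = A := by
  ext z
  unfold PNR_phi Nbr
  rw [mem_inter, mem_union, mem_sdiff, mem_singleton, mem_filter]
  constructor
  · rintro ⟨h1 | h1, _, i, rfl⟩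
    · exact absurd h1.1 (hs q hq i)
    · exact h1
  · intro h
    obtain ⟨i, _, h1⟩ := PNR_A_nb hA h
    exact ⟨Or.inr h, mem_univ _, i, h1⟩

theorem PNR_back {s A : Finset (V d)} {q : V d} (hs : Ind s) (hq : q ∈ s)
    (hA : A ⊆ PNR_Y s q) : insert q (PNR_phi q s A \ A) = s := by
  ext z
  unfold PNR_phi
  rw [mem_insert, mem_sdiff, mem_union, mem_sdiff, mem_singleton]
  constructor
  · rintro (rfl | ⟨h1 | h1, h2⟩)
    · exact hq
    · exact h1.1
    · exact absurd h1 h2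
  · intro h
    by_cases hz : z = q
    · exact Or.inl hz
    · refine Or.inr ⟨Or.inl ⟨h, hz⟩, fun h1 => ?_⟩
      obtain ⟨i, _, rfl⟩ := PNR_A_nb hA h1
      exact hs q hq i h

theorem PNR_card {s A : Finset (V d)} {q : V d} (hs : Ind s) (hq : q ∈ s)
    (hA : A ⊆ PNR_Y s q) : (PNR_phi q s A).card + 1 = s.card + A.card := by
  unfold PNR_phi
  have hdis : Disjoint (s \ {q}) A := by
    rw [disjoint_left]
    intro z hz h1
    rw [mem_sdiff] at hz
    obtain ⟨i, _, rfl⟩ := PNR_A_nb hA h1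
    exact hs q hq i hz.1
  rw [card_union_of_disjoint hdis]
  have h2 : (s \ {q}).card + 1 = s.card := by
    have := card_sdiff_add_card_eq_card (singleton_subset_iff.2 hq)
    simpa using this
  omega

/-- one particle -/
theorem PNR_one {T l c r' m e1 dl G : ℝ} (hl : 0 < l) (x : ℝ) (b : ℕ) (hb : 2 * l * d ≤ b)
    (hc : r' ≤ c) (hT : r' ≤ T - 2 * l * b) (hm : 0 ≤ m) (hdl0 : 0 ≤ dl) (hG : 0 ≤ G)
    (hdl : ∀ F : ℕ, F ≤ d → c ≤ l * F → 2 * l * (m + G * F) ≤
      dl * (1 + l) ^ F * exp (-(e1 * (l * F)))) (q : V d) :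
    avU l x (fun s => if q ∈ s ∧ Nm T l s q ∧ c ≤ l * (Fr s q : ℝ) then
      m + G * (Fr s q : ℝ) else 0) ≤
      dl * avU (d := d) l (x - 1) (fun s => eR l e1 r' q s) := by
  have hl1 : (0 : ℝ) < 1 + l := by linarith
  set S0 : Finset (Finset (V d)) := (Bx d x).filter
    (fun s => q ∈ s ∧ Nm T l s q ∧ c ≤ l * (Fr s q : ℝ)) with hS0
  set S1 : Finset (Σ _ : Finset (V d), Finset (V d)) :=
    S0.sigma fun s => (PNR_Y s q).powerset.filter fun A => A.card ≤ b with hS1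
  have hmem : ∀ p ∈ S1, p.1 ∈ Bx d x ∧ q ∈ p.1 ∧ Nm T l p.1 q ∧ c ≤ l * (Fr p.1 q : ℝ) ∧
      p.2 ⊆ PNR_Y p.1 q ∧ p.2.card ≤ b := by
    intro p hp
    rw [hS1, mem_sigma, hS0, mem_filter, mem_filter, mem_powerset] at hp
    exact ⟨hp.1.1, hp.1.2.1, hp.1.2.2.1, hp.1.2.2.2, hp.2.1, hp.2.2⟩
  have hInd : ∀ s ∈ Bx d x, Ind s := fun s hs => mem_Om.1 (Bx_sub_Om _ hs)
  have h1 : ∑ p ∈ S1, l ^ p.1.card * l ^ p.2.card *
      (2 * (m + G * (Fr p.1 q : ℝ)) / (1 + l) ^ (Fr p.1 q)) ≤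
      avU (d := d) l (x - 1) (fun s => dl * eR l e1 r' q s) := by
    refine transfer S1 _ (fun p => PNR_phi q p.1 p.2) hl.le ?_ ?_ ?_ ?_
    · intro p hp
      obtain ⟨a1, a2, a3, a4, a5, a6⟩ := hmem p hp
      have h2 := sdiff_union_mem_Bx (x := x) (s := p.1) (C := {q}) (S := p.2) (a := 1) a1
        (by simp) (mem_Om.2 (PNR_Ind (hInd _ a1) a5))
      rw [Nat.cast_one] at h2
      exact h2
    · intro p hp p' hp' he
      obtain ⟨a1, a2, a3, a4, a5, a6⟩ := hmem p hp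
      obtain ⟨b1, b2, b3, b4, b5, b6⟩ := hmem p' hp'
      have he' : PNR_phi q p.1 p.2 = PNR_phi q p'.1 p'.2 := he
      have e1 : p.2 = p'.2 := by
        rw [← PNR_inter (hInd _ a1) a2 a5, ← PNR_inter (hInd _ b1) b2 b5, he']
      have e2 : p.1 = p'.1 := by
        rw [← PNR_back (hInd _ a1) a2 a5, ← PNR_back (hInd _ b1) b2 b5, he', e1]
      obtain ⟨p1, p2⟩ := p
      obtain ⟨q1, q2⟩ := p'
      simp only at e1 e2
      subst e1; subst e2; rfl
    · intro s hs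
      by_cases hF : Rp l r' s q
      · unfold eR
        rw [if_pos hF]
        positivity
      · unfold eR
        rw [if_neg hF, mul_zero]
    · intro p hp
      obtain ⟨a1, a2, a3, a4, a5, a6⟩ := hmem p hp
      have hR : Rp l r' (PNR_phi q p.1 p.2) q := PNR_Rp hl hc hT a5 a6 a3 a4
      unfold eR
      rw [if_pos hR, PNR_Fr a5]
      have h3 := hdl (Fr p.1 q) (Fr_le _ _) a4
      have h4 := PNR_card (hInd _ a1) a2 a5
      have h5 : l ^ p.1.card * l ^ p.2.card = l ^ (PNR_phi q p.1 p.2).card * l := by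
        rw [← pow_add, ← h4, pow_succ]
      rw [h5, mul_assoc]
      refine mul_le_mul_of_nonneg_left ?_ (by positivity)
      rw [← mul_div_assoc, div_le_iff₀ (by positivity)]
      have h6 : dl * exp (-(e1 * (l * (Fr p.1 q : ℝ)))) * (1 + l) ^ Fr p.1 q =
        dl * (1 + l) ^ Fr p.1 q * exp (-(e1 * (l * (Fr p.1 q : ℝ)))) := by ring
      rw [h6]
      linarith
  rw [avU_mul] at h1
  refine le_trans ?_ h1
  rw [hS1, sum_sigma]
  unfold avU
  rw [hS0, sum_filter]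
  refine sum_le_sum fun s _ => ?_
  beta_reduce
  by_cases hcond : q ∈ s ∧ Nm T l s q ∧ c ≤ l * (Fr s q : ℝ)
  · rw [if_pos hcond, if_pos hcond]
    have h2 : ∑ A ∈ (PNR_Y s q).powerset.filter (fun A => A.card ≤ b),
        l ^ s.card * l ^ A.card * (2 * (m + G * (Fr s q : ℝ)) / (1 + l) ^ (Fr s q)) =
        l ^ s.card * ((m + G * (Fr s q : ℝ)) / (1 + l) ^ (Fr s q) *
          (2 * ∑ A ∈ (PNR_Y s q).powerset.filter (fun A => A.card ≤ b), l ^ A.card)) := by
      rw [mul_sum, mul_sum, mul_sum]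
      refine sum_congr rfl fun A _ => ?_
      ring
    rw [h2]
    refine mul_le_mul_of_nonneg_left ?_ (by positivity)
    have h3 := trnc hl.le (PNR_Y s q) b (by
      rw [PNR_Y_card]
      have : (Fr s q : ℝ) ≤ d := by exact_mod_cast Fr_le s q
      have := mul_le_mul_of_nonneg_left this (by linarith : (0 : ℝ) ≤ 2 * l)
      linarith)
    rw [PNR_Y_card] at h3
    have h4 : (0 : ℝ) ≤ (m + G * (Fr s q : ℝ)) / (1 + l) ^ (Fr s q) := by positivity
    refine le_trans ?_ (mul_le_mul_of_nonneg_left h3 h4)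
    rw [div_mul_cancel₀ _ (by positivity)]
  · rw [if_neg hcond, if_neg hcond, mul_zero]

/-- replace `q` by opposite particles around it -/
theorem pnr {T l C2 c r' m e1 dl : ℝ} (hl : 0 < l) (x : ℝ) (b : ℕ) (hb : 2 * l * d ≤ b)
    (hc : r' ≤ c) (hT : r' ≤ T - 2 * l * b) (hm : 0 ≤ m) (hdl0 : 0 ≤ dl)
    (hdl : ∀ F : ℕ, F ≤ d → c ≤ l * F → 2 * l * (m + 2 * exp (2 * (C2 + 1)) * F) ≤
      dl * (1 + l) ^ F * exp (-(e1 * (l * F)))) :
    ∑ k : Fin d, avU l x (fun s => ((s.filter fun q => Nm T l s q ∧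
      l * (Fn T l s (nb k q) : ℝ) < C2 ∧ c ≤ l * (Fr s q : ℝ) ∧ ¬ Ct T l s (nb k q) ∧
      ¬ LAx l (C2 + 1) m s q).card : ℝ)) ≤
      dl * avU (d := d) l (x - 1) (fun s => Rw l e1 r' s) := by
  have h1 : (fun s : Finset (V d) => Rw l e1 r' s) = fun s => ∑ q : V d, eR l e1 r' q s := by
    funext s
    unfold Rw eR
    rw [sum_filter]
  rw [h1, avU_sum, mul_sum, ← avU_sum]
  have h2 : ∀ q ∈ (univ : Finset (V d)), avU l x (fun s => if q ∈ s ∧ Nm T l s q ∧
      c ≤ l * (Fr s q : ℝ) then m + 2 * exp (2 * (C2 + 1)) * (Fr s q : ℝ) else 0) ≤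
      dl * avU (d := d) l (x - 1) (fun s => eR l e1 r' q s) := fun q _ =>
    PNR_one hl x b hb hc hT hm hdl0 (by positivity) hdl q
  refine le_trans ?_ (sum_le_sum h2)
  rw [← avU_sum]
  refine avU_mono hl.le fun s hs => ?_
  have hInd : Ind s := mem_Om.1 (Bx_sub_Om _ hs)
  have h3 : ∀ k : Fin d, ((s.filter fun q => Nm T l s q ∧
      l * (Fn T l s (nb k q) : ℝ) < C2 ∧ c ≤ l * (Fr s q : ℝ) ∧ ¬ Ct T l s (nb k q) ∧
      ¬ LAx l (C2 + 1) m s q).card : ℝ) = ∑ q : V d, if q ∈ s ∧ Nm T l s q ∧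
      l * (Fn T l s (nb k q) : ℝ) < C2 ∧ c ≤ l * (Fr s q : ℝ) ∧ ¬ Ct T l s (nb k q) ∧
      ¬ LAx l (C2 + 1) m s q then (1 : ℝ) else 0 := by
    intro k
    rw [← sum_filter, sum_const, nsmul_eq_mul, mul_one]
    congr 2
    ext q
    simp only [mem_filter, mem_univ, true_and]
  simp only [h3]
  rw [sum_comm]
  refine sum_le_sum fun q _ => ?_
  by_cases hcond : q ∈ s ∧ Nm T l s q ∧ c ≤ l * (Fr s q : ℝ)
  · rw [if_pos hcond, ← sum_filter, sum_const, nsmul_eq_mul, mul_one]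
    by_cases hLA : LAx l (C2 + 1) m s q
    · have : (univ.filter fun k : Fin d => q ∈ s ∧ Nm T l s q ∧
          l * (Fn T l s (nb k q) : ℝ) < C2 ∧ c ≤ l * (Fr s q : ℝ) ∧ ¬ Ct T l s (nb k q) ∧
          ¬ LAx l (C2 + 1) m s q) = ∅ := by
        rw [filter_eq_empty_iff]
        rintro k _ ⟨_, _, _, _, _, h⟩
        exact h hLA
      rw [this, card_empty, Nat.cast_zero]
      positivity
    · have hsub : (univ.filter fun k : Fin d => q ∈ s ∧ Nm T l s q ∧
          l * (Fn T l s (nb k q) : ℝ) < C2 ∧ c ≤ l * (Fr s q : ℝ) ∧ ¬ Ct T l s (nb k q) ∧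
          ¬ LAx l (C2 + 1) m s q) ⊆
          univ.filter fun i => l * (Fr s (nb i q) : ℝ) < C2 + 1 := by
        intro k hk
        rw [mem_filter] at hk ⊢
        obtain ⟨_, _, _, h4, _, h5, _⟩ := hk
        refine ⟨mem_univ _, ?_⟩
        have h6 := Fr_le_Fn hl (hInd q hcond.1 k) h5
        linarith
      have h7 : ((univ.filter fun k : Fin d => q ∈ s ∧ Nm T l s q ∧
          l * (Fn T l s (nb k q) : ℝ) < C2 ∧ c ≤ l * (Fr s q : ℝ) ∧ ¬ Ct T l s (nb k q) ∧
          ¬ LAx l (C2 + 1) m s q).card : ℝ) ≤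
          ((univ.filter fun i => l * (Fr s (nb i q) : ℝ) < C2 + 1).card : ℝ) := by
        exact_mod_cast card_le_card hsub
      refine h7.trans ?_
      unfold LAx at hLA
      by_cases h8 : m < ((univ.filter fun i => l * (Fr s (nb i q) : ℝ) < C2 + 1).card : ℝ)
      · have h9 : ¬ (2 * exp (2 * (C2 + 1)) * (Fr s q : ℝ) <
            ((univ.filter fun i => l * (Fr s (nb i q) : ℝ) < C2 + 1).card : ℝ)) :=
          fun h => hLA ⟨h8, h⟩
        linarith [not_lt.1 h9]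
      · have h10 : 0 ≤ 2 * exp (2 * (C2 + 1)) * (Fr s q : ℝ) := by positivity
        linarith [not_lt.1 h8]
  · rw [if_neg hcond]
    apply le_of_eq
    apply sum_eq_zero
    intro k _
    rw [if_neg]
    rintro ⟨h4, h5, _, h6, _⟩
    exact hcond ⟨h4, h5, h6⟩

end Pool.Agent.Lib.MP_c6118e_pr.Win
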