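import Pool.Agent.Lib.MP_c6118e_pr.Win.FR
import Pool.Agent.Lib.MP_c6118e_pr.Win.PNL
import Pool.Agent.Lib.MP_c6118e_pr.Win.PNR

/-! # PNT: all poor particles -/

namespace Pool.Agent.Lib.MP_c6118e_pr.Win

open Finset Real
open scoped Classical

variable {d : ℕ}

/-- pointwise bound of the number of poor particles -/
theorem PNT_point {T l C2 C6 c m : ℝ} (n : ℕ) (k : Fin d) (s : Finset (V d)) :
    (PNn T l C2 k s : ℝ) ≤
      ((s.filter fun q => Nm T l s q ∧
        l * (Fn T l s (nb k q) : ℝ) < C2 ∧ l * (Fr s q : ℝ) < c ∧ ¬ Ct T l s (nb k q) ∧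
        nOcc s (nb k q) ≤ n).card : ℝ) +
      ((s.filter fun q => Nm T l s q ∧
        l * (Fn T l s (nb k q) : ℝ) < C2 ∧ c ≤ l * (Fr s q : ℝ) ∧ ¬ Ct T l s (nb k q) ∧
        ¬ LAx l (C2 + 1) m s q).card : ℝ) +
      2 * ∑ v : V d, if Exc T l C2 C6 m n s v then (1 : ℝ) else 0 := by
  set A := s.filter fun q => Nm T l s q ∧
        l * (Fn T l s (nb k q) : ℝ) < C2 ∧ l * (Fr s q : ℝ) < c ∧ ¬ Ct T l s (nb k q) ∧
        nOcc s (nb k q) ≤ n with hA
  set B := s.filter fun q => Nm T l s q ∧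
        l * (Fn T l s (nb k q) : ℝ) < C2 ∧ c ≤ l * (Fr s q : ℝ) ∧ ¬ Ct T l s (nb k q) ∧
        ¬ LAx l (C2 + 1) m s q with hB
  set X := univ.filter (fun v : V d => Exc T l C2 C6 m n s v) with hX
  set Y := univ.filter (fun v : V d => Exc T l C2 C6 m n s (nb k v)) with hY
  have h1 : (∑ v : V d, if Exc T l C2 C6 m n s v then (1 : ℝ) else 0) = X.card := by
    rw [hX, ← sum_filter, sum_const, nsmul_eq_mul, mul_one]
  have h2 : Y.card ≤ X.card := by
    refine card_le_card_of_injOn (nb k) ?_ fun a _ b _ hab => nb_injective k hab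
    intro v hv
    rw [hY, mem_coe, mem_filter] at hv
    rw [hX, mem_coe, mem_filter]
    exact ⟨mem_univ _, hv.2⟩
  have h3 : (s.filter fun q => Nm T l s q ∧ l * (Fn T l s (nb k q) : ℝ) < C2) ⊆
      (A ∪ B) ∪ (X ∪ Y) := by
    intro q hq
    rw [mem_filter] at hq
    obtain ⟨hqs, hN, hF⟩ := hq
    by_cases hx : Exc T l C2 C6 m n s q
    · exact mem_union_right _ (mem_union_left _ (mem_filter.2 ⟨mem_univ _, hx⟩))
    by_cases hy : Exc T l C2 C6 m n s (nb k q)
    · exact mem_union_right _ (mem_union_right _ (mem_filter.2 ⟨mem_univ _, hy⟩))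
    unfold Exc at hx hy
    push Not at hx hy
    refine mem_union_left _ ?_
    by_cases hc : l * (Fr s q : ℝ) < c
    · exact mem_union_left _ (mem_filter.2 ⟨hqs, hN, hF, hc, hy.2.2.2.2, hy.1⟩)
    · exact mem_union_right _ (mem_filter.2 ⟨hqs, hN, hF, not_lt.1 hc, hy.2.2.2.2, hx.2.2.1⟩)
  have h4 : PNn T l C2 k s ≤ A.card + B.card + (X.card + Y.card) := by
    unfold PNn
    refine (card_le_card h3).trans ((card_union_le _ _).trans ?_)
    exact Nat.add_le_add (card_union_le _ _) (card_union_le _ _)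
  have h5 : (PNn T l C2 k s : ℝ) ≤ A.card + B.card + (X.card + Y.card) := by exact_mod_cast h4
  have h6 : (Y.card : ℝ) ≤ X.card := by exact_mod_cast h2
  rw [h1]
  linarith

theorem pnt {T l C2 C6 c c' r' m e1 dl Lam P E : ℝ} (hl : 0 < l) (x : ℝ) (n b : ℕ)
    (hn : 1 ≤ n) (hc : c + 2 * l * n ≤ c') (hC2 : C2 + 1 ≤ c') (hb : 2 * l * d ≤ b)
    (hr : r' ≤ c) (hT : r' ≤ T - 2 * l * b) (hm : 0 ≤ m) (hLam : 0 < Lam) (hdl0 : 0 ≤ dl)
    (hdl : ∀ F : ℕ, F ≤ d → c ≤ l * F → 2 * l * (m + 2 * exp (2 * (C2 + 1)) * F) ≤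
      dl * (1 + l) ^ F * exp (-(e1 * (l * F))))
    (hF : Lam * l * avU (d := d) l (x - n) (fun s => (FFn l c' s : ℝ)) ≤ 51 / 50 * P)
    (hR : avU (d := d) l (x - n) (fun s => Rw l e1 r' s) ≤ 51 / 50 * P)
    (hE : ∀ v : V d, avU l x (fun s => if Exc T l C2 C6 m n s v then (1 : ℝ) else 0) ≤ E) :
    ∑ k : Fin d, avU l x (fun s => (PNn T l C2 k s : ℝ)) ≤
      (exp (C2 + 1) / Lam + dl) * (51 / 50) * P + 2 * d * 2 ^ d * E := by
  have hL := pnl (d := d) (T := T) (C2 := C2) (c := c) (c' := c') hl x n hc hC2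
  have hRR := pnr (d := d) (T := T) (C2 := C2) (c := c) (r' := r') (m := m) (e1 := e1) (dl := dl)
    hl x b hb hr hT hm hdl0 hdl
  have h1 : ∀ k : Fin d, avU l x (fun s => (PNn T l C2 k s : ℝ)) ≤
      avU l x (fun s => ((s.filter fun q => Nm T l s q ∧
        l * (Fn T l s (nb k q) : ℝ) < C2 ∧ l * (Fr s q : ℝ) < c ∧ ¬ Ct T l s (nb k q) ∧
        nOcc s (nb k q) ≤ n).card : ℝ)) +
      avU l x (fun s => ((s.filter fun q => Nm T l s q ∧
        l * (Fn T l s (nb k q) : ℝ) < C2 ∧ c ≤ l * (Fr s q : ℝ) ∧ ¬ Ct T l s (nb k q) ∧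
        ¬ LAx l (C2 + 1) m s q).card : ℝ)) + 2 * (2 ^ d * E) := by
    intro k
    have e1 : avU l x (fun s => (PNn T l C2 k s : ℝ)) ≤ avU l x (fun s =>
        (((s.filter fun q => Nm T l s q ∧
          l * (Fn T l s (nb k q) : ℝ) < C2 ∧ l * (Fr s q : ℝ) < c ∧ ¬ Ct T l s (nb k q) ∧
          nOcc s (nb k q) ≤ n).card : ℝ) +
        ((s.filter fun q => Nm T l s q ∧
          l * (Fn T l s (nb k q) : ℝ) < C2 ∧ c ≤ l * (Fr s q : ℝ) ∧ ¬ Ct T l s (nb k q) ∧
          ¬ LAx l (C2 + 1) m s q).card : ℝ)) +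
        2 * ∑ v : V d, if Exc T l C2 C6 m n s v then (1 : ℝ) else 0) :=
      avU_mono hl.le fun s _ => PNT_point n k s
    refine e1.trans ?_
    rw [avU_add, avU_add, avU_mul, avU_sum]
    have e2 : ∑ v : V d, avU l x (fun s => if Exc T l C2 C6 m n s v then (1 : ℝ) else 0) ≤
        2 ^ d * E := by
      calc ∑ v : V d, avU l x (fun s => if Exc T l C2 C6 m n s v then (1 : ℝ) else 0)
          ≤ ∑ _v : V d, E := sum_le_sum fun v _ => hE v
        _ = 2 ^ d * E := by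
            rw [sum_const, card_univ, card_V, nsmul_eq_mul]
            push_cast
            ring
    linarith
  have h2 := sum_le_sum fun (k : Fin d) (_ : k ∈ univ) => h1 k
  rw [sum_add_distrib, sum_add_distrib, sum_const, card_univ, Fintype.card_fin,
    nsmul_eq_mul] at h2
  have h3 : avU (d := d) l (x - 1) (fun s => Rw l e1 r' s) ≤
      avU (d := d) l (x - n) (fun s => Rw l e1 r' s) := by
    refine avU_anti hl.le ?_ fun s _ => ?_
    · have : (1 : ℝ) ≤ n := by exact_mod_cast hn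
      linarith
    · unfold Rw
      exact sum_nonneg fun v _ => (Real.exp_pos _).le
  have h4 : dl * avU (d := d) l (x - 1) (fun s => Rw l e1 r' s) ≤ dl * (51 / 50 * P) :=
    mul_le_mul_of_nonneg_left (h3.trans hR) hdl0
  have h5 : l * exp (C2 + 1) * avU (d := d) l (x - n) (fun s => (FFn l c' s : ℝ)) ≤
      exp (C2 + 1) / Lam * (51 / 50 * P) := by
    have e1 : l * exp (C2 + 1) * avU (d := d) l (x - n) (fun s => (FFn l c' s : ℝ)) =
        exp (C2 + 1) / Lam *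
          (Lam * l * avU (d := d) l (x - n) (fun s => (FFn l c' s : ℝ))) := by
      field_simp
    rw [e1]
    exact mul_le_mul_of_nonneg_left hF (by positivity)
  have h6 : (exp (C2 + 1) / Lam + dl) * (51 / 50) * P =
      exp (C2 + 1) / Lam * (51 / 50 * P) + dl * (51 / 50 * P) := by ring
  rw [h6]
  have h7 : (d : ℝ) * (2 * (2 ^ d * E)) = 2 * d * 2 ^ d * E := by ring
  rw [h7] at h2
  linarith

end Pool.Agent.Lib.MP_c6118e_pr.Win
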