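import Pool.Agent.Lib.MP_c6118e_pr.Win.FR
import Pool.Agent.Lib.MP_c6118e_pr.Win.TRNC
import Pool.Agent.Lib.MP_c6118e_pr.Win.TOOL

/-! # LTAIL: lower tail of the number of normal mark-1 particles -/

namespace Pool.Agent.Lib.MP_c6118e_pr.Win

open Finset Real
open scoped Classical

variable {d : ℕ}

/-- the available normal neighbours of `w` -/
noncomputable def ltY (T l : ℝ) (s : Finset (V d)) (w : V d) : Finset (V d) :=
  (univ.filter fun i => An T l s (nb i w)).image fun i => nb i w

theorem lt_mem {T l : ℝ} {s : Finset (V d)} {w z : V d} :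
    z ∈ ltY T l s w ↔ An T l s z ∧ ∃ i, z = nb i w := by
  unfold ltY
  rw [mem_image]
  constructor
  · rintro ⟨i, hi, rfl⟩
    exact ⟨(mem_filter.1 hi).2, i, rfl⟩
  · rintro ⟨h, i, rfl⟩
    exact ⟨i, mem_filter.2 ⟨mem_univ _, h⟩, rfl⟩

theorem lt_card (T l : ℝ) (s : Finset (V d)) (w : V d) :
    (ltY T l s w).card = Fn T l s w := by
  unfold ltY Fn
  exact card_image_of_injective _ fun i j h => nb_inj h

theorem lt_par {T l : ℝ} {s : Finset (V d)} {w z : V d} (h : z ∈ ltY T l s w) :
    par z = par w + 1 := by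
  obtain ⟨_, i, rfl⟩ := lt_mem.1 h
  exact par_nb i w

theorem lt_congr {T l : ℝ} {s s' : Finset (V d)} {w : V d}
    (h : ∀ z, par z = par w → (z ∈ s ↔ z ∈ s')) : ltY T l s w = ltY T l s' w := by
  ext z
  rw [lt_mem, lt_mem]
  refine and_congr_left fun hz => ?_
  obtain ⟨i, rfl⟩ := hz
  apply An_congr
  intro z hz
  apply h
  rw [hz, par_nb, add_assoc, zmod2_add_self, add_zero]

theorem lt_par_ne {w z : V d} (h : par z = par w + 1) : par z ≠ par w := by
  rw [h]
  intro h1
  exact one_ne_zero (add_eq_left.mp h1)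

theorem lt_sdiff {T l : ℝ} {s C : Finset (V d)} {w : V d} (hC : ∀ z ∈ C, par z = par w + 1) :
    ltY T l (s \ C) w = ltY T l s w := by
  apply lt_congr
  intro z hz
  rw [mem_sdiff]
  constructor
  · exact fun h => h.1
  · exact fun h => ⟨h, fun h1 => lt_par_ne (hC z h1) hz⟩

theorem lt_union {T l : ℝ} {s C : Finset (V d)} {w : V d} (hC : ∀ z ∈ C, par z = par w + 1) :
    ltY T l (s ∪ C) w = ltY T l s w := by
  apply lt_congr
  intro z hz
  rw [mem_union]
  constructor
  · rintro (h | h)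
    · exact h
    · exact absurd hz (lt_par_ne (hC z h))
  · exact fun h => Or.inl h

theorem lt_ind {T l : ℝ} {r S : Finset (V d)} {w : V d} (hr : Ind r) (hS : S ⊆ ltY T l r w) :
    Ind (r ∪ S) := by
  intro v hv i hi
  rw [mem_union] at hv hi
  rcases hv with hv | hv
  · rcases hi with hi | hi
    · exact hr v hv i hi
    · have h1 := (lt_mem.1 (hS hi)).1.1
      rw [nOcc_eq_zero] at h1
      have h2 := h1 i
      rw [nb_nb] at h2
      exact h2 hv
  · rcases hi with hi | hi
    · have h1 := (lt_mem.1 (hS hv)).1.1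
      rw [nOcc_eq_zero] at h1
      exact h1 i hi
    · have h1 := lt_par (hS hv)
      have h2 := lt_par (hS hi)
      rw [par_nb, h1] at h2
      exact one_ne_zero (add_eq_left.mp h2)

theorem lt_num {l : ℝ} (hl : 0 < l) (hl1 : l ≤ 1 / 100) {C' : ℝ} (F : ℕ) (h : C' ≤ l * F) :
    exp (log 4 * (l * F / 16)) * (1 + 5 * l / 8) ^ F * (2 * (1 + l) ^ 2) ≤
      3 * exp (-(7 / 25 * C')) * (1 + l) ^ F := by
  have h1 : 1 + 5 * l / 8 ≤ (1 + l) * exp (-(37 / 100 * l)) := by
    have h2 : 1 - 37 / 100 * l ≤ exp (-(37 / 100 * l)) := by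
      have := add_one_le_exp (-(37 / 100 * l)); linarith
    calc 1 + 5 * l / 8 ≤ (1 + l) * (1 - 37 / 100 * l) := by nlinarith
      _ ≤ _ := mul_le_mul_of_nonneg_left h2 (by linarith)
  have h3 : (1 + 5 * l / 8) ^ F ≤ (1 + l) ^ F * exp (-(37 / 100 * (l * F))) := by
    calc (1 + 5 * l / 8) ^ F ≤ ((1 + l) * exp (-(37 / 100 * l))) ^ F :=
          pow_le_pow_left₀ (by positivity) h1 F
      _ = (1 + l) ^ F * exp (-(37 / 100 * (l * F))) := by
          rw [mul_pow, ← exp_nat_mul]
          congr 2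
          ring
  have h4 : log 4 < 1.3863 := by
    have : (4 : ℝ) = 2 ^ 2 := by norm_num
    rw [this, log_pow]
    have := log_two_lt_d9
    push_cast
    linarith
  have h5 : 0 ≤ l * F := by positivity
  have h6 : exp (log 4 * (l * F / 16)) * exp (-(37 / 100 * (l * F))) ≤ exp (-(7 / 25 * C')) := by
    rw [← exp_add]
    apply exp_le_exp.2
    nlinarith
  have h7 : 2 * (1 + l) ^ 2 ≤ 3 := by nlinarith
  have h8 : 0 < (1 + l) ^ F := by positivity
  calc exp (log 4 * (l * F / 16)) * (1 + 5 * l / 8) ^ F * (2 * (1 + l) ^ 2)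
      ≤ exp (log 4 * (l * F / 16)) * ((1 + l) ^ F * exp (-(37 / 100 * (l * F)))) * 3 := by
        gcongr
    _ = 3 * (exp (log 4 * (l * F / 16)) * exp (-(37 / 100 * (l * F)))) * (1 + l) ^ F := by ring
    _ ≤ 3 * exp (-(7 / 25 * C')) * (1 + l) ^ F := by gcongr

theorem lt_powerset (s Y : Finset (V d)) :
    ∑ t ∈ s.powerset, ((1 : ℝ) / 4) ^ (t ∩ Y).card = 2 ^ (s \ Y).card * (5 / 4) ^ (s ∩ Y).card := by
  have h1 : ∀ t : Finset (V d), ((1 : ℝ) / 4) ^ (t ∩ Y).card =
      ∏ z ∈ t, (if z ∈ Y then (1 : ℝ) / 4 else 1) := by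
    intro t
    rw [prod_ite, prod_const, prod_const_one, mul_one, filter_mem_eq_inter]
  simp only [h1]
  rw [← prod_one_add]
  have h2 : ∀ z ∈ s, (1 + (if z ∈ Y then (1 : ℝ) / 4 else 1)) = if z ∈ Y then (5 : ℝ) / 4 else 2 := by
    intro z _
    split_ifs <;> norm_num
  rw [prod_congr rfl h2, prod_ite, prod_const, prod_const, filter_mem_eq_inter, mul_comm]
  congr 2
  congr 1
  ext z
  simp

theorem lt_tcard {T l : ℝ} {s t : Finset (V d)} {w : V d} :
    (univ.filter fun i => nb i w ∈ t ∧ An T l s (nb i w)).card = (t ∩ ltY T l s w).card := by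
  have : t ∩ ltY T l s w =
      (univ.filter fun i => nb i w ∈ t ∧ An T l s (nb i w)).image fun i => nb i w := by
    ext z
    rw [mem_inter, lt_mem, mem_image]
    constructor
    · rintro ⟨h1, h2, i, rfl⟩
      exact ⟨i, mem_filter.2 ⟨mem_univ _, h1, h2⟩, rfl⟩
    · rintro ⟨i, hi, rfl⟩
      rw [mem_filter] at hi
      exact ⟨hi.2.1, hi.2.2, i, rfl⟩
  rw [this, card_image_of_injective _ fun i j h => nb_inj h]

theorem lt_occ {T l : ℝ} {s : Finset (V d)} {w : V d} : (s ∩ ltY T l s w).card ≤ nOcc s w := by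
  rw [← lt_tcard (T := T) (l := l) (s := s) (t := s)]
  unfold nOcc
  apply card_le_card
  intro i hi
  rw [mem_filter] at hi ⊢
  exact ⟨hi.1, hi.2.1⟩

/-- the target sum -/
noncomputable def ltQ (T l : ℝ) (w : V d) (b : ℕ) (Fb : Finset (V d)) (e' : Finset (V d) → ℝ)
    (r : Finset (V d)) : ℝ :=
  ∑ S ∈ (ltY T l r w \ Fb).powerset.filter (fun S => S.card ≤ b), l ^ S.card * e' (r ∪ S)

theorem ltail {T l x : ℝ} (hl : 0 < l) (hl1 : l ≤ 1 / 100) (w : V d) (n b : ℕ)
    (Fb : Finset (V d)) (e e' : Finset (V d) → ℝ) (he : ∀ s, 0 ≤ e s) (he' : ∀ s, 0 ≤ e' s)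
    (hst : Stab (par w + 1) Fb n b e e')
    (hFb : (Fb.filter fun z => ∃ i, z = nb i w).card ≤ 2) (hb : 2 * l * d ≤ b) (C' : ℝ) :
    avM l x (fun s t => if nOcc s w ≤ n ∧ C' ≤ l * (Fn T l s w : ℝ) ∧
        16 * ((univ.filter fun i => nb i w ∈ t ∧ An T l s (nb i w)).card : ℝ) <
          l * (Fn T l s w : ℝ) then e s else 0) ≤
      3 * exp (-(7 / 25 * C')) * avU l (x - n) e' := by
  set D : Finset (Finset (V d)) :=
    (Bx d x).filter fun s => nOcc s w ≤ n ∧ C' ≤ l * (Fn T l s w : ℝ) with hD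
  set R : Finset (V d) → Finset (V d) := fun s => s \ ltY T l s w with hR
  have hRs : ∀ s, R s = s \ (s ∩ ltY T l s w) := fun s => by rw [hR]; exact (sdiff_inter_self_left s _).symm
  have hRY : ∀ s, ltY T l (R s) w = ltY T l s w := fun s => lt_sdiff fun z hz => lt_par hz
  have hRF : ∀ s, Fn T l (R s) w = Fn T l s w := fun s => by
    rw [← lt_card, ← lt_card, hRY]
  -- summing out the marks
  have hA : avM l x (fun s t => if nOcc s w ≤ n ∧ C' ≤ l * (Fn T l s w : ℝ) ∧
        16 * ((univ.filter fun i => nb i w ∈ t ∧ An T l s (nb i w)).card : ℝ) <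
          l * (Fn T l s w : ℝ) then e s else 0) ≤
      ∑ s ∈ D, e s * exp (log 4 * (l * (Fn T l s w : ℝ) / 16)) *
        (l ^ (R s).card * (5 * l / 8) ^ (s ∩ ltY T l s w).card) := by
    unfold avM
    rw [hD, sum_filter]
    refine sum_le_sum fun s _ => ?_
    by_cases hs : nOcc s w ≤ n ∧ C' ≤ l * (Fn T l s w : ℝ)
    · rw [if_pos hs]
      have h1 : ∀ t ∈ s.powerset, (l / 2) ^ s.card * (if nOcc s w ≤ n ∧
          C' ≤ l * (Fn T l s w : ℝ) ∧
          16 * ((univ.filter fun i => nb i w ∈ t ∧ An T l s (nb i w)).card : ℝ) <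
          l * (Fn T l s w : ℝ) then e s else 0) ≤
          (l / 2) ^ s.card * (e s * exp (log 4 * (l * (Fn T l s w : ℝ) / 16))) *
            (1 / 4) ^ (t ∩ ltY T l s w).card := by
        intro t _
        rw [mul_assoc]
        refine mul_le_mul_of_nonneg_left ?_ (by positivity)
        split_ifs with h
        · rw [lt_tcard] at h
          have h2 : 1 ≤ exp (log 4 * (l * (Fn T l s w : ℝ) / 16)) *
              (1 / 4) ^ (t ∩ ltY T l s w).card := by
            have h3 : ((1 : ℝ) / 4) ^ (t ∩ ltY T l s w).card =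
                exp (-(log 4 * (t ∩ ltY T l s w).card)) := by
              rw [one_div, inv_pow, exp_neg]
              congr 1
              rw [mul_comm, exp_nat_mul, exp_log (by norm_num)]
            rw [h3, ← exp_add]
            apply one_le_exp
            have h4 : 0 < log 4 := log_pos (by norm_num)
            nlinarith [h.2.2]
          calc e s = e s * 1 := (mul_one _).symm
            _ ≤ e s * (exp (log 4 * (l * (Fn T l s w : ℝ) / 16)) *
              (1 / 4) ^ (t ∩ ltY T l s w).card) := mul_le_mul_of_nonneg_left h2 (he s)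
            _ = _ := by ring
        · have := he s
          positivity
      refine (sum_le_sum h1).trans ?_
      rw [← mul_sum, lt_powerset]
      apply le_of_eq
      have h5 : s.card = (R s).card + (s ∩ ltY T l s w).card := by
        rw [hR]; exact (card_sdiff_add_card_inter s _).symm
      rw [h5, pow_add, hR]
      simp only
      have h6 : (l / 2) ^ (s \ ltY T l s w).card * 2 ^ (s \ ltY T l s w).card =
          l ^ (s \ ltY T l s w).card := by
        rw [← mul_pow]; congr 1; ring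
      have h7 : (l / 2) ^ (s ∩ ltY T l s w).card * (5 / 4) ^ (s ∩ ltY T l s w).card =
          (5 * l / 8) ^ (s ∩ ltY T l s w).card := by
        rw [← mul_pow]; congr 1; ring
      rw [← h6, ← h7]
      ring
    · rw [if_neg hs]
      refine (sum_eq_zero fun t _ => ?_).le
      beta_reduce
      rw [if_neg fun h => hs ⟨h.1, h.2.1⟩, mul_zero]
  -- comparison of the environments
  have hB : ∀ s ∈ D, e s * (1 + l) ^ (Fn T l s w) ≤
      2 * (1 + l) ^ 2 * ltQ T l w b Fb e' (R s) := by
    intro s hs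
    rw [hD, mem_filter] at hs
    have hsI : Ind s := (mem_Bx.1 hs.1).1
    have h1 : (1 + l) ^ (Fn T l s w) ≤ (1 + l) ^ 2 * (1 + l) ^ (ltY T l (R s) w \ Fb).card := by
      rw [← pow_add]
      apply pow_le_pow_right₀ (by linarith)
      rw [← lt_card, hRY, ← card_sdiff_add_card_inter (ltY T l s w) Fb, add_comm]
      refine Nat.add_le_add_right (le_trans (card_le_card ?_) hFb) _
      intro z hz
      rw [mem_inter] at hz
      exact mem_filter.2 ⟨hz.2, (lt_mem.1 hz.1).2⟩
    have h2 := trnc hl.le (ltY T l (R s) w \ Fb) b (by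
      have h3 : ((ltY T l (R s) w \ Fb).card : ℝ) ≤ d := by
        have h4 : (ltY T l (R s) w \ Fb).card ≤ d :=
          (card_le_card sdiff_subset).trans (by rw [lt_card]; exact Fn_le _ _ _ _)
        exact_mod_cast h4
      calc 2 * l * ((ltY T l (R s) w \ Fb).card : ℝ) ≤ 2 * l * d := by gcongr
        _ ≤ b := hb)
    have h3 : e s * ∑ S ∈ (ltY T l (R s) w \ Fb).powerset.filter (fun S => S.card ≤ b),
        l ^ S.card ≤ ltQ T l w b Fb e' (R s) := by
      unfold ltQ
      rw [mul_sum]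
      refine sum_le_sum fun S hS => ?_
      rw [mul_comm]
      refine mul_le_mul_of_nonneg_left ?_ (by positivity)
      rw [mem_filter, mem_powerset] at hS
      have h4 : S ⊆ ltY T l (R s) w := hS.1.trans sdiff_subset
      have h5 := hst s (mem_Om.2 hsI) (s ∩ ltY T l s w) inter_subset_left S
        (fun z hz => lt_par (mem_inter.1 hz).2) (fun z hz => lt_par (h4 hz))
        (lt_occ.trans hs.2.1) hS.2 (disjoint_of_subset_left hS.1 sdiff_disjoint)
      rw [← hRs] at h5
      exact h5 (mem_Om.2 (lt_ind (hsI.mono sdiff_subset) h4))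
    calc e s * (1 + l) ^ (Fn T l s w)
        ≤ e s * ((1 + l) ^ 2 * (2 * ∑ S ∈ (ltY T l (R s) w \ Fb).powerset.filter
            (fun S => S.card ≤ b), l ^ S.card)) := by
          refine mul_le_mul_of_nonneg_left (h1.trans ?_) (he s)
          exact mul_le_mul_of_nonneg_left h2 (by positivity)
      _ = 2 * (1 + l) ^ 2 * (e s * ∑ S ∈ (ltY T l (R s) w \ Fb).powerset.filter
            (fun S => S.card ≤ b), l ^ S.card) := by ring
      _ ≤ _ := mul_le_mul_of_nonneg_left h3 (by positivity)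
  have hQ0 : ∀ r, 0 ≤ ltQ T l w b Fb e' r := fun r =>
    sum_nonneg fun S _ => mul_nonneg (by positivity) (he' _)
  set c : Finset (V d) → ℝ := fun r => exp (log 4 * (l * (Fn T l r w : ℝ) / 16)) *
    (2 * (1 + l) ^ 2) / (1 + l) ^ (Fn T l r w) with hc
  have hC : ∀ s ∈ D, e s * exp (log 4 * (l * (Fn T l s w : ℝ) / 16)) *
        (l ^ (R s).card * (5 * l / 8) ^ (s ∩ ltY T l s w).card) ≤
      l ^ (R s).card * c (R s) * ltQ T l w b Fb e' (R s) *
        (5 * l / 8) ^ (s ∩ ltY T l s w).card := by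
    intro s hs
    have h1 := hB s hs
    have h2 : 0 < (1 + l) ^ (Fn T l s w) := by positivity
    rw [hc]
    simp only
    rw [hRF]
    have h3 : e s ≤ 2 * (1 + l) ^ 2 * ltQ T l w b Fb e' (R s) / (1 + l) ^ (Fn T l s w) := by
      rw [le_div_iff₀ h2]; exact h1
    calc e s * exp (log 4 * (l * (Fn T l s w : ℝ) / 16)) *
          (l ^ (R s).card * (5 * l / 8) ^ (s ∩ ltY T l s w).card)
        ≤ (2 * (1 + l) ^ 2 * ltQ T l w b Fb e' (R s) / (1 + l) ^ (Fn T l s w)) *
          exp (log 4 * (l * (Fn T l s w : ℝ) / 16)) *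
          (l ^ (R s).card * (5 * l / 8) ^ (s ∩ ltY T l s w).card) := by gcongr
      _ = _ := by ring
  have hc0 : ∀ r, 0 ≤ c r := fun r => by rw [hc]; positivity
  -- sum over the fibres
  have hE : ∑ s ∈ D, l ^ (R s).card * c (R s) * ltQ T l w b Fb e' (R s) *
        (5 * l / 8) ^ (s ∩ ltY T l s w).card ≤
      ∑ r ∈ D.image R, l ^ r.card * c r * ltQ T l w b Fb e' r *
        (1 + 5 * l / 8) ^ (Fn T l r w) := by
    rw [← sum_fiberwise_of_maps_to (g := R) (t := D.image R) fun s hs => mem_image_of_mem _ hs]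
    refine sum_le_sum fun r _ => ?_
    have h1 : ∑ s ∈ D.filter (fun s => R s = r), l ^ (R s).card * c (R s) *
        ltQ T l w b Fb e' (R s) * (5 * l / 8) ^ (s ∩ ltY T l s w).card =
        l ^ r.card * c r * ltQ T l w b Fb e' r *
        ∑ s ∈ D.filter (fun s => R s = r), (5 * l / 8) ^ (s ∩ ltY T l s w).card := by
      rw [mul_sum]
      refine sum_congr rfl fun s hs => ?_
      rw [(mem_filter.1 hs).2]
    rw [h1]
    refine mul_le_mul_of_nonneg_left ?_
      (mul_nonneg (mul_nonneg (by positivity) (hc0 r)) (hQ0 r))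
    rw [← lt_card, ← sum_pow_card]
    have h2 : Set.InjOn (fun s => s ∩ ltY T l s w) (D.filter fun s => R s = r) := by
      intro s hs s' hs' h
      rw [mem_coe, mem_filter] at hs hs'
      simp only at h
      have h3 : s = R s ∪ (s ∩ ltY T l s w) := (sdiff_union_inter s _).symm
      have h4 : s' = R s' ∪ (s' ∩ ltY T l s' w) := (sdiff_union_inter s' _).symm
      rw [h3, h4, hs.2, hs'.2, h]
    rw [← sum_image (f := fun B : Finset (V d) => (5 * l / 8) ^ B.card) h2]
    refine sum_le_sum_of_subset_of_nonneg ?_ fun B _ _ => by positivity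
    intro B hB
    obtain ⟨s, hs, rfl⟩ := mem_image.1 hB
    rw [mem_powerset, ← (mem_filter.1 hs).2, hRY]
    exact inter_subset_right
  -- the numerical factor
  have hG : ∀ r ∈ D.image R, l ^ r.card * c r * ltQ T l w b Fb e' r *
        (1 + 5 * l / 8) ^ (Fn T l r w) ≤
      3 * exp (-(7 / 25 * C')) * (l ^ r.card * ltQ T l w b Fb e' r) := by
    intro r hr
    obtain ⟨s, hs, rfl⟩ := mem_image.1 hr
    rw [hD, mem_filter] at hs
    have h1 : C' ≤ l * (Fn T l (R s) w : ℝ) := by rw [hRF]; exact hs.2.2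
    have h2 := lt_num hl hl1 _ h1
    have h3 : c (R s) * (1 + 5 * l / 8) ^ (Fn T l (R s) w) ≤ 3 * exp (-(7 / 25 * C')) := by
      rw [hc]
      simp only
      rw [div_mul_eq_mul_div, div_le_iff₀ (by positivity)]
      calc _ = exp (log 4 * (l * (Fn T l (R s) w : ℝ) / 16)) *
            (1 + 5 * l / 8) ^ (Fn T l (R s) w) * (2 * (1 + l) ^ 2) := by ring
        _ ≤ _ := h2
    calc _ = (c (R s) * (1 + 5 * l / 8) ^ (Fn T l (R s) w)) *
          (l ^ (R s).card * ltQ T l w b Fb e' (R s)) := by ring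
      _ ≤ _ := mul_le_mul_of_nonneg_right h3 (mul_nonneg (by positivity) (hQ0 _))
  -- the final injection
  have hH : ∑ r ∈ D.image R, l ^ r.card * ltQ T l w b Fb e' r ≤ avU l (x - n) e' := by
    have h1 : ∑ r ∈ D.image R, l ^ r.card * ltQ T l w b Fb e' r =
        ∑ p ∈ (D.image R).sigma fun r =>
          (ltY T l r w \ Fb).powerset.filter (fun S => S.card ≤ b),
          l ^ p.1.card * (l ^ p.2.card * e' (p.1 ∪ p.2)) := by
      rw [sum_sigma]
      refine sum_congr rfl fun r _ => ?_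
      unfold ltQ
      rw [mul_sum]
    rw [h1]
    have key : ∀ r ∈ D.image R, ∀ S ∈ (ltY T l r w \ Fb).powerset.filter (fun S => S.card ≤ b),
        r ∪ S ∈ Bx d (x - n) ∧ Disjoint r S ∧ R (r ∪ S) = r := by
      intro r hr S hS
      obtain ⟨s, hs, rfl⟩ := mem_image.1 hr
      rw [hD, mem_filter] at hs
      rw [mem_filter, mem_powerset] at hS
      have hsI : Ind s := (mem_Bx.1 hs.1).1
      have h4 : S ⊆ ltY T l (R s) w := hS.1.trans sdiff_subset
      have h5 : Disjoint (R s) S := by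
        rw [hRY] at h4
        exact disjoint_of_subset_right h4 sdiff_disjoint
      refine ⟨?_, h5, ?_⟩
      · rw [hRs]
        apply sdiff_union_mem_Bx hs.1 (lt_occ.trans hs.2.1)
        rw [← hRs]
        exact mem_Om.2 (lt_ind (hsI.mono sdiff_subset) h4)
      · have h6 : ltY T l (R s ∪ S) w = ltY T l s w := by
          rw [lt_union fun z hz => lt_par (h4 hz), hRY]
        have h7 : R (R s ∪ S) = (R s ∪ S) \ ltY T l s w := by
          rw [← h6]
        rw [h7, union_sdiff_distrib]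
        rw [hRY] at h4
        rw [sdiff_eq_empty_iff_subset.2 h4, union_empty]
        exact sdiff_eq_self_of_disjoint sdiff_disjoint
    refine transfer _ _ (fun p => p.1 ∪ p.2) hl.le ?_ ?_ (fun s _ => he' s) ?_
    · rintro ⟨r, S⟩ hp
      rw [mem_sigma] at hp
      exact (key r hp.1 S hp.2).1
    · rintro ⟨r, S⟩ hp ⟨r', S'⟩ hp' h
      rw [mem_coe, mem_sigma] at hp hp'
      simp only at h hp hp'
      have h1 := key r hp.1 S hp.2
      have h2 := key r' hp'.1 S' hp'.2
      have h3 : r = r' := by rw [← h1.2.2, ← h2.2.2, h]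
      subst h3
      have h4 : S = S' := by
        have e1 : S = (r ∪ S) \ r := by
          rw [union_sdiff_left, sdiff_eq_self_of_disjoint h1.2.1.symm]
        have e2 : S' = (r ∪ S') \ r := by
          rw [union_sdiff_left, sdiff_eq_self_of_disjoint h2.2.1.symm]
        rw [e1, e2, h]
      rw [h4]
    · rintro ⟨r, S⟩ hp
      rw [mem_sigma] at hp
      simp only at hp ⊢
      have h1 := key r hp.1 S hp.2
      rw [card_union_of_disjoint h1.2.1, pow_add, mul_assoc]
  calc _ ≤ _ := hA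
    _ ≤ _ := sum_le_sum hC
    _ ≤ _ := hE
    _ ≤ _ := sum_le_sum hG
    _ = 3 * exp (-(7 / 25 * C')) * ∑ r ∈ D.image R, l ^ r.card * ltQ T l w b Fb e' r := by
        rw [mul_sum]
    _ ≤ _ := mul_le_mul_of_nonneg_left hH (by positivity)

end Pool.Agent.Lib.MP_c6118e_pr.Win
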