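import Pool.Agent.Lib.MP_c6118e_pr.Win.FR

/-! # PERC: site percolation sum -/

namespace Pool.Agent.Lib.MP_c6118e_pr.Win

open Finset Real
open scoped Classical

variable {d : ℕ}

/-- adding vertices which are not adjacent to `C` does not change the component -/
theorem PERC_cmp_union (k : Fin d) (q : V d) {C E : Finset (V d)} (hq : q ∈ C)
    (hC : cmp k C q = C) (hE : ∀ r ∈ E, r ∉ C → ¬ ∃ a ∈ C, adjk k a r) :
    cmp k (C ∪ E) q = C := by
  apply Subset.antisymm
  · intro r hr
    unfold cmp at hr
    rw [mem_filter] at hr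
    induction hr.2 with
    | refl => exact hq
    | @tail b c h1 h2 ih =>
      have hb : b ∈ C := ih ⟨mem_univ _, h1⟩
      rcases mem_union.1 h2.1 with h | h
      · exact h
      · by_contra hc
        exact hE c h hc ⟨b, hb, h2.2⟩
  · intro r hr
    have h1 : r ∈ cmp k C q := by rw [hC]; exact hr
    exact cmp_mono subset_union_left q h1

theorem PERC_total (W : Finset (V d)) (q : V d) (hq : q ∈ W) (x : ℝ) :
    ∑ D ∈ W.powerset.filter (fun D => q ∈ D), x ^ D.card * (1 - x) ^ (W.card - D.card) = x := by
  have h1 : W.powerset.filter (fun D => q ∈ D) = (W.erase q).powerset.image (fun D => insert q D) := by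
    ext D
    rw [mem_filter, mem_image, mem_powerset]
    constructor
    · rintro ⟨h1, h2⟩
      exact ⟨D.erase q, mem_powerset.2 (erase_subset_erase q h1), insert_erase h2⟩
    · rintro ⟨D', h1, rfl⟩
      rw [mem_powerset] at h1
      refine ⟨?_, mem_insert_self _ _⟩
      intro r hr
      rcases mem_insert.1 hr with rfl | h
      · exact hq
      · exact mem_of_mem_erase (h1 h)
  rw [h1, sum_image]
  · have h2 : ∀ D ∈ (W.erase q).powerset, x ^ (insert q D).card * (1 - x) ^ (W.card - (insert q D).card)
        = x * (x ^ D.card * (1 - x) ^ ((W.erase q).card - D.card)) := by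
      intro D hD
      rw [mem_powerset] at hD
      have h3 : q ∉ D := fun h => (notMem_erase q W) (hD h)
      rw [card_insert_of_notMem h3, card_erase_of_mem hq]
      have h4 : W.card - (D.card + 1) = W.card - 1 - D.card := by omega
      rw [h4]
      ring
    rw [sum_congr rfl h2, ← mul_sum, Finset.sum_pow_mul_eq_add_pow]
    simp
  · intro D hD D' hD' h
    rw [mem_coe, mem_powerset] at hD hD'
    have h3 : q ∉ D := fun h => (notMem_erase q W) (hD h)
    have h4 : q ∉ D' := fun h => (notMem_erase q W) (hD' h)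
    simp only at h
    rw [← erase_insert h3, ← erase_insert h4, h]

/-- the connected sets containing `q` -/
theorem perc (k : Fin d) (q : V d) (W : Finset (V d)) (hq : q ∈ W) (x : ℝ) (h0 : 0 ≤ x)
    (h1 : x ≤ 1) :
    ∑ C ∈ W.powerset.filter (fun C => q ∈ C ∧ cmp k C q = C),
      x ^ C.card * (1 - x) ^ (univ.filter fun r => r ∈ W ∧ r ∉ C ∧ ∃ a ∈ C, adjk k a r).card
      ≤ x := by
  have hx : (0 : ℝ) ≤ 1 - x := by linarith
  set B : Finset (V d) → Finset (V d) := fun C =>
    univ.filter fun r => r ∈ W ∧ r ∉ C ∧ ∃ a ∈ C, adjk k a r with hB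
  set U : Finset (V d) → Finset (V d) := fun C => (W \ C) \ B C with hU
  set S := W.powerset.filter (fun C => q ∈ C ∧ cmp k C q = C) with hS
  have key : ∀ C ∈ S, x ^ C.card * (1 - x) ^ (B C).card =
      ∑ E ∈ (U C).powerset, x ^ (C ∪ E).card * (1 - x) ^ (W.card - (C ∪ E).card) := by
    intro C hC
    rw [hS, mem_filter, mem_powerset] at hC
    have hBW : B C ⊆ W \ C := by
      intro r hr
      rw [hB] at hr
      rw [mem_filter] at hr
      exact mem_sdiff.2 ⟨hr.2.1, hr.2.2.1⟩
    have hcard : W.card = C.card + ((B C).card + (U C).card) := by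
      have e1 : (W \ C).card + C.card = W.card := card_sdiff_add_card_eq_card hC.1
      have e2 : ((W \ C) \ B C).card + (B C).card = (W \ C).card := card_sdiff_add_card_eq_card hBW
      have e3 : (U C).card = ((W \ C) \ B C).card := rfl
      omega
    have h2 : ∀ E ∈ (U C).powerset, x ^ (C ∪ E).card * (1 - x) ^ (W.card - (C ∪ E).card) =
        (x ^ C.card * (1 - x) ^ (B C).card) * (x ^ E.card * (1 - x) ^ ((U C).card - E.card)) := by
      intro E hE
      rw [mem_powerset] at hE
      have hd : Disjoint C E := by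
        rw [disjoint_left]
        intro r hr hr'
        have := hE hr'
        rw [hU] at this
        exact (mem_sdiff.1 (mem_sdiff.1 this).1).2 hr
      have hEc : E.card ≤ (U C).card := card_le_card hE
      rw [card_union_of_disjoint hd]
      have h3 : W.card - (C.card + E.card) = (B C).card + ((U C).card - E.card) := by omega
      rw [h3, pow_add, pow_add]
      ring
    rw [sum_congr rfl h2, ← mul_sum, Finset.sum_pow_mul_eq_add_pow]
    simp
  rw [sum_congr rfl key, sum_sigma' S (fun C => (U C).powerset)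
    (fun C E => x ^ (C ∪ E).card * (1 - x) ^ (W.card - (C ∪ E).card))]
  have hrec : ∀ p ∈ S.sigma fun C => (U C).powerset, cmp k (p.1 ∪ p.2) q = p.1 := by
    intro p hp
    rw [mem_sigma, hS, mem_filter, mem_powerset, mem_powerset] at hp
    refine PERC_cmp_union k q hp.1.2.1 hp.1.2.2 ?_
    intro r hr hrC hadj
    have h3 := hp.2 hr
    rw [hU] at h3
    have h4 := mem_sdiff.1 h3
    refine h4.2 ?_
    rw [hB]
    exact mem_filter.2 ⟨mem_univ _, (mem_sdiff.1 h4.1).1, hrC, hadj⟩
  have hinj : Set.InjOn (fun p : Σ _ : Finset (V d), Finset (V d) => p.1 ∪ p.2)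
      (S.sigma fun C => (U C).powerset) := by
    rintro ⟨C, E⟩ hp ⟨C', E'⟩ hp' he
    rw [mem_coe] at hp hp'
    have e1 := hrec _ hp
    have e2 := hrec _ hp'
    simp only at he e1 e2
    have e3 : C = C' := by rw [← e1, ← e2, he]
    subst e3
    rw [mem_sigma, mem_powerset] at hp hp'
    have hd : ∀ F ⊆ U C, F = (C ∪ F) \ C := by
      intro F hF
      rw [union_sdiff_cancel_left]
      rw [disjoint_left]
      intro r hr hr'
      have := hF hr'
      rw [hU] at this
      exact (mem_sdiff.1 (mem_sdiff.1 this).1).2 hr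
    have e4 : E = E' := by rw [hd E hp.2, hd E' hp'.2, he]
    rw [e4]
  rw [← sum_image (f := fun D : Finset (V d) => x ^ D.card * (1 - x) ^ (W.card - D.card)) hinj]
  refine le_trans (sum_le_sum_of_subset_of_nonneg ?_ ?_) (PERC_total W q hq x).le
  · intro D hD
    obtain ⟨p, hp, rfl⟩ := mem_image.1 hD
    rw [mem_sigma, hS, mem_filter, mem_powerset, mem_powerset] at hp
    refine mem_filter.2 ⟨mem_powerset.2 ?_, mem_union_left _ hp.1.2.1⟩
    refine union_subset hp.1.1 ?_
    intro r hr
    have h3 := hp.2 hr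
    rw [hU] at h3
    exact (mem_sdiff.1 (mem_sdiff.1 h3).1).1
  · intro D _ _
    positivity

end Pool.Agent.Lib.MP_c6118e_pr.Win
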