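import Pool.Agent.Lib.MP_c6118e_pr.Win.FR
import Pool.Agent.Lib.MP_c6118e_pr.Win.TOOL
import Pool.Agent.Lib.MP_c6118e_pr.Win.TRNC

/-! # RARE1: a fixed component with large boundary -/

namespace Pool.Agent.Lib.MP_c6118e_pr.Win

open Finset Real
open scoped Classical

variable {d : ℕ}

theorem RARE1_setid {α : Type*} [DecidableEq α] {s C S : Finset α} (h3 : ∀ z ∈ s, z ∉ S)
    (h4 : ∀ z ∈ C, z ∈ s) : ((s \ C) ∪ S) \ S ∪ C = s := by
  ext z
  have h5 := h3 z
  have h6 := h4 z
  simp only [mem_union, mem_sdiff]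
  tauto

theorem RARE1_cmp_self {k : Fin d} {D : Finset (V d)} {q : V d} (hq : q ∈ D) :
    cmp k (cmp k D q) q = cmp k D q := by
  apply Subset.antisymm
  · exact cmp_mono (cmp_subset hq) q
  · intro r hr
    have hr' := hr
    unfold cmp at hr
    rw [mem_filter] at hr
    have h : ∀ r, Relation.ReflTransGen (fun a b => b ∈ D ∧ adjk k a b) q r →
        Relation.ReflTransGen (fun a b => b ∈ cmp k D q ∧ adjk k a b) q r := by
      intro r hr
      induction hr with
      | refl => exact Relation.ReflTransGen.refl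
      | tail h1 h2 ih =>
        exact Relation.ReflTransGen.tail ih
          ⟨mem_filter.2 ⟨mem_univ _, Relation.ReflTransGen.tail h1 h2⟩, h2.2⟩
    exact mem_filter.2 ⟨mem_univ _, h r hr.2⟩

theorem RARE1_adj_mem {k : Fin d} {D : Finset (V d)} {q a r : V d} (ha : a ∈ cmp k D q)
    (hr : r ∈ D) (har : adjk k a r) : r ∈ cmp k D q := by
  unfold cmp at ha ⊢
  rw [mem_filter] at ha ⊢
  exact ⟨mem_univ _, Relation.ReflTransGen.tail ha.2 ⟨hr, har⟩⟩

theorem RARE1_bd_congr {T l : ℝ} {k : Fin d} {s s' C : Finset (V d)} {q : V d}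
    (hC : ∀ r ∈ C, par r = par q) (h : ∀ z, par z = par q + 1 → (z ∈ s ↔ z ∈ s')) :
    bd T l k s C = bd T l k s' C := by
  unfold bd
  apply filter_congr
  intro r _
  constructor
  · rintro ⟨h1, h2, a, ha, har⟩
    have hp : par r = par q := (adjk_par har).trans (hC a ha)
    exact ⟨h1, (An_congr (by rw [hp]; exact h)).1 h2, a, ha, har⟩
  · rintro ⟨h1, h2, a, ha, har⟩
    have hp : par r = par q := (adjk_par har).trans (hC a ha)
    exact ⟨h1, (An_congr (by rw [hp]; exact h)).2 h2, a, ha, har⟩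

theorem RARE1_bd_par {T l : ℝ} {k : Fin d} {s C : Finset (V d)} {q r : V d}
    (hC : ∀ r ∈ C, par r = par q) (hr : r ∈ bd T l k s C) : par r = par q := by
  unfold bd at hr
  rw [mem_filter] at hr
  obtain ⟨_, _, _, a, ha, har⟩ := hr
  exact (adjk_par har).trans (hC a ha)

theorem RARE1_bd_card (T l : ℝ) (k : Fin d) (s C : Finset (V d)) :
    (bd T l k s C).card ≤ d * C.card := by
  have h : bd T l k s C ⊆ C.biUnion fun a => univ.filter fun r => adjk k r a := by
    intro r hr
    unfold bd at hr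
    rw [mem_filter] at hr
    obtain ⟨_, _, _, a, ha, har⟩ := hr
    exact mem_biUnion.2 ⟨a, ha, mem_filter.2 ⟨mem_univ _, adjk_symm har⟩⟩
  refine (card_le_card h).trans (card_biUnion_le.trans ?_)
  rw [mul_comm, ← smul_eq_mul]
  exact sum_le_card_nsmul _ _ _ fun a _ => card_adjk_le k a

/-- the size of the usable part of the boundary -/
theorem RARE1_Y {T l K : ℝ} (hl : 0 < l) (hl1 : l ≤ 1 / 100) (hK : 1 ≤ K) {k : Fin d}
    {n m : ℕ} (hn : 10 * l * n ≤ K) {Fb s C : Finset (V d)} (hm : C.card = m)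
    (hFb : ∀ r ∈ C, (Fb.filter fun z => ∃ i, z = nb i (nb k r)).card ≤ 2)
    (hB : K * (m : ℝ) ≤ l / 2 * ((bd T l k s C).card : ℝ))
    (hnb : ∀ r ∈ C, nOcc s (nb k r) ≤ n) :
    9 / 10 * ((bd T l k s C).card : ℝ) ≤ (((bd T l k s C) \ s) \ Fb).card := by
  have h1 : (bd T l k s C ∩ s).card ≤ C.card * n := by
    have h : bd T l k s C ∩ s ⊆ C.biUnion fun a =>
        (univ.filter fun i => nb i (nb k a) ∈ s).image fun i => nb i (nb k a) := by
      intro r hr
      rw [mem_inter] at hr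
      have hr1 := hr.1
      unfold bd at hr1
      rw [mem_filter] at hr1
      obtain ⟨_, _, _, a, ha, j, hj, rfl⟩ := hr1
      exact mem_biUnion.2 ⟨a, ha, mem_image.2 ⟨j, mem_filter.2 ⟨mem_univ _, hr.2⟩, rfl⟩⟩
    refine (card_le_card h).trans (card_biUnion_le.trans ?_)
    rw [← smul_eq_mul]
    exact sum_le_card_nsmul _ _ _ fun a ha => card_image_le.trans (hnb a ha)
  have h2 : (bd T l k s C ∩ Fb).card ≤ C.card * 2 := by
    have h : bd T l k s C ∩ Fb ⊆ C.biUnion fun a =>
        Fb.filter fun z => ∃ i, z = nb i (nb k a) := by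
      intro r hr
      rw [mem_inter] at hr
      have hr1 := hr.1
      unfold bd at hr1
      rw [mem_filter] at hr1
      obtain ⟨_, _, _, a, ha, j, hj, rfl⟩ := hr1
      exact mem_biUnion.2 ⟨a, ha, mem_filter.2 ⟨hr.2, j, rfl⟩⟩
    refine (card_le_card h).trans (card_biUnion_le.trans ?_)
    rw [← smul_eq_mul]
    exact sum_le_card_nsmul _ _ _ fun a ha => hFb a ha
  have h3 : (bd T l k s C).card ≤ (((bd T l k s C) \ s) \ Fb).card +
      ((bd T l k s C ∩ s).card + (bd T l k s C ∩ Fb).card) := by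
    have h : bd T l k s C ⊆ (((bd T l k s C) \ s) \ Fb) ∪
        ((bd T l k s C ∩ s) ∪ (bd T l k s C ∩ Fb)) := by
      intro r hr
      rw [mem_union, mem_union, mem_inter, mem_inter, mem_sdiff, mem_sdiff]
      by_cases h1 : r ∈ s
      · exact Or.inr (Or.inl ⟨hr, h1⟩)
      · by_cases h2 : r ∈ Fb
        · exact Or.inr (Or.inr ⟨hr, h2⟩)
        · exact Or.inl ⟨⟨hr, h1⟩, h2⟩
    exact (card_le_card h).trans ((card_union_le _ _).trans
      (Nat.add_le_add_left (card_union_le _ _) _))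
  rw [hm] at h1 h2
  have h1' : ((bd T l k s C ∩ s).card : ℝ) ≤ m * n := by exact_mod_cast h1
  have h2' : ((bd T l k s C ∩ Fb).card : ℝ) ≤ m * 2 := by exact_mod_cast h2
  have h3' : ((bd T l k s C).card : ℝ) ≤ ((((bd T l k s C) \ s) \ Fb).card : ℝ) +
      (((bd T l k s C ∩ s).card : ℝ) + ((bd T l k s C ∩ Fb).card : ℝ)) := by exact_mod_cast h3
  have hm0 : (0 : ℝ) ≤ m := by positivity
  set B : ℝ := ((bd T l k s C).card : ℝ) with hBd
  have hB0 : 0 ≤ B := by positivity
  -- `10 l n m ≤ K m ≤ l B / 2`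
  have h4 : (m : ℝ) * n ≤ B / 20 := by
    have h5 : 10 * l * n * m ≤ l / 2 * B := (mul_le_mul_of_nonneg_right hn hm0).trans hB
    have h6 : l * (10 * (m * n)) ≤ l * (B / 2) := by nlinarith
    have h7 := le_of_mul_le_mul_left h6 hl
    linarith
  have h5 : (m : ℝ) * 2 ≤ B / 20 := by
    have h6 : (m : ℝ) ≤ l / 2 * B := by
      refine le_trans ?_ hB
      nlinarith
    have h7 : l / 2 * B ≤ 1 / 200 * B := by
      apply mul_le_mul_of_nonneg_right _ hB0
      linarith
    linarith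
  linarith

/-- injection `(s, t, S) ↦ ((s \ C) ∪ S, (t \ C) ∪ S)` with `S` in the empty part of the boundary -/
theorem rare1 {T l K x : ℝ} (hl : 0 < l) (hl1 : l ≤ 1 / 100) (hK : 1 ≤ K) (k : Fin d) (q : V d)
    (n m b : ℕ) (hn : 10 * l * n ≤ K) (Fb : Finset (V d)) (e e' : Finset (V d) → ℝ)
    (he : ∀ s, 0 ≤ e s) (he' : ∀ s, 0 ≤ e' s) (hst : Stab (par q) Fb m b e e')
    (hFb : ∀ s ∈ Om d, e s ≠ 0 → ∀ r ∈ s, par r = par q →
      (Fb.filter fun z => ∃ i, z = nb i (nb k r)).card ≤ 2)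
    (hb : l * d * m ≤ b) (C : Finset (V d)) :
    avM l x (fun s t => if q ∈ t ∧ An T l s q ∧ cn T l k s t q = C ∧ RA T l K n k m s t q
      then e s else 0) ≤
      2 * (l / 2) ^ m * avU l (x - m) (fun s =>
        if C.card = m ∧ q ∈ C ∧ cmp k C q = C ∧ (∀ r ∈ C, An T l s r) ∧
            K * (m : ℝ) ≤ l / 2 * ((bd T l k s C).card : ℝ)
        then exp (-(9 / 10 * ((bd T l k s C).card : ℝ) * log (1 + l / 2))) * e' s else 0) := by
  set P : Finset (V d) → Finset (V d) → Prop := fun s t =>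
    (q ∈ t ∧ An T l s q ∧ cn T l k s t q = C ∧ RA T l K n k m s t q) ∧ e s ≠ 0 with hP
  set Y : Finset (V d) → Finset (V d) := fun s => ((bd T l k s C) \ s) \ Fb with hY
  set E : Finset (V d) → ℝ := fun s =>
    exp (-(9 / 10 * ((bd T l k s C).card : ℝ) * log (1 + l / 2))) with hE
  set G : Finset (V d) → ℝ := fun s =>
    if C.card = m ∧ q ∈ C ∧ cmp k C q = C ∧ (∀ r ∈ C, An T l s r) ∧
        K * (m : ℝ) ≤ l / 2 * ((bd T l k s C).card : ℝ) then E s * e' s else 0 with hG
  set I : Finset (Σ _ : Finset (V d), Finset (V d) × Finset (V d)) :=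
    (Bx d x).sigma fun s => (s.powerset.filter fun t => P s t) ×ˢ
      ((Y s).powerset.filter fun S => S.card ≤ b) with hI
  set w : (Σ _ : Finset (V d), Finset (V d) × Finset (V d)) → ℝ := fun p =>
    2 * ((l / 2) ^ p.1.card * e p.1 * (l / 2) ^ p.2.2.card * E p.1) with hw
  -- facts about the indices
  have fact : ∀ s ∈ Bx d x, ∀ t ⊆ s, P s t → C ⊆ t ∧ C ⊆ s ∧ C.card = m ∧ q ∈ C ∧
      cmp k C q = C ∧ (∀ r ∈ C, An T l s r) ∧ (∀ r ∈ C, par r = par q) ∧
      K * (m : ℝ) ≤ l / 2 * ((bd T l k s C).card : ℝ) ∧ Disjoint t (bd T l k s C) ∧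
      9 / 10 * ((bd T l k s C).card : ℝ) ≤ (Y s).card := by
    rintro s hs t hts ⟨⟨hqt, hq, hcn, hRA⟩, hes⟩
    have hqD : q ∈ t.filter (fun r => An T l s r) := mem_filter.2 ⟨hqt, hq⟩
    have hCD : C ⊆ t.filter (fun r => An T l s r) := by
      rw [← hcn]; exact cmp_subset hqD
    have hCt : C ⊆ t := hCD.trans (filter_subset _ _)
    have hCs : C ⊆ s := hCt.trans hts
    obtain ⟨hc1, hc2, hc3⟩ := hRA
    rw [hcn] at hc1 hc2 hc3
    have hpar : ∀ r ∈ C, par r = par q := by
      intro r hr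
      rw [← hcn] at hr
      exact cmp_par hr
    refine ⟨hCt, hCs, hc1, ?_, ?_, fun r hr => (mem_filter.1 (hCD hr)).2, hpar, hc2, ?_, ?_⟩
    · rw [← hcn]; exact mem_cmp_self _ _ _
    · rw [← hcn]; exact RARE1_cmp_self hqD
    · rw [disjoint_left]
      intro r hrt hrb
      unfold bd at hrb
      rw [mem_filter] at hrb
      obtain ⟨_, h1, h2, a, ha, har⟩ := hrb
      apply h1
      rw [← hcn] at ha ⊢
      exact RARE1_adj_mem ha (mem_filter.2 ⟨hrt, h2⟩) har
    · exact RARE1_Y hl hl1 hK hn hc1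
        (fun r hr => hFb s (Bx_sub_Om _ hs) hes r (hCs hr) (hpar r hr)) hc2 hc3
  have hl2 : (0 : ℝ) ≤ l / 2 := by positivity
  have hlog : 0 ≤ log (1 + l / 2) := log_nonneg (by linarith)
  -- step 1 : the left side is at most the sum over `I`
  have step1 : avM l x (fun s t => if q ∈ t ∧ An T l s q ∧ cn T l k s t q = C ∧
      RA T l K n k m s t q then e s else 0) ≤ ∑ p ∈ I, w p := by
    rw [hI, sum_sigma]
    unfold avM
    refine sum_le_sum fun s hs => ?_
    rw [sum_product]
    have h0 : ∑ t ∈ s.powerset, (l / 2) ^ s.card * (if q ∈ t ∧ An T l s q ∧ cn T l k s t q = C ∧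
        RA T l K n k m s t q then e s else 0) =
        ∑ t ∈ s.powerset.filter (fun t => P s t), (l / 2) ^ s.card * e s := by
      rw [sum_filter]
      refine sum_congr rfl fun t _ => ?_
      by_cases h1 : q ∈ t ∧ An T l s q ∧ cn T l k s t q = C ∧ RA T l K n k m s t q
      · by_cases h2 : e s = 0
        · simp [h2]
        · rw [if_pos h1, if_pos (show P s t from ⟨h1, h2⟩)]
      · rw [if_neg h1, if_neg (show ¬ P s t from fun h => h1 h.1), mul_zero]
    rw [h0]
    refine sum_le_sum fun t ht => ?_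
    rw [mem_filter, mem_powerset] at ht
    obtain ⟨_, hCs, hCm, _, _, _, _, hKB, _, hYc⟩ := fact s hs t ht.1 ht.2
    have hYd : ((Y s).card : ℝ) ≤ d * m := by
      have h1 : (Y s).card ≤ d * C.card :=
        (card_le_card (sdiff_subset.trans sdiff_subset)).trans (RARE1_bd_card T l k s C)
      rw [hCm] at h1
      exact_mod_cast h1
    have h1 := trnc hl2 (Y s) b (by
      calc 2 * (l / 2) * ((Y s).card : ℝ) = l * ((Y s).card : ℝ) := by ring
        _ ≤ l * (d * m) := mul_le_mul_of_nonneg_left hYd hl.le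
        _ = l * d * m := by ring
        _ ≤ b := hb)
    have h2 : exp (9 / 10 * ((bd T l k s C).card : ℝ) * log (1 + l / 2)) ≤
        (1 + l / 2) ^ (Y s).card := by
      have h3 : (1 + l / 2) ^ (Y s).card = exp ((Y s).card * log (1 + l / 2)) := by
        rw [mul_comm, exp_mul, exp_log (by linarith), rpow_natCast]
      rw [h3, exp_le_exp]
      exact mul_le_mul_of_nonneg_right hYc hlog
    have h3 : 1 ≤ 2 * (∑ S ∈ (Y s).powerset.filter (fun S => S.card ≤ b), (l / 2) ^ S.card) *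
        E s := by
      have h4 : (1 : ℝ) = exp (9 / 10 * ((bd T l k s C).card : ℝ) * log (1 + l / 2)) * E s := by
        rw [hE]
        simp only
        rw [← exp_add, add_neg_cancel, exp_zero]
      calc (1 : ℝ) = exp (9 / 10 * ((bd T l k s C).card : ℝ) * log (1 + l / 2)) * E s := h4
        _ ≤ _ := mul_le_mul_of_nonneg_right (h2.trans h1) (exp_pos _).le
    have h5 : ∑ S ∈ (Y s).powerset.filter (fun S => S.card ≤ b), w ⟨s, (t, S)⟩ =
        (l / 2) ^ s.card * e s *
        (2 * (∑ S ∈ (Y s).powerset.filter (fun S => S.card ≤ b), (l / 2) ^ S.card) * E s) := by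
      rw [mul_sum, sum_mul, mul_sum]
      refine sum_congr rfl fun S _ => ?_
      rw [hw]
      ring
    rw [h5]
    exact le_mul_of_one_le_right (mul_nonneg (pow_nonneg hl2 _) (he s)) h3
  refine step1.trans ?_
  -- step 2 : the injection
  have key : ∀ p ∈ I, C ⊆ p.2.1 ∧ C ⊆ p.1 ∧ p.2.1 ⊆ p.1 ∧ Disjoint p.1 p.2.2 ∧
      p.2.2 ⊆ bd T l k p.1 C ∧ Disjoint p.2.1 (bd T l k p.1 C) ∧
      (p.1 \ C) ∪ p.2.2 ∈ Om d ∧ bd T l k ((p.1 \ C) ∪ p.2.2) C = bd T l k p.1 C ∧
      (∀ r ∈ C, An T l ((p.1 \ C) ∪ p.2.2) r) ∧ e p.1 ≤ e' ((p.1 \ C) ∪ p.2.2) ∧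
      C.card = m ∧ q ∈ C ∧ cmp k C q = C ∧
      K * (m : ℝ) ≤ l / 2 * ((bd T l k p.1 C).card : ℝ) ∧ p.1 ∈ Bx d x := by
    rintro ⟨s, t, S⟩ hp
    rw [hI, mem_sigma, mem_product, mem_filter, mem_filter, mem_powerset, mem_powerset] at hp
    obtain ⟨hs, ⟨hts, hPst⟩, hSY, hSb⟩ := hp
    simp only at hs hts hPst hSY hSb ⊢
    obtain ⟨hCt, hCs, hCm, hqC, hcmp, hAn, hpar, hKB, hdisj, hYc⟩ := fact s hs t hts hPst
    have hSbd : S ⊆ bd T l k s C := hSY.trans (sdiff_subset.trans sdiff_subset)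
    have hSs : Disjoint s S := by
      rw [disjoint_right]
      intro z hz
      have := hSY hz
      rw [hY] at this
      simp only [mem_sdiff] at this
      exact this.1.2
    have hSF : Disjoint S Fb := by
      rw [disjoint_left]
      intro z hz
      have := hSY hz
      rw [hY] at this
      simp only [mem_sdiff] at this
      exact this.2
    have hSpar : ∀ z ∈ S, par z = par q := fun z hz => RARE1_bd_par hpar (hSbd hz)
    have hSocc : ∀ z ∈ S, nOcc s z = 0 := by
      intro z hz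
      have := hSbd hz
      unfold bd at this
      rw [mem_filter] at this
      exact this.2.2.1.1
    have hcong : ∀ z, par z = par q + 1 → (z ∈ s ↔ z ∈ (s \ C) ∪ S) := by
      intro z hz
      have hz1 : z ∉ C := fun h => by
        have := hpar z h
        rw [hz] at this
        exact one_ne_zero (add_eq_left.1 this)
      have hz2 : z ∉ S := fun h => by
        have := hSpar z h
        rw [hz] at this
        exact one_ne_zero (add_eq_left.1 this)
      rw [mem_union, mem_sdiff]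
      exact ⟨fun h => Or.inl ⟨h, hz1⟩, fun h => h.elim (fun h => h.1) fun h => absurd h hz2⟩
    have hInd : Ind s := mem_Om.1 (Bx_sub_Om _ hs)
    have hOm : (s \ C) ∪ S ∈ Om d := by
      rw [mem_Om]
      intro v hv i hi
      rw [mem_union, mem_sdiff] at hv hi
      rcases hv with hv | hv
      · rcases hi with hi | hi
        · exact hInd v hv.1 i hi.1
        · have h1 := nOcc_eq_zero.1 (hSocc _ hi) i
          rw [nb_nb] at h1
          exact h1 hv.1
      · rcases hi with hi | hi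
        · exact nOcc_eq_zero.1 (hSocc _ hv) i hi.1
        · have h1 := hSpar _ hi
          rw [par_nb, hSpar _ hv] at h1
          exact one_ne_zero (add_eq_left.1 h1)
    refine ⟨hCt, hCs, hts, hSs, hSbd, hdisj, hOm, (RARE1_bd_congr hpar hcong).symm, ?_, ?_, hCm,
      hqC, hcmp, hKB, hs⟩
    · intro r hr
      exact (An_congr (by rw [hpar r hr]; exact hcong)).1 (hAn r hr)
    · exact hst s (Bx_sub_Om _ hs) C hCs S hpar hSpar hCm.le hSb hSF hOm
  have hG0 : ∀ s, 0 ≤ G s := by
    intro s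
    rw [hG]
    simp only
    split_ifs
    · exact mul_nonneg (exp_pos _).le (he' s)
    · exact le_rfl
  have step2 : ∑ p ∈ I, w p ≤ avM l (x - m) (fun s _ => 2 * (l / 2) ^ m * G s) := by
    refine transferM I w (fun p => (p.1 \ C) ∪ p.2.2) (fun p => (p.2.1 \ C) ∪ p.2.2) hl.le
      ?_ ?_ ?_ ?_ ?_
    · intro p hp
      obtain ⟨_, hCs, _, _, _, _, hOm, _, _, _, hCm, _, _, _, hs⟩ := key p hp
      exact sdiff_union_mem_Bx hs hCm.le hOm
    · intro p hp
      obtain ⟨_, _, hts, _⟩ := key p hp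
      exact union_subset_union (sdiff_subset_sdiff hts Subset.rfl) Subset.rfl
    · rintro ⟨s, t, S⟩ hp ⟨s', t', S'⟩ hp' h
      obtain ⟨a1, a2, a3, a4, a5, a6, a7, a8, _⟩ := key _ (mem_coe.1 hp)
      obtain ⟨b1, b2, b3, b4, b5, b6, b7, b8, _⟩ := key _ (mem_coe.1 hp')
      simp only at a1 a2 a3 a4 a5 a6 a7 a8 b1 b2 b3 b4 b5 b6 b7 b8 h
      rw [Prod.mk.injEq] at h
      obtain ⟨h1, h2⟩ := h
      have hbd : bd T l k s C = bd T l k s' C := by rw [← a8, ← b8, h1]
      have hS : S = ((t \ C) ∪ S) ∩ bd T l k s C := by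
        ext z
        rw [mem_inter, mem_union, mem_sdiff]
        constructor
        · intro hz; exact ⟨Or.inr hz, a5 hz⟩
        · rintro ⟨hz | hz, hz2⟩
          · exact absurd hz2 (disjoint_left.1 a6 hz.1)
          · exact hz
      have hS' : S' = ((t' \ C) ∪ S') ∩ bd T l k s' C := by
        ext z
        rw [mem_inter, mem_union, mem_sdiff]
        constructor
        · intro hz; exact ⟨Or.inr hz, b5 hz⟩
        · rintro ⟨hz | hz, hz2⟩
          · exact absurd hz2 (disjoint_left.1 b6 hz.1)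
          · exact hz
      have hSS : S = S' := by rw [hS, hS', h2, hbd]
      subst hSS
      have hs : s = s' := by
        have e1 : ((s \ C) ∪ S) \ S ∪ C = s :=
          RARE1_setid (fun z h => disjoint_left.1 a4 h) fun z h => a2 h
        have e2 : ((s' \ C) ∪ S) \ S ∪ C = s' :=
          RARE1_setid (fun z h => disjoint_left.1 b4 h) fun z h => b2 h
        rw [← e1, ← e2, h1]
      have ht : t = t' := by
        have e1 : ((t \ C) ∪ S) \ S ∪ C = t :=
          RARE1_setid (fun z h => disjoint_left.1 a4 (a3 h)) fun z h => a1 h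
        have e2 : ((t' \ C) ∪ S) \ S ∪ C = t' :=
          RARE1_setid (fun z h => disjoint_left.1 b4 (b3 h)) fun z h => b1 h
        rw [← e1, ← e2, h2]
      rw [hs, ht]
    · intro s _ t _
      exact mul_nonneg (by positivity) (hG0 s)
    · intro p hp
      obtain ⟨hCt, hCs, hts, hSs, hSbd, hdisj, hOm, hbd, hAn, hee, hCm, hqC, hcmp, hKB, hs⟩ :=
        key p hp
      have hcard : p.1.card + p.2.2.card = m + ((p.1 \ C) ∪ p.2.2).card := by
        have h1 : Disjoint (p.1 \ C) p.2.2 := hSs.mono_left sdiff_subset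
        rw [card_union_of_disjoint h1]
        have h2 := card_sdiff_add_card_eq_card hCs
        omega
      have hGe : G ((p.1 \ C) ∪ p.2.2) = E p.1 * e' ((p.1 \ C) ∪ p.2.2) := by
        rw [hG]
        simp only
        rw [if_pos ⟨hCm, hqC, hcmp, hAn, by rw [hbd]; exact hKB⟩, hE]
        simp only
        rw [hbd]
      rw [hGe]
      have h1 : (l / 2) ^ p.1.card * (l / 2) ^ p.2.2.card =
          (l / 2) ^ m * (l / 2) ^ ((p.1 \ C) ∪ p.2.2).card := by
        rw [← pow_add, ← pow_add, hcard]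
      calc w p = 2 * ((l / 2) ^ p.1.card * (l / 2) ^ p.2.2.card) * E p.1 * e p.1 := by
            rw [hw]; ring
        _ = 2 * ((l / 2) ^ m * (l / 2) ^ ((p.1 \ C) ∪ p.2.2).card) * E p.1 * e p.1 := by rw [h1]
        _ ≤ 2 * ((l / 2) ^ m * (l / 2) ^ ((p.1 \ C) ∪ p.2.2).card) * E p.1 *
            e' ((p.1 \ C) ∪ p.2.2) := by
            refine mul_le_mul_of_nonneg_left hee ?_
            have := (exp_pos (-(9 / 10 * ((bd T l k p.1 C).card : ℝ) * log (1 + l / 2)))).le
            exact mul_nonneg (by positivity) this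
        _ = _ := by ring
  refine step2.trans (le_of_eq ?_)
  rw [avM_const, avU_mul]

end Pool.Agent.Lib.MP_c6118e_pr.Win
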