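import Pool.Agent.Lib.MP_c6118e_pr.Win.FR
import Pool.Agent.Lib.MP_c6118e_pr.Win.RARE1
import Pool.Agent.Lib.MP_c6118e_pr.Win.PERC

/-! # RARE: components with large boundary are rare -/

namespace Pool.Agent.Lib.MP_c6118e_pr.Win

open Finset Real
open scoped Classical

variable {d : ℕ}

theorem RARE_Fn_le {T l : ℝ} {s C : Finset (V d)} {k : Fin d} {q : V d} (hq : q ∈ C) :
    Fn T l s (nb k q) ≤ C.card + (bd T l k s C).card := by
  unfold Fn
  refine le_trans ?_ (card_union_le C (bd T l k s C))
  refine card_le_card_of_injOn (fun i => nb i (nb k q)) ?_ ?_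
  · intro i hi
    rw [mem_coe, mem_filter] at hi
    rw [mem_coe, mem_union]
    by_cases h : nb i (nb k q) ∈ C
    · exact Or.inl h
    · refine Or.inr (mem_filter.2 ⟨mem_univ _, h, hi.2, q, hq, i, ?_, rfl⟩)
      rintro rfl
      exact h (by rw [nb_nb]; exact hq)
  · intro i _ j _ hij
    exact nb_inj hij

theorem RARE_num {l K : ℝ} (hl : 0 < l) (hl1 : l ≤ 1 / 100) (hK : 1 ≤ K) (m B F : ℕ)
    (hF : F ≤ m + B) (hB : K * (m : ℝ) ≤ l / 2 * (B : ℝ)) :
    2 * (l / 2) ^ m * (exp (-(9 / 10 * (B : ℝ) * log (1 + l / 2))) * exp (3 / 20 * l * (F : ℝ))) ≤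
      2 * th K ^ m * ((l / 20) ^ m * (1 - l / 20) ^ B) := by
  have hF' : (F : ℝ) ≤ m + B := by exact_mod_cast hF
  have hB0 : (0 : ℝ) ≤ B := Nat.cast_nonneg _
  have hm0 : (0 : ℝ) ≤ m := Nat.cast_nonneg _
  -- lower bound for the logarithm
  have h1 : 9975 / 10000 * (l / 2) ≤ log (1 + l / 2) := by
    have hy0 : (0 : ℝ) ≤ l / 2 := by positivity
    have h2 := Real.le_log_one_add_of_nonneg hy0
    have h3 : 9975 / 10000 * (l / 2) ≤ 2 * (l / 2) / (l / 2 + 2) := by
      rw [le_div_iff₀ (by positivity)]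
      nlinarith
    exact h3.trans h2
  -- lower bound for `(1 - l / 20) ^ B`
  have h4 : exp (-(1001 / 10000 * (l / 2) * B)) ≤ (1 - l / 20) ^ B := by
    have h5 : exp (-(1001 / 10000 * (l / 2))) ≤ 1 - l / 20 := by
      have h6 : 1 + 1001 / 10000 * (l / 2) ≤ exp (1001 / 10000 * (l / 2)) := by
        have := Real.add_one_le_exp (1001 / 10000 * (l / 2))
        linarith
      rw [Real.exp_neg]
      have h7 : (exp (1001 / 10000 * (l / 2)))⁻¹ ≤ (1 + 1001 / 10000 * (l / 2))⁻¹ :=
        inv_anti₀ (by positivity) h6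
      refine h7.trans ?_
      rw [inv_le_comm₀ (by positivity) (by linarith)]
      rw [inv_le_iff_one_le_mul₀ (by linarith)]
      nlinarith
    calc exp (-(1001 / 10000 * (l / 2) * B)) = exp (-(1001 / 10000 * (l / 2))) ^ B := by
          rw [← Real.exp_nat_mul]
          congr 1
          ring
      _ ≤ (1 - l / 20) ^ B := pow_le_pow_left₀ (exp_pos _).le h5 _
  have h8 : (l / 2) ^ m = 10 ^ m * (l / 20) ^ m := by
    rw [← mul_pow]
    congr 1
    ring
  have h9 : (10 : ℝ) * exp (3 / 2000) ≤ 11 := by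
    have h10 : exp (3 / 2000 : ℝ) ≤ 11 / 10 := by
      have h11 := Real.exp_bound_div_one_sub_of_interval (x := 3 / 2000) (by norm_num) (by norm_num)
      refine h11.trans ?_
      norm_num
    linarith
  have h12 : exp (-(9 / 10 * (B : ℝ) * log (1 + l / 2))) * exp (3 / 20 * l * (F : ℝ)) ≤
      exp (3 / 2000) ^ m * exp (-(12 / 25 * K)) ^ m * exp (-(1001 / 10000 * (l / 2) * B)) := by
    rw [← Real.exp_nat_mul, ← Real.exp_nat_mul, ← Real.exp_add, ← Real.exp_add, ← Real.exp_add]
    apply Real.exp_le_exp.2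
    have h13 : 9 / 10 * (B : ℝ) * (9975 / 10000 * (l / 2)) ≤ 9 / 10 * (B : ℝ) * log (1 + l / 2) :=
      mul_le_mul_of_nonneg_left h1 (by positivity)
    have h14 : 3 / 20 * l * (F : ℝ) ≤ 3 / 20 * l * (m + B) :=
      mul_le_mul_of_nonneg_left hF' (by positivity)
    have h15 : 3 / 20 * l * (m : ℝ) ≤ 3 / 2000 * m := by
      have : 3 / 20 * l ≤ 3 / 2000 := by linarith
      exact mul_le_mul_of_nonneg_right this hm0
    have h16 : 0 ≤ K * (m : ℝ) := by positivity
    nlinarith
  have h17 : (0 : ℝ) ≤ 1 - l / 20 := by linarith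
  calc 2 * (l / 2) ^ m * (exp (-(9 / 10 * (B : ℝ) * log (1 + l / 2))) *
        exp (3 / 20 * l * (F : ℝ)))
      ≤ 2 * (l / 2) ^ m * (exp (3 / 2000) ^ m * exp (-(12 / 25 * K)) ^ m *
        exp (-(1001 / 10000 * (l / 2) * B))) := mul_le_mul_of_nonneg_left h12 (by positivity)
    _ ≤ 2 * (l / 2) ^ m * (exp (3 / 2000) ^ m * exp (-(12 / 25 * K)) ^ m * (1 - l / 20) ^ B) :=
        mul_le_mul_of_nonneg_left (mul_le_mul_of_nonneg_left h4 (by positivity)) (by positivity)
    _ = 2 * ((10 * exp (3 / 2000)) ^ m * exp (-(12 / 25 * K)) ^ m) *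
        ((l / 20) ^ m * (1 - l / 20) ^ B) := by
        rw [h8, mul_pow]
        ring
    _ ≤ 2 * (11 ^ m * exp (-(12 / 25 * K)) ^ m) * ((l / 20) ^ m * (1 - l / 20) ^ B) := by
        have h18 : (10 * exp (3 / 2000) : ℝ) ^ m ≤ 11 ^ m := pow_le_pow_left₀ (by positivity) h9 _
        have h19 : (10 * exp (3 / 2000)) ^ m * exp (-(12 / 25 * K)) ^ m ≤
            11 ^ m * exp (-(12 / 25 * K)) ^ m := mul_le_mul_of_nonneg_right h18 (by positivity)
        have h20 : (0 : ℝ) ≤ (l / 20) ^ m * (1 - l / 20) ^ B := by positivity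
        nlinarith
    _ = 2 * th K ^ m * ((l / 20) ^ m * (1 - l / 20) ^ B) := by
        unfold th
        rw [mul_pow]

/-- sum over all components -/
theorem rare {T l K x : ℝ} (hl : 0 < l) (hl1 : l ≤ 1 / 100) (hK : 1 ≤ K) (k : Fin d) (q : V d)
    (n m b : ℕ) (hm : 1 ≤ m) (hn : 10 * l * n ≤ K) (Fb : Finset (V d))
    (e e' : Finset (V d) → ℝ)
    (he : ∀ s, 0 ≤ e s) (he' : ∀ s, 0 ≤ e' s) (hst : Stab (par q) Fb m b e e')
    (hFb : ∀ s ∈ Om d, e s ≠ 0 → ∀ r ∈ s, par r = par q →
      (Fb.filter fun z => ∃ i, z = nb i (nb k r)).card ≤ 2)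
    (hb : l * d * m ≤ b) :
    avM l x (fun s t => if q ∈ t ∧ An T l s q ∧ RA T l K n k m s t q
      then e s * exp (3 / 20 * l * (Fn T l s (nb k q) : ℝ)) else 0) ≤
      l / 10 * th K ^ m * avU l (x - m) (fun s => if An T l s q then e' s else 0) := by
  have _ := hm
  set E : Finset (V d) → ℝ := fun s => e s * exp (3 / 20 * l * (Fn T l s (nb k q) : ℝ)) with hE
  set E' : Finset (V d) → ℝ := fun s => e' s * exp (3 / 20 * l * (Fn T l s (nb k q) : ℝ)) with hE'
  have hE0 : ∀ s, 0 ≤ E s := fun s => mul_nonneg (he s) (exp_pos _).le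
  have hE0' : ∀ s, 0 ≤ E' s := fun s => mul_nonneg (he' s) (exp_pos _).le
  have hstE : Stab (par q) Fb m b E E' := by
    intro s hs C hC S hpC hpS hCa hSb hSF hs'
    have h1 := hst s hs C hC S hpC hpS hCa hSb hSF hs'
    have h2 : Fn T l s (nb k q) = Fn T l ((s \ C) ∪ S) (nb k q) := by
      apply Fn_congr
      intro z hz
      rw [par_nb] at hz
      have hne : par z ≠ par q := by
        rw [hz]
        intro h
        have h3 : (1 : ZMod 2) = 0 := by
          have := congrArg (fun y => y - par q) h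
          simp at this
        exact one_ne_zero h3
      rw [mem_union, mem_sdiff]
      constructor
      · intro h
        exact Or.inl ⟨h, fun h3 => hne (hpC z h3)⟩
      · rintro (h | h)
        · exact h.1
        · exact absurd (hpS z h) hne
    simp only [hE, hE']
    rw [← h2]
    exact mul_le_mul_of_nonneg_right h1 (exp_pos _).le
  have hFbE : ∀ s ∈ Om d, E s ≠ 0 → ∀ r ∈ s, par r = par q →
      (Fb.filter fun z => ∃ i, z = nb i (nb k r)).card ≤ 2 := by
    intro s hs h
    exact hFb s hs fun h1 => h (by simp only [hE]; rw [h1, zero_mul])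
  -- split according to the component
  have hsplit : avM l x (fun s t => if q ∈ t ∧ An T l s q ∧ RA T l K n k m s t q
      then E s else 0) = ∑ C : Finset (V d), avM l x (fun s t =>
        if q ∈ t ∧ An T l s q ∧ cn T l k s t q = C ∧ RA T l K n k m s t q then E s else 0) := by
    rw [← avM_sum]
    congr 1
    funext s t
    rw [sum_eq_single (cn T l k s t q)]
    · simp
    · intro C _ hC
      rw [if_neg]
      rintro ⟨-, -, h, -⟩
      exact hC h.symm
    · intro h
      exact absurd (mem_univ _) h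
  have hmain : ∀ s ∈ Bx d (x - m), ∑ C : Finset (V d), 2 * (l / 2) ^ m * (
        if C.card = m ∧ q ∈ C ∧ cmp k C q = C ∧ (∀ r ∈ C, An T l s r) ∧
            K * (m : ℝ) ≤ l / 2 * ((bd T l k s C).card : ℝ)
        then exp (-(9 / 10 * ((bd T l k s C).card : ℝ) * log (1 + l / 2))) * E' s else 0) ≤
      l / 10 * th K ^ m * (if An T l s q then e' s else 0) := by
    intro s _
    by_cases hq : An T l s q
    · rw [if_pos hq]
      have hx0 : (0 : ℝ) ≤ l / 20 := by positivity
      have hx1 : l / 20 ≤ 1 := by linarith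
      have hperc := perc k q (univ.filter fun r => An T l s r)
        (mem_filter.2 ⟨mem_univ _, hq⟩) (l / 20) hx0 hx1
      have hterm : ∀ C : Finset (V d), 2 * (l / 2) ^ m * (
          if C.card = m ∧ q ∈ C ∧ cmp k C q = C ∧ (∀ r ∈ C, An T l s r) ∧
            K * (m : ℝ) ≤ l / 2 * ((bd T l k s C).card : ℝ)
          then exp (-(9 / 10 * ((bd T l k s C).card : ℝ) * log (1 + l / 2))) * E' s else 0) ≤
          2 * th K ^ m * e' s * (if C ∈ (univ.filter fun r => An T l s r).powerset.filter
            (fun C => q ∈ C ∧ cmp k C q = C) then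
            (l / 20) ^ C.card * (1 - l / 20) ^ (univ.filter fun r =>
              r ∈ (univ.filter fun r => An T l s r) ∧ r ∉ C ∧ ∃ a ∈ C, adjk k a r).card else 0) := by
        intro C
        have hthK : 0 ≤ th K := by
          unfold th
          positivity
        have hx2 : (0 : ℝ) ≤ 1 - l / 20 := by linarith
        by_cases hC : C.card = m ∧ q ∈ C ∧ cmp k C q = C ∧ (∀ r ∈ C, An T l s r) ∧
            K * (m : ℝ) ≤ l / 2 * ((bd T l k s C).card : ℝ)
        · rw [if_pos hC]
          obtain ⟨h1, h2, h3, h4, h5⟩ := hC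
          rw [if_pos]
          · have hbd : (univ.filter fun r => r ∈ (univ.filter fun r => An T l s r) ∧ r ∉ C ∧
                ∃ a ∈ C, adjk k a r) = bd T l k s C := by
              unfold bd
              apply filter_congr
              intro r _
              rw [mem_filter]
              constructor
              · rintro ⟨⟨-, e1⟩, e2, e3⟩
                exact ⟨e2, e1, e3⟩
              · rintro ⟨e1, e2, e3⟩
                exact ⟨⟨mem_univ _, e2⟩, e1, e3⟩
            rw [hbd, h1]
            have hF := RARE_Fn_le (T := T) (l := l) (s := s) (k := k) h2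
            rw [h1] at hF
            have hnum := RARE_num hl hl1 hK m (bd T l k s C).card (Fn T l s (nb k q)) hF h5
            have he's := he' s
            simp only [hE']
            calc 2 * (l / 2) ^ m * (exp (-(9 / 10 * ((bd T l k s C).card : ℝ) * log (1 + l / 2))) *
                  (e' s * exp (3 / 20 * l * (Fn T l s (nb k q) : ℝ))))
                = e' s * (2 * (l / 2) ^ m * (exp (-(9 / 10 * ((bd T l k s C).card : ℝ) *
                  log (1 + l / 2))) * exp (3 / 20 * l * (Fn T l s (nb k q) : ℝ)))) := by ring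
              _ ≤ e' s * (2 * th K ^ m * ((l / 20) ^ m * (1 - l / 20) ^ (bd T l k s C).card)) :=
                  mul_le_mul_of_nonneg_left hnum he's
              _ = _ := by ring
          · rw [mem_filter, mem_powerset]
            exact ⟨fun r hr => mem_filter.2 ⟨mem_univ _, h4 r hr⟩, h2, h3⟩
        · rw [if_neg hC, mul_zero]
          refine mul_nonneg (mul_nonneg (by positivity) (he' s)) ?_
          split_ifs
          · positivity
          · exact le_rfl
      refine (sum_le_sum fun C _ => hterm C).trans ?_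
      rw [← mul_sum]
      have hsum : ∑ C : Finset (V d), (if C ∈ (univ.filter fun r => An T l s r).powerset.filter
            (fun C => q ∈ C ∧ cmp k C q = C) then
            (l / 20) ^ C.card * (1 - l / 20) ^ (univ.filter fun r =>
              r ∈ (univ.filter fun r => An T l s r) ∧ r ∉ C ∧ ∃ a ∈ C, adjk k a r).card else 0) =
          ∑ C ∈ (univ.filter fun r => An T l s r).powerset.filter
            (fun C => q ∈ C ∧ cmp k C q = C),
            (l / 20) ^ C.card * (1 - l / 20) ^ (univ.filter fun r =>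
              r ∈ (univ.filter fun r => An T l s r) ∧ r ∉ C ∧ ∃ a ∈ C, adjk k a r).card := by
        rw [sum_ite_mem, univ_inter]
      rw [hsum]
      have hthK : 0 ≤ th K := by
        unfold th
        positivity
      calc 2 * th K ^ m * e' s * _ ≤ 2 * th K ^ m * e' s * (l / 20) :=
            mul_le_mul_of_nonneg_left hperc (mul_nonneg (by positivity) (he' s))
        _ = l / 10 * th K ^ m * e' s := by ring
    · rw [if_neg hq, mul_zero]
      refine le_of_eq (sum_eq_zero fun C _ => ?_)
      rw [if_neg, mul_zero]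
      rintro ⟨-, h2, -, h4, -⟩
      exact hq (h4 q h2)
  calc avM l x (fun s t => if q ∈ t ∧ An T l s q ∧ RA T l K n k m s t q then E s else 0)
      = ∑ C : Finset (V d), avM l x (fun s t =>
        if q ∈ t ∧ An T l s q ∧ cn T l k s t q = C ∧ RA T l K n k m s t q then E s else 0) :=
        hsplit
    _ ≤ ∑ C : Finset (V d), 2 * (l / 2) ^ m * avU l (x - m) (fun s =>
        if C.card = m ∧ q ∈ C ∧ cmp k C q = C ∧ (∀ r ∈ C, An T l s r) ∧
            K * (m : ℝ) ≤ l / 2 * ((bd T l k s C).card : ℝ)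
        then exp (-(9 / 10 * ((bd T l k s C).card : ℝ) * log (1 + l / 2))) * E' s else 0) :=
        sum_le_sum fun C _ => rare1 hl hl1 hK k q n m b hn Fb E E' hE0 hE0' hstE hFbE hb C
    _ = avU l (x - m) (fun s => ∑ C : Finset (V d), 2 * (l / 2) ^ m * (
        if C.card = m ∧ q ∈ C ∧ cmp k C q = C ∧ (∀ r ∈ C, An T l s r) ∧
            K * (m : ℝ) ≤ l / 2 * ((bd T l k s C).card : ℝ)
        then exp (-(9 / 10 * ((bd T l k s C).card : ℝ) * log (1 + l / 2))) * E' s else 0)) := by
        rw [avU_sum]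
        exact sum_congr rfl fun C _ => (avU_mul _ _ _ _).symm
    _ ≤ avU l (x - m) (fun s => l / 10 * th K ^ m * (if An T l s q then e' s else 0)) :=
        avU_mono hl.le hmain
    _ = l / 10 * th K ^ m * avU l (x - m) (fun s => if An T l s q then e' s else 0) :=
        avU_mul _ _ _ _

end Pool.Agent.Lib.MP_c6118e_pr.Win
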