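import Pool.Agent.Lib.MP_c6118e_pr.Win.FR
import Pool.Agent.Lib.MP_c6118e_pr.Win.RARE
import Pool.Agent.Lib.MP_c6118e_pr.Win.LTAIL

/-! # LEMB: a particle of Lk next to u -/

namespace Pool.Agent.Lib.MP_c6118e_pr.Win

open Finset Real
open scoped Classical

variable {d : ℕ}

/-- classification of the small components -/
theorem LEMB_class {T l K : ℝ} {k : Fin d} {n m : ℕ} {s t : Finset (V d)} {q : V d}
    (hc : (cn T l k s t q).card ≤ m) :
    NR T l K k m s t q ∨ XC T l K n k m s t q ∨ ∃ j ∈ Finset.Icc 1 n, RA T l K n k j s t q := by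
  by_cases h1 : l / 2 * ((bd T l k s (cn T l k s t q)).card : ℝ) <
      K * ((cn T l k s t q).card : ℝ)
  · exact Or.inl ⟨hc, h1⟩
  right
  push Not at h1
  by_cases h2 : ∃ r ∈ cn T l k s t q, n < nOcc s (nb k r)
  · exact Or.inl ⟨hc, Or.inl h2⟩
  push Not at h2
  by_cases h3 : n < (cn T l k s t q).card
  · exact Or.inl ⟨hc, Or.inr ⟨h3, h2, h1⟩⟩
  right
  refine ⟨(cn T l k s t q).card, ?_, rfl, h1, h2⟩
  rw [Finset.mem_Icc]
  refine ⟨card_pos.2 ⟨q, mem_cmp_self _ _ _⟩, not_lt.1 h3⟩

/-- the environment used for the components with large boundary -/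
noncomputable def LEMB_env (T l : ℝ) (w : V d) (e : Finset (V d) → ℝ) (s : Finset (V d)) : ℝ :=
  e s * (16 / (l * (Fn T l s w : ℝ)))

theorem LEMB_env_nonneg {T l : ℝ} (hl : 0 < l) (w : V d) {e : Finset (V d) → ℝ}
    (he : ∀ s, 0 ≤ e s) (s : Finset (V d)) : 0 ≤ LEMB_env T l w e s := by
  unfold LEMB_env
  have := he s
  positivity

theorem LEMB_stab {T l : ℝ} (hl : 0 < l) {u w q : V d} (hw : par w = par u + 1)
    (hq : par q = par u) {Fb : Finset (V d)} {n j b : ℕ} (hj : j ≤ n)
    {e e' : Finset (V d) → ℝ} (hst : Stab (par u) Fb n b e e') :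
    Stab (par q) Fb j b (LEMB_env T l w e) (LEMB_env T l w e') := by
  intro s hs C hC S h1 h2 h3 h4 h5 h6
  have h := hst s hs C hC S (fun z hz => (h1 z hz).trans hq) (fun z hz => (h2 z hz).trans hq)
    (h3.trans hj) h4 h5 h6
  have hF : Fn T l s w = Fn T l ((s \ C) ∪ S) w := by
    apply Fn_congr
    intro z hz
    have hne : par z ≠ par q := by
      rw [hz, hw, hq]
      intro h0
      have : (1 : ZMod 2) = 0 := by
        have h7 : par u + 1 = par u + 0 := by rw [h0, add_zero]
        exact add_left_cancel h7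
      exact absurd this (by decide)
    constructor
    · intro hzs
      exact mem_union_left _ (mem_sdiff.2 ⟨hzs, fun hc => hne (h1 z hc)⟩)
    · intro hz'
      rcases mem_union.1 hz' with h8 | h8
      · exact (mem_sdiff.1 h8).1
      · exact absurd (h2 z h8) hne
  unfold LEMB_env
  rw [hF]
  exact mul_le_mul_of_nonneg_right h (by positivity)

/-- the count of normal mark-1 particles next to `u` -/
theorem LEMB_count {T l K : ℝ} {k : Fin d} {u : V d} {n m b0 : ℕ} (hb0 : b0 ≤ m + 1)
    {s t : Finset (V d)} (hu : u ∉ t) (hbT : ¬ bT b0 k t u) :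
    (univ.filter fun i => nb i (nb k u) ∈ t ∧ An T l s (nb i (nb k u))).card ≤
      NRn T l K k m s t u + XCn T l K n k m s t u +
      ∑ j ∈ Finset.Icc 1 n, ((univ.filter fun q => adjk k u q).filter fun q =>
        q ∈ t ∧ An T l s q ∧ RA T l K n k j s t q).card := by
  have hinj : (univ.filter fun i => nb i (nb k u) ∈ t ∧ An T l s (nb i (nb k u))).card ≤
      (t.filter fun q => adjk k u q ∧ An T l s q).card := by
    apply card_le_card_of_injOn (fun i => nb i (nb k u))
    · intro i hi
      have hi' := (mem_filter.1 (mem_coe.1 hi)).2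
      refine mem_coe.2 (mem_filter.2 ⟨hi'.1, ⟨i, ?_, rfl⟩, hi'.2⟩)
      rintro rfl
      rw [nb_nb] at hi'
      exact hu hi'.1
    · intro i _ j _ hij
      exact nb_inj hij
  refine hinj.trans ?_
  have hsub : (t.filter fun q => adjk k u q ∧ An T l s q) ⊆
      ((t.filter fun q => adjk k u q ∧ An T l s q ∧ NR T l K k m s t q) ∪
      (t.filter fun q => adjk k u q ∧ An T l s q ∧ XC T l K n k m s t q)) ∪
      (Finset.Icc 1 n).biUnion fun j => ((univ.filter fun q => adjk k u q).filter fun q =>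
        q ∈ t ∧ An T l s q ∧ RA T l K n k j s t q) := by
    intro q hq
    rw [mem_filter] at hq
    obtain ⟨hqt, hadj, hAn⟩ := hq
    have hcard : (cn T l k s t q).card ≤ m := by
      have h1 : (cn T l k s t q).card ≤ (cmp k t q).card :=
        card_le_card (cmp_mono (filter_subset _ _) q)
      have h2 : (cmp k t q).card < b0 := by
        by_contra h3
        exact hbT ⟨q, mem_filter.2 ⟨hqt, not_lt.1 h3⟩, hadj⟩
      omega
    rcases LEMB_class (T := T) (l := l) (K := K) (n := n) hcard with h | h | ⟨j, hj, h⟩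
    · exact mem_union_left _ (mem_union_left _ (mem_filter.2 ⟨hqt, hadj, hAn, h⟩))
    · exact mem_union_left _ (mem_union_right _ (mem_filter.2 ⟨hqt, hadj, hAn, h⟩))
    · exact mem_union_right _ (mem_biUnion.2 ⟨j, hj, mem_filter.2
        ⟨mem_filter.2 ⟨mem_univ _, hadj⟩, hqt, hAn, h⟩⟩)
  refine (card_le_card hsub).trans ?_
  refine (card_union_le _ _).trans ?_
  refine Nat.add_le_add (card_union_le _ _) card_biUnion_le

/-- the sum over the components with large boundary -/
theorem LEMB_rare {T l K x : ℝ} (hl : 0 < l) (hl1 : l ≤ 1 / 100) (hK : 1 ≤ K)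
    (hth : th K ≤ 1 / 4)
    (k : Fin d) (u : V d) (n b : ℕ) (hnK : 10 * l * n ≤ K)
    (Fb : Finset (V d)) (e e' : Finset (V d) → ℝ)
    (he : ∀ s, 0 ≤ e s) (he' : ∀ s, 0 ≤ e' s) (hst : Stab (par u) Fb n b e e')
    (hFb : ∀ s ∈ Om d, e s ≠ 0 → ∀ r ∈ s, par r = par u →
      (Fb.filter fun z => ∃ i, z = nb i (nb k r)).card ≤ 2)
    (hb : l * d * n ≤ b) :
    ∑ j ∈ Finset.Icc 1 n, ∑ q ∈ univ.filter (fun q => adjk k u q),
      avM l x (fun s t => if q ∈ t ∧ An T l s q ∧ RA T l K n k j s t q
        then LEMB_env T l (nb k u) e s * exp (3 / 20 * l * (Fn T l s (nb k q) : ℝ)) else 0) ≤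
      20 * th K * avU l (x - n) e' := by
  have hth0 : 0 ≤ th K := by unfold th; positivity
  have hpos : 0 ≤ avU l (x - n) e' := avU_nonneg hl.le fun s _ => he' s
  have hj : ∀ j ∈ Finset.Icc 1 n, ∑ q ∈ univ.filter (fun q => adjk k u q),
      avM l x (fun s t => if q ∈ t ∧ An T l s q ∧ RA T l K n k j s t q
        then LEMB_env T l (nb k u) e s * exp (3 / 20 * l * (Fn T l s (nb k q) : ℝ)) else 0) ≤
      16 / 10 * th K ^ j * avU l (x - n) e' := by
    intro j hj
    rw [Finset.mem_Icc] at hj
    have hq : ∀ q ∈ univ.filter (fun q => adjk k u q),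
        avM l x (fun s t => if q ∈ t ∧ An T l s q ∧ RA T l K n k j s t q
        then LEMB_env T l (nb k u) e s * exp (3 / 20 * l * (Fn T l s (nb k q) : ℝ)) else 0) ≤
        l / 10 * th K ^ j * avU l (x - j)
          (fun s => if An T l s q then LEMB_env T l (nb k u) e' s else 0) := by
      intro q hq
      rw [mem_filter] at hq
      have hpq : par q = par u := adjk_par hq.2
      refine rare hl hl1 hK k q n j b hj.1 hnK Fb _ _ (LEMB_env_nonneg hl _ he)
        (LEMB_env_nonneg hl _ he') (LEMB_stab hl (par_nb k u) hpq hj.2 hst) ?_ ?_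
      · intro s hs hes r hr hpr
        refine hFb s hs ?_ r hr (hpr.trans hpq)
        intro h0
        apply hes
        unfold LEMB_env
        rw [h0, zero_mul]
      · have h1 : (j : ℝ) ≤ n := by exact_mod_cast hj.2
        have h2 : l * d * (j : ℝ) ≤ l * d * n := by gcongr
        linarith
    refine (sum_le_sum hq).trans ?_
    rw [← mul_sum, ← avU_sum]
    have hpt : avU l (x - j) (fun s => ∑ q ∈ univ.filter (fun q => adjk k u q),
        if An T l s q then LEMB_env T l (nb k u) e' s else 0) ≤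
        16 / l * avU l (x - n) e' := by
      have h1 : avU l (x - j) (fun s => ∑ q ∈ univ.filter (fun q => adjk k u q),
          if An T l s q then LEMB_env T l (nb k u) e' s else 0) ≤
          avU l (x - j) (fun s => 16 / l * e' s) := by
        apply avU_mono hl.le
        intro s _
        rw [← sum_filter, sum_const, nsmul_eq_mul]
        have hc : ((univ.filter fun q => adjk k u q).filter fun q => An T l s q).card ≤
            Fn T l s (nb k u) := by
          unfold Fn
          refine card_le_card_of_surjOn (fun i => nb i (nb k u)) ?_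
          intro q hq
          have hq' := mem_filter.1 (mem_coe.1 hq)
          obtain ⟨i, _, hi⟩ := (mem_filter.1 hq'.1).2
          exact ⟨i, mem_coe.2 (mem_filter.2 ⟨mem_univ _, hi ▸ hq'.2⟩), hi.symm⟩
        have hc' : ((((univ.filter fun q => adjk k u q).filter fun q =>
            An T l s q).card : ℕ) : ℝ) ≤ Fn T l s (nb k u) := by exact_mod_cast hc
        refine (mul_le_mul_of_nonneg_right hc' (LEMB_env_nonneg hl _ he' s)).trans ?_
        unfold LEMB_env
        by_cases hF : (Fn T l s (nb k u) : ℝ) = 0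
        · rw [hF, zero_mul]
          have := he' s
          positivity
        · have : (Fn T l s (nb k u) : ℝ) * (e' s * (16 / (l * (Fn T l s (nb k u) : ℝ)))) =
              16 / l * e' s := by
            field_simp
          rw [this]
      refine h1.trans ?_
      rw [avU_mul]
      have h2 : (x - n : ℝ) ≤ x - j := by
        have : (j : ℝ) ≤ n := by exact_mod_cast hj.2
        linarith
      exact mul_le_mul_of_nonneg_left (avU_anti hl.le h2 fun s _ => he' s) (by positivity)
    calc l / 10 * th K ^ j * avU l (x - j) (fun s => ∑ q ∈ univ.filter (fun q => adjk k u q),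
        if An T l s q then LEMB_env T l (nb k u) e' s else 0)
        ≤ l / 10 * th K ^ j * (16 / l * avU l (x - n) e') :=
          mul_le_mul_of_nonneg_left hpt (by positivity)
      _ = 16 / 10 * th K ^ j * avU l (x - n) e' := by
          field_simp
  refine (sum_le_sum hj).trans ?_
  rw [← sum_mul, ← mul_sum]
  have hgeo : ∑ j ∈ Finset.Icc 1 n, th K ^ j ≤ 4 / 3 * th K := by
    have h1 : ∀ N : ℕ, ∑ j ∈ Finset.Icc 1 N, th K ^ j ≤ 4 / 3 * th K * (1 - th K ^ N) := by
      intro N
      induction N with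
      | zero => simp
      | succ N ih =>
        rw [sum_Icc_succ_top (by omega)]
        have h2 : 0 ≤ th K ^ N := pow_nonneg hth0 _
        have h3 : th K ^ (N + 1) = th K * th K ^ N := pow_succ' _ _
        rw [h3]
        nlinarith [mul_nonneg hth0 h2, mul_nonneg (mul_nonneg hth0 h2) hth0,
          mul_nonneg (mul_nonneg hth0 h2) (sub_nonneg.2 hth)]
    refine (h1 n).trans ?_
    have h2 : 0 ≤ th K ^ n := pow_nonneg hth0 _
    nlinarith [mul_nonneg hth0 h2]
  refine mul_le_mul_of_nonneg_right ?_ hpos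
  linarith

theorem lemB {T l K x : ℝ} (hl : 0 < l) (hl1 : l ≤ 1 / 100) (hK : 1 ≤ K) (hth : th K ≤ 1 / 4)
    (k : Fin d) (u : V d) (n m b b0 : ℕ) (hn : 1 ≤ n) (hnK : 10 * l * n ≤ K) (hb0 : b0 ≤ m + 1)
    (Fb : Finset (V d)) (e e' : Finset (V d) → ℝ)
    (he : ∀ s, 0 ≤ e s) (he' : ∀ s, 0 ≤ e' s) (hst : Stab (par u) Fb n b e e')
    (hFb : ∀ s ∈ Om d, e s ≠ 0 → ∀ r ∈ s, par r = par u →
      (Fb.filter fun z => ∃ i, z = nb i (nb k r)).card ≤ 2)
    (hFb2 : (Fb.filter fun z => ∃ i, z = nb i (nb k u)).card ≤ 2)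
    (heu : ∀ s ∈ Om d, e s ≠ 0 → u ∉ s ∧ nb k u ∉ s)
    (hb : l * d * n ≤ b) (hb2 : 2 * l * d ≤ b) (C' : ℝ) (hC' : 17 ≤ C') :
    avM l x (fun s t => if C' ≤ l * (Fr s (nb k u) : ℝ) ∧ ¬ Ct T l s (nb k u) ∧
        nOcc s (nb k u) ≤ n ∧ ¬ bT b0 k t u then e s else 0) ≤
      (3 * exp (-(7 / 25 * (C' - 1))) + 20 * th K) * avU l (x - n) e' +
      16 / (C' - 1) * avM l x (fun s t => e s * (NRn T l K k m s t u : ℝ)) +
      avM l x (fun s t => e s * (XCn T l K n k m s t u : ℝ)) := by
  have hpw : par (nb k u) + 1 = par u := by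
    rw [par_nb, add_assoc, zmod2_add_self, add_zero]
  have hst' : Stab (par (nb k u) + 1) Fb n b e e' := by rw [hpw]; exact hst
  have hA := ltail (T := T) (x := x) hl hl1 (nb k u) n b Fb e e' he he' hst' hFb2 hb2 (C' - 1)
  have hR := LEMB_rare (T := T) (x := x) hl hl1 hK hth k u n b hnK Fb e e' he he' hst hFb hb
  have hpt : avM l x (fun s t => if C' ≤ l * (Fr s (nb k u) : ℝ) ∧ ¬ Ct T l s (nb k u) ∧
        nOcc s (nb k u) ≤ n ∧ ¬ bT b0 k t u then e s else 0) ≤
      avM l x (fun s t => (((if nOcc s (nb k u) ≤ n ∧ C' - 1 ≤ l * (Fn T l s (nb k u) : ℝ) ∧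
        16 * ((univ.filter fun i => nb i (nb k u) ∈ t ∧ An T l s (nb i (nb k u))).card : ℝ) <
          l * (Fn T l s (nb k u) : ℝ) then e s else 0) +
        16 / (C' - 1) * (e s * (NRn T l K k m s t u : ℝ))) +
        e s * (XCn T l K n k m s t u : ℝ)) +
        ∑ j ∈ Finset.Icc 1 n, ∑ q ∈ univ.filter (fun q => adjk k u q),
          (if q ∈ t ∧ An T l s q ∧ RA T l K n k j s t q
          then LEMB_env T l (nb k u) e s * exp (3 / 20 * l * (Fn T l s (nb k q) : ℝ))
          else 0)) := by
    apply avM_mono hl.le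
    intro s hs t hts
    have hC1 : 0 < C' - 1 := by linarith
    have hes := he s
    have hE := LEMB_env_nonneg (T := T) hl (nb k u) he s
    have n1 : 0 ≤ (if nOcc s (nb k u) ≤ n ∧ C' - 1 ≤ l * (Fn T l s (nb k u) : ℝ) ∧
        16 * ((univ.filter fun i => nb i (nb k u) ∈ t ∧ An T l s (nb i (nb k u))).card : ℝ) <
          l * (Fn T l s (nb k u) : ℝ) then e s else 0) := by
      split_ifs
      · exact hes
      · exact le_rfl
    have n2 : 0 ≤ 16 / (C' - 1) * (e s * (NRn T l K k m s t u : ℝ)) := by positivity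
    have n3 : 0 ≤ e s * (XCn T l K n k m s t u : ℝ) := by positivity
    have n4 : 0 ≤ ∑ j ∈ Finset.Icc 1 n, ∑ q ∈ univ.filter (fun q => adjk k u q),
          (if q ∈ t ∧ An T l s q ∧ RA T l K n k j s t q
          then LEMB_env T l (nb k u) e s * exp (3 / 20 * l * (Fn T l s (nb k q) : ℝ))
          else 0) := by
      refine sum_nonneg fun j _ => sum_nonneg fun q _ => ?_
      split_ifs
      · positivity
      · exact le_rfl
    by_cases hcond : C' ≤ l * (Fr s (nb k u) : ℝ) ∧ ¬ Ct T l s (nb k u) ∧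
        nOcc s (nb k u) ≤ n ∧ ¬ bT b0 k t u
    swap
    · rw [if_neg hcond]
      linarith
    rw [if_pos hcond]
    by_cases he0 : e s = 0
    · linarith
    obtain ⟨hus, hws⟩ := heu s (Bx_sub_Om _ hs) he0
    obtain ⟨hc1, hc2, hc3, hc4⟩ := hcond
    have hFF := Fr_le_Fn hl hws hc2
    have hFn : C' - 1 ≤ l * (Fn T l s (nb k u) : ℝ) := by linarith
    by_cases hlt : 16 * ((univ.filter fun i => nb i (nb k u) ∈ t ∧
        An T l s (nb i (nb k u))).card : ℝ) < l * (Fn T l s (nb k u) : ℝ)
    · rw [if_pos ⟨hc3, hFn, hlt⟩]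
      linarith
    rw [not_lt] at hlt
    have hcount := LEMB_count (T := T) (l := l) (K := K) (n := n) (s := s) hb0
      (fun h => hus (hts h)) hc4
    have hcount' : ((univ.filter fun i => nb i (nb k u) ∈ t ∧
        An T l s (nb i (nb k u))).card : ℝ) ≤
        NRn T l K k m s t u + XCn T l K n k m s t u +
        ∑ j ∈ Finset.Icc 1 n, (((univ.filter fun q => adjk k u q).filter fun q =>
          q ∈ t ∧ An T l s q ∧ RA T l K n k j s t q).card : ℝ) := by
      exact_mod_cast hcount
    have hsum : LEMB_env T l (nb k u) e s *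
        ∑ j ∈ Finset.Icc 1 n, (((univ.filter fun q => adjk k u q).filter fun q =>
          q ∈ t ∧ An T l s q ∧ RA T l K n k j s t q).card : ℝ) ≤
        ∑ j ∈ Finset.Icc 1 n, ∑ q ∈ univ.filter (fun q => adjk k u q),
          (if q ∈ t ∧ An T l s q ∧ RA T l K n k j s t q
          then LEMB_env T l (nb k u) e s * exp (3 / 20 * l * (Fn T l s (nb k q) : ℝ))
          else 0) := by
      rw [mul_sum]
      refine sum_le_sum fun j _ => ?_
      rw [← sum_filter]
      have : LEMB_env T l (nb k u) e s * (((univ.filter fun q => adjk k u q).filter fun q =>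
          q ∈ t ∧ An T l s q ∧ RA T l K n k j s t q).card : ℝ) =
          ∑ _q ∈ (univ.filter fun q => adjk k u q).filter fun q =>
          q ∈ t ∧ An T l s q ∧ RA T l K n k j s t q, LEMB_env T l (nb k u) e s := by
        rw [sum_const, nsmul_eq_mul, mul_comm]
      rw [this]
      refine sum_le_sum fun q _ => ?_
      refine le_mul_of_one_le_right hE ?_
      exact one_le_exp (by positivity)
    set NN : ℝ := (NRn T l K k m s t u : ℝ) with hNN
    set XX : ℝ := (XCn T l K n k m s t u : ℝ) with hXX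
    set RR : ℝ := ∑ j ∈ Finset.Icc 1 n, (((univ.filter fun q => adjk k u q).filter fun q =>
          q ∈ t ∧ An T l s q ∧ RA T l K n k j s t q).card : ℝ) with hRR
    set F : ℝ := l * (Fn T l s (nb k u) : ℝ) with hF
    have hF0 : 0 < F := lt_of_lt_of_le hC1 hFn
    have hNN0 : 0 ≤ NN := by positivity
    have hXX0 : 0 ≤ XX := by positivity
    have hone : 1 ≤ 16 / F * (NN + XX + RR) := by
      rw [div_mul_eq_mul_div, le_div_iff₀ hF0]
      linarith
    have h16 : 16 / F ≤ 16 / (C' - 1) := by gcongr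
    have h17 : 16 / F ≤ 1 := by
      rw [div_le_one hF0]
      linarith
    have hstep : e s ≤ e s * (16 / F * (NN + XX + RR)) := le_mul_of_one_le_right hes hone
    have hs1 : e s * (16 / F * NN) ≤ 16 / (C' - 1) * (e s * NN) := by
      have := mul_le_mul_of_nonneg_right h16 (mul_nonneg hes hNN0)
      calc e s * (16 / F * NN) = 16 / F * (e s * NN) := by ring
        _ ≤ _ := this
    have hs2 : e s * (16 / F * XX) ≤ e s * XX := by
      have := mul_le_mul_of_nonneg_right h17 (mul_nonneg hes hXX0)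
      calc e s * (16 / F * XX) = 16 / F * (e s * XX) := by ring
        _ ≤ 1 * (e s * XX) := this
        _ = _ := one_mul _
    have hs3 : e s * (16 / F * RR) = LEMB_env T l (nb k u) e s * RR := by
      unfold LEMB_env
      rw [← hF]
      ring
    have hexp : e s * (16 / F * (NN + XX + RR)) =
        e s * (16 / F * NN) + e s * (16 / F * XX) + e s * (16 / F * RR) := by ring
    rw [hexp, hs3] at hstep
    linarith
  refine hpt.trans ?_
  rw [avM_add, avM_add, avM_add, avM_mul, avM_sum]
  have hsw : ∑ j ∈ Finset.Icc 1 n, avM l x (fun s t => ∑ q ∈ univ.filter (fun q => adjk k u q),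
          (if q ∈ t ∧ An T l s q ∧ RA T l K n k j s t q
          then LEMB_env T l (nb k u) e s * exp (3 / 20 * l * (Fn T l s (nb k q) : ℝ))
          else 0)) =
      ∑ j ∈ Finset.Icc 1 n, ∑ q ∈ univ.filter (fun q => adjk k u q),
      avM l x (fun s t => if q ∈ t ∧ An T l s q ∧ RA T l K n k j s t q
        then LEMB_env T l (nb k u) e s * exp (3 / 20 * l * (Fn T l s (nb k q) : ℝ)) else 0) :=
    sum_congr rfl fun j _ => avM_sum _ _ _ _
  rw [hsw]
  linarith

end Pool.Agent.Lib.MP_c6118e_pr.Win
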