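import Pool.Agent.Lib.MP_c6118e_pr.Win.FR
import Pool.Agent.Lib.MP_c6118e_pr.Win.EXPA

/-! # NRPN: NR particles and poor particles -/

namespace Pool.Agent.Lib.MP_c6118e_pr.Win

open Finset Real
open scoped Classical

variable {d : ℕ}

theorem NRPN_symm {k : Fin d} {D : Finset (V d)} {q r : V d} (hq : q ∈ D) (h : r ∈ cmp k D q) :
    q ∈ cmp k D r := by
  unfold cmp at h ⊢
  rw [mem_filter] at h ⊢
  refine ⟨mem_univ _, ?_⟩
  have : r ∈ D ∧ Relation.ReflTransGen (fun a b => b ∈ D ∧ adjk k a b) r q := by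
    induction h.2 with
    | refl => exact ⟨hq, Relation.ReflTransGen.refl⟩
    | tail h1 h2 ih =>
      have h3 := ih ⟨mem_univ _, h1⟩
      refine ⟨h2.1, ?_⟩
      exact Relation.ReflTransGen.head ⟨h3.1, adjk_symm h2.2⟩ h3.2
  exact this.2

theorem NRPN_trans {k : Fin d} {D : Finset (V d)} {q r z : V d} (h : r ∈ cmp k D q)
    (h' : z ∈ cmp k D r) : z ∈ cmp k D q := by
  unfold cmp at h h' ⊢
  rw [mem_filter] at h h' ⊢
  exact ⟨mem_univ _, h.2.trans h'.2⟩

theorem NRPN_eq {k : Fin d} {D : Finset (V d)} {q r : V d} (hq : q ∈ D) (h : r ∈ cmp k D q) :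
    cmp k D r = cmp k D q := by
  ext z
  exact ⟨fun hz => NRPN_trans h hz, fun hz => NRPN_trans (NRPN_symm hq h) hz⟩

/-- in a small component with small boundary at most half of the members are rich -/
theorem NRPN_half {T l K C2 : ℝ} (hl : 0 < l) (hl1 : l ≤ 1) (hK : 1 ≤ K) (hC2 : 32 * K + 16 ≤ C2)
    (k : Fin d) (m : ℕ) (hm : (m : ℝ) ≤ (C2 / l) ^ 2 / 200) {s t : Finset (V d)} (q : V d)
    (hNR : NR T l K k m s t q) :
    2 * ((cn T l k s t q).filter fun r => C2 ≤ l * (Fn T l s (nb k r) : ℝ)).card ≤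
      (cn T l k s t q).card := by
  by_contra hcon
  push Not at hcon
  set C := cn T l k s t q with hC
  set X := C.filter fun r => C2 ≤ l * (Fn T l s (nb k r) : ℝ) with hX
  set C' := X.image (nb k) with hC'
  set A := univ.filter fun a : V d => par a = par q ∧ An T l s a with hA
  have hpar : ∀ r ∈ C, par r = par q := fun r hr => cmp_par hr
  have hcard : C'.card = X.card := card_image_of_injective _ (nb_injective k)
  have hXC : X.card ≤ C.card := card_le_card (filter_subset _ _)
  have key := expa C' A (C2 / l) (par q + 1) ?_ ?_ ?_ ?_ ?_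
  · have hsub : (A.filter fun a => ∃ i, nb i a ∈ C') ⊆ C ∪ bd T l k s C := by
      intro a ha
      rw [mem_filter, hA, mem_filter] at ha
      obtain ⟨⟨_, _, ha1⟩, i, hi⟩ := ha
      rw [hC', mem_image] at hi
      obtain ⟨r, hr, hri⟩ := hi
      rw [hX, mem_filter] at hr
      have har : a = nb i (nb k r) := by rw [hri, nb_nb]
      by_cases haC : a ∈ C
      · exact mem_union_left _ haC
      · refine mem_union_right _ ?_
        unfold bd
        rw [mem_filter]
        refine ⟨mem_univ _, haC, ha1, r, hr.1, i, ?_, har⟩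
        rintro rfl
        rw [nb_nb] at har
        exact haC (har ▸ hr.1)
    have h1 : ((A.filter fun a => ∃ i, nb i a ∈ C').card : ℝ) ≤ (C.card : ℝ) +
        ((bd T l k s C).card : ℝ) := by
      exact_mod_cast (card_le_card hsub).trans (card_union_le _ _)
    have h2 : l / 2 * ((bd T l k s C).card : ℝ) < K * (C.card : ℝ) := hNR.2
    have h3 : (C.card : ℝ) < 2 * (X.card : ℝ) := by exact_mod_cast hcon
    rw [hcard] at key
    have h4 : C2 / l * (X.card : ℝ) / 8 ≤ (C.card : ℝ) + ((bd T l k s C).card : ℝ) :=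
      key.trans h1
    have h5 : l / 2 * (C2 / l * (X.card : ℝ) / 8) ≤
        l / 2 * ((C.card : ℝ) + ((bd T l k s C).card : ℝ)) :=
      mul_le_mul_of_nonneg_left h4 (by positivity)
    have h6 : l / 2 * (C2 / l * (X.card : ℝ) / 8) = C2 * (X.card : ℝ) / 16 := by
      field_simp
      ring
    rw [h6] at h5
    have hC0 : (0 : ℝ) ≤ (C.card : ℝ) := Nat.cast_nonneg _
    have h7 : l / 2 * (C.card : ℝ) ≤ 1 / 2 * (C.card : ℝ) :=
      mul_le_mul_of_nonneg_right (by linarith) hC0
    have h8 : (32 * K + 16) * (X.card : ℝ) ≤ C2 * (X.card : ℝ) :=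
      mul_le_mul_of_nonneg_right hC2 (Nat.cast_nonneg _)
    nlinarith
  · intro z hz
    rw [hC', mem_image] at hz
    obtain ⟨r, hr, rfl⟩ := hz
    rw [par_nb, hpar r (filter_subset _ _ hr)]
  · intro z hz
    rw [hA, mem_filter] at hz
    rw [add_assoc, zmod2_add_self, add_zero]
    exact hz.2.1
  · rw [le_div_iff₀ hl]
    nlinarith
  · intro z hz
    rw [hC', mem_image] at hz
    obtain ⟨r, hr, rfl⟩ := hz
    rw [hX, mem_filter] at hr
    have h1 : (univ.filter fun i => nb i (nb k r) ∈ A).card = Fn T l s (nb k r) := by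
      unfold Fn
      congr 1
      apply filter_congr
      intro i _
      rw [hA, mem_filter]
      constructor
      · exact fun h => h.2.2
      · intro h
        refine ⟨mem_univ _, ?_, h⟩
        rw [par_nb, par_nb, hpar r hr.1, add_assoc, zmod2_add_self, add_zero]
    rw [h1, div_le_iff₀ hl, mul_comm]
    exact hr.2
  · rw [hcard]
    have h1 : C.card ≤ m := hNR.1
    have : (X.card : ℝ) ≤ (m : ℝ) := by exact_mod_cast hXC.trans h1
    exact this.trans hm

/-- at least half of the members of a small component with small boundary are poor -/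
theorem nrpn {T l K C2 : ℝ} (hl : 0 < l) (hl1 : l ≤ 1) (hK : 1 ≤ K) (hC2 : 32 * K + 16 ≤ C2)
    (k : Fin d) (m : ℕ) (hm : (m : ℝ) ≤ (C2 / l) ^ 2 / 200) {s t : Finset (V d)} (hs : s ∈ Om d)
    (hts : t ⊆ s) : NRg T l K k m s t ≤ 2 * PNn T l C2 k s := by
  set D := t.filter fun r => An T l s r with hD
  set S := t.filter fun q => An T l s q ∧ NR T l K k m s t q with hS
  set P := S.filter fun r => l * (Fn T l s (nb k r) : ℝ) < C2 with hP
  have hPN : P.card ≤ PNn T l C2 k s := by
    unfold PNn
    apply card_le_card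
    intro q hq
    rw [hP, mem_filter, hS, mem_filter] at hq
    rw [mem_filter]
    exact ⟨hts hq.1.1, hq.1.2.1.2, hq.2⟩
  have hmain : S.card ≤ 2 * P.card := by
    rw [card_eq_sum_card_image (cn T l k s t) S,
      card_eq_sum_card_fiberwise (f := cn T l k s t) (s := P) (t := S.image (cn T l k s t))
        (fun q hq => mem_image_of_mem _ (filter_subset _ _ hq)), mul_sum]
    apply sum_le_sum
    intro C hC
    rw [mem_image] at hC
    obtain ⟨q, hq, rfl⟩ := hC
    have hq' := hq
    rw [hS, mem_filter] at hq'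
    have hqD : q ∈ D := mem_filter.2 ⟨hq'.1, hq'.2.1⟩
    have hmem : ∀ r, r ∈ cn T l k s t q → cn T l k s t r = cn T l k s t q ∧ r ∈ S := by
      intro r hr
      have h1 : cn T l k s t r = cn T l k s t q := NRPN_eq hqD hr
      have h2 : r ∈ D := cmp_subset hqD hr
      refine ⟨h1, ?_⟩
      rw [hD, mem_filter] at h2
      rw [hS, mem_filter]
      refine ⟨h2.1, h2.2, ?_⟩
      unfold NR
      rw [h1]
      exact hq'.2.2
    have e1 : (S.filter fun r => cn T l k s t r = cn T l k s t q) = cn T l k s t q := by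
      ext r
      rw [mem_filter]
      constructor
      · rintro ⟨_, h⟩
        rw [← h]
        exact mem_cmp_self _ _ _
      · intro h
        exact ⟨(hmem r h).2, (hmem r h).1⟩
    have e2 : (P.filter fun r => cn T l k s t r = cn T l k s t q) =
        (cn T l k s t q).filter fun r => ¬ (C2 ≤ l * (Fn T l s (nb k r) : ℝ)) := by
      ext r
      simp only [hP, mem_filter, not_le]
      constructor
      · rintro ⟨⟨_, h1⟩, h⟩
        refine ⟨?_, h1⟩
        rw [← h]
        exact mem_cmp_self _ _ _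
      · rintro ⟨h, h1⟩
        exact ⟨⟨(hmem r h).2, h1⟩, (hmem r h).1⟩
    rw [e1, e2]
    have h3 := NRPN_half hl hl1 hK hC2 k m hm (s := s) (t := t) q hq'.2.2
    have h4 := card_filter_add_card_filter_not (s := cn T l k s t q)
      (fun r => C2 ≤ l * (Fn T l s (nb k r) : ℝ))
    omega
  have : NRg T l K k m s t = S.card := rfl
  rw [this]
  omega

end Pool.Agent.Lib.MP_c6118e_pr.Win
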