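import Pool.Agent.Lib.MP_c6118e_pr.Win.FR
import Pool.Agent.Lib.MP_c6118e_pr.Win.LEMB
import Pool.Agent.Lib.MP_c6118e_pr.Win.NRPN
import Pool.Agent.Lib.MP_c6118e_pr.Win.ENVF
import Pool.Agent.Lib.MP_c6118e_pr.Win.CNT

/-! # TB: FF edges without Lk particle -/

namespace Pool.Agent.Lib.MP_c6118e_pr.Win

open Finset Real
open scoped Classical

variable {d : ℕ}

/-- the event treated by `lemB` -/
noncomputable def TB_G (T l C6 c : ℝ) (n b0 : ℕ) (u : V d) (i k : Fin d)
    (s t : Finset (V d)) : ℝ :=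
  if C6 ≤ l * (Fr s (nb k u) : ℝ) ∧ ¬ Ct T l s (nb k u) ∧
    nOcc s (nb k u) ≤ n ∧ ¬ bT b0 k t u then eF l c u i s else 0

theorem TB_eF_nonneg (l c : ℝ) (u : V d) (i : Fin d) (s : Finset (V d)) : 0 ≤ eF l c u i s := by
  unfold eF
  split_ifs <;> norm_num

theorem TB_G_nonneg (T l C6 c : ℝ) (n b0 : ℕ) (u : V d) (i k : Fin d)
    (s t : Finset (V d)) : 0 ≤ TB_G T l C6 c n b0 u i k s t := by
  unfold TB_G
  split_ifs
  · exact TB_eF_nonneg l c u i s
  · exact le_rfl

/-- `Exc` as a number -/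
noncomputable def TB_X (T l C2 C6 m0 : ℝ) (n : ℕ) (s : Finset (V d)) (v : V d) : ℝ :=
  if Exc T l C2 C6 m0 n s v then 1 else 0

theorem TB_X_nonneg (T l C2 C6 m0 : ℝ) (n : ℕ) (s : Finset (V d)) (v : V d) :
    0 ≤ TB_X T l C2 C6 m0 n s v := by
  unfold TB_X
  split_ifs <;> norm_num

theorem TB_light {T l C2 C6 c m0 : ℝ} {n : ℕ} (hl : 0 < l) (hm0 : 0 ≤ m0) (hc0 : 0 ≤ c)
    {s : Finset (V d)} {u : V d} (hex : ¬ Exc T l C2 C6 m0 n s u)
    (hF : l * (Fr s u : ℝ) < c) :
    ((univ.filter fun k => l * (Fr s (nb k u) : ℝ) < C6).card : ℝ) ≤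
      m0 + 2 * exp (2 * C6) * (c / l) := by
  have h1 : ¬ LAx l C6 m0 s u := fun h => hex (Or.inr (Or.inr (Or.inr (Or.inl h))))
  unfold LAx at h1
  push Not at h1
  have h2 : (Fr s u : ℝ) ≤ c / l := by
    rw [le_div_iff₀ hl]
    linarith
  have h3 : 2 * exp (2 * C6) * (Fr s u : ℝ) ≤ 2 * exp (2 * C6) * (c / l) := by gcongr
  have h4 : 0 ≤ 2 * exp (2 * C6) * (c / l) := by positivity
  rcases le_or_gt ((univ.filter fun k => l * (Fr s (nb k u) : ℝ) < C6).card : ℝ) m0 with h | h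
  · linarith
  · linarith [h1 h]

/-- the bound for one edge -/
theorem TB_point {T l C2 C6 c m0 : ℝ} {n b0 : ℕ} (hl : 0 < l) (hm0 : 0 ≤ m0) (hc0 : 0 ≤ c)
    {s t : Finset (V d)} {u : V d} {i : Fin d} (hF : FFp l c s u i) :
    ((univ.filter fun k => k ≠ i ∧ ¬ bT b0 k t u).card : ℝ) ≤
      (m0 + 2 * exp (2 * C6) * (c / l)) + d * TB_X T l C2 C6 m0 n s u +
        ∑ k : Fin d, TB_X T l C2 C6 m0 n s (nb k u) +
        ∑ k ∈ univ.filter (fun k => k ≠ i), TB_G T l C6 c n b0 u i k s t := by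
  have hK : 0 ≤ m0 + 2 * exp (2 * C6) * (c / l) := by positivity
  have hE : 0 ≤ ∑ k : Fin d, TB_X T l C2 C6 m0 n s (nb k u) :=
    sum_nonneg fun k _ => TB_X_nonneg T l C2 C6 m0 n s _
  have hG : 0 ≤ ∑ k ∈ univ.filter (fun k => k ≠ i), TB_G T l C6 c n b0 u i k s t :=
    sum_nonneg fun k _ => TB_G_nonneg T l C6 c n b0 u i k s t
  by_cases hex : Exc T l C2 C6 m0 n s u
  · have h0 : TB_X T l C2 C6 m0 n s u = 1 := if_pos hex
    rw [h0]
    have h1 : ((univ.filter fun k => k ≠ i ∧ ¬ bT b0 k t u).card : ℝ) ≤ d := by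
      have h2 := (univ.filter fun k : Fin d => k ≠ i ∧ ¬ bT b0 k t u).card_le_univ
      rw [Fintype.card_fin] at h2
      exact_mod_cast h2
    linarith
  · have h0 : TB_X T l C2 C6 m0 n s u = 0 := if_neg hex
    rw [h0]
    have h1 := TB_light hl hm0 hc0 hex hF.2.2.1
    have hsub : (univ.filter fun k => k ≠ i ∧ ¬ bT b0 k t u) ⊆
        ((univ.filter fun k => l * (Fr s (nb k u) : ℝ) < C6) ∪
        (univ.filter fun k => Exc T l C2 C6 m0 n s (nb k u))) ∪
        ((univ.filter fun k => k ≠ i).filter fun k => C6 ≤ l * (Fr s (nb k u) : ℝ) ∧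
          ¬ Ct T l s (nb k u) ∧ nOcc s (nb k u) ≤ n ∧ ¬ bT b0 k t u) := by
      intro k hk
      rw [mem_filter] at hk
      simp only [mem_union, mem_filter, mem_univ, true_and]
      by_cases h2 : l * (Fr s (nb k u) : ℝ) < C6
      · exact Or.inl (Or.inl h2)
      by_cases h3 : Exc T l C2 C6 m0 n s (nb k u)
      · exact Or.inl (Or.inr h3)
      refine Or.inr ⟨hk.2.1, not_lt.1 h2, fun h => h3 (Or.inr (Or.inr (Or.inr (Or.inr h)))),
        ?_, hk.2.2⟩
      by_contra h4
      exact h3 (Or.inl (not_le.1 h4))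
    have hcard := (card_le_card hsub).trans
      ((card_union_le _ _).trans (Nat.add_le_add_right (card_union_le _ _) _))
    have h5 : ((univ.filter fun k => Exc T l C2 C6 m0 n s (nb k u)).card : ℝ) =
        ∑ k : Fin d, TB_X T l C2 C6 m0 n s (nb k u) := by
      rw [card_filter]
      push_cast
      rfl
    have h6 : (((univ.filter fun k => k ≠ i).filter fun k => C6 ≤ l * (Fr s (nb k u) : ℝ) ∧
          ¬ Ct T l s (nb k u) ∧ nOcc s (nb k u) ≤ n ∧ ¬ bT b0 k t u).card : ℝ) =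
        ∑ k ∈ univ.filter (fun k => k ≠ i), TB_G T l C6 c n b0 u i k s t := by
      rw [card_filter]
      push_cast
      refine sum_congr rfl fun k _ => ?_
      unfold TB_G eF
      rw [if_pos hF]
    have h7 : ((univ.filter fun k => k ≠ i ∧ ¬ bT b0 k t u).card : ℝ) ≤
        ((univ.filter fun k => l * (Fr s (nb k u) : ℝ) < C6).card : ℝ) +
        ((univ.filter fun k => Exc T l C2 C6 m0 n s (nb k u)).card : ℝ) +
        (((univ.filter fun k => k ≠ i).filter fun k => C6 ≤ l * (Fr s (nb k u) : ℝ) ∧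
          ¬ Ct T l s (nb k u) ∧ nOcc s (nb k u) ≤ n ∧ ¬ bT b0 k t u).card : ℝ) := by
      exact_mod_cast hcard
    rw [h5, h6] at h7
    linarith

/-- the sum over all edges -/
theorem TB_sum {T l C2 C6 c m0 : ℝ} {n b0 : ℕ} (hl : 0 < l) (hm0 : 0 ≤ m0) (hc0 : 0 ≤ c)
    (s t : Finset (V d)) :
    ∑ q ∈ univ.filter (fun q : V d × Fin d => FFp l c s q.1 q.2),
      ((univ.filter fun k => k ≠ q.2 ∧ ¬ bT b0 k t q.1).card : ℝ) ≤
      (m0 + 2 * exp (2 * C6) * (c / l)) * (FFn l c s : ℝ) +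
        2 * d ^ 2 * ∑ v : V d, TB_X T l C2 C6 m0 n s v +
        ∑ u : V d, ∑ i : Fin d, ∑ k ∈ univ.filter (fun k => k ≠ i),
          TB_G T l C6 c n b0 u i k s t := by
  have h1 : ∑ q ∈ univ.filter (fun q : V d × Fin d => FFp l c s q.1 q.2),
      ((univ.filter fun k => k ≠ q.2 ∧ ¬ bT b0 k t q.1).card : ℝ) ≤
      ∑ q ∈ univ.filter (fun q : V d × Fin d => FFp l c s q.1 q.2),
        ((m0 + 2 * exp (2 * C6) * (c / l)) + (d * TB_X T l C2 C6 m0 n s q.1 +
        ∑ k : Fin d, TB_X T l C2 C6 m0 n s (nb k q.1) +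
        ∑ k ∈ univ.filter (fun k => k ≠ q.2), TB_G T l C6 c n b0 q.1 q.2 k s t)) := by
    refine sum_le_sum fun q hq => ?_
    rw [mem_filter] at hq
    have := TB_point (T := T) (C2 := C2) (C6 := C6) (n := n) (b0 := b0) (t := t) hl hm0 hc0 hq.2
    linarith
  refine h1.trans ?_
  rw [sum_add_distrib, sum_const, nsmul_eq_mul, sum_add_distrib, sum_add_distrib]
  have h2 : ∑ q ∈ univ.filter (fun q : V d × Fin d => FFp l c s q.1 q.2),
        (d * TB_X T l C2 C6 m0 n s q.1 +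
        ∑ k : Fin d, TB_X T l C2 C6 m0 n s (nb k q.1) +
        ∑ k ∈ univ.filter (fun k => k ≠ q.2), TB_G T l C6 c n b0 q.1 q.2 k s t) ≤
      ∑ q : V d × Fin d, (d * TB_X T l C2 C6 m0 n s q.1 +
        ∑ k : Fin d, TB_X T l C2 C6 m0 n s (nb k q.1) +
        ∑ k ∈ univ.filter (fun k => k ≠ q.2), TB_G T l C6 c n b0 q.1 q.2 k s t) := by
    refine sum_le_sum_of_subset_of_nonneg (filter_subset _ _) fun q _ _ => ?_
    have e1 := TB_X_nonneg T l C2 C6 m0 n s q.1
    have e2 : 0 ≤ ∑ k : Fin d, TB_X T l C2 C6 m0 n s (nb k q.1) :=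
      sum_nonneg fun k _ => TB_X_nonneg T l C2 C6 m0 n s _
    have e3 : 0 ≤ ∑ k ∈ univ.filter (fun k => k ≠ q.2), TB_G T l C6 c n b0 q.1 q.2 k s t :=
      sum_nonneg fun k _ => TB_G_nonneg T l C6 c n b0 q.1 q.2 k s t
    exact add_nonneg (add_nonneg (mul_nonneg (Nat.cast_nonneg _) e1) e2) e3
  rw [Fintype.sum_prod_type] at h2
  simp only [sum_add_distrib] at h2
  have h3 : ∑ u : V d, ∑ _i : Fin d, d * TB_X T l C2 C6 m0 n s u =
      d ^ 2 * ∑ v : V d, TB_X T l C2 C6 m0 n s v := by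
    rw [mul_sum]
    refine sum_congr rfl fun u _ => ?_
    rw [sum_const, card_univ, Fintype.card_fin, nsmul_eq_mul]
    ring
  have h4 : ∑ u : V d, ∑ _i : Fin d, ∑ k : Fin d, TB_X T l C2 C6 m0 n s (nb k u) =
      d ^ 2 * ∑ v : V d, TB_X T l C2 C6 m0 n s v := by
    have e1 : ∀ k : Fin d, ∑ u : V d, TB_X T l C2 C6 m0 n s (nb k u) =
        ∑ v : V d, TB_X T l C2 C6 m0 n s v := fun k =>
      (nb_bijective k).sum_comp fun v => TB_X T l C2 C6 m0 n s v
    have e2 : ∀ u : V d, ∑ _i : Fin d, ∑ k : Fin d, TB_X T l C2 C6 m0 n s (nb k u) =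
        d * ∑ k : Fin d, TB_X T l C2 C6 m0 n s (nb k u) := by
      intro u
      rw [sum_const, card_univ, Fintype.card_fin, nsmul_eq_mul]
    rw [sum_congr rfl fun u _ => e2 u, ← mul_sum, sum_comm, sum_congr rfl fun k _ => e1 k,
      sum_const, card_univ, Fintype.card_fin, nsmul_eq_mul]
    ring
  rw [h3, h4] at h2
  have h5 : (m0 + 2 * exp (2 * C6) * (c / l)) * (FFn l c s : ℝ) =
      ((univ.filter (fun q : V d × Fin d => FFp l c s q.1 q.2)).card : ℝ) *
        (m0 + 2 * exp (2 * C6) * (c / l)) := by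
    unfold FFn
    ring
  rw [h5]
  linarith

/-- `∑ i, eF ≤ c / l` -/
theorem TB_sum_eF {l c : ℝ} (hl : 0 < l) (hc0 : 0 ≤ c) (u : V d) (s : Finset (V d)) :
    ∑ i : Fin d, eF l c u i s ≤ c / l := by
  have h1 : ∑ i : Fin d, eF l c u i s = ((univ.filter fun i => FFp l c s u i).card : ℝ) := by
    rw [card_filter]
    push_cast
    rfl
  rw [h1]
  rcases (univ.filter fun i => FFp l c s u i).eq_empty_or_nonempty with h | ⟨i, hi⟩
  · rw [h, card_empty, Nat.cast_zero]
    positivity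
  · rw [mem_filter] at hi
    have h2 : ((univ.filter fun i => FFp l c s u i).card : ℝ) ≤ Fr s u := by
      exact_mod_cast FFp_card_le l c s u
    refine h2.trans ?_
    rw [le_div_iff₀ hl]
    linarith [hi.2.2.2.1]

/-- `∑ i, eF ≤ d` -/
theorem TB_sum_eF' {l c : ℝ} (u : V d) (s : Finset (V d)) :
    ∑ i : Fin d, eF l c u i s ≤ d := by
  have : ∀ i ∈ (univ : Finset (Fin d)), eF l c u i s ≤ 1 := by
    intro i _
    unfold eF
    split_ifs <;> norm_num
  refine (sum_le_sum this).trans ?_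
  simp

theorem TB_notMem {l c : ℝ} {u : V d} {i k : Fin d} {s : Finset (V d)}
    (h : eF l c u i s ≠ 0) : u ∉ s ∧ nb k u ∉ s := by
  have hF : FFp l c s u i := by
    by_contra h0
    apply h
    unfold eF
    rw [if_neg h0]
  refine ⟨?_, nOcc_eq_zero.1 hF.1 k⟩
  have h2 := nOcc_eq_zero.1 hF.2.1 i
  rwa [nb_nb] at h2

theorem TB_swap (F : V d → Fin d → Fin d → ℝ) :
    ∑ u : V d, ∑ i : Fin d, ∑ k : Fin d, F u i k =
      ∑ k : Fin d, ∑ u : V d, ∑ i : Fin d, F u i k := by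
  rw [sum_comm (f := fun (k : Fin d) (u : V d) => ∑ i : Fin d, F u i k)]
  exact sum_congr rfl fun u _ => sum_comm

theorem tb {T l K C2 C6 c c' m0 E : ℝ} (hl : 0 < l) (hl1 : l ≤ 1 / 100)
    (hK : 1 ≤ K) (hth : th K ≤ 1 / 4) (x : ℝ) (n m b b0 : ℕ) (hn : 1 ≤ n)
    (hnK : 10 * l * n ≤ K) (hC2 : 32 * K + 16 ≤ C2) (hm2 : (m : ℝ) ≤ (C2 / l) ^ 2 / 200)
    (hc0 : 0 ≤ c) (hc : c + 2 * l * n ≤ c') (hb : l * d * n ≤ b) (hb2 : 2 * l * d ≤ b)
    (hE0 : 0 ≤ E) (hE : ∀ v : V d, avU l (x - n)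
      (fun s => if Exc T l C2 C6 m0 n s v then (1 : ℝ) else 0) ≤ E) (hb0 : b0 ≤ m + 1) (hm0 : 0 ≤ m0) (hC6 : 18 ≤ C6) :
    avM (d := d) l x (fun s t => ∑ q ∈ univ.filter (fun q : V d × Fin d => FFp l c s q.1 q.2),
      ((univ.filter fun k => k ≠ q.2 ∧ ¬ bT b0 k t q.1).card : ℝ)) ≤
    (m0 + 2 * exp (2 * C6) * (c / l)) * avU (d := d) l x (fun s => (FFn l c s : ℝ)) +
    d * (3 * exp (-(7 / 25 * (C6 - 1))) + 20 * th K) *
      avU (d := d) l (x - n) (fun s => (FFn l c' s : ℝ)) +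
    32 / (C6 - 1) * (d * (c / l)) * ∑ k : Fin d, avU l x (fun s => (PNn T l C2 k s : ℝ)) +
    d ^ 2 * ∑ k : Fin d, avM l x (fun s t => (XCg T l K n k m s t : ℝ)) +
    2 * d ^ 2 * 2 ^ d * E := by
  have hC61 : 0 < C6 - 1 := by linarith
  have hcl : 0 ≤ c / l := by positivity
  -- step 1
  have s1 := avM_mono (d := d) (x := x) hl.le (f := fun s t =>
      ∑ q ∈ univ.filter (fun q : V d × Fin d => FFp l c s q.1 q.2),
      ((univ.filter fun k => k ≠ q.2 ∧ ¬ bT b0 k t q.1).card : ℝ))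
    (g := fun s t => (m0 + 2 * exp (2 * C6) * (c / l)) * (FFn l c s : ℝ) +
        2 * d ^ 2 * ∑ v : V d, TB_X T l C2 C6 m0 n s v +
        ∑ u : V d, ∑ i : Fin d, ∑ k ∈ univ.filter (fun k => k ≠ i),
          TB_G T l C6 c n b0 u i k s t) fun s _ t _ => TB_sum hl hm0 hc0 s t
  refine s1.trans ?_
  rw [avM_add, avM_add, avM_mul, avM_mul, avM_const, avM_const, avU_sum, avM_sum]
  -- exceptional part
  have s2 : ∑ v : V d, avU l x (fun s => TB_X T l C2 C6 m0 n s v) ≤ 2 ^ d * E := by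
    have h1 : ∀ v ∈ (univ : Finset (V d)), avU l x (fun s => TB_X T l C2 C6 m0 n s v) ≤ E := by
      intro v _
      refine (avU_anti hl.le (sub_le_self x (Nat.cast_nonneg n)) fun s _ =>
        TB_X_nonneg T l C2 C6 m0 n s v).trans (hE v)
    refine (sum_le_sum h1).trans ?_
    rw [sum_const, card_univ, card_V, nsmul_eq_mul]
    push_cast
    exact le_rfl
  -- main part
  have s3 : ∑ u : V d, avM l x (fun s t => ∑ i : Fin d, ∑ k ∈ univ.filter (fun k => k ≠ i),
      TB_G T l C6 c n b0 u i k s t) ≤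
      d * (3 * exp (-(7 / 25 * (C6 - 1))) + 20 * th K) *
      avU (d := d) l (x - n) (fun s => (FFn l c' s : ℝ)) +
    32 / (C6 - 1) * (d * (c / l)) * ∑ k : Fin d, avU l x (fun s => (PNn T l C2 k s : ℝ)) +
    d ^ 2 * ∑ k : Fin d, avM l x (fun s t => (XCg T l K n k m s t : ℝ)) := by
    have h1 : ∀ (u : V d) (i k : Fin d), k ≠ i →
        avM l x (fun s t => TB_G T l C6 c n b0 u i k s t) ≤
        (3 * exp (-(7 / 25 * (C6 - 1))) + 20 * th K) * avU l (x - n) (eF l c' u i) +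
        16 / (C6 - 1) * avM l x (fun s t => eF l c u i s * (NRn T l K k m s t u : ℝ)) +
        avM l x (fun s t => eF l c u i s * (XCn T l K n k m s t u : ℝ)) := by
      intro u i k hk
      refine lemB hl hl1 hK hth k u n m b b0 hn hnK hb0 (Nbr (nb i u)) (eF l c u i)
        (eF l c' u i) (TB_eF_nonneg l c u i) (TB_eF_nonneg l c' u i)
        (stab_eF hl.le u i n b hc) (eF_forb u i k) (card_common_le ?_)
        (fun s _ h => TB_notMem h) hb hb2 C6 (by linarith)
      intro h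
      exact hk (nb_inj h).symm
    have hth0 : 0 ≤ th K := by
      unfold th
      positivity
    have hA0 : 0 ≤ 3 * exp (-(7 / 25 * (C6 - 1))) + 20 * th K :=
      add_nonneg (by positivity) (mul_nonneg (by norm_num) hth0)
    have h16 : 0 ≤ 16 / (C6 - 1) := by positivity
    have hAn : ∀ (u : V d) (i : Fin d), 0 ≤ (3 * exp (-(7 / 25 * (C6 - 1))) + 20 * th K) *
        avU l (x - n) (eF l c' u i) := fun u i =>
      mul_nonneg hA0 (avU_nonneg hl.le fun s _ => TB_eF_nonneg l c' u i s)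
    have hBn : ∀ (u : V d) (i k : Fin d),
        0 ≤ avM l x (fun s t => eF l c u i s * (NRn T l K k m s t u : ℝ)) := fun u i k =>
      avM_nonneg hl.le fun s _ t _ => mul_nonneg (TB_eF_nonneg l c u i s) (Nat.cast_nonneg _)
    have hCn : ∀ (u : V d) (i k : Fin d),
        0 ≤ avM l x (fun s t => eF l c u i s * (XCn T l K n k m s t u : ℝ)) := fun u i k =>
      avM_nonneg hl.le fun s _ t _ => mul_nonneg (TB_eF_nonneg l c u i s) (Nat.cast_nonneg _)
    have h2 : ∀ u : V d, avM l x (fun s t => ∑ i : Fin d, ∑ k ∈ univ.filter (fun k => k ≠ i),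
        TB_G T l C6 c n b0 u i k s t) ≤
        ∑ i : Fin d, ∑ k : Fin d,
          ((3 * exp (-(7 / 25 * (C6 - 1))) + 20 * th K) * avU l (x - n) (eF l c' u i) +
        16 / (C6 - 1) * avM l x (fun s t => eF l c u i s * (NRn T l K k m s t u : ℝ)) +
        avM l x (fun s t => eF l c u i s * (XCn T l K n k m s t u : ℝ))) := by
      intro u
      rw [avM_sum]
      refine sum_le_sum fun i _ => ?_
      rw [avM_sum]
      refine (sum_le_sum fun k hk => h1 u i k (mem_filter.1 hk).2).trans ?_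
      refine sum_le_sum_of_subset_of_nonneg (filter_subset _ _) fun k _ _ => ?_
      exact add_nonneg (add_nonneg (hAn u i) (mul_nonneg h16 (hBn u i k))) (hCn u i k)
    refine (sum_le_sum fun u _ => h2 u).trans ?_
    simp only [sum_add_distrib]
    refine add_le_add (add_le_add ?_ ?_) ?_
    · refine le_of_eq ?_
      have e1 : (fun s => (FFn l c' s : ℝ)) = fun s : Finset (V d) =>
          ∑ u : V d, ∑ i : Fin d, eF l c' u i s := by
        funext s
        unfold FFn
        rw [card_filter, Fintype.sum_prod_type]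
        push_cast
        rfl
      rw [e1, avU_sum, mul_sum]
      refine sum_congr rfl fun u _ => ?_
      rw [avU_sum, mul_sum]
      refine sum_congr rfl fun i _ => ?_
      rw [sum_const, card_univ, Fintype.card_fin, nsmul_eq_mul]
      ring
    · have e1 : ∀ k : Fin d, ∑ u : V d, ∑ i : Fin d,
          avM l x (fun s t => eF l c u i s * (NRn T l K k m s t u : ℝ)) ≤
          2 * (d * (c / l)) * avU l x (fun s => (PNn T l C2 k s : ℝ)) := by
        intro k
        have e2 : ∑ u : V d, ∑ i : Fin d,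
            avM l x (fun s t => eF l c u i s * (NRn T l K k m s t u : ℝ)) =
            avM l x (fun s t => ∑ u : V d, ∑ i : Fin d,
              eF l c u i s * (NRn T l K k m s t u : ℝ)) := by
          rw [avM_sum]
          refine sum_congr rfl fun u _ => ?_
          rw [avM_sum]
        rw [e2, ← avM_const, ← avM_mul]
        refine avM_mono hl.le fun s hs t ht => ?_
        have e3 : ∑ u : V d, ∑ i : Fin d, eF l c u i s * (NRn T l K k m s t u : ℝ) ≤
            ∑ u : V d, (c / l) * (NRn T l K k m s t u : ℝ) := by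
          refine sum_le_sum fun u _ => ?_
          rw [← sum_mul]
          exact mul_le_mul_of_nonneg_right (TB_sum_eF hl hc0 u s) (Nat.cast_nonneg _)
        refine e3.trans ?_
        rw [← mul_sum]
        have e4 : ∑ u : V d, (NRn T l K k m s t u : ℝ) ≤ d * (NRg T l K k m s t : ℝ) := by
          exact_mod_cast sum_NRn_le T l K k m s t
        have e5 : (NRg T l K k m s t : ℝ) ≤ 2 * (PNn T l C2 k s : ℝ) := by
          exact_mod_cast nrpn hl (by linarith) hK hC2 k m hm2 (Bx_sub_Om _ hs) ht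
        calc c / l * ∑ u : V d, (NRn T l K k m s t u : ℝ)
            ≤ c / l * (d * (2 * (PNn T l C2 k s : ℝ))) :=
              mul_le_mul_of_nonneg_left (e4.trans (mul_le_mul_of_nonneg_left e5
                (Nat.cast_nonneg _))) hcl
          _ = 2 * (d * (c / l)) * (PNn T l C2 k s : ℝ) := by ring
      have e6 : ∑ u : V d, ∑ i : Fin d, ∑ k : Fin d, 16 / (C6 - 1) *
          avM l x (fun s t => eF l c u i s * (NRn T l K k m s t u : ℝ)) =
          16 / (C6 - 1) * ∑ k : Fin d, ∑ u : V d, ∑ i : Fin d,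
            avM l x (fun s t => eF l c u i s * (NRn T l K k m s t u : ℝ)) := by
        simp only [← mul_sum]
        congr 1
        exact TB_swap fun u i k =>
          avM l x (fun s t => eF l c u i s * (NRn T l K k m s t u : ℝ))
      rw [e6]
      calc 16 / (C6 - 1) * ∑ k : Fin d, ∑ u : V d, ∑ i : Fin d,
            avM l x (fun s t => eF l c u i s * (NRn T l K k m s t u : ℝ))
          ≤ 16 / (C6 - 1) * ∑ k : Fin d, 2 * (d * (c / l)) *
            avU l x (fun s => (PNn T l C2 k s : ℝ)) :=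
            mul_le_mul_of_nonneg_left (sum_le_sum fun k _ => e1 k) h16
        _ = 32 / (C6 - 1) * (d * (c / l)) *
            ∑ k : Fin d, avU l x (fun s => (PNn T l C2 k s : ℝ)) := by
            rw [← mul_sum]
            ring
    · have e1 : ∀ k : Fin d, ∑ u : V d, ∑ i : Fin d,
          avM l x (fun s t => eF l c u i s * (XCn T l K n k m s t u : ℝ)) ≤
          d ^ 2 * avM l x (fun s t => (XCg T l K n k m s t : ℝ)) := by
        intro k
        have e2 : ∑ u : V d, ∑ i : Fin d,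
            avM l x (fun s t => eF l c u i s * (XCn T l K n k m s t u : ℝ)) =
            avM l x (fun s t => ∑ u : V d, ∑ i : Fin d,
              eF l c u i s * (XCn T l K n k m s t u : ℝ)) := by
          rw [avM_sum]
          refine sum_congr rfl fun u _ => ?_
          rw [avM_sum]
        rw [e2, ← avM_mul]
        refine avM_mono hl.le fun s hs t ht => ?_
        have e3 : ∑ u : V d, ∑ i : Fin d, eF l c u i s * (XCn T l K n k m s t u : ℝ) ≤
            ∑ u : V d, (d : ℝ) * (XCn T l K n k m s t u : ℝ) := by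
          refine sum_le_sum fun u _ => ?_
          rw [← sum_mul]
          exact mul_le_mul_of_nonneg_right (TB_sum_eF' u s) (Nat.cast_nonneg _)
        refine e3.trans ?_
        rw [← mul_sum]
        have e4 : ∑ u : V d, (XCn T l K n k m s t u : ℝ) ≤ d * (XCg T l K n k m s t : ℝ) := by
          exact_mod_cast sum_XCn_le T l K n k m s t
        calc (d : ℝ) * ∑ u : V d, (XCn T l K n k m s t u : ℝ)
            ≤ d * (d * (XCg T l K n k m s t : ℝ)) :=
              mul_le_mul_of_nonneg_left e4 (Nat.cast_nonneg _)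
          _ = d ^ 2 * (XCg T l K n k m s t : ℝ) := by ring
      have e6 : ∑ u : V d, ∑ i : Fin d, ∑ k : Fin d,
          avM l x (fun s t => eF l c u i s * (XCn T l K n k m s t u : ℝ)) =
          ∑ k : Fin d, ∑ u : V d, ∑ i : Fin d,
            avM l x (fun s t => eF l c u i s * (XCn T l K n k m s t u : ℝ)) :=
        TB_swap fun u i k =>
          avM l x (fun s t => eF l c u i s * (XCn T l K n k m s t u : ℝ))
      rw [e6, mul_sum]
      exact sum_le_sum fun k _ => e1 k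
  have s4 : (2 * (d : ℝ) ^ 2) * ∑ v : V d, avU l x (fun s => TB_X T l C2 C6 m0 n s v) ≤
      2 * d ^ 2 * (2 ^ d * E) := mul_le_mul_of_nonneg_left s2 (by positivity)
  linarith

end Pool.Agent.Lib.MP_c6118e_pr.Win
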