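import Pool.Agent.Lib.MP_c6118e_pr.Win.FR
import Pool.Agent.Lib.MP_c6118e_pr.Win.TOOL
import Pool.Agent.Lib.MP_c6118e_pr.Win.RARE

/-! # LEMD: nonattached particles next to u -/

namespace Pool.Agent.Lib.MP_c6118e_pr.Win

open Finset Real
open scoped Classical

variable {d : ℕ}

theorem lemD_card_nbr {k : Fin d} {s t : Finset (V d)} (hts : t ⊆ s) (q : V d) :
    (t.filter fun r => adjk k q r).card ≤ nOcc s (nb k q) := by
  unfold nOcc
  have h : (t.filter fun r => adjk k q r) ⊆
      (univ.filter fun i => nb i (nb k q) ∈ s).image fun i => nb i (nb k q) := by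
    intro r hr
    rw [mem_filter] at hr
    obtain ⟨j, _, hj⟩ := hr.2
    rw [mem_image]
    exact ⟨j, mem_filter.2 ⟨mem_univ _, hj ▸ hts hr.1⟩, hj.symm⟩
  exact (card_le_card h).trans card_image_le

/-- a nonattached particle with few particles around `nb k q` has a small component -/
theorem lemD_card_cmp {k : Fin d} {s t : Finset (V d)} {q : V d} {n b0 : ℕ} (hts : t ⊆ s)
    (hatt : ¬ att b0 k s t q) (hn : nOcc s (nb k q) ≤ n) : (cmp k t q).card ≤ n * b0 + 1 := by
  have h1 : cmp k t q ⊆ insert q ((t.filter fun r => adjk k q r).biUnion fun r => cmp k t r) := by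
    intro x hx
    have hx' := (mem_filter.1 hx).2
    rcases Relation.ReflTransGen.cases_head hx' with h | ⟨c, hc, hcx⟩
    · rw [← h]; exact mem_insert_self _ _
    · refine mem_insert_of_mem (mem_biUnion.2 ⟨c, mem_filter.2 hc, ?_⟩)
      exact mem_filter.2 ⟨mem_univ _, hcx⟩
  have h2 : ∀ r ∈ t.filter (fun r => adjk k q r), (cmp k t r).card ≤ b0 := by
    intro r hr
    rw [mem_filter] at hr
    by_contra hcon
    push Not at hcon
    apply hatt
    refine ⟨r, mem_filter.2 ⟨mem_univ _, Relation.ReflTransGen.single ⟨hts hr.1, hr.2⟩⟩, ?_⟩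
    exact mem_filter.2 ⟨hr.1, hcon.le⟩
  calc (cmp k t q).card ≤ _ := card_le_card h1
    _ ≤ ((t.filter fun r => adjk k q r).biUnion fun r => cmp k t r).card + 1 :=
        card_insert_le _ _
    _ ≤ (t.filter fun r => adjk k q r).card * b0 + 1 :=
        Nat.add_le_add_right (card_biUnion_le_card_mul _ _ _ h2) _
    _ ≤ n * b0 + 1 :=
        Nat.add_le_add_right (Nat.mul_le_mul_right _ ((lemD_card_nbr hts q).trans hn)) _

theorem lemD_cmp_insert (k : Fin d) (D : Finset (V d)) (q : V d) :
    cmp k (insert q D) q = cmp k D q := by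
  apply Subset.antisymm
  · intro r hr
    have h := (mem_filter.1 hr).2
    refine mem_filter.2 ⟨mem_univ _, ?_⟩
    clear hr
    induction h with
    | refl => exact Relation.ReflTransGen.refl
    | tail _ h2 ih =>
      rcases mem_insert.1 h2.1 with h3 | h3
      · rw [h3]
      · exact Relation.ReflTransGen.tail ih ⟨h3, h2.2⟩
  · exact cmp_mono (subset_insert _ _) q

theorem lemD_cn_insert {T l : ℝ} {k : Fin d} {s t : Finset (V d)} {q : V d} (hq : An T l s q) :
    cn T l k s (insert q t) q = cn T l k s t q := by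
  unfold cn
  rw [filter_insert, if_pos hq, lemD_cmp_insert]

/-- re-marking -/
theorem lemD_remark {s : Finset (V d)} {q : V d} (hq : q ∈ s) (Q : Finset (V d) → Prop)
    [DecidablePred Q] (hQ : ∀ t, Q (insert q t) ↔ Q t) :
    ∑ t ∈ s.powerset, (if Q t then (1 : ℝ) else 0) =
      2 * ∑ t ∈ s.powerset, (if q ∈ t ∧ Q t then (1 : ℝ) else 0) := by
  obtain ⟨s0, hs0, rfl⟩ : ∃ s0 : Finset (V d), q ∉ s0 ∧ s = insert q s0 :=
    ⟨s.erase q, notMem_erase q s, (insert_erase hq).symm⟩
  rw [sum_powerset_insert hs0, sum_powerset_insert hs0]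
  have h1 : ∑ t ∈ s0.powerset, (if q ∈ t ∧ Q t then (1 : ℝ) else 0) = 0 := by
    apply sum_eq_zero
    intro t ht
    rw [if_neg]
    rintro ⟨h, _⟩
    exact hs0 (mem_powerset.1 ht h)
  have h2 : ∑ t ∈ s0.powerset, (if q ∈ insert q t ∧ Q (insert q t) then (1 : ℝ) else 0) =
      ∑ t ∈ s0.powerset, (if Q t then (1 : ℝ) else 0) := by
    apply sum_congr rfl
    intro t _
    simp only [mem_insert_self, true_and, hQ]
  have h3 : ∑ t ∈ s0.powerset, (if Q (insert q t) then (1 : ℝ) else 0) =
      ∑ t ∈ s0.powerset, (if Q t then (1 : ℝ) else 0) := by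
    apply sum_congr rfl
    intro t _
    simp only [hQ]
  rw [h1, h2, h3]
  ring

theorem lemD_card_eq {α : Type*} (s : Finset α) (p : α → Prop) [DecidablePred p] :
    ((s.filter p).card : ℝ) = ∑ q ∈ s, if p q then (1 : ℝ) else 0 := by
  rw [card_filter]; push_cast; rfl

/-- re-marking, summed over the particles -/
theorem lemD_remark_sum (T l : ℝ) (k : Fin d) (s : Finset (V d)) (u : V d) (m : ℕ) :
    ∑ t ∈ s.powerset, ((s.filter fun q => adjk k u q ∧ An T l s q ∧
        (cn T l k s t q).card ≤ m).card : ℝ) =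
      2 * ∑ t ∈ s.powerset, ((t.filter fun q => adjk k u q ∧ An T l s q ∧
        (cn T l k s t q).card ≤ m).card : ℝ) := by
  have h1 : ∀ t ∈ s.powerset, ((t.filter fun q => adjk k u q ∧ An T l s q ∧
        (cn T l k s t q).card ≤ m).card : ℝ) =
      ∑ q ∈ s, if q ∈ t ∧ (adjk k u q ∧ An T l s q ∧ (cn T l k s t q).card ≤ m)
        then (1 : ℝ) else 0 := by
    intro t ht
    have : (t.filter fun q => adjk k u q ∧ An T l s q ∧ (cn T l k s t q).card ≤ m) =
        s.filter fun q => q ∈ t ∧ (adjk k u q ∧ An T l s q ∧ (cn T l k s t q).card ≤ m) := by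
      ext q
      rw [mem_filter, mem_filter]
      constructor
      · intro h; exact ⟨mem_powerset.1 ht h.1, h⟩
      · intro h; exact h.2
    rw [this, lemD_card_eq]
  rw [sum_congr rfl h1]
  simp only [lemD_card_eq]
  rw [sum_comm, sum_comm (s := s.powerset) (t := s), mul_sum]
  apply sum_congr rfl
  intro q hq
  apply lemD_remark hq (fun t => adjk k u q ∧ An T l s q ∧ (cn T l k s t q).card ≤ m)
  intro t
  constructor
  · rintro ⟨h2, h3, h4⟩
    rw [lemD_cn_insert h3] at h4
    exact ⟨h2, h3, h4⟩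
  · rintro ⟨h2, h3, h4⟩
    refine ⟨h2, h3, ?_⟩
    rw [lemD_cn_insert h3]
    exact h4

theorem lemD_avM_remark {T l x : ℝ} (k : Fin d) (u : V d) (m : ℕ) (e : Finset (V d) → ℝ) :
    avM l x (fun s t => e s * ((s.filter fun q => adjk k u q ∧ An T l s q ∧
        (cn T l k s t q).card ≤ m).card : ℝ)) =
      2 * avM l x (fun s t => e s * ((t.filter fun q => adjk k u q ∧ An T l s q ∧
        (cn T l k s t q).card ≤ m).card : ℝ)) := by
  unfold avM
  rw [mul_sum]
  apply sum_congr rfl
  intro s _
  simp only [← mul_sum]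
  rw [lemD_remark_sum]
  ring

/-- classification of the small components -/
theorem lemD_class {T l K : ℝ} {k : Fin d} {s t : Finset (V d)} {u : V d} {m : ℕ} (n : ℕ) :
    ((t.filter fun q => adjk k u q ∧ An T l s q ∧ (cn T l k s t q).card ≤ m).card : ℝ) ≤
      (NRn T l K k m s t u : ℝ) + (XCn T l K n k m s t u : ℝ) +
      ∑ j ∈ Finset.Icc 1 n, ∑ q ∈ univ.filter (fun q => adjk k u q),
        (if q ∈ t ∧ An T l s q ∧ RA T l K n k j s t q then (1 : ℝ) else 0) := by
  have h1 : (t.filter fun q => adjk k u q ∧ An T l s q ∧ (cn T l k s t q).card ≤ m) ⊆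
      (t.filter fun q => adjk k u q ∧ An T l s q ∧ NR T l K k m s t q) ∪
      (t.filter fun q => adjk k u q ∧ An T l s q ∧ XC T l K n k m s t q) ∪
      (Finset.Icc 1 n).biUnion (fun j => (univ.filter fun q => adjk k u q).filter
        fun q => q ∈ t ∧ An T l s q ∧ RA T l K n k j s t q) := by
    intro q hq
    rw [mem_filter] at hq
    obtain ⟨hqt, hadj, hAn, hcard⟩ := hq
    rw [mem_union, mem_union, mem_filter, mem_filter, mem_biUnion]
    by_cases h2 : l / 2 * ((bd T l k s (cn T l k s t q)).card : ℝ) <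
        K * ((cn T l k s t q).card : ℝ)
    · exact Or.inl (Or.inl ⟨hqt, hadj, hAn, hcard, h2⟩)
    · push Not at h2
      by_cases h3 : ∃ r ∈ cn T l k s t q, n < nOcc s (nb k r)
      · exact Or.inl (Or.inr ⟨hqt, hadj, hAn, hcard, Or.inl h3⟩)
      · push Not at h3
        by_cases h4 : n < (cn T l k s t q).card
        · exact Or.inl (Or.inr ⟨hqt, hadj, hAn, hcard, Or.inr ⟨h4, h3, h2⟩⟩)
        · push Not at h4
          right
          refine ⟨(cn T l k s t q).card, ?_, ?_⟩
          · rw [Finset.mem_Icc]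
            exact ⟨card_pos.2 ⟨q, mem_cmp_self k _ q⟩, h4⟩
          · rw [mem_filter, mem_filter]
            exact ⟨⟨mem_univ _, hadj⟩, hqt, hAn, rfl, h2, h3⟩
  have h2 := (card_le_card h1).trans ((card_union_le _ _).trans
    (Nat.add_le_add (card_union_le _ _) card_biUnion_le))
  have h3 : ((t.filter fun q => adjk k u q ∧ An T l s q ∧ (cn T l k s t q).card ≤ m).card : ℝ) ≤
      ((t.filter fun q => adjk k u q ∧ An T l s q ∧ NR T l K k m s t q).card : ℝ) +
      ((t.filter fun q => adjk k u q ∧ An T l s q ∧ XC T l K n k m s t q).card : ℝ) +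
      ∑ j ∈ Finset.Icc 1 n, (((univ.filter fun q => adjk k u q).filter
        fun q => q ∈ t ∧ An T l s q ∧ RA T l K n k j s t q).card : ℝ) := by
    exact_mod_cast h2
  unfold NRn XCn
  simp only [← lemD_card_eq]
  exact h3

theorem lemD_th_nonneg (K : ℝ) : 0 ≤ th K := by unfold th; positivity

theorem lemD_geom {r : ℝ} (h0 : 0 ≤ r) (h1 : r ≤ 1 / 2) (n : ℕ) :
    ∑ j ∈ Finset.Icc 1 n, r ^ j ≤ 2 * r := by
  have h : ∑ j ∈ Finset.Icc 1 n, r ^ j + 2 * r ^ (n + 1) ≤ 2 * r := by
    induction n with
    | zero => simp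
    | succ n ih =>
      rw [sum_Icc_succ_top (by omega)]
      have h2 : r ^ (n + 1 + 1) = r ^ (n + 1) * r := pow_succ _ _
      have h3 : 0 ≤ r ^ (n + 1) := by positivity
      nlinarith
  have : 0 ≤ r ^ (n + 1) := by positivity
  linarith

/-- reindexing the vertices adjacent to `u` -/
theorem lemD_sum_adjk (k : Fin d) (u : V d) (f : V d → ℝ) :
    ∑ q ∈ univ.filter (fun q => adjk k u q), f q =
      ∑ j ∈ univ.filter (fun j => j ≠ k), f (nb j (nb k u)) := by
  have h : (univ.filter fun q => adjk k u q) =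
      (univ.filter fun j => j ≠ k).image fun j => nb j (nb k u) := by
    ext q
    rw [mem_filter, mem_image]
    constructor
    · rintro ⟨_, j, hj, h⟩
      exact ⟨j, mem_filter.2 ⟨mem_univ _, hj⟩, h.symm⟩
    · rintro ⟨j, hj, h⟩
      exact ⟨mem_univ _, j, (mem_filter.1 hj).2, h.symm⟩
  rw [h, sum_image]
  intro i _ j _ hij
  exact nb_inj hij

/-- the `RA` part -/
theorem lemD_RA {T l K x : ℝ} (hl : 0 < l) (hl1 : l ≤ 1 / 100) (hK : 1 ≤ K)
    (k : Fin d) (u : V d) (n b : ℕ) (hnK : 10 * l * n ≤ K)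
    (Fb : Finset (V d)) (e e' : Finset (V d) → ℝ)
    (he : ∀ s, 0 ≤ e s) (he' : ∀ s, 0 ≤ e' s)
    (hst : Stab (par u) Fb n b e e')
    (hFb : ∀ s ∈ Om d, e s ≠ 0 → ∀ r ∈ s, par r = par u →
      (Fb.filter fun z => ∃ i, z = nb i (nb k r)).card ≤ 2)
    (hb : l * d * n ≤ b) (j : ℕ) (hj : j ∈ Finset.Icc 1 n) :
    avM l x (fun s t => ∑ q ∈ univ.filter (fun q => adjk k u q),
      e s * (if q ∈ t ∧ An T l s q ∧ RA T l K n k j s t q then (1 : ℝ) else 0)) ≤
      l / 10 * th K ^ j * avU l (x - n) (fun s => e' s * poti T l k s u) := by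
  rw [Finset.mem_Icc] at hj
  have hjn : (j : ℝ) ≤ n := by exact_mod_cast hj.2
  have hth0 := lemD_th_nonneg K
  have key : ∀ q ∈ univ.filter (fun q => adjk k u q),
      avM l x (fun s t => e s * (if q ∈ t ∧ An T l s q ∧ RA T l K n k j s t q
        then (1 : ℝ) else 0)) ≤
      l / 10 * th K ^ j * avU l (x - n) (fun s => if An T l s q then
        e' s * exp (-(3 / 20 * l * (Fn T l s (nb k q) : ℝ))) else 0) := by
    intro q hq
    have hadj := (mem_filter.1 hq).2
    have hpar : par q = par u := adjk_par hadj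
    have h1 := rare (x := x) (T := T) hl hl1 hK k q n j b hj.1 hnK Fb
      (fun s => e s * exp (-(3 / 20 * l * (Fn T l s (nb k q) : ℝ))))
      (fun s => e' s * exp (-(3 / 20 * l * (Fn T l s (nb k q) : ℝ))))
      (fun s => mul_nonneg (he s) (exp_pos _).le) (fun s => mul_nonneg (he' s) (exp_pos _).le)
      (by
        intro s hs C hC S hCp hSp hCc hSc hdis hOm
        rw [hpar] at hCp hSp
        have h2 := hst s hs C hC S hCp hSp (hCc.trans hj.2) hSc hdis hOm
        have h3 : Fn T l s (nb k q) = Fn T l ((s \ C) ∪ S) (nb k q) := by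
          apply Fn_congr
          intro z hz
          rw [par_nb] at hz
          have hz2 : par z ≠ par u := by
            rw [hz, hpar]
            intro h; exact one_ne_zero (add_eq_left.mp h)
          rw [mem_union, mem_sdiff]
          constructor
          · intro hzs
            exact Or.inl ⟨hzs, fun h => hz2 (hCp z h)⟩
          · rintro (h | h)
            · exact h.1
            · exact absurd (hSp z h) hz2
        simp only
        rw [h3]
        exact mul_le_mul_of_nonneg_right h2 (exp_pos _).le)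
      (by
        intro s hs hne r hr hpr
        apply hFb s hs (fun h => hne (by simp [h])) r hr (hpr.trans hpar))
      (by
        refine le_trans ?_ hb
        have : 0 ≤ l * (d : ℝ) := by positivity
        exact mul_le_mul_of_nonneg_left hjn this)
    refine le_trans (le_of_eq ?_) (h1.trans ?_)
    · unfold avM
      apply sum_congr rfl
      intro s _
      apply sum_congr rfl
      intro t _
      congr 1
      beta_reduce
      by_cases h : q ∈ t ∧ An T l s q ∧ RA T l K n k j s t q
      · rw [if_pos h, if_pos h, mul_assoc, ← exp_add]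
        have : -(3 / 20 * l * (Fn T l s (nb k q) : ℝ)) + 3 / 20 * l * (Fn T l s (nb k q) : ℝ) = 0 := by
          ring
        rw [this, exp_zero]
      · rw [if_neg h, if_neg h, mul_zero]
    · apply mul_le_mul_of_nonneg_left _ (by positivity)
      apply avU_anti hl.le (by linarith)
      intro s _
      split_ifs
      · exact mul_nonneg (he' s) (exp_pos _).le
      · exact le_rfl
  rw [avM_sum]
  refine (sum_le_sum key).trans ?_
  rw [← mul_sum]
  apply mul_le_mul_of_nonneg_left _ (by positivity)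
  rw [← avU_sum]
  apply avU_mono hl.le
  intro s _
  rw [lemD_sum_adjk]
  unfold poti
  rw [mul_sum, ← filter_filter, sum_filter (s := univ.filter fun j => j ≠ k)]
  apply le_of_eq
  apply sum_congr rfl
  intro i _
  rw [nb_comm k i (nb k u), nb_nb]

/-- removing one particle -/
theorem lemD_rem1 {l x : ℝ} (hl : 0 ≤ l) (q : V d) (f g : Finset (V d) → ℝ)
    (hg : ∀ s, 0 ≤ g s)
    (h : ∀ s ∈ Bx d x, f s ≠ 0 → q ∈ s ∧ f s ≤ g (s \ {q})) :
    avU l x f ≤ avU l (x - 1) (fun s => g s * l) := by
  have h1 := removal (x := x) (f := f) (g := g) hl (fun _ => {q}) (fun _ => {{q}}) 1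
    (fun s _ => hg s) (by
      intro s hs hne
      obtain ⟨h2, h3⟩ := h s hs hne
      have hInd := mem_Om.1 (Bx_sub_Om x hs)
      have h1 : s \ {q} ∈ Om d := mem_Om.2 (hInd.mono sdiff_subset)
      have h1' : (s \ {q}) ∪ ∅ ∈ Om d := by rw [union_empty]; exact h1
      have h4 := sdiff_union_mem_Bx (a := 1) hs (C := {q}) (S := ∅) (by simp) h1'
      rw [union_empty] at h4
      exact ⟨singleton_subset_iff.2 h2, h4, mem_singleton_self _, h3⟩)
  simp only [sum_singleton, card_singleton, pow_one, Nat.cast_one] at h1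
  exact h1

/-- the particles which are not normal -/
theorem lemD_notNm {T l x : ℝ} (hl : 0 < l)
    (k : Fin d) (u : V d) (n b : ℕ) (hn : 1 ≤ n) (Fb : Finset (V d)) (e e' : Finset (V d) → ℝ)
    (he' : ∀ s, 0 ≤ e' s) (he2 : ∀ s, e' s ≤ 2)
    (hst : Stab (par u) Fb n b e e')
    (heu : ∀ s ∈ Om d, e s ≠ 0 → u ∉ s ∧ nb k u ∉ s) :
    avU l x (fun s => e s * ((s.filter fun q => adjk k u q ∧ ¬ Nm T l s q).card : ℝ)) ≤
      avU l (x - n) e' +
      2 * l * d * avU l (x - n) (fun s => if Ct T l s (nb k u) then (1 : ℝ) else 0) := by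
  have h0 : ∀ s : Finset (V d),
      e s * ((s.filter fun q => adjk k u q ∧ ¬ Nm T l s q).card : ℝ) =
      ∑ q ∈ univ.filter (fun q => adjk k u q), if q ∈ s ∧ ¬ Nm T l s q then e s else 0 := by
    intro s
    have : (s.filter fun q => adjk k u q ∧ ¬ Nm T l s q) =
        (univ.filter fun q => adjk k u q).filter fun q => q ∈ s ∧ ¬ Nm T l s q := by
      ext q
      simp only [mem_filter, mem_univ, true_and]
      tauto
    rw [this, lemD_card_eq, mul_sum]
    apply sum_congr rfl
    intro q _
    by_cases h : q ∈ s ∧ ¬ Nm T l s q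
    · rw [if_pos h, if_pos h, mul_one]
    · rw [if_neg h, if_neg h, mul_zero]
  simp only [h0]
  rw [avU_sum]
  have key : ∀ q ∈ univ.filter (fun q => adjk k u q),
      avU l x (fun s => if q ∈ s ∧ ¬ Nm T l s q then e s else 0) ≤
      avU l (x - 1) (fun s => (if nb k u ∉ s ∧ nOcc s q = 0 ∧ ¬ Nm T l s q then e' s else 0) *
        l) := by
    intro q hq
    have hadj := (mem_filter.1 hq).2
    have hpar : par q = par u := adjk_par hadj
    apply lemD_rem1 hl.le q
    · intro s
      split_ifs
      · exact he' s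
      · exact le_rfl
    · intro s hs hne
      by_cases h : q ∈ s ∧ ¬ Nm T l s q
      · rw [if_pos h] at hne
        have hsO := Bx_sub_Om x hs
        have hInd := mem_Om.1 hsO
        have h1 : s \ {q} ∈ Om d := mem_Om.2 (hInd.mono sdiff_subset)
        have h1' : (s \ {q}) ∪ ∅ ∈ Om d := by rw [union_empty]; exact h1
        refine ⟨h.1, ?_⟩
        have h3 := hst s hsO {q} (singleton_subset_iff.2 h.1) ∅
          (by intro z hz; rw [mem_singleton.1 hz]; exact hpar) (by simp)
          (by simpa using hn) (by simp) (by simp) h1'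
        rw [union_empty] at h3
        have h4 := heu s hsO hne
        have h5 : nOcc (s \ {q}) q = 0 :=
          Nat.le_zero.1 ((nOcc_mono sdiff_subset q).trans (hInd.nOcc h.1).le)
        have h6 : ¬ Nm T l (s \ {q}) q := by
          rw [← Nm_congr (s := s)]
          · exact h.2
          · intro z hz
            rw [mem_sdiff, mem_singleton]
            refine ⟨fun h7 => ⟨h7, ?_⟩, fun h7 => h7.1⟩
            rintro rfl
            exact one_ne_zero (add_eq_left.mp hz.symm)
        rw [if_pos h, if_pos]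
        · exact h3
        · exact ⟨fun h7 => h4.2 (sdiff_subset h7), h5, h6⟩
      · rw [if_neg h] at hne
        exact absurd rfl hne
  refine (sum_le_sum key).trans ?_
  rw [← avU_sum, ← avU_mul, ← avU_add]
  have h1n : (x : ℝ) - n ≤ x - 1 := by
    have : (1 : ℝ) ≤ n := by exact_mod_cast hn
    linarith
  refine le_trans (avU_anti hl.le h1n ?_) (avU_mono hl.le ?_)
  · intro s _
    apply sum_nonneg
    intro q _
    apply mul_nonneg _ hl.le
    split_ifs
    · exact he' s
    · exact le_rfl
  · intro s _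
    by_cases hw : nb k u ∈ s
    · have : ∑ q ∈ univ.filter (fun q => adjk k u q),
          (if nb k u ∉ s ∧ nOcc s q = 0 ∧ ¬ Nm T l s q then e' s else 0) * l = 0 := by
        apply sum_eq_zero
        intro q _
        rw [if_neg (by tauto), zero_mul]
      rw [this]
      have h2 : (0 : ℝ) ≤ if Ct T l s (nb k u) then (1 : ℝ) else 0 := by split_ifs <;> norm_num
      have := he' s
      positivity
    · have h2 : ∑ q ∈ univ.filter (fun q => adjk k u q),
          (if nb k u ∉ s ∧ nOcc s q = 0 ∧ ¬ Nm T l s q then e' s else 0) * l ≤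
          e' s * l * ((univ.filter fun i => nOcc s (nb i (nb k u)) = 0 ∧
            ¬ Nm T l s (nb i (nb k u))).card : ℝ) := by
        rw [lemD_sum_adjk, lemD_card_eq, mul_sum, sum_filter]
        apply sum_le_sum
        intro i _
        have h3 : 0 ≤ e' s * l := mul_nonneg (he' s) hl.le
        by_cases h4 : nOcc s (nb i (nb k u)) = 0 ∧ ¬ Nm T l s (nb i (nb k u))
        · rw [if_pos h4, mul_one]
          split_ifs
          · exact le_rfl
          · rw [zero_mul]; exact h3
          · exact h3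
        · rw [if_neg h4, mul_zero]
          have h5 : ¬ (nb k u ∉ s ∧ nOcc s (nb i (nb k u)) = 0 ∧ ¬ Nm T l s (nb i (nb k u))) :=
            fun h6 => h4 h6.2
          rw [if_neg h5, zero_mul, ite_self]
      refine h2.trans ?_
      by_cases hCt : Ct T l s (nb k u)
      · rw [if_pos hCt, mul_one]
        have h3 : ((univ.filter fun i => nOcc s (nb i (nb k u)) = 0 ∧
            ¬ Nm T l s (nb i (nb k u))).card : ℝ) ≤ d := by
          have := card_filter_le (univ : Finset (Fin d))
            (fun i => nOcc s (nb i (nb k u)) = 0 ∧ ¬ Nm T l s (nb i (nb k u)))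
          rw [card_univ, Fintype.card_fin] at this
          exact_mod_cast this
        have h4 := he' s
        calc e' s * l * ((univ.filter fun i => nOcc s (nb i (nb k u)) = 0 ∧
            ¬ Nm T l s (nb i (nb k u))).card : ℝ) ≤ 2 * l * d := by
              apply mul_le_mul _ h3 (by positivity) (by positivity)
              exact mul_le_mul_of_nonneg_right (he2 s) hl.le
          _ ≤ e' s + 2 * l * d := by linarith
      · rw [if_neg hCt, mul_zero, add_zero]
        have h3 : ((univ.filter fun i => nOcc s (nb i (nb k u)) = 0 ∧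
            ¬ Nm T l s (nb i (nb k u))).card : ℝ) ≤ 1 / l := by
          by_contra hcon
          push Not at hcon
          exact hCt ⟨hw, hcon⟩
        calc e' s * l * ((univ.filter fun i => nOcc s (nb i (nb k u)) = 0 ∧
            ¬ Nm T l s (nb i (nb k u))).card : ℝ) ≤ e' s * l * (1 / l) := by
              apply mul_le_mul_of_nonneg_left h3
              exact mul_nonneg (he' s) hl.le
          _ = e' s := by field_simp

theorem lemD {T l K x : ℝ} (hl : 0 < l) (hl1 : l ≤ 1 / 100) (hK : 1 ≤ K) (hth : th K ≤ 1 / 4)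
    (k : Fin d) (u : V d) (n m b b0 : ℕ) (hn : 1 ≤ n) (hnK : 10 * l * n ≤ K)
    (hm : n * b0 + 1 ≤ m) (Fb : Finset (V d)) (e e' : Finset (V d) → ℝ)
    (he : ∀ s, 0 ≤ e s) (he' : ∀ s, 0 ≤ e' s) (he2 : ∀ s, e' s ≤ 2)
    (hst : Stab (par u) Fb n b e e')
    (hFb : ∀ s ∈ Om d, e s ≠ 0 → ∀ r ∈ s, par r = par u →
      (Fb.filter fun z => ∃ i, z = nb i (nb k r)).card ≤ 2)
    (heu : ∀ s ∈ Om d, e s ≠ 0 → u ∉ s ∧ nb k u ∉ s)
    (hb : l * d * n ≤ b) :
    avM l x (fun s t => e s * (na b0 k s t u : ℝ)) ≤
      avU l (x - n) e' +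
      2 * l * d * avU l (x - n) (fun s => if Ct T l s (nb k u) then (1 : ℝ) else 0) +
      avU l x (fun s => e s * ((s.filter fun q => adjk k u q ∧ n < nOcc s (nb k q)).card : ℝ)) +
      2 * avM l x (fun s t => e s * ((NRn T l K k m s t u : ℝ) + (XCn T l K n k m s t u : ℝ))) +
      4 * l * th K * avU l (x - n) (fun s => e' s * poti T l k s u) := by
  have hth0 := lemD_th_nonneg K
  have h1 : avM l x (fun s t => e s * (na b0 k s t u : ℝ)) ≤
      avM l x (fun s t => (e s * ((s.filter fun q => adjk k u q ∧ ¬ Nm T l s q).card : ℝ) +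
        e s * ((s.filter fun q => adjk k u q ∧ n < nOcc s (nb k q)).card : ℝ)) +
        e s * ((s.filter fun q => adjk k u q ∧ An T l s q ∧
        (cn T l k s t q).card ≤ m).card : ℝ)) := by
    apply avM_mono hl.le
    intro s hs t hts
    rw [← mul_add, ← mul_add]
    apply mul_le_mul_of_nonneg_left _ (he s)
    have hInd := mem_Om.1 (Bx_sub_Om x hs)
    have h2 : (s.filter fun q => adjk k u q ∧ ¬ att b0 k s t q) ⊆
        ((s.filter fun q => adjk k u q ∧ ¬ Nm T l s q) ∪
        (s.filter fun q => adjk k u q ∧ n < nOcc s (nb k q))) ∪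
        (s.filter fun q => adjk k u q ∧ An T l s q ∧ (cn T l k s t q).card ≤ m) := by
      intro q hq
      rw [mem_filter] at hq
      obtain ⟨hqs, hadj, hatt⟩ := hq
      rw [mem_union, mem_union, mem_filter, mem_filter, mem_filter]
      by_cases h3 : Nm T l s q
      · by_cases h4 : n < nOcc s (nb k q)
        · exact Or.inl (Or.inr ⟨hqs, hadj, h4⟩)
        · push Not at h4
          refine Or.inr ⟨hqs, hadj, ⟨hInd.nOcc hqs, h3⟩, ?_⟩
          refine le_trans (card_le_card ?_) ((lemD_card_cmp hts hatt h4).trans hm)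
          exact cmp_mono (filter_subset _ _) q
      · exact Or.inl (Or.inl ⟨hqs, hadj, h3⟩)
    have h3 := (card_le_card h2).trans ((card_union_le _ _).trans
      (Nat.add_le_add_right (card_union_le _ _) _))
    unfold na
    exact_mod_cast h3
  refine h1.trans ?_
  rw [avM_add, avM_const, avU_add, lemD_avM_remark]
  have h2 := lemD_notNm (x := x) (T := T) hl k u n b hn Fb e e' he' he2 hst heu
  have h3 : avM l x (fun s t => e s * ((t.filter fun q => adjk k u q ∧ An T l s q ∧
        (cn T l k s t q).card ≤ m).card : ℝ)) ≤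
      avM l x (fun s t => e s * ((NRn T l K k m s t u : ℝ) + (XCn T l K n k m s t u : ℝ)) +
        ∑ j ∈ Finset.Icc 1 n, ∑ q ∈ univ.filter (fun q => adjk k u q),
          e s * (if q ∈ t ∧ An T l s q ∧ RA T l K n k j s t q then (1 : ℝ) else 0)) := by
    apply avM_mono hl.le
    intro s hs t hts
    have h4 := mul_le_mul_of_nonneg_left
      (lemD_class (T := T) (l := l) (K := K) (k := k) (s := s) (t := t) (u := u) (m := m) n) (he s)
    refine h4.trans (le_of_eq ?_)
    rw [mul_add, mul_sum]
    congr 1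
    apply sum_congr rfl
    intro j _
    rw [mul_sum]
  have h4 : avM l x (fun s t => ∑ j ∈ Finset.Icc 1 n, ∑ q ∈ univ.filter (fun q => adjk k u q),
          e s * (if q ∈ t ∧ An T l s q ∧ RA T l K n k j s t q then (1 : ℝ) else 0)) ≤
      l / 10 * (2 * th K) * avU l (x - n) (fun s => e' s * poti T l k s u) := by
    rw [avM_sum]
    have h5 : ∀ j ∈ Finset.Icc 1 n, _ ≤ l / 10 * th K ^ j *
        avU l (x - n) (fun s => e' s * poti T l k s u) := fun j hj =>
      lemD_RA (x := x) (T := T) hl hl1 hK k u n b hnK Fb e e' he he' hst hFb hb j hj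
    refine (sum_le_sum h5).trans ?_
    rw [← sum_mul, ← mul_sum]
    have h6 : 0 ≤ avU l (x - n) (fun s => e' s * poti T l k s u) := by
      apply avU_nonneg hl.le
      intro s _
      apply mul_nonneg (he' s)
      unfold poti
      exact sum_nonneg fun _ _ => (exp_pos _).le
    apply mul_le_mul_of_nonneg_right _ h6
    apply mul_le_mul_of_nonneg_left _ (by positivity)
    exact lemD_geom hth0 (by linarith) n
  rw [avM_add] at h3
  have h6 : 0 ≤ avU l (x - n) (fun s => e' s * poti T l k s u) := by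
    apply avU_nonneg hl.le
    intro s _
    apply mul_nonneg (he' s)
    unfold poti
    exact sum_nonneg fun _ _ => (exp_pos _).le
  have h7 : 0 ≤ l * th K * avU l (x - n) (fun s => e' s * poti T l k s u) := by positivity
  nlinarith [h2, h3, h4, h7]

end Pool.Agent.Lib.MP_c6118e_pr.Win
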