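import Pool.Agent.Lib.MP_c6118e_pr.Win.FR
import Pool.Agent.Lib.MP_c6118e_pr.Win.LEMD
import Pool.Agent.Lib.MP_c6118e_pr.Win.NRPN
import Pool.Agent.Lib.MP_c6118e_pr.Win.ENVF
import Pool.Agent.Lib.MP_c6118e_pr.Win.CNT

/-! # TD: nonattached particles next to FF edges -/

namespace Pool.Agent.Lib.MP_c6118e_pr.Win

open Finset Real
open scoped Classical

variable {d : ℕ}

theorem TD_nonneg (l c : ℝ) (u : V d) (i : Fin d) (s : Finset (V d)) : 0 ≤ eF l c u i s := by
  unfold eF; split_ifs <;> norm_num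

theorem TD_le_one (l c : ℝ) (u : V d) (i : Fin d) (s : Finset (V d)) : eF l c u i s ≤ 1 := by
  unfold eF; split_ifs <;> norm_num

theorem TD_out {l c : ℝ} {u : V d} {i : Fin d} {s : Finset (V d)} (h : eF l c u i s ≠ 0)
    (k : Fin d) : u ∉ s ∧ nb k u ∉ s := by
  have h1 : FFp l c s u i := by
    by_contra h2
    exact h (if_neg h2)
  refine ⟨?_, nOcc_eq_zero.1 h1.1 k⟩
  have h3 := nOcc_eq_zero.1 h1.2.1 i
  rwa [nb_nb] at h3

theorem TD_FFn (l c : ℝ) (s : Finset (V d)) :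
    (FFn l c s : ℝ) = ∑ q : V d × Fin d, eF l c q.1 q.2 s := by
  unfold FFn eF
  rw [card_filter]
  push_cast
  rfl

theorem TD_sum_dirs {l c : ℝ} (hl : 0 < l) (hc : 0 ≤ c) (u : V d) (s : Finset (V d)) :
    ∑ i : Fin d, eF l c u i s ≤ c / l := by
  have h1 : ∑ i : Fin d, eF l c u i s = ((univ.filter fun i => FFp l c s u i).card : ℝ) := by
    rw [card_filter]
    push_cast
    rfl
  rw [h1]
  rcases (univ.filter fun i => FFp l c s u i).eq_empty_or_nonempty with h | ⟨i, hi⟩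
  · rw [h]; simp only [card_empty, Nat.cast_zero]; positivity
  · rw [mem_filter] at hi
    have h2 : ((univ.filter fun i => FFp l c s u i).card : ℝ) ≤ Fr s u := by
      exact_mod_cast FFp_card_le l c s u
    rw [le_div_iff₀ hl]
    have h3 := hi.2.2.2.1
    nlinarith

theorem TD_sum_dirs_le (l c : ℝ) (u : V d) (s : Finset (V d)) :
    ∑ i : Fin d, eF l c u i s ≤ d := by
  refine (sum_le_sum fun i _ => TD_le_one l c u i s).trans ?_
  simp

theorem TD_lhs (l c x : ℝ) (b0 : ℕ) :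
    avM (d := d) l x (fun s t => ∑ q ∈ univ.filter (fun q : V d × Fin d => FFp l c s q.1 q.2),
      ∑ k ∈ univ.filter (fun k => k ≠ q.2), (na b0 k s t q.1 : ℝ)) =
    ∑ q : V d × Fin d, ∑ k ∈ univ.filter (fun k => k ≠ q.2),
      avM l x (fun s t => eF l c q.1 q.2 s * (na b0 k s t q.1 : ℝ)) := by
  have h1 : ∀ q : V d × Fin d, ∑ k ∈ univ.filter (fun k => k ≠ q.2),
      avM l x (fun s t => eF l c q.1 q.2 s * (na b0 k s t q.1 : ℝ)) =
      avM l x (fun s t => ∑ k ∈ univ.filter (fun k => k ≠ q.2),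
        eF l c q.1 q.2 s * (na b0 k s t q.1 : ℝ)) := fun q =>
    (avM_sum l x _ (fun k s t => eF l c q.1 q.2 s * (na b0 k s t q.1 : ℝ))).symm
  rw [sum_congr rfl fun q _ => h1 q, ← avM_sum l x univ (fun (q : V d × Fin d) s t =>
    ∑ k ∈ univ.filter (fun k => k ≠ q.2), eF l c q.1 q.2 s * (na b0 k s t q.1 : ℝ))]
  congr 1
  funext s t
  rw [sum_filter]
  refine sum_congr rfl fun q _ => ?_
  unfold eF
  split_ifs with h
  · exact sum_congr rfl fun k _ => (one_mul _).symm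
  · simp

theorem TD_card (F : V d × Fin d → Finset (Fin d)) (A : V d × Fin d → Fin d → ℝ) {B : ℝ}
    (hB : 0 ≤ B) (h : ∀ q k, A q k ≤ B) : ∑ q : V d × Fin d, ∑ k ∈ F q, A q k ≤
      2 ^ d * d * d * B := by
  have h1 : ∀ q : V d × Fin d, ∑ k ∈ F q, A q k ≤ d * B := by
    intro q
    refine (sum_le_card_nsmul _ _ _ fun k _ => h q k).trans ?_
    rw [nsmul_eq_mul]
    refine mul_le_mul_of_nonneg_right ?_ hB
    have := card_le_univ (F q)
    rw [Fintype.card_fin] at this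
    exact_mod_cast this
  refine (sum_le_card_nsmul _ _ _ fun q _ => h1 q).trans ?_
  rw [nsmul_eq_mul, card_univ, Fintype.card_prod, card_V, Fintype.card_fin]
  push_cast
  exact le_of_eq (by ring)

theorem TD_filter_le (A : V d × Fin d → Fin d → ℝ) (hA : ∀ q k, 0 ≤ A q k) :
    ∑ q : V d × Fin d, ∑ k ∈ univ.filter (fun k => k ≠ q.2), A q k ≤
      ∑ k : Fin d, ∑ u : V d, ∑ i : Fin d, A (u, i) k := by
  refine (sum_le_sum fun q _ => sum_le_sum_of_subset_of_nonneg (filter_subset _ _)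
    fun k _ _ => hA q k).trans ?_
  rw [sum_comm]
  refine le_of_eq (sum_congr rfl fun k _ => ?_)
  rw [Fintype.sum_prod_type]

/-- the first term -/
theorem TD_S1 {l c' : ℝ} (hl : 0 < l) (y : ℝ) :
    ∑ q : V d × Fin d, ∑ _k ∈ univ.filter (fun k => k ≠ q.2), avU l y (eF l c' q.1 q.2) ≤
      d * avU (d := d) l y (fun s => (FFn l c' s : ℝ)) := by
  have h1 : ∀ q : V d × Fin d, ∑ _k ∈ univ.filter (fun k => k ≠ q.2), avU l y (eF l c' q.1 q.2) ≤
      d * avU l y (eF l c' q.1 q.2) := by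
    intro q
    rw [sum_const, nsmul_eq_mul]
    refine mul_le_mul_of_nonneg_right ?_ (avU_nonneg hl.le fun s _ => TD_nonneg _ _ _ _ _)
    have := card_le_univ (univ.filter fun k => k ≠ q.2)
    rw [Fintype.card_fin] at this
    exact_mod_cast this
  refine (sum_le_sum fun q _ => h1 q).trans (le_of_eq ?_)
  rw [← mul_sum, ← avU_sum l y univ (fun (q : V d × Fin d) => eF l c' q.1 q.2)]
  congr 2
  funext s
  exact (TD_FFn l c' s).symm

/-- the third term -/
theorem TD_S3 {T l C2 C6 c m0 E : ℝ} (hl : 0 < l) (x : ℝ) (n : ℕ)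
    (hE : ∀ v : V d, avU l (x - n)
      (fun s => if Exc T l C2 C6 m0 n s v then (1 : ℝ) else 0) ≤ E) (q : V d × Fin d) (k : Fin d) :
    avU l x (fun s => eF l c q.1 q.2 s *
      ((s.filter fun r => adjk k q.1 r ∧ n < nOcc s (nb k r)).card : ℝ)) ≤ d * E := by
  have hE' : ∀ v : V d, avU l x (fun s => if Exc T l C2 C6 m0 n s v then (1 : ℝ) else 0) ≤ E := by
    intro v
    refine (avU_anti hl.le (by simp : x - n ≤ x) fun s _ => ?_).trans (hE v)
    split_ifs <;> norm_num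
  have h1 : ∀ s ∈ Bx d x, eF l c q.1 q.2 s *
      ((s.filter fun r => adjk k q.1 r ∧ n < nOcc s (nb k r)).card : ℝ) ≤
      ∑ j : Fin d, (if Exc T l C2 C6 m0 n s (nb j q.1) then (1 : ℝ) else 0) := by
    intro s _
    have h2 : (s.filter fun r => adjk k q.1 r ∧ n < nOcc s (nb k r)) ⊆
        (univ.filter fun j : Fin d => Exc T l C2 C6 m0 n s (nb j q.1)).image
          (fun j => nb j (nb k q.1)) := by
      intro r hr
      rw [mem_filter] at hr
      obtain ⟨_, ⟨j, _, rfl⟩, h4⟩ := hr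
      rw [mem_image]
      refine ⟨j, mem_filter.2 ⟨mem_univ _, ?_⟩, rfl⟩
      rw [nb_comm k j, nb_nb] at h4
      exact Or.inl h4
    have h3 : ((s.filter fun r => adjk k q.1 r ∧ n < nOcc s (nb k r)).card : ℝ) ≤
        ((univ.filter fun j : Fin d => Exc T l C2 C6 m0 n s (nb j q.1)).card : ℝ) := by
      exact_mod_cast (card_le_card h2).trans card_image_le
    have h5 : ∑ j : Fin d, (if Exc T l C2 C6 m0 n s (nb j q.1) then (1 : ℝ) else 0) =
        ((univ.filter fun j : Fin d => Exc T l C2 C6 m0 n s (nb j q.1)).card : ℝ) := by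
      rw [card_filter]; push_cast; rfl
    rw [h5]
    refine le_trans ?_ h3
    exact mul_le_of_le_one_left (Nat.cast_nonneg _) (TD_le_one _ _ _ _ _)
  refine (avU_mono hl.le h1).trans ?_
  rw [avU_sum l x univ (fun (j : Fin d) s => if Exc T l C2 C6 m0 n s (nb j q.1) then (1 : ℝ) else 0)]
  refine (sum_le_card_nsmul _ _ _ fun j _ => hE' (nb j q.1)).trans ?_
  rw [nsmul_eq_mul, card_univ, Fintype.card_fin]

/-- the fourth term -/
theorem TD_S4 {T l K C2 c : ℝ} (hl : 0 < l) (hl1 : l ≤ 1) (hK : 1 ≤ K) (hC2 : 32 * K + 16 ≤ C2)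
    (x : ℝ) (n m : ℕ) (hm2 : (m : ℝ) ≤ (C2 / l) ^ 2 / 200) (hc0 : 0 ≤ c) :
    ∑ q : V d × Fin d, ∑ k ∈ univ.filter (fun k => k ≠ q.2),
      avM l x (fun s t => eF l c q.1 q.2 s *
        ((NRn T l K k m s t q.1 : ℝ) + (XCn T l K n k m s t q.1 : ℝ))) ≤
    2 * (d * (c / l)) * ∑ k : Fin d, avU l x (fun s => (PNn T l C2 k s : ℝ)) +
    d ^ 2 * ∑ k : Fin d, avM l x (fun s t => (XCg T l K n k m s t : ℝ)) := by
  refine (TD_filter_le (fun q k => avM l x (fun s t => eF l c q.1 q.2 s *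
        ((NRn T l K k m s t q.1 : ℝ) + (XCn T l K n k m s t q.1 : ℝ)))) fun q k => ?_).trans ?_
  · exact avM_nonneg hl.le fun s _ t _ => mul_nonneg (TD_nonneg _ _ _ _ _) (by positivity)
  rw [mul_sum, mul_sum, ← sum_add_distrib]
  refine sum_le_sum fun k _ => ?_
  have h0 : ∑ u : V d, ∑ i : Fin d, avM l x (fun s t => eF l c u i s *
        ((NRn T l K k m s t u : ℝ) + (XCn T l K n k m s t u : ℝ))) =
      avM l x (fun s t => ∑ u : V d, ∑ i : Fin d, eF l c u i s *
        ((NRn T l K k m s t u : ℝ) + (XCn T l K n k m s t u : ℝ))) := by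
    rw [avM_sum l x univ (fun (u : V d) s t => ∑ i : Fin d, eF l c u i s *
        ((NRn T l K k m s t u : ℝ) + (XCn T l K n k m s t u : ℝ)))]
    refine sum_congr rfl fun u _ => ?_
    rw [avM_sum l x univ (fun (i : Fin d) s t => eF l c u i s *
        ((NRn T l K k m s t u : ℝ) + (XCn T l K n k m s t u : ℝ)))]
  rw [h0]
  have h1 : ∀ s ∈ Bx d x, ∀ t ⊆ s, ∑ u : V d, ∑ i : Fin d, eF l c u i s *
        ((NRn T l K k m s t u : ℝ) + (XCn T l K n k m s t u : ℝ)) ≤
      2 * (d * (c / l)) * (PNn T l C2 k s : ℝ) + d ^ 2 * (XCg T l K n k m s t : ℝ) := by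
    intro s hs t ht
    have hcl : 0 ≤ c / l := by positivity
    have h2 : ∀ u : V d, ∑ i : Fin d, eF l c u i s *
        ((NRn T l K k m s t u : ℝ) + (XCn T l K n k m s t u : ℝ)) ≤
        c / l * (NRn T l K k m s t u : ℝ) + d * (XCn T l K n k m s t u : ℝ) := by
      intro u
      rw [← sum_mul, mul_add]
      exact add_le_add (mul_le_mul_of_nonneg_right (TD_sum_dirs hl hc0 u s) (Nat.cast_nonneg _))
        (mul_le_mul_of_nonneg_right (TD_sum_dirs_le l c u s) (Nat.cast_nonneg _))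
    refine (sum_le_sum fun u _ => h2 u).trans ?_
    rw [sum_add_distrib, ← mul_sum, ← mul_sum]
    have h3 : ∑ u : V d, (NRn T l K k m s t u : ℝ) ≤ d * (2 * (PNn T l C2 k s : ℝ)) := by
      have h4 := sum_NRn_le T l K k m s t
      have h5 := nrpn (T := T) hl hl1 hK hC2 k m hm2 (Bx_sub_Om _ hs) ht
      have h6 : ∑ u : V d, NRn T l K k m s t u ≤ d * (2 * PNn T l C2 k s) :=
        h4.trans (Nat.mul_le_mul_left _ h5)
      exact_mod_cast h6
    have h4 : ∑ u : V d, (XCn T l K n k m s t u : ℝ) ≤ d * (XCg T l K n k m s t : ℝ) := by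
      exact_mod_cast sum_XCn_le T l K n k m s t
    calc c / l * ∑ u : V d, (NRn T l K k m s t u : ℝ) + d * ∑ u : V d, (XCn T l K n k m s t u : ℝ)
        ≤ c / l * (d * (2 * (PNn T l C2 k s : ℝ))) + d * (d * (XCg T l K n k m s t : ℝ)) :=
          add_le_add (mul_le_mul_of_nonneg_left h3 hcl)
            (mul_le_mul_of_nonneg_left h4 (Nat.cast_nonneg _))
      _ = _ := by ring
  refine (avM_mono hl.le h1).trans (le_of_eq ?_)
  rw [avM_add l x (fun s _ => 2 * (d * (c / l)) * (PNn T l C2 k s : ℝ))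
    (fun s t => d ^ 2 * (XCg T l K n k m s t : ℝ)), avM_const, avU_mul, avM_mul]

theorem TD_poti_nonneg (T l : ℝ) (k : Fin d) (s : Finset (V d)) (u : V d) :
    0 ≤ poti T l k s u := sum_nonneg fun _ _ => (exp_pos _).le

/-- the fifth term -/
theorem TD_S5 {T l c' : ℝ} (hl : 0 < l) (y : ℝ) :
    ∑ q : V d × Fin d, ∑ k ∈ univ.filter (fun k => k ≠ q.2),
      l * avU l y (fun s => eF l c' q.1 q.2 s * poti T l k s q.1) ≤
    5 / 2 * d * avU (d := d) l y (fun s => (FFn l c' s : ℝ)) := by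
  have h0 : ∀ q : V d × Fin d, ∑ k ∈ univ.filter (fun k => k ≠ q.2),
      l * avU l y (fun s => eF l c' q.1 q.2 s * poti T l k s q.1) ≤
      5 / 2 * d * avU l y (eF l c' q.1 q.2) := by
    intro q
    refine (sum_le_sum_of_subset_of_nonneg (filter_subset _ _) fun k _ _ => ?_).trans ?_
    · exact mul_nonneg hl.le (avU_nonneg hl.le fun s _ =>
        mul_nonneg (TD_nonneg _ _ _ _ _) (TD_poti_nonneg _ _ _ _ _))
    rw [← avU_mul]
    have h1 : ∀ k : Fin d, l * avU l y (fun s => eF l c' q.1 q.2 s * poti T l k s q.1) =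
        avU l y (fun s => l * (eF l c' q.1 q.2 s * poti T l k s q.1)) := fun k =>
      (avU_mul l y l _).symm
    rw [sum_congr rfl fun k _ => h1 k, ← avU_sum l y univ
      (fun (k : Fin d) s => l * (eF l c' q.1 q.2 s * poti T l k s q.1))]
    refine avU_mono hl.le fun s _ => ?_
    have h2 : ∑ k : Fin d, l * (eF l c' q.1 q.2 s * poti T l k s q.1) =
        (∑ k : Fin d, l * poti T l k s q.1) * eF l c' q.1 q.2 s := by
      rw [sum_mul]
      exact sum_congr rfl fun k _ => by ring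
    rw [h2]
    exact mul_le_mul_of_nonneg_right (sum_poti_le T hl s q.1) (TD_nonneg _ _ _ _ _)
  refine (sum_le_sum fun q _ => h0 q).trans (le_of_eq ?_)
  rw [← mul_sum, ← avU_sum l y univ (fun (q : V d × Fin d) => eF l c' q.1 q.2)]
  congr 2
  funext s
  exact (TD_FFn l c' s).symm

theorem td {T l K C2 C6 c c' m0 E : ℝ} (hl : 0 < l) (hl1 : l ≤ 1 / 100)
    (hK : 1 ≤ K) (hth : th K ≤ 1 / 4) (x : ℝ) (n m b b0 : ℕ) (hn : 1 ≤ n)
    (hnK : 10 * l * n ≤ K) (hC2 : 32 * K + 16 ≤ C2) (hm2 : (m : ℝ) ≤ (C2 / l) ^ 2 / 200)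
    (hc0 : 0 ≤ c) (hc : c + 2 * l * n ≤ c') (hb : l * d * n ≤ b) (hb2 : 2 * l * d ≤ b)
    (hE0 : 0 ≤ E) (hE : ∀ v : V d, avU l (x - n)
      (fun s => if Exc T l C2 C6 m0 n s v then (1 : ℝ) else 0) ≤ E) (hm : n * b0 + 1 ≤ m) :
    avM (d := d) l x (fun s t => ∑ q ∈ univ.filter (fun q : V d × Fin d => FFp l c s q.1 q.2),
      ∑ k ∈ univ.filter (fun k => k ≠ q.2), (na b0 k s t q.1 : ℝ)) ≤
    d * (1 + 10 * th K) * avU (d := d) l (x - n) (fun s => (FFn l c' s : ℝ)) +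
    4 * (d * (c / l)) * ∑ k : Fin d, avU l x (fun s => (PNn T l C2 k s : ℝ)) +
    2 * d ^ 2 * ∑ k : Fin d, avM l x (fun s t => (XCg T l K n k m s t : ℝ)) +
    (2 * l + 1) * d ^ 3 * 2 ^ d * E := by
  have hthn : 0 ≤ th K := by unfold th; positivity
  rw [TD_lhs]
  have hkey : ∀ (q : V d × Fin d) (k : Fin d),
      avM l x (fun s t => eF l c q.1 q.2 s * (na b0 k s t q.1 : ℝ)) ≤
      avU l (x - n) (eF l c' q.1 q.2) +
      (2 * l * d * avU l (x - n) (fun s => if Ct T l s (nb k q.1) then (1 : ℝ) else 0) +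
      avU l x (fun s => eF l c q.1 q.2 s *
        ((s.filter fun r => adjk k q.1 r ∧ n < nOcc s (nb k r)).card : ℝ))) +
      2 * avM l x (fun s t => eF l c q.1 q.2 s *
        ((NRn T l K k m s t q.1 : ℝ) + (XCn T l K n k m s t q.1 : ℝ))) +
      4 * th K * (l * avU l (x - n) (fun s => eF l c' q.1 q.2 s * poti T l k s q.1)) := by
    intro q k
    have := lemD (T := T) (x := x) hl hl1 hK hth k q.1 n m b b0 hn hnK hm (Nbr (nb q.2 q.1)) (eF l c q.1 q.2)
      (eF l c' q.1 q.2) (TD_nonneg _ _ _ _) (TD_nonneg _ _ _ _)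
      (fun s => (TD_le_one _ _ _ _ s).trans (by norm_num)) (stab_eF hl.le q.1 q.2 n b hc)
      (eF_forb q.1 q.2 k) (fun s _ h => TD_out h k) hb
    refine this.trans (le_of_eq (by ring))
  refine (sum_le_sum fun q _ => sum_le_sum fun k _ => hkey q k).trans ?_
  simp only [sum_add_distrib, ← mul_sum]
  have h1 := TD_S1 (d := d) (c' := c') hl (x - n)
  have h2 : ∑ q : V d × Fin d, ∑ k ∈ univ.filter (fun k => k ≠ q.2),
      avU l (x - n) (fun s => if Ct T l s (nb k q.1) then (1 : ℝ) else 0) ≤ 2 ^ d * d * d * E := by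
    refine TD_card _ (fun q k =>
      avU l (x - n) (fun s => if Ct T l s (nb k q.1) then (1 : ℝ) else 0)) hE0 fun q k => ?_
    refine (avU_mono hl.le fun s _ => ?_).trans (hE (nb k q.1))
    split_ifs with h3 h4 h4
    · exact le_rfl
    · exact absurd (Or.inr (Or.inr (Or.inr (Or.inr h3)))) h4
    · norm_num
    · exact le_rfl
  have h3 : ∑ q : V d × Fin d, ∑ k ∈ univ.filter (fun k => k ≠ q.2),
      avU l x (fun s => eF l c q.1 q.2 s *
        ((s.filter fun r => adjk k q.1 r ∧ n < nOcc s (nb k r)).card : ℝ)) ≤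
      2 ^ d * d * d * (d * E) :=
    TD_card _ (fun q k => avU l x (fun s => eF l c q.1 q.2 s *
        ((s.filter fun r => adjk k q.1 r ∧ n < nOcc s (nb k r)).card : ℝ))) (by positivity)
      fun q k => TD_S3 hl x n hE q k
  have h4 := TD_S4 (d := d) (T := T) (c := c) hl (by linarith) hK hC2 x n m hm2 hc0
  have h5 := TD_S5 (d := d) (T := T) (c' := c') hl (x - n)
  have hld : (0 : ℝ) ≤ 2 * l * d := by positivity
  have h2' := mul_le_mul_of_nonneg_left h2 hld
  have h5' := mul_le_mul_of_nonneg_left h5 (by positivity : (0 : ℝ) ≤ 4 * th K)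
  simp only [← mul_sum] at h5'
  refine (add_le_add (add_le_add (add_le_add h1 (add_le_add h2' h3))
    (mul_le_mul_of_nonneg_left h4 (by norm_num : (0 : ℝ) ≤ 2))) h5').trans (le_of_eq ?_)
  ring

end Pool.Agent.Lib.MP_c6118e_pr.Win
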