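import Pool.Agent.Lib.MP_c6118e_pr.Win.TOOL

/-! # TINS: inserting a particle at an FF edge -/

namespace Pool.Agent.Lib.MP_c6118e_pr.Win

open Finset Real
open scoped Classical

variable {d : ℕ}

theorem TINS_Lk_mono {b : ℕ} {k : Fin d} {t t' : Finset (V d)} (h : t ⊆ t') :
    Lk b k t ⊆ Lk b k t' := by
  intro q hq
  unfold Lk at hq ⊢
  rw [mem_filter] at hq ⊢
  exact ⟨h hq.1, hq.2.trans (card_le_card (cmp_mono h q))⟩

theorem TINS_att_mono {b : ℕ} {k : Fin d} {s s' t t' : Finset (V d)} (hs : s ⊆ s') (ht : t ⊆ t')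
    {q : V d} (h : att b k s t q) : att b k s' t' q := by
  obtain ⟨r, h1, h2⟩ := h
  exact ⟨r, cmp_mono hs q h1, TINS_Lk_mono ht h2⟩

theorem TINS_cmp_step {k : Fin d} {D : Finset (V d)} {q y : V d} (hy : y ∈ D) (h : adjk k q y) :
    cmp k D y ⊆ cmp k D q := by
  intro r hr
  unfold cmp at hr ⊢
  rw [mem_filter] at hr ⊢
  exact ⟨mem_univ _, Relation.ReflTransGen.head ⟨hy, h⟩ hr.2⟩

/-- the configuration after the insertion -/
theorem TINS_point {l c : ℝ} {k i : Fin d} {b k1 : ℕ} {s t : Finset (V d)}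
    {u : V d} (hF : FFp l c s u i) (hk : k ≠ i) (h1 : bT b k t u) (h2 : bT b k t (nb i u))
    (hna : na b k s t u ≤ k1) :
    DVp b k (insert (nb i u) s) (insert (nb i u) t) u ∧
      kap b k (insert (nb i u) s) (insert (nb i u) t) u ≤ k1 := by
  obtain ⟨f1, f2, _, _⟩ := hF
  rw [nOcc_eq_zero] at f1 f2
  set v := nb i u with hv
  have hs : s ⊆ insert v s := subset_insert _ _
  have ht : t ⊆ insert v t := subset_insert _ _
  have hus : u ∉ s := by
    have := f2 i
    rwa [hv, nb_nb] at this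
  have hvL : v ∈ Lk b k (insert v t) := by
    obtain ⟨y, hy, hyv⟩ := h2
    unfold Lk at hy ⊢
    rw [mem_filter] at hy ⊢
    refine ⟨mem_insert_self _ _, hy.2.trans (card_le_card ?_)⟩
    exact (cmp_mono ht y).trans (TINS_cmp_step (ht hy.1) hyv)
  refine ⟨⟨?_, ?_, ?_, ?_⟩, ?_⟩
  · rw [mem_insert]
    rintro (h | h)
    · exact nb_ne i u h.symm
    · exact hus h
  · rw [mem_insert]
    rintro (h | h)
    · exact hk (nb_inj h)
    · exact f1 k h
  · obtain ⟨q, hq, hqu⟩ := h1
    exact ⟨q, TINS_Lk_mono ht hq, hqu⟩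
  · refine ⟨v, hvL, i, hk.symm, ?_⟩
    rw [nb_nb]
  · have e1 : na b k (insert v s) (insert v t) (nb k u) = 0 := by
      unfold na
      rw [card_eq_zero, filter_eq_empty_iff]
      rintro q hq ⟨⟨j, _, hj⟩, ha⟩
      rw [nb_nb] at hj
      rw [mem_insert] at hq
      rcases hq with hq | hq
      · subst hq
        exact ha ⟨v, mem_cmp_self _ _ _, hvL⟩
      · exact f1 j (hj ▸ hq)
    have e2 : na b k (insert v s) (insert v t) u ≤ na b k s t u := by
      unfold na
      refine card_le_card ?_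
      intro q hq
      rw [mem_filter] at hq ⊢
      obtain ⟨hq1, hq2, hq3⟩ := hq
      have hqv : q ≠ v := by
        intro h
        have := adjk_par hq2
        rw [h, hv] at this
        exact par_nb_ne i u this
      refine ⟨?_, hq2, fun h => hq3 (TINS_att_mono hs ht h)⟩
      rw [mem_insert] at hq1
      exact hq1.resolve_left hqv
    unfold kap
    rw [e1, add_zero]
    exact e2.trans hna

theorem tins {l : ℝ} (hl : 0 < l) (x c : ℝ) (k : Fin d) (b k1 : ℕ) :
    l / 2 * avM l x (fun s t => ((univ.filter fun q : V d × Fin d => FFp l c s q.1 q.2 ∧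
      k ≠ q.2 ∧ bT b k t q.1 ∧ bT b k t (nb q.2 q.1) ∧ na b k s t q.1 ≤ k1).card : ℝ)) ≤
    avM l x (fun s t => ((univ.filter fun u => DVp b k s t u ∧ kap b k s t u ≤ k1).card : ℝ)) := by
  have hR : avM l x (fun s t => ((univ.filter fun u => DVp b k s t u ∧
      kap b k s t u ≤ k1).card : ℝ)) =
      ∑ u : V d, avM l x (fun s t => if DVp b k s t u ∧ kap b k s t u ≤ k1 then (1 : ℝ) else 0) := by
    rw [← avM_sum]
    congr 1
    funext s t
    rw [card_filter]
    push_cast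
    rfl
  have hL : avM l x (fun s t => ((univ.filter fun q : V d × Fin d => FFp l c s q.1 q.2 ∧
      k ≠ q.2 ∧ bT b k t q.1 ∧ bT b k t (nb q.2 q.1) ∧ na b k s t q.1 ≤ k1).card : ℝ)) =
      ∑ u : V d, avM l x (fun s t => ∑ i : Fin d, if FFp l c s u i ∧
      k ≠ i ∧ bT b k t u ∧ bT b k t (nb i u) ∧ na b k s t u ≤ k1 then (1 : ℝ) else 0) := by
    rw [← avM_sum]
    congr 1
    funext s t
    rw [card_filter]
    push_cast
    rw [Fintype.sum_prod_type]
  rw [hR, hL, mul_sum]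
  refine sum_le_sum fun u _ => ?_
  -- the index set
  let P : Finset (V d) → Finset (V d) → Fin d → Prop := fun s t i => FFp l c s u i ∧
      k ≠ i ∧ bT b k t u ∧ bT b k t (nb i u) ∧ na b k s t u ≤ k1
  let S : Finset (Finset (V d) × Finset (V d) × Fin d) :=
    univ.filter fun a => a.1 ∈ Bx d x ∧ a.2.1 ⊆ a.1 ∧ P a.1 a.2.1 a.2.2
  have h0 : l / 2 * avM l x (fun s t => ∑ i : Fin d, if P s t i then (1 : ℝ) else 0) =
      ∑ a ∈ S, (l / 2) ^ (a.1.card + 1) := by
    have h1 : ∑ a ∈ S, (l / 2) ^ (a.1.card + 1) =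
        ∑ s : Finset (V d), ∑ t : Finset (V d), ∑ i : Fin d,
          if s ∈ Bx d x ∧ t ⊆ s ∧ P s t i then (l / 2) ^ (s.card + 1) else 0 := by
      rw [sum_filter, Fintype.sum_prod_type]
      refine sum_congr rfl fun s _ => ?_
      rw [Fintype.sum_prod_type]
    rw [h1]
    unfold avM
    rw [mul_sum, ← sum_filter_add_sum_filter_not (univ : Finset (Finset (V d)))
      (fun s => s ∈ Bx d x)]
    have h2 : ∑ s ∈ univ.filter (fun s : Finset (V d) => ¬ s ∈ Bx d x), ∑ t : Finset (V d),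
        ∑ i : Fin d, (if s ∈ Bx d x ∧ t ⊆ s ∧ P s t i then (l / 2) ^ (s.card + 1) else 0) = 0 := by
      refine sum_eq_zero fun s hs => sum_eq_zero fun t _ => sum_eq_zero fun i _ => ?_
      rw [mem_filter] at hs
      rw [if_neg]
      exact fun h => hs.2 h.1
    rw [h2, add_zero]
    have h3 : (univ.filter fun s : Finset (V d) => s ∈ Bx d x) = Bx d x := by
      ext s; simp
    rw [h3]
    refine sum_congr rfl fun s hs => ?_
    have h4 : ∑ t : Finset (V d), ∑ i : Fin d,
        (if s ∈ Bx d x ∧ t ⊆ s ∧ P s t i then (l / 2) ^ (s.card + 1) else 0) =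
        ∑ t ∈ s.powerset, ∑ i : Fin d, (if P s t i then (l / 2) ^ (s.card + 1) else 0) := by
      have h5 : s.powerset = univ.filter fun t : Finset (V d) => t ⊆ s := by
        ext t; simp
      rw [h5, sum_filter]
      refine sum_congr rfl fun t _ => ?_
      by_cases hts : t ⊆ s
      · rw [if_pos hts]
        refine sum_congr rfl fun i _ => ?_
        simp [hs, hts]
      · rw [if_neg hts]
        exact sum_eq_zero fun i _ => if_neg fun h => hts h.2.1
    rw [h4, mul_sum]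
    refine sum_congr rfl fun t _ => ?_
    rw [mul_sum, mul_sum]
    refine sum_congr rfl fun i _ => ?_
    split_ifs
    · rw [pow_succ]; ring
    · ring
  have h0' : l / 2 * avM l x (fun s t => ∑ i : Fin d, if FFp l c s u i ∧
      k ≠ i ∧ bT b k t u ∧ bT b k t (nb i u) ∧ na b k s t u ≤ k1 then (1 : ℝ) else 0) =
      ∑ a ∈ S, (l / 2) ^ (a.1.card + 1) := h0
  rw [h0']
  have hmem : ∀ a ∈ S, a.1 ∈ Bx d x ∧ a.2.1 ⊆ a.1 ∧ P a.1 a.2.1 a.2.2 := fun a ha =>
    (mem_filter.1 ha).2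
  have hni : ∀ a ∈ S, ∀ j, nb j u ∉ a.1 := fun a ha j =>
    (nOcc_eq_zero.1 (hmem a ha).2.2.1.1) j
  refine transferM S (fun a => (l / 2) ^ (a.1.card + 1)) (fun a => insert (nb a.2.2 u) a.1)
    (fun a => insert (nb a.2.2 u) a.2.1) hl.le ?_ ?_ ?_ ?_ ?_
  · intro a ha
    obtain ⟨h1, h2, h3⟩ := hmem a ha
    have h4 : Ind (insert (nb a.2.2 u) a.1) :=
      Ind.insert (mem_Om.1 (Bx_sub_Om _ h1)) h3.1.2.1
    have h5 := mem_Bx_of (a := 0) h1 (mem_Om.2 h4)
      (by simpa using cnt_mono (subset_insert (nb a.2.2 u) a.1) 0)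
      (by simpa using cnt_mono (subset_insert (nb a.2.2 u) a.1) 1)
    simpa using h5
  · intro a ha
    exact insert_subset_insert _ (hmem a ha).2.1
  · intro a ha a' ha' he
    simp only [Prod.mk.injEq] at he
    obtain ⟨e1, e2⟩ := he
    have hv : nb a.2.2 u = nb a'.2.2 u := by
      have : nb a.2.2 u ∈ insert (nb a'.2.2 u) a'.1 := e1 ▸ mem_insert_self _ _
      rw [mem_insert] at this
      exact this.resolve_right (hni a' ha' _)
    have e3 : a.1 = a'.1 := by
      rw [← erase_insert (hni a ha a.2.2), ← erase_insert (hni a' ha' a'.2.2), e1, hv]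
    have e4 : a.2.1 = a'.2.1 := by
      have n1 : nb a.2.2 u ∉ a.2.1 := fun h => hni a ha _ ((hmem a ha).2.1 h)
      have n2 : nb a'.2.2 u ∉ a'.2.1 := fun h => hni a' ha' _ ((hmem a' ha').2.1 h)
      rw [← erase_insert n1, ← erase_insert n2, e2, hv]
    exact Prod.ext e3 (Prod.ext e4 (nb_inj hv))
  · intro s _ t _
    split_ifs <;> norm_num
  · intro a ha
    obtain ⟨h1, h2, h3, h4, h5, h6, h7⟩ := hmem a ha
    have h8 := TINS_point h3 h4 h5 h6 h7
    rw [if_pos h8, mul_one, card_insert_of_notMem (hni a ha _)]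

end Pool.Agent.Lib.MP_c6118e_pr.Win
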