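import Pool.Agent.Lib.MP_c6118e_pr.Win.FR
import Pool.Agent.Lib.MP_c6118e_pr.Win.TB
import Pool.Agent.Lib.MP_c6118e_pr.Win.TD
import Pool.Agent.Lib.MP_c6118e_pr.Win.TINS

/-! # TCASE: the FF part dominates -/

namespace Pool.Agent.Lib.MP_c6118e_pr.Win

open Finset Real
open scoped Classical

variable {d : ℕ}

theorem tcase_asym (CS M Lam : ℝ) (hCS : 0 < CS) (hM : 0 < M) (hLam : 1 ≤ Lam) :
    ∃ d₀ : ℕ, ∀ d ≥ d₀, ∀ l : ℝ, 0 < l → l * d ≤ CS * log d →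
      1000 ≤ (nn d : ℝ) ∧ l * (nn d : ℝ) ^ 2 ≤ 1 / (1000 * (1 + M)) ∧ CS * log d ≤ nn d ∧
        4000 * (1 + Lam) ≤ (d : ℝ) := by
  set W : ℝ := 4 * (1 + CS) * (1000 * (1 + M) * (1 + Lam)) with hW
  have hWpos : 0 < W := by positivity
  have h1 := (Real.isLittleO_pow_log_id_atTop (n := 5)).bound (show (0 : ℝ) < 1 / W by positivity)
  have h2 := Real.tendsto_log_atTop.eventually_ge_atTop (max CS 32)
  have h3 := (tendsto_natCast_atTop_atTop (R := ℝ)).eventually (h1.and h2)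
  obtain ⟨d₀, hd₀⟩ := Filter.eventually_atTop.1 h3
  refine ⟨d₀, fun d hd l hl hld => ?_⟩
  obtain ⟨h4, h5⟩ := hd₀ d hd
  set L := Real.log (d : ℝ) with hL
  have hL1 : CS ≤ L := (le_max_left _ _).trans h5
  have hL2 : 32 ≤ L := (le_max_right _ _).trans h5
  have hL0 : 0 < L := by linarith
  have hd0 : (0 : ℝ) < d := by
    rcases Nat.eq_zero_or_pos d with h0 | h0
    · exfalso
      rw [hL, h0] at hL2
      simp at hL2
      linarith
    · exact_mod_cast h0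
  have hWd : W * L ^ 5 ≤ d := by
    simp only [id, Real.norm_eq_abs] at h4
    rw [abs_of_nonneg (pow_nonneg hL0.le 5), abs_of_pos hd0] at h4
    calc W * L ^ 5 ≤ W * (1 / W * d) := mul_le_mul_of_nonneg_left h4 hWpos.le
      _ = d := by field_simp
  have hn1 : L ^ 2 ≤ (nn d : ℝ) := by
    unfold nn
    exact Nat.le_ceil _
  have hn2 : (nn d : ℝ) ≤ 2 * L ^ 2 := by
    have : (nn d : ℝ) < L ^ 2 + 1 := by
      unfold nn
      exact Nat.ceil_lt_add_one (by positivity)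
    nlinarith
  have hL5 : 1 ≤ L ^ 5 := one_le_pow₀ (by linarith)
  refine ⟨?_, ?_, ?_, ?_⟩
  · nlinarith
  · have e1 : l * (nn d : ℝ) ^ 2 ≤ l * (2 * L ^ 2) ^ 2 := by gcongr
    have e2 : l * (2 * L ^ 2) ^ 2 * W * L ≤ 4 * CS * L ^ 1 := by
      have : l * (W * L ^ 5) ≤ CS * L := (mul_le_mul_of_nonneg_left hWd hl.le).trans hld
      nlinarith
    have e3 : l * (2 * L ^ 2) ^ 2 * W ≤ 4 * CS := by
      have : (l * (2 * L ^ 2) ^ 2 * W) * L ≤ (4 * CS) * L := by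
        calc (l * (2 * L ^ 2) ^ 2 * W) * L ≤ 4 * CS * L ^ 1 := e2
          _ = (4 * CS) * L := by ring
      exact le_of_mul_le_mul_right this hL0
    have e4 : l * (nn d : ℝ) ^ 2 ≤ 4 * CS / W := by
      rw [le_div_iff₀ hWpos]
      exact (mul_le_mul_of_nonneg_right e1 hWpos.le).trans e3
    refine e4.trans ?_
    rw [hW, div_le_div_iff₀ (by positivity) (by positivity)]
    have : 4 * CS * (1000 * (1 + M)) ≤ 4 * (1 + CS) * (1000 * (1 + M)) * 1 := by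
      have : 0 ≤ 1000 * (1 + M) := by positivity
      nlinarith
    have h7 : 4 * (1 + CS) * (1000 * (1 + M)) * 1 ≤ 4 * (1 + CS) * (1000 * (1 + M)) * (1 + Lam) := by
      apply mul_le_mul_of_nonneg_left (by linarith) (by positivity)
    calc 4 * CS * (1000 * (1 + M)) ≤ 4 * (1 + CS) * (1000 * (1 + M)) * (1 + Lam) := this.trans h7
      _ = 1 * (4 * (1 + CS) * (1000 * (1 + M) * (1 + Lam))) := by ring
  · calc CS * L ≤ L * L := mul_le_mul_of_nonneg_right hL1 hL0.le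
      _ = L ^ 2 := by ring
      _ ≤ _ := hn1
  · have e1 : W * 1 ≤ W * L ^ 5 := mul_le_mul_of_nonneg_left hL5 hWpos.le
    have e2 : 4000 * (1 + Lam) ≤ W := by
      rw [hW]
      have h8 : 1 * 1 ≤ (1 + CS) * (1 + M) := by
        apply mul_le_mul (by linarith) (by linarith) (by norm_num) (by linarith)
      have h9 : 4000 * (1 + Lam) * (1 * 1) ≤ 4000 * (1 + Lam) * ((1 + CS) * (1 + M)) :=
        mul_le_mul_of_nonneg_left h8 (by positivity)
      calc 4000 * (1 + Lam) = 4000 * (1 + Lam) * (1 * 1) := by ring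
        _ ≤ _ := h9
        _ = _ := by ring
    linarith

theorem tcase_swap (l c : ℝ) (b : ℕ) (s t : Finset (V d)) :
    ∑ q ∈ univ.filter (fun q : V d × Fin d => FFp l c s q.1 q.2),
      ((univ.filter fun k => k ≠ q.2 ∧ ¬ bT b k t (nb q.2 q.1)).card : ℝ) =
    ∑ q ∈ univ.filter (fun q : V d × Fin d => FFp l c s q.1 q.2),
      ((univ.filter fun k => k ≠ q.2 ∧ ¬ bT b k t q.1).card : ℝ) := by
  refine Finset.sum_nbij' (fun q => (nb q.2 q.1, q.2)) (fun q => (nb q.2 q.1, q.2)) ?_ ?_ ?_ ?_ ?_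
  · intro q hq
    rw [mem_filter] at hq ⊢
    exact ⟨mem_univ _, FFp_symm.2 hq.2⟩
  · intro q hq
    rw [mem_filter] at hq ⊢
    exact ⟨mem_univ _, FFp_symm.2 hq.2⟩
  · intro q _
    simp only [nb_nb]
  · intro q _
    simp only [nb_nb]
  · intro q _
    rfl

theorem tcase_point (l c : ℝ) (b k1 : ℕ) (hk1 : 1 ≤ k1) (s t : Finset (V d)) :
    ((d : ℝ) - 1) * (FFn l c s : ℝ) ≤
      ∑ k : Fin d, ((univ.filter fun q : V d × Fin d => FFp l c s q.1 q.2 ∧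
        k ≠ q.2 ∧ bT b k t q.1 ∧ bT b k t (nb q.2 q.1) ∧ na b k s t q.1 ≤ k1).card : ℝ) +
      2 * (∑ q ∈ univ.filter (fun q : V d × Fin d => FFp l c s q.1 q.2),
        ((univ.filter fun k => k ≠ q.2 ∧ ¬ bT b k t q.1).card : ℝ)) +
      1 / (k1 : ℝ) * (∑ q ∈ univ.filter (fun q : V d × Fin d => FFp l c s q.1 q.2),
        ∑ k ∈ univ.filter (fun k => k ≠ q.2), (na b k s t q.1 : ℝ)) := by
  have hk1r : (0 : ℝ) < k1 := by exact_mod_cast hk1
  set FF := univ.filter (fun q : V d × Fin d => FFp l c s q.1 q.2) with hFF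
  have hswap : ∑ k : Fin d, ((univ.filter fun q : V d × Fin d => FFp l c s q.1 q.2 ∧
        k ≠ q.2 ∧ bT b k t q.1 ∧ bT b k t (nb q.2 q.1) ∧ na b k s t q.1 ≤ k1).card : ℝ) =
      ∑ q ∈ FF, ((univ.filter fun k => k ≠ q.2 ∧ bT b k t q.1 ∧ bT b k t (nb q.2 q.1) ∧
        na b k s t q.1 ≤ k1).card : ℝ) := by
    simp only [card_filter]
    push_cast
    rw [sum_comm, hFF, sum_filter]
    refine sum_congr rfl fun q _ => ?_
    by_cases h : FFp l c s q.1 q.2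
    · simp [h]
    · simp [h]
  have hpt : ∀ q ∈ FF, ((d : ℝ) - 1) ≤
      ((univ.filter fun k => k ≠ q.2 ∧ bT b k t q.1 ∧ bT b k t (nb q.2 q.1) ∧
        na b k s t q.1 ≤ k1).card : ℝ) +
      ((univ.filter fun k => k ≠ q.2 ∧ ¬ bT b k t q.1).card : ℝ) +
      ((univ.filter fun k => k ≠ q.2 ∧ ¬ bT b k t (nb q.2 q.1)).card : ℝ) +
      1 / (k1 : ℝ) * ∑ k ∈ univ.filter (fun k => k ≠ q.2), (na b k s t q.1 : ℝ) := by
    intro q _
    have h1 : (univ.filter fun k : Fin d => k ≠ q.2) ⊆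
        ((univ.filter fun k => k ≠ q.2 ∧ bT b k t q.1 ∧ bT b k t (nb q.2 q.1) ∧
        na b k s t q.1 ≤ k1) ∪ (univ.filter fun k => k ≠ q.2 ∧ ¬ bT b k t q.1)) ∪
        ((univ.filter fun k => k ≠ q.2 ∧ ¬ bT b k t (nb q.2 q.1)) ∪
        (univ.filter fun k => k ≠ q.2 ∧ k1 < na b k s t q.1)) := by
      intro k hk
      have hk' := (mem_filter.1 hk).2
      simp only [mem_union, mem_filter, mem_univ, true_and]
      by_cases c1 : bT b k t q.1
      · by_cases c2 : bT b k t (nb q.2 q.1)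
        · by_cases c3 : na b k s t q.1 ≤ k1
          · exact Or.inl (Or.inl ⟨hk', c1, c2, c3⟩)
          · exact Or.inr (Or.inr ⟨hk', not_le.1 c3⟩)
        · exact Or.inr (Or.inl ⟨hk', c2⟩)
      · exact Or.inl (Or.inr ⟨hk', c1⟩)
    have h2 := (card_le_card h1).trans ((card_union_le _ _).trans
      (add_le_add (card_union_le _ _) (card_union_le _ _)))
    have h3 : (univ.filter fun k : Fin d => k ≠ q.2).card + 1 = d := by
      have e1 : (univ.filter fun k : Fin d => k ≠ q.2) = univ.erase q.2 := by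
        ext k
        simp
      rw [e1, card_erase_of_mem (mem_univ _), card_univ, Fintype.card_fin]
      have : 0 < d := Fin.pos q.2
      omega
    have h4 : ((univ.filter fun k => k ≠ q.2 ∧ k1 < na b k s t q.1).card : ℝ) ≤
        1 / (k1 : ℝ) * ∑ k ∈ univ.filter (fun k => k ≠ q.2), (na b k s t q.1 : ℝ) := by
      have e1 : (k1 : ℝ) * ((univ.filter fun k => k ≠ q.2 ∧ k1 < na b k s t q.1).card : ℝ) ≤
          ∑ k ∈ univ.filter (fun k => k ≠ q.2), (na b k s t q.1 : ℝ) := by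
        calc (k1 : ℝ) * ((univ.filter fun k => k ≠ q.2 ∧ k1 < na b k s t q.1).card : ℝ)
            = ∑ k ∈ univ.filter (fun k => k ≠ q.2 ∧ k1 < na b k s t q.1), (k1 : ℝ) := by
              rw [sum_const, nsmul_eq_mul, mul_comm]
          _ ≤ ∑ k ∈ univ.filter (fun k => k ≠ q.2 ∧ k1 < na b k s t q.1),
              (na b k s t q.1 : ℝ) := by
              refine sum_le_sum fun k hk => ?_
              have := (mem_filter.1 hk).2.2
              exact_mod_cast this.le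
          _ ≤ ∑ k ∈ univ.filter (fun k => k ≠ q.2), (na b k s t q.1 : ℝ) := by
              refine sum_le_sum_of_subset_of_nonneg ?_ (fun _ _ _ => by positivity)
              intro k hk
              rw [mem_filter] at hk ⊢
              exact ⟨hk.1, hk.2.1⟩
      calc ((univ.filter fun k => k ≠ q.2 ∧ k1 < na b k s t q.1).card : ℝ)
          = 1 / (k1 : ℝ) * ((k1 : ℝ) *
            ((univ.filter fun k => k ≠ q.2 ∧ k1 < na b k s t q.1).card : ℝ)) := by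
            field_simp
        _ ≤ _ := mul_le_mul_of_nonneg_left e1 (by positivity)
    have h5 : (d : ℝ) = ((univ.filter fun k : Fin d => k ≠ q.2).card : ℝ) + 1 := by
      exact_mod_cast h3.symm
    have h6 : ((univ.filter fun k : Fin d => k ≠ q.2).card : ℝ) ≤
        ((univ.filter fun k => k ≠ q.2 ∧ bT b k t q.1 ∧ bT b k t (nb q.2 q.1) ∧
        na b k s t q.1 ≤ k1).card : ℝ) +
        ((univ.filter fun k => k ≠ q.2 ∧ ¬ bT b k t q.1).card : ℝ) +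
        (((univ.filter fun k => k ≠ q.2 ∧ ¬ bT b k t (nb q.2 q.1)).card : ℝ) +
        ((univ.filter fun k => k ≠ q.2 ∧ k1 < na b k s t q.1).card : ℝ)) := by
      exact_mod_cast h2
    linarith
  have hsum := sum_le_sum hpt
  rw [sum_const, nsmul_eq_mul, sum_add_distrib, sum_add_distrib, sum_add_distrib, ← mul_sum,
    hFF, tcase_swap l c b s t, ← hFF] at hsum
  rw [hswap]
  have hcard : (FFn l c s : ℝ) = (FF.card : ℝ) := by
    unfold FFn
    rfl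
  rw [hcard]
  linarith

theorem tcase_tbn {D n l c C4 C6 ep Lam e k3 A A' PN X2 Z2 TB Q : ℝ} (hD : 1 ≤ D)
    (hn : 1000 ≤ n) (hl : 0 < l) (hc0 : 0 ≤ c) (hc2 : c ≤ C4 + 3) (hC4 : 0 ≤ C4)
    (hC6 : 0 < C6 - 1) (hep : 0 ≤ ep) (hLam : 0 ≤ Lam) (he : 0 ≤ e) (hk30 : 0 ≤ k3)
    (hk3 : k3 ≤ 3 / 1000) (hA0 : 0 ≤ A) (hA'0 : 0 ≤ A') (hAQ : A ≤ Q)
    (hA'Q : A' ≤ 51 / 50 * Q) (hPN : PN ≤ ep * (Lam * l * Q)) (hX2 : X2 ≤ D * Q / 1000)
    (hZ2 : Z2 ≤ D * Q / 500) (hs : 2000 * e * (C4 + 3) ≤ l * D)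
    (hC6'' : 32000 * (C4 + 3) * Lam * ep ≤ C6 - 1)
    (hTB : TB ≤ (D / n + 2 * e * (c / l)) * A + D * k3 * A' +
      32 / (C6 - 1) * (D * (c / l)) * PN + X2 + Z2) : TB ≤ D * Q / 100 := by
  have hQ0 : 0 ≤ Q := hA0.trans hAQ
  have hD0 : 0 < D := by linarith
  have hn0 : 0 < n := by linarith
  have hcl : c / l ≤ (C4 + 3) / l := div_le_div_of_nonneg_right hc2 hl.le
  have hcl0 : 0 ≤ c / l := by positivity
  have hDQ : 0 ≤ D * Q := by positivity
  have t1 : D / n * A ≤ D * Q / 1000 := by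
    calc D / n * A ≤ D / 1000 * Q := by
          apply mul_le_mul _ hAQ hA0 (by positivity)
          exact div_le_div_of_nonneg_left hD0.le (by norm_num) hn
      _ = D * Q / 1000 := by ring
  have t2 : 2 * e * (c / l) * A ≤ D * Q / 1000 := by
    have e1 : 2 * e * ((C4 + 3) / l) ≤ D / 1000 := by
      rw [mul_div_assoc', div_le_iff₀ hl]
      linarith
    have e2 : 2 * e * (c / l) ≤ D / 1000 :=
      (mul_le_mul_of_nonneg_left hcl (by positivity)).trans e1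
    calc 2 * e * (c / l) * A ≤ D / 1000 * Q := mul_le_mul e2 hAQ hA0 (by positivity)
      _ = D * Q / 1000 := by ring
  have t3 : D * k3 * A' ≤ D * (3 / 1000) * (51 / 50 * Q) := by
    apply mul_le_mul _ hA'Q hA'0 (by positivity)
    exact mul_le_mul_of_nonneg_left hk3 hD0.le
  have t4 : 32 / (C6 - 1) * (D * (c / l)) * PN ≤ D * Q / 1000 := by
    have e0 : D * (c / l) * PN ≤ D * ((C4 + 3) / l) * (ep * (Lam * l * Q)) := by
      have f1 : D * (c / l) * PN ≤ D * (c / l) * (ep * (Lam * l * Q)) :=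
        mul_le_mul_of_nonneg_left hPN (by positivity)
      have f2 : D * (c / l) * (ep * (Lam * l * Q)) ≤ D * ((C4 + 3) / l) * (ep * (Lam * l * Q)) := by
        apply mul_le_mul_of_nonneg_right _ (by positivity)
        exact mul_le_mul_of_nonneg_left hcl hD0.le
      exact f1.trans f2
    have e0' : D * ((C4 + 3) / l) * (ep * (Lam * l * Q)) = D * Q * ((C4 + 3) * Lam * ep) := by
      field_simp
    have e1 : 32 / (C6 - 1) * ((C4 + 3) * Lam * ep) ≤ 1 / 1000 := by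
      rw [div_mul_eq_mul_div, div_le_iff₀ hC6]
      linarith
    calc 32 / (C6 - 1) * (D * (c / l)) * PN = 32 / (C6 - 1) * (D * (c / l) * PN) := by ring
      _ ≤ 32 / (C6 - 1) * (D * Q * ((C4 + 3) * Lam * ep)) := by
        apply mul_le_mul_of_nonneg_left _ (by positivity)
        rw [← e0']
        exact e0
      _ = D * Q * (32 / (C6 - 1) * ((C4 + 3) * Lam * ep)) := by ring
      _ ≤ D * Q * (1 / 1000) := mul_le_mul_of_nonneg_left e1 hDQ
      _ = D * Q / 1000 := by ring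
  have e0 : (D / n + 2 * e * (c / l)) * A = D / n * A + 2 * e * (c / l) * A := by ring
  rw [e0] at hTB
  linarith

theorem tcase_tdn {D l c C4 ep Lam k3 A' PN X2 Z2 TD Q k1 : ℝ} (hD : 1 ≤ D)
    (hl : 0 < l) (hc0 : 0 ≤ c) (hc2 : c ≤ C4 + 3) (hC4 : 0 ≤ C4)
    (hep : 0 ≤ ep) (hLam : 0 ≤ Lam) (hk30 : 0 ≤ k3)
    (hk3 : k3 ≤ 1001 / 1000) (hA'0 : 0 ≤ A') (hQ0 : 0 ≤ Q)
    (hA'Q : A' ≤ 51 / 50 * Q) (hPN : PN ≤ ep * (Lam * l * Q)) (hX2 : X2 ≤ D * Q / 500)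
    (hZ2 : Z2 ≤ D * Q / 500) (hk1 : 50 * (2 + 4 * (C4 + 3) * Lam * ep) ≤ k1)
    (hTD : TD ≤ D * k3 * A' + 4 * (D * (c / l)) * PN + X2 + Z2) :
    1 / k1 * TD ≤ D * Q / 50 := by
  have hD0 : 0 < D := by linarith
  have hcl : c / l ≤ (C4 + 3) / l := div_le_div_of_nonneg_right hc2 hl.le
  have hcl0 : 0 ≤ c / l := by positivity
  have hDQ : 0 ≤ D * Q := by positivity
  have hk0 : 0 ≤ 4 * (C4 + 3) * Lam * ep := by positivity
  have hk1r : 0 < k1 := by linarith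
  have t3 : D * k3 * A' ≤ D * (1001 / 1000) * (51 / 50 * Q) := by
    apply mul_le_mul _ hA'Q hA'0 (by positivity)
    exact mul_le_mul_of_nonneg_left hk3 hD0.le
  have e0 : D * (c / l) * PN ≤ D * ((C4 + 3) / l) * (ep * (Lam * l * Q)) := by
    have f1 : D * (c / l) * PN ≤ D * (c / l) * (ep * (Lam * l * Q)) :=
      mul_le_mul_of_nonneg_left hPN (by positivity)
    have f2 : D * (c / l) * (ep * (Lam * l * Q)) ≤ D * ((C4 + 3) / l) * (ep * (Lam * l * Q)) := by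
      apply mul_le_mul_of_nonneg_right _ (by positivity)
      exact mul_le_mul_of_nonneg_left hcl hD0.le
    exact f1.trans f2
  have e0' : D * ((C4 + 3) / l) * (ep * (Lam * l * Q)) = D * Q * ((C4 + 3) * Lam * ep) := by
    field_simp
  rw [e0'] at e0
  have hle : TD ≤ D * Q * (2 + 4 * (C4 + 3) * Lam * ep) := by
    have e1 : 4 * (D * (c / l)) * PN = 4 * (D * (c / l) * PN) := by ring
    have e2 : D * Q * (2 + 4 * (C4 + 3) * Lam * ep) = 2 * (D * Q) +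
        4 * (D * Q * ((C4 + 3) * Lam * ep)) := by ring
    rw [e1] at hTD
    rw [e2]
    linarith
  rw [div_mul_eq_mul_div, one_mul, div_le_iff₀ hk1r]
  calc TD ≤ D * Q * (2 + 4 * (C4 + 3) * Lam * ep) := hle
    _ = D * Q / 50 * (50 * (2 + 4 * (C4 + 3) * Lam * ep)) := by ring
    _ ≤ D * Q / 50 * k1 := mul_le_mul_of_nonneg_left hk1 (by positivity)

theorem tcase_small {D Lam l P Q X Y : ℝ} (hD : 1 ≤ D) (hQ : P = Lam * l * Q) (hQ0 : 0 ≤ Q)
    (hLld : Lam * l ≤ D / 1000) (hl : 0 < l) (hl2 : l ≤ 1 / 2) (hY : 0 < Y)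
    (hX : X ≤ P / D ^ 6) :
    D ^ 2 * X ≤ D * Q / 1000 ∧ 2 * D ^ 2 * X ≤ D * Q / 500 ∧
      2 * D ^ 2 * Y * (P / D ^ 10 / Y) ≤ D * Q / 500 ∧
      (2 * l + 1) * D ^ 3 * Y * (P / D ^ 10 / Y) ≤ D * Q / 500 := by
  have hD0 : 0 < D := by linarith
  have h1 : D ^ 2 * X ≤ D * Q / 1000 := by
    calc D ^ 2 * X ≤ D ^ 2 * (P / D ^ 6) := mul_le_mul_of_nonneg_left hX (by positivity)
      _ = (Lam * l) * (Q / D ^ 4) := by rw [hQ]; field_simp
      _ ≤ (D / 1000) * (Q / D ^ 4) := mul_le_mul_of_nonneg_right hLld (by positivity)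
      _ ≤ (D / 1000) * Q := by
        apply mul_le_mul_of_nonneg_left _ (by positivity)
        exact div_le_self hQ0 (one_le_pow₀ hD)
      _ = D * Q / 1000 := by ring
  refine ⟨h1, ?_, ?_, ?_⟩
  · calc 2 * D ^ 2 * X = 2 * (D ^ 2 * X) := by ring
      _ ≤ 2 * (D * Q / 1000) := mul_le_mul_of_nonneg_left h1 (by norm_num)
      _ = D * Q / 500 := by ring
  · calc 2 * D ^ 2 * Y * (P / D ^ 10 / Y) = 2 * ((Lam * l) * (Q / D ^ 8)) := by
          rw [hQ]; field_simp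
      _ ≤ 2 * ((D / 1000) * (Q / D ^ 8)) := by
        apply mul_le_mul_of_nonneg_left _ (by norm_num)
        exact mul_le_mul_of_nonneg_right hLld (by positivity)
      _ ≤ 2 * ((D / 1000) * Q) := by
        apply mul_le_mul_of_nonneg_left _ (by norm_num)
        apply mul_le_mul_of_nonneg_left _ (by positivity)
        exact div_le_self hQ0 (one_le_pow₀ hD)
      _ = D * Q / 500 := by ring
  · calc (2 * l + 1) * D ^ 3 * Y * (P / D ^ 10 / Y) = (2 * l + 1) * ((Lam * l) * (Q / D ^ 7)) := by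
          rw [hQ]; field_simp
      _ ≤ (2 * l + 1) * ((D / 1000) * (Q / D ^ 7)) := by
        apply mul_le_mul_of_nonneg_left _ (by positivity)
        exact mul_le_mul_of_nonneg_right hLld (by positivity)
      _ ≤ 2 * ((D / 1000) * (Q / D ^ 7)) := by
        apply mul_le_mul_of_nonneg_right _ (by positivity)
        linarith
      _ ≤ 2 * ((D / 1000) * Q) := by
        apply mul_le_mul_of_nonneg_left _ (by norm_num)
        apply mul_le_mul_of_nonneg_left _ (by positivity)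
        exact div_le_self hQ0 (one_le_pow₀ hD)
      _ = D * Q / 500 := by ring

theorem tcase_conds {M K C2 l D c : ℝ} {n b0 : ℕ} (hM : 0 < M) (hK : 1 ≤ K)
    (hC2 : 32 * K + 16 ≤ C2) (hl : 0 < l) (hb0 : (b0 : ℝ) ≤ M / l + 1)
    (hn1000 : 1000 ≤ (n : ℝ)) (hln : l * (n : ℝ) ^ 2 ≤ 1 / (1000 * (1 + M)))
    (hld' : l * D ≤ n) :
    l ≤ 1 / 1000 ∧ (((n * b0 + 1 : ℕ) : ℝ) ≤ (C2 / l) ^ 2 / 200) ∧ c + 2 * l * n ≤ c + 1 / n ∧
      l * D * n ≤ ((n ^ 2 : ℕ) : ℝ) ∧ 2 * l * D ≤ ((n ^ 2 : ℕ) : ℝ) ∧ 10 * l * n ≤ K := by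
  have hn0 : (0 : ℝ) < n := by linarith
  have hn1r : (1 : ℝ) ≤ n := by linarith
  have hnn : (n : ℝ) ≤ (n : ℝ) ^ 2 := by nlinarith
  have hM1 : 1 / (1000 * (1 + M)) ≤ 1 / 1000 := by
    apply one_div_le_one_div_of_le (by norm_num)
    nlinarith
  have hln2 : l * (n : ℝ) ^ 2 ≤ 1 / 1000 := hln.trans hM1
  have hln0 : l * (n : ℝ) ≤ l * (n : ℝ) ^ 2 := mul_le_mul_of_nonneg_left hnn hl.le
  have hln1 : l * (n : ℝ) ≤ 1 / 1000 := hln0.trans hln2
  have hl1 : l ≤ 1 / 1000 := by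
    refine le_trans ?_ hln1
    nlinarith
  have hnM : l * (n : ℝ) * M ≤ 1 := by
    have e1 : l * (n : ℝ) ≤ 1 / (1000 * (1 + M)) := hln0.trans hln
    have e2 : 1 / (1000 * (1 + M)) * M ≤ 1 := by
      rw [div_mul_eq_mul_div, div_le_one (by positivity)]
      nlinarith
    exact (mul_le_mul_of_nonneg_right e1 hM.le).trans e2
  refine ⟨hl1, ?_, ?_, ?_, ?_, ?_⟩
  · have h2 : ((n * b0 + 1 : ℕ) : ℝ) ≤ n * (M / l + 1) + 1 := by
      push_cast
      have := mul_le_mul_of_nonneg_left hb0 hn0.le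
      linarith
    refine h2.trans ?_
    rw [div_pow, div_div, le_div_iff₀ (by positivity)]
    have h3 : (n * (M / l + 1) + 1) * (l ^ 2 * 200) = 200 * (l * n * M + l * (l * n) + l ^ 2) := by
      field_simp
    rw [h3]
    have h4 : l * (l * n) ≤ 1 := by
      have : l * (l * n) ≤ 1 * 1 := mul_le_mul (by linarith) (by linarith) (by positivity) (by norm_num)
      linarith
    have h5 : l ^ 2 ≤ 1 := pow_le_one₀ hl.le (by linarith)
    have h6 : (48 : ℝ) ≤ C2 := by linarith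
    have h7 : (48 : ℝ) ^ 2 ≤ C2 ^ 2 := pow_le_pow_left₀ (by norm_num) h6 2
    linarith
  · have : 2 * l * n ≤ 1 / n := by
      rw [le_div_iff₀ hn0]
      calc 2 * l * n * n = 2 * (l * (n : ℝ) ^ 2) := by ring
        _ ≤ 1 := by linarith
    linarith
  · push_cast
    calc l * D * n ≤ n * n := mul_le_mul_of_nonneg_right hld' hn0.le
      _ = (n : ℝ) ^ 2 := by ring
  · push_cast
    calc 2 * l * D = 2 * (l * D) := by ring
      _ ≤ 2 * n := by linarith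
      _ ≤ (n : ℝ) ^ 2 := by nlinarith
  · calc 10 * l * n = 10 * (l * n) := by ring
      _ ≤ K := by linarith

theorem tcase_end {l : ℝ} (hl : 0 < l) (x c : ℝ) (b0 k1 : ℕ) (hk1 : 1 ≤ k1) {Q A TB TD : ℝ}
    (hd : 1000 ≤ (d : ℝ))
    (hA : A = avU (d := d) l x (fun s => (FFn l c s : ℝ)))
    (hTB : TB = avM (d := d) l x (fun s t => ∑ q ∈ univ.filter (fun q : V d × Fin d =>
      FFp l c s q.1 q.2), ((univ.filter fun k => k ≠ q.2 ∧ ¬ bT b0 k t q.1).card : ℝ)))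
    (hTD : TD = avM (d := d) l x (fun s t => ∑ q ∈ univ.filter (fun q : V d × Fin d =>
      FFp l c s q.1 q.2), ∑ k ∈ univ.filter (fun k => k ≠ q.2), (na b0 k s t q.1 : ℝ)))
    (hQ0 : 0 ≤ Q) (hAQ4 : Q / 4 ≤ A) (hTBle : TB ≤ d * Q / 100)
    (hTDk : 1 / (k1 : ℝ) * TD ≤ d * Q / 50) :
    (1 / 2 : ℝ) ^ k1 * (l / 2 * (d * Q / 8)) ≤ ∑ k : Fin d, avM l x (fun s t =>
      ∑ u ∈ univ.filter (DVp b0 k s t), (1 / 2 : ℝ) ^ kap b0 k s t u) := by
  have hgood : ((d : ℝ) - 1) * A ≤ ∑ k : Fin d, avM l x (fun s t =>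
      ((univ.filter fun q : V d × Fin d => FFp l c s q.1 q.2 ∧
        k ≠ q.2 ∧ bT b0 k t q.1 ∧ bT b0 k t (nb q.2 q.1) ∧ na b0 k s t q.1 ≤ k1).card : ℝ)) +
      2 * TB + 1 / (k1 : ℝ) * TD := by
    have h1 := avM_mono (d := d) (l := l) (x := x) hl.le
      (f := fun s _ => ((d : ℝ) - 1) * (FFn l c s : ℝ))
      (g := fun s t => (∑ k : Fin d, ((univ.filter fun q : V d × Fin d => FFp l c s q.1 q.2 ∧
        k ≠ q.2 ∧ bT b0 k t q.1 ∧ bT b0 k t (nb q.2 q.1) ∧ na b0 k s t q.1 ≤ k1).card : ℝ) +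
      2 * (∑ q ∈ univ.filter (fun q : V d × Fin d => FFp l c s q.1 q.2),
        ((univ.filter fun k => k ≠ q.2 ∧ ¬ bT b0 k t q.1).card : ℝ))) +
      1 / (k1 : ℝ) * (∑ q ∈ univ.filter (fun q : V d × Fin d => FFp l c s q.1 q.2),
        ∑ k ∈ univ.filter (fun k => k ≠ q.2), (na b0 k s t q.1 : ℝ)))
      (fun s _ t _ => tcase_point l c b0 k1 hk1 s t)
    rw [avM_add, avM_add, avM_mul, avM_mul, avM_mul, avM_sum, avM_const] at h1
    rw [hA, hTB, hTD]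
    exact h1
  have hfin1 : d * Q / 8 ≤ ∑ k : Fin d, avM l x (fun s t =>
      ((univ.filter fun q : V d × Fin d => FFp l c s q.1 q.2 ∧
        k ≠ q.2 ∧ bT b0 k t q.1 ∧ bT b0 k t (nb q.2 q.1) ∧ na b0 k s t q.1 ≤ k1).card : ℝ)) := by
    have h1 : ((d : ℝ) - 1) * (Q / 4) ≤ ((d : ℝ) - 1) * A :=
      mul_le_mul_of_nonneg_left hAQ4 (by linarith)
    have h2 : Q ≤ d * Q / 1000 := by
      rw [le_div_iff₀ (by norm_num)]
      calc Q * 1000 = 1000 * Q := by ring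
        _ ≤ d * Q := mul_le_mul_of_nonneg_right hd hQ0
    have h3 : ((d : ℝ) - 1) * (Q / 4) = d * Q / 4 - Q / 4 := by ring
    linarith
  have hfin3 : ∀ k : Fin d, (1 / 2 : ℝ) ^ k1 * avM l x (fun s t =>
        ((univ.filter fun u => DVp b0 k s t u ∧ kap b0 k s t u ≤ k1).card : ℝ)) ≤
      avM l x (fun s t => ∑ u ∈ univ.filter (DVp b0 k s t), (1 / 2 : ℝ) ^ kap b0 k s t u) := by
    intro k
    rw [← avM_mul]
    refine avM_mono hl.le fun s _ t _ => ?_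
    calc (1 / 2 : ℝ) ^ k1 * ((univ.filter fun u => DVp b0 k s t u ∧ kap b0 k s t u ≤ k1).card : ℝ)
        = ∑ u ∈ univ.filter (fun u => DVp b0 k s t u ∧ kap b0 k s t u ≤ k1), (1 / 2 : ℝ) ^ k1 := by
          rw [sum_const, nsmul_eq_mul, mul_comm]
      _ ≤ ∑ u ∈ univ.filter (fun u => DVp b0 k s t u ∧ kap b0 k s t u ≤ k1),
          (1 / 2 : ℝ) ^ kap b0 k s t u := by
          refine sum_le_sum fun u hu => ?_
          exact pow_le_pow_of_le_one (by norm_num) (by norm_num) (mem_filter.1 hu).2.2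
      _ ≤ ∑ u ∈ univ.filter (DVp b0 k s t), (1 / 2 : ℝ) ^ kap b0 k s t u := by
          refine sum_le_sum_of_subset_of_nonneg ?_ (fun _ _ _ => by positivity)
          intro u hu
          rw [mem_filter] at hu ⊢
          exact ⟨hu.1, hu.2.1⟩
  have hpow : (0 : ℝ) ≤ (1 / 2 : ℝ) ^ k1 := by positivity
  calc (1 / 2 : ℝ) ^ k1 * (l / 2 * (d * Q / 8))
      ≤ (1 / 2 : ℝ) ^ k1 * (l / 2 * ∑ k : Fin d, avM l x (fun s t =>
      ((univ.filter fun q : V d × Fin d => FFp l c s q.1 q.2 ∧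
        k ≠ q.2 ∧ bT b0 k t q.1 ∧ bT b0 k t (nb q.2 q.1) ∧ na b0 k s t q.1 ≤ k1).card : ℝ))) :=
        mul_le_mul_of_nonneg_left (mul_le_mul_of_nonneg_left hfin1 (by positivity)) hpow
    _ ≤ (1 / 2 : ℝ) ^ k1 * ∑ k : Fin d, avM l x (fun s t =>
        ((univ.filter fun u => DVp b0 k s t u ∧ kap b0 k s t u ≤ k1).card : ℝ)) := by
        refine mul_le_mul_of_nonneg_left ?_ hpow
        rw [mul_sum]
        exact sum_le_sum fun k _ => tins hl x c k b0 k1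
    _ ≤ _ := by
        rw [mul_sum]
        exact sum_le_sum fun k _ => hfin3 k

theorem tcase (CS K C2 Lam C4 C6 ep M : ℝ) (k1 : ℕ) (hCS : 0 < CS) (hK : 1 ≤ K)
    (hth : th K ≤ 1 / 10000) (hC2 : 32 * K + 16 ≤ C2) (hLam : 1 ≤ Lam) (hC4 : 10 ≤ C4)
    (hC6 : 18 ≤ C6) (hC6' : 3 * exp (-(7 / 25 * (C6 - 1))) ≤ 1 / 1000) (hep : 0 ≤ ep)
    (hC6'' : 32000 * (C4 + 3) * Lam * ep ≤ C6 - 1)
    (hk1 : 50 * (2 + 4 * (C4 + 3) * Lam * ep) ≤ k1) (hM : 0 < M) :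
    ∃ s0 : ℝ, ∃ d₀ : ℕ, 0 < s0 ∧ ∀ d ≥ d₀, ∀ l : ℝ, s0 ≤ l * d → l * d ≤ CS * log d →
    ∀ c x P : ℝ, C4 + 2 ≤ c → c ≤ C4 + 3 → 0 < P →
    Lam * l * avU (d := d) l x (fun s => (FFn l c s : ℝ)) ≤ P →
    Lam * l * avU (d := d) l (x - nn d) (fun s => (FFn l (c + 1 / nn d) s : ℝ)) ≤
      51 / 50 * P →
    ∑ k : Fin d, avU l x (fun s => (PNn (C4 + 3 / 2) l C2 k s : ℝ)) ≤ ep * P →
    ∑ k : Fin d, avM l x (fun s t =>
      (XCg (C4 + 3 / 2) l K (nn d) k (nn d * ⌈M / l⌉₊ + 1) s t : ℝ)) ≤ P / (d : ℝ) ^ 6 →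
    (∀ v : V d, avU l (x - nn d)
      (fun s => if Exc (C4 + 3 / 2) l C2 C6 (d / nn d) (nn d) s v then (1 : ℝ) else 0) ≤
        P / (d : ℝ) ^ 10 / 2 ^ d) →
    P / 4 ≤ Lam * l * avU (d := d) l x (fun s => (FFn l c s : ℝ)) →
    (1 / 2 : ℝ) ^ k1 / (16 * Lam) * d * P ≤ ∑ k : Fin d, avM l x (fun s t =>
      ∑ u ∈ univ.filter (DVp ⌈M / l⌉₊ k s t), (1 / 2 : ℝ) ^ kap ⌈M / l⌉₊ k s t u) := by
  have hC60 : 0 < C6 - 1 := by linarith
  have hexp : 0 < exp (2 * C6) := exp_pos _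
  obtain ⟨d₀, hd₀⟩ := tcase_asym CS M Lam hCS hM hLam
  refine ⟨2000 * exp (2 * C6) * (C4 + 3), max d₀ 1, by positivity, ?_⟩
  intro d hd l hsl hld c x P hc1 hc2 hP hA hA' hPN hXG hE hA4
  have hd1 : 1 ≤ d := (le_max_right _ _).trans hd
  have hdr : (1 : ℝ) ≤ d := by exact_mod_cast hd1
  have hd0 : (0 : ℝ) < d := by linarith
  have hl : 0 < l := by
    have h1 : 0 < l * d := lt_of_lt_of_le (by positivity) hsl
    exact (pos_iff_pos_of_mul_pos h1).2 hd0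
  obtain ⟨hn1000, hln, hnCS, hdLam⟩ := hd₀ d ((le_max_left _ _).trans hd) l hl hld
  have hn0 : (0 : ℝ) < nn d := by linarith
  have hn1 : 1 ≤ nn d := by exact_mod_cast hn0
  have hth4 : th K ≤ 1 / 4 := hth.trans (by norm_num)
  have hth0 : 0 ≤ th K := by unfold th; positivity
  have hc0 : 0 ≤ c := by linarith
  have hb0 : ((⌈M / l⌉₊ : ℕ) : ℝ) ≤ M / l + 1 := (Nat.ceil_lt_add_one (by positivity)).le
  obtain ⟨hl1, cm2, cc, cb, cb2, cnK⟩ := tcase_conds (c := c) hM hK hC2 hl hb0 hn1000 hln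
    (hld.trans hnCS)
  have cE0 : 0 ≤ P / (d : ℝ) ^ 10 / 2 ^ d := by positivity
  have hb1 : ⌈M / l⌉₊ ≤ nn d * ⌈M / l⌉₊ + 1 + 1 := by
    have : ⌈M / l⌉₊ ≤ nn d * ⌈M / l⌉₊ := Nat.le_mul_of_pos_left _ hn1
    omega
  have hTB := tb (d := d) hl (by linarith) hK hth4
    x (nn d) (nn d * ⌈M / l⌉₊ + 1) (nn d ^ 2) ⌈M / l⌉₊ hn1 cnK hC2 cm2 hc0 cc cb cb2 cE0 hE
    hb1 (by positivity) hC6
  have hTD := td (d := d) hl (by linarith) hK hth4
    x (nn d) (nn d * ⌈M / l⌉₊ + 1) (nn d ^ 2) ⌈M / l⌉₊ hn1 cnK hC2 cm2 hc0 cc cb cb2 cE0 hE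
    le_rfl
  have hA0 : 0 ≤ avU (d := d) l x (fun s => (FFn l c s : ℝ)) :=
    avU_nonneg hl.le fun s _ => Nat.cast_nonneg _
  have hA'0 : 0 ≤ avU (d := d) l (x - nn d) (fun s => (FFn l (c + 1 / nn d) s : ℝ)) :=
    avU_nonneg hl.le fun s _ => Nat.cast_nonneg _
  obtain ⟨Q, hQ⟩ : ∃ Q : ℝ, P = Lam * l * Q := ⟨P / (Lam * l), by field_simp⟩
  have hLl : 0 < Lam * l := by positivity
  have hQ0 : 0 < Q := by
    rw [hQ] at hP
    exact (pos_iff_pos_of_mul_pos hP).1 hLl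
  have hAQ : avU (d := d) l x (fun s => (FFn l c s : ℝ)) ≤ Q := by
    rw [hQ] at hA
    exact le_of_mul_le_mul_left hA hLl
  have hA'Q : avU (d := d) l (x - nn d) (fun s => (FFn l (c + 1 / nn d) s : ℝ)) ≤
      51 / 50 * Q := by
    refine le_of_mul_le_mul_left (hA'.trans (le_of_eq ?_)) hLl
    rw [hQ]; ring
  have hAQ4 : Q / 4 ≤ avU (d := d) l x (fun s => (FFn l c s : ℝ)) := by
    refine le_of_mul_le_mul_left (le_trans (le_of_eq ?_) hA4) hLl
    rw [hQ]; ring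
  have hLld : Lam * l ≤ d / 1000 := by
    have : Lam * l ≤ Lam * 1 := mul_le_mul_of_nonneg_left (by linarith) (by linarith)
    linarith
  have hY : (0 : ℝ) < 2 ^ d := by positivity
  obtain ⟨hs1, hs2, hs3, hs4⟩ := tcase_small hdr hQ hQ0.le hLld hl (by linarith) hY hXG
  rw [hQ] at hPN
  have hTBle := tcase_tbn hdr hn1000 hl hc0 hc2 (by linarith) hC60 hep (by linarith) hexp.le
    (by positivity) (by linarith) hA0 hA'0 hAQ hA'Q hPN hs1 hs3 hsl hC6'' hTB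
  have hTDk := tcase_tdn (k1 := (k1 : ℝ)) hdr hl hc0 hc2 (by linarith) hep (by linarith)
    (by positivity) (by linarith) hA'0 hQ0.le hA'Q hPN hs2 hs4 hk1 hTD
  have hk0 : (0 : ℝ) ≤ 4 * (C4 + 3) * Lam * ep := by positivity
  have hk1' : 1 ≤ k1 := by
    have : (1 : ℝ) ≤ k1 := by linarith
    exact_mod_cast this
  have hend := tcase_end hl x c ⌈M / l⌉₊ k1 hk1' (by linarith) rfl rfl rfl hQ0.le hAQ4 hTBle hTDk
  refine le_trans (le_of_eq ?_) hend
  rw [hQ]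
  field_simp
  ring

end Pool.Agent.Lib.MP_c6118e_pr.Win
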