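import Pool.Agent.Lib.MP_c6118e_pr.Win.FR
import Pool.Agent.Lib.MP_c6118e_pr.Win.RARE

/-! # XCG: exceptional components, counting -/

namespace Pool.Agent.Lib.MP_c6118e_pr.Win

open Finset Real
open scoped Classical

variable {d : ℕ}

theorem XCG_cmp_symm {k : Fin d} {D : Finset (V d)} {q r : V d} (hq : q ∈ D)
    (h : r ∈ cmp k D q) : q ∈ cmp k D r := by
  have hD := cmp_subset (k := k) hq
  unfold cmp at h ⊢
  rw [mem_filter] at h ⊢
  refine ⟨mem_univ _, ?_⟩
  have key : ∀ r, Relation.ReflTransGen (fun a b => b ∈ D ∧ adjk k a b) q r →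
      Relation.ReflTransGen (fun a b => b ∈ D ∧ adjk k a b) r q := by
    intro r hr
    induction hr with
    | refl => exact Relation.ReflTransGen.refl
    | @tail b c h1 h2 ih =>
      have hb : b ∈ D := hD (mem_filter.2 ⟨mem_univ _, h1⟩)
      exact Relation.ReflTransGen.head ⟨hb, adjk_symm h2.2⟩ ih
  exact key r h.2

theorem XCG_cmp_trans {k : Fin d} {D : Finset (V d)} {q r : V d}
    (h : r ∈ cmp k D q) : cmp k D r ⊆ cmp k D q := by
  intro z hz
  unfold cmp at h hz ⊢
  rw [mem_filter] at h hz ⊢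
  exact ⟨mem_univ _, h.2.trans hz.2⟩

theorem XCG_point {T l K : ℝ} (n m : ℕ) (k : Fin d) {s t : Finset (V d)} (hts : t ⊆ s) :
    XCg T l K n k m s t ≤ m * NBg n k s +
      ∑ j ∈ Finset.Ioc n m, (t.filter fun q => An T l s q ∧ RA T l K n k j s t q).card := by
  set D := t.filter fun r => An T l s r with hDdef
  have hDs : D ⊆ s := (filter_subset _ _).trans hts
  set A := t.filter fun q => An T l s q ∧ (cn T l k s t q).card ≤ m ∧
    ∃ r ∈ cn T l k s t q, n < nOcc s (nb k r) with hA
  have h1 : XCg T l K n k m s t ≤ A.card +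
      ∑ j ∈ Finset.Ioc n m, (t.filter fun q => An T l s q ∧ RA T l K n k j s t q).card := by
    unfold XCg
    have h2 : (t.filter fun q => An T l s q ∧ XC T l K n k m s t q) ⊆ A ∪
        (Finset.Ioc n m).biUnion fun j => t.filter fun q => An T l s q ∧ RA T l K n k j s t q := by
      intro q hq
      rw [mem_filter] at hq
      obtain ⟨hqt, hAn, hc, h | ⟨h3, h4, h5⟩⟩ := hq
      · exact mem_union_left _ (mem_filter.2 ⟨hqt, hAn, hc, h⟩)
      · refine mem_union_right _ (mem_biUnion.2 ⟨(cn T l k s t q).card, ?_, ?_⟩)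
        · exact Finset.mem_Ioc.2 ⟨h3, hc⟩
        · exact mem_filter.2 ⟨hqt, hAn, rfl, h5, h4⟩
    exact (card_le_card h2).trans ((card_union_le _ _).trans
      (Nat.add_le_add_left card_biUnion_le _))
  have h3 : A.card ≤ m * NBg n k s := by
    have h4 : A ⊆ (s.filter fun q => n < nOcc s (nb k q)).biUnion fun r =>
        A.filter fun q => r ∈ cn T l k s t q := by
      intro q hq
      have hq' := hq
      rw [hA, mem_filter] at hq'
      obtain ⟨hqt, hAn, hc, r, hr, hr2⟩ := hq'
      rw [mem_biUnion]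
      refine ⟨r, mem_filter.2 ⟨?_, hr2⟩, mem_filter.2 ⟨hq, hr⟩⟩
      have hqD : q ∈ D := mem_filter.2 ⟨hqt, hAn⟩
      exact hDs (cmp_subset hqD hr)
    refine (card_le_card h4).trans (card_biUnion_le.trans ?_)
    unfold NBg
    rw [mul_comm, ← smul_eq_mul]
    refine sum_le_card_nsmul _ _ _ ?_
    intro r _
    rcases (A.filter fun q => r ∈ cn T l k s t q).eq_empty_or_nonempty with h | ⟨q0, hq0⟩
    · rw [h]; simp
    · rw [mem_filter, hA, mem_filter] at hq0
      obtain ⟨⟨hqt, hAn, hc, _⟩, hr⟩ := hq0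
      have hqD : q0 ∈ D := mem_filter.2 ⟨hqt, hAn⟩
      refine (card_le_card ?_).trans hc
      intro q hq
      rw [mem_filter, hA, mem_filter] at hq
      have hqD' : q ∈ D := mem_filter.2 ⟨hq.1.1, hq.1.2.1⟩
      have h5 : q ∈ cmp k D r := XCG_cmp_symm hqD' hq.2
      exact XCG_cmp_trans hr h5
  exact h1.trans (Nat.add_le_add_right h3 _)

theorem XCG_card_V : (Fintype.card (V d) : ℝ) = 2 ^ d := by
  have : Fintype.card (V d) = 2 ^ d := by
    unfold V
    simp [ZMod.card]
  rw [this]
  push_cast
  rfl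

theorem xcg {T l K x : ℝ} (hl : 0 < l) (hl1 : l ≤ 1 / 100) (hK : 1 ≤ K) (n m : ℕ)
    (hn : 10 * l * n ≤ K) (E : ℝ)
    (hE : ∀ v : V d, avU l x (fun s => if n < nOcc s v then (1 : ℝ) else 0) ≤ E) :
    ∑ k : Fin d, avM l x (fun s t => (XCg T l K n k m s t : ℝ)) ≤
      m * d * 2 ^ d * E +
      d * 2 ^ d * l * ∑ j ∈ Finset.Ioc n m, th K ^ j * Zx d l (x - j) := by
  have hth : 0 ≤ th K := by unfold th; positivity
  have hZ : ∀ y : ℝ, 0 ≤ Zx d l y := by
    intro y
    rw [← avU_one]
    exact avU_nonneg hl.le fun _ _ => zero_le_one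
  -- the bound for one direction
  have hk : ∀ k : Fin d, avM l x (fun s t => (XCg T l K n k m s t : ℝ)) ≤
      m * 2 ^ d * E + 2 ^ d * l * ∑ j ∈ Finset.Ioc n m, th K ^ j * Zx d l (x - j) := by
    intro k
    have h1 : avM l x (fun s t => (XCg T l K n k m s t : ℝ)) ≤
        avM l x (fun s t => (m : ℝ) * (NBg n k s : ℝ) +
          ∑ j ∈ Finset.Ioc n m, ∑ q : V d,
            (if q ∈ t ∧ An T l s q ∧ RA T l K n k j s t q then (1 : ℝ) else 0)) := by
      refine avM_mono hl.le ?_
      intro s _ t ht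
      have h2 := XCG_point (T := T) (l := l) (K := K) n m k ht
      have h3 : (XCg T l K n k m s t : ℝ) ≤ (m : ℝ) * (NBg n k s : ℝ) +
          ∑ j ∈ Finset.Ioc n m,
            ((t.filter fun q => An T l s q ∧ RA T l K n k j s t q).card : ℝ) := by
        exact_mod_cast h2
      refine h3.trans (le_of_eq ?_)
      congr 1
      refine sum_congr rfl fun j _ => ?_
      rw [← sum_filter, sum_const, nsmul_eq_mul, mul_one]
      congr 2
      ext q
      simp
    have h4 : avM l x (fun s t => (m : ℝ) * (NBg n k s : ℝ) +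
          ∑ j ∈ Finset.Ioc n m, ∑ q : V d,
            (if q ∈ t ∧ An T l s q ∧ RA T l K n k j s t q then (1 : ℝ) else 0)) =
        m * avU l x (fun s => (NBg n k s : ℝ)) + ∑ j ∈ Finset.Ioc n m, ∑ q : V d,
          avM l x (fun s t =>
            if q ∈ t ∧ An T l s q ∧ RA T l K n k j s t q then (1 : ℝ) else 0) := by
      rw [avM_add, avM_mul, avM_const l x (fun s => (NBg n k s : ℝ)), avM_sum]
      congr 1
      exact sum_congr rfl fun j _ => avM_sum _ _ _ _
    have h5 : avU l x (fun s => (NBg n k s : ℝ)) ≤ 2 ^ d * E := by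
      calc avU l x (fun s => (NBg n k s : ℝ))
          ≤ avU l x (fun s => ∑ q : V d, (if n < nOcc s (nb k q) then (1 : ℝ) else 0)) := by
            refine avU_mono hl.le ?_
            intro s _
            unfold NBg
            rw [← sum_filter, sum_const, nsmul_eq_mul, mul_one]
            exact_mod_cast card_le_card (filter_subset_filter _ (subset_univ _))
        _ = ∑ q : V d, avU l x (fun s => if n < nOcc s (nb k q) then (1 : ℝ) else 0) :=
            avU_sum _ _ _ _
        _ ≤ ∑ _q : V d, E := sum_le_sum fun q _ => hE _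
        _ = 2 ^ d * E := by rw [sum_const, card_univ, nsmul_eq_mul, XCG_card_V]
    have h6 : ∀ j ∈ Finset.Ioc n m, ∑ q : V d, avM l x (fun s t =>
        if q ∈ t ∧ An T l s q ∧ RA T l K n k j s t q then (1 : ℝ) else 0) ≤
        2 ^ d * l * (th K ^ j * Zx d l (x - j)) := by
      intro j hj
      rw [Finset.mem_Ioc] at hj
      have h7 : ∀ q : V d, avM l x (fun s t =>
          if q ∈ t ∧ An T l s q ∧ RA T l K n k j s t q then (1 : ℝ) else 0) ≤
          l * (th K ^ j * Zx d l (x - j)) := by
        intro q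
        have hb : l * d * j ≤ ((d * j : ℕ) : ℝ) := by
          push_cast
          have h8 : (0 : ℝ) ≤ (d : ℝ) * j := by positivity
          nlinarith
        have h9 := rare (T := T) (x := x) hl hl1 hK k q n j (d * j) (by omega) hn ∅
          (fun _ => (1 : ℝ)) (fun _ => (1 : ℝ)) (fun _ => zero_le_one) (fun _ => zero_le_one)
          (by
            intro s _ C _ S _ _ _ _ _ _
            exact le_refl _)
          (by
            intro s _ _ r _ _
            simp) hb
        have h10 : avM l x (fun s t =>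
            if q ∈ t ∧ An T l s q ∧ RA T l K n k j s t q then (1 : ℝ) else 0) ≤
            avM l x (fun s t => if q ∈ t ∧ An T l s q ∧ RA T l K n k j s t q
              then 1 * exp (3 / 20 * l * (Fn T l s (nb k q) : ℝ)) else 0) := by
          refine avM_mono hl.le ?_
          intro s _ t _
          by_cases h : q ∈ t ∧ An T l s q ∧ RA T l K n k j s t q
          · rw [if_pos h, if_pos h, one_mul]
            exact one_le_exp (by positivity)
          · rw [if_neg h, if_neg h]
        have h11 : avU l (x - j) (fun s => if An T l s q then (1 : ℝ) else 0) ≤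
            Zx d l (x - j) := by
          rw [← avU_one]
          refine avU_mono hl.le ?_
          intro s _
          by_cases h : An T l s q
          · rw [if_pos h]
          · rw [if_neg h]; exact zero_le_one
        have h12 : 0 ≤ th K ^ j := pow_nonneg hth _
        calc avM l x (fun s t =>
            if q ∈ t ∧ An T l s q ∧ RA T l K n k j s t q then (1 : ℝ) else 0)
            ≤ l / 10 * th K ^ j * avU l (x - j) (fun s => if An T l s q then (1 : ℝ) else 0) :=
              h10.trans h9
          _ ≤ l / 10 * th K ^ j * Zx d l (x - j) :=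
              mul_le_mul_of_nonneg_left h11 (by positivity)
          _ = l / 10 * (th K ^ j * Zx d l (x - j)) := by ring
          _ ≤ l * (th K ^ j * Zx d l (x - j)) := by
              refine mul_le_mul_of_nonneg_right (by linarith) (mul_nonneg h12 (hZ _))
      calc ∑ q : V d, avM l x (fun s t =>
          if q ∈ t ∧ An T l s q ∧ RA T l K n k j s t q then (1 : ℝ) else 0)
          ≤ ∑ _q : V d, l * (th K ^ j * Zx d l (x - j)) := sum_le_sum fun q _ => h7 q
        _ = 2 ^ d * l * (th K ^ j * Zx d l (x - j)) := by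
            rw [sum_const, card_univ, nsmul_eq_mul, XCG_card_V]; ring
    calc avM l x (fun s t => (XCg T l K n k m s t : ℝ))
        ≤ m * avU l x (fun s => (NBg n k s : ℝ)) + ∑ j ∈ Finset.Ioc n m, ∑ q : V d,
          avM l x (fun s t =>
            if q ∈ t ∧ An T l s q ∧ RA T l K n k j s t q then (1 : ℝ) else 0) := h1.trans_eq h4
      _ ≤ m * (2 ^ d * E) + ∑ j ∈ Finset.Ioc n m, 2 ^ d * l * (th K ^ j * Zx d l (x - j)) := by
          have h13 := mul_le_mul_of_nonneg_left h5 (Nat.cast_nonneg (α := ℝ) m)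
          have h14 := sum_le_sum h6
          linarith
      _ = m * 2 ^ d * E + 2 ^ d * l * ∑ j ∈ Finset.Ioc n m, th K ^ j * Zx d l (x - j) := by
          rw [← mul_sum]; ring
  calc ∑ k : Fin d, avM l x (fun s t => (XCg T l K n k m s t : ℝ))
      ≤ ∑ _k : Fin d, (m * 2 ^ d * E +
        2 ^ d * l * ∑ j ∈ Finset.Ioc n m, th K ^ j * Zx d l (x - j)) :=
        sum_le_sum fun k _ => hk k
    _ = m * d * 2 ^ d * E +
      d * 2 ^ d * l * ∑ j ∈ Finset.Ioc n m, th K ^ j * Zx d l (x - j) := by
        rw [sum_const, card_univ, Fintype.card_fin, nsmul_eq_mul]; ring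

end Pool.Agent.Lib.MP_c6118e_pr.Win
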