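import Pool.Agent.Lib.MP_c6118e_pr.Win.FR
import Pool.Agent.Lib.MP_c6118e_pr.Win.XCG

/-! # XCA: exceptional components are negligible -/

namespace Pool.Agent.Lib.MP_c6118e_pr.Win

open Finset Real
open scoped Classical

variable {d : ℕ}

theorem XCA_ev (c : ℝ) (n : ℕ) : ∀ᶠ d : ℕ in Filter.atTop, c * (log (d : ℝ)) ^ n ≤ d := by
  have h1 : (0 : ℝ) < 1 / (|c| + 1) := by positivity
  have h2 := (Real.isLittleO_pow_log_id_atTop (n := n)).def h1
  have h3 := (tendsto_natCast_atTop_atTop (R := ℝ)).eventually h2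
  filter_upwards [h3, Filter.eventually_ge_atTop 1] with d hd hd1
  have hd0 : (0 : ℝ) < d := by exact_mod_cast hd1
  simp only [id, Real.norm_eq_abs, abs_of_pos hd0] at hd
  have h4 : 0 < |c| + 1 := by positivity
  calc c * log (d : ℝ) ^ n ≤ |c * log (d : ℝ) ^ n| := le_abs_self _
    _ = |c| * |log (d : ℝ) ^ n| := abs_mul _ _
    _ ≤ (|c| + 1) * |log (d : ℝ) ^ n| := by
        apply mul_le_mul_of_nonneg_right (by linarith) (abs_nonneg _)
    _ ≤ (|c| + 1) * (1 / (|c| + 1) * d) := mul_le_mul_of_nonneg_left hd h4.le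
    _ = d := by field_simp

theorem XCA_geom (n m : ℕ) :
    ∑ j ∈ Finset.Ioc n m, (1 / 3 : ℝ) ^ j ≤ (1 / 3) ^ n := by
  have h : ∀ m, ∑ j ∈ Finset.Ioc n m, (1 / 3 : ℝ) ^ j ≤ (1 / 3) ^ n - (1 / 3) ^ (max n m) := by
    intro m
    induction m with
    | zero => simp
    | succ m ih =>
      by_cases hnm : n ≤ m
      · rw [Finset.sum_Ioc_succ_top (by omega)]
        rw [max_eq_right hnm] at ih
        rw [max_eq_right (by omega)]
        have h2 : (1 / 3 : ℝ) ^ (m + 1) = 1 / 3 * (1 / 3) ^ m := by rw [pow_succ]; ring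
        have h3 : (0 : ℝ) < (1 / 3) ^ m := by positivity
        rw [h2]
        linarith
      · rw [Finset.Ioc_eq_empty (by omega), max_eq_left (by omega)]
        simp
  have h1 := h m
  have h2 : (0 : ℝ) < (1 / 3) ^ (max n m) := by positivity
  linarith

set_option maxHeartbeats 4000000 in
theorem xc_small (CS T K e0 C3 M : ℝ) (hCS : 0 < CS) (hK : 1 ≤ K) (hth : th K ≤ 1 / 4)
    (he0 : 0 < e0) (hC3 : 0 ≤ C3) (hM : 0 < M) :
    ∃ d₀ : ℕ, ∀ d ≥ d₀, ∀ l : ℝ, 1 ≤ l * d → l * d ≤ CS * log d →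
    ∀ x P : ℝ, (∀ a : ℕ, a ≤ 2 * d ^ 2 →
      2 ^ d * Zx d l (x - a) ≤ 2 / (e0 * l) * exp (C3 * l * a) * P) →
    (∀ v : V d, avU l x (fun s => if nn d < nOcc s v then (1 : ℝ) else 0) ≤
      P / (d : ℝ) ^ 10 / 2 ^ d) →
    ∑ k : Fin d, avM l x (fun s t => (XCg T l K (nn d) k (nn d * ⌈M / l⌉₊ + 1) s t : ℝ)) ≤
      P / (d : ℝ) ^ 6 := by
  have hL : ∀ᶠ d : ℕ in Filter.atTop, (10 : ℝ) ≤ log (d : ℝ) :=
    (tendsto_log_atTop.comp tendsto_natCast_atTop_atTop).eventually_ge_atTop 10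
  have hd1 : ∀ᶠ d : ℕ in Filter.atTop, 4 / e0 + 10 ≤ (d : ℝ) :=
    (tendsto_natCast_atTop_atTop (R := ℝ)).eventually_ge_atTop _
  obtain ⟨d₀, hd₀⟩ := Filter.eventually_atTop.1 (hL.and (hd1.and ((XCA_ev (20 * CS) 3).and
    ((XCA_ev (100 * CS) 1).and ((XCA_ev (4 * C3 * CS) 1).and (XCA_ev (4 * (M + 1)) 2))))))
  refine ⟨d₀, fun d hd l hl1 hl2 x P hZ hE => ?_⟩
  obtain ⟨h1, h2, h3, h4, h5, h6⟩ := hd₀ d hd
  have hd10 : (10 : ℝ) ≤ d := by
    have : 0 < 4 / e0 := by positivity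
    linarith
  have hd0 : (0 : ℝ) < d := by linarith
  have hl : 0 < l := by
    by_contra hcon
    push Not at hcon
    have : l * d ≤ 0 := mul_nonpos_of_nonpos_of_nonneg hcon hd0.le
    linarith
  set L := log (d : ℝ) with hLdef
  have hlL : l ≤ CS * L / d := by rw [le_div_iff₀ hd0]; exact hl2
  have hnn1 : (L : ℝ) ^ 2 ≤ (nn d : ℝ) := Nat.le_ceil _
  have hnn2 : (nn d : ℝ) ≤ 2 * L ^ 2 := by
    have h7 : (nn d : ℝ) < L ^ 2 + 1 := Nat.ceil_lt_add_one (by positivity)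
    nlinarith
  have hl100 : l ≤ 1 / 100 := by
    refine hlL.trans ?_
    rw [div_le_div_iff₀ hd0 (by norm_num)]
    rw [pow_one] at h4
    linarith
  have hn : 10 * l * (nn d : ℕ) ≤ K := by
    refine le_trans ?_ hK
    calc 10 * l * (nn d : ℝ) ≤ 10 * (CS * L / d) * (2 * L ^ 2) := by
          apply mul_le_mul _ hnn2 (by positivity) (by positivity)
          linarith
      _ = (20 * CS * L ^ 3) / d := by ring
      _ ≤ 1 := by rw [div_le_one hd0]; exact h3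
  have hm : ((nn d * ⌈M / l⌉₊ + 1 : ℕ) : ℝ) ≤ (d : ℝ) ^ 2 := by
    push_cast
    have h7 : (⌈M / l⌉₊ : ℝ) ≤ M * d + 1 := by
      have h8 : (⌈M / l⌉₊ : ℝ) < M / l + 1 := Nat.ceil_lt_add_one (by positivity)
      have h9 : M / l ≤ M * d := by
        rw [div_le_iff₀ hl]
        nlinarith
      linarith
    have h8 : (⌈M / l⌉₊ : ℝ) ≤ (M + 1) * d := by nlinarith
    have h9 : (nn d : ℝ) * ⌈M / l⌉₊ ≤ (2 * L ^ 2) * ((M + 1) * d) :=
      mul_le_mul hnn2 h8 (by positivity) (by positivity)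
    nlinarith
  have hP : 0 ≤ P := by
    have h7 := hZ 0 (by omega)
    have h8 : 0 ≤ (2 : ℝ) ^ d * Zx d l (x - (0 : ℕ)) :=
      mul_nonneg (by positivity) (Zx_nonneg hl _)
    have h9 := h8.trans h7
    have h10 : (0 : ℝ) < 2 / (e0 * l) * exp (C3 * l * (0 : ℕ)) := by positivity
    exact nonneg_of_mul_nonneg_right h9 h10
  have hth0 : 0 < th K := by unfold th; positivity
  have hC3l : exp (C3 * l) ≤ 4 / 3 := by
    have h7 : C3 * l ≤ 1 / 4 := by
      calc C3 * l ≤ C3 * (CS * L / d) := mul_le_mul_of_nonneg_left hlL hC3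
        _ = (4 * C3 * CS * L ^ 1) / d * (1 / 4) := by ring
        _ ≤ 1 * (1 / 4) := by
            apply mul_le_mul_of_nonneg_right _ (by norm_num)
            rw [div_le_one hd0]; exact h5
        _ = 1 / 4 := by ring
    have h8 : exp (1 / 4 : ℝ) ≤ 4 / 3 := by
      have h9 := add_one_le_exp (-(1 / 4) : ℝ)
      rw [exp_neg] at h9
      have h10 : (0 : ℝ) < exp (1 / 4) := exp_pos _
      have h11 : (3 / 4 : ℝ) ≤ (exp (1 / 4))⁻¹ := by linarith
      have h12 := mul_le_mul_of_nonneg_left h11 h10.le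
      rw [mul_inv_cancel₀ h10.ne'] at h12
      linarith
    exact (exp_le_exp.2 h7).trans h8
  have hbase : ∀ j : ℕ, th K ^ j * exp (C3 * l * j) ≤ (1 / 3 : ℝ) ^ j := by
    intro j
    have h7 : exp (C3 * l * j) = exp (C3 * l) ^ j := by
      rw [← exp_nat_mul]; ring_nf
    rw [h7, ← mul_pow]
    apply pow_le_pow_left₀ (by positivity)
    calc th K * exp (C3 * l) ≤ 1 / 4 * (4 / 3) :=
          mul_le_mul hth hC3l (exp_pos _).le (by norm_num)
      _ = 1 / 3 := by norm_num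
  have hx := xcg (T := T) (x := x) hl hl100 hK (nn d) (nn d * ⌈M / l⌉₊ + 1) hn
    (P / (d : ℝ) ^ 10 / 2 ^ d) hE
  refine hx.trans ?_
  have hA : ((nn d * ⌈M / l⌉₊ + 1 : ℕ) : ℝ) * d * 2 ^ d * (P / (d : ℝ) ^ 10 / 2 ^ d) ≤
      1 / 2 * (P / (d : ℝ) ^ 6) := by
    have h7 : ((nn d * ⌈M / l⌉₊ + 1 : ℕ) : ℝ) * d * 2 ^ d * (P / (d : ℝ) ^ 10 / 2 ^ d) =
        ((nn d * ⌈M / l⌉₊ + 1 : ℕ) : ℝ) * d * (P / (d : ℝ) ^ 10) := by
      have : (2 : ℝ) ^ d ≠ 0 := by positivity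
      field_simp
    rw [h7]
    calc ((nn d * ⌈M / l⌉₊ + 1 : ℕ) : ℝ) * d * (P / (d : ℝ) ^ 10)
        ≤ (d : ℝ) ^ 2 * d * (P / (d : ℝ) ^ 10) := by
          apply mul_le_mul_of_nonneg_right _ (by positivity)
          exact mul_le_mul_of_nonneg_right hm hd0.le
      _ = P / (d : ℝ) ^ 6 * (1 / d) := by field_simp
      _ ≤ P / (d : ℝ) ^ 6 * (1 / 2) := by
          apply mul_le_mul_of_nonneg_left _ (by positivity)
          apply one_div_le_one_div_of_le (by norm_num)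
          linarith
      _ = 1 / 2 * (P / (d : ℝ) ^ 6) := by ring
  have hB : (d : ℝ) * 2 ^ d * l * ∑ j ∈ Finset.Ioc (nn d) (nn d * ⌈M / l⌉₊ + 1),
      th K ^ j * Zx d l (x - j) ≤ 1 / 2 * (P / (d : ℝ) ^ 6) := by
    have h7 : (d : ℝ) * 2 ^ d * l * ∑ j ∈ Finset.Ioc (nn d) (nn d * ⌈M / l⌉₊ + 1),
        th K ^ j * Zx d l (x - j) ≤
        ∑ j ∈ Finset.Ioc (nn d) (nn d * ⌈M / l⌉₊ + 1), (2 * d / e0 * P) * (1 / 3 : ℝ) ^ j := by
      rw [mul_sum]
      refine sum_le_sum fun j hj => ?_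
      rw [Finset.mem_Ioc] at hj
      have h8 : j ≤ 2 * d ^ 2 := by
        have h9 : ((j : ℕ) : ℝ) ≤ (d : ℝ) ^ 2 := by
          refine le_trans ?_ hm
          exact_mod_cast hj.2
        have h10 : j ≤ d ^ 2 := by exact_mod_cast h9
        omega
      have h9 := hZ j h8
      calc (d : ℝ) * 2 ^ d * l * (th K ^ j * Zx d l (x - j)) =
          d * l * th K ^ j * (2 ^ d * Zx d l (x - j)) := by ring
        _ ≤ d * l * th K ^ j * (2 / (e0 * l) * exp (C3 * l * j) * P) :=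
            mul_le_mul_of_nonneg_left h9 (by positivity)
        _ = (2 * d / e0 * P) * (th K ^ j * exp (C3 * l * j)) := by field_simp
        _ ≤ (2 * d / e0 * P) * (1 / 3 : ℝ) ^ j :=
            mul_le_mul_of_nonneg_left (hbase j) (by positivity)
    refine h7.trans ?_
    rw [← mul_sum]
    have h8 : (1 / 3 : ℝ) ^ (nn d) ≤ 1 / (d : ℝ) ^ 10 := by
      have h9 : (1 / 3 : ℝ) ≤ exp (-1) := by
        have h10 : exp (1 : ℝ) < 3 := by
          have := Real.exp_one_lt_d9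
          linarith
        rw [exp_neg, one_div]
        exact inv_anti₀ (exp_pos _) h10.le
      calc (1 / 3 : ℝ) ^ (nn d) ≤ exp (-1) ^ (nn d) :=
            pow_le_pow_left₀ (by norm_num) h9 _
        _ = exp (-(nn d : ℝ)) := by rw [← exp_nat_mul]; ring_nf
        _ ≤ exp (-(10 * L)) := by
            apply exp_le_exp.2
            nlinarith
        _ = 1 / (d : ℝ) ^ 10 := by
            rw [exp_neg, one_div]
            congr 1
            rw [show (10 : ℝ) * L = ((10 : ℕ) : ℝ) * L by norm_num, exp_nat_mul, hLdef,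
              exp_log hd0]
    have h9 := (XCA_geom (nn d) (nn d * ⌈M / l⌉₊ + 1)).trans h8
    calc (2 * d / e0 * P) * ∑ j ∈ Finset.Ioc (nn d) (nn d * ⌈M / l⌉₊ + 1), (1 / 3 : ℝ) ^ j
        ≤ (2 * d / e0 * P) * (1 / (d : ℝ) ^ 10) :=
          mul_le_mul_of_nonneg_left h9 (by positivity)
      _ = (P / (d : ℝ) ^ 6) * (2 / e0 / (d : ℝ) ^ 3) := by field_simp
      _ ≤ (P / (d : ℝ) ^ 6) * (1 / 2) := by
          apply mul_le_mul_of_nonneg_left _ (by positivity)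
          rw [div_div, div_le_div_iff₀ (by positivity) (by norm_num)]
          have h10 : 4 ≤ e0 * d := by
            have h11 : 4 / e0 ≤ (d : ℝ) := by linarith
            rw [div_le_iff₀ he0] at h11
            linarith
          have h12 : (d : ℝ) ≤ (d : ℝ) ^ 3 := by nlinarith [sq_nonneg ((d : ℝ) - 1)]
          nlinarith
      _ = 1 / 2 * (P / (d : ℝ) ^ 6) := by ring
  linarith

end Pool.Agent.Lib.MP_c6118e_pr.Win
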