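import Pool.Agent.Lib.MP_c6118e_pr.Win.FR
import Pool.Agent.Lib.MP_c6118e_pr.LBS
import Pool.Agent.Lib.MP_c6118e_pr.Win.EXCA
import Pool.Agent.Lib.MP_c6118e_pr.Win.MAXI
import Pool.Agent.Lib.MP_c6118e_pr.Win.HALF
import Pool.Agent.Lib.MP_c6118e_pr.Win.PNT
import Pool.Agent.Lib.MP_c6118e_pr.Win.XCA
import Pool.Agent.Lib.MP_c6118e_pr.Win.GAIN
import Pool.Agent.Lib.MP_c6118e_pr.Win.CNT
import Pool.Agent.Lib.MP_c6118e_pr.Win.TCASE
import Pool.Agent.Lib.MP_c6118e_pr.Win.RCASE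

/-! # UPW: the upper bound in the window -/

namespace Pool.Agent.Lib.MP_c6118e_pr.Win

open Finset Real
open scoped Classical

variable {d : ℕ}

theorem upw_K (δ : ℝ) (hδ : 0 < δ) : ∃ K : ℝ, 1 ≤ K ∧ th K ≤ δ := by
  refine ⟨1 + 23 / δ, ?_, ?_⟩
  · have : 0 < 23 / δ := by positivity
    linarith
  · unfold th
    have h1 : 11 / δ ≤ exp (12 / 25 * (1 + 23 / δ)) := by
      have h2 := Real.add_one_le_exp (12 / 25 * (1 + 23 / δ))
      have h3 : 12 / 25 * (23 / δ) = 11 / δ + (1 / 25) / δ := by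
        field_simp
        norm_num
      have h4 : 0 < (1 / 25) / δ := by positivity
      nlinarith
    rw [Real.exp_neg]
    have h5 : 0 < 11 / δ := by positivity
    have h6 : (exp (12 / 25 * (1 + 23 / δ)))⁻¹ ≤ (11 / δ)⁻¹ := inv_anti₀ h5 h1
    have h7 : (11 / δ)⁻¹ = δ / 11 := inv_div _ _
    rw [h7] at h6
    linarith

theorem upw_exp20 : exp (-20) ≤ 1 / 10000 := by
  have h := Real.exp_one_gt_d9
  have h1 : (10000 : ℝ) ≤ exp 20 := by
    have h2 : exp 20 = exp 1 ^ 20 := by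
      rw [← Real.exp_nat_mul]
      norm_num
    rw [h2]
    calc (10000 : ℝ) ≤ 2 ^ 20 := by norm_num
      _ ≤ exp 1 ^ 20 := pow_le_pow_left₀ (by norm_num) (by linarith) _
  rw [Real.exp_neg, ← one_div]
  exact one_div_le_one_div_of_le (by norm_num) h1

theorem upw_exp10 : 3 * exp (-(7 / 25 * 39)) ≤ 1 / 1000 := by
  have h := Real.exp_one_gt_d9
  have h1 : (3000 : ℝ) ≤ exp (7 / 25 * 39) := by
    have h2 : exp 10 = exp 1 ^ 10 := by
      rw [← Real.exp_nat_mul]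
      norm_num
    have h3 : exp 10 ≤ exp (7 / 25 * 39) := Real.exp_le_exp.2 (by norm_num)
    refine le_trans ?_ h3
    rw [h2]
    calc (3000 : ℝ) ≤ (5 / 2) ^ 10 := by norm_num
      _ ≤ exp 1 ^ 10 := pow_le_pow_left₀ (by norm_num) (by linarith) _
  rw [Real.exp_neg, ← one_div]
  have := one_div_le_one_div_of_le (by norm_num) h1
  linarith

theorem upw_hdl {l C2 C4 c e1 m : ℝ} {F : ℕ} (hl : 0 < l) (hl1 : l ≤ 1 / 10) (hC2 : 0 ≤ C2)
    (hC4 : 20 * C2 + 200 ≤ C4) (hc : C4 + 2 ≤ c) (he1 : e1 ≤ 3 / 10) (hm : l * m ≤ 1)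
    (hF : c ≤ l * F) :
    2 * l * (m + 2 * exp (2 * (C2 + 1)) * F) ≤
      exp (-(C4 / 2)) * (1 + l) ^ F * exp (-(e1 * (l * F))) := by
  set t := l * (F : ℝ) with ht
  have ht0 : 0 < t := by linarith
  have e1' : 2 * l * (m + 2 * exp (2 * (C2 + 1)) * F) =
      2 * (l * m) + 4 * exp (2 * (C2 + 1)) * t := by
    rw [ht]
    ring
  rw [e1']
  -- (1+l)^F ≥ exp (t (1 - l/2))
  have hlog : l - l ^ 2 / 2 ≤ log (1 + l) := by
    have h := Real.one_sub_inv_le_log_of_pos (show (0 : ℝ) < 1 + l by linarith)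
    have h2 : 2 * l / (l + 2) ≤ log (1 + l) := Real.le_log_one_add_of_nonneg hl.le
    refine le_trans ?_ h2
    rw [le_div_iff₀ (by linarith)]
    nlinarith [mul_pos hl hl, mul_pos (mul_pos hl hl) hl]
  have hpow : exp (19 / 20 * t) ≤ (1 + l) ^ F := by
    have h1 : (1 + l) ^ F = exp (F * log (1 + l)) := by
      rw [Real.exp_nat_mul, Real.exp_log (by linarith)]
    rw [h1]
    refine Real.exp_le_exp.2 ?_
    have h3 : (F : ℝ) * (l - l ^ 2 / 2) ≤ F * log (1 + l) :=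
      mul_le_mul_of_nonneg_left hlog (Nat.cast_nonneg _)
    refine le_trans ?_ h3
    have h4 : (F : ℝ) * (l - l ^ 2 / 2) = t * (1 - l / 2) := by
      rw [ht]
      ring
    rw [h4]
    nlinarith
  have hexp : exp (-(3 / 10 * t)) ≤ exp (-(e1 * t)) := by
    refine Real.exp_le_exp.2 ?_
    have := mul_le_mul_of_nonneg_right he1 ht0.le
    linarith
  have hR : exp (2 * (C2 + 1)) * (1000 + 50 * t) ≤
      exp (-(C4 / 2)) * (1 + l) ^ F * exp (-(e1 * t)) := by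
    have h1 : exp (-(C4 / 2)) * exp (19 / 20 * t) * exp (-(3 / 10 * t)) ≤
        exp (-(C4 / 2)) * (1 + l) ^ F * exp (-(e1 * t)) := by
      refine mul_le_mul (mul_le_mul_of_nonneg_left hpow (Real.exp_pos _).le) hexp
        (Real.exp_pos _).le (by positivity)
    refine le_trans ?_ h1
    rw [← Real.exp_add, ← Real.exp_add]
    have h2 : 2 * (C2 + 1) + (18 + t / 20) ≤ -(C4 / 2) + 19 / 20 * t + -(3 / 10 * t) := by
      linarith
    refine le_trans ?_ (Real.exp_le_exp.2 h2)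
    rw [Real.exp_add]
    refine mul_le_mul_of_nonneg_left ?_ (Real.exp_pos _).le
    rw [Real.exp_add]
    have h3 : (1000 : ℝ) ≤ exp 18 := by
      have h := Real.exp_one_gt_d9
      have h2 : exp 18 = exp 1 ^ 18 := by
        rw [← Real.exp_nat_mul]
        norm_num
      rw [h2]
      calc (1000 : ℝ) ≤ 2 ^ 18 := by norm_num
        _ ≤ exp 1 ^ 18 := pow_le_pow_left₀ (by norm_num) (by linarith) _
    have h4 : 1 + t / 20 ≤ exp (t / 20) := by
      have := Real.add_one_le_exp (t / 20)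
      linarith
    calc (1000 : ℝ) + 50 * t = 1000 * (1 + t / 20) := by ring
      _ ≤ exp 18 * exp (t / 20) := mul_le_mul h3 h4 (by positivity) (Real.exp_pos _).le
  refine le_trans ?_ hR
  have hE : (1 : ℝ) ≤ exp (2 * (C2 + 1)) := by
    have := Real.add_one_le_exp (2 * (C2 + 1))
    linarith
  nlinarith [mul_pos (lt_of_lt_of_le zero_lt_one hE) ht0]

theorem upw_large (CS A B : ℝ) : ∃ d₀ : ℕ, ∀ d ≥ d₀, CS ≤ log d ∧
    A * log (d : ℝ) ^ 5 ≤ d ∧ B ≤ d ∧ 1 ≤ d := by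
  have h1 : ∀ᶠ x : ℝ in Filter.atTop, CS ≤ log x := Real.tendsto_log_atTop.eventually_ge_atTop CS
  have h2 : ∀ᶠ x : ℝ in Filter.atTop, ‖log x ^ 5‖ ≤ 1 / (|A| + 1) * ‖x‖ := by
    have := (isLittleO_pow_log_id_atTop (n := 5)).bound (show (0 : ℝ) < 1 / (|A| + 1) by positivity)
    simpa using this
  have h3 : ∀ᶠ x : ℝ in Filter.atTop, B ≤ x := Filter.eventually_ge_atTop B
  have h4 : ∀ᶠ x : ℝ in Filter.atTop, 1 ≤ x := Filter.eventually_ge_atTop 1
  have h5 := (h1.and (h2.and (h3.and h4)))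
  have h6 := (tendsto_natCast_atTop_atTop (R := ℝ)).eventually h5
  obtain ⟨d₀, hd⟩ := Filter.eventually_atTop.1 h6
  refine ⟨d₀, fun d hdd => ?_⟩
  obtain ⟨a1, a2, a3, a4⟩ := hd d hdd
  refine ⟨a1, ?_, a3, by exact_mod_cast a4⟩
  have hx : (0 : ℝ) ≤ d := Nat.cast_nonneg _
  rw [Real.norm_eq_abs, Real.norm_eq_abs, abs_of_nonneg hx] at a2
  have hA : 0 ≤ |A| := abs_nonneg _
  calc A * log (d : ℝ) ^ 5 ≤ |A| * |log (d : ℝ) ^ 5| := by
        rw [← abs_mul]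
        exact le_abs_self _
    _ ≤ |A| * (1 / (|A| + 1) * d) := mul_le_mul_of_nonneg_left a2 hA
    _ = |A| / (|A| + 1) * d := by ring
    _ ≤ 1 * d := by
        refine mul_le_mul_of_nonneg_right ?_ hx
        rw [div_le_one (by positivity)]
        linarith
    _ = d := one_mul _

/-- elementary consequences of `d` large -/
theorem upw_small {CS C3 l : ℝ} {d : ℕ} (hCS : 1 ≤ CS) (hC3 : 0 ≤ C3) (hL : CS ≤ log d)
    (hd : (8 * CS + 12 * CS ^ 2 + 10 * CS + 3 * C3 * CS + CS ^ 2) * log (d : ℝ) ^ 5 ≤ d)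
    (hd1 : 1 ≤ d) (h1 : 1 ≤ l * d) (h2 : l * d ≤ CS * log d) :
    0 < l ∧ l ≤ 1 / 10 ∧ l ≤ 1 / √d ∧ 1 ≤ nn d ∧ 2 * l * nn d ≤ 1 / nn d ∧
    l * (d / nn d) ≤ 1 ∧ 2 * l * ⌈2 * l * d⌉₊ ≤ 1 / 2 ∧ exp (C3 * l) ≤ 3 / 2 := by
  set L := log (d : ℝ) with hLdef
  have hL1 : 1 ≤ L := hCS.trans hL
  have hdp : (0 : ℝ) < d := by exact_mod_cast hd1
  have hl : 0 < l := by
    by_contra h
    have : l * d ≤ 0 := mul_nonpos_of_nonpos_of_nonneg (not_lt.1 h) hdp.le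
    linarith
  have hp : ∀ k, k ≤ 5 → L ^ k ≤ L ^ 5 := fun k hk => pow_le_pow_right₀ hL1 hk
  have hL5 : 0 ≤ L ^ 5 := by positivity
  have hCSp : 0 < CS := by linarith
  have b1 : 8 * CS * L ^ 5 ≤ d := by
    nlinarith [mul_nonneg (mul_nonneg hC3 hCSp.le) hL5,
      mul_nonneg (sq_nonneg CS) hL5, mul_nonneg hCSp.le hL5]
  have b2 : 12 * CS ^ 2 * L ^ 5 ≤ d := by
    nlinarith [mul_nonneg (mul_nonneg hC3 hCSp.le) hL5,
      mul_nonneg (sq_nonneg CS) hL5, mul_nonneg hCSp.le hL5]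
  have b3 : 10 * CS * L ^ 5 ≤ d := by
    nlinarith [mul_nonneg (mul_nonneg hC3 hCSp.le) hL5,
      mul_nonneg (sq_nonneg CS) hL5, mul_nonneg hCSp.le hL5]
  have b4 : 3 * C3 * CS * L ^ 5 ≤ d := by
    nlinarith [mul_nonneg (mul_nonneg hC3 hCSp.le) hL5,
      mul_nonneg (sq_nonneg CS) hL5, mul_nonneg hCSp.le hL5]
  have b5 : CS ^ 2 * L ^ 5 ≤ d := by
    nlinarith [mul_nonneg (mul_nonneg hC3 hCSp.le) hL5,
      mul_nonneg (sq_nonneg CS) hL5, mul_nonneg hCSp.le hL5]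
  have hnn1 : L ^ 2 ≤ nn d := Nat.le_ceil _
  have hnn2 : (nn d : ℝ) ≤ L ^ 2 + 1 := (Nat.ceil_lt_add_one (sq_nonneg _)).le
  have hLsq : 1 ≤ L ^ 2 := one_le_pow₀ hL1
  have hnnR : (1 : ℝ) ≤ nn d := hLsq.trans hnn1
  have hnnp : (0 : ℝ) < nn d := by linarith
  have q1 := hp 1 (by norm_num)
  have q2 := hp 2 (by norm_num)
  rw [pow_one] at q1
  refine ⟨hl, ?_, ?_, by exact_mod_cast hnnR, ?_, ?_, ?_, ?_⟩
  · -- l ≤ 1/10
    have : 10 * (l * d) ≤ d := by nlinarith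
    nlinarith
  · rw [le_div_iff₀ (Real.sqrt_pos.2 hdp)]
    have h3 : CS * L ≤ √(d : ℝ) := by
      apply Real.le_sqrt_of_sq_le
      calc (CS * L) ^ 2 = CS ^ 2 * L ^ 2 := by ring
        _ ≤ CS ^ 2 * L ^ 5 := mul_le_mul_of_nonneg_left q2 (sq_nonneg _)
        _ ≤ d := b5
    have h4 : √(d : ℝ) * √d = d := Real.mul_self_sqrt hdp.le
    have h5 : 0 < √(d : ℝ) := Real.sqrt_pos.2 hdp
    have h6 : (l * √d) * √d ≤ 1 * √d := by
      rw [mul_assoc, h4, one_mul]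
      exact h2.trans h3
    exact le_of_mul_le_mul_right h6 h5
  · rw [le_div_iff₀ hnnp]
    have h3 : (nn d : ℝ) ≤ 2 * L ^ 2 := by linarith
    have h4 : (nn d : ℝ) * nn d ≤ (2 * L ^ 2) * (2 * L ^ 2) :=
      mul_le_mul h3 h3 hnnp.le (by positivity)
    have h5 : 2 * l * nn d * nn d ≤ 8 * l * L ^ 4 := by nlinarith
    refine h5.trans ?_
    have h6 : (8 * l * L ^ 4) * d ≤ 1 * d := by
      have h7 : (l * d) * L ^ 4 ≤ (CS * L) * L ^ 4 :=
        mul_le_mul_of_nonneg_right h2 (by positivity)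
      nlinarith
    exact le_of_mul_le_mul_right h6 hdp
  · rw [← mul_div_assoc, div_le_one hnnp]
    refine h2.trans (le_trans ?_ hnn1)
    nlinarith
  · have h3 : (⌈2 * l * d⌉₊ : ℝ) ≤ 2 * l * d + 1 := (Nat.ceil_lt_add_one (by positivity)).le
    have hCL : 1 ≤ CS * L := by nlinarith
    have h4 : (⌈2 * l * d⌉₊ : ℝ) ≤ 3 * (CS * L) := by nlinarith
    have h5 : 2 * l * ⌈2 * l * d⌉₊ ≤ 2 * l * (3 * (CS * L)) :=
      mul_le_mul_of_nonneg_left h4 (by positivity)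
    refine h5.trans ?_
    have h6 : (2 * l * (3 * (CS * L))) * d ≤ 1 / 2 * d := by
      have h7 : (l * d) * (CS * L) ≤ (CS * L) * (CS * L) :=
        mul_le_mul_of_nonneg_right h2 (by positivity)
      have h8 : (CS * L) * (CS * L) ≤ CS ^ 2 * L ^ 5 := by
        calc (CS * L) * (CS * L) = CS ^ 2 * L ^ 2 := by ring
          _ ≤ CS ^ 2 * L ^ 5 := mul_le_mul_of_nonneg_left q2 (sq_nonneg _)
      nlinarith
    exact le_of_mul_le_mul_right h6 hdp
  · have h3 : C3 * l ≤ 1 / 3 := by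
      have h6 : (C3 * l) * d ≤ 1 / 3 * d := by
        have h7 : C3 * (l * d) ≤ C3 * (CS * L) := mul_le_mul_of_nonneg_left h2 hC3
        have h8 : C3 * (CS * L) ≤ C3 * CS * L ^ 5 := by
          rw [← mul_assoc]
          exact mul_le_mul_of_nonneg_left q1 (by positivity)
        nlinarith
      exact le_of_mul_le_mul_right h6 hdp
    have h4 := Real.exp_bound_div_one_sub_of_interval (show (0 : ℝ) ≤ C3 * l by positivity)
      (show C3 * l < 1 by linarith)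
    refine h4.trans ?_
    rw [div_le_iff₀ (by linarith)]
    linarith

/-- final algebra -/
theorem upw_final {l c0 e0 M P Z Zt N a b : ℝ} (hl : 0 < l) (hc0 : 0 < c0) (he0 : 0 < e0)
    (hM : M = 48 / (e0 * c0)) (hZ : 0 < Z) (hZt : 0 < Zt)
    (hmain : l / 8 * (c0 * P) ≤ Z * log (Zt / Z) + a / b)
    (hb : M / l ≤ b) (ha : a ≤ 3 / e0 * P) (hP : e0 * l * N * Z ≤ P) (hP0 : 0 < P) :
    Z ≤ exp (-(c0 * e0 / 16 * l ^ 2 * N)) * Zt := by
  have hMp : 0 < M := by rw [hM]; positivity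
  have hbp : 0 < b := lt_of_lt_of_le (by positivity) hb
  have h1 : a / b ≤ l * c0 * P / 16 := by
    rw [div_le_iff₀ hbp]
    have h2 : l * c0 * P / 16 * (M / l) ≤ l * c0 * P / 16 * b :=
      mul_le_mul_of_nonneg_left hb (by positivity)
    refine le_trans ?_ h2
    refine ha.trans (le_of_eq ?_)
    rw [hM]
    field_simp
    norm_num
  have h3 : c0 * e0 / 16 * l ^ 2 * N * Z ≤ Z * log (Zt / Z) := by
    have h4 : l * c0 / 16 * (e0 * l * N * Z) ≤ l * c0 / 16 * P :=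
      mul_le_mul_of_nonneg_left hP (by positivity)
    nlinarith
  have h5 : c0 * e0 / 16 * l ^ 2 * N ≤ log (Zt / Z) := by
    have h6 : (c0 * e0 / 16 * l ^ 2 * N) * Z ≤ log (Zt / Z) * Z := by
      rw [mul_comm (log _)]
      exact h3
    exact le_of_mul_le_mul_right h6 hZ
  have h7 : exp (c0 * e0 / 16 * l ^ 2 * N) ≤ Zt / Z := by
    rw [← Real.exp_log (div_pos hZt hZ)]
    exact Real.exp_le_exp.2 h5
  rw [Real.exp_neg, ← div_eq_inv_mul, le_div_iff₀ (Real.exp_pos _)]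
  rw [le_div_iff₀ hZ] at h7
  linarith

theorem upperW (CS : ℝ) (hCS : 1 ≤ CS) : ∃ s0 c : ℝ, ∃ d₀ : ℕ, 0 < s0 ∧ 0 < c ∧
    ∀ d ≥ d₀, ∀ l : ℝ, s0 ≤ l * d → l * d ≤ CS * log d →
    Zx d l (1 / 10 * (l / (1 + l)) * 2 ^ d) ≤ exp (-(c * l ^ 2 * 2 ^ d)) * Zf d l := by
  obtain ⟨CL, cL, dL, hCL, hcL, hlow⟩ := lower_small
  have hCSp : 0 < CS := by linarith
  have hlog2 : 0 < log 2 := Real.log_pos (by norm_num)
  obtain ⟨e1, he1def⟩ : ∃ e1 : ℝ, e1 = 3 / (10 * CS) := ⟨_, rfl⟩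
  have he1 : 0 < e1 := by rw [he1def]; positivity
  have he1CS : e1 * CS = 3 / 10 := by rw [he1def]; field_simp
  have he13 : e1 ≤ 3 / 10 := by nlinarith
  obtain ⟨K, hK1, hKth⟩ := upw_K (min (1 / 10000) (e1 / log 2 / 2500))
    (lt_min (by norm_num) (by positivity))
  have hth1 : th K ≤ 1 / 10000 := hKth.trans (min_le_left _ _)
  have hth2 : th K ≤ e1 / log 2 / 2500 := hKth.trans (min_le_right _ _)
  obtain ⟨C2, hC2⟩ : ∃ C2 : ℝ, C2 = 32 * K + 16 := ⟨_, rfl⟩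
  have hC2p : 48 ≤ C2 := by linarith
  obtain ⟨Lam, hLam⟩ : ∃ Lam : ℝ, Lam = exp (2 * C2 + 2) := ⟨_, rfl⟩
  have hLam1 : 1 ≤ Lam := by
    rw [hLam]
    have := Real.add_one_le_exp (2 * C2 + 2)
    linarith
  have hLamp : 0 < Lam := by linarith
  obtain ⟨C4, hC4⟩ : ∃ C4 : ℝ, C4 = 20 * C2 + 200 + 2000 / (e1 / log 2) := ⟨_, rfl⟩
  have he2 : 0 < e1 / log 2 := by positivity
  have hC4' : 20 * C2 + 200 ≤ C4 := by
    have : 0 < 2000 / (e1 / log 2) := by positivity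
    linarith
  obtain ⟨dl, hdl⟩ : ∃ dl : ℝ, dl = exp (-(C4 / 2)) := ⟨_, rfl⟩
  have hdlp : 0 < dl := by rw [hdl]; exact Real.exp_pos _
  obtain ⟨a0, ha0⟩ : ∃ a0 : ℝ, a0 = exp (-(C2 + 1)) := ⟨_, rfl⟩
  have ha0p : 0 < a0 := by rw [ha0]; exact Real.exp_pos _
  obtain ⟨ep, hep⟩ : ∃ ep : ℝ, ep = 2 * (a0 + dl) := ⟨_, rfl⟩
  have hepp : 0 < ep := by rw [hep]; positivity
  have hep1 : ep ≤ 1 / 1000 := by
    have h1 : a0 ≤ exp (-20) := by
      rw [ha0]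
      exact Real.exp_le_exp.2 (by linarith)
    have h2 : dl ≤ exp (-20) := by
      rw [hdl]
      exact Real.exp_le_exp.2 (by linarith)
    have := upw_exp20
    linarith
  obtain ⟨C6, hC6⟩ : ∃ C6 : ℝ, C6 = 32000 * (C4 + 3) * Lam * ep + 40 := ⟨_, rfl⟩
  have hC6p : 40 ≤ C6 := by
    have : 0 ≤ 32000 * (C4 + 3) * Lam * ep := by
      have : 0 ≤ C4 + 3 := by linarith
      positivity
    linarith
  obtain ⟨k1, hk1⟩ : ∃ k1 : ℕ, k1 = ⌈50 * (2 + 4 * (C4 + 3) * Lam * ep)⌉₊ + 2000 := ⟨_, rfl⟩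
  have hk1a : 50 * (2 + 4 * (C4 + 3) * Lam * ep) ≤ k1 := by
    rw [hk1]
    push_cast
    have := Nat.le_ceil (50 * (2 + 4 * (C4 + 3) * Lam * ep))
    linarith
  have hk1b : 1000 * (1 + ep) ≤ k1 := by
    rw [hk1]
    push_cast
    have : (0 : ℝ) ≤ (⌈50 * (2 + 4 * (C4 + 3) * Lam * ep)⌉₊ : ℝ) := Nat.cast_nonneg _
    linarith
  obtain ⟨e0, he0⟩ : ∃ e0 : ℝ, e0 = Lam * exp (-(2 * C4 + 4)) / 1000 := ⟨_, rfl⟩
  have he0p : 0 < e0 := by rw [he0]; positivity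
  have he0a : 1000 * exp (2 * C4 + 4) * e0 ≤ Lam := by
    rw [he0, Real.exp_neg]
    have : exp (2 * C4 + 4) ≠ 0 := (Real.exp_pos _).ne'
    field_simp
    exact le_rfl
  have he01 : e0 ≤ 1 := by
    have h1 : Lam ≤ exp (2 * C4 + 4) := by
      rw [hLam]
      exact Real.exp_le_exp.2 (by linarith)
    have h2 : 0 < exp (2 * C4 + 4) := Real.exp_pos _
    have h3 : exp (2 * C4 + 4) * (1000 * e0) ≤ exp (2 * C4 + 4) * 1 := by linarith
    have h4 := le_of_mul_le_mul_left h3 h2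
    linarith
  obtain ⟨c0, hc0⟩ : ∃ c0 : ℝ, c0 = min ((1 / 2 : ℝ) ^ k1 / (16 * Lam)) ((1 / 4 : ℝ) ^ k1 / 64) :=
    ⟨_, rfl⟩
  have hc0p : 0 < c0 := by
    rw [hc0]
    exact lt_min (by positivity) (by positivity)
  obtain ⟨M, hM⟩ : ∃ M : ℝ, M = 48 / (e0 * c0) := ⟨_, rfl⟩
  have hMp : 0 < M := by rw [hM]; positivity
  have hC3p : 0 ≤ 1000 * (cL + 1) := by linarith
  obtain ⟨sE, dE, hsE, hE⟩ := exc_small CS (C4 + 3 / 2) C2 C6 e0 (1000 * (cL + 1)) hCSp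
    (by linarith) (by linarith) (by linarith) he0p hC3p
  obtain ⟨dM, hMx⟩ := maxi CS Lam e1 e0 C4 cL hCSp hLam1 he1.le he0p he01 hcL
  obtain ⟨dH, hH⟩ := half_Psi CS Lam e1 e0 C4 cL hCSp hLam1 he1.le he1CS.le he0p he0a
    (by linarith) hcL
  obtain ⟨dX, hX⟩ := xc_small CS (C4 + 3 / 2) K e0 (1000 * (cL + 1)) M hCSp hK1
    (by linarith) he0p hC3p hMp
  obtain ⟨sT, dT, hsT, hT⟩ := tcase CS K C2 Lam C4 C6 ep M k1 hCSp hK1 hth1 hC2.ge hLam1
    (by linarith) (by linarith)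
    (by
      have h1 : exp (-(7 / 25 * (C6 - 1))) ≤ exp (-(7 / 25 * 39)) :=
        Real.exp_le_exp.2 (by linarith)
      have := upw_exp10
      linarith) hepp.le (by linarith) hk1a hMp
  obtain ⟨sR, dR, hsR, hR⟩ := rcase CS K C2 C4 C6 ep M e1 k1 hCSp hK1 hth1 hth2 hC2.ge
    (by linarith)
    (by
      have h1 : exp (-(7 / 25 * (C4 - 1))) ≤ exp (-(7 / 25 * 39)) :=
        Real.exp_le_exp.2 (by linarith)
      have := upw_exp10
      linarith) hepp.le (by linarith) he1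
    (by
      have h1 : e1 / log 2 * (2000 / (e1 / log 2)) = 2000 := by field_simp
      have h2 : e1 / log 2 * (2000 / (e1 / log 2)) ≤ e1 / log 2 * C4 :=
        mul_le_mul_of_nonneg_left (by linarith) he2.le
      linarith) hk1b hMp
  obtain ⟨dA, hA⟩ := upw_large CS (8 * CS + 12 * CS ^ 2 + 10 * CS + 3 * (1000 * (cL + 1)) * CS +
    CS ^ 2) (3 * exp (C2 + 1))
  refine ⟨max sE (max sT (max sR (max CL 1))), c0 * e0 / 16,
    max dL (max dE (max dM (max dH (max dX (max dT (max dR dA)))))),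
    lt_of_lt_of_le hsE (le_max_left _ _), by positivity, ?_⟩
  intro d hd l hs0 hl2
  simp only [ge_iff_le, max_le_iff] at hd hs0
  obtain ⟨hdL, hdE, hdM, hdH, hdX, hdT, hdR, hdA⟩ := hd
  obtain ⟨hsE', hsT', hsR', hsCL, hs1⟩ := hs0
  obtain ⟨hlogd, hAd, hBd, hd1⟩ := hA d hdA
  obtain ⟨hl, hl10, hlsq, hnn1, h2lnn, hlm, h2lb, hexpC3⟩ :=
    upw_small hCS hC3p hlogd hAd hd1 hs1 hl2
  have hdp : (0 : ℝ) < d := by exact_mod_cast hd1
  have hd1R : (1 : ℝ) ≤ d := by exact_mod_cast hd1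
  have hnnR : (1 : ℝ) ≤ nn d := by exact_mod_cast hnn1
  have hnnp : (0 : ℝ) < nn d := by linarith
  have hloww := hlow d hdL l (by rw [div_le_iff₀ hdp]; exact hsCL) hlsq
  obtain ⟨c, x, hc2, hc3, hx1, hx2, hPpos, hPsi, hZx⟩ := hMx d hdM l hs1 hl2 hloww
  obtain ⟨P, hP⟩ : ∃ P : ℝ, P = Psi Lam e1 e0 C4 d l c x := ⟨_, rfl⟩
  rw [← hP] at hPpos hPsi hZx
  have hExc := hE d hdE l hsE' hl2 x P hZx
  have hExcx : ∀ v : V d, avU l x
      (fun s => if Exc (C4 + 3 / 2) l C2 C6 (d / nn d) (nn d) s v then (1 : ℝ) else 0) ≤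
        P / (d : ℝ) ^ 10 / 2 ^ d := by
    intro v
    refine le_trans ?_ (hExc v)
    refine avU_anti hl.le (by linarith) ?_
    intro s _
    split_ifs <;> norm_num
  have hOcc : ∀ v : V d, avU l x (fun s => if nn d < nOcc s v then (1 : ℝ) else 0) ≤
        P / (d : ℝ) ^ 10 / 2 ^ d := by
    intro v
    refine le_trans ?_ (hExcx v)
    refine avU_mono hl.le ?_
    intro s _
    by_cases h : nn d < nOcc s v
    · rw [if_pos h, if_pos (show Exc (C4 + 3 / 2) l C2 C6 (d / nn d) (nn d) s v from Or.inl h)]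
    · rw [if_neg h]
      split_ifs <;> norm_num
  have hHalf := hH d hdH l hs1 hl2 hloww c x hc2 hx1 hx2 (by rw [← hP]; exact hPpos)
    (by rw [← hP]; exact hPsi) (by rw [← hP]; exact hOcc)
  rw [← hP] at hHalf
  -- the three parts of Psi
  have hF0 : ∀ c' x' : ℝ, 0 ≤ avU (d := d) l x' (fun s => (FFn l c' s : ℝ)) := fun c' x' =>
    avU_nonneg hl.le fun s _ => Nat.cast_nonneg _
  have hR0 : ∀ r x' : ℝ, 0 ≤ avU (d := d) l x' (fun s => Rw l e1 r s) := fun r x' =>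
    avU_nonneg hl.le fun s _ => Finset.sum_nonneg fun v _ => (Real.exp_pos _).le
  have hZ0 : ∀ x' : ℝ, 0 ≤ e0 * l * 2 ^ d * Zx d l x' := fun x' =>
    mul_nonneg (by positivity) (Zx_nonneg hl _)
  have hFll : ∀ c' x' : ℝ, 0 ≤ Lam * l * avU (d := d) l x' (fun s => (FFn l c' s : ℝ)) :=
    fun c' x' => mul_nonneg (by positivity) (hF0 _ _)
  have hPdef : P = Lam * l * avU (d := d) l x (fun s => (FFn l c s : ℝ)) +
    avU (d := d) l x (fun s => Rw l e1 (2 * C4 + 3 - c) s) + e0 * l * 2 ^ d * Zx d l x := hP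
  have hPsi' : Lam * l * avU (d := d) l (x - nn d) (fun s => (FFn l (c + 1 / nn d) s : ℝ)) +
    avU (d := d) l (x - nn d) (fun s => Rw l e1 (2 * C4 + 3 - (c + 1 / nn d)) s) +
    e0 * l * 2 ^ d * Zx d l (x - nn d) ≤ 51 / 50 * P := hPsi
  have hFle : Lam * l * avU (d := d) l x (fun s => (FFn l c s : ℝ)) ≤ P := by
    linarith [hR0 (2 * C4 + 3 - c) x, hZ0 x]
  have hRle : avU (d := d) l x (fun s => Rw l e1 (2 * C4 + 3 - c) s) ≤ P := by
    linarith [hFll c x, hZ0 x]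
  have hFle' : Lam * l * avU (d := d) l (x - nn d) (fun s => (FFn l (c + 1 / nn d) s : ℝ)) ≤
      51 / 50 * P := by
    linarith [hR0 (2 * C4 + 3 - (c + 1 / nn d)) (x - nn d), hZ0 (x - nn d)]
  have hRle' : avU (d := d) l (x - nn d)
      (fun s => Rw l e1 (2 * C4 + 3 - (c + 1 / nn d)) s) ≤ 51 / 50 * P := by
    linarith [hFll (c + 1 / nn d) (x - nn d), hZ0 (x - nn d)]
  have hZle : e0 * l * 2 ^ d * Zx d l x ≤ P := by
    linarith [hFll c x, hR0 (2 * C4 + 3 - c) x]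
  have hinv : 0 < 1 / (nn d : ℝ) := by positivity
  have hinv1 : 1 / (nn d : ℝ) ≤ 1 := by rw [div_le_one hnnp]; exact hnnR
  -- poor normal particles
  have hPN : ∑ k : Fin d, avU l x (fun s => (PNn (C4 + 3 / 2) l C2 k s : ℝ)) ≤ ep * P := by
    have h := pnt (T := C4 + 3 / 2) (l := l) (C2 := C2) (C6 := C6) (c := c)
      (c' := c + 1 / nn d) (r' := 2 * C4 + 3 - (c + 1 / nn d)) (m := d / nn d) (e1 := e1)
      (dl := dl) (Lam := Lam) (P := P) (E := P / (d : ℝ) ^ 10 / 2 ^ d) hl x (nn d)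
      ⌈2 * l * d⌉₊ hnn1 (by linarith) (by linarith) (Nat.le_ceil _) (by linarith)
      (by linarith) (by positivity) hLamp hdlp.le
      (fun F _ hF => by
        rw [hdl]
        exact upw_hdl hl hl10 (by linarith) hC4' hc2 he13 hlm hF)
      hFle' hRle' hExcx
    refine h.trans ?_
    have h1 : exp (C2 + 1) / Lam = a0 := by
      rw [hLam, ha0, ← Real.exp_sub]
      congr 1
      ring
    have h2 : 2 * (d : ℝ) * 2 ^ d * (P / (d : ℝ) ^ 10 / 2 ^ d) = 2 / (d : ℝ) ^ 9 * P := by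
      have : (2 : ℝ) ^ d ≠ 0 := by positivity
      have hd0 : (d : ℝ) ≠ 0 := hdp.ne'
      field_simp
    have h3 : 2 / (d : ℝ) ^ 9 ≤ 2 / 3 * a0 := by
      have h4 : (d : ℝ) ≤ (d : ℝ) ^ 9 := le_self_pow₀ hd1R (by norm_num)
      have h5 : 3 * exp (C2 + 1) ≤ (d : ℝ) ^ 9 := hBd.trans h4
      have h6 : a0 * exp (C2 + 1) = 1 := by
        rw [ha0, ← Real.exp_add]
        simp
      rw [div_le_iff₀ (by positivity)]
      have h7 : 2 / 3 * a0 * (3 * exp (C2 + 1)) ≤ 2 / 3 * a0 * (d : ℝ) ^ 9 :=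
        mul_le_mul_of_nonneg_left h5 (by positivity)
      linarith
    rw [h1, h2]
    have h8 : 2 / (d : ℝ) ^ 9 * P ≤ 2 / 3 * a0 * P := mul_le_mul_of_nonneg_right h3 hPpos.le
    rw [hep]
    linarith [mul_pos ha0p hPpos, mul_pos hdlp hPpos]
  have hXC := hX d hdX l hs1 hl2 x P hZx hOcc
  -- the main lower bound
  have hmain : c0 * d * P ≤ ∑ k : Fin d, avM l x (fun s t =>
      ∑ u ∈ univ.filter (DVp ⌈M / l⌉₊ k s t), (1 / 2 : ℝ) ^ kap ⌈M / l⌉₊ k s t u) := by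
    have hdP : 0 ≤ (d : ℝ) * P := by positivity
    by_cases hcase : P / 4 ≤ Lam * l * avU (d := d) l x (fun s => (FFn l c s : ℝ))
    · have h := hT d hdT l hsT' hl2 c x P hc2 hc3 hPpos hFle hFle' hPN hXC hExc hcase
      refine le_trans ?_ h
      have h1 : c0 ≤ (1 / 2 : ℝ) ^ k1 / (16 * Lam) := by rw [hc0]; exact min_le_left _ _
      have h2 := mul_le_mul_of_nonneg_right h1 hdP
      linarith
    · have hcase' : P / 4 ≤ avU (d := d) l x (fun s => Rw l e1 (2 * C4 + 3 - c) s) := by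
        push Not at hcase
        linarith
      have h := hR d hdR l hsR' hl2 c x P hc2 hc3 hPpos hRle hRle' hPN hXC hExc hcase'
      refine le_trans ?_ h
      have h1 : c0 ≤ (1 / 4 : ℝ) ^ k1 / 64 := by rw [hc0]; exact min_le_right _ _
      have h2 := mul_le_mul_of_nonneg_right h1 hdP
      linarith
  -- positivity of Zx
  have hZfp : 0 < Zf d l := Zf_pos hl
  have hZX0 : 0 < Zx d l (1 / 10 * (l / (1 + l)) * 2 ^ d) :=
    lt_of_lt_of_le (mul_pos (Real.exp_pos _) hZfp) hloww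
  have hZxX : Zx d l (1 / 10 * (l / (1 + l)) * 2 ^ d) ≤ Zx d l x := Zx_anti hl hx2
  have hZxp : 0 < Zx d l x := lt_of_lt_of_le hZX0 hZxX
  have hb1 : 1 ≤ ⌈M / l⌉₊ := Nat.ceil_pos.2 (by positivity)
  -- gain, summed over k
  have hgain : l / 8 * (c0 * P) ≤ Zx d l x * log (Zf d l / Zx d l x) +
      avU (d := d) l x (fun s => (s.card : ℝ)) / (⌈M / l⌉₊ : ℝ) := by
    have h1 : ∑ k : Fin d, l / 8 * avM l x (fun s t =>
        ∑ u ∈ univ.filter (DVp ⌈M / l⌉₊ k s t), (1 / 2 : ℝ) ^ kap ⌈M / l⌉₊ k s t u) ≤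
        ∑ _k : Fin d, (Zx d l x * log (Zf d l / Zx d l x) +
          avU (d := d) l x (fun s => (s.card : ℝ)) / (⌈M / l⌉₊ : ℝ)) :=
      Finset.sum_le_sum fun k _ => gain hl (by linarith) x hZxp k _ hb1
    rw [← Finset.mul_sum, Finset.sum_const, Finset.card_univ, Fintype.card_fin,
      nsmul_eq_mul] at h1
    have h2 : l / 8 * (c0 * d * P) ≤ l / 8 * ∑ k : Fin d, avM l x (fun s t =>
        ∑ u ∈ univ.filter (DVp ⌈M / l⌉₊ k s t), (1 / 2 : ℝ) ^ kap ⌈M / l⌉₊ k s t u) :=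
      mul_le_mul_of_nonneg_left hmain (by positivity)
    have h3 : (d : ℝ) * (l / 8 * (c0 * P)) ≤ d * (Zx d l x * log (Zf d l / Zx d l x) +
          avU (d := d) l x (fun s => (s.card : ℝ)) / (⌈M / l⌉₊ : ℝ)) := by
      linarith
    exact le_of_mul_le_mul_left h3 hdp
  have hcard : avU (d := d) l x (fun s => (s.card : ℝ)) ≤ 3 / e0 * P := by
    have h1 := avU_card_le (d := d) hl x
    have h2 := hZx 1 (by
      have h0 : 1 ≤ d ^ 2 := Nat.one_le_pow _ _ hd1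
      omega)
    rw [Nat.cast_one, mul_one] at h2
    have h3 : l * 2 ^ d * Zx d l (x - 1) ≤
        l * (2 / (e0 * l) * exp (1000 * (cL + 1) * l) * P) := by
      rw [mul_assoc]
      exact mul_le_mul_of_nonneg_left h2 hl.le
    have h4 : l * (2 / (e0 * l) * exp (1000 * (cL + 1) * l) * P) =
        2 / e0 * P * exp (1000 * (cL + 1) * l) := by
      field_simp
    have h5 : 2 / e0 * P * exp (1000 * (cL + 1) * l) ≤ 2 / e0 * P * (3 / 2) :=
      mul_le_mul_of_nonneg_left hexpC3 (by positivity)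
    have h6 : 2 / e0 * P * (3 / 2) = 3 / e0 * P := by ring
    linarith
  have hfin := upw_final (N := 2 ^ d) hl hc0p he0p hM hZxp hZfp hgain (Nat.le_ceil _) hcard
    (by linarith) hPpos
  exact hZxX.trans hfin

end Pool.Agent.Lib.MP_c6118e_pr.Win
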