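import Pool.Agent.Lib.MP_c6118e_pr.Final
import Pool.Agent.Lib.MP_c6118e_pr.Win.UPW

/-! # FULL: the full answer -/

namespace Pool.Agent.Lib.MP_c6118e_pr.Win

open Finset Real

theorem full : ∃ C c₁ c₂ : ℝ, ∃ d₀ : ℕ, 0 < C ∧ 0 < c₁ ∧ 0 < c₂ ∧ ∀ d ≥ d₀, ∀ l : ℝ,
    (C / d ≤ l → l ≤ 1 / √d →
      exp (-(c₂ * (l ^ 2 * 2 ^ d))) ≤ Model.muBal d l ∧
      Model.muBal d l ≤ exp (-(c₁ * (l ^ 2 * 2 ^ d)))) ∧
    (1 / √d ≤ l →
      exp (-(c₂ * (log (1 + l) / √d * 2 ^ d))) ≤ Model.muBal d l ∧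
      Model.muBal d l ≤ exp (-(c₁ * (log (1 + l) / √d * 2 ^ d)))) := by
  obtain ⟨C1, a1, a2, d1, hC1, ha1, ha2, h1⟩ := final1
  obtain ⟨C2, b2, d2, hC2, hb2, h2⟩ := final2
  obtain ⟨s0, e, d3, hs0, he, h3⟩ := upperW (max C1 1) (le_max_right _ _)
  refine ⟨max C2 s0, min a1 e, max a2 b2, max (max d1 d2) (max d3 1), lt_max_of_lt_left hC2,
    lt_min ha1 he, lt_max_of_lt_left ha2, ?_⟩
  intro d hd l
  have hd1 : d1 ≤ d := le_trans (by simp) hd
  have hd2 : d2 ≤ d := le_trans (by simp) hd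
  have hd3 : d3 ≤ d := le_trans (by simp) hd
  have hd4 : 1 ≤ d := le_trans (by simp) hd
  have hdpos : (0 : ℝ) < d := by exact_mod_cast hd4
  have hlog : 0 ≤ log (d : ℝ) := log_nonneg (by exact_mod_cast hd4)
  constructor
  · intro hl1 hl2
    have hl0 : 0 < l := lt_of_lt_of_le (by positivity) hl1
    constructor
    · have h4 := h2 d hd2 l (le_trans (by gcongr; exact le_max_left _ _) hl1) hl2
      refine le_trans (exp_le_exp.2 ?_) h4
      have : b2 * (l ^ 2 * 2 ^ d) ≤ max a2 b2 * (l ^ 2 * 2 ^ d) := by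
        gcongr; exact le_max_right _ _
      linarith
    · by_cases hc : C1 * log d / d ≤ l
      · refine ((h1 d hd1 l).1 hc hl2).2.trans (exp_le_exp.2 ?_)
        have : min a1 e * (l ^ 2 * 2 ^ d) ≤ a1 * (l ^ 2 * 2 ^ d) := by
          gcongr; exact min_le_left _ _
        linarith
      · push Not at hc
        have hs : s0 ≤ l * d := by
          have h5 : s0 / d ≤ l := le_trans (by gcongr; exact le_max_right _ _) hl1
          rwa [div_le_iff₀ hdpos] at h5
        have hu : l * d ≤ max C1 1 * log d := by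
          have h6 : l * d ≤ C1 * log d := by
            have h7 := mul_le_mul_of_nonneg_right hc.le hdpos.le
            rwa [div_mul_cancel₀ _ hdpos.ne'] at h7
          exact h6.trans (mul_le_mul_of_nonneg_right (le_max_left _ _) hlog)
        have h8 := h3 d hd3 l hs hu
        refine (muBal_le_exp hl0 h8).trans (exp_le_exp.2 ?_)
        have : min a1 e * (l ^ 2 * 2 ^ d) ≤ e * (l ^ 2 * 2 ^ d) := by
          gcongr; exact min_le_right _ _
        linarith
  · intro hl1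
    have hl0 : 0 < l := lt_of_lt_of_le (by positivity) hl1
    have hlog1 : 0 ≤ log (1 + l) := log_nonneg (by linarith)
    obtain ⟨h4, h5⟩ := (h1 d hd1 l).2 hl1
    constructor
    · refine le_trans (exp_le_exp.2 ?_) h4
      have : a2 * (log (1 + l) / √d * 2 ^ d) ≤ max a2 b2 * (log (1 + l) / √d * 2 ^ d) := by
        gcongr; exact le_max_left _ _
      linarith
    · refine h5.trans (exp_le_exp.2 ?_)
      have : min a1 e * (log (1 + l) / √d * 2 ^ d) ≤ a1 * (log (1 + l) / √d * 2 ^ d) := by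
        gcongr; exact min_le_left _ _
      linarith

end Pool.Agent.Lib.MP_c6118e_pr.Win
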