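import Pool.Agent.Lib.MP_c6118e_pr.Win.FR
import Pool.Agent.Lib.MP_c6118e_pr.Win.LEMD
import Pool.Agent.Lib.MP_c6118e_pr.Win.NRPN
import Pool.Agent.Lib.MP_c6118e_pr.Win.ENVR
import Pool.Agent.Lib.MP_c6118e_pr.Win.CNT

/-! # RD: nonattached particles next to R vertices -/

namespace Pool.Agent.Lib.MP_c6118e_pr.Win

open Finset Real
open scoped Classical

variable {d : ℕ}

/-- the environment -/
noncomputable def rdE (l e1 r : ℝ) (k : Fin d) (v : V d) (s : Finset (V d)) : ℝ :=
  if v ∉ s ∧ nb k v ∉ s then eR l e1 r v s else 0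

theorem rd_eR_nonneg (l e1 r : ℝ) (v : V d) (s : Finset (V d)) : 0 ≤ eR l e1 r v s := by
  unfold eR
  split_ifs
  · exact (exp_pos _).le
  · exact le_rfl

theorem rd_eR_le_one {l e1 : ℝ} (hl : 0 ≤ l) (he1 : 0 ≤ e1) (r : ℝ) (v : V d)
    (s : Finset (V d)) : eR l e1 r v s ≤ 1 := by
  unfold eR
  split_ifs
  · rw [exp_le_one_iff]
    have : 0 ≤ e1 * (l * (Fr s v : ℝ)) := by positivity
    linarith
  · exact zero_le_one

theorem rdE_nonneg (l e1 r : ℝ) (k : Fin d) (v : V d) (s : Finset (V d)) :
    0 ≤ rdE l e1 r k v s := by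
  unfold rdE
  split_ifs
  · exact rd_eR_nonneg _ _ _ _ _
  · exact le_rfl

theorem rdE_le_one {l e1 : ℝ} (hl : 0 ≤ l) (he1 : 0 ≤ e1) (r : ℝ) (k : Fin d) (v : V d)
    (s : Finset (V d)) : rdE l e1 r k v s ≤ 1 := by
  unfold rdE
  split_ifs
  · exact rd_eR_le_one hl he1 _ _ _
  · exact zero_le_one

theorem rdE_le (l e1 r : ℝ) (k : Fin d) (v : V d) (s : Finset (V d)) :
    rdE l e1 r k v s ≤ eR l e1 r v s := by
  unfold rdE
  split_ifs
  · exact le_rfl
  · exact rd_eR_nonneg _ _ _ _ _

/-- `Rw` as a sum of environments -/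
theorem rd_Rw (l e1 r : ℝ) (s : Finset (V d)) : Rw l e1 r s = ∑ v : V d, eR l e1 r v s := by
  unfold Rw eR
  rw [sum_filter]

/-- the left side as a sum over vertices and directions -/
theorem rd_lhs (l e1 r : ℝ) (b0 : ℕ) (s t : Finset (V d)) :
    ∑ v ∈ univ.filter (Rp l r s),
      exp (-(e1 * (l * (Fr s v : ℝ)))) * ∑ k ∈ univ.filter (fun k => v ∉ s ∧ nb k v ∉ s),
        (na b0 k s t v : ℝ) =
    ∑ k : Fin d, ∑ v : V d, rdE l e1 r k v s * (na b0 k s t v : ℝ) := by
  rw [sum_comm, sum_filter]
  apply sum_congr rfl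
  intro v _
  by_cases h : Rp l r s v
  · rw [if_pos h, mul_sum, sum_filter]
    apply sum_congr rfl
    intro k _
    unfold rdE eR
    by_cases h2 : v ∉ s ∧ nb k v ∉ s
    · rw [if_pos h2, if_pos h2, if_pos h]
    · rw [if_neg h2, if_neg h2, zero_mul]
  · rw [if_neg h]
    symm
    apply sum_eq_zero
    intro k _
    unfold rdE eR
    rw [if_neg h, ite_self, zero_mul]

/-- number of particles adjacent to `v` with many particles around, by directions -/
theorem rd_third (n : ℕ) (k : Fin d) (s : Finset (V d)) (v : V d) :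
    ((s.filter fun q => adjk k v q ∧ n < nOcc s (nb k q)).card : ℝ) ≤
      ∑ j : Fin d, if n < nOcc s (nb j v) then (1 : ℝ) else 0 := by
  rw [← lemD_card_eq]
  have h : (s.filter fun q => adjk k v q ∧ n < nOcc s (nb k q)) ⊆
      (univ.filter fun j => n < nOcc s (nb j v)).image fun j => nb j (nb k v) := by
    intro q hq
    rw [mem_filter] at hq
    obtain ⟨_, ⟨j, _, rfl⟩, h2⟩ := hq
    rw [mem_image]
    refine ⟨j, mem_filter.2 ⟨mem_univ _, ?_⟩, rfl⟩
    rwa [nb_comm k j (nb k v), nb_nb] at h2
  exact_mod_cast (card_le_card h).trans card_image_le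

theorem rd {T l K C2 C6 e1 r r' m0 E : ℝ} (hl : 0 < l)
    (hl1 : l ≤ 1 / 100) (hK : 1 ≤ K) (hth : th K ≤ 1 / 4) (x : ℝ) (n m b b0 : ℕ) (hn : 1 ≤ n)
    (hnK : 10 * l * n ≤ K) (hC2 : 32 * K + 16 ≤ C2) (hm2 : (m : ℝ) ≤ (C2 / l) ^ 2 / 200)
    (he1 : 0 ≤ e1) (hen : exp (2 * e1 * l * n) ≤ 2) (hr : r' ≤ r - 2 * l * b)
    (hb : l * d * n ≤ b) (hb2 : 2 * l * d ≤ b)
    (hE0 : 0 ≤ E) (hE : ∀ v : V d, avU l (x - n)
      (fun s => if Exc T l C2 C6 m0 n s v then (1 : ℝ) else 0) ≤ E) (hm : n * b0 + 1 ≤ m) :
    avM (d := d) l x (fun s t => ∑ v ∈ univ.filter (Rp l r s),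
      exp (-(e1 * (l * (Fr s v : ℝ)))) * ∑ k ∈ univ.filter (fun k => v ∉ s ∧ nb k v ∉ s),
        (na b0 k s t v : ℝ)) ≤
    2 * d * (1 + 10 * th K) * avU (d := d) l (x - n) (fun s => Rw l e1 r' s) +
    4 * d * ∑ k : Fin d, avU l x (fun s => (PNn T l C2 k s : ℝ)) +
    2 * d * ∑ k : Fin d, avM l x (fun s t => (XCg T l K n k m s t : ℝ)) +
    (2 * l + 1) * d ^ 2 * 2 ^ d * E := by
  have hth0 := lemD_th_nonneg K
  have hxn : x - n ≤ x := by
    have : (0 : ℝ) ≤ n := by positivity
    linarith
  simp only [rd_lhs]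
  rw [avM_sum]
  simp only [avM_sum]
  -- pointwise application of lemD
  have key : ∀ k : Fin d, ∀ v : V d,
      avM l x (fun s t => rdE l e1 r k v s * (na b0 k s t v : ℝ)) ≤
      2 * avU l (x - n) (fun s => eR l e1 r' v s) +
      2 * l * d * E +
      d * E +
      (2 * avM l x (fun s t => (NRn T l K k m s t v : ℝ)) +
        2 * avM l x (fun s t => (XCn T l K n k m s t v : ℝ))) +
      8 * l * th K * avU l (x - n) (fun s => eR l e1 r' v s * poti T l k s v) := by
    intro k v
    have h1 := lemD (x := x) (T := T) hl hl1 hK hth k v n m b b0 hn hnK hm ∅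
      (rdE l e1 r k v) (fun s => 2 * eR l e1 r' v s)
      (rdE_nonneg l e1 r k v) (fun s => mul_nonneg (by norm_num) (rd_eR_nonneg _ _ _ _ _))
      (fun s => by
        have := rd_eR_le_one hl.le he1 r' v s
        linarith)
      (by
        intro s hs C hC S hCp hSp hCc hSc hdis hOm
        have h2 := stab_eR hl.le he1 (par v) v n b hr s hs C hC S hCp hSp hCc hSc hdis hOm
        refine (rdE_le l e1 r k v s).trans (h2.trans ?_)
        exact mul_le_mul_of_nonneg_right hen (rd_eR_nonneg _ _ _ _ _))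
      (by
        intro s _ _ r _ _
        rw [filter_empty, card_empty]
        exact Nat.zero_le _)
      (by
        intro s _ hne
        by_contra hcon
        apply hne
        unfold rdE
        rw [if_neg hcon])
      hb
    refine h1.trans ?_
    have t1 : avU l (x - n) (fun s => 2 * eR l e1 r' v s) =
        2 * avU l (x - n) (fun s => eR l e1 r' v s) := avU_mul _ _ _ _
    have t2 : 2 * l * d * avU l (x - n) (fun s => if Ct T l s (nb k v) then (1 : ℝ) else 0) ≤
        2 * l * d * E := by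
      apply mul_le_mul_of_nonneg_left _ (by positivity)
      refine le_trans (avU_mono hl.le ?_) (hE (nb k v))
      intro s _
      by_cases h : Ct T l s (nb k v)
      · have h' : Exc T l C2 C6 m0 n s (nb k v) := by
          unfold Exc; tauto
        rw [if_pos h, if_pos h']
      · rw [if_neg h]
        split_ifs <;> norm_num
    have t3 : avU l x (fun s => rdE l e1 r k v s *
        ((s.filter fun q => adjk k v q ∧ n < nOcc s (nb k q)).card : ℝ)) ≤ d * E := by
      have t4 : avU l x (fun s => rdE l e1 r k v s *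
          ((s.filter fun q => adjk k v q ∧ n < nOcc s (nb k q)).card : ℝ)) ≤
          avU l x (fun s => ∑ j : Fin d, if n < nOcc s (nb j v) then (1 : ℝ) else 0) := by
        apply avU_mono hl.le
        intro s _
        refine le_trans ?_ (rd_third n k s v)
        have := rdE_le_one hl.le he1 r k v s
        exact mul_le_of_le_one_left (by positivity) this
      refine t4.trans ?_
      rw [avU_sum]
      have t5 : ∀ j ∈ (univ : Finset (Fin d)),
          avU l x (fun s => if n < nOcc s (nb j v) then (1 : ℝ) else 0) ≤ E := by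
        intro j _
        refine le_trans (avU_anti hl.le hxn ?_) (le_trans (avU_mono hl.le ?_) (hE (nb j v)))
        · intro s _
          split_ifs <;> norm_num
        · intro s _
          by_cases h : n < nOcc s (nb j v)
          · have h' : Exc T l C2 C6 m0 n s (nb j v) := by
              unfold Exc; tauto
            rw [if_pos h, if_pos h']
          · rw [if_neg h]
            split_ifs <;> norm_num
      refine (sum_le_sum t5).trans ?_
      rw [sum_const, card_univ, Fintype.card_fin, nsmul_eq_mul]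
    have t6 : avM l x (fun s t => rdE l e1 r k v s *
        ((NRn T l K k m s t v : ℝ) + (XCn T l K n k m s t v : ℝ))) ≤
        avM l x (fun s t => (NRn T l K k m s t v : ℝ)) +
        avM l x (fun s t => (XCn T l K n k m s t v : ℝ)) := by
      rw [← avM_add]
      apply avM_mono hl.le
      intro s _ t _
      exact mul_le_of_le_one_left (by positivity) (rdE_le_one hl.le he1 r k v s)
    have t7 : avU l (x - n) (fun s => 2 * eR l e1 r' v s * poti T l k s v) =
        2 * avU l (x - n) (fun s => eR l e1 r' v s * poti T l k s v) := by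
      rw [← avU_mul]
      simp only [mul_assoc]
    rw [t1, t7]
    have t8 : 4 * l * th K * (2 * avU l (x - n) (fun s => eR l e1 r' v s * poti T l k s v)) =
        8 * l * th K * avU l (x - n) (fun s => eR l e1 r' v s * poti T l k s v) := by ring
    rw [t8]
    linarith
  -- summation
  have hsum : ∑ k : Fin d, ∑ v : V d,
      avM l x (fun s t => rdE l e1 r k v s * (na b0 k s t v : ℝ)) ≤
      ∑ k : Fin d, ∑ v : V d, (2 * avU l (x - n) (fun s => eR l e1 r' v s) +
      2 * l * d * E +
      d * E +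
      (2 * avM l x (fun s t => (NRn T l K k m s t v : ℝ)) +
        2 * avM l x (fun s t => (XCn T l K n k m s t v : ℝ))) +
      8 * l * th K * avU l (x - n) (fun s => eR l e1 r' v s * poti T l k s v)) :=
    sum_le_sum fun k _ => sum_le_sum fun v _ => key k v
  refine hsum.trans ?_
  simp only [sum_add_distrib]
  have s1 : ∑ k : Fin d, ∑ v : V d, 2 * avU l (x - n) (fun s => eR l e1 r' v s) =
      2 * d * avU (d := d) l (x - n) (fun s => Rw l e1 r' s) := by
    simp only [rd_Rw]
    rw [avU_sum]
    simp only [← mul_sum]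
    rw [sum_const, card_univ, Fintype.card_fin, nsmul_eq_mul]
    ring
  have s2 : ∑ _k : Fin d, ∑ _v : V d, 2 * l * d * E = 2 * l * d ^ 2 * 2 ^ d * E := by
    rw [sum_const, sum_const, card_univ, card_univ, card_V, Fintype.card_fin, nsmul_eq_mul,
      nsmul_eq_mul]
    push_cast
    ring
  have s3 : ∑ _k : Fin d, ∑ _v : V d, (d : ℝ) * E = d ^ 2 * 2 ^ d * E := by
    rw [sum_const, sum_const, card_univ, card_univ, card_V, Fintype.card_fin, nsmul_eq_mul,
      nsmul_eq_mul]
    push_cast
    ring
  have s4 : ∑ k : Fin d, ∑ v : V d, 2 * avM l x (fun s t => (NRn T l K k m s t v : ℝ)) ≤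
      4 * d * ∑ k : Fin d, avU l x (fun s => (PNn T l C2 k s : ℝ)) := by
    rw [mul_sum]
    apply sum_le_sum
    intro k _
    rw [← mul_sum, ← avM_sum]
    have : avM l x (fun s t => ∑ v : V d, (NRn T l K k m s t v : ℝ)) ≤
        avM l x (fun s _ => 2 * d * (PNn T l C2 k s : ℝ)) := by
      apply avM_mono hl.le
      intro s hs t hts
      have a1 := sum_NRn_le T l K k m s t
      have a2 := nrpn (T := T) hl (by linarith) hK hC2 k m hm2 (Bx_sub_Om x hs) hts
      have a3 : ∑ v : V d, NRn T l K k m s t v ≤ d * (2 * PNn T l C2 k s) :=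
        a1.trans (Nat.mul_le_mul_left _ a2)
      have a4 : ((∑ v : V d, NRn T l K k m s t v : ℕ) : ℝ) ≤ ((d * (2 * PNn T l C2 k s) : ℕ) : ℝ) := by
        exact_mod_cast a3
      push_cast at a4
      linarith
    rw [avM_const, avU_mul] at this
    linarith
  have s5 : ∑ k : Fin d, ∑ v : V d, 2 * avM l x (fun s t => (XCn T l K n k m s t v : ℝ)) ≤
      2 * d * ∑ k : Fin d, avM l x (fun s t => (XCg T l K n k m s t : ℝ)) := by
    rw [mul_sum]
    apply sum_le_sum
    intro k _
    rw [← mul_sum, ← avM_sum]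
    have : avM l x (fun s t => ∑ v : V d, (XCn T l K n k m s t v : ℝ)) ≤
        avM l x (fun s t => d * (XCg T l K n k m s t : ℝ)) := by
      apply avM_mono hl.le
      intro s _ t _
      have a1 := sum_XCn_le T l K n k m s t
      have a4 : ((∑ v : V d, XCn T l K n k m s t v : ℕ) : ℝ) ≤ ((d * XCg T l K n k m s t : ℕ) : ℝ) := by
        exact_mod_cast a1
      push_cast at a4
      exact a4
    rw [avM_mul] at this
    linarith
  have s6 : ∑ k : Fin d, ∑ v : V d, 8 * l * th K *
      avU l (x - n) (fun s => eR l e1 r' v s * poti T l k s v) ≤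
      20 * d * th K * avU (d := d) l (x - n) (fun s => Rw l e1 r' s) := by
    simp only [rd_Rw]
    rw [avU_sum, sum_comm, mul_sum]
    apply sum_le_sum
    intro v _
    have : ∑ k : Fin d, 8 * l * th K *
        avU l (x - n) (fun s => eR l e1 r' v s * poti T l k s v) =
        8 * th K * avU l (x - n) (fun s => ∑ k : Fin d, eR l e1 r' v s * (l * poti T l k s v)) := by
      rw [avU_sum, mul_sum]
      apply sum_congr rfl
      intro k _
      have : avU l (x - n) (fun s => eR l e1 r' v s * (l * poti T l k s v)) =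
          l * avU l (x - n) (fun s => eR l e1 r' v s * poti T l k s v) := by
        rw [← avU_mul]
        unfold avU
        apply sum_congr rfl
        intro s _
        ring
      rw [this]
      ring
    rw [this]
    have h2 : avU l (x - n) (fun s => ∑ k : Fin d, eR l e1 r' v s * (l * poti T l k s v)) ≤
        5 / 2 * d * avU l (x - n) (fun s => eR l e1 r' v s) := by
      rw [← avU_mul]
      apply avU_mono hl.le
      intro s _
      rw [← mul_sum]
      have h3 := sum_poti_le T hl s v
      have h4 := mul_le_mul_of_nonneg_left h3 (rd_eR_nonneg l e1 r' v s)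
      linarith
    have h3 := mul_le_mul_of_nonneg_left h2 (by positivity : 0 ≤ 8 * th K)
    linarith
  rw [s1, s2, s3]
  have s7 : 2 * d * (1 + 10 * th K) * avU (d := d) l (x - n) (fun s => Rw l e1 r' s) =
      2 * d * avU (d := d) l (x - n) (fun s => Rw l e1 r' s) +
      20 * d * th K * avU (d := d) l (x - n) (fun s => Rw l e1 r' s) := by ring
  have s8 : (2 * l + 1) * d ^ 2 * 2 ^ d * E = 2 * l * d ^ 2 * 2 ^ d * E + d ^ 2 * 2 ^ d * E := by
    ring
  rw [s7, s8]
  linarith

end Pool.Agent.Lib.MP_c6118e_pr.Win
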