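import Pool.Agent.Lib.MP_c6118e_pr.Win.FR
import Pool.Agent.Lib.MP_c6118e_pr.Win.LEMB
import Pool.Agent.Lib.MP_c6118e_pr.Win.NRPN
import Pool.Agent.Lib.MP_c6118e_pr.Win.ENVR
import Pool.Agent.Lib.MP_c6118e_pr.Win.CNT
import Pool.Agent.Lib.MP_c6118e_pr.Win.RD

/-! # RBC: R vertices without Lk particle -/

namespace Pool.Agent.Lib.MP_c6118e_pr.Win

open Finset Real
open scoped Classical

variable {d : ℕ}

/-- the summand -/
noncomputable def RBC_G (l e1 r C4 : ℝ) (b0 : ℕ) (k : Fin d) (v u : V d)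
    (s t : Finset (V d)) : ℝ :=
  if C4 ≤ l * (Fr s (nb k u) : ℝ) ∧ ¬ bT b0 k t u then rdE l e1 r k v s else 0

/-- one pair -/
theorem RBC_one {T l K C2 C6 C4 e1 r r' m0 E : ℝ} (hl : 0 < l)
    (hl1 : l ≤ 1 / 100) (hK : 1 ≤ K) (hth : th K ≤ 1 / 4) (x : ℝ) (n m b b0 : ℕ) (hn : 1 ≤ n)
    (hnK : 10 * l * n ≤ K)
    (he1 : 0 ≤ e1) (hen : exp (2 * e1 * l * n) ≤ 2) (hr : r' ≤ r - 2 * l * b)
    (hb : l * d * n ≤ b) (hb2 : 2 * l * d ≤ b)
    (hE : ∀ v : V d, avU l (x - n)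
      (fun s => if Exc T l C2 C6 m0 n s v then (1 : ℝ) else 0) ≤ E) (hb0 : b0 ≤ m + 1)
    (hC4 : 17 ≤ C4) (k : Fin d) (v u : V d) (hu : u = v ∨ u = nb k v) :
    avM l x (fun s t => RBC_G l e1 r C4 b0 k v u s t) ≤ E +
      (3 * exp (-(7 / 25 * (C4 - 1))) + 20 * th K) *
        (2 * avU l (x - n) (fun s => eR l e1 r' v s)) +
      16 / (C4 - 1) * avM l x (fun s t => (NRn T l K k m s t u : ℝ)) +
      avM l x (fun s t => (XCn T l K n k m s t u : ℝ)) := by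
  have hC41 : 0 < C4 - 1 := by linarith
  have h1 := lemB (T := T) (x := x) hl hl1 hK hth k u n m b b0 hn hnK hb0 ∅
    (rdE l e1 r k v) (fun s => 2 * eR l e1 r' v s)
    (rdE_nonneg l e1 r k v) (fun s => mul_nonneg (by norm_num) (rd_eR_nonneg _ _ _ _ _))
    (by
      intro s hs C hC S hCp hSp hCc hSc hdis hOm
      have h2 := stab_eR hl.le he1 (par u) v n b hr s hs C hC S hCp hSp hCc hSc hdis hOm
      refine (rdE_le l e1 r k v s).trans (h2.trans ?_)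
      exact mul_le_mul_of_nonneg_right hen (rd_eR_nonneg _ _ _ _ _))
    (by
      intro s _ _ r _ _
      rw [filter_empty, card_empty]
      exact Nat.zero_le _)
    (by
      rw [filter_empty, card_empty]
      exact Nat.zero_le _)
    (by
      intro s _ hne
      have hcon : v ∉ s ∧ nb k v ∉ s := by
        by_contra hcon
        apply hne
        unfold rdE
        rw [if_neg hcon]
      rcases hu with rfl | rfl
      · exact hcon
      · rw [nb_nb]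
        exact ⟨hcon.2, hcon.1⟩)
    hb hb2 C4 hC4
  have h2 : avM l x (fun s t => RBC_G l e1 r C4 b0 k v u s t) ≤
      avM l x (fun s t => (if Exc T l C2 C6 m0 n s (nb k u) then (1 : ℝ) else 0) +
        (if C4 ≤ l * (Fr s (nb k u) : ℝ) ∧ ¬ Ct T l s (nb k u) ∧
        nOcc s (nb k u) ≤ n ∧ ¬ bT b0 k t u then rdE l e1 r k v s else 0)) := by
    apply avM_mono hl.le
    intro s _ t _
    have e0 := rdE_nonneg l e1 r k v s
    have e2 := rdE_le_one hl.le he1 r k v s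
    have n1 : (0 : ℝ) ≤ if Exc T l C2 C6 m0 n s (nb k u) then (1 : ℝ) else 0 := by
      split_ifs <;> norm_num
    have n2 : (0 : ℝ) ≤ (if C4 ≤ l * (Fr s (nb k u) : ℝ) ∧ ¬ Ct T l s (nb k u) ∧
        nOcc s (nb k u) ≤ n ∧ ¬ bT b0 k t u then rdE l e1 r k v s else 0) := by
      split_ifs
      · exact e0
      · exact le_rfl
    unfold RBC_G
    by_cases hc : C4 ≤ l * (Fr s (nb k u) : ℝ) ∧ ¬ bT b0 k t u
    · rw [if_pos hc]
      by_cases hx : Exc T l C2 C6 m0 n s (nb k u)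
      · rw [if_pos hx]
        linarith
      · rw [if_neg hx]
        have hx' := hx
        unfold Exc at hx'
        push Not at hx'
        rw [if_pos ⟨hc.1, hx'.2.2.2.2, hx'.1, hc.2⟩]
        linarith
    · rw [if_neg hc]
      linarith
  refine h2.trans ?_
  rw [avM_add]
  have h3 : avM l x (fun s _ => if Exc T l C2 C6 m0 n s (nb k u) then (1 : ℝ) else 0) ≤ E := by
    rw [avM_const]
    refine le_trans (avU_anti hl.le (sub_le_self x (Nat.cast_nonneg n)) ?_) (hE (nb k u))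
    intro s _
    split_ifs <;> norm_num
  have h4 : avU l (x - n) (fun s => 2 * eR l e1 r' v s) =
      2 * avU l (x - n) (fun s => eR l e1 r' v s) := avU_mul _ _ _ _
  rw [h4] at h1
  have h5 : avM l x (fun s t => rdE l e1 r k v s * (NRn T l K k m s t u : ℝ)) ≤
      avM l x (fun s t => (NRn T l K k m s t u : ℝ)) := by
    apply avM_mono hl.le
    intro s _ t _
    exact mul_le_of_le_one_left (by positivity) (rdE_le_one hl.le he1 r k v s)
  have h6 : avM l x (fun s t => rdE l e1 r k v s * (XCn T l K n k m s t u : ℝ)) ≤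
      avM l x (fun s t => (XCn T l K n k m s t u : ℝ)) := by
    apply avM_mono hl.le
    intro s _ t _
    exact mul_le_of_le_one_left (by positivity) (rdE_le_one hl.le he1 r k v s)
  have h7 : 16 / (C4 - 1) * avM l x (fun s t => rdE l e1 r k v s *
      (NRn T l K k m s t u : ℝ)) ≤
      16 / (C4 - 1) * avM l x (fun s t => (NRn T l K k m s t u : ℝ)) :=
    mul_le_mul_of_nonneg_left h5 (by positivity)
  linarith

/-- all pairs -/
theorem RBC_main {T l K C2 C6 C4 e1 r r' m0 E : ℝ} (hl : 0 < l)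
    (hl1 : l ≤ 1 / 100) (hK : 1 ≤ K) (hth : th K ≤ 1 / 4) (x : ℝ) (n m b b0 : ℕ) (hn : 1 ≤ n)
    (hnK : 10 * l * n ≤ K) (hC2 : 32 * K + 16 ≤ C2) (hm2 : (m : ℝ) ≤ (C2 / l) ^ 2 / 200)
    (he1 : 0 ≤ e1) (hen : exp (2 * e1 * l * n) ≤ 2) (hr : r' ≤ r - 2 * l * b)
    (hb : l * d * n ≤ b) (hb2 : 2 * l * d ≤ b)
    (hE : ∀ v : V d, avU l (x - n)
      (fun s => if Exc T l C2 C6 m0 n s v then (1 : ℝ) else 0) ≤ E) (hb0 : b0 ≤ m + 1)
    (hC4 : 17 ≤ C4) (f : Fin d → V d → V d) (hf : ∀ k, Function.Bijective (f k))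
    (hf2 : ∀ k v, f k v = v ∨ f k v = nb k v) :
    ∑ k : Fin d, ∑ v : V d, avM l x (fun s t => RBC_G l e1 r C4 b0 k v (f k v) s t) ≤
    2 * d * (3 * exp (-(7 / 25 * (C4 - 1))) + 20 * th K) *
      avU (d := d) l (x - n) (fun s => Rw l e1 r' s) +
    32 / (C4 - 1) * d * ∑ k : Fin d, avU l x (fun s => (PNn T l C2 k s : ℝ)) +
    d * ∑ k : Fin d, avM l x (fun s t => (XCg T l K n k m s t : ℝ)) +
    d * 2 ^ d * E := by
  have hC41 : 0 < C4 - 1 := by linarith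
  refine (sum_le_sum fun k _ => sum_le_sum fun v _ =>
    RBC_one (T := T) hl hl1 hK hth x n m b b0 hn hnK he1 hen hr hb hb2 hE hb0 hC4 k v (f k v)
      (hf2 k v)).trans ?_
  simp only [sum_add_distrib]
  have s1 : ∑ _k : Fin d, ∑ _v : V d, E = d * 2 ^ d * E := by
    rw [sum_const, sum_const, card_univ, card_univ, card_V, Fintype.card_fin, nsmul_eq_mul,
      nsmul_eq_mul]
    push_cast
    ring
  have s2 : ∑ _k : Fin d, ∑ v : V d, (3 * exp (-(7 / 25 * (C4 - 1))) + 20 * th K) *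
      (2 * avU l (x - n) (fun s => eR l e1 r' v s)) =
      2 * d * (3 * exp (-(7 / 25 * (C4 - 1))) + 20 * th K) *
      avU (d := d) l (x - n) (fun s => Rw l e1 r' s) := by
    simp only [rd_Rw]
    rw [avU_sum]
    simp only [← mul_sum]
    rw [sum_const, card_univ, Fintype.card_fin, nsmul_eq_mul]
    ring
  have s3 : ∑ k : Fin d, ∑ v : V d, 16 / (C4 - 1) *
      avM l x (fun s t => (NRn T l K k m s t (f k v) : ℝ)) ≤
      32 / (C4 - 1) * d * ∑ k : Fin d, avU l x (fun s => (PNn T l C2 k s : ℝ)) := by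
    rw [mul_sum]
    apply sum_le_sum
    intro k _
    rw [← mul_sum, ← avM_sum]
    have h1 : avM l x (fun s t => ∑ v : V d, (NRn T l K k m s t (f k v) : ℝ)) ≤
        avM l x (fun s _ => 2 * d * (PNn T l C2 k s : ℝ)) := by
      apply avM_mono hl.le
      intro s hs t hts
      have a0 : ∑ v : V d, (NRn T l K k m s t (f k v) : ℝ) =
          ∑ v : V d, (NRn T l K k m s t v : ℝ) :=
        Function.Bijective.sum_comp (hf k) fun v => (NRn T l K k m s t v : ℝ)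
      have a1 := sum_NRn_le T l K k m s t
      have a2 := nrpn (T := T) hl (by linarith) hK hC2 k m hm2 (Bx_sub_Om x hs) hts
      have a3 : ∑ v : V d, NRn T l K k m s t v ≤ d * (2 * PNn T l C2 k s) :=
        a1.trans (Nat.mul_le_mul_left _ a2)
      have a4 : ((∑ v : V d, NRn T l K k m s t v : ℕ) : ℝ) ≤
          ((d * (2 * PNn T l C2 k s) : ℕ) : ℝ) := by
        exact_mod_cast a3
      push_cast at a4
      rw [a0]
      linarith
    rw [avM_const, avU_mul] at h1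
    have h2 := mul_le_mul_of_nonneg_left h1 (by positivity : (0 : ℝ) ≤ 16 / (C4 - 1))
    have h3 : 16 / (C4 - 1) * (2 * d * avU l x (fun s => (PNn T l C2 k s : ℝ))) =
        32 / (C4 - 1) * d * avU l x (fun s => (PNn T l C2 k s : ℝ)) := by ring
    linarith
  have s4 : ∑ k : Fin d, ∑ v : V d, avM l x (fun s t => (XCn T l K n k m s t (f k v) : ℝ)) ≤
      d * ∑ k : Fin d, avM l x (fun s t => (XCg T l K n k m s t : ℝ)) := by
    rw [mul_sum]
    apply sum_le_sum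
    intro k _
    rw [← avM_sum, ← avM_mul]
    apply avM_mono hl.le
    intro s _ t _
    have a0 : ∑ v : V d, (XCn T l K n k m s t (f k v) : ℝ) =
        ∑ v : V d, (XCn T l K n k m s t v : ℝ) :=
      Function.Bijective.sum_comp (hf k) fun v => (XCn T l K n k m s t v : ℝ)
    rw [a0]
    exact_mod_cast sum_XCn_le T l K n k m s t
  rw [s1, s2]
  linarith

/-- the left sides -/
theorem RBC_lhs {l e1 r C4 : ℝ} (b0 : ℕ) (f : Fin d → V d → V d) (s t : Finset (V d))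
    (Q : Fin d → V d → Prop) [∀ k v, Decidable (Q k v)]
    (hQ : ∀ k v, Rp l r s v → Q k v → v ∉ s ∧ nb k v ∉ s ∧
      C4 ≤ l * (Fr s (nb k (f k v)) : ℝ) ∧ ¬ bT b0 k t (f k v)) :
    ∑ v ∈ univ.filter (Rp l r s),
      exp (-(e1 * (l * (Fr s v : ℝ)))) * ((univ.filter fun k => Q k v).card : ℝ) ≤
    ∑ k : Fin d, ∑ v : V d, RBC_G l e1 r C4 b0 k v (f k v) s t := by
  have hG : ∀ k v, 0 ≤ RBC_G l e1 r C4 b0 k v (f k v) s t := by
    intro k v
    unfold RBC_G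
    split_ifs
    · exact rdE_nonneg _ _ _ _ _ _
    · exact le_rfl
  rw [sum_comm, sum_filter]
  refine sum_le_sum fun v _ => ?_
  by_cases hv : Rp l r s v
  · rw [if_pos hv, card_filter, Nat.cast_sum, mul_sum]
    refine sum_le_sum fun k _ => ?_
    by_cases hk : Q k v
    · rw [if_pos hk]
      obtain ⟨h1, h2, h3, h4⟩ := hQ k v hv hk
      unfold RBC_G rdE eR
      rw [if_pos ⟨h3, h4⟩, if_pos ⟨h1, h2⟩, if_pos hv]
      simp
    · rw [if_neg hk]
      simp only [Nat.cast_zero, mul_zero]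
      exact hG k v
  · rw [if_neg hv]
    exact sum_nonneg fun k _ => hG k v

/-- the side of the vertex -/
theorem rb {T l K C2 C6 C4 e1 r r' m0 E : ℝ} (hl : 0 < l)
    (hl1 : l ≤ 1 / 100) (hK : 1 ≤ K) (hth : th K ≤ 1 / 4) (x : ℝ) (n m b b0 : ℕ) (hn : 1 ≤ n)
    (hnK : 10 * l * n ≤ K) (hC2 : 32 * K + 16 ≤ C2) (hm2 : (m : ℝ) ≤ (C2 / l) ^ 2 / 200)
    (he1 : 0 ≤ e1) (hen : exp (2 * e1 * l * n) ≤ 2) (hr : r' ≤ r - 2 * l * b)
    (hb : l * d * n ≤ b) (hb2 : 2 * l * d ≤ b)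
    (hE0 : 0 ≤ E) (hE : ∀ v : V d, avU l (x - n)
      (fun s => if Exc T l C2 C6 m0 n s v then (1 : ℝ) else 0) ≤ E) (hb0 : b0 ≤ m + 1) (hC4 : 17 ≤ C4) (hrC : C4 ≤ r) :
    avM (d := d) l x (fun s t => ∑ v ∈ univ.filter (Rp l r s),
      exp (-(e1 * (l * (Fr s v : ℝ)))) * ((univ.filter fun k => v ∉ s ∧ nb k v ∉ s ∧
        r ≤ l * (Fr s (nb k v) : ℝ) ∧ ¬ bT b0 k t v).card : ℝ)) ≤
    2 * d * (3 * exp (-(7 / 25 * (C4 - 1))) + 20 * th K) *
      avU (d := d) l (x - n) (fun s => Rw l e1 r' s) +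
    32 / (C4 - 1) * d * ∑ k : Fin d, avU l x (fun s => (PNn T l C2 k s : ℝ)) +
    d * ∑ k : Fin d, avM l x (fun s t => (XCg T l K n k m s t : ℝ)) +
    d * 2 ^ d * E := by
  have _ := hE0
  refine le_trans ?_ (RBC_main (T := T) hl hl1 hK hth x n m b b0 hn hnK hC2 hm2 he1 hen hr hb hb2
    hE hb0 hC4 (fun _ v => v) (fun _ => Function.bijective_id) fun _ v => Or.inl rfl)
  simp only [← avM_sum]
  apply avM_mono hl.le
  intro s _ t _
  refine RBC_lhs (C4 := C4) b0 (fun _ v => v) s t (fun k v => v ∉ s ∧ nb k v ∉ s ∧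
        r ≤ l * (Fr s (nb k v) : ℝ) ∧ ¬ bT b0 k t v) ?_
  rintro k v _ ⟨h1, h2, h3, h4⟩
  exact ⟨h1, h2, hrC.trans h3, h4⟩

/-- the side of the neighbour -/
theorem rc {T l K C2 C6 C4 e1 r r' m0 E : ℝ} (hl : 0 < l)
    (hl1 : l ≤ 1 / 100) (hK : 1 ≤ K) (hth : th K ≤ 1 / 4) (x : ℝ) (n m b b0 : ℕ) (hn : 1 ≤ n)
    (hnK : 10 * l * n ≤ K) (hC2 : 32 * K + 16 ≤ C2) (hm2 : (m : ℝ) ≤ (C2 / l) ^ 2 / 200)
    (he1 : 0 ≤ e1) (hen : exp (2 * e1 * l * n) ≤ 2) (hr : r' ≤ r - 2 * l * b)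
    (hb : l * d * n ≤ b) (hb2 : 2 * l * d ≤ b)
    (hE0 : 0 ≤ E) (hE : ∀ v : V d, avU l (x - n)
      (fun s => if Exc T l C2 C6 m0 n s v then (1 : ℝ) else 0) ≤ E) (hb0 : b0 ≤ m + 1) (hC4 : 17 ≤ C4) (hrC : C4 ≤ r) :
    avM (d := d) l x (fun s t => ∑ v ∈ univ.filter (Rp l r s),
      exp (-(e1 * (l * (Fr s v : ℝ)))) * ((univ.filter fun k => v ∉ s ∧ nb k v ∉ s ∧
        ¬ bT b0 k t (nb k v)).card : ℝ)) ≤
    2 * d * (3 * exp (-(7 / 25 * (C4 - 1))) + 20 * th K) *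
      avU (d := d) l (x - n) (fun s => Rw l e1 r' s) +
    32 / (C4 - 1) * d * ∑ k : Fin d, avU l x (fun s => (PNn T l C2 k s : ℝ)) +
    d * ∑ k : Fin d, avM l x (fun s t => (XCg T l K n k m s t : ℝ)) +
    d * 2 ^ d * E := by
  have _ := hE0
  refine le_trans ?_ (RBC_main (T := T) hl hl1 hK hth x n m b b0 hn hnK hC2 hm2 he1 hen hr hb hb2
    hE hb0 hC4 (fun k v => nb k v) (fun k => nb_bijective k) fun _ v => Or.inr rfl)
  simp only [← avM_sum]
  apply avM_mono hl.le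
  intro s _ t _
  refine RBC_lhs (C4 := C4) b0 (fun k v => nb k v) s t (fun k v => v ∉ s ∧ nb k v ∉ s ∧
        ¬ bT b0 k t (nb k v)) ?_
  rintro k v h0 ⟨h1, h2, h4⟩
  refine ⟨h1, h2, ?_, h4⟩
  rw [nb_nb]
  exact hrC.trans h0.1

end Pool.Agent.Lib.MP_c6118e_pr.Win
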