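import Pool.Agent.Lib.MP_c6118e_pr.Win.FR
import Pool.Agent.Lib.MP_c6118e_pr.Win.LEMD
import Pool.Agent.Lib.MP_c6118e_pr.Win.NRPN
import Pool.Agent.Lib.MP_c6118e_pr.Win.ENVR
import Pool.Agent.Lib.MP_c6118e_pr.Win.CNT

/-! # RE: nonattached particles next to neighbours of R vertices -/

namespace Pool.Agent.Lib.MP_c6118e_pr.Win

open Finset Real
open scoped Classical

variable {d : ℕ}

/-- the environment -/
noncomputable def RE_e (l e1 r : ℝ) (k : Fin d) (v : V d) (s : Finset (V d)) : ℝ :=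
  if v ∉ s ∧ nb k v ∉ s then eR l e1 r v s / (l * (Fr s v : ℝ)) else 0

/-- the dominating environment -/
noncomputable def RE_e' (l e1 r : ℝ) (v : V d) (s : Finset (V d)) : ℝ :=
  2 * (eR l e1 r v s / (l * (Fr s v : ℝ)))

theorem RE_eR_nonneg (l e1 r : ℝ) (v : V d) (s : Finset (V d)) : 0 ≤ eR l e1 r v s := by
  unfold eR; split_ifs <;> positivity

theorem RE_eR_le {l e1 r : ℝ} (hl : 0 < l) (he1 : 0 ≤ e1) (v : V d) (s : Finset (V d)) :
    eR l e1 r v s ≤ 1 := by
  unfold eR
  split_ifs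
  · rw [exp_le_one_iff]
    have : 0 ≤ e1 * (l * (Fr s v : ℝ)) := by positivity
    linarith
  · norm_num

/-- division by `l F` -/
theorem RE_div_le {l e1 r C4 : ℝ} (hC4 : 1 ≤ C4) (hr : C4 ≤ r) (v : V d)
    (s : Finset (V d)) : eR l e1 r v s / (l * (Fr s v : ℝ)) ≤ 1 / C4 * eR l e1 r v s := by
  by_cases h : Rp l r s v
  · have h1 : C4 ≤ l * (Fr s v : ℝ) := hr.trans h.1
    have h2 := RE_eR_nonneg l e1 r v s
    rw [div_eq_mul_one_div, mul_comm]
    exact mul_le_mul_of_nonneg_right (one_div_le_one_div_of_le (by linarith) h1) h2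
  · unfold eR
    rw [if_neg h]
    simp

theorem RE_e_nonneg {l e1 r : ℝ} (hl : 0 < l) (k : Fin d) (v : V d) (s : Finset (V d)) :
    0 ≤ RE_e l e1 r k v s := by
  unfold RE_e
  split_ifs
  · exact div_nonneg (RE_eR_nonneg _ _ _ _ _) (by positivity)
  · exact le_rfl

theorem RE_e_le {l e1 r C4 : ℝ} (hl : 0 < l) (he1 : 0 ≤ e1) (hC4 : 1 ≤ C4) (hr : C4 ≤ r)
    (k : Fin d) (v : V d) (s : Finset (V d)) : RE_e l e1 r k v s ≤ 1 / C4 := by
  unfold RE_e
  have h0 : (0 : ℝ) ≤ 1 / C4 := by positivity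
  split_ifs
  · refine (RE_div_le hC4 hr v s).trans ?_
    have h1 := RE_eR_le (r := r) hl he1 v s
    calc 1 / C4 * eR l e1 r v s ≤ 1 / C4 * 1 := mul_le_mul_of_nonneg_left h1 h0
      _ = 1 / C4 := mul_one _
  · exact h0

theorem RE_Rw (l e1 r : ℝ) (s : Finset (V d)) : Rw l e1 r s = ∑ v : V d, eR l e1 r v s := by
  unfold Rw eR
  rw [sum_filter]

theorem RE_lhs (l e1 r : ℝ) (b0 : ℕ) (s t : Finset (V d)) :
    ∑ v ∈ univ.filter (Rp l r s), exp (-(e1 * (l * (Fr s v : ℝ)))) / (l * (Fr s v : ℝ)) *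
        ∑ k ∈ univ.filter (fun k => v ∉ s ∧ nb k v ∉ s), (na b0 k s t (nb k v) : ℝ) =
    ∑ v : V d, ∑ k : Fin d, RE_e l e1 r k v s * (na b0 k s t (nb k v) : ℝ) := by
  rw [sum_filter]
  refine sum_congr rfl fun v _ => ?_
  by_cases h : Rp l r s v
  · rw [if_pos h, sum_filter, mul_sum]
    refine sum_congr rfl fun k _ => ?_
    unfold RE_e eR
    rw [if_pos h]
    by_cases h1 : v ∉ s ∧ nb k v ∉ s
    · rw [if_pos h1, if_pos h1]
    · rw [if_neg h1, if_neg h1]; simp
  · rw [if_neg h]
    symm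
    apply sum_eq_zero
    intro k _
    unfold RE_e eR
    rw [if_neg h]
    simp

theorem RE_stab {l e1 r r' : ℝ} (hl : 0 < l) (he1 : 0 ≤ e1) (n b : ℕ)
    (hen : exp (2 * e1 * l * n) ≤ 2) (hr : r' ≤ r - 2 * l * b) (k : Fin d) (v : V d) :
    Stab (par (nb k v)) ∅ n b (RE_e l e1 r k v) (RE_e' l e1 r' v) := by
  intro s hs C hC S hCp hSp hCn hSn hdis hs'
  have h1 := stab_eR hl.le he1 (par (nb k v)) v n b hr s hs C hC S hCp hSp hCn hSn hdis hs'
  have h2 : Fr s v = Fr ((s \ C) ∪ S) v := by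
    apply Fr_congr
    intro z hz
    have hzC : z ∉ C := fun h => by
      have := hCp z h
      rw [hz] at this
      exact par_nb_ne k v this.symm
    have hzS : z ∉ S := fun h => by
      have := hSp z h
      rw [hz] at this
      exact par_nb_ne k v this.symm
    rw [mem_union, mem_sdiff]
    constructor
    · intro h; exact Or.inl ⟨h, hzC⟩
    · rintro (h | h)
      · exact h.1
      · exact absurd h hzS
  have h3 : eR l e1 r v s ≤ 2 * eR l e1 r' v ((s \ C) ∪ S) := by
    refine h1.trans ?_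
    exact mul_le_mul_of_nonneg_right hen (RE_eR_nonneg _ _ _ _ _)
  have h4 : RE_e l e1 r k v s ≤ eR l e1 r v s / (l * (Fr s v : ℝ)) := by
    unfold RE_e
    split_ifs
    · exact le_rfl
    · exact div_nonneg (RE_eR_nonneg _ _ _ _ _) (by positivity)
  refine h4.trans ?_
  unfold RE_e'
  rw [h2, ← mul_div_assoc]
  exact div_le_div_of_nonneg_right h3 (by positivity)

theorem RE_count (k : Fin d) (n : ℕ) (v : V d) (s : Finset (V d)) :
    ((s.filter fun q => adjk k (nb k v) q ∧ n < nOcc s (nb k q)).card : ℝ) ≤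
      ∑ j : Fin d, if n < nOcc s (nb k (nb j v)) then (1 : ℝ) else 0 := by
  rw [← sum_filter, sum_const, nsmul_eq_mul, mul_one]
  have h : s.filter (fun q => adjk k (nb k v) q ∧ n < nOcc s (nb k q)) ⊆
      (univ.filter fun j => n < nOcc s (nb k (nb j v))).image fun j => nb j v := by
    intro q hq
    rw [mem_filter] at hq
    obtain ⟨_, ⟨j, _, h1⟩, h2⟩ := hq
    rw [nb_nb] at h1
    rw [mem_image]
    exact ⟨j, mem_filter.2 ⟨mem_univ _, h1 ▸ h2⟩, h1.symm⟩
  exact_mod_cast (card_le_card h).trans card_image_le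

theorem re {T l K C2 C6 C4 e1 r r' m0 E : ℝ} (hl : 0 < l)
    (hl1 : l ≤ 1 / 100) (hK : 1 ≤ K) (hth : th K ≤ 1 / 4) (x : ℝ) (n m b b0 : ℕ) (hn : 1 ≤ n)
    (hnK : 10 * l * n ≤ K) (hC2 : 32 * K + 16 ≤ C2) (hm2 : (m : ℝ) ≤ (C2 / l) ^ 2 / 200)
    (he1 : 0 ≤ e1) (hen : exp (2 * e1 * l * n) ≤ 2) (hr : r' ≤ r - 2 * l * b)
    (hb : l * d * n ≤ b) (hb2 : 2 * l * d ≤ b)
    (hE0 : 0 ≤ E) (hE : ∀ v : V d, avU l (x - n)
      (fun s => if Exc T l C2 C6 m0 n s v then (1 : ℝ) else 0) ≤ E) (hm : n * b0 + 1 ≤ m) (hC4 : 1 ≤ C4) (hrC : C4 ≤ r') :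
    avM (d := d) l x (fun s t => ∑ v ∈ univ.filter (Rp l r s),
      exp (-(e1 * (l * (Fr s v : ℝ)))) / (l * (Fr s v : ℝ)) *
        ∑ k ∈ univ.filter (fun k => v ∉ s ∧ nb k v ∉ s), (na b0 k s t (nb k v) : ℝ)) ≤
    d * (2 / C4 + 8 * th K) * avU (d := d) l (x - n) (fun s => Rw l e1 r' s) +
    4 / C4 * d * ∑ k : Fin d, avU l x (fun s => (PNn T l C2 k s : ℝ)) +
    2 * d * ∑ k : Fin d, avM l x (fun s t => (XCg T l K n k m s t : ℝ)) +
    (2 * l + 1) * d ^ 2 * 2 ^ d * E := by
  have hC0 : (0 : ℝ) < C4 := by linarith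
  have hrr : r' ≤ r := by
    have : 0 ≤ 2 * l * (b : ℝ) := by positivity
    linarith
  have hrC2 : C4 ≤ r := hrC.trans hrr
  have hth0 : 0 < th K := by unfold th; positivity
  have hxn : x - n ≤ x := by
    have : (0 : ℝ) ≤ n := Nat.cast_nonneg _
    linarith
  have hV : ((univ : Finset (V d)).card : ℝ) = 2 ^ d := by
    rw [card_univ, card_V]; push_cast; rfl
  -- the sum over `v` and `k`
  have hlhs : avM (d := d) l x (fun s t => ∑ v ∈ univ.filter (Rp l r s),
      exp (-(e1 * (l * (Fr s v : ℝ)))) / (l * (Fr s v : ℝ)) *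
        ∑ k ∈ univ.filter (fun k => v ∉ s ∧ nb k v ∉ s), (na b0 k s t (nb k v) : ℝ)) =
      ∑ v : V d, ∑ k : Fin d, avM l x (fun s t => RE_e l e1 r k v s *
        (na b0 k s t (nb k v) : ℝ)) := by
    simp only [RE_lhs]
    rw [avM_sum]
    refine sum_congr rfl fun v _ => ?_
    rw [avM_sum]
  rw [hlhs]
  have key : ∀ (v : V d) (k : Fin d), avM l x (fun s t => RE_e l e1 r k v s *
        (na b0 k s t (nb k v) : ℝ)) ≤
      avU l (x - n) (RE_e' l e1 r' v) +
      2 * l * d * avU l (x - n) (fun s => if Ct T l s v then (1 : ℝ) else 0) +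
      avU l x (fun s => RE_e l e1 r k v s *
        ((s.filter fun q => adjk k (nb k v) q ∧ n < nOcc s (nb k q)).card : ℝ)) +
      2 * avM l x (fun s t => RE_e l e1 r k v s * ((NRn T l K k m s t (nb k v) : ℝ) +
        (XCn T l K n k m s t (nb k v) : ℝ))) +
      4 * l * th K * avU l (x - n) (fun s => RE_e' l e1 r' v s * poti T l k s (nb k v)) := by
    intro v k
    have h := lemD (T := T) (x := x) hl hl1 hK hth k (nb k v) n m b b0 hn hnK hm ∅
      (RE_e l e1 r k v) (RE_e' l e1 r' v) (RE_e_nonneg hl k v)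
      (fun s => by
        unfold RE_e'
        exact mul_nonneg (by norm_num) (div_nonneg (RE_eR_nonneg _ _ _ _ _) (by positivity)))
      (fun s => by
        unfold RE_e'
        have h1 := RE_div_le (l := l) (e1 := e1) hC4 hrC v s
        have h2 := RE_eR_le (r := r') hl he1 v s
        have h3 : 1 / C4 ≤ 1 := by rw [div_le_one hC0]; exact hC4
        have h4 := RE_eR_nonneg l e1 r' v s
        have h5 : 1 / C4 * eR l e1 r' v s ≤ 1 * 1 :=
          mul_le_mul h3 h2 h4 (by norm_num)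
        linarith)
      (RE_stab hl he1 n b hen hr k v)
      (fun s _ _ r _ _ => by simp)
      (fun s _ hes => by
        unfold RE_e at hes
        by_cases h1 : v ∉ s ∧ nb k v ∉ s
        · rw [nb_nb]; exact ⟨h1.2, h1.1⟩
        · rw [if_neg h1] at hes; exact absurd rfl hes)
      hb
    rw [nb_nb] at h
    exact h
  refine (sum_le_sum fun v _ => sum_le_sum fun k _ => key v k).trans ?_
  simp only [sum_add_distrib]
  -- the five sums
  have hNOcc : ∀ w : V d, avU l x (fun s => if n < nOcc s w then (1 : ℝ) else 0) ≤ E := by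
    intro w
    refine (avU_anti hl.le hxn fun s _ => by split_ifs <;> norm_num).trans ?_
    refine (avU_mono hl.le fun s _ => ?_).trans (hE w)
    by_cases h1 : n < nOcc s w
    · have h2 : Exc T l C2 C6 m0 n s w := Or.inl h1
      rw [if_pos h1, if_pos h2]
    · rw [if_neg h1]; split_ifs <;> norm_num
  have S1 : ∑ v : V d, ∑ _k : Fin d, avU l (x - n) (RE_e' l e1 r' v) ≤
      d * (2 / C4) * avU (d := d) l (x - n) (fun s => Rw l e1 r' s) := by
    have h1 : ∀ v : V d, ∑ _k : Fin d, avU l (x - n) (RE_e' l e1 r' v) ≤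
        d * (2 / C4) * avU l (x - n) (fun s => eR l e1 r' v s) := by
      intro v
      rw [sum_const, card_univ, Fintype.card_fin, nsmul_eq_mul, mul_assoc]
      refine mul_le_mul_of_nonneg_left ?_ (Nat.cast_nonneg _)
      rw [← avU_mul l (x - n) (2 / C4) (fun s => eR l e1 r' v s)]
      refine avU_mono hl.le fun s _ => ?_
      unfold RE_e'
      have h2 := RE_div_le (l := l) (e1 := e1) hC4 hrC v s
      calc 2 * (eR l e1 r' v s / (l * (Fr s v : ℝ))) ≤ 2 * (1 / C4 * eR l e1 r' v s) := by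
            linarith
        _ = 2 / C4 * eR l e1 r' v s := by ring
    refine (sum_le_sum fun v _ => h1 v).trans (le_of_eq ?_)
    rw [← mul_sum, ← avU_sum]
    simp only [RE_Rw]
  have S2 : ∑ v : V d, ∑ _k : Fin d, 2 * l * d * avU l (x - n)
      (fun s => if Ct T l s v then (1 : ℝ) else 0) ≤ 2 * l * d ^ 2 * 2 ^ d * E := by
    have h1 : ∀ v : V d, ∑ _k : Fin d, 2 * l * d * avU l (x - n)
        (fun s => if Ct T l s v then (1 : ℝ) else 0) ≤ 2 * l * d ^ 2 * E := by
      intro v
      rw [sum_const, card_univ, Fintype.card_fin, nsmul_eq_mul]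
      have h2 : avU l (x - n) (fun s => if Ct T l s v then (1 : ℝ) else 0) ≤ E := by
        refine (avU_mono hl.le fun s _ => ?_).trans (hE v)
        by_cases h1 : Ct T l s v
        · have h2 : Exc T l C2 C6 m0 n s v := Or.inr (Or.inr (Or.inr (Or.inr h1)))
          rw [if_pos h1, if_pos h2]
        · rw [if_neg h1]; split_ifs <;> norm_num
      calc (d : ℝ) * (2 * l * d * avU l (x - n) (fun s => if Ct T l s v then (1 : ℝ) else 0))
          ≤ (d : ℝ) * (2 * l * d * E) := by
            apply mul_le_mul_of_nonneg_left _ (Nat.cast_nonneg _)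
            exact mul_le_mul_of_nonneg_left h2 (by positivity)
        _ = 2 * l * d ^ 2 * E := by ring
    refine (sum_le_sum fun v _ => h1 v).trans (le_of_eq ?_)
    rw [sum_const, nsmul_eq_mul, hV]
    ring
  have S3 : ∑ v : V d, ∑ k : Fin d, avU l x (fun s => RE_e l e1 r k v s *
        ((s.filter fun q => adjk k (nb k v) q ∧ n < nOcc s (nb k q)).card : ℝ)) ≤
      d ^ 2 * 2 ^ d * E := by
    have h1 : ∀ (v : V d) (k : Fin d), avU l x (fun s => RE_e l e1 r k v s *
        ((s.filter fun q => adjk k (nb k v) q ∧ n < nOcc s (nb k q)).card : ℝ)) ≤ d * E := by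
      intro v k
      have h2 : avU l x (fun s => RE_e l e1 r k v s *
          ((s.filter fun q => adjk k (nb k v) q ∧ n < nOcc s (nb k q)).card : ℝ)) ≤
          avU l x (fun s => ∑ j : Fin d, if n < nOcc s (nb k (nb j v)) then (1 : ℝ) else 0) := by
        refine avU_mono hl.le fun s _ => ?_
        have h3 := RE_e_le (r := r) hl he1 hC4 hrC2 k v s
        have h4 : (1 : ℝ) / C4 ≤ 1 := by rw [div_le_one hC0]; exact hC4
        have h5 := RE_count k n v s
        have h6 : (0 : ℝ) ≤ ((s.filter fun q => adjk k (nb k v) q ∧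
          n < nOcc s (nb k q)).card : ℝ) := Nat.cast_nonneg _
        calc RE_e l e1 r k v s * ((s.filter fun q => adjk k (nb k v) q ∧
              n < nOcc s (nb k q)).card : ℝ)
            ≤ 1 * ((s.filter fun q => adjk k (nb k v) q ∧
              n < nOcc s (nb k q)).card : ℝ) :=
              mul_le_mul_of_nonneg_right (h3.trans h4) h6
          _ ≤ _ := by rw [one_mul]; exact h5
      refine h2.trans ?_
      rw [avU_sum]
      refine (sum_le_sum fun j _ => hNOcc (nb k (nb j v))).trans (le_of_eq ?_)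
      rw [sum_const, card_univ, Fintype.card_fin, nsmul_eq_mul]
    refine (sum_le_sum fun v _ => sum_le_sum fun k _ => h1 v k).trans (le_of_eq ?_)
    simp only [sum_const, nsmul_eq_mul, card_univ, Fintype.card_fin, card_V]
    push_cast
    ring
  have S4 : ∑ v : V d, ∑ k : Fin d, 2 * avM l x (fun s t => RE_e l e1 r k v s *
      ((NRn T l K k m s t (nb k v) : ℝ) + (XCn T l K n k m s t (nb k v) : ℝ))) ≤
      4 / C4 * d * ∑ k : Fin d, avU l x (fun s => (PNn T l C2 k s : ℝ)) +
      2 * d * ∑ k : Fin d, avM l x (fun s t => (XCg T l K n k m s t : ℝ)) := by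
    rw [sum_comm]
    have h1 : ∀ k : Fin d, ∑ v : V d, 2 * avM l x (fun s t => RE_e l e1 r k v s *
        ((NRn T l K k m s t (nb k v) : ℝ) + (XCn T l K n k m s t (nb k v) : ℝ))) ≤
        4 / C4 * d * avU l x (fun s => (PNn T l C2 k s : ℝ)) +
          2 * d * avM l x (fun s t => (XCg T l K n k m s t : ℝ)) := by
      intro k
      rw [← mul_sum, ← avM_sum]
      have h2 : avM l x (fun s t => ∑ v : V d, RE_e l e1 r k v s *
          ((NRn T l K k m s t (nb k v) : ℝ) + (XCn T l K n k m s t (nb k v) : ℝ))) ≤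
          avM l x (fun s t => 2 / C4 * d * (PNn T l C2 k s : ℝ) +
            d * (XCg T l K n k m s t : ℝ)) := by
        refine avM_mono hl.le fun s hs t ht => ?_
        have h3 : ∀ v : V d, RE_e l e1 r k v s *
            ((NRn T l K k m s t (nb k v) : ℝ) + (XCn T l K n k m s t (nb k v) : ℝ)) ≤
            1 / C4 * (NRn T l K k m s t (nb k v) : ℝ) +
              (XCn T l K n k m s t (nb k v) : ℝ) := by
          intro v
          have h4 := RE_e_le (r := r) hl he1 hC4 hrC2 k v s
          have h5 : (1 : ℝ) / C4 ≤ 1 := by rw [div_le_one hC0]; exact hC4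
          have h6 : (0 : ℝ) ≤ (NRn T l K k m s t (nb k v) : ℝ) := Nat.cast_nonneg _
          have h7 : (0 : ℝ) ≤ (XCn T l K n k m s t (nb k v) : ℝ) := Nat.cast_nonneg _
          rw [mul_add]
          have h8 := mul_le_mul_of_nonneg_right h4 h6
          have h9 := mul_le_mul_of_nonneg_right (h4.trans h5) h7
          linarith
        refine (sum_le_sum fun v _ => h3 v).trans ?_
        rw [sum_add_distrib, ← mul_sum]
        have h4 : ∑ v : V d, (NRn T l K k m s t (nb k v) : ℝ) =
            ∑ u : V d, (NRn T l K k m s t u : ℝ) :=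
          (nb_bijective k).sum_comp fun u => (NRn T l K k m s t u : ℝ)
        have h5 : ∑ v : V d, (XCn T l K n k m s t (nb k v) : ℝ) =
            ∑ u : V d, (XCn T l K n k m s t u : ℝ) :=
          (nb_bijective k).sum_comp fun u => (XCn T l K n k m s t u : ℝ)
        rw [h4, h5]
        have h6 : ∑ u : V d, (NRn T l K k m s t u : ℝ) ≤ d * (2 * (PNn T l C2 k s : ℝ)) := by
          have h7 := sum_NRn_le T l K k m s t
          have h8 := nrpn (T := T) hl (by linarith) hK hC2 k m hm2 (Bx_sub_Om _ hs) ht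
          have h9 : ∑ u : V d, NRn T l K k m s t u ≤ d * (2 * PNn T l C2 k s) :=
            h7.trans (Nat.mul_le_mul_left _ h8)
          exact_mod_cast h9
        have h7 : ∑ u : V d, (XCn T l K n k m s t u : ℝ) ≤ d * (XCg T l K n k m s t : ℝ) := by
          exact_mod_cast sum_XCn_le T l K n k m s t
        have h8 : 1 / C4 * ∑ u : V d, (NRn T l K k m s t u : ℝ) ≤
            1 / C4 * (d * (2 * (PNn T l C2 k s : ℝ))) :=
          mul_le_mul_of_nonneg_left h6 (by positivity)
        calc 1 / C4 * ∑ u : V d, (NRn T l K k m s t u : ℝ) +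
              ∑ u : V d, (XCn T l K n k m s t u : ℝ)
            ≤ 1 / C4 * (d * (2 * (PNn T l C2 k s : ℝ))) +
              d * (XCg T l K n k m s t : ℝ) := add_le_add h8 h7
          _ = _ := by ring
      rw [avM_add, avM_mul, avM_mul, avM_const l x (fun s => (PNn T l C2 k s : ℝ))] at h2
      calc 2 * avM l x (fun s t => ∑ v : V d, RE_e l e1 r k v s *
          ((NRn T l K k m s t (nb k v) : ℝ) + (XCn T l K n k m s t (nb k v) : ℝ)))
          ≤ 2 * (2 / C4 * d * avU l x (fun s => (PNn T l C2 k s : ℝ)) +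
            d * avM l x (fun s t => (XCg T l K n k m s t : ℝ))) := by linarith
        _ = _ := by ring
    refine (sum_le_sum fun k _ => h1 k).trans (le_of_eq ?_)
    rw [sum_add_distrib, ← mul_sum, ← mul_sum]
  have S5 : ∑ v : V d, ∑ k : Fin d, 4 * l * th K * avU l (x - n)
      (fun s => RE_e' l e1 r' v s * poti T l k s (nb k v)) ≤
      8 * d * th K * avU (d := d) l (x - n) (fun s => Rw l e1 r' s) := by
    have h1 : ∀ (v : V d) (k : Fin d), 4 * l * th K * avU l (x - n)
        (fun s => RE_e' l e1 r' v s * poti T l k s (nb k v)) ≤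
        8 * th K * avU l (x - n) (fun s => eR l e1 r' v s) := by
      intro v k
      have h2 : 4 * l * th K * avU l (x - n)
          (fun s => RE_e' l e1 r' v s * poti T l k s (nb k v)) =
          4 * th K * avU l (x - n)
          (fun s => l * (RE_e' l e1 r' v s * poti T l k s (nb k v))) := by
        rw [avU_mul]; ring
      have h3 : 8 * th K * avU l (x - n) (fun s => eR l e1 r' v s) =
          4 * th K * avU l (x - n) (fun s => 2 * eR l e1 r' v s) := by
        rw [avU_mul]; ring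
      rw [h2, h3]
      refine mul_le_mul_of_nonneg_left ?_ (by positivity)
      refine avU_mono hl.le fun s _ => ?_
      unfold RE_e'
      by_cases h : Rp l r' s v
      · have h4 : C4 ≤ l * (Fr s v : ℝ) := hrC.trans h.1
        have h5 := poti_nb_le T hl k s v
        have h6 := RE_eR_nonneg l e1 r' v s
        have h7 : 0 < l * (Fr s v : ℝ) := by linarith
        have h8 : 0 ≤ 2 * (eR l e1 r' v s / (l * (Fr s v : ℝ))) := by positivity
        calc l * (2 * (eR l e1 r' v s / (l * (Fr s v : ℝ))) * poti T l k s (nb k v))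
            ≤ l * (2 * (eR l e1 r' v s / (l * (Fr s v : ℝ))) * (Fr s v : ℝ)) := by
              apply mul_le_mul_of_nonneg_left _ hl.le
              exact mul_le_mul_of_nonneg_left h5 h8
          _ = 2 * (eR l e1 r' v s / (l * (Fr s v : ℝ)) * (l * (Fr s v : ℝ))) := by ring
          _ = 2 * eR l e1 r' v s := by rw [div_mul_cancel₀ _ h7.ne']
      · have h4 : eR l e1 r' v s = 0 := by unfold eR; rw [if_neg h]
        rw [h4]; simp
    refine (sum_le_sum fun v _ => sum_le_sum fun k _ => h1 v k).trans (le_of_eq ?_)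
    have h2 : ∀ v : V d, ∑ _k : Fin d, 8 * th K * avU l (x - n) (fun s => eR l e1 r' v s) =
        8 * d * th K * avU l (x - n) (fun s => eR l e1 r' v s) := by
      intro v
      rw [sum_const, card_univ, Fintype.card_fin, nsmul_eq_mul]
      ring
    simp only [h2]
    rw [← mul_sum, ← avU_sum]
    simp only [RE_Rw]
  have hfin : d * (2 / C4 + 8 * th K) * avU (d := d) l (x - n) (fun s => Rw l e1 r' s) +
      4 / C4 * d * ∑ k : Fin d, avU l x (fun s => (PNn T l C2 k s : ℝ)) +
      2 * d * ∑ k : Fin d, avM l x (fun s t => (XCg T l K n k m s t : ℝ)) +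
      (2 * l + 1) * d ^ 2 * 2 ^ d * E =
      d * (2 / C4) * avU (d := d) l (x - n) (fun s => Rw l e1 r' s) +
      2 * l * d ^ 2 * 2 ^ d * E + d ^ 2 * 2 ^ d * E +
      (4 / C4 * d * ∑ k : Fin d, avU l x (fun s => (PNn T l C2 k s : ℝ)) +
      2 * d * ∑ k : Fin d, avM l x (fun s t => (XCg T l K n k m s t : ℝ))) +
      8 * d * th K * avU (d := d) l (x - n) (fun s => Rw l e1 r' s) := by ring
  rw [hfin]
  exact add_le_add (add_le_add (add_le_add (add_le_add S1 S2) S3) S4) S5

end Pool.Agent.Lib.MP_c6118e_pr.Win
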