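import Pool.Agent.Lib.MP_c6118e_pr.Win.FR
import Pool.Agent.Lib.MP_c6118e_pr.Win.RBC
import Pool.Agent.Lib.MP_c6118e_pr.Win.RD
import Pool.Agent.Lib.MP_c6118e_pr.Win.RE

/-! # RCASE: the R part dominates -/

namespace Pool.Agent.Lib.MP_c6118e_pr.Win

open Finset Real
open scoped Classical

variable {d : ℕ}

/-- one vertex and one direction -/
theorem RCASE_term {b0 k1 : ℕ} {l e1 e2 r : ℝ} (k : Fin d) (s t : Finset (V d)) (v : V d)
    (hk1 : 0 < (k1 : ℝ)) (he2 : 0 < e2) (he12 : e2 * log 2 = e1) (hF : 0 < l * (Fr s v : ℝ))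
    (hrk : r ≤ l * (Fr s (nb k v) : ℝ)) :
    (1 : ℝ) ≤ (if v ∈ s then 1 else 0) + (if nb k v ∈ s then 1 else 0) +
      (if v ∉ s ∧ nb k v ∉ s ∧ r ≤ l * (Fr s (nb k v) : ℝ) ∧ ¬ bT b0 k t v then 1 else 0) +
      (if v ∉ s ∧ nb k v ∉ s ∧ ¬ bT b0 k t (nb k v) then 1 else 0) +
      (if v ∉ s ∧ nb k v ∉ s then (na b0 k s t v : ℝ) / k1 else 0) +
      (if v ∉ s ∧ nb k v ∉ s then (na b0 k s t (nb k v) : ℝ) / (e2 * (l * (Fr s v : ℝ))) else 0) +
      (if DVp b0 k s t v then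
        4 ^ k1 * exp (e1 * (l * (Fr s v : ℝ))) * (1 / 2 : ℝ) ^ kap b0 k s t v else 0) := by
  have hden : 0 < e2 * (l * (Fr s v : ℝ)) := mul_pos he2 hF
  have h5 : 0 ≤ (na b0 k s t v : ℝ) / k1 := by positivity
  have h6 : 0 ≤ (na b0 k s t (nb k v) : ℝ) / (e2 * (l * (Fr s v : ℝ))) :=
    div_nonneg (Nat.cast_nonneg _) hden.le
  have h7 : 0 ≤ 4 ^ k1 * exp (e1 * (l * (Fr s v : ℝ))) * (1 / 2 : ℝ) ^ kap b0 k s t v := by
    positivity
  by_cases hv : v ∈ s
  · rw [if_pos hv]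
    split_ifs <;> linarith
  by_cases hnv : nb k v ∈ s
  · rw [if_neg hv, if_pos hnv]
    split_ifs <;> linarith
  by_cases h1 : bT b0 k t v
  · by_cases h2 : bT b0 k t (nb k v)
    · have hD : DVp b0 k s t v := ⟨hv, hnv, h1, h2⟩
      have hvv : v ∉ s ∧ nb k v ∉ s := ⟨hv, hnv⟩
      rw [if_neg hv, if_neg hnv, if_neg (fun h => h.2.2.2 h1), if_neg (fun h => h.2.2 h2),
        if_pos hvv, if_pos hvv, if_pos hD]
      by_cases h3 : (k1 : ℝ) < (na b0 k s t v : ℝ)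
      · have : 1 ≤ (na b0 k s t v : ℝ) / k1 := by
          rw [le_div_iff₀ hk1]; linarith
        linarith
      by_cases h4 : (k1 : ℝ) + e2 * (l * (Fr s v : ℝ)) < (na b0 k s t (nb k v) : ℝ)
      · have : 1 ≤ (na b0 k s t (nb k v) : ℝ) / (e2 * (l * (Fr s v : ℝ))) := by
          rw [le_div_iff₀ hden]; linarith
        linarith
      · have hkap : (kap b0 k s t v : ℝ) ≤ 2 * k1 + e2 * (l * (Fr s v : ℝ)) := by
          unfold kap
          push_cast
          linarith [not_lt.1 h3, not_lt.1 h4]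
        have hlog : 0 < log 2 := log_pos (by norm_num)
        have e1' : (4 : ℝ) ^ k1 = exp (2 * k1 * log 2) := by
          have : (4 : ℝ) = exp (2 * log 2) := by
            rw [two_mul, exp_add, exp_log (by norm_num)]; norm_num
          rw [this, ← exp_nat_mul]
          congr 1; ring
        have e2' : (1 / 2 : ℝ) ^ kap b0 k s t v = exp (-((kap b0 k s t v : ℝ) * log 2)) := by
          have : (1 / 2 : ℝ) = exp (-log 2) := by
            rw [exp_neg, exp_log (by norm_num)]; norm_num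
          rw [this, ← exp_nat_mul]
          congr 1; ring
        have : 1 ≤ 4 ^ k1 * exp (e1 * (l * (Fr s v : ℝ))) * (1 / 2 : ℝ) ^ kap b0 k s t v := by
          rw [e1', e2', ← exp_add, ← exp_add]
          apply one_le_exp
          rw [← he12]
          nlinarith [mul_le_mul_of_nonneg_right hkap hlog.le]
        linarith
    · have hvv : v ∉ s ∧ nb k v ∉ s := ⟨hv, hnv⟩
      rw [if_neg hv, if_neg hnv, if_neg (fun h => h.2.2.2 h1),
        if_pos (show v ∉ s ∧ nb k v ∉ s ∧ ¬ bT b0 k t (nb k v) from ⟨hv, hnv, h2⟩)]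
      split_ifs <;> linarith
  · rw [if_neg hv, if_neg hnv, if_pos (show v ∉ s ∧ nb k v ∉ s ∧
      r ≤ l * (Fr s (nb k v) : ℝ) ∧ ¬ bT b0 k t v from ⟨hv, hnv, hrk, h1⟩)]
    split_ifs <;> linarith

/-- all directions at one vertex -/
theorem RCASE_vertex {b0 k1 n : ℕ} {l e1 e2 r : ℝ} (s t : Finset (V d)) (v : V d)
    (hk1 : 0 < (k1 : ℝ)) (he2 : 0 < e2) (he12 : e2 * log 2 = e1) (he1 : 0 ≤ e1)
    (hr0 : 0 < r) (hv : Rp l r s v) :
    (d : ℝ) / 4 * exp (-(e1 * (l * (Fr s v : ℝ)))) ≤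
      d * (if v ∈ s then exp (-(e1 * (l * (Fr s v : ℝ)))) else 0) +
      (n * exp (-(e1 * (l * (Fr s v : ℝ)))) + d * (if n < nOcc s v then 1 else 0)) +
      exp (-(e1 * (l * (Fr s v : ℝ)))) * ((univ.filter fun k => v ∉ s ∧ nb k v ∉ s ∧
        r ≤ l * (Fr s (nb k v) : ℝ) ∧ ¬ bT b0 k t v).card : ℝ) +
      exp (-(e1 * (l * (Fr s v : ℝ)))) * ((univ.filter fun k => v ∉ s ∧ nb k v ∉ s ∧
        ¬ bT b0 k t (nb k v)).card : ℝ) +
      exp (-(e1 * (l * (Fr s v : ℝ)))) * (∑ k ∈ univ.filter (fun k => v ∉ s ∧ nb k v ∉ s),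
        (na b0 k s t v : ℝ)) / k1 +
      exp (-(e1 * (l * (Fr s v : ℝ)))) / (l * (Fr s v : ℝ)) *
        (∑ k ∈ univ.filter (fun k => v ∉ s ∧ nb k v ∉ s), (na b0 k s t (nb k v) : ℝ)) / e2 +
      4 ^ k1 * ∑ k : Fin d, (if DVp b0 k s t v then (1 / 2 : ℝ) ^ kap b0 k s t v else 0) := by
  have hF : 0 < l * (Fr s v : ℝ) := lt_of_lt_of_le hr0 hv.1
  set w := exp (-(e1 * (l * (Fr s v : ℝ)))) with hw
  have hw0 : 0 < w := exp_pos _
  have hw1 : w ≤ 1 := by
    rw [hw, exp_le_one_iff]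
    have := mul_nonneg he1 hF.le
    linarith
  have hwe : w * exp (e1 * (l * (Fr s v : ℝ))) = 1 := by
    rw [hw, ← exp_add]; simp
  set Kset := univ.filter fun k : Fin d => r ≤ l * (Fr s (nb k v) : ℝ) with hKset
  have hcard : (d : ℝ) / 4 ≤ (Kset.card : ℝ) := by
    have := hv.2
    have h' : (d : ℝ) ≤ 4 * (Kset.card : ℝ) := by exact_mod_cast this
    linarith
  have hden : 0 < e2 * (l * (Fr s v : ℝ)) := mul_pos he2 hF
  have hsum : (Kset.card : ℝ) ≤ ∑ k : Fin d, ((if v ∈ s then (1 : ℝ) else 0) +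
      (if nb k v ∈ s then 1 else 0) +
      (if v ∉ s ∧ nb k v ∉ s ∧ r ≤ l * (Fr s (nb k v) : ℝ) ∧ ¬ bT b0 k t v then 1 else 0) +
      (if v ∉ s ∧ nb k v ∉ s ∧ ¬ bT b0 k t (nb k v) then 1 else 0) +
      (if v ∉ s ∧ nb k v ∉ s then (na b0 k s t v : ℝ) / k1 else 0) +
      (if v ∉ s ∧ nb k v ∉ s then (na b0 k s t (nb k v) : ℝ) / (e2 * (l * (Fr s v : ℝ))) else 0) +
      (if DVp b0 k s t v then
        4 ^ k1 * exp (e1 * (l * (Fr s v : ℝ))) * (1 / 2 : ℝ) ^ kap b0 k s t v else 0)) := by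
    calc (Kset.card : ℝ) = ∑ k ∈ Kset, (1 : ℝ) := by simp
      _ ≤ ∑ k ∈ Kset, _ := sum_le_sum fun k hk =>
          RCASE_term (b0 := b0) (k1 := k1) (e1 := e1) (e2 := e2) (r := r) k s t v hk1 he2 he12 hF
            (mem_filter.1 hk).2
      _ ≤ _ := by
          apply sum_le_sum_of_subset_of_nonneg (subset_univ _)
          intro k _ _
          have h5 : 0 ≤ (na b0 k s t v : ℝ) / k1 := by positivity
          have h6 : 0 ≤ (na b0 k s t (nb k v) : ℝ) / (e2 * (l * (Fr s v : ℝ))) :=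
            div_nonneg (Nat.cast_nonneg _) hden.le
          have h7 : 0 ≤ 4 ^ k1 * exp (e1 * (l * (Fr s v : ℝ))) *
              (1 / 2 : ℝ) ^ kap b0 k s t v := by positivity
          refine add_nonneg (add_nonneg (add_nonneg (add_nonneg (add_nonneg (add_nonneg ?_ ?_)
            ?_) ?_) ?_) ?_) ?_
          · split_ifs <;> norm_num
          · split_ifs <;> norm_num
          · split_ifs <;> norm_num
          · split_ifs <;> norm_num
          · split_ifs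
            · exact h5
            · exact le_rfl
          · split_ifs
            · exact h6
            · exact le_rfl
          · split_ifs
            · exact h7
            · exact le_rfl
  have hs1 : ∑ k : Fin d, (if v ∈ s then (1 : ℝ) else 0) = d * (if v ∈ s then 1 else 0) := by
    rw [sum_const, card_univ, Fintype.card_fin, nsmul_eq_mul]
  have hs2 : ∑ k : Fin d, (if nb k v ∈ s then (1 : ℝ) else 0) = (nOcc s v : ℝ) := by
    unfold MP_c6118e_pr.nOcc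
    rw [sum_boole]
  have hs5 : ∑ k : Fin d, (if v ∉ s ∧ nb k v ∉ s then (na b0 k s t v : ℝ) / k1 else 0) =
      (∑ k ∈ univ.filter (fun k => v ∉ s ∧ nb k v ∉ s), (na b0 k s t v : ℝ)) / k1 := by
    rw [← sum_filter, sum_div]
  have hs6 : ∑ k : Fin d, (if v ∉ s ∧ nb k v ∉ s then
      (na b0 k s t (nb k v) : ℝ) / (e2 * (l * (Fr s v : ℝ))) else 0) =
      (∑ k ∈ univ.filter (fun k => v ∉ s ∧ nb k v ∉ s), (na b0 k s t (nb k v) : ℝ)) /
        (e2 * (l * (Fr s v : ℝ))) := by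
    rw [← sum_filter, sum_div]
  have hs7 : ∑ k : Fin d, (if DVp b0 k s t v then
        4 ^ k1 * exp (e1 * (l * (Fr s v : ℝ))) * (1 / 2 : ℝ) ^ kap b0 k s t v else 0) =
      4 ^ k1 * exp (e1 * (l * (Fr s v : ℝ))) *
        ∑ k : Fin d, (if DVp b0 k s t v then (1 / 2 : ℝ) ^ kap b0 k s t v else 0) := by
    rw [mul_sum]
    refine sum_congr rfl fun k _ => ?_
    split_ifs <;> simp
  rw [sum_add_distrib, sum_add_distrib, sum_add_distrib, sum_add_distrib, sum_add_distrib,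
    sum_add_distrib, hs1, hs2, hs5, hs6, hs7, sum_boole, sum_boole] at hsum
  have hocc : w * (nOcc s v : ℝ) ≤ n * w + d * (if n < nOcc s v then 1 else 0) := by
    by_cases h : n < nOcc s v
    · rw [if_pos h]
      have h1 : (nOcc s v : ℝ) ≤ d := by exact_mod_cast nOcc_le s v
      have h2 : w * (nOcc s v : ℝ) ≤ 1 * d :=
        mul_le_mul hw1 h1 (Nat.cast_nonneg _) zero_le_one
      have h3 : 0 ≤ (n : ℝ) * w := by positivity
      linarith
    · rw [if_neg h]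
      have h1 : (nOcc s v : ℝ) ≤ n := by exact_mod_cast not_lt.1 h
      nlinarith
  have hmain := mul_le_mul_of_nonneg_left (hcard.trans hsum) hw0.le
  have hite : (d : ℝ) * (if v ∈ s then w else 0) = w * (d * (if v ∈ s then 1 else 0)) := by
    split_ifs <;> ring
  have h6' : w / (l * (Fr s v : ℝ)) *
      (∑ k ∈ univ.filter (fun k => v ∉ s ∧ nb k v ∉ s), (na b0 k s t (nb k v) : ℝ)) / e2 =
      w * ((∑ k ∈ univ.filter (fun k => v ∉ s ∧ nb k v ∉ s), (na b0 k s t (nb k v) : ℝ)) /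
        (e2 * (l * (Fr s v : ℝ)))) := by
    field_simp
  have h7' : w * (4 ^ k1 * exp (e1 * (l * (Fr s v : ℝ))) *
      ∑ k : Fin d, (if DVp b0 k s t v then (1 / 2 : ℝ) ^ kap b0 k s t v else 0)) =
      4 ^ k1 * ∑ k : Fin d, (if DVp b0 k s t v then (1 / 2 : ℝ) ^ kap b0 k s t v else 0) := by
    calc _ = (w * exp (e1 * (l * (Fr s v : ℝ)))) * (4 ^ k1 *
        ∑ k : Fin d, (if DVp b0 k s t v then (1 / 2 : ℝ) ^ kap b0 k s t v else 0)) := by ring
      _ = _ := by rw [hwe, one_mul]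
  rw [hite, h6', mul_div_assoc]
  have hlhs : (d : ℝ) / 4 * w = w * ((d : ℝ) / 4) := by ring
  rw [hlhs]
  calc w * ((d : ℝ) / 4) ≤ _ := hmain
    _ = w * (d * (if v ∈ s then 1 else 0)) + w * (nOcc s v : ℝ) +
        w * ((univ.filter fun k => v ∉ s ∧ nb k v ∉ s ∧
        r ≤ l * (Fr s (nb k v) : ℝ) ∧ ¬ bT b0 k t v).card : ℝ) +
        w * ((univ.filter fun k => v ∉ s ∧ nb k v ∉ s ∧
        ¬ bT b0 k t (nb k v)).card : ℝ) +
        w * ((∑ k ∈ univ.filter (fun k => v ∉ s ∧ nb k v ∉ s), (na b0 k s t v : ℝ)) / k1) +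
        w * ((∑ k ∈ univ.filter (fun k => v ∉ s ∧ nb k v ∉ s), (na b0 k s t (nb k v) : ℝ)) /
        (e2 * (l * (Fr s v : ℝ)))) +
        w * (4 ^ k1 * exp (e1 * (l * (Fr s v : ℝ))) *
        ∑ k : Fin d, (if DVp b0 k s t v then (1 / 2 : ℝ) ^ kap b0 k s t v else 0)) := by
      ring
    _ ≤ _ := by
      rw [h7']
      linarith

/-- all vertices -/
theorem RCASE_point {b0 k1 n : ℕ} {l e1 e2 r : ℝ} (s t : Finset (V d))
    (hk1 : 0 < (k1 : ℝ)) (he2 : 0 < e2) (he12 : e2 * log 2 = e1) (he1 : 0 ≤ e1) (hr0 : 0 < r) :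
    (d : ℝ) / 4 * Rw l e1 r s ≤
      d * (∑ v ∈ univ.filter (fun v => Rp l r s v ∧ v ∈ s),
        exp (-(e1 * (l * (Fr s v : ℝ))))) +
      (n * Rw l e1 r s + d * ∑ v : V d, (if n < nOcc s v then (1 : ℝ) else 0)) +
      (∑ v ∈ univ.filter (Rp l r s),
      exp (-(e1 * (l * (Fr s v : ℝ)))) * ((univ.filter fun k => v ∉ s ∧ nb k v ∉ s ∧
        r ≤ l * (Fr s (nb k v) : ℝ) ∧ ¬ bT b0 k t v).card : ℝ)) +
      (∑ v ∈ univ.filter (Rp l r s),
      exp (-(e1 * (l * (Fr s v : ℝ)))) * ((univ.filter fun k => v ∉ s ∧ nb k v ∉ s ∧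
        ¬ bT b0 k t (nb k v)).card : ℝ)) +
      1 / (k1 : ℝ) * (∑ v ∈ univ.filter (Rp l r s),
      exp (-(e1 * (l * (Fr s v : ℝ)))) * ∑ k ∈ univ.filter (fun k => v ∉ s ∧ nb k v ∉ s),
        (na b0 k s t v : ℝ)) +
      1 / e2 * (∑ v ∈ univ.filter (Rp l r s),
      exp (-(e1 * (l * (Fr s v : ℝ)))) / (l * (Fr s v : ℝ)) *
        ∑ k ∈ univ.filter (fun k => v ∉ s ∧ nb k v ∉ s), (na b0 k s t (nb k v) : ℝ)) +
      4 ^ k1 * ∑ k : Fin d, ∑ u ∈ univ.filter (DVp b0 k s t), (1 / 2 : ℝ) ^ kap b0 k s t u := by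
  have h1 : (d : ℝ) / 4 * Rw l e1 r s ≤ ∑ v ∈ univ.filter (Rp l r s), (
      d * (if v ∈ s then exp (-(e1 * (l * (Fr s v : ℝ)))) else 0) +
      (n * exp (-(e1 * (l * (Fr s v : ℝ)))) + d * (if n < nOcc s v then 1 else 0)) +
      exp (-(e1 * (l * (Fr s v : ℝ)))) * ((univ.filter fun k => v ∉ s ∧ nb k v ∉ s ∧
        r ≤ l * (Fr s (nb k v) : ℝ) ∧ ¬ bT b0 k t v).card : ℝ) +
      exp (-(e1 * (l * (Fr s v : ℝ)))) * ((univ.filter fun k => v ∉ s ∧ nb k v ∉ s ∧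
        ¬ bT b0 k t (nb k v)).card : ℝ) +
      exp (-(e1 * (l * (Fr s v : ℝ)))) * (∑ k ∈ univ.filter (fun k => v ∉ s ∧ nb k v ∉ s),
        (na b0 k s t v : ℝ)) / k1 +
      exp (-(e1 * (l * (Fr s v : ℝ)))) / (l * (Fr s v : ℝ)) *
        (∑ k ∈ univ.filter (fun k => v ∉ s ∧ nb k v ∉ s), (na b0 k s t (nb k v) : ℝ)) / e2 +
      4 ^ k1 * ∑ k : Fin d, (if DVp b0 k s t v then (1 / 2 : ℝ) ^ kap b0 k s t v else 0)) := by
    unfold Rw
    rw [mul_sum]
    exact sum_le_sum fun v hv => RCASE_vertex (b0 := b0) (k1 := k1) (n := n) (e1 := e1)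
      (e2 := e2) s t v hk1 he2 he12 he1 hr0 (mem_filter.1 hv).2
  refine h1.trans ?_
  rw [sum_add_distrib, sum_add_distrib, sum_add_distrib, sum_add_distrib, sum_add_distrib,
    sum_add_distrib, sum_add_distrib, ← mul_sum, ← mul_sum, ← mul_sum, ← mul_sum, ← sum_div,
    ← sum_div]
  have hA : ∑ v ∈ univ.filter (Rp l r s),
      (if v ∈ s then exp (-(e1 * (l * (Fr s v : ℝ)))) else 0) =
      ∑ v ∈ univ.filter (fun v => Rp l r s v ∧ v ∈ s), exp (-(e1 * (l * (Fr s v : ℝ)))) := by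
    rw [← sum_filter, filter_filter]
  have hX : ∑ v ∈ univ.filter (Rp l r s), (if n < nOcc s v then (1 : ℝ) else 0) ≤
      ∑ v : V d, (if n < nOcc s v then (1 : ℝ) else 0) := by
    apply sum_le_sum_of_subset_of_nonneg (filter_subset _ _)
    intro v _ _
    split_ifs <;> norm_num
  have hG : ∑ v ∈ univ.filter (Rp l r s), ∑ k : Fin d,
      (if DVp b0 k s t v then (1 / 2 : ℝ) ^ kap b0 k s t v else 0) ≤
      ∑ k : Fin d, ∑ u ∈ univ.filter (DVp b0 k s t), (1 / 2 : ℝ) ^ kap b0 k s t u := by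
    rw [sum_comm]
    apply sum_le_sum
    intro k _
    rw [sum_filter (p := DVp b0 k s t)]
    apply sum_le_sum_of_subset_of_nonneg (filter_subset _ _)
    intro v _ _
    split_ifs
    · positivity
    · exact le_rfl
  have hR : ∑ v ∈ univ.filter (Rp l r s), exp (-(e1 * (l * (Fr s v : ℝ)))) = Rw l e1 r s := rfl
  rw [hA, hR]
  have hd : (0 : ℝ) ≤ d := Nat.cast_nonneg _
  have g1 := mul_le_mul_of_nonneg_left hX hd
  have g2 := mul_le_mul_of_nonneg_left hG (show (0 : ℝ) ≤ 4 ^ k1 by positivity)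
  rw [div_eq_inv_mul _ (k1 : ℝ), div_eq_inv_mul _ e2, ← one_div, ← one_div]
  linarith

/-- the averaged inequality -/
theorem RCASE_avg {b0 k1 n : ℕ} {l e1 e2 r x : ℝ} (hl : 0 ≤ l)
    (hk1 : 0 < (k1 : ℝ)) (he2 : 0 < e2) (he12 : e2 * log 2 = e1) (he1 : 0 ≤ e1) (hr0 : 0 < r) :
    (d : ℝ) / 4 * avU (d := d) l x (fun s => Rw l e1 r s) ≤
      d * avU (d := d) l x (fun s => ∑ v ∈ univ.filter (fun v => Rp l r s v ∧ v ∈ s),
        exp (-(e1 * (l * (Fr s v : ℝ))))) +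
      (n * avU (d := d) l x (fun s => Rw l e1 r s) +
        d * ∑ v : V d, avU (d := d) l x (fun s => if n < nOcc s v then (1 : ℝ) else 0)) +
      avM (d := d) l x (fun s t => ∑ v ∈ univ.filter (Rp l r s),
      exp (-(e1 * (l * (Fr s v : ℝ)))) * ((univ.filter fun k => v ∉ s ∧ nb k v ∉ s ∧
        r ≤ l * (Fr s (nb k v) : ℝ) ∧ ¬ bT b0 k t v).card : ℝ)) +
      avM (d := d) l x (fun s t => ∑ v ∈ univ.filter (Rp l r s),
      exp (-(e1 * (l * (Fr s v : ℝ)))) * ((univ.filter fun k => v ∉ s ∧ nb k v ∉ s ∧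
        ¬ bT b0 k t (nb k v)).card : ℝ)) +
      1 / (k1 : ℝ) * avM (d := d) l x (fun s t => ∑ v ∈ univ.filter (Rp l r s),
      exp (-(e1 * (l * (Fr s v : ℝ)))) * ∑ k ∈ univ.filter (fun k => v ∉ s ∧ nb k v ∉ s),
        (na b0 k s t v : ℝ)) +
      1 / e2 * avM (d := d) l x (fun s t => ∑ v ∈ univ.filter (Rp l r s),
      exp (-(e1 * (l * (Fr s v : ℝ)))) / (l * (Fr s v : ℝ)) *
        ∑ k ∈ univ.filter (fun k => v ∉ s ∧ nb k v ∉ s), (na b0 k s t (nb k v) : ℝ)) +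
      4 ^ k1 * ∑ k : Fin d, avM (d := d) l x (fun s t =>
        ∑ u ∈ univ.filter (DVp b0 k s t), (1 / 2 : ℝ) ^ kap b0 k s t u) := by
  have h := avM_mono (d := d) (x := x) hl (fun s _ t _ =>
    RCASE_point (d := d) (b0 := b0) (k1 := k1) (n := n) (l := l) (e1 := e1) (e2 := e2) (r := r)
      s t hk1 he2 he12 he1 hr0)
  rw [avM_add, avM_add, avM_add, avM_add, avM_add, avM_add, avM_mul l x (1 / (k1 : ℝ)),
    avM_mul l x (1 / e2), avM_mul l x (4 ^ k1), avM_sum,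
    avM_const l x (fun s => (d : ℝ) / 4 * Rw l e1 r s), avU_mul,
    avM_const l x (fun s => (d : ℝ) * ∑ v ∈ univ.filter (fun v => Rp l r s v ∧ v ∈ s),
        exp (-(e1 * (l * (Fr s v : ℝ))))), avU_mul,
    avM_const l x (fun s => n * Rw l e1 r s +
      d * ∑ v : V d, (if n < nOcc s v then (1 : ℝ) else 0)), avU_add, avU_mul l x (n : ℝ),
      avU_mul l x (d : ℝ) (fun s => ∑ v : V d, (if n < nOcc s v then (1 : ℝ) else 0)),
      avU_sum] at h
  exact h

/-- the asymptotic conditions -/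
theorem RCASE_ev (CS ε D0 : ℝ) (hCS : 0 < CS) (hε : 0 < ε) :
    ∃ d₀ : ℕ, ∀ d ≥ d₀, ∀ l : ℝ, l * d ≤ CS * log d →
      1 ≤ nn d ∧ l * (nn d : ℝ) ^ 3 ≤ ε ∧ (nn d : ℝ) ≤ ε * d ∧ CS * log d ≤ nn d ∧
        2 * (CS * log d) ≤ (nn d : ℝ) ^ 2 ∧ D0 ≤ d := by
  set δ := min (ε / (8 * CS)) (ε / 2) with hδ
  have hδ0 : 0 < δ := lt_min (by positivity) (by positivity)
  have hlim := ((Real.isLittleO_pow_log_id_atTop (n := 7)).comp_tendsto
    (tendsto_natCast_atTop_atTop (R := ℝ))).bound hδ0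
  have hlog : Filter.Tendsto (fun d : ℕ => log (d : ℝ)) Filter.atTop Filter.atTop :=
    Real.tendsto_log_atTop.comp tendsto_natCast_atTop_atTop
  have h2 := hlog.eventually_ge_atTop (max 2 CS)
  have h3 := (tendsto_natCast_atTop_atTop (R := ℝ)).eventually_ge_atTop (max 1 D0)
  obtain ⟨d₀, hd₀⟩ := Filter.eventually_atTop.1 (hlim.and (h2.and h3))
  refine ⟨d₀, fun d hd l hld => ?_⟩
  obtain ⟨h1, h2, h3⟩ := hd₀ d hd
  have hL2 : 2 ≤ log (d : ℝ) := le_trans (le_max_left _ _) h2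
  have hLC : CS ≤ log (d : ℝ) := le_trans (le_max_right _ _) h2
  have hd1 : (1 : ℝ) ≤ d := le_trans (le_max_left _ _) h3
  set L := log (d : ℝ) with hL
  have hL0 : 0 < L := by linarith
  have h1' : L ^ 7 ≤ δ * d := by
    have := h1
    simp only [Function.comp, id, Real.norm_eq_abs] at this
    rwa [abs_of_nonneg (by positivity), abs_of_nonneg (by linarith)] at this
  have hn1 : L ^ 2 ≤ (nn d : ℝ) := Nat.le_ceil _
  have hn2 : (nn d : ℝ) ≤ 2 * L ^ 2 := by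
    have : (nn d : ℝ) < L ^ 2 + 1 := Nat.ceil_lt_add_one (by positivity)
    nlinarith
  have hn0 : (1 : ℝ) ≤ nn d := by nlinarith
  have hδ1 : δ ≤ ε / (8 * CS) := min_le_left _ _
  have hδ2 : δ ≤ ε / 2 := min_le_right _ _
  refine ⟨by exact_mod_cast hn0, ?_, ?_, ?_, ?_, le_trans (le_max_right _ _) h3⟩
  · have hl : l ≤ CS * L / d := by
      rw [le_div_iff₀ (by linarith)]; exact hld
    have hn3 : (nn d : ℝ) ^ 3 ≤ 8 * L ^ 6 := by
      calc (nn d : ℝ) ^ 3 ≤ (2 * L ^ 2) ^ 3 := by gcongr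
        _ = 8 * L ^ 6 := by ring
    calc l * (nn d : ℝ) ^ 3 ≤ (CS * L / d) * (nn d : ℝ) ^ 3 := by
          apply mul_le_mul_of_nonneg_right hl (by positivity)
      _ ≤ (CS * L / d) * (8 * L ^ 6) := by
          apply mul_le_mul_of_nonneg_left hn3 (by positivity)
      _ = 8 * CS * (L ^ 7 / d) := by ring
      _ ≤ 8 * CS * (ε / (8 * CS)) := by
          apply mul_le_mul_of_nonneg_left _ (by positivity)
          rw [div_le_iff₀ (by linarith)]
          exact h1'.trans (mul_le_mul_of_nonneg_right hδ1 (by linarith))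
      _ = ε := by field_simp
  · have h27 : L ^ 2 ≤ L ^ 7 := pow_le_pow_right₀ (by linarith) (by norm_num)
    have : δ * d ≤ ε / 2 * d := mul_le_mul_of_nonneg_right hδ2 (by linarith)
    linarith
  · nlinarith
  · have hA : CS * L ≤ L ^ 2 := by nlinarith
    have hB : 2 * L ^ 2 ≤ (nn d : ℝ) ^ 2 := by
      have : (L ^ 2) ^ 2 ≤ (nn d : ℝ) ^ 2 := by gcongr
      nlinarith [sq_nonneg (L ^ 2), mul_le_mul hL2 hL2 (by norm_num) hL0.le]
    linarith

/-- the numerical part -/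
theorem RCASE_num {D P W W' PN XC A X Cc Dd Ee Ff G ep C4 thK ex e2 k1 l n E2 F4 : ℝ}
    (hD1 : 10000 ≤ D) (hD2 : 4000 / e2 ≤ D) (hP : 0 < P) (hW : W ≤ P) (hW4 : P / 4 ≤ W)
    (hW' : W' ≤ 51 / 50 * P) (hPN : PN ≤ ep * P) (hXC : XC ≤ P / D ^ 6)
    (hA : A ≤ l * (51 / 50 * P)) (hX : X ≤ P / D ^ 10) (hE2 : E2 = P / D ^ 10)
    (hC : Cc ≤ 2 * D * (3 * ex + 20 * thK) * W' + 32 / (C4 - 1) * D * PN + D * XC + D * E2)
    (hDD : Dd ≤ 2 * D * (3 * ex + 20 * thK) * W' + 32 / (C4 - 1) * D * PN + D * XC + D * E2)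
    (hEE : Ee ≤ 2 * D * (1 + 10 * thK) * W' + 4 * D * PN + 2 * D * XC + (2 * l + 1) * D ^ 2 * E2)
    (hFF : Ff ≤ D * (2 / (C4 - 1) + 8 * thK) * W' + 4 / (C4 - 1) * D * PN + 2 * D * XC +
      (2 * l + 1) * D ^ 2 * E2)
    (havg : D / 4 * W ≤ D * A + (n * W + D * X) + Cc + Dd + 1 / k1 * Ee + 1 / e2 * Ff + F4 * G)
    (hex : 3 * ex ≤ 1 / 1000) (hex0 : 0 ≤ ex) (hth : thK ≤ 1 / 10000) (hth0 : 0 ≤ thK)
    (hth2 : thK ≤ e2 / 2500) (hC4 : 17 ≤ C4) (hep : 0 ≤ ep) (hC4'' : 32000 * ep ≤ C4 - 1)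
    (he2 : 0 < e2) (hC4e : 1000 * (1 + ep) ≤ e2 * C4) (hk1 : 1000 * (1 + ep) ≤ k1)
    (hl : 0 < l) (hl' : l ≤ 1 / 10000) (hn0 : 0 ≤ n) (hn : n ≤ 1 / 10000 * D) :
    D * P / 64 ≤ F4 * G := by
  have hD0 : 0 < D := by linarith
  have hC1 : 0 < C4 - 1 := by linarith
  have hQ : 0 < D * P := mul_pos hD0 hP
  have hk0 : 0 < k1 := by linarith
  have hDinv : 1 / D ≤ 1 / 10000 := one_div_le_one_div_of_le (by norm_num) hD1
  have hDinv2 : 1 / D ≤ e2 / 4000 := by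
    rw [div_le_iff₀ he2] at hD2
    rw [div_le_div_iff₀ hD0 (by norm_num)]
    linarith
  have hp6 : P / D ^ 6 ≤ P * (1 / D) := by
    rw [div_eq_mul_one_div]
    apply mul_le_mul_of_nonneg_left _ hP.le
    apply one_div_le_one_div_of_le hD0
    calc D = D ^ 1 := (pow_one D).symm
      _ ≤ D ^ 6 := pow_le_pow_right₀ (by linarith) (by norm_num)
  have hp10 : D * (P / D ^ 10) ≤ P * (1 / D) := by
    have h1 : D * (P / D ^ 10) = P * (1 / D ^ 9) := by field_simp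
    rw [h1]
    apply mul_le_mul_of_nonneg_left _ hP.le
    apply one_div_le_one_div_of_le hD0
    calc D = D ^ 1 := (pow_one D).symm
      _ ≤ D ^ 9 := pow_le_pow_right₀ (by linarith) (by norm_num)
  have hp10' : 0 ≤ P / D ^ 10 := by positivity
  have hp10'' : P / D ^ 10 ≤ D * (P / D ^ 10) := le_mul_of_one_le_left hp10' (by linarith)
  -- the small terms
  have s1 : D * XC ≤ D * P * (1 / D) := by
    have := mul_le_mul_of_nonneg_left (hXC.trans hp6) hD0.le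
    linarith
  have s2 : D * E2 ≤ D * P * (1 / D) := by
    rw [hE2]
    have h1 : P * (1 / D) ≤ D * P * (1 / D) := by
      have h2 : 0 ≤ P * (1 / D) := by positivity
      rw [mul_assoc]
      exact le_mul_of_one_le_left h2 (by linarith)
    exact hp10.trans h1
  have s3 : (2 * l + 1) * D ^ 2 * E2 ≤ 2 * (D * P * (1 / D)) := by
    rw [hE2]
    have h1 : D ^ 2 * (P / D ^ 10) ≤ D * P * (1 / D) := by
      have := mul_le_mul_of_nonneg_left hp10 hD0.le
      linarith [show D ^ 2 * (P / D ^ 10) = D * (D * (P / D ^ 10)) by ring]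
    have h2 : 0 ≤ D ^ 2 * (P / D ^ 10) := by positivity
    have h3 : (2 * l + 1) * (D ^ 2 * (P / D ^ 10)) ≤ 2 * (D ^ 2 * (P / D ^ 10)) :=
      mul_le_mul_of_nonneg_right (by linarith) h2
    linarith
  have t1 : D * P * (1 / D) ≤ D * P * (1 / 10000) := mul_le_mul_of_nonneg_left hDinv hQ.le
  have t2 : D * P * (1 / D) ≤ D * P * (e2 / 4000) := mul_le_mul_of_nonneg_left hDinv2 hQ.le
  -- C and D
  have u1 : 2 * D * (3 * ex + 20 * thK) * W' ≤ D * P * (7 / 1000) := by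
    have h1 : 2 * D * (3 * ex + 20 * thK) * W' ≤ 2 * D * (3 * ex + 20 * thK) * (51 / 50 * P) :=
      mul_le_mul_of_nonneg_left hW' (by positivity)
    have h2 : (3 * ex + 20 * thK) ≤ 3 / 1000 := by linarith
    have h3 : (D * P) * (3 * ex + 20 * thK) ≤ (D * P) * (3 / 1000) :=
      mul_le_mul_of_nonneg_left h2 hQ.le
    linarith
  have u2 : 32 / (C4 - 1) * D * PN ≤ D * P * (1 / 1000) := by
    have h0 : 0 ≤ 32 / (C4 - 1) * D := by positivity
    have h1 := mul_le_mul_of_nonneg_left hPN h0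
    have h2 : 32 / (C4 - 1) * ep ≤ 1 / 1000 := by
      rw [div_mul_eq_mul_div, div_le_iff₀ hC1]; linarith
    have h3 : (D * P) * (32 / (C4 - 1) * ep) ≤ (D * P) * (1 / 1000) :=
      mul_le_mul_of_nonneg_left h2 hQ.le
    linarith [show 32 / (C4 - 1) * D * (ep * P) = (D * P) * (32 / (C4 - 1) * ep) by ring]
  have vC : Cc ≤ D * P * (9 / 1000) := by linarith
  have vD : Dd ≤ D * P * (9 / 1000) := by linarith
  -- E
  have vE : 1 / k1 * Ee ≤ D * P * (5 / 1000) := by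
    have h1 : 2 * D * (1 + 10 * thK) * W' ≤ 2 * D * (1 + 10 * thK) * (51 / 50 * P) :=
      mul_le_mul_of_nonneg_left hW' (by positivity)
    have h2 : (D * P) * (1 + 10 * thK) ≤ (D * P) * (1001 / 1000) :=
      mul_le_mul_of_nonneg_left (by linarith) hQ.le
    have h3 : 4 * D * PN ≤ 4 * D * (ep * P) := mul_le_mul_of_nonneg_left hPN (by positivity)
    have h4 : Ee ≤ D * P * (5 * (1 + ep)) := by linarith [mul_nonneg hQ.le hep]
    have h5 : D * P * (5 * (1 + ep)) ≤ D * P * (5 / 1000) * k1 := by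
      have := mul_le_mul_of_nonneg_left hk1 (show 0 ≤ D * P * (5 / 1000) by positivity)
      linarith
    rw [one_div, inv_mul_le_iff₀ hk0]
    linarith
  -- F
  have vF : 1 / e2 * Ff ≤ D * P * (11 / 1000) := by
    have h1 : D * (2 / (C4 - 1) + 8 * thK) * W' ≤ D * (2 / (C4 - 1) + 8 * thK) * (51 / 50 * P) :=
      mul_le_mul_of_nonneg_left hW' (by positivity)
    have h3 : 4 / (C4 - 1) * D * PN ≤ 4 / (C4 - 1) * D * (ep * P) :=
      mul_le_mul_of_nonneg_left hPN (by positivity)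
    have h4 : 1 / (C4 - 1) * (1 + ep) ≤ e2 * (17 / 16000) := by
      rw [div_mul_eq_mul_div, div_le_iff₀ hC1]
      have : e2 * C4 ≤ e2 * (17 / 16 * (C4 - 1)) :=
        mul_le_mul_of_nonneg_left (by linarith) he2.le
      linarith
    have h5 : (D * P) * (1 / (C4 - 1) * (1 + ep)) ≤ (D * P) * (e2 * (17 / 16000)) :=
      mul_le_mul_of_nonneg_left h4 hQ.le
    have h6 : (D * P) * thK ≤ (D * P) * (e2 / 2500) := mul_le_mul_of_nonneg_left hth2 hQ.le
    have h7 : 0 ≤ (D * P) * (1 / (C4 - 1)) := by positivity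
    have e1' : D * (2 / (C4 - 1) + 8 * thK) * (51 / 50 * P) =
        (51 / 25) * ((D * P) * (1 / (C4 - 1))) + (204 / 25) * ((D * P) * thK) := by ring
    have e2' : 4 / (C4 - 1) * D * (ep * P) = 4 * ((D * P) * (1 / (C4 - 1) * ep)) := by ring
    have e3' : (D * P) * (1 / (C4 - 1) * (1 + ep)) =
        (D * P) * (1 / (C4 - 1)) + (D * P) * (1 / (C4 - 1) * ep) := by ring
    have h8 : Ff ≤ D * P * (11 / 1000) * e2 := by
      have hQe : 0 ≤ D * P * e2 := by positivity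
      linarith
    rw [one_div, inv_mul_le_iff₀ he2]
    linarith
  have vA : D * A ≤ D * P * (1 / 5000) := by
    have h1 := mul_le_mul_of_nonneg_left hA hD0.le
    have h2 : (D * P) * l ≤ (D * P) * (1 / 10000) := mul_le_mul_of_nonneg_left hl' hQ.le
    linarith
  have vn : n * W ≤ D * P * (1 / 10000) := by
    have h1 : n * W ≤ n * P := mul_le_mul_of_nonneg_left hW hn0
    have h2 : n * P ≤ 1 / 10000 * D * P := mul_le_mul_of_nonneg_right hn hP.le
    linarith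
  have vX : D * X ≤ D * P * (1 / 10000) := by
    have h1 := mul_le_mul_of_nonneg_left hX hD0.le
    rw [hE2] at s2
    linarith
  have vW : D * P / 16 ≤ D / 4 * W := by
    have := mul_le_mul_of_nonneg_left hW4 (show 0 ≤ D / 4 by positivity)
    linarith
  linarith

theorem rcase (CS K C2 C4 C6 ep M e1 : ℝ) (k1 : ℕ) (hCS : 0 < CS) (hK : 1 ≤ K)
    (hth : th K ≤ 1 / 10000) (hth2 : th K ≤ e1 / log 2 / 2500) (hC2 : 32 * K + 16 ≤ C2)
    (hC4 : 17 ≤ C4) (hC4' : 3 * exp (-(7 / 25 * (C4 - 1))) ≤ 1 / 1000) (hep : 0 ≤ ep)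
    (hC4'' : 32000 * ep ≤ C4 - 1) (he1 : 0 < e1)
    (hC4e : 1000 * (1 + ep) ≤ e1 / log 2 * C4) (hk1 : 1000 * (1 + ep) ≤ k1) (hM : 0 < M) :
    ∃ s0 : ℝ, ∃ d₀ : ℕ, 0 < s0 ∧ ∀ d ≥ d₀, ∀ l : ℝ, s0 ≤ l * d → l * d ≤ CS * log d →
    ∀ c x P : ℝ, C4 + 2 ≤ c → c ≤ C4 + 3 → 0 < P →
    avU (d := d) l x (fun s => Rw l e1 (2 * C4 + 3 - c) s) ≤ P →
    avU (d := d) l (x - nn d) (fun s => Rw l e1 (2 * C4 + 3 - (c + 1 / nn d)) s) ≤
      51 / 50 * P →
    ∑ k : Fin d, avU l x (fun s => (PNn (C4 + 3 / 2) l C2 k s : ℝ)) ≤ ep * P →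
    ∑ k : Fin d, avM l x (fun s t =>
      (XCg (C4 + 3 / 2) l K (nn d) k (nn d * ⌈M / l⌉₊ + 1) s t : ℝ)) ≤ P / (d : ℝ) ^ 6 →
    (∀ v : V d, avU l (x - nn d)
      (fun s => if Exc (C4 + 3 / 2) l C2 C6 (d / nn d) (nn d) s v then (1 : ℝ) else 0) ≤
        P / (d : ℝ) ^ 10 / 2 ^ d) →
    P / 4 ≤ avU (d := d) l x (fun s => Rw l e1 (2 * C4 + 3 - c) s) →
    (1 / 4 : ℝ) ^ k1 / 64 * d * P ≤ ∑ k : Fin d, avM l x (fun s t =>
      ∑ u ∈ univ.filter (DVp ⌈M / l⌉₊ k s t), (1 / 2 : ℝ) ^ kap ⌈M / l⌉₊ k s t u) := by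
  set e2 := e1 / log 2 with he2d
  have hlog2 : 0 < log 2 := log_pos (by norm_num)
  have he2 : 0 < e2 := div_pos he1 hlog2
  have he12 : e2 * log 2 = e1 := by rw [he2d]; field_simp
  set ε := min (min (1 / 10000) (log 2 / (2 * e1))) (1 / (M + 2)) with hεd
  have hε : 0 < ε := lt_min (lt_min (by norm_num) (by positivity)) (by positivity)
  have hε1 : ε ≤ 1 / 10000 := (min_le_left _ _).trans (min_le_left _ _)
  have hε2 : ε ≤ log 2 / (2 * e1) := (min_le_left _ _).trans (min_le_right _ _)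
  have hε3 : ε ≤ 1 / (M + 2) := min_le_right _ _
  obtain ⟨d₀, hd₀⟩ := RCASE_ev CS ε (max 10000 (4000 / e2)) hCS hε
  refine ⟨1, d₀, one_pos, fun d hd l hl1 hl2 c x P hc1 hc2 hP hW hW' hPN hXC hE hW4 => ?_⟩
  obtain ⟨hn1, hln3, hnd, hLn, hLn2, hD⟩ := hd₀ d hd l hl2
  have hD1 : (10000 : ℝ) ≤ d := (le_max_left _ _).trans hD
  have hD2 : 4000 / e2 ≤ (d : ℝ) := (le_max_right _ _).trans hD
  have hd0 : (0 : ℝ) < d := by linarith
  have hl : 0 < l := by
    by_contra h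
    have := mul_nonpos_of_nonpos_of_nonneg (not_lt.1 h) hd0.le
    linarith
  set n := nn d with hn
  have hnr : (1 : ℝ) ≤ n := by exact_mod_cast hn1
  have hn2 : (n : ℝ) ≤ (n : ℝ) ^ 3 := le_self_pow₀ hnr (by norm_num)
  have hln : l * n ≤ ε := (mul_le_mul_of_nonneg_left hn2 hl.le).trans hln3
  have hlε : l ≤ ε := (le_mul_of_one_le_right hl.le hnr).trans hln
  set b0 := ⌈M / l⌉₊ with hb0
  set m := n * b0 + 1 with hm
  set E := P / (d : ℝ) ^ 10 / 2 ^ d with hEd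
  have hE0 : 0 ≤ E := by rw [hEd]; positivity
  set r := 2 * C4 + 3 - c with hr
  set r' := 2 * C4 + 3 - (c + 1 / n) with hr'
  have hrC : C4 ≤ r := by rw [hr]; linarith
  have hrC1 : r ≤ C4 + 1 := by rw [hr]; linarith
  have hn1' : 1 / (n : ℝ) ≤ 1 := by rw [div_le_one (by linarith)]; exact hnr
  have hr'C : C4 - 1 ≤ r' := by rw [hr']; linarith
  have hr'r : r' ≤ r := by
    rw [hr, hr']
    have : 0 ≤ 1 / (n : ℝ) := by positivity
    linarith
  have hl100 : l ≤ 1 / 100 := by linarith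
  have hth4 : th K ≤ 1 / 4 := by linarith
  have hth0 : 0 ≤ th K := by unfold th; positivity
  have hnK : 10 * l * n ≤ K := by
    rw [mul_assoc]; linarith
  have hm2 : (m : ℝ) ≤ (C2 / l) ^ 2 / 200 := by
    have hb : (b0 : ℝ) < M / l + 1 := Nat.ceil_lt_add_one (by positivity)
    have h1 : (m : ℝ) ≤ n * (M / l + 1) + 1 := by
      rw [hm]; push_cast
      have := mul_le_mul_of_nonneg_left hb.le (show (0 : ℝ) ≤ n by linarith)
      linarith
    have h2 : (n * (M / l + 1) + 1) * l ^ 2 ≤ 1 := by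
      have h3 : (n * (M / l + 1) + 1) * l ^ 2 = (l * n) * M + (l * n) * l + l * l := by
        field_simp
      rw [h3]
      have h4 : ε * (M + 2) ≤ 1 := by
        have := mul_le_mul_of_nonneg_right hε3 (show 0 ≤ M + 2 by linarith)
        rwa [one_div, inv_mul_cancel₀ (by linarith)] at this
      have h5 : (l * n) * M ≤ ε * M := mul_le_mul_of_nonneg_right hln hM.le
      have h6 : (l * n) * l ≤ ε * 1 := mul_le_mul hln (by linarith) hl.le hε.le
      have h7 : l * l ≤ ε * 1 := mul_le_mul hlε (by linarith) hl.le hε.le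
      linarith
    have h8 : (1 : ℝ) ≤ C2 ^ 2 / 200 := by
      have h48 : (48 : ℝ) ≤ C2 := by linarith
      have := pow_le_pow_left₀ (by norm_num) h48 2
      linarith
    have h9 : (m : ℝ) * l ^ 2 ≤ C2 ^ 2 / 200 :=
      (mul_le_mul_of_nonneg_right h1 (by positivity)).trans (h2.trans h8)
    have h10 : (C2 / l) ^ 2 / 200 = C2 ^ 2 / 200 / l ^ 2 := by
      field_simp
    rw [h10, le_div_iff₀ (by positivity)]
    exact h9
  have hen : exp (2 * e1 * l * n) ≤ 2 := by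
    have h1 : 2 * e1 * l * n ≤ log 2 := by
      have h2 : 2 * e1 * (l * n) ≤ 2 * e1 * (log 2 / (2 * e1)) :=
        mul_le_mul_of_nonneg_left (hln.trans hε2) (by positivity)
      have h3 : 2 * e1 * (log 2 / (2 * e1)) = log 2 := by field_simp
      linarith
    calc exp (2 * e1 * l * n) ≤ exp (log 2) := exp_le_exp.2 h1
      _ = 2 := exp_log (by norm_num)
  have hrr : r' ≤ r - 2 * l * ((n ^ 2 : ℕ) : ℝ) := by
    push_cast
    have h1 : 2 * l * (n : ℝ) ^ 2 ≤ 1 / n := by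
      rw [le_div_iff₀ (by linarith)]
      have h2 : 2 * l * (n : ℝ) ^ 2 * n = 2 * (l * (n : ℝ) ^ 3) := by ring
      rw [h2]
      linarith
    rw [hr, hr']
    linarith
  have hb1 : l * d * n ≤ ((n ^ 2 : ℕ) : ℝ) := by
    push_cast
    have : l * d ≤ n := hl2.trans hLn
    calc l * d * n ≤ n * n := mul_le_mul_of_nonneg_right this (by linarith)
      _ = (n : ℝ) ^ 2 := by ring
  have hb2 : 2 * l * d ≤ ((n ^ 2 : ℕ) : ℝ) := by
    push_cast
    linarith
  have hb0m : b0 ≤ m + 1 := by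
    have := Nat.le_mul_of_pos_left b0 hn1
    omega
  -- the five bounds
  have hC := rb (d := d) (C6 := C6) (C4 := C4) (m0 := d / n) (r := r) (r' := r') (e1 := e1)
    (E := E) hl hl100 hK hth4 x n m (n ^ 2) b0 hn1 hnK hC2 hm2 he1.le hen hrr hb1 hb2 hE0 hE
    hb0m hC4 hrC
  have hDD := rc (d := d) (C6 := C6) (C4 := C4) (m0 := d / n) (r := r) (r' := r') (e1 := e1)
    (E := E) hl hl100 hK hth4 x n m (n ^ 2) b0 hn1 hnK hC2 hm2 he1.le hen hrr hb1 hb2 hE0 hE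
    hb0m hC4 hrC
  have hEE := rd (d := d) (C6 := C6) (m0 := d / n) (r := r) (r' := r') (e1 := e1)
    (E := E) hl hl100 hK hth4 x n m (n ^ 2) b0 hn1 hnK hC2 hm2 he1.le hen hrr hb1 hb2 hE0 hE
    (le_of_eq hm.symm)
  have hFF := re (d := d) (C6 := C6) (C4 := C4 - 1) (m0 := d / n) (r := r) (r' := r') (e1 := e1)
    (E := E) hl hl100 hK hth4 x n m (n ^ 2) b0 hn1 hnK hC2 hm2 he1.le hen hrr hb1 hb2 hE0 hE
    (le_of_eq hm.symm) (by linarith) hr'C
  have hk0 : 0 < (k1 : ℝ) := by linarith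
  have havg := RCASE_avg (d := d) (b0 := b0) (k1 := k1) (n := n) (l := l) (e1 := e1) (e2 := e2)
    (r := r) (x := x) hl.le hk0 he2 he12 he1.le (by linarith)
  have hA : avU (d := d) l x (fun s => ∑ v ∈ univ.filter (fun v => Rp l r s v ∧ v ∈ s),
        exp (-(e1 * (l * (Fr s v : ℝ))))) ≤ l * (51 / 50 * P) := by
    refine (avU_occ_R hl x).trans (mul_le_mul_of_nonneg_left ?_ hl.le)
    refine le_trans ?_ hW'
    have hR0 : ∀ (ρ : ℝ) (s : Finset (V d)), 0 ≤ Rw l e1 ρ s := by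
      intro ρ s
      unfold Rw
      exact sum_nonneg fun v _ => (exp_pos _).le
    refine (avU_anti hl.le (show x - n ≤ x - 1 by linarith) (fun s _ => hR0 r s)).trans ?_
    exact avU_mono hl.le fun s _ => Rw_anti hr'r s
  have hX : ∑ v : V d, avU (d := d) l x (fun s => if n < nOcc s v then (1 : ℝ) else 0) ≤
      P / (d : ℝ) ^ 10 := by
    have h1 : ∀ v : V d, avU (d := d) l x (fun s => if n < nOcc s v then (1 : ℝ) else 0) ≤ E := by
      intro v
      refine le_trans ?_ (hE v)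
      refine (avU_mono hl.le (g := fun s =>
        if Exc (C4 + 3 / 2) l C2 C6 (d / n) n s v then (1 : ℝ) else 0) ?_).trans
        (avU_anti hl.le (show x - n ≤ x by linarith) ?_)
      · intro s _
        by_cases h : n < nOcc s v
        · rw [if_pos h, if_pos (show Exc (C4 + 3 / 2) l C2 C6 (d / n) n s v from Or.inl h)]
        · rw [if_neg h]
          split_ifs <;> norm_num
      · intro s _
        split_ifs <;> norm_num
    calc _ ≤ ∑ v : V d, E := sum_le_sum fun v _ => h1 v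
      _ = 2 ^ d * E := by
          rw [sum_const, card_univ, nsmul_eq_mul]
          congr 1
          unfold V
          rw [Fintype.card_fun, Fintype.card_fin, ZMod.card]
          norm_num
      _ = P / (d : ℝ) ^ 10 := by
          rw [hEd]; field_simp
  have hfin := RCASE_num (D := d) (P := P) (ep := ep) (C4 := C4) (thK := th K)
    (ex := exp (-(7 / 25 * (C4 - 1)))) (e2 := e2) (k1 := k1) (l := l) (n := n)
    (E2 := 2 ^ d * E) (F4 := 4 ^ k1) hD1 hD2 hP hW hW4 hW' hPN hXC hA hX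
    (by rw [hEd]; field_simp) (by linarith) (by linarith) (by linarith) (by linarith) havg
    hC4' (exp_pos _).le hth hth0 hth2 hC4 hep hC4'' he2 hC4e hk1 hl (by linarith)
    (Nat.cast_nonneg _) (by
      have := mul_le_mul_of_nonneg_right hε1 hd0.le
      linarith)
  have h4 : (1 / 4 : ℝ) ^ k1 * 4 ^ k1 = 1 := by
    rw [← mul_pow]; norm_num
  have h5 := mul_le_mul_of_nonneg_left hfin (show (0 : ℝ) ≤ (1 / 4 : ℝ) ^ k1 by positivity)
  rw [← mul_assoc, h4, one_mul] at h5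
  calc (1 / 4 : ℝ) ^ k1 / 64 * d * P = (1 / 4 : ℝ) ^ k1 * (d * P / 64) := by ring
    _ ≤ _ := h5

end Pool.Agent.Lib.MP_c6118e_pr.Win
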